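import Pool.Agent.Work.MP_1e087a_ag.R4.Basic

/-!
# Isometries acting as `± 1` on the discriminant group are products of reflections
-/

namespace Pool.Agent.Mukai

variable {n B C : ℤ}

/-! ### The quadric modulo two, for an odd middle coefficient -/

/-- vectors modulo two -/
abbrev F4 : Type := ZMod 2 × ZMod 2 × ZMod 2 × ZMod 2

/-- reduction modulo two -/
def red (x : Mu) : F4 := (x.1, x.2.1, x.2.2.1, x.2.2.2)

def q2 (n C : ZMod 2) (x : F4) : ZMod 2 :=
  n * x.2.2.1 ^ 2 + x.2.2.1 * x.2.2.2 + C * x.2.2.2 ^ 2 + x.1 * x.2.1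

def p2 (x y : F4) : ZMod 2 :=
  x.2.2.1 * y.2.2.2 + x.2.2.2 * y.2.2.1 + x.1 * y.2.1 + x.2.1 * y.1

/-- in the same class -/
def Rl (x y : F4) : Prop := x = y ∨ p2 x y = 1

instance (x y : F4) : Decidable (Rl x y) := inferInstanceAs (Decidable (x = y ∨ p2 x y = 1))

theorem Rl_symm {x y : F4} (h : Rl x y) : Rl y x := by
  rcases h with h | h
  · exact Or.inl h.symm
  · right
    rw [← h]
    simp only [p2]
    ring

/-- the third vector -/
def RlT (n C : ZMod 2) (x y : F4) : Prop := ∀ z : F4, q2 n C z = 1 →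
  (Rl x y → Rl y z → Rl x z) ∧ (¬ Rl x y → ¬ Rl x z → Rl y z)

instance (n C : ZMod 2) (x y : F4) : Decidable (RlT n C x y) :=
  inferInstanceAs (Decidable (∀ z : F4, q2 n C z = 1 →
    (Rl x y → Rl y z → Rl x z) ∧ (¬ Rl x y → ¬ Rl x z → Rl y z)))

theorem RlT_all : ∀ n C : ZMod 2, n * C = 0 → ∀ x y : F4, q2 n C x = 1 → q2 n C y = 1 →
    RlT n C x y := by
  decide +kernel

theorem Rl_trans (n C : ZMod 2) (h : n * C = 0) (x y z : F4) (hx : q2 n C x = 1)
    (hy : q2 n C y = 1) (hz : q2 n C z = 1) (h1 : Rl x y) (h2 : Rl y z) : Rl x z :=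
  (RlT_all n C h x y hx hy z hz).1 h1 h2

theorem Rl_two (n C : ZMod 2) (h : n * C = 0) (x y z : F4) (hx : q2 n C x = 1)
    (hy : q2 n C y = 1) (hz : q2 n C z = 1) (h1 : ¬ Rl x y) (h2 : ¬ Rl x z) : Rl y z :=
  (RlT_all n C h x y hx hy z hz).2 h1 h2

theorem Rl_refl : ∀ n C : ZMod 2, n * C = 0 → ∀ x v : F4, q2 n C x = 1 → q2 n C v = 1 →
    Rl (x.1 + p2 x v * v.1, x.2.1 + p2 x v * v.2.1, x.2.2.1 + p2 x v * v.2.2.1,
      x.2.2.2 + p2 x v * v.2.2.2) x := by
  decide +kernel

theorem p2_inj : ∀ x v : F4, p2 x (1, 0, 0, 0) = p2 v (1, 0, 0, 0) →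
    p2 x (0, 1, 0, 0) = p2 v (0, 1, 0, 0) → p2 x (0, 0, 1, 0) = p2 v (0, 0, 1, 0) →
    p2 x (0, 0, 0, 1) = p2 v (0, 0, 0, 1) → x = v := by
  decide +kernel

theorem two_zero : (2 : ZMod 2) = 0 := by decide

theorem odd_cast {a : ℤ} (h : Odd a) : (a : ZMod 2) = 1 := by
  obtain ⟨k, rfl⟩ := h
  push_cast
  rw [two_zero]
  ring

theorem even_cast {a : ℤ} (h : Even a) : (a : ZMod 2) = 0 := by
  obtain ⟨k, rfl⟩ := h
  push_cast
  have : (k : ZMod 2) + k = 2 * k := by ring
  rw [this, two_zero, zero_mul]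

theorem q2_red (hB : Odd B) (x : Mu) : q2 n C (red x) = (Qf n B C x : ZMod 2) := by
  simp only [q2, red, Qf, qf]
  push_cast
  rw [odd_cast hB]
  have h : ∀ a : ZMod 2, a = -a := by decide
  linear_combination h ((x.1 : ZMod 2) * x.2.1)

theorem p2_red (hB : Odd B) (x y : Mu) : p2 (red x) (red y) = (Pf n B C x y : ZMod 2) := by
  simp only [p2, red, Pf, pf]
  push_cast
  rw [odd_cast hB]
  have h : ∀ a : ZMod 2, a = -a := by decide
  linear_combination h ((x.1 : ZMod 2) * y.2.1) + h ((x.2.1 : ZMod 2) * y.1) -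
    ((n : ZMod 2) * (x.2.2.1 * y.2.2.1) + C * (x.2.2.2 * y.2.2.2)) * two_zero

theorem red_add_smul (x v : Mu) (p : ℤ) : red (x + p • v) = ((red x).1 + p * (red v).1,
    (red x).2.1 + p * (red v).2.1, (red x).2.2.1 + p * (red v).2.2.1,
    (red x).2.2.2 + p * (red v).2.2.2) := by
  simp only [red, Prod.fst_add, Prod.snd_add, Prod.smul_fst, Prod.smul_snd, smul_eq_mul]
  push_cast
  rfl

theorem red_neg (x : Mu) : red (-x) = red x := by
  have h : ∀ a : ZMod 2, -a = a := by decide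
  simp only [red, Prod.fst_neg, Prod.snd_neg]
  push_cast
  rw [h, h, h, h]

/-- the elements of the group preserve the classes -/
theorem W_Rl (hB : Odd B) (hnC : Even (n * C)) {u : Au} (hu : u ∈ W n B C) {x : Mu}
    (hx : Odd (Qf n B C x)) : Rl (red (u x)) (red x) := by
  have hnC' : (n : ZMod 2) * C = 0 := by
    have := even_cast hnC
    push_cast at this
    exact this
  induction hu using Subgroup.closure_induction generalizing x with
  | mem u hu =>
    obtain ⟨v, hv, rfl⟩ := hu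
    have hvo : Odd (Qf n B C v) := by
      rcases hv with h | h <;> rw [h] <;> decide
    have h1 := Rl_refl n C hnC' (red x) (red v) (by rw [q2_red hB, odd_cast hx])
      (by rw [q2_red hB, odd_cast hvo])
    have h2 : red (R n B C v hv x) = ((red x).1 + p2 (red x) (red v) * (red v).1,
        (red x).2.1 + p2 (red x) (red v) * (red v).2.1,
        (red x).2.2.1 + p2 (red x) (red v) * (red v).2.2.1,
        (red x).2.2.2 + p2 (red x) (red v) * (red v).2.2.2) := by
      have h3 : R n B C v hv x = x + (-(Qf n B C v * Pf n B C x v)) • v := by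
        rw [R_apply, refl, neg_smul, sub_eq_add_neg]
      rw [h3, red_add_smul]
      have h4 : ((-(Qf n B C v * Pf n B C x v) : ℤ) : ZMod 2) = p2 (red x) (red v) := by
        have h : ∀ a : ZMod 2, -a = a := by decide
        push_cast
        rw [odd_cast hvo, one_mul, h, p2_red hB]
      rw [h4]
    rw [h2]
    exact h1
  | one => exact Or.inl rfl
  | mul a b ha hb iha ihb =>
    rw [LinearEquiv.mul_apply]
    have hbx : Odd (Qf n B C (b x)) := by rw [W_isom hb]; exact hx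
    have habx : Odd (Qf n B C (a (b x))) := by rw [W_isom ha]; exact hbx
    exact Rl_trans n C hnC' _ _ _ (by rw [q2_red hB, odd_cast habx])
      (by rw [q2_red hB, odd_cast hbx]) (by rw [q2_red hB, odd_cast hx]) (iha hbx) (ihb hx)
  | inv a ha iha =>
    have hax : Odd (Qf n B C (a⁻¹ x)) := by
      rw [← W_isom ha, apply_inv]; exact hx
    have h1 := iha hax
    rw [apply_inv] at h1
    exact Rl_symm h1

/-- the classes of the images of the odd vectors under an isometry fixing the class of an odd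
vector -/
theorem Rl_all (hB : Odd B) (hnC : Even (n * C)) {γ : Mu →+ Mu}
    (hγ : ∀ x, Qf n B C (γ x) = Qf n B C x) {v : Mu} (hv : Odd (Qf n B C v))
    (hvγ : Rl (red (γ v)) (red v)) {x : Mu} (hx : Odd (Qf n B C x)) :
    Rl (red (γ x)) (red x) := by
  have hnC' : (n : ZMod 2) * C = 0 := by
    have := even_cast hnC
    push_cast at this
    exact this
  have hP : ∀ x y, Pf n B C (γ x) (γ y) = Pf n B C x y := by
    intro x y
    rw [Pf_eq, Pf_eq, ← map_add, hγ, hγ, hγ]
  have o1 : q2 n C (red (γ v)) = 1 := by rw [q2_red hB, hγ, odd_cast hv]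
  have o2 : q2 n C (red v) = 1 := by rw [q2_red hB, odd_cast hv]
  have o3 : q2 n C (red (γ x)) = 1 := by rw [q2_red hB, hγ, odd_cast hx]
  have o4 : q2 n C (red x) = 1 := by rw [q2_red hB, odd_cast hx]
  by_cases hxv : Rl (red x) (red v)
  · have h1 : Rl (red (γ x)) (red (γ v)) := by
      rcases hxv with h | h
      · left
        -- `x - v` is even
        have e : ∀ a b : ℤ, (a : ZMod 2) = b → ∃ c, a = b + (c + c) := by
          intro a b hab
          obtain ⟨c, hc⟩ := cast_two_eq_zero (a := a - b) (by push_cast; rw [hab, sub_self])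
          exact ⟨c, by linarith⟩
        simp only [red, Prod.mk.injEq] at h
        obtain ⟨z1, e1⟩ := e _ _ h.1
        obtain ⟨z2, e2⟩ := e _ _ h.2.1
        obtain ⟨z3, e3⟩ := e _ _ h.2.2.1
        obtain ⟨z4, e4⟩ := e _ _ h.2.2.2
        have hx' : x = v + ((z1, z2, z3, z4) + (z1, z2, z3, z4)) := by
          ext
          · exact e1
          · exact e2
          · exact e3
          · exact e4
        have h2 : γ x = γ v + (2 : ℤ) • γ (z1, z2, z3, z4) := by
          rw [two_zsmul, ← map_add, ← map_add, ← hx']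
        rw [h2, red_add_smul]
        push_cast
        rw [two_zero]
        simp
      · right
        rw [p2_red hB, hP, ← p2_red hB, h]
    exact Rl_trans n C hnC' _ _ _ o3 o2 o4
      (Rl_trans n C hnC' _ _ _ o3 o1 o2 h1 hvγ) (Rl_symm hxv)
  · have h1 : ¬ Rl (red (γ x)) (red (γ v)) := by
      rintro (h | h)
      · apply hxv
        left
        have key : ∀ y : Mu, p2 (red x) (red y) = p2 (red v) (red y) := by
          intro y
          rw [p2_red hB, p2_red hB, ← hP x y, ← hP v y, ← p2_red hB, ← p2_red hB, h]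
        refine p2_inj _ _ ?_ ?_ ?_ ?_
        · simpa [red] using key (1, 0, 0, 0)
        · simpa [red] using key (0, 1, 0, 0)
        · simpa [red] using key (0, 0, 1, 0)
        · simpa [red] using key (0, 0, 0, 1)
      · apply hxv
        right
        rw [p2_red hB, ← hP, ← p2_red hB, h]
    have h2 : ¬ Rl (red v) (red (γ x)) := by
      intro h
      exact h1 (Rl_trans n C hnC' _ _ _ o3 o2 o1 (Rl_symm h) (Rl_symm hvγ))
    have h3 : ¬ Rl (red v) (red x) := fun h => hxv (Rl_symm h)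
    exact Rl_two n C hnC' _ _ _ o2 o3 o4 h2 h3

/-! ### The twists -/

theorem all_aux : ∀ n B C a b : ZMod 2,
    ((B = 1 ∧ n = 1 ∧ C = 1) ∨ (B = 0 ∧ (n = 1 ∨ C = 1))) →
    (a = 0 ∧ b = 0) ∨ n * a ^ 2 + B * (a * b) + C * b ^ 2 = 1 ∨
    (n = 1 ∧ n * (a - 1) ^ 2 + B * ((a - 1) * b) + C * b ^ 2 = 1) ∨
    (C = 1 ∧ n * a ^ 2 + B * (a * (b - 1)) + C * (b - 1) ^ 2 = 1) ∨
    (n + B + C = 1 ∧ n * (a - 1) ^ 2 + B * ((a - 1) * (b - 1)) + C * (b - 1) ^ 2 = 1) := by
  decide

/-- the condition for all twists to be products of reflections -/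
def ParOK (n B C : ℤ) : Prop := (Odd B ∧ Odd n ∧ Odd C) ∨ (Even B ∧ (Odd n ∨ Odd C))

theorem ex_zero_mem {a : ℤ × ℤ} (h1 : (a.1 : ZMod 2) = 0) (h2 : (a.2 : ZMod 2) = 0) :
    ex n B C a ∈ W n B C := by
  obtain ⟨c, hc⟩ := cast_two_eq_zero h1
  obtain ⟨d, hd⟩ := cast_two_eq_zero h2
  have : a = (c, d) + (c, d) := by
    ext
    · exact hc
    · exact hd
  rw [this]
  exact ex_two_mem _

theorem ex_all (hp : ParOK n B C) (a : ℤ × ℤ) : ex n B C a ∈ W n B C := by
  have hp' : ((B : ZMod 2) = 1 ∧ (n : ZMod 2) = 1 ∧ (C : ZMod 2) = 1) ∨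
      ((B : ZMod 2) = 0 ∧ ((n : ZMod 2) = 1 ∨ (C : ZMod 2) = 1)) := by
    rcases hp with ⟨h1, h2, h3⟩ | ⟨h1, h2⟩
    · exact Or.inl ⟨odd_cast h1, odd_cast h2, odd_cast h3⟩
    · right
      refine ⟨even_cast h1, ?_⟩
      rcases h2 with h2 | h2
      · exact Or.inl (odd_cast h2)
      · exact Or.inr (odd_cast h2)
  obtain ⟨a1, a2⟩ := a
  have key : ∀ b1 b2 : ℤ, (qf n B C (b1, b2) : ZMod 2) = 1 →
      (qf n B C (a1 - b1, a2 - b2) : ZMod 2) = 1 → ex n B C (a1, a2) ∈ W n B C := by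
    intro b1 b2 h1 h2
    have : ((a1, a2) : ℤ × ℤ) = (b1, b2) + (a1 - b1, a2 - b2) := by
      ext <;> simp
    rw [this, ex_add]
    exact mul_mem (ex_odd_mem' h1) (ex_odd_mem' h2)
  rcases all_aux n B C a1 a2 hp' with h | h | h | h | h
  · exact ex_zero_mem h.1 h.2
  · apply ex_odd_mem'
    simp only [qf]
    push_cast
    exact h
  · refine key 1 0 ?_ ?_
    · simp only [qf]
      push_cast
      simpa using h.1
    · simp only [qf]
      push_cast
      simpa using h.2
  · refine key 0 1 ?_ ?_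
    · simp only [qf]
      push_cast
      simpa using h.1
    · simp only [qf]
      push_cast
      simpa using h.2
  · refine key 1 1 ?_ ?_
    · simp only [qf]
      push_cast
      simpa using h.1
    · simp only [qf]
      push_cast
      exact h.2

/-! ### The theorem -/

/-- the parity condition of the theorem -/
def Par (n B C : ℤ) (g : Mu →+ Mu) : Prop :=
  ParOK n B C ∨ (Odd B ∧ Even (n * C) ∧ ∃ v : Mu, Odd (Qf n B C v) ∧ (g v = v ∨ g v = -v))

theorem IsProd.mul_mem {g : Mu → Mu} (hg : IsProd n B C g) {u : Au} (hu : u ∈ W n B C)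
    {g' : Mu → Mu} (h : ∀ x, g' x = u (g x)) : IsProd n B C g' := by
  obtain ⟨l, h1, h2⟩ := hg
  obtain ⟨l', h3, h4⟩ := isProd_of_mem hu
  refine ⟨l' ++ l, ?_, fun x => ?_⟩
  · intro v hv
    rcases List.mem_append.1 hv with h | h
    · exact h3 v h
    · exact h1 v h
  · rw [h, h4, List.foldr_append, ← h2]

theorem core (hc : Cov n B C) (hΔ0 : 0 < B ^ 2 - 4 * n * C)
    (hΔs : ¬ IsSquare (B ^ 2 - 4 * n * C))
    (hga : ∃ a, Prim a ∧ (qf n B C a).natAbs ∈ goodList)
    {ν : ℤ} (hν : ν = 1 ∨ ν = -1) {g : Mu →+ Mu} (hg : ∀ x, Qf n B C (g x) = Qf n B C x)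
    (hd : DiscActN n B C ν g) (hp : Par n B C g) : IsProd n B C (fun x => ν • g x) := by
  have hPg : ∀ x y, Pf n B C (g x) (g y) = Pf n B C x y := by
    intro x y
    rw [Pf_eq, Pf_eq, ← map_add, hg, hg, hg]
  -- the descent
  obtain ⟨h, hh, h0⟩ := descent hc (w := g (0, 1, 0)) (by rw [hg]; simp [Qf, qf])
  have hhI := W_isom hh
  have hq0 : Qf n B C (h (g (0, 1, 0))) = 0 := by
    rw [hhI, hg]
    simp [Qf, qf]
  have hD0 : (h (g (0, 1, 0))).2.2 = 0 := by
    apply qf_eq_zero hΔs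
    rw [Qf, h0, zero_mul, sub_zero] at hq0
    exact hq0
  obtain ⟨s, hs⟩ : ∃ s, (h (g (0, 1, 0))).2.1 = s := ⟨_, rfl⟩
  have he : h (g (0, 1, 0)) = (0, s, 0) := by
    rw [← hs]
    exact Prod.ext h0 (Prod.ext rfl hD0)
  have hs1 : s = 1 ∨ s = -1 := by
    have h1 : Pf n B C (h (g (0, 1, 0))) (h (g (1, 0, 0))) = -1 := by
      rw [hhI.Pf, hPg]
      simp [Pf, pf]
    rw [he] at h1
    have h2 : s * (h (g (1, 0, 0))).1 = 1 := by
      simp only [Pf, pf] at h1
      simp at h1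
      linarith
    exact Int.eq_one_or_neg_one_of_mul_eq_one h2
  obtain ⟨k, hk, hkx⟩ := sign_mem (n := n) (B := B) (C := C) hs1
  have hss : s * s = 1 := by rcases hs1 with rfl | rfl <;> norm_num
  set u : Au := k * h with hu
  have huW : u ∈ W n B C := mul_mem hk hh
  have huI := W_isom huW
  have hue : u (g (0, 1, 0)) = (0, 1, 0) := by
    rw [hu, LinearEquiv.mul_apply, he, hkx]
    simp [hss]
  obtain ⟨a, huf⟩ : ∃ a : ℤ × ℤ, u (g (1, 0, 0)) = (1, qf n B C a, a) := by
    have h1 : Pf n B C (u (g (0, 1, 0))) (u (g (1, 0, 0))) = -1 := by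
      rw [huI.Pf, hPg]
      simp [Pf, pf]
    have h2 : Qf n B C (u (g (1, 0, 0))) = 0 := by
      rw [huI, hg]
      simp [Qf, qf]
    rw [hue] at h1
    generalize u (g (1, 0, 0)) = y at h1 h2
    obtain ⟨y1, y2, y3⟩ := y
    have h3 : y1 = 1 := by
      simp [Pf, pf] at h1
      linarith
    refine ⟨y3, ?_⟩
    subst h3
    have h4 : y2 = qf n B C y3 := by
      simp only [Qf] at h2
      linarith
    rw [h4]
  -- the twist
  have hex : ex n B C a ∈ W n B C := by
    rcases hp with hp | ⟨hB, hnC, v, hv, hgv⟩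
    · exact ex_all hp a
    · set γ : Mu →+ Mu := u.toLinearMap.toAddMonoidHom.comp g with hγ
      have hγx : ∀ x, γ x = u (g x) := fun x => rfl
      have hvγ : Rl (red (γ v)) (red v) := by
        have h1 : Odd (Qf n B C (g v)) := by rw [hg]; exact hv
        have h2 := W_Rl hB hnC huW h1
        have h3 : red (g v) = red v := by
          rcases hgv with h | h
          · rw [h]
          · rw [h, red_neg]
        rw [h3] at h2
        exact h2
      have hodd : Odd (Qf n B C (1, 1, 0)) := by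
        simp [Qf, qf]
      have h4 := Rl_all hB hnC (γ := γ) (fun x => by rw [hγx, huI, hg]) hv hvγ hodd
      have h5 : γ (1, 1, 0) = (1, qf n B C a + 1, a) := by
        have h6 : ((1, 1, 0) : Mu) = (1, 0, 0) + (0, 1, 0) := by
          ext <;> simp
        rw [h6, map_add, hγx, hγx, huf, hue]
        ext <;> simp
      rw [h5] at h4
      rcases h4 with h4 | h4
      · simp only [red, Prod.mk.injEq] at h4
        obtain ⟨_, _, h7, h8⟩ := h4
        exact ex_zero_mem (by simpa using h7) (by simpa using h8)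
      · apply ex_odd_mem'
        simp only [p2, red] at h4
        push_cast at h4
        have h9 : ∀ z : ZMod 2, a.1 * 0 + a.2 * 0 + 1 * 1 + (z + 1) * 1 = 1 → z = 1 := by
          intro z hz
          have : z + 2 = 1 := by linear_combination hz
          rw [two_zero, add_zero] at this
          exact this
        apply h9
        simpa using h4
  -- the isometry `id ⊕ f`
  set u2 : Au := (ex n B C a)⁻¹ * u with hu2
  have hu2W : u2 ∈ W n B C := mul_mem (inv_mem hex) huW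
  have hu2I := W_isom hu2W
  have e1 : u2 (g (0, 1, 0)) = (0, 1, 0) := by
    rw [hu2, ← ex_neg, LinearEquiv.mul_apply, hue, ex_apply]
    ext <;> simp [pf]
  have e2 : u2 (g (1, 0, 0)) = (1, 0, 0) := by
    rw [hu2, ← ex_neg, LinearEquiv.mul_apply, huf, ex_apply]
    ext
    · simp
    · simp only [pf, qf, Prod.fst_neg, Prod.snd_neg]
      ring
    · simp
    · simp
  set γ : Mu →+ Mu := u2.toLinearMap.toAddMonoidHom.comp g with hγ
  have hγx : ∀ x, γ x = u2 (g x) := fun x => rfl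
  have hγQ : ∀ x, Qf n B C (γ x) = Qf n B C x := fun x => by rw [hγx, hu2I, hg]
  have hγP : ∀ x y, Pf n B C (γ x) (γ y) = Pf n B C x y := by
    intro x y
    rw [Pf_eq, Pf_eq, ← map_add, hγQ, hγQ, hγQ]
  set f : ℤ × ℤ →+ ℤ × ℤ := ((AddMonoidHom.snd ℤ (ℤ × ℤ)).comp
    (AddMonoidHom.snd ℤ (ℤ × ℤ × ℤ))).comp (γ.comp ((AddMonoidHom.inr ℤ (ℤ × ℤ × ℤ)).comp
      (AddMonoidHom.inr ℤ (ℤ × ℤ)))) with hf
  have hfx : ∀ D, f D = (γ (0, 0, D)).2.2 := fun D => rfl
  have hγD : ∀ D, γ (0, 0, D) = (0, 0, f D) := by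
    intro D
    have h1 := hγP (0, 0, D) (0, 1, 0)
    have h2 := hγP (0, 0, D) (1, 0, 0)
    rw [hγx (0, 1, 0), e1] at h1
    rw [hγx (1, 0, 0), e2] at h2
    rw [hfx]
    generalize γ (0, 0, D) = y at h1 h2
    obtain ⟨y1, y2, y3⟩ := y
    simp [Pf, pf] at h1 h2
    rw [h1, h2]
  have hγall : ∀ x : Mu, γ x = (x.1, x.2.1, f x.2.2) := by
    intro x
    obtain ⟨x1, x2, x3⟩ := x
    have h1 : ((x1, x2, x3) : Mu) = x1 • (1, 0, 0) + x2 • (0, 1, 0) + (0, 0, x3) := by
      ext <;> simp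
    rw [h1, map_add, map_add, map_zsmul, map_zsmul, hγD, hγx (1, 0, 0), hγx (0, 1, 0), e1, e2]
    ext <;> simp
  have hfq : ∀ D, qf n B C (f D) = qf n B C D := by
    intro D
    have h1 := hγQ (0, 0, D)
    rw [hγD] at h1
    simpa [Qf] using h1
  have hfd : DiscAct n B C ν f := by
    intro φ
    set Φ : Mu →+ ℤ := φ.comp ((AddMonoidHom.snd ℤ (ℤ × ℤ)).comp
      (AddMonoidHom.snd ℤ (ℤ × ℤ × ℤ))) with hΦ
    have hΦx : ∀ x : Mu, Φ x = φ x.2.2 := fun x => rfl
    obtain ⟨b, hb⟩ := hd (Φ.comp u2.toLinearMap.toAddMonoidHom)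
    obtain ⟨c, hcx⟩ := W_disc hu2W Φ
    refine ⟨(b + ν • c).2.2, fun D => ?_⟩
    have h1 := hb (0, 0, D)
    have h2 := hcx (0, 0, D)
    have h3 : (Φ.comp u2.toLinearMap.toAddMonoidHom) (g (0, 0, D)) = φ (f D) := by
      show Φ (γ (0, 0, D)) = φ (f D)
      rw [hγD, hΦx]
    have h4 : (Φ.comp u2.toLinearMap.toAddMonoidHom) (0, 0, D) = Φ (u2 (0, 0, D)) := rfl
    rw [h3, h4] at h1
    have h5 : Φ (0, 0, D) = φ D := hΦx _
    rw [h5] at h2
    simp only [Pf, pf, Prod.fst_add, Prod.snd_add, Prod.smul_fst, Prod.smul_snd, smul_eq_mul,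
      mul_zero, sub_zero] at h1 h2 ⊢
    linear_combination h1 + ν * h2
  have hprod : IsProd n B C (lift ν f) := by
    obtain ⟨a', ha', hga⟩ := hga
    exact lift_good' hν hΔ0 hΔs hfq hfd ha' hga
  refine hprod.mul_mem (inv_mem hu2W) fun x => ?_
  have h1 : lift ν f x = ν • γ x := by
    rw [hγall, lift_apply]
    ext <;> simp
  rw [h1, map_zsmul]
  congr 1
  rw [hγx]
  exact (LinearEquiv.symm_apply_apply u2 (g x)).symm

end Pool.Agent.Mukai
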