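import Pool.Agent.Work.MP_1e087a_ag.Defs

/-!
# Isometries of the Mukai lattice of a K3 surface of Picard number two: definitions
-/

namespace Pool.Agent.Mukai

/-- `g` acts as multiplication by `ν` on the discriminant group of the Mukai lattice: for every
linear form `φ` the form `φ ∘ g - ν φ` is the pairing with an element of the lattice -/
def DiscActN (n B C ν : ℤ) (g : Mu →+ Mu) : Prop :=
  ∀ φ : Mu →+ ℤ, ∃ a : Mu, ∀ x, φ (g x) - ν * φ x = Pf n B C a x

end Pool.Agent.Mukai
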