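import Pool.Agent.Work.MP_1e087a_ag.Red
import Pool.Agent.Work.MP_1e087a_ag.R4.Defs

/-!
# Descent on isotropic vectors
-/

namespace Pool.Agent.Mukai

variable {n B C : ℤ}

/-- the covering property -/
def Cov (n B C : ℤ) : Prop := ∀ r x y : ℤ, 0 < r → ∃ ρ σ b c κ : ℤ, (κ = 1 ∨ κ = -1) ∧
  ρ * σ = qf n B C (b, c) - κ ∧ |qf n B C (ρ * x - r * b, ρ * y - r * c)| < r ^ 2

theorem R_isom {v : Mu} (hv : Unit2 n B C v) : Isom n B C (R n B C v hv) := by
  intro x
  rw [R_apply]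
  have h1 : Qf n B C v * Qf n B C v = 1 := by
    rcases hv with h | h <;> rw [h] <;> norm_num
  obtain ⟨v1, v2, v3, v4⟩ := v
  obtain ⟨x1, x2, x3, x4⟩ := x
  set q := Qf n B C (v1, v2, v3, v4) with hq
  have hq' : n * v3 ^ 2 + B * (v3 * v4) + C * v4 ^ 2 - v1 * v2 = q := hq.symm
  simp only [refl, ← hq]
  generalize hP : Pf n B C (x1, x2, x3, x4) (v1, v2, v3, v4) = P
  have hP' : 2 * n * (x3 * v3) + B * (x3 * v4 + x4 * v3) + 2 * C * (x4 * v4) - x1 * v2 - x2 * v1
      = P := hP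
  clear_value q
  simp only [Qf, qf, Prod.fst_sub, Prod.snd_sub, Prod.smul_fst, Prod.smul_snd, smul_eq_mul]
  linear_combination (-q * P) * hP' + (q * P) ^ 2 * hq' + P ^ 2 * q * h1

theorem W_isom {g : Au} (hg : g ∈ W n B C) : Isom n B C g := by
  induction hg using Subgroup.closure_induction with
  | mem g hg =>
    obtain ⟨v, hv, rfl⟩ := hg
    exact R_isom hv
  | one => intro x; rfl
  | mul a b _ _ ha hb => exact ha.mul hb
  | inv a _ ha => exact ha.inv

/-- one step of the descent -/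
theorem descent_step (hc : Cov n B C) {w : Mu} (hw : Qf n B C w = 0) (hw1 : w.1 ≠ 0) :
    ∃ h ∈ W n B C, (h w).1.natAbs < w.1.natAbs := by
  obtain ⟨r, s, x, y⟩ := w
  simp only at hw1
  have hq : n * x ^ 2 + B * (x * y) + C * y ^ 2 = r * s := by
    have : n * x ^ 2 + B * (x * y) + C * y ^ 2 - r * s = 0 := hw
    linarith
  obtain ⟨ρ, σ, b, c, κ, hκ, hρ, hlt⟩ : ∃ ρ σ b c κ : ℤ, (κ = 1 ∨ κ = -1) ∧
      ρ * σ = qf n B C (b, c) - κ ∧ |qf n B C (ρ * x - r * b, ρ * y - r * c)| < r ^ 2 := by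
    rcases lt_or_gt_of_ne hw1 with h | h
    · obtain ⟨ρ, σ, b, c, κ, h1, h2, h3⟩ := hc (-r) (-x) (-y) (by linarith)
      refine ⟨ρ, σ, b, c, κ, h1, h2, ?_⟩
      have e : qf n B C (ρ * x - r * b, ρ * y - r * c) =
          qf n B C (ρ * -x - -r * b, ρ * -y - -r * c) := by
        simp only [qf]
        ring
      rw [e]
      simpa using h3
    · exact hc r x y h
  have hQ : Qf n B C (ρ, σ, b, c) = κ := by
    show qf n B C (b, c) - ρ * σ = κ
    rw [hρ]
    ring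
  have hu : Unit2 n B C (ρ, σ, b, c) := by
    unfold Unit2
    rw [hQ]
    exact hκ
  have hκ' : κ * κ = 1 := by rcases hκ with rfl | rfl <;> norm_num
  refine ⟨R n B C _ hu, R_mem hu, ?_⟩
  have hid : r * (R n B C _ hu (r, s, x, y)).1 =
      κ * qf n B C (ρ * x - r * b, ρ * y - r * c) := by
    rw [R_apply, refl, hQ]
    simp only [qf] at hρ
    simp only [Pf, pf, qf, Prod.fst_sub, Prod.smul_fst, smul_eq_mul]
    linear_combination (κ * r ^ 2) * hρ - (κ * ρ ^ 2) * hq - r ^ 2 * hκ'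
  have habs : |r| * |(R n B C _ hu (r, s, x, y)).1| < |r| * |r| := by
    rw [← abs_mul, hid, abs_mul, abs_mul_abs_self]
    have : |κ| = 1 := by rcases hκ with rfl | rfl <;> norm_num
    rw [this, one_mul, ← sq]
    exact hlt
  have h2 := lt_of_mul_lt_mul_left habs (abs_nonneg r)
  rw [Int.abs_eq_natAbs, Int.abs_eq_natAbs] at h2
  exact_mod_cast h2

theorem descent (hc : Cov n B C) {w : Mu} (hw : Qf n B C w = 0) :
    ∃ h ∈ W n B C, (h w).1 = 0 := by
  obtain ⟨N, hN⟩ : ∃ N, w.1.natAbs = N := ⟨_, rfl⟩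
  induction N using Nat.strong_induction_on generalizing w with
  | _ N ih =>
    by_cases h0 : w.1 = 0
    · exact ⟨1, one_mem _, h0⟩
    · obtain ⟨h, hh, hlt⟩ := descent_step hc hw h0
      obtain ⟨h', hh', h1⟩ := ih (h w).1.natAbs (by rw [← hN]; exact hlt)
        (by rw [W_isom hh]; exact hw) rfl
      exact ⟨h' * h, mul_mem hh' hh, h1⟩

/-- the elements of the group act trivially on the discriminant group -/
theorem W_disc {u : Au} (hu : u ∈ W n B C) (φ : Mu →+ ℤ) :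
    ∃ a : Mu, ∀ x, φ (u x) - φ x = Pf n B C a x := by
  induction hu using Subgroup.closure_induction generalizing φ with
  | mem u hu =>
    obtain ⟨v, hv, rfl⟩ := hu
    refine ⟨-(Qf n B C v * φ v) • v, fun x => ?_⟩
    rw [R_apply, refl, map_sub, map_zsmul]
    simp only [Pf, pf, Prod.smul_fst, Prod.smul_snd, smul_eq_mul]
    ring
  | one => exact ⟨0, fun x => by simp [Pf, pf]⟩
  | mul a b ha hb iha ihb =>
    obtain ⟨p, hp⟩ := iha φ
    obtain ⟨q, hq⟩ := ihb φ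
    refine ⟨b⁻¹ p + q, fun x => ?_⟩
    have h1 : Pf n B C (b⁻¹ p) x = Pf n B C p (b x) := by
      rw [← (W_isom hb).Pf, apply_inv]
    have h2 : Pf n B C (b⁻¹ p + q) x = Pf n B C (b⁻¹ p) x + Pf n B C q x := by
      simp only [Pf, pf, Prod.fst_add, Prod.snd_add]
      ring
    rw [h2, h1, ← hp (b x), ← hq x, LinearEquiv.mul_apply]
    ring
  | inv a ha iha =>
    obtain ⟨p, hp⟩ := iha φ
    refine ⟨-(a p), fun x => ?_⟩
    have h1 : Pf n B C (-(a p)) x = -Pf n B C p (a⁻¹ x) := by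
      have h2 : Pf n B C (-(a p)) x = -Pf n B C (a p) x := by
        simp only [Pf, pf, Prod.fst_neg, Prod.snd_neg]
        ring
      have h3 : Pf n B C (a p) x = Pf n B C p (a⁻¹ x) := by
        rw [← (W_isom ha).Pf (n := n) (B := B) (C := C) p (a⁻¹ x), apply_inv]
      rw [h2, h3]
    rw [h1, ← hp (a⁻¹ x), apply_inv]
    ring

theorem qf_eq_zero (hΔs : ¬ IsSquare (B ^ 2 - 4 * n * C)) {x : ℤ × ℤ} (hx : qf n B C x = 0) :
    x = 0 := by
  by_contra hne
  obtain ⟨x1, x2⟩ := x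
  -- divide by the gcd
  have hg : 0 < Int.gcd x1 x2 := by
    rw [Int.gcd_pos_iff]
    by_contra h
    push Not at h
    exact hne (by rw [h.1, h.2]; rfl)
  obtain ⟨u, v, huv, e1, e2⟩ := Int.exists_gcd_one hg
  have hp : Prim (u, v) := by
    unfold Prim
    rw [Int.isCoprime_iff_gcd_eq_one]
    exact huv
  apply prim_ne hp hΔs
  have hgz : (Int.gcd x1 x2 : ℤ) ≠ 0 := by exact_mod_cast hg.ne'
  have h1 : (Int.gcd x1 x2 : ℤ) ^ 2 * qf n B C (u, v) = 0 := by
    rw [← hx]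
    simp only [qf]
    generalize (Int.gcd x1 x2 : ℤ) = d at e1 e2
    rw [e1, e2]
    ring
  rcases mul_eq_zero.1 h1 with h2 | h2
  · exact absurd (pow_eq_zero_iff (two_ne_zero) |>.1 h2) hgz
  · exact h2

end Pool.Agent.Mukai
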