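import Pool.Agent.Work.MP_1e087a_ag.R4.Table

/-!
# Covers for the discriminants from 5 to 253
-/

namespace Pool.Agent.Mukai

/-- a cover for the form `(1, 1, -1)` of discriminant `5` -/
def t5 : CT :=
  let c0 : CT := .l 1 0 0
  let c1 : CT := .l 1 1 0
  .x c0 c1

theorem ok5 : okF 1 1 (-1) t5 = true := by decide +kernel

theorem all5 : AllA 5 := allA (D := 5) (thm_of_ok ok5)
  (l :=
    [(1, 0, 0, 1)])
  (by decide +kernel)

/-- a cover for the form `(1, 2, -1)` of discriminant `8` -/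
def t8 : CT :=
  let c0 : CT := .l 1 0 0
  let c1 : CT := .l 1 1 0
  .x c0 c1

theorem ok8 : okF 1 2 (-1) t8 = true := by decide +kernel

theorem all8 : AllA 8 := allA (D := 8) (thm_of_ok ok8)
  (l :=
    [(-1, 0, -1, -1)])
  (by decide +kernel)

/-- a cover for the form `(1, 2, -2)` of discriminant `12` -/
def t12 : CT :=
  let c0 : CT := .l 1 0 0
  let c1 : CT := .l 1 1 0
  .x c0 c1

theorem ok12 : okF 1 2 (-2) t12 = true := by decide +kernel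

theorem all12 : AllA 12 := allA (D := 12) (thm_of_ok ok12)
  (l :=
    [(-1, 0, -1, -1)])
  (by decide +kernel)

/-- a cover for the form `(1, 3, -1)` of discriminant `13` -/
def t13 : CT :=
  let c0 : CT := .l 1 0 0
  let c1 : CT := .l 1 1 0
  .x c0 c1

theorem ok13 : okF 1 3 (-1) t13 = true := by decide +kernel

theorem all13 : AllA 13 := allA (D := 13) (thm_of_ok ok13)
  (l :=
    [(-1, 0, -1, -1)])
  (by decide +kernel)

/-- a cover for the form `(2, 1, -2)` of discriminant `17` -/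
def t17 : CT :=
  let c0 : CT := .l 1 0 0
  let c1 : CT := .l 1 1 0
  .x c0 c1

theorem ok17 : okF 2 1 (-2) t17 = true := by decide +kernel

theorem all17 : AllA 17 := allA (D := 17) (thm_of_ok ok17)
  (l :=
    [(3, -1, -2, 1), (1, 0, 0, 1)])
  (by decide +kernel)

/-- a cover for the form `(1, 3, -3)` of discriminant `21` -/
def t21 : CT :=
  let c0 : CT := .l 1 0 0
  let c1 : CT := .l 1 1 0
  let c2 : CT := .l 1 1 1
  let c3 : CT := .l 2 2 1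
  .x (.y c0 c0) (.y c1 (.x (.y c1 c2) (.y c1 c3)))

theorem ok21 : okF 1 3 (-3) t21 = true := by decide +kernel

theorem all21 : AllA 21 := allA (D := 21) (thm_of_ok ok21)
  (l :=
    [(-1, 0, -1, -1)])
  (by decide +kernel)

/-- a cover for the form `(1, 4, -2)` of discriminant `24` -/
def t24 : CT :=
  let c0 : CT := .l 1 0 0
  let c1 : CT := .l 1 1 0
  let c2 : CT := .l 1 1 1
  .x (.y c0 c0) (.y c1 (.x c2 c1))

theorem ok24 : okF 1 4 (-2) t24 = true := by decide +kernel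

theorem all24 : AllA 24 := allA (D := 24) (thm_of_ok ok24)
  (l :=
    [(-1, 0, -2, -1), (1, 1, -1, 0)])
  (by decide +kernel)

/-- a cover for the form `(1, 4, -3)` of discriminant `28` -/
def t28 : CT :=
  let c0 : CT := .l 1 0 0
  let c1 : CT := .l 1 1 0
  let c2 : CT := .l 1 1 1
  let c3 : CT := .l 2 2 1
  .x (.y c0 c0) (.y c1 (.x c2 (.y c1 c3)))

theorem ok28 : okF 1 4 (-3) t28 = true := by decide +kernel

theorem all28 : AllA 28 := allA (D := 28) (thm_of_ok ok28)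
  (l :=
    [(-1, 0, -2, -1), (-2, 1, 1, -1)])
  (by decide +kernel)

/-- a cover for the form `(1, 5, -1)` of discriminant `29` -/
def t29 : CT :=
  let c0 : CT := .l 1 0 0
  let c1 : CT := .l 2 1 1
  let c2 : CT := .l 1 1 0
  let c3 : CT := .l 1 1 2
  .x (.x c0 (.y c0 (.x c0 c1))) (.x (.y c2 (.x c1 c3)) c2)

theorem ok29 : okF 1 5 (-1) t29 = true := by decide +kernel

theorem all29 : AllA 29 := allA (D := 29) (thm_of_ok ok29)
  (l :=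
    [(-1, 0, -2, -1)])
  (by decide +kernel)

/-- a cover for the form `(2, 3, -3)` of discriminant `33` -/
def t33 : CT :=
  let c0 : CT := .l 1 0 0
  let c1 : CT := .l 1 1 0
  let c2 : CT := .l 1 1 1
  let c3 : CT := .l 2 2 1
  .x (.y c0 (.x c0 c0)) (.y c1 (.x (.y c1 c2) (.y c1 c3)))

theorem ok33 : okF 2 3 (-3) t33 = true := by decide +kernel

theorem all33 : AllA 33 := allA (D := 33) (thm_of_ok ok33)
  (l :=
    [(3, -1, 7, -2), (2, -1, -1, 1)])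
  (by decide +kernel)

/-- a cover for the form `(3, 1, -3)` of discriminant `37` -/
def t37 : CT :=
  let c0 : CT := .l 1 0 0
  let c1 : CT := .l 1 1 0
  .x (.x c0 (.y c0 c0)) (.x (.y c1 c1) c1)

theorem ok37 : okF 3 1 (-3) t37 = true := by decide +kernel

theorem all37 : AllA 37 := allA (D := 37) (thm_of_ok ok37)
  (l :=
    [(4, -1, -3, 1), (1, 0, 0, 1)])
  (by decide +kernel)

/-- a cover for the form `(3, 2, -3)` of discriminant `40` -/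
def t40 : CT :=
  let c0 : CT := .l 1 0 0
  let c1 : CT := .l 1 1 0
  .x (.x c0 (.y c0 c0)) (.x (.y c1 c1) c1)

theorem ok40 : okF 3 2 (-3) t40 = true := by decide +kernel

theorem all40 : AllB 40 := allB (D := 40) (thm_of_ok ok40)
  (l :=
    [(2, -1, -1, 1), (1, 0, 0, 1)])
  (l' :=
    [(1, 0)])
  (by decide +kernel)

/-- a cover for the form `(2, 3, -4)` of discriminant `41` -/
def t41 : CT :=
  let c0 : CT := .l 1 0 0
  let c1 : CT := .l 1 1 0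
  let c2 : CT := .l 2 1 1
  let c3 : CT := .l 1 2 0
  .x (.y c0 (.x (.y c0 (.x c1 c0)) c0)) (.y c1 (.x (.y c1 c2) (.y c1 (.x (.y c2 c3) c3))))

theorem ok41 : okF 2 3 (-4) t41 = true := by decide +kernel

theorem all41 : AllA 41 := allA (D := 41) (thm_of_ok ok41)
  (l :=
    [(4, -1, -3, 1), (-13, 7, 11, -6)])
  (by decide +kernel)

/-- a cover for the form `(1, 6, -2)` of discriminant `44` -/
def t44 : CT :=
  let c0 : CT := .l 1 0 0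
  let c1 : CT := .l 3 1 1
  let c2 : CT := .l 2 1 1
  let c3 : CT := .l 1 1 0
  let c4 : CT := .l 1 1 1
  .x (.y c0 (.x c0 (.y c1 c2))) (.y c3 (.x (.y (.x (.y c3 c2) c3) c2) (.y c3 c4)))

theorem ok44 : okF 1 6 (-2) t44 = true := by decide +kernel

theorem all44 : AllA 44 := allA (D := 44) (thm_of_ok ok44)
  (l :=
    [(-1, 0, -3, -1), (1, 1, -1, 0)])
  (by decide +kernel)

/-- a cover for the form `(1, 7, -1)` of discriminant `53` -/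
def t53 : CT :=
  let c0 : CT := .l 1 0 0
  let c1 : CT := .l 1 1 0
  let c2 : CT := .l 2 0 1
  let c3 : CT := .l 2 1 1
  let c4 : CT := .l 2 1 0
  let c5 : CT := .l 3 2 1
  let c6 : CT := .l 1 1 1
  .x (.x c0 (.y c1 (.x (.y c0 c2) c3))) (.x (.y c1 (.x (.y c4 c3) c5)) (.y c1 c6))

theorem ok53 : okF 1 7 (-1) t53 = true := by decide +kernel

theorem all53 : AllA 53 := allA (D := 53) (thm_of_ok ok53)
  (l :=
    [(-1, 0, -3, -1)])
  (by decide +kernel)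

/-- a cover for the form `(1, 6, -5)` of discriminant `56` -/
def t56 : CT :=
  let c0 : CT := .l 1 0 0
  let c1 : CT := .l 1 1 0
  let c2 : CT := .l 2 0 1
  let c3 : CT := .l 3 2 1
  let c4 : CT := .l 2 2 1
  let c5 : CT := .l 1 1 1
  .y (.x c0 c1) (.x (.y c0 (.x c2 c0)) (.y (.x (.y c3 c3) (.y c1 c4)) (.x c5 c4)))

theorem ok56 : okF 1 6 (-5) t56 = true := by decide +kernel

theorem all56 : AllA 56 := allA (D := 56) (thm_of_ok ok56)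
  (l :=
    [(-1, 0, -3, -1), (2, -1, -1, 1)])
  (by decide +kernel)

/-- a cover for the form `(3, 3, -4)` of discriminant `57` -/
def t57 : CT :=
  let c0 : CT := .l 1 0 0
  let c1 : CT := .l 1 1 0
  let c2 : CT := .l 1 1 1
  let c3 : CT := .l 1 0 1
  .x (.y (.x c0 (.y c0 c0)) (.x (.y c0 (.x (.y c0 c1) c1)) (.y c1 c0))) (.y c1 (.x (.y c1 (.x c2
  c2)) (.y c1 (.x (.y c1 c3) c3))))

theorem ok57 : okF 3 3 (-4) t57 = true := by decide +kernel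

theorem all57 : AllA 57 := allA (D := 57) (thm_of_ok ok57)
  (l :=
    [(-13, -4, 10, 3), (2, 1, 3, 2), (1, 0, 0, 1)])
  (by decide +kernel)

/-- a cover for the form `(2, 6, -3)` of discriminant `60` -/
def t60 : CT :=
  let c0 : CT := .l 1 0 0
  let c1 : CT := .l 1 1 0
  let c2 : CT := .l 2 1 1
  let c3 : CT := .l 1 1 1
  let c4 : CT := .l 2 2 1
  .x (.y (.x c0 (.y c0 c1)) (.x c0 (.y (.x c0 c2) (.x c0 c2)))) (.y c1 (.x (.y (.x (.y c1 c2)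
  c3) c2) (.y c1 (.x c3 c4))))

theorem ok60 : okF 2 6 (-3) t60 = true := by decide +kernel

theorem all60 : AllB 60 := allB (D := 60) (thm_of_ok ok60)
  (l :=
    [(-1, 0, -1, -1), (1, 1, -1, 0)])
  (l' :=
    [(1, 0)])
  (by decide +kernel)

/-- a cover for the form `(3, 5, -3)` of discriminant `61` -/
def t61 : CT :=
  let c0 : CT := .l 1 0 0
  let c1 : CT := .l 2 1 0
  let c2 : CT := .l 1 1 0
  let c3 : CT := .l 2 1 1
  let c4 : CT := .l 1 1 1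
  let c5 : CT := .l 2 2 1
  .x (.x c0 (.y (.x c0 (.y c1 c2)) (.x c0 c3))) (.x (.y c2 (.x (.y c2 c3) c4)) (.y c2 (.x (.y c2
  c4) c5)))

theorem ok61 : okF 3 5 (-3) t61 = true := by decide +kernel

theorem all61 : AllA 61 := allA (D := 61) (thm_of_ok ok61)
  (l :=
    [(9, -2, -4, 1), (8, 7, 17, 15)])
  (by decide +kernel)

/-- a cover for the form `(2, 5, -5)` of discriminant `65` -/
def t65 : CT :=
  let c0 : CT := .l 1 0 0
  let c1 : CT := .l 2 0 1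
  let c2 : CT := .l 1 1 0
  let c3 : CT := .l 1 1 1
  let c4 : CT := .l 3 2 1
  let c5 : CT := .l 1 2 0
  let c6 : CT := .l 2 2 1
  .x (.y c0 (.x (.y c0 c1) (.y c0 c0))) (.y c2 (.x (.y (.x (.y c2 c3) c4) (.x c3 (.y c4 c3)))
  (.y (.x (.y c4 c5) c5) c6)))

theorem ok65 : okF 2 5 (-5) t65 = true := by decide +kernel

theorem all65 : AllB 65 := allB (D := 65) (thm_of_ok ok65)
  (l :=
    [(-1, 0, -1, -1)])
  (l' :=
    [(1, 0), (-1, -1)])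
  (by decide +kernel)

/-- a cover for the form `(3, 3, -5)` of discriminant `69` -/
def t69 : CT :=
  let c0 : CT := .l 1 0 0
  let c1 : CT := .l 2 0 1
  let c2 : CT := .l 1 1 0
  let c3 : CT := .l 2 1 1
  let c4 : CT := .l 2 2 1
  .x (.y (.x c0 (.y c0 c0)) (.x (.y c0 c1) (.y c0 c0))) (.y c2 (.x (.y c2 c3) (.y c2 (.x (.y c4
  c4) c4))))

theorem ok69 : okF 3 3 (-5) t69 = true := by decide +kernel

theorem all69 : AllA 69 := allA (D := 69) (thm_of_ok ok69)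
  (l :=
    [(5, -1, -4, 1), (1, 0, 0, 1)])
  (by decide +kernel)

/-- a cover for the form `(3, 5, -4)` of discriminant `73` -/
def t73 : CT :=
  let c0 : CT := .l 1 0 0
  let c1 : CT := .l 2 1 0
  let c2 : CT := .l 1 1 0
  let c3 : CT := .l 7 3 3
  let c4 : CT := .l 1 (-3) 2
  let c5 : CT := .l 1 (-1) (-2)
  let c6 : CT := .l 1 1 1
  let c7 : CT := .l 1 2 3
  let c8 : CT := .l 1 0 (-1)
  let c9 : CT := .l 3 3 1
  let c10 : CT := .l 1 2 0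
  .x (.y (.x c0 (.y c1 (.x c0 c2))) (.x (.y c0 (.x c2 c0)) (.y c2 (.x c0 (.y (.x c0 (.y c2 c3))
  (.x c0 (.y (.x c3 c4) c5))))))) (.y c2 (.x (.y (.x c2 c2) (.x (.y c6 (.x (.y c6 (.x c7 c6))
  c6)) c6)) (.y c2 (.x (.y (.x c6 c8) c6) (.y c9 c10)))))

theorem ok73 : okF 3 5 (-4) t73 = true := by decide +kernel

theorem all73 : AllA 73 := allA (D := 73) (thm_of_ok ok73)
  (l :=
    [(105, -22, -62, 13), (-12, 5, 7, -3), (171, 136, 386, 307), (307, 443, 693, 1000)])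
  (by decide +kernel)

/-- a cover for the form `(2, 6, -5)` of discriminant `76` -/
def t76 : CT :=
  let c0 : CT := .l 1 0 0
  let c1 : CT := .l 2 0 1
  let c2 : CT := .l 2 1 1
  let c3 : CT := .l 1 1 0
  let c4 : CT := .l 1 1 1
  let c5 : CT := .l 1 2 0
  let c6 : CT := .l 2 2 1
  .x (.y (.x c0 (.y c0 c0)) (.x (.y c0 c1) (.y (.x c0 (.y c0 c0)) (.x c0 c2)))) (.y c3 (.x (.y
  (.x c4 (.y c3 c5)) c4) (.y (.x c5 c3) (.x (.y c2 c6) c6))))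

theorem ok76 : okF 2 6 (-5) t76 = true := by decide +kernel

theorem all76 : AllA 76 := allA (D := 76) (thm_of_ok ok76)
  (l :=
    [(-13, -3, 9, 2), (-1, 0, -1, -1), (2, -1, -1, 1)])
  (by decide +kernel)

/-- a cover for the form `(1, 7, -7)` of discriminant `77` -/
def t77 : CT :=
  let c0 : CT := .l 1 0 0
  let c1 : CT := .l 1 1 0
  let c2 : CT := .l 1 2 0
  let c3 : CT := .l 2 0 1
  let c4 : CT := .l 3 2 1
  let c5 : CT := .l 1 3 0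
  let c6 : CT := .l 3 3 1
  let c7 : CT := .l 1 1 1
  let c8 : CT := .l 2 1 1
  let c9 : CT := .l 2 2 1
  .y (.x c0 (.y c1 (.x (.y c1 (.x c2 c1)) c1))) (.x (.y (.x (.y c0 (.x c0 c0)) c0) (.x (.y (.x
  c3 c0) c3) c0)) (.y (.x (.y (.x c4 c4) c4) (.y (.x c5 c1) c6)) (.x (.y (.x c7 (.y c4 c3)) c8)
  c9)))

theorem ok77 : okF 1 7 (-7) t77 = true := by decide +kernel

theorem all77 : AllA 77 := allA (D := 77) (thm_of_ok ok77)
  (l :=
    [(-1, 0, -3, -1)])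
  (by decide +kernel)

/-- a cover for the form `(3, 7, -3)` of discriminant `85` -/
def t85 : CT :=
  let c0 : CT := .l 1 0 0
  let c1 : CT := .l 2 1 0
  let c2 : CT := .l 1 1 0
  let c3 : CT := .l 2 1 1
  let c4 : CT := .l 3 2 1
  let c5 : CT := .l 1 1 1
  let c6 : CT := .l 2 2 1
  .x (.x (.y c0 c0) (.y (.x c0 (.y c1 c2)) (.x (.y c2 (.x c0 c3)) (.y c3 c3)))) (.x (.y c2 (.x
  (.y (.x (.y c2 c3) c4) c3) (.y c4 c3))) (.y c2 (.x (.y c2 c5) (.y c2 c6))))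

theorem ok85 : okF 3 7 (-3) t85 = true := by decide +kernel

theorem all85 : AllB 85 := allB (D := 85) (thm_of_ok ok85)
  (l :=
    [(-1, 0, -1, -1)])
  (l' :=
    [(1, 0)])
  (by decide +kernel)

/-- a cover for the form `(2, 8, -3)` of discriminant `88` -/
def t88 : CT :=
  let c0 : CT := .l 1 0 0
  let c1 : CT := .l 1 1 0
  let c2 : CT := .l 3 1 1
  let c3 : CT := .l 2 1 1
  let c4 : CT := .l 1 2 0
  let c5 : CT := .l 1 1 1
  let c6 : CT := .l 2 2 1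
  .x (.y (.x c0 (.y c0 c1)) (.x c0 (.y (.x c2 c3) (.x (.y c2 c3) c3)))) (.y c1 (.x (.y (.x (.y
  (.x c2 (.y c2 c4)) c4) (.y c4 (.x c4 c5))) c3) (.y (.x c5 c1) (.x c5 c6))))

theorem ok88 : okF 2 8 (-3) t88 = true := by decide +kernel

theorem all88 : AllA 88 := allA (D := 88) (thm_of_ok ok88)
  (l :=
    [(-14, -3, 5, 1), (-1, 0, -2, -1), (1, 1, -1, 0)])
  (by decide +kernel)

/-- a cover for the form `(4, 5, -4)` of discriminant `89` -/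
def t89 : CT :=
  let c0 : CT := .l 1 0 0
  let c1 : CT := .l 1 (-1) 1
  let c2 : CT := .l 3 1 0
  let c3 : CT := .l 1 1 1
  let c4 : CT := .l 1 1 0
  let c5 : CT := .l 2 1 1
  let c6 : CT := .l 1 0 (-1)
  let c7 : CT := .l 3 3 1
  let c8 : CT := .l 1 0 1
  .x (.x (.y c0 (.x (.y c0 (.x c1 c0)) c0)) (.y (.x c0 (.y (.x c2 c3) (.x (.y c2 c1) c4))) (.x
  c0 (.y c4 c5)))) (.x (.y (.x (.y (.x (.y c6 c4) c6) c4) c4) (.x (.y c4 c5) (.y c4 c3))) (.y c4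
  (.x (.y c4 (.x c3 (.y c7 c3))) (.y c4 (.x (.y c7 c8) (.y c8 c8))))))

theorem ok89 : okF 4 5 (-4) t89 = true := by decide +kernel

theorem all89 : AllA 89 := allA (D := 89) (thm_of_ok ok89)
  (l :=
    [(-47, 9, 26, -5), (-97, -46, -175, -83), (-189, -235, -341, -424)])
  (by decide +kernel)

/-- a cover for the form `(2, 6, -7)` of discriminant `92` -/
def t92 : CT :=
  let c0 : CT := .l 1 0 0
  let c1 : CT := .l 3 0 1
  let c2 : CT := .l 2 0 1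
  let c3 : CT := .l 1 1 0
  let c4 : CT := .l 3 2 1
  let c5 : CT := .l 2 1 1
  let c6 : CT := .l 1 2 0
  let c7 : CT := .l 2 2 1
  let c8 : CT := .l 3 3 1
  .x (.y (.x c0 (.y c0 c0)) (.x (.y (.x (.y c0 c1) c0) (.x c2 c2)) (.y c0 c0))) (.y (.x c3 c3)
  (.x (.y (.x (.y c4 c4) c4) (.x c5 c5)) (.y (.x (.y c6 c7) c8) (.x (.y c7 c7) c7))))

theorem ok92 : okF 2 6 (-7) t92 = true := by decide +kernel

theorem all92 : AllA 92 := allA (D := 92) (thm_of_ok ok92)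
  (l :=
    [(5, -1, -4, 1), (-1, 0, -1, -1)])
  (by decide +kernel)

/-- a cover for the form `(1, 9, -3)` of discriminant `93` -/
def t93 : CT :=
  let c0 : CT := .l 1 0 0
  let c1 : CT := .l 4 2 1
  let c2 : CT := .l 3 1 1
  let c3 : CT := .l 2 1 1
  let c4 : CT := .l 1 1 0
  let c5 : CT := .l 2 1 0
  let c6 : CT := .l 3 2 1
  let c7 : CT := .l 1 1 1
  let c8 : CT := .l 2 2 1
  .x (.y (.x c0 (.y c0 (.x c0 (.y c0 (.x c0 c1))))) (.x c0 (.y (.x c2 c3) (.x (.y (.x c2 c3) c3)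
  c3)))) (.y (.x (.y c4 (.x c5 c4)) c4) (.x (.y (.x (.y (.x c1 c5) c6) c6) (.x c3 (.y c6 c3)))
  (.y (.x c7 c4) (.x c7 c8))))

theorem ok93 : okF 1 9 (-3) t93 = true := by decide +kernel

theorem all93 : AllA 93 := allA (D := 93) (thm_of_ok ok93)
  (l :=
    [(-1, 0, -4, -1), (1, 1, -1, 0)])
  (by decide +kernel)

/-- a cover for the form `(2, 9, -2)` of discriminant `97` -/
def t97 : CT :=
  let c0 : CT := .l 1 0 0
  let c1 : CT := .l 1 1 0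
  let c2 : CT := .l 1 0 (-1)
  let c3 : CT := .l 1 (-3) 1
  let c4 : CT := .l 1 2 0
  let c5 : CT := .l 5 2 2
  let c6 : CT := .l 2 1 1
  let c7 : CT := .l 5 3 2
  let c8 : CT := .l 1 1 2
  let c9 : CT := .l 1 0 (-3)
  let c10 : CT := .l 1 1 1
  .x (.x (.y c0 c0) (.y (.x (.y c0 c1) c1) (.x (.y (.x c0 (.y (.x c2 (.y c1 c3)) c4)) (.x (.y c2
  (.x c0 c2)) (.y c5 c6))) (.y c6 c6)))) (.x (.y c1 (.x (.y (.x (.y (.x c6 c4) c6) (.y c4 c7))
  c6) (.y (.x (.y c4 c8) (.y c4 (.x c9 c10))) c6))) (.y c1 (.x c10 (.y c1 c10))))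

theorem ok97 : okF 2 9 (-2) t97 = true := by decide +kernel

theorem all97 : AllA 97 := allA (D := 97) (thm_of_ok ok97)
  (l :=
    [(-31, -7, -146, -33), (-1, 0, -2, -1), (205, 139, 966, 655), (-19, 14, 4, -3)])
  (by decide +kernel)

/-- a cover for the form `(5, 1, -5)` of discriminant `101` -/
def t101 : CT :=
  let c0 : CT := .l 1 0 0
  let c1 : CT := .l 2 0 1
  let c2 : CT := .l 2 1 0
  let c3 : CT := .l 3 1 1
  let c4 : CT := .l 4 2 1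
  let c5 : CT := .l 1 1 0
  let c6 : CT := .l 4 3 2
  let c7 : CT := .l 2 2 1
  .x (.x (.y c0 (.x (.y c0 c1) (.y c0 (.x c1 c0)))) (.y (.x c0 (.y c2 (.x c0 (.y c2 c3)))) (.x
  c0 (.y (.x c3 (.y c4 c0)) c0)))) (.x (.y (.x (.y c2 (.x (.y c2 c4) c5)) c5) (.x c5 (.y c5 (.x
  c5 (.y c5 c6))))) (.y c5 (.x (.y c5 (.x (.y c5 c6) c7)) (.y c5 c7))))

theorem ok101 : okF 5 1 (-5) t101 = true := by decide +kernel

theorem all101 : AllA 101 := allA (D := 101) (thm_of_ok ok101)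
  (l :=
    [(6, -1, -5, 1), (1, 0, 0, 1)])
  (by decide +kernel)

/-- a cover for the form `(2, 8, -5)` of discriminant `104` -/
def t104 : CT :=
  let c0 : CT := .l 1 0 0
  let c1 : CT := .l 1 1 0
  let c2 : CT := .l 2 0 1
  let c3 : CT := .l 3 1 1
  let c4 : CT := .l 1 2 0
  let c5 : CT := .l 2 1 1
  let c6 : CT := .l 1 1 1
  let c7 : CT := .l 3 2 1
  let c8 : CT := .l 2 2 1
  let c9 : CT := .l 5 4 2
  .x (.y (.x c0 (.y c0 (.x c0 c1))) (.x (.y c0 (.x c2 c0)) (.y (.x c0 (.y c3 c4)) (.x c0 c5))))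
  (.y (.x (.y c1 c1) c1) (.x (.y (.x (.y c6 c7) c7) (.x c5 c6)) (.y (.x (.y c4 (.x c7 c8)) (.y
  c1 c8)) (.x (.y c9 c8) c8))))

theorem ok104 : okF 2 8 (-5) t104 = true := by decide +kernel

theorem all104 : AllB 104 := allB (D := 104) (thm_of_ok ok104)
  (l :=
    [(-1, 0, -2, -1), (-1, -1, -4, -5)])
  (l' :=
    [(1, 0)])
  (by decide +kernel)

/-- a cover for the form `(2, 9, -3)` of discriminant `105` -/
def t105 : CT :=
  let c0 : CT := .l 1 0 0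
  let c1 : CT := .l 1 1 0
  let c2 : CT := .l 3 1 1
  let c3 : CT := .l 1 1 2
  let c4 : CT := .l 6 2 3
  let c5 : CT := .l 2 0 1
  let c6 : CT := .l 1 0 (-1)
  let c7 : CT := .l 1 2 0
  let c8 : CT := .l 3 2 1
  let c9 : CT := .l 3 2 2
  let c10 : CT := .l 6 4 3
  let c11 : CT := .l 1 1 1
  let c12 : CT := .l 2 2 1
  .x (.y (.x c0 (.y (.x c0 c1) (.x c1 c1))) (.x c0 (.y (.x c2 (.y c2 (.x c2 c3))) (.x (.y (.x c2
  c2) (.x c0 (.y c2 c4))) (.y c5 (.x c2 c6)))))) (.y (.x c1 c1) (.x (.y (.x (.y c7 c8) c8) (.x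
  (.y (.x (.y c8 c3) (.y c8 c9)) (.x c3 (.y c9 c9))) (.y c8 (.x c10 c8)))) (.y (.x c11 c1) (.x
  c11 c12))))

theorem ok105 : okF 2 9 (-3) t105 = true := by decide +kernel

theorem all105 : AllB 105 := allB (D := 105) (thm_of_ok ok105)
  (l :=
    [(-1, 0, -2, -1), (1, 1, -1, 0)])
  (l' :=
    [(1, 0), (-1, -1)])
  (by decide +kernel)

/-- a cover for the form `(3, 7, -5)` of discriminant `109` -/
def t109 : CT :=
  let c0 : CT := .l 1 0 0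
  let c1 : CT := .l 2 1 0
  let c2 : CT := .l 1 1 0
  let c3 : CT := .l 2 0 1
  let c4 : CT := .l 2 1 1
  let c5 : CT := .l 1 1 1
  let c6 : CT := .l 1 0 (-1)
  let c7 : CT := .l 2 2 1
  .x (.y (.x c0 (.y (.x c0 c1) c2)) (.x (.y c0 (.x c3 c3)) (.y (.x c0 (.y c2 c4)) (.x c0 c4))))
  (.y (.x c2 c2) (.x (.y (.x (.y c2 (.x (.y c3 c4) c5)) (.y c2 c5)) (.x c4 c5)) (.y (.x (.y c2
  (.x c6 c7)) (.y c2 c7)) (.x (.y c4 (.x c5 c7)) c7))))

theorem ok109 : okF 3 7 (-5) t109 = true := by decide +kernel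

theorem all109 : AllA 109 := allA (D := 109) (thm_of_ok ok109)
  (l :=
    [(5, 1, 14, 3), (-1, 0, -1, -1), (-32, -43, -93, -125)])
  (by decide +kernel)

/-- a cover for the form `(4, 7, -4)` of discriminant `113` -/
def t113 : CT :=
  let c0 : CT := .l 1 0 0
  let c1 : CT := .l 1 1 0
  let c2 : CT := .l 3 1 0
  let c3 : CT := .l 1 0 (-1)
  let c4 : CT := .l 1 (-1) 1
  let c5 : CT := .l 2 1 1
  let c6 : CT := .l 1 1 1
  let c7 : CT := .l 3 3 1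
  let c8 : CT := .l 1 2 0
  .x (.x (.y c0 (.x (.y c0 (.x c1 c0)) c0)) (.y (.x (.y c0 (.x c0 (.y c0 c1))) (.y (.x c2 c3)
  c1)) (.x (.y c1 (.x c0 (.y c4 c0))) (.y c1 c5)))) (.x (.y (.x (.y (.x (.y c6 c3) c6) c1) c1)
  (.x (.y (.x c1 c3) c5) (.y c6 c6))) (.y c1 (.x (.y (.x c1 c1) c6) (.y c1 (.x (.y c7 c8) (.y c7
  c8))))))

theorem ok113 : okF 4 7 (-4) t113 = true := by decide +kernel

theorem all113 : AllA 113 := allA (D := 113) (thm_of_ok ok113)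
  (l :=
    [(-64, 11, 29, -5), (346, -119, -157, 54), (319, 265, 703, 584)])
  (by decide +kernel)

/-- a cover for the form `(3, 6, -7)` of discriminant `120` -/
def t120 : CT :=
  let c0 : CT := .l 1 0 0
  let c1 : CT := .l 2 1 0
  let c2 : CT := .l 1 1 0
  let c3 : CT := .l 2 0 1
  let c4 : CT := .l 1 1 1
  let c5 : CT := .l 3 2 1
  let c6 : CT := .l 1 2 0
  let c7 : CT := .l 1 (-1) 1
  let c8 : CT := .l 3 3 1
  let c9 : CT := .l 2 2 1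
  .x (.y (.x c0 (.y (.x c0 c1) (.x c0 c2))) (.x (.y (.x (.y c0 c2) c0) (.x c3 c3)) (.y (.x c0
  c4) (.x c0 c0)))) (.y (.x c2 c2) (.x (.y (.x (.y (.x c2 c2) (.x c4 c5)) c5) (.x c4 (.y (.x c5
  c5) c6))) (.y (.x (.y c2 (.x c5 c7)) (.y c2 c8)) (.x (.y c6 (.x c5 c9)) c9))))

theorem ok120 : okF 3 6 (-7) t120 = true := by decide +kernel

theorem all120 : AllB 120 := allB (D := 120) (thm_of_ok ok120)
  (l :=
    [(3, -1, -2, 1), (-1, 0, -1, -1)])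
  (l' :=
    [(1, 0), (-1, -1)])
  (by decide +kernel)

/-- a cover for the form `(2, 10, -3)` of discriminant `124` -/
def t124 : CT :=
  let c0 : CT := .l 1 0 0
  let c1 : CT := .l 1 1 0
  let c2 : CT := .l 1 0 (-1)
  let c3 : CT := .l 1 2 0
  let c4 : CT := .l 1 (-3) 1
  let c5 : CT := .l 2 1 1
  let c6 : CT := .l 3 2 1
  let c7 : CT := .l 2 0 1
  let c8 : CT := .l 1 1 1
  let c9 : CT := .l 2 2 1
  .x (.y (.x c0 (.y (.x c0 c1) (.x (.y c1 (.x c1 c1)) (.y c1 c1)))) (.x c0 (.y (.x (.y (.x c0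
  c2) (.x c0 (.y c3 (.x (.y c3 c4) c4)))) c5) (.x (.y (.x c0 (.y c6 c5)) (.x c7 c5)) c5)))) (.y
  (.x (.y c1 (.x c1 c1)) c1) (.x (.y (.x (.y c3 c6) c6) (.x c5 (.y c6 c5))) (.y (.x c8 c1) (.x
  c8 c9))))

theorem ok124 : okF 2 10 (-3) t124 = true := by decide +kernel

theorem all124 : AllA 124 := allA (D := 124) (thm_of_ok ok124)
  (l :=
    [(-39, 7, 11, -2), (-1, 0, -2, -1), (2, -1, 11, -5), (-4, 3, 1, -1)])
  (by decide +kernel)

/-- a cover for the form `(3, 9, -4)` of discriminant `129` -/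
def t129 : CT :=
  let c0 : CT := .l 1 0 0
  let c1 : CT := .l 2 1 0
  let c2 : CT := .l 1 1 0
  let c3 : CT := .l 1 1 3
  let c4 : CT := .l 3 1 1
  let c5 : CT := .l 6 3 2
  let c6 : CT := .l 1 2 0
  let c7 : CT := .l 3 2 1
  let c8 : CT := .l 1 (-8) 3
  let c9 : CT := .l 1 0 (-1)
  let c10 : CT := .l 1 9 (-2)
  let c11 : CT := .l 7 5 3
  let c12 : CT := .l 1 (-1) 1
  let c13 : CT := .l 1 1 1
  let c14 : CT := .l 3 3 1
  let c15 : CT := .l 1 0 (-2)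
  .x (.y (.x c0 (.y (.x c0 c1) c2)) (.x (.y c0 (.x (.y c0 (.x (.y c0 (.x c3 c0)) c0)) c0)) (.y
  (.x c4 (.y (.x c4 c4) (.x c4 (.y c4 c5)))) (.x (.y (.x c4 c4) (.x c0 (.y c4 c6))) (.y (.x c4
  (.y c7 c6)) (.x c6 (.y c6 (.x c6 (.y c6 (.x c6 (.y c6 c8))))))))))) (.y (.x (.y c2 c2) c2) (.x
  (.y (.x (.y (.x (.y c4 c9) c7) (.x c9 c7)) c7) (.x (.y (.x (.y c9 c6) c6) (.x (.y c6 (.x (.y
  c6 (.x (.y c6 c8) (.y c8 c10))) c9)) (.y (.x c9 c9) c9))) (.y c7 (.x (.y (.x (.y c7 (.x c11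
  c11)) c11) c12) c7)))) (.y (.x (.y c2 c6) c2) (.x c13 (.y (.x (.y c14 c12) c14) (.x c13 (.y
  (.x c15 c14) (.x c13 c15))))))))

theorem ok129 : okF 3 9 (-4) t129 = true := by decide +kernel

theorem all129 : AllA 129 := allA (D := 129) (thm_of_ok ok129)
  (l :=
    [(145, 28, -57, -11), (-13, -5, -44, -17), (-1, 0, -1, -1), (1, 1, -1, 0), (-3, 2, 1, -1)])
  (by decide +kernel)

/-- a cover for the form `(3, 7, -7)` of discriminant `133` -/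
def t133 : CT :=
  let c0 : CT := .l 1 0 0
  let c1 : CT := .l 2 1 0
  let c2 : CT := .l 1 1 0
  let c3 : CT := .l 3 0 1
  let c4 : CT := .l 2 0 1
  let c5 : CT := .l 1 1 1
  let c6 : CT := .l 2 1 1
  let c7 : CT := .l 4 2 1
  let c8 : CT := .l 3 2 1
  let c9 : CT := .l 1 2 0
  let c10 : CT := .l 4 3 2
  let c11 : CT := .l 1 2 2
  let c12 : CT := .l 2 2 1
  .x (.y (.x c0 (.y (.x c0 c1) c2)) (.x (.y (.x (.y c2 c3) c0) (.x c4 (.y c4 c4))) (.y (.x c0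
  (.y c5 (.x c0 c5))) (.x c0 c6)))) (.y (.x (.y c2 c2) c2) (.x (.y (.x (.y (.x c7 c8) (.x c5
  c8)) c8) (.x c6 (.y c6 c6))) (.y (.x (.y (.x c8 c8) (.x c8 c9)) (.y c2 c9)) (.x (.y c6 (.x c10
  c11)) c12))))

theorem ok133 : okF 3 7 (-7) t133 = true := by decide +kernel

theorem all133 : AllA 133 := allA (D := 133) (thm_of_ok ok133)
  (l :=
    [(6, -1, 19, -3), (-1, 0, -1, -1)])
  (by decide +kernel)

/-- a cover for the form `(2, 11, -2)` of discriminant `137` -/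
def t137 : CT :=
  let c0 : CT := .l 1 0 0
  let c1 : CT := .l 1 0 (-1)
  let c2 : CT := .l 3 1 1
  let c3 : CT := .l 1 1 0
  let c4 : CT := .l 1 0 (-2)
  let c5 : CT := .l 2 1 1
  let c6 : CT := .l 1 1 3
  let c7 : CT := .l 1 2 0
  let c8 : CT := .l 3 2 1
  let c9 : CT := .l 1 1 2
  let c10 : CT := .l 1 1 1
  .x (.x (.y c0 (.x c0 (.y c0 (.x c0 (.y c0 (.x c0 c1)))))) (.y (.x (.y c0 (.x c0 (.y c0 c2)))
  (.y c3 (.x (.y c3 (.x c4 c5)) (.y c3 c5)))) (.x (.y c2 (.x (.y c2 (.x c1 c5)) c2)) (.y (.x c2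
  c5) c5)))) (.x (.y (.x (.y c3 (.x (.y c3 (.x c6 c3)) c3)) c3) (.x (.y (.x (.y (.x c6 (.y c7
  c5)) c5) (.y c8 c8)) c5) (.y c8 (.x c5 c9)))) (.y c3 (.x (.y (.x (.y c8 c8) c3) (.x (.y (.x
  (.y c8 c5) c10) c5) c10)) (.y c3 c10))))

theorem ok137 : okF 2 11 (-2) t137 = true := by decide +kernel

theorem all137 : AllA 137 := allA (D := 137) (thm_of_ok ok137)
  (l :=
    [(-108, 17, 19, -3), (281, 105, 1595, 596), (-37, -34, -210, -193)])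
  (by decide +kernel)

/-- a cover for the form `(2, 10, -5)` of discriminant `140` -/
def t140 : CT :=
  let c0 : CT := .l 1 0 0
  let c1 : CT := .l 1 1 0
  let c2 : CT := .l 2 1 1
  let c3 : CT := .l 4 2 1
  let c4 : CT := .l 2 0 1
  let c5 : CT := .l 3 1 1
  let c6 : CT := .l 1 2 0
  let c7 : CT := .l 1 1 1
  let c8 : CT := .l 1 0 (-1)
  let c9 : CT := .l 3 2 1
  let c10 : CT := .l 4 3 1
  let c11 : CT := .l 2 2 1
  .x (.y (.x c0 (.y (.x c0 c1) (.x c0 (.y c1 (.x (.y c1 c2) c3))))) (.x (.y c0 (.x c4 c0)) (.y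
  (.x c5 (.y c6 c2)) (.x (.y (.x c0 c5) (.x c4 c2)) c2)))) (.y (.x (.y c1 (.x (.y c1 (.x c3 c7))
  c1)) c1) (.x (.y (.x (.y (.x c6 c8) c9) c9) (.x c2 (.y c9 c7))) (.y (.x (.y (.x c10 (.y c1
  c9)) (.x c9 (.y c9 c11))) (.y c1 c11)) (.x (.y (.x c7 c11) c7) c11))))

theorem ok140 : okF 2 10 (-5) t140 = true := by decide +kernel

theorem all140 : AllB 140 := allB (D := 140) (thm_of_ok ok140)
  (l :=
    [(-1, 0, -2, -1), (1, 1, -1, 0)])
  (l' :=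
    [(1, 0)])
  (by decide +kernel)

/-- a cover for the form `(3, 9, -5)` of discriminant `141` -/
def t141 : CT :=
  let c0 : CT := .l 1 0 0
  let c1 : CT := .l 2 1 0
  let c2 : CT := .l 1 1 0
  let c3 : CT := .l 2 0 1
  let c4 : CT := .l 3 1 1
  let c5 : CT := .l 2 1 1
  let c6 : CT := .l 4 2 1
  let c7 : CT := .l 1 1 1
  let c8 : CT := .l 3 2 1
  let c9 : CT := .l 1 2 0
  let c10 : CT := .l 2 2 1
  .x (.y (.x c0 (.y (.x c0 c1) c2)) (.x (.y c0 (.x c3 c0)) (.y (.x c4 (.y (.x c4 c4) c5)) (.x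
  (.y c3 c0) c5)))) (.y (.x (.y c2 c2) c2) (.x (.y (.x (.y (.x c6 c7) (.x (.y c6 c5) c8)) c8)
  (.x c5 c7)) (.y (.x (.y (.x c8 c8) c9) (.y c9 c10)) (.x (.y c5 c7) c10))))

theorem ok141 : okF 3 9 (-5) t141 = true := by decide +kernel

theorem all141 : AllA 141 := allA (D := 141) (thm_of_ok ok141)
  (l :=
    [(13, -2, -6, 1), (-1, 0, -1, -1), (1, -1, 4, -3)])
  (by decide +kernel)

/-- a cover for the form `(5, 7, -5)` of discriminant `149` -/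
def t149 : CT :=
  let c0 : CT := .l 1 0 0
  let c1 : CT := .l 2 0 1
  let c2 : CT := .l 6 2 1
  let c3 : CT := .l 2 1 1
  let c4 : CT := .l 2 1 0
  let c5 : CT := .l 5 2 1
  let c6 : CT := .l 3 1 0
  let c7 : CT := .l 1 1 0
  let c8 : CT := .l 3 1 1
  let c9 : CT := .l 1 1 1
  let c10 : CT := .l 3 2 1
  let c11 : CT := .l 6 5 2
  let c12 : CT := .l 5 4 2
  let c13 : CT := .l 2 2 1
  .x (.x (.y c0 (.x (.y c0 c1) c0)) (.y (.x (.y c0 (.x c0 (.y c2 c3))) (.y c4 (.x (.y (.x c5 c6)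
  c5) (.y c4 c7)))) (.x (.y c8 (.x c0 (.y c8 c3))) (.y c7 c3)))) (.x (.y (.x (.y c4 c7) c7) (.x
  (.y (.x c7 c9) c3) (.y c10 c9))) (.y c7 (.x (.y (.x (.y c10 c3) (.y c7 c11)) (.x c9 (.y (.x
  c12 c13) c13))) (.y c7 c13))))

theorem ok149 : okF 5 7 (-5) t149 = true := by decide +kernel

theorem all149 : AllA 149 := allA (D := 149) (thm_of_ok ok149)
  (l :=
    [(6, 1, 11, 2), (12, 13, 23, 25)])
  (by decide +kernel)

/-- a cover for the form `(1, 12, -2)` of discriminant `152` -/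
def t152 : CT :=
  let c0 : CT := .l 1 0 0
  let c1 : CT := .l 5 2 1
  let c2 : CT := .l 3 1 1
  let c3 : CT := .l 2 1 0
  let c4 : CT := .l 2 1 1
  let c5 : CT := .l 4 1 2
  let c6 : CT := .l 1 1 0
  let c7 : CT := .l 3 2 1
  let c8 : CT := .l 4 3 1
  let c9 : CT := .l 1 1 1
  let c10 : CT := .l 5 4 2
  .x (.y (.x c0 (.y c0 (.x (.y c0 (.x c0 (.y c1 c2))) (.y (.x (.y c0 c1) c3) (.x c1 c4))))) (.x
  (.y c0 (.x c0 (.y c0 (.x c0 c5)))) (.y (.x c2 (.y (.x c2 c4) c4)) (.x (.y (.x (.y c2 (.x c5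
  c2)) c2) c4) c4)))) (.y (.x (.y c6 (.x (.y c6 (.x c3 (.y c3 (.x c3 c7)))) (.y c6 (.x c7 c6))))
  c6) (.x (.y (.x (.y (.x c3 c7) c7) c7) (.x c4 (.y c7 c4))) (.y (.x (.y (.x c8 c6) (.x c7 c9))
  c6) (.x (.y (.x c10 c9) c4) c9))))

theorem ok152 : okF 1 12 (-2) t152 = true := by decide +kernel

theorem all152 : AllA 152 := allA (D := 152) (thm_of_ok ok152)
  (l :=
    [(-1, 0, -6, -1), (3, 1, -1, 0)])
  (by decide +kernel)

/-- a cover for the form `(5, 6, -6)` of discriminant `156` -/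
def t156 : CT :=
  let c0 : CT := .l 1 0 0
  let c1 : CT := .l 2 1 0
  let c2 : CT := .l 5 2 1
  let c3 : CT := .l 1 1 1
  let c4 : CT := .l 5 0 2
  let c5 : CT := .l 1 (-1) 1
  let c6 : CT := .l 1 1 0
  let c7 : CT := .l 2 1 1
  let c8 : CT := .l 3 2 1
  let c9 : CT := .l 6 5 2
  let c10 : CT := .l 1 0 (-1)
  let c11 : CT := .l 1 2 2
  let c12 : CT := .l 5 4 2
  let c13 : CT := .l 4 3 2
  let c14 : CT := .l 1 0 1
  let c15 : CT := .l 5 5 2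
  let c16 : CT := .l 1 (-2) 2
  .x (.y (.x c0 (.y (.x c0 c1) (.x c0 (.y (.x (.y c1 c2) c3) (.x c2 c3))))) (.x (.y (.x c0 c0)
  (.x (.y (.x c4 c0) (.x c5 c6)) (.y c0 (.x c6 c6)))) (.y (.x c0 c6) (.x c0 c7)))) (.y (.x (.y
  (.x c1 c6) c6) c6) (.x (.y (.x (.y c6 c3) c8) (.x c7 (.y c7 c3))) (.y (.x (.y c6 (.x c7 c9))
  (.y c6 (.x (.y c6 (.x c10 c11)) c6))) (.x (.y (.x c12 (.y c12 c12)) (.x c13 (.y c13 c14))) (.y
  (.x (.y c10 (.x c13 c10)) c15) (.x (.y (.x (.y c16 c15) c15) c14) c14))))))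

theorem ok156 : okF 5 6 (-6) t156 = true := by decide +kernel

theorem all156 : AllB 156 := allB (D := 156) (thm_of_ok ok156)
  (l :=
    [(3, 1, 5, 2), (-2, 1, 1, -1)])
  (l' :=
    [(1, 0), (-2, -1)])
  (by decide +kernel)

/-- a cover for the form `(3, 11, -3)` of discriminant `157` -/
def t157 : CT :=
  let c0 : CT := .l 1 0 0
  let c1 : CT := .l 1 1 0
  let c2 : CT := .l 2 1 0
  let c3 : CT := .l 3 1 1
  let c4 : CT := .l 2 0 1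
  let c5 : CT := .l 4 1 2
  let c6 : CT := .l 2 1 1
  let c7 : CT := .l 4 2 1
  let c8 : CT := .l 3 2 1
  let c9 : CT := .l 1 1 1
  let c10 : CT := .l 2 2 1
  .x (.x (.y c0 (.x c0 c0)) (.y (.x (.y c0 c1) (.y c2 c1)) (.x (.y c3 (.x (.y c4 c5) (.y c4
  c6))) (.y (.x c6 c6) c6)))) (.x (.y (.x c1 c1) (.x (.y (.x (.y c7 c6) (.y c2 c2)) c6) (.y c8
  (.x c6 c6)))) (.y c1 (.x (.y c9 c9) (.y c1 c10))))

theorem ok157 : okF 3 11 (-3) t157 = true := by decide +kernel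

theorem all157 : AllA 157 := allA (D := 157) (thm_of_ok ok157)
  (l :=
    [(6, 1, 23, 4), (-25, -13, -98, -51)])
  (by decide +kernel)

/-- a cover for the form `(4, 7, -7)` of discriminant `161` -/
def t161 : CT :=
  let c0 : CT := .l 1 0 0
  let c1 : CT := .l 1 3 (-1)
  let c2 : CT := .l 1 (-1) (-2)
  let c3 : CT := .l 3 2 0
  let c4 : CT := .l 3 1 0
  let c5 : CT := .l 1 1 0
  let c6 : CT := .l 3 0 1
  let c7 : CT := .l 2 0 1
  let c8 : CT := .l 3 1 1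
  let c9 : CT := .l 1 1 1
  let c10 : CT := .l 1 (-1) 1
  let c11 : CT := .l 1 3 4
  let c12 : CT := .l 1 (-2) (-3)
  let c13 : CT := .l 3 2 1
  let c14 : CT := .l 1 2 2
  let c15 : CT := .l 2 2 1
  let c16 : CT := .l 3 3 1
  let c17 : CT := .l 3 3 2
  let c18 : CT := .l 1 2 0
  .x (.y (.x c0 (.y (.x c0 (.y (.x c0 (.y (.x c0 c1) (.x c2 c3))) (.x c4 (.y c3 c5)))) (.x c0
  c5))) (.x (.y (.x (.y c0 c6) c0) (.x c7 (.y c7 (.x c7 c0)))) (.y (.x c0 (.y c5 (.x c8 (.y c9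
  (.x c9 c9))))) (.x c0 (.y (.x c8 c10) (.x c0 (.y (.x c8 (.y (.x c11 c9) c11)) (.x c8 (.y (.x
  c8 c11) c12))))))))) (.y (.x (.y (.x (.y (.x (.y (.x c1 c5) c5) c5) c5) c5) c5) c5) (.x (.y
  (.x (.y (.x c9 c5) c9) c13) (.x (.y c9 (.x (.y c9 (.x (.y c9 (.x c11 c9)) c9)) c9)) (.y (.x
  c13 c13) (.x c9 c9)))) (.y (.x (.y (.x c13 c5) (.x (.y c13 (.x c13 (.y c13 (.x c13 c14))))
  c15)) (.y c5 c16)) (.x (.y (.x (.y (.x c13 (.y c17 c16)) c16) c15) (.x (.y (.x c13 c18) c18)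
  c18)) c15))))

theorem ok161 : okF 4 7 (-7) t161 = true := by decide +kernel

theorem all161 : AllA 161 := allA (D := 161) (thm_of_ok ok161)
  (l :=
    [(-76, -13, -187, -32), (-24, 7, 17, -5), (2, -1, -1, 1), (1, -1, 3, -2)])
  (by decide +kernel)

/-- a cover for the form `(3, 9, -7)` of discriminant `165` -/
def t165 : CT :=
  let c0 : CT := .l 1 0 0
  let c1 : CT := .l 2 1 0
  let c2 : CT := .l 1 1 0
  let c3 : CT := .l 3 0 1
  let c4 : CT := .l 2 0 1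
  let c5 : CT := .l 3 1 1
  let c6 : CT := .l 4 2 1
  let c7 : CT := .l 2 1 1
  let c8 : CT := .l 1 1 1
  let c9 : CT := .l 3 2 1
  let c10 : CT := .l 4 3 1
  let c11 : CT := .l 2 2 1
  let c12 : CT := .l 1 2 0
  let c13 : CT := .l 3 3 1
  let c14 : CT := .l 4 3 2
  .x (.y (.x c0 (.y (.x c0 c1) (.x c0 c2))) (.x (.y (.x (.y c2 c3) c0) (.x c4 (.y c0 c4))) (.y
  (.x c0 (.y (.x c5 c6) (.x c5 (.y c5 c4)))) (.x c0 c7)))) (.y (.x (.y c2 (.x c2 c2)) c2) (.x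
  (.y (.x (.y (.x c6 c8) c8) (.y (.x c9 c9) c9)) (.x c7 (.y (.x c8 c9) c8))) (.y (.x (.y (.x c10
  c11) (.x c12 c11)) (.y c12 c13)) (.x (.y (.x c7 c11) (.x c14 c11)) c11))))

theorem ok165 : okF 3 9 (-7) t165 = true := by decide +kernel

theorem all165 : AllB 165 := allB (D := 165) (thm_of_ok ok165)
  (l :=
    [(-1, 0, -1, -1), (-2, 1, 1, -1)])
  (l' :=
    [(1, 0)])
  (by decide +kernel)

/-- a cover for the form `(2, 12, -3)` of discriminant `168` -/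
def t168 : CT :=
  let c0 : CT := .l 1 0 0
  let c1 : CT := .l 1 1 0
  let c2 : CT := .l 5 2 1
  let c3 : CT := .l 3 1 1
  let c4 : CT := .l 4 2 1
  let c5 : CT := .l 2 1 1
  let c6 : CT := .l 2 0 1
  let c7 : CT := .l 1 2 0
  let c8 : CT := .l 3 2 1
  let c9 : CT := .l 1 1 1
  let c10 : CT := .l 2 2 1
  .x (.y (.x c0 (.y (.x c0 c1) (.x (.y c1 (.x c0 (.y c2 c3))) (.y c1 (.x c2 c4))))) (.x (.y c0
  (.x c0 c0)) (.y (.x c3 (.y (.x c3 c4) c5)) (.x (.y (.x (.y c3 c6) c3) (.x c6 c5)) c5)))) (.y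
  (.x (.y c1 (.x (.y c1 (.x c4 c7)) (.y c1 c7))) c1) (.x (.y (.x (.y (.x c4 c8) c8) c8) (.x c5
  (.y c8 c5))) (.y (.x c9 c1) (.x c9 c10))))

theorem ok168 : okF 2 12 (-3) t168 = true := by decide +kernel

theorem all168 : AllB 168 := allB (D := 168) (thm_of_ok ok168)
  (l :=
    [(-1, 0, -3, -1), (2, 1, -1, 0)])
  (l' :=
    [(1, 0), (-1, -1)])
  (by decide +kernel)

/-- a cover for the form `(3, 8, -9)` of discriminant `172` -/
def t172 : CT :=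
  let c0 : CT := .l 1 0 0
  let c1 : CT := .l 2 1 0
  let c2 : CT := .l 1 1 0
  let c3 : CT := .l 8 0 3
  let c4 : CT := .l 3 1 2
  let c5 : CT := .l 2 0 1
  let c6 : CT := .l 4 2 1
  let c7 : CT := .l 1 1 1
  let c8 : CT := .l 4 1 2
  let c9 : CT := .l 3 2 1
  let c10 : CT := .l 1 2 0
  let c11 : CT := .l 1 2 2
  let c12 : CT := .l 4 3 2
  let c13 : CT := .l 2 2 1
  let c14 : CT := .l 5 4 2
  .x (.y (.x c0 (.y (.x c0 c1) (.x c0 c2))) (.x (.y (.x (.y c2 (.x (.y (.x c2 c0) (.x c3 (.y (.x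
  c3 c3) c3))) (.y c0 (.x (.y c0 c4) c0)))) c0) (.x c5 (.y (.x c5 c5) c5))) (.y (.x c0 (.y (.x
  c0 c6) c7)) (.x (.y c0 (.x c8 c0)) (.y (.x c0 c7) c0))))) (.y (.x (.y c2 (.x c2 c2)) c2) (.x
  (.y (.x (.y (.x c6 c9) (.x (.y (.x (.y c9 c9) c9) c9) c9)) (.y (.x c9 c9) c9)) (.x (.y (.x c7
  c10) c7) (.y (.x (.y c10 c11) c9) (.x (.y (.x c7 c11) c7) c12)))) (.y (.x (.y (.x (.y c9 c9)
  (.y c9 c10)) c10) (.y (.x (.y c10 c10) c10) (.x c13 (.y c10 c13)))) (.x (.y (.x c14 c13) (.x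
  c12 c13)) c13))))

theorem ok172 : okF 3 8 (-9) t172 = true := by decide +kernel

theorem all172 : AllA 172 := allA (D := 172) (thm_of_ok ok172)
  (l :=
    [(-13, 2, -46, 7), (4, -1, -3, 1), (-1, 0, -1, -1), (-1, 1, -4, 3)])
  (by decide +kernel)

/-- a cover for the form `(1, 13, -1)` of discriminant `173` -/
def t173 : CT :=
  let c0 : CT := .l 1 0 0
  let c1 : CT := .l 3 1 1
  let c2 : CT := .l 2 0 1
  let c3 : CT := .l 4 1 2
  let c4 : CT := .l 4 1 1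
  let c5 : CT := .l 3 1 0
  let c6 : CT := .l 1 1 0
  let c7 : CT := .l 5 2 1
  let c8 : CT := .l 2 1 1
  let c9 : CT := .l 2 1 0
  let c10 : CT := .l 4 2 1
  let c11 : CT := .l 3 2 1
  let c12 : CT := .l 4 3 1
  let c13 : CT := .l 3 3 1
  let c14 : CT := .l 5 4 2
  let c15 : CT := .l 1 1 1
  .x (.x (.y c0 (.x c0 (.y (.x c0 (.y c0 c1)) (.x (.y c0 c2) (.y (.x (.y (.x c0 (.y c1 c3)) c2)
  c3) c3))))) (.y (.x (.y c0 (.x (.y c0 c4) (.y c5 c1))) (.y c6 (.x (.y (.x c7 (.y c6 c7)) c7)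
  c8))) (.x (.y c1 (.x (.y (.x c4 c1) c3) c1)) (.y (.x c1 c8) c8)))) (.x (.y (.x (.y c6 (.x c9
  (.y c6 (.x (.y c9 c10) (.y (.x (.y c6 c10) c11) c11))))) (.y c6 (.x c11 c6))) (.x (.y (.x c9
  (.y (.x (.y c10 c11) c11) c11)) c8) (.y c11 (.x (.y c11 c8) (.y c11 c8))))) (.y c6 (.x (.y (.x
  (.y c12 c11) (.y c6 c13)) (.x (.y c14 c8) (.y (.x c14 c15) c8))) c15)))

theorem ok173 : okF 1 13 (-1) t173 = true := by decide +kernel

theorem all173 : AllA 173 := allA (D := 173) (thm_of_ok ok173)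
  (l :=
    [(-1, 0, -6, -1)])
  (by decide +kernel)

/-- a cover for the form `(3, 9, -8)` of discriminant `177` -/
def t177 : CT :=
  let c0 : CT := .l 1 0 0
  let c1 : CT := .l 2 1 0
  let c2 : CT := .l 1 1 0
  let c3 : CT := .l 3 0 1
  let c4 : CT := .l 1 (-2) 1
  let c5 : CT := .l 1 13 (-3)
  let c6 : CT := .l 5 (-1) 1
  let c7 : CT := .l 1 (-1) (-1)
  let c8 : CT := .l 1 2 0
  let c9 : CT := .l 1 (-13) 4
  let c10 : CT := .l 3 1 2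
  let c11 : CT := .l 4 1 2
  let c12 : CT := .l 3 1 1
  let c13 : CT := .l 1 1 1
  let c14 : CT := .l 1 (-2) (-3)
  let c15 : CT := .l 1 3 4
  let c16 : CT := .l 3 2 1
  let c17 : CT := .l 4 3 2
  let c18 : CT := .l 6 5 2
  let c19 : CT := .l 3 3 1
  let c20 : CT := .l 3 3 2
  let c21 : CT := .l 1 2 2
  let c22 : CT := .l 3 0 2
  let c23 : CT := .l 2 5 0
  let c24 : CT := .l 3 4 1
  let c25 : CT := .l 1 (-1) 1
  let c26 : CT := .l 1 14 (-3)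
  .x (.y (.x c0 (.y (.x c0 c1) (.x c0 c2))) (.x (.y (.x (.y c0 c3) c0) (.x (.y (.x c3 (.y c3
  c3)) (.x (.y c4 (.x (.y c4 (.x (.y c4 (.x c5 c6)) (.y (.x c4 c7) (.x (.y c5 c8) c9)))) c7))
  (.y c3 (.x c7 c3)))) (.y (.x c0 c0) (.x (.y (.x (.y c4 (.x c3 (.y (.x (.y c4 c5) c10) c8)))
  c10) c8) c11)))) (.y (.x c0 (.y (.x c12 c13) (.x c12 (.y c13 (.x c13 c13))))) (.x c0 (.y (.x
  c12 c8) (.x c0 (.y (.x c12 (.y (.x c11 c13) (.x c14 (.y c13 c14)))) (.x c12 (.y (.x c12 c14)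
  (.x c12 (.y c14 c15))))))))))) (.y (.x (.y c2 (.x (.y c2 c2) c2)) c2) (.x (.y (.x (.y (.x c13
  c16) (.x c13 c16)) (.y (.x c16 c16) c16)) (.x (.y c13 (.x (.y c13 (.x (.y c13 (.x c14 c13))
  c13)) c13)) (.y (.x (.y c16 c13) c16) (.x c13 c17)))) (.y (.x (.y (.x (.y (.x c16 c16) c16)
  (.y (.x c16 c16) c16)) (.x c8 c18)) (.y c8 c19)) (.x (.y (.x (.y c19 (.x c16 c1)) (.y c19 (.x
  c20 c21))) (.x c17 (.y (.x c17 (.y c21 c20)) c17))) (.y (.x (.y c19 (.x (.y c18 c21) (.y (.x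
  (.y c19 c22) c19) (.x (.y c23 c18) (.y c23 c17))))) (.y c19 (.x (.y c19 c24) (.y c19 c24))))
  (.x (.y (.x c21 c17) c21) (.y (.x (.y c17 c25) c25) (.x c25 (.y c25 (.x c25 (.y c25 (.x c25
  (.y c25 c26)))))))))))))

theorem ok177 : okF 3 9 (-8) t177 = true := by decide +kernel

theorem all177 : AllA 177 := allA (D := 177) (thm_of_ok ok177)
  (l :=
    [(329, -46, -236, 33), (25, -7, 93, -26), (-1, 0, -1, -1), (2, -1, -1, 1), (4, -3, 15, -11)])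
  (by decide +kernel)

/-- a cover for the form `(5, 9, -5)` of discriminant `181` -/
def t181 : CT :=
  let c0 : CT := .l 1 0 0
  let c1 : CT := .l 2 0 1
  let c2 : CT := .l 2 1 0
  let c3 : CT := .l 2 1 1
  let c4 : CT := .l 4 1 1
  let c5 : CT := .l 3 1 0
  let c6 : CT := .l 1 1 0
  let c7 : CT := .l 1 (-1) 1
  let c8 : CT := .l 1 1 2
  let c9 : CT := .l 4 2 1
  let c10 : CT := .l 1 0 (-1)
  let c11 : CT := .l 1 1 1
  let c12 : CT := .l 4 3 1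
  let c13 : CT := .l 2 2 1
  .x (.x (.y c0 (.x (.y c0 c1) c0)) (.y (.x (.y (.x c0 c2) (.x c0 (.y c3 (.x c4 c3)))) (.y c2
  (.x (.y (.x c5 (.y c5 c5)) c6) c6))) (.x (.y c6 (.x c0 (.y c7 (.x c8 c3)))) (.y (.x c3 (.y c6
  c7)) c3)))) (.x (.y (.x (.y c2 c6) c6) (.x (.y (.x (.y c6 (.x c3 c9)) (.y c6 c10)) c3) (.y c11
  (.x c3 c11)))) (.y c6 (.x (.y (.x (.y c6 (.x c11 c12)) (.y c6 c3)) (.x c11 (.y (.x c11 c13)
  c11))) (.y (.x c13 c6) c13))))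

theorem ok181 : okF 5 9 (-5) t181 = true := by decide +kernel

theorem all181 : AllA 181 := allA (D := 181) (thm_of_ok ok181)
  (l :=
    [(25, 4, 56, 9), (5, -2, -2, 1), (-269, -216, -604, -485)])
  (by decide +kernel)

/-- a cover for the form `(5, 8, -6)` of discriminant `184` -/
def t184 : CT :=
  let c0 : CT := .l 1 0 0
  let c1 : CT := .l 2 1 0
  let c2 : CT := .l 4 1 1
  let c3 : CT := .l 2 1 1
  let c4 : CT := .l 8 3 1
  let c5 : CT := .l 1 1 0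
  let c6 : CT := .l 5 0 2
  let c7 : CT := .l 1 (-1) 1
  let c8 : CT := .l 3 1 1
  let c9 : CT := .l 1 1 1
  let c10 : CT := .l 1 0 (-1)
  let c11 : CT := .l 8 7 3
  let c12 : CT := .l 2 (-3) 3
  let c13 : CT := .l 5 5 2
  let c14 : CT := .l 4 3 1
  let c15 : CT := .l 4 3 2
  let c16 : CT := .l 6 5 2
  let c17 : CT := .l 6 5 3
  let c18 : CT := .l 4 7 0
  let c19 : CT := .l 4 5 1
  let c20 : CT := .l 1 2 0
  .x (.y (.x c0 (.y (.x (.y c0 c0) c1) (.x (.y (.x c0 (.y c1 (.x c0 (.y (.x c0 (.y c1 c2))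
  c2)))) (.x c2 c3)) (.y (.x (.y c1 (.x (.y (.x c4 c4) c2) c2)) c5) c5)))) (.x (.y (.x c0 c0)
  (.x (.y (.x (.y c6 c6) c5) (.x c5 (.y c5 c7))) c0)) (.y (.x c5 (.y c5 (.x c7 c3))) (.x (.y (.x
  c7 c8) c0) c3)))) (.y (.x (.y (.x c1 c5) c5) c5) (.x (.y (.x (.y c5 (.x (.y c5 c3) c9)) (.y c5
  (.x c9 (.y (.x c9 c10) c9)))) (.x c3 c9)) (.y (.x (.y c5 (.x (.y (.x c10 c3) c3) c3)) (.y c5
  (.x (.y c5 (.x c11 (.y c11 (.x c11 (.y c11 (.x c11 c12)))))) (.y c5 c13)))) (.x (.y (.x c10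
  (.y (.x c14 c11) (.x (.y (.x c10 c14) c15) (.y (.x c14 c16) c15)))) (.x c15 (.y c15 c17))) (.y
  (.x (.y (.x c11 (.y (.x (.y c11 c11) (.y (.x (.y c12 c18) c13) c13)) (.x (.y (.x c11 (.y (.x
  c11 c13) c19)) c19) c19))) (.x (.y (.x c16 c19) c15) c15)) (.y c13 c13)) (.x (.y (.x (.y c15
  c17) (.y c13 c17)) c20) c20))))))

theorem ok184 : okF 5 8 (-6) t184 = true := by decide +kernel

theorem all184 : AllA 184 := allA (D := 184) (thm_of_ok ok184)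
  (l :=
    [(61, 9, -34, -5), (3, -1, 7, -2), (83, -32, 179, -69), (7, 6, 15, 13), (19, -13, 41, -28)])
  (by decide +kernel)

/-- a cover for the form `(2, 13, -2)` of discriminant `185` -/
def t185 : CT :=
  let c0 : CT := .l 1 0 0
  let c1 : CT := .l 1 0 (-1)
  let c2 : CT := .l 4 1 1
  let c3 : CT := .l 1 1 0
  let c4 : CT := .l 1 0 (-2)
  let c5 : CT := .l 3 1 0
  let c6 : CT := .l 2 1 1
  let c7 : CT := .l 3 1 1
  let c8 : CT := .l 1 3 0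
  let c9 : CT := .l 3 1 2
  let c10 : CT := .l 1 2 0
  let c11 : CT := .l 1 1 3
  let c12 : CT := .l 3 2 1
  let c13 : CT := .l 4 3 1
  let c14 : CT := .l 3 3 1
  let c15 : CT := .l 1 1 1
  let c16 : CT := .l 1 1 2
  .x (.x (.y c0 (.x c0 (.y (.x c0 (.y c0 c1)) (.x c0 c1)))) (.y (.x (.y c0 (.x (.y c0 c2) (.y c3
  (.x c4 c5)))) (.y c3 (.x (.y c3 (.x (.y (.x c5 (.y c3 c2)) c2) c6)) (.y c3 c6)))) (.x (.y c7
  (.x (.y (.x (.y c7 (.x c8 c7)) c7) (.x (.y (.x c1 c2) c6) c9)) c7)) (.y (.x c7 c6) c6)))) (.x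
  (.y (.x (.y c3 (.x (.y c3 c10) (.y c3 c10))) (.y c3 (.x (.y c3 c10) c3))) (.x (.y (.x (.y (.x
  c6 (.y (.x (.y c10 c7) (.y c10 c7)) c7)) c6) (.y (.x (.y (.x (.y c11 c7) c11) c7) c12) c12))
  c6) (.y c12 (.x (.y c12 c6) (.y c12 c6))))) (.y c3 (.x (.y (.x (.y c13 (.x c13 (.y c12 c14)))
  c15) (.x (.y (.x c16 (.y (.x c16 c15) c6)) c6) c15)) (.y c3 c15))))

theorem ok185 : okF 2 13 (-2) t185 = true := by decide +kernel

theorem all185 : AllB 185 := allB (D := 185) (thm_of_ok ok185)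
  (l :=
    [(-1, 0, -3, -1), (-1, -1, -6, -7)])
  (l' :=
    [(1, 0), (4, 3)])
  (by decide +kernel)

/-- a cover for the form `(2, 10, -11)` of discriminant `188` -/
def t188 : CT :=
  let c0 : CT := .l 1 0 0
  let c1 : CT := .l 1 1 0
  let c2 : CT := .l 4 2 1
  let c3 : CT := .l 1 2 0
  let c4 : CT := .l 4 3 1
  let c5 : CT := .l 3 0 1
  let c6 : CT := .l 3 1 1
  let c7 : CT := .l 2 0 1
  let c8 : CT := .l 2 (-1) 1
  let c9 : CT := .l 2 1 1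
  let c10 : CT := .l 3 2 1
  let c11 : CT := .l 3 3 1
  let c12 : CT := .l 5 3 2
  let c13 : CT := .l 2 2 1
  .y (.x (.y (.x c0 (.y c0 c0)) (.x c0 (.y c1 (.x c0 (.y (.x c0 c2) (.x c0 c2)))))) (.y c1 (.x
  (.y c1 (.x (.y (.x (.y c1 c2) (.y c1 c2)) c2) c3)) (.y c1 (.x (.y c3 c4) c1))))) (.x (.y (.x
  (.y (.x (.y c0 c5) c0) (.x c5 (.y c0 c6))) (.y (.x c0 (.y c3 c6)) (.x c6 (.y c6 c0)))) (.x (.y
  (.x (.y c5 c7) (.y (.x c8 c0) c7)) c7) (.y c0 (.x (.y c7 c9) c9)))) (.y (.x (.y (.x (.y c3 c6)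
  (.y c4 c10)) (.x c10 c10)) (.y (.x (.y (.x c4 (.y c4 c8)) c10) (.y c11 c11)) (.x (.y (.x c10
  c11) c11) c11))) (.x (.y (.x (.y (.x c9 c12) c9) (.y c10 c9)) c9) (.y (.x (.y (.x c10 c13) c9)
  c13) (.x (.y c13 c13) c13)))))

theorem ok188 : okF 2 10 (-11) t188 = true := by decide +kernel

theorem all188 : AllA 188 := allA (D := 188) (thm_of_ok ok188)
  (l :=
    [(7, -1, -6, 1), (-1, 0, -2, -1)])
  (by decide +kernel)

/-- a cover for the form `(4, 9, -7)` of discriminant `193` -/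
def t193 : CT :=
  let c0 : CT := .l 1 0 0
  let c1 : CT := .l 3 1 0
  let c2 : CT := .l 5 2 0
  let c3 : CT := .l 5 3 1
  let c4 : CT := .l 1 6 9
  let c5 : CT := .l 1 1 0
  let c6 : CT := .l 2 4 (-1)
  let c7 : CT := .l 2 0 1
  let c8 : CT := .l 7 3 2
  let c9 : CT := .l 4 2 1
  let c10 : CT := .l 5 2 2
  let c11 : CT := .l 1 (-1) (-2)
  let c12 : CT := .l 1 (-1) 1
  let c13 : CT := .l 1 (-5) (-9)
  let c14 : CT := .l 1 1 1
  let c15 : CT := .l 7 5 2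
  let c16 : CT := .l 3 5 0
  let c17 : CT := .l 4 4 1
  let c18 : CT := .l 1 (-4) 2
  let c19 : CT := .l 1 7 11
  let c20 : CT := .l 5 (-9) 6
  let c21 : CT := .l 4 (-2) 3
  let c22 : CT := .l 1 (-4) (-7)
  let c23 : CT := .l 1 0 (-1)
  let c24 : CT := .l 2 2 1
  let c25 : CT := .l 3 3 1
  let c26 : CT := .l 1 2 0
  .x (.y (.x c0 (.y (.x c0 (.y (.x c0 (.y (.x c1 (.y (.x c2 (.y (.x c3 (.y c4 (.x (.y c4 c3)
  c4))) (.x c3 c5))) (.x (.y (.x c2 c3) c6) c5))) (.x c2 c5))) (.x c1 c5))) (.x (.y c0 c5) c5)))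
  (.x (.y (.x (.y c0 c5) c0) (.x c7 (.y c0 (.x c7 c0)))) (.y (.x (.y c5 c0) (.y (.x (.y c5 c8)
  c9) (.x (.y (.x (.y (.x (.y c9 c10) (.y c9 c7)) c7) c11) c7) (.y c7 (.x c7 (.y c7 c10))))))
  (.x c0 (.y (.x c10 (.y (.x c10 (.y c10 (.x c11 (.y c10 (.x c11 c8))))) (.x c10 c11))) (.x (.y
  (.x c0 c10) (.x c0 c12)) (.y (.x (.y c10 c12) (.y (.x (.y c11 c12) c12) c12)) c12))))))) (.y
  (.x (.y (.x (.y (.x (.y (.x (.y (.x (.y (.x (.y c13 c5) c5) c5) c5) c5) c5) c5) c5) c5) c5)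
  (.x c5 c5)) c5) (.x (.y (.x (.y c14 (.x (.y c14 (.x c10 c14)) c14)) (.y (.x (.y c5 (.x c14
  c15)) (.y c5 c15)) (.x c14 (.y (.x (.y (.x (.y c15 (.x c15 c15)) c15) (.x (.y (.x c14 c4) c14)
  (.y (.x c13 c15) (.x (.y c16 c14) c17)))) (.y c15 (.x (.y c15 c17) c17))) (.x (.y (.x c14 c17)
  c14) (.y (.x c18 (.y c18 (.x (.y c18 c12) c15))) c12)))))) (.x (.y (.x (.y (.x (.y (.x (.y c10
  (.x c10 (.y c10 c19))) c14) (.x (.y (.x (.y (.x c10 (.y c10 (.x c10 (.y c10 c20)))) c8) (.y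
  c19 c21)) (.x c8 c16)) (.y (.x c22 c14) (.x c16 c22)))) c14) (.x (.y (.x (.y (.x c8 (.y (.x
  c16 (.y c16 c18)) c18)) c18) c18) (.x c18 (.y c18 c12))) (.y c14 c12))) c14) (.x c12 (.y c14
  c14))) (.y (.x c14 (.y c12 c14)) c14))) (.y (.x (.y (.x c23 c24) (.x (.y (.x (.y (.x c15 c23)
  c18) c23) (.x (.y (.x c15 c12) c12) c12)) (.y c24 c12))) (.y (.x c5 c17) c25)) (.x (.y (.x (.y
  c12 c26) c26) (.x (.y c26 c14) c24)) c24))))

theorem ok193 : okF 4 9 (-7) t193 = true := by decide +kernel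

theorem all193 : AllA 193 := allA (D := 193) (thm_of_ok ok193)
  (l :=
    [(8377, -1125, -5123, 688), (-26191, -8126, -74947, -23253),
     (-77885, 31379, 47631, -19190), (-1, 0, -1, -1), (939, 874, 2687, 2501),
     (167959, 226654, 480624, 648583)])
  (by decide +kernel)

/-- a cover for the form `(7, 1, -7)` of discriminant `197` -/
def t197 : CT :=
  let c0 : CT := .l 1 0 0
  let c1 : CT := .l 2 0 1
  let c2 : CT := .l 5 1 2
  let c3 : CT := .l 4 1 2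
  let c4 : CT := .l 3 1 0
  let c5 : CT := .l 2 1 0
  let c6 : CT := .l 4 2 1
  let c7 : CT := .l 3 1 1
  let c8 : CT := .l 6 3 1
  let c9 : CT := .l 1 1 1
  let c10 : CT := .l 2 1 1
  let c11 : CT := .l 5 3 1
  let c12 : CT := .l 1 1 0
  let c13 : CT := .l 3 2 1
  let c14 : CT := .l 4 3 2
  let c15 : CT := .l 2 2 1
  let c16 : CT := .l 3 3 1
  .x (.x (.y c0 (.x (.y (.x c0 c0) c1) (.y c0 (.x (.y c1 (.x c1 (.y c1 c1))) (.y c2 c3))))) (.y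
  (.x (.y (.x c0 (.y c4 c0)) c0) (.y c5 (.x (.y c5 (.x (.y c0 c0) (.y c6 c7))) (.y (.x c5 c8)
  c6)))) (.x (.y c7 (.x (.y c7 c3) c0)) (.y (.x (.y c7 c7) (.y c6 (.x c9 c10))) c10)))) (.x (.y
  (.x (.y c5 (.x (.y (.x c8 c5) c6) (.y c5 c11))) (.y (.x (.y c12 c12) c12) c12)) (.x (.y (.x
  (.y c6 c12) c12) c10) (.y c12 (.x (.y c12 (.x c10 (.y c10 c10))) (.y c13 c14))))) (.y c12 (.x
  (.y c12 (.x (.y (.x c13 (.y c12 c14)) c14) (.y c15 (.x (.y c15 c16) c16)))) (.y (.x c12 c16)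
  c15))))

theorem ok197 : okF 7 1 (-7) t197 = true := by decide +kernel

theorem all197 : AllA 197 := allA (D := 197) (thm_of_ok ok197)
  (l :=
    [(8, -1, -7, 1), (1, 0, 0, 1)])
  (by decide +kernel)

/-- a cover for the form `(2, 13, -4)` of discriminant `201` -/
def t201 : CT :=
  let c0 : CT := .l 1 0 0
  let c1 : CT := .l 1 1 0
  let c2 : CT := .l 1 0 (-1)
  let c3 : CT := .l 2 1 1
  let c4 : CT := .l 1 2 0
  let c5 : CT := .l 1 (-17) 3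
  let c6 : CT := .l 3 1 1
  let c7 : CT := .l 1 1 2
  let c8 : CT := .l 7 2 3
  let c9 : CT := .l 4 3 1
  let c10 : CT := .l 3 0 1
  let c11 : CT := .l 7 4 2
  let c12 : CT := .l 1 (-4) 1
  let c13 : CT := .l 2 (-1) 1
  let c14 : CT := .l 1 3 0
  let c15 : CT := .l 1 0 (-2)
  let c16 : CT := .l 8 5 3
  let c17 : CT := .l 1 1 1
  let c18 : CT := .l 3 3 1
  let c19 : CT := .l 5 5 2
  let c20 : CT := .l 6 5 3
  let c21 : CT := .l 3 6 1
  let c22 : CT := .l 5 6 6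
  let c23 : CT := .l 3 13 0
  let c24 : CT := .l 4 (-3) 3
  let c25 : CT := .l 1 (-16) 3
  .x (.y (.x c0 (.y (.x c0 c1) (.x (.y c1 (.x c0 c2)) (.y c1 (.x c3 c4))))) (.x (.y c0 (.x (.y
  c0 (.x (.y c0 (.x (.y c0 (.x (.y c0 (.x (.y c0 c5) c0)) c0)) c0)) c0)) c0)) (.y (.x c6 (.y (.x
  c3 (.y (.x c3 c7) c6)) c3)) (.x (.y (.x (.y c6 c8) c6) (.x (.y (.x (.y c8 c0) c8) c3) c3))
  c3)))) (.y (.x (.y c1 (.x (.y c1 (.x c4 c4)) (.y c1 (.x (.y c4 (.x (.y c4 c9) c9)) c9)))) (.y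
  c1 (.x c1 c1))) (.x (.y (.x (.y (.x (.y (.x (.y c10 (.x c7 c9)) c11) c6) (.y (.x c11 c9) c6))
  (.x (.y (.x c7 (.y c6 c12)) c3) (.y (.x (.y c11 c13) (.y c12 c13)) c14))) (.y (.x (.y c9 (.x
  (.y c9 (.x c6 (.y c6 c12))) c15)) (.y c9 (.x c9 c9))) (.x (.y (.x (.y c12 c14) (.y c15 c14))
  (.x (.y c14 c16) (.y c14 c16))) (.y c14 (.x c15 c17))))) (.x (.y (.x c7 c3) c3) (.y (.x (.y
  (.x c16 (.y c18 c3)) c3) (.y (.x c15 c17) c3)) c3))) (.y (.x (.y (.x c17 (.y c1 c17)) c17) (.y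
  c1 c18)) (.x c17 (.y (.x (.y (.x c18 c18) c17) c19) (.x c17 (.y (.x c3 (.y c19 (.x (.y c19 (.x
  c17 c19)) c19))) (.x c17 (.y c20 (.x c17 (.y (.x (.y c20 c17) (.y c21 (.x (.y (.x c22 c19)
  c23) c19))) (.x c17 (.y (.x (.y c24 c22) (.y c24 (.x (.y c24 c25) c25))) c25)))))))))))))

theorem ok201 : okF 2 13 (-4) t201 = true := by decide +kernel

theorem all201 : AllA 201 := allA (D := 201) (thm_of_ok ok201)
  (l :=
    [(112, 17, -33, -5), (-1, 0, -3, -1), (2, 1, 13, 7), (73, -34, 496, -231),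
     (-727, 479, 214, -141), (231, 248, -68, -73)])
  (by decide +kernel)

/-- a cover for the form `(7, 3, -7)` of discriminant `205` -/
def t205 : CT :=
  let c0 : CT := .l 1 0 0
  let c1 : CT := .l 2 0 1
  let c2 : CT := .l 4 1 2
  let c3 : CT := .l 3 1 0
  let c4 : CT := .l 2 1 0
  let c5 : CT := .l 1 1 1
  let c6 : CT := .l 4 2 1
  let c7 : CT := .l 6 3 1
  let c8 : CT := .l 2 1 1
  let c9 : CT := .l 1 1 0
  let c10 : CT := .l 1 0 1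
  let c11 : CT := .l 4 3 2
  let c12 : CT := .l 2 2 1
  let c13 : CT := .l 3 3 1
  .x (.x (.y c0 (.x (.y (.x c0 c0) c1) (.y c0 (.x (.y c1 (.x c1 (.y c1 c1))) (.y c0 c2))))) (.y
  (.x (.y (.x c0 (.y c3 c4)) (.x c0 c5)) (.y c4 (.x (.y (.x c4 (.y c4 c1)) (.x c5 (.y (.x c5 c6)
  c5))) (.y (.x (.y c4 c6) c7) c6)))) (.x (.y c0 c0) (.y (.x (.y c5 c8) (.y c6 c5)) c8)))) (.x
  (.y (.x (.y c4 (.x (.y (.x c7 c4) c6) (.y c4 c9))) (.y (.x (.y c9 c9) c9) c9)) (.x (.y c9 c8)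
  (.y c9 (.x (.y c8 c10) (.y c10 c11))))) (.y c9 (.x (.y (.x c9 (.y c9 c10)) (.x (.y (.x c10 (.y
  c10 (.x c10 c11))) c11) (.y (.x c4 c12) (.x (.y c11 c13) c12)))) (.y (.x (.y c10 c12) c13)
  c12))))

theorem ok205 : okF 7 3 (-7) t205 = true := by decide +kernel

theorem all205 : AllB 205 := allB (D := 205) (thm_of_ok ok205)
  (l :=
    [(3, -1, -2, 1), (1, 0, 0, 1)])
  (l' :=
    [(1, 0), (-1, -1)])
  (by decide +kernel)

/-- a cover for the form `(2, 13, -5)` of discriminant `209` -/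
def t209 : CT :=
  let c0 : CT := .l 1 0 0
  let c1 : CT := .l 1 1 0
  let c2 : CT := .l 5 2 1
  let c3 : CT := .l 1 2 0
  let c4 : CT := .l 2 0 1
  let c5 : CT := .l 3 1 1
  let c6 : CT := .l 4 2 1
  let c7 : CT := .l 1 0 (-1)
  let c8 : CT := .l 3 2 1
  let c9 : CT := .l 6 2 3
  let c10 : CT := .l 1 1 2
  let c11 : CT := .l 8 4 3
  let c12 : CT := .l 3 4 1
  let c13 : CT := .l 1 38 (-5)
  let c14 : CT := .l 1 (-3) 1
  let c15 : CT := .l 1 1 1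
  let c16 : CT := .l 5 3 2
  let c17 : CT := .l 3 2 2
  let c18 : CT := .l 1 4 0
  let c19 : CT := .l 6 4 3
  let c20 : CT := .l 1 0 (-2)
  let c21 : CT := .l 3 3 1
  let c22 : CT := .l 2 2 1
  .x (.y (.x c0 (.y (.x c0 c1) (.x (.y c1 (.x c0 (.y c2 c3))) (.y c1 (.x c2 c3))))) (.x (.y c0
  (.x (.y c0 c4) c0)) (.y (.x c5 (.y (.x (.y c6 c5) c7) (.x c5 (.y c5 c8)))) (.x (.y (.x (.y c5
  c4) c5) (.x c4 (.y c4 c9))) (.y (.x (.y c5 c5) (.y (.x (.y c8 (.x c10 (.y c11 c4))) c7) c4))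
  (.x (.y c4 (.x c9 (.y c10 c9))) (.y (.x c10 (.y c4 (.x (.y c4 c10) (.y c4 (.x (.y c12 (.x (.y
  (.x c13 (.y c13 c9)) c9) c7)) c7))))) (.x c10 (.y c9 c14))))))))) (.y (.x (.y c1 (.x (.y c1
  (.x c3 (.y c3 c6))) (.y c1 (.x (.y c3 c8) c15)))) (.y c1 (.x (.y c1 (.x (.y c3 (.x c15 c1))
  c1)) c1))) (.x (.y (.x (.y (.x c6 c8) c8) (.y (.x c8 c15) c8)) (.x (.y (.x (.y (.x c11 c6) c4)
  c16) (.x (.y c7 (.x (.y c7 c14) c14)) (.y (.x c17 c16) (.x (.y c17 c18) c17)))) (.y (.x (.y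
  c16 (.x c16 c8)) c15) (.x (.y (.x c16 c8) c19) c8)))) (.y (.x (.y (.x c15 (.y (.x c20 c1) c8))
  (.x c15 (.y (.x c15 c21) c21))) (.y c1 c21)) (.x c15 c22))))

theorem ok209 : okF 2 13 (-5) t209 = true := by decide +kernel

theorem all209 : AllA 209 := allA (D := 209) (thm_of_ok ok209)
  (l :=
    [(74, 11, -27, -4), (-1, 0, -3, -1), (-5, -3, 2, 1), (1, 1, -1, 0)])
  (by decide +kernel)

/-- a cover for the form `(3, 9, -11)` of discriminant `213` -/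
def t213 : CT :=
  let c0 : CT := .l 1 0 0
  let c1 : CT := .l 2 1 0
  let c2 : CT := .l 1 1 0
  let c3 : CT := .l 4 2 1
  let c4 : CT := .l 4 0 1
  let c5 : CT := .l 3 0 1
  let c6 : CT := .l 3 1 1
  let c7 : CT := .l 2 0 1
  let c8 : CT := .l 3 2 1
  let c9 : CT := .l 4 1 2
  let c10 : CT := .l 2 1 1
  let c11 : CT := .l 4 3 1
  let c12 : CT := .l 6 3 2
  let c13 : CT := .l 1 2 0
  let c14 : CT := .l 2 2 1
  let c15 : CT := .l 3 3 1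
  let c16 : CT := .l 5 4 2
  let c17 : CT := .l 4 3 2
  .x (.y (.x c0 (.y (.x c0 (.y c1 c2)) (.x c0 (.y c2 (.x c0 c3))))) (.x (.y (.x (.y (.x c4 c0)
  c5) (.y c0 (.x (.y c0 (.x (.y c5 c6) c6)) c6))) (.x (.y (.x c7 (.y c6 c7)) c7) (.y (.x (.y c6
  c7) (.y c6 c7)) c7))) (.y (.x c0 (.y (.x c0 (.y c3 c6)) (.x c6 (.y c6 (.x c6 c8))))) (.x (.y
  c0 (.x (.y c7 c9) c10)) c10)))) (.y (.x (.y c2 (.x (.y c2 (.x (.y c2 c3) (.y c2 c8))) (.y c2
  (.x (.y c2 (.x (.y c3 c8) c11)) c11)))) (.y c2 (.x (.y c2 (.x (.y c2 c11) (.y c2 c11))) c2)))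
  (.x (.y (.x (.y (.x c3 c8) (.x (.y c12 c8) c8)) (.y (.x c8 (.y c11 c8)) c8)) (.x (.y (.x c10
  (.y c8 c10)) c10) (.y (.x (.y c8 c10) c8) c10))) (.y (.x (.y (.x c11 c13) (.x (.y c13 c8)
  c14)) (.y c13 c15)) (.x (.y (.x c16 c14) (.x (.y c10 c17) c14)) c14))))

theorem ok213 : okF 3 9 (-11) t213 = true := by decide +kernel

theorem all213 : AllA 213 := allA (D := 213) (thm_of_ok ok213)
  (l :=
    [(8, -1, -7, 1), (-1, 0, -1, -1)])
  (by decide +kernel)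

/-- a cover for the form `(3, 11, -8)` of discriminant `217` -/
def t217 : CT :=
  let c0 : CT := .l 1 0 0
  let c1 : CT := .l 2 1 0
  let c2 : CT := .l 1 1 0
  let c3 : CT := .l 5 2 1
  let c4 : CT := .l 1 1 1
  let c5 : CT := .l 3 0 1
  let c6 : CT := .l 7 1 3
  let c7 : CT := .l 1 2 0
  let c8 : CT := .l 1 15 (-3)
  let c9 : CT := .l 5 1 4
  let c10 : CT := .l 1 (-15) 4
  let c11 : CT := .l 1 1 2
  let c12 : CT := .l 13 2 6
  let c13 : CT := .l 8 1 4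
  let c14 : CT := .l 1 (-2) 1
  let c15 : CT := .l 2 3 0
  let c16 : CT := .l 1 (-7) 2
  let c17 : CT := .l 1 (-1) (-2)
  let c18 : CT := .l 3 0 (-1)
  let c19 : CT := .l 6 1 2
  let c20 : CT := .l 5 4 1
  let c21 : CT := .l 1 6 (-1)
  let c22 : CT := .l 6 3 2
  let c23 : CT := .l 12 5 4
  let c24 : CT := .l 5 2 2
  let c25 : CT := .l 3 2 1
  let c26 : CT := .l 8 3 4
  let c27 : CT := .l 4 1 2
  let c28 : CT := .l 3 3 1
  let c29 : CT := .l 2 5 0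
  let c30 : CT := .l 1 (-6) 2
  let c31 : CT := .l 3 3 4
  let c32 : CT := .l 10 9 4
  let c33 : CT := .l 14 5 4
  let c34 : CT := .l 10 13 18
  let c35 : CT := .l 4 (-3) (-6)
  let c36 : CT := .l 5 (-4) 4
  let c37 : CT := .l 9 15 2
  let c38 : CT := .l 1 12 19
  let c39 : CT := .l 1 (-85) (-137)
  let c40 : CT := .l 1 (-11) (-18)
  let c41 : CT := .l 1 86 138
  let c42 : CT := .l 17 12 4
  let c43 : CT := .l 10 7 2
  let c44 : CT := .l 1 0 (-1)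
  let c45 : CT := .l 5 3 2
  let c46 : CT := .l 5 3 3
  let c47 : CT := .l 4 7 10
  let c48 : CT := .l 10 (-3) (-8)
  let c49 : CT := .l 14 9 10
  let c50 : CT := .l 5 9 1
  let c51 : CT := .l 5 4 2
  let c52 : CT := .l 4 3 2
  let c53 : CT := .l 3 3 2
  let c54 : CT := .l 1 7 (-1)
  let c55 : CT := .l 14 13 6
  let c56 : CT := .l 2 (-3) 2
  let c57 : CT := .l 10 11 4
  let c58 : CT := .l 5 6 4
  let c59 : CT := .l 1 3 0
  let c60 : CT := .l 1 16 (-3)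
  .x (.y (.x c0 (.y (.x c0 (.y c1 c2)) (.x (.y c2 c0) (.y c2 (.x c3 (.y c2 (.x c3 c4))))))) (.x
  (.y (.x (.y c0 c5) c0) (.x (.y (.x c5 (.y c5 (.x c5 c6))) (.x (.y c7 (.x (.y c7 (.x (.y c7 (.x
  (.y c7 c8) c9)) (.y c7 (.x (.y c8 c10) c11)))) c11)) (.y c7 c5))) (.y c0 (.x (.y (.x (.y c7
  c12) c6) (.x (.y (.x c13 (.y c12 c13)) c13) c14)) c0)))) (.y (.x (.y (.x c0 c0) c0) (.y (.x
  (.y (.x (.y c15 (.x (.y c15 c16) c17)) (.y c3 c17)) (.x (.y (.x (.y c18 (.x c0 c18)) (.y (.x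
  (.y c19 (.x c18 c17)) c17) c20)) (.x (.y (.x c0 (.y c20 c21)) c21) c21)) (.y c17 (.x c21
  c17)))) (.y (.x (.y c3 c3) c4) (.x (.y c3 c22) c22))) (.x (.y (.x (.y (.x (.y (.x c21 (.y c21
  (.x c21 c23))) (.x c0 (.y (.x c0 c23) c23))) c23) (.x c24 c23)) (.y (.x c23 c17) c23)) c7) (.y
  c22 c7)))) (.x c0 (.y (.x c24 (.y c25 c14)) (.x (.y (.x c0 c24) (.x c0 (.y (.x c0 c24) c26)))
  (.y (.x (.y c24 c24) (.y c27 (.x (.y c27 (.x c24 (.y c28 c29))) (.y c28 (.x (.y c28 c29)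
  c29))))) (.x c24 (.y (.x (.y c29 c26) (.y c26 (.x (.y c26 c30) c30))) (.x (.y c30 c24) (.y c30
  (.x (.y c30 (.x c31 (.y (.x (.y c32 (.x c33 (.y (.x c33 c34) c33))) (.y c35 c36)) c36))) (.y
  (.x (.y c30 (.x c32 (.y c32 (.x c37 (.y c37 c38))))) (.y c30 (.x (.y c32 (.x (.y c37 c38) (.y
  (.x c39 c40) c36))) c40))) (.x (.y c38 (.x c36 c38)) (.y c36 (.x c38 (.y (.x c36 (.y c36 (.x
  c36 c40))) (.x c38 (.y (.x c41 c39) (.x c38 (.y (.x c41 c39) c41))))))))))))))))))))) (.y (.x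
  (.y c2 (.x (.y c2 (.x c4 c25)) (.y c2 (.x c1 (.y c2 (.x (.y c20 (.x c1 c42)) (.y c21 (.x c43
  c44)))))))) (.y c2 (.x (.y c2 (.x (.y c20 (.x c44 c44)) c2)) c2))) (.x (.y (.x (.y (.x c4 c25)
  (.x c7 c25)) (.y (.x c25 (.y (.x c25 c7) c25)) c25)) (.x (.y (.x (.y c25 c45) c45) (.x (.y (.x
  (.y c28 (.x c46 c17)) (.y (.x c28 c4) (.x c17 (.y c4 (.x c17 c4))))) (.x (.y (.x (.y (.x c26
  c46) c30) c46) (.x (.y (.x c30 c18) (.x (.y (.x (.y (.x c40 (.y c32 c47)) (.x c40 c47)) (.y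
  (.x (.y c32 (.x (.y c37 (.x c47 c48)) c49)) c18) c36)) (.x (.y c40 (.x (.y c40 (.x (.y c40 (.x
  (.y c40 c39) c40)) c40)) c40)) (.y (.x c47 (.y c36 (.x (.y (.x c47 c48) c47) c49))) (.x c40
  (.y (.x c47 (.y (.x (.y c48 c47) c49) (.x c47 c48))) c47))))) (.y c18 (.x (.y (.x (.y c18 (.x
  c49 c18)) c18) (.x (.y c49 (.x (.y c49 c50) c50)) c18)) c18)))) c46)) (.y (.x c17 (.y c30
  c17)) c17))) (.y c4 c4))) (.y (.x c4 c25) c4))) (.y (.x (.y c7 (.x (.y c25 c51) (.y (.x c44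
  c28) c44))) (.y (.x (.y c7 c28) c28) c28)) (.x (.y (.x c51 (.y c51 (.x c51 (.y c51 c51)))) (.x
  (.y (.x c25 (.y c51 c1)) c52) (.y (.x c51 c53) c52))) (.y (.x (.y c28 (.x c44 (.y (.x c44 c54)
  c55))) (.y c28 (.x (.y (.x (.y c54 c55) c28) (.x c55 (.y c56 (.x (.y c55 c52) (.y c57 c52)))))
  (.y c28 (.x (.y c28 (.x c58 c52)) c28))))) (.x (.y c44 c59) (.y (.x (.y c52 c59) (.y c52 c59))
  (.x c59 (.y c59 (.x c59 (.y c59 (.x c59 (.y c59 c60)))))))))))))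

theorem ok217 : okF 3 11 (-8) t217 = true := by decide +kernel

theorem all217 : AllA 217 := allA (D := 217) (thm_of_ok ok217)
  (l :=
    [(409, -52, 1754, -223), (944, 275, -587, -171), (21, -8, -13, 5), (2, -1, 9, -4),
     (-156, 119, 97, -74), (5, -3, -3, 2)])
  (by decide +kernel)

/-- a cover for the form `(2, 14, -3)` of discriminant `220` -/
def t220 : CT :=
  let c0 : CT := .l 1 0 0
  let c1 : CT := .l 1 1 0
  let c2 : CT := .l 3 1 1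
  let c3 : CT := .l 3 1 0
  let c4 : CT := .l 1 2 0
  let c5 : CT := .l 2 0 1
  let c6 : CT := .l 4 2 1
  let c7 : CT := .l 2 1 1
  let c8 : CT := .l 1 0 (-3)
  let c9 : CT := .l 4 3 1
  let c10 : CT := .l 1 3 0
  let c11 : CT := .l 8 5 3
  let c12 : CT := .l 1 1 2
  let c13 : CT := .l 3 2 0
  let c14 : CT := .l 1 (-4) 1
  let c15 : CT := .l 8 6 3
  let c16 : CT := .l 1 1 1
  let c17 : CT := .l 2 2 1
  .x (.y (.x c0 (.y (.x c0 c1) (.x (.y (.x c1 c1) (.x (.y (.x c0 c2) c2) (.y (.x c2 (.y c3 c4))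
  c4))) (.y c1 (.x c4 c4))))) (.x (.y (.x c0 (.y c0 (.x c0 c2))) (.x c0 (.y (.x c0 (.y (.x c0
  c2) c5)) c5))) (.y (.x (.y c2 c2) (.y (.x (.y c6 c2) c7) (.x c2 c7))) (.x (.y (.x (.y c2 c5)
  c2) (.x c5 c7)) c7)))) (.y (.x (.y c1 (.x (.y c1 (.x (.y c4 c6) (.y c4 c6))) (.y c1 (.x (.y c4
  (.x c6 c8)) c9)))) (.y c1 (.x c1 c1))) (.x (.y (.x (.y (.x c6 (.y (.x c6 c9) c2)) (.x (.y (.x
  c7 (.y c6 c7)) c7) (.y c10 (.x (.y c10 c7) c11)))) (.y (.x (.y c9 (.x c12 (.y c9 c10))) (.y c9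
  (.x c9 c9))) (.x c12 (.y (.x c10 c13) (.x (.y c14 c8) c15))))) (.x (.y (.x c7 c7) c7) (.y (.x
  (.y (.x c11 c12) c7) (.y (.x (.y c15 c5) (.y c15 c5)) c7)) c7))) (.y (.x (.y (.x c9 c16) (.x
  (.y (.x c9 c16) (.x c9 c16)) c16)) (.y c1 (.x c16 c1))) (.x (.y (.x (.y (.x c15 c16) c7) c16)
  (.x c7 c16)) c17))))

theorem ok220 : okF 2 14 (-3) t220 = true := by decide +kernel

theorem all220 : AllB 220 := allB (D := 220) (thm_of_ok ok220)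
  (l :=
    [(-1, 0, -3, -1), (2, 1, -1, 0)])
  (l' :=
    [(1, 0), (3, 2), (-1, -1)])
  (by decide +kernel)

/-- a cover for the form `(5, 11, -5)` of discriminant `221` -/
def t221 : CT :=
  let c0 : CT := .l 1 0 0
  let c1 : CT := .l 2 0 1
  let c2 : CT := .l 2 1 0
  let c3 : CT := .l 3 1 1
  let c4 : CT := .l 6 2 1
  let c5 : CT := .l 1 1 0
  let c6 : CT := .l 3 1 0
  let c7 : CT := .l 4 1 2
  let c8 : CT := .l 1 (-1) 1
  let c9 : CT := .l 2 1 1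
  let c10 : CT := .l 4 2 1
  let c11 : CT := .l 7 4 2
  let c12 : CT := .l 3 2 1
  let c13 : CT := .l 1 1 1
  let c14 : CT := .l 6 5 2
  let c15 : CT := .l 2 2 1
  .x (.x (.y c0 (.x (.y c0 c1) (.y c0 c0))) (.y (.x (.y (.x c0 c2) (.x (.y c0 c3) (.y (.x c4 c4)
  c5))) (.y c2 (.x (.y (.x c6 c5) c5) c5))) (.x (.y (.x (.y c5 c3) c3) (.x (.y (.x c1 c3) c7)
  (.y c3 (.x c7 c8)))) (.y (.x (.y c5 c3) (.y c5 c9)) c9)))) (.x (.y (.x (.y c2 c5) c5) (.x (.y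
  (.x (.y c10 (.x c9 (.y c10 c10))) (.y (.x c11 c2) c12)) c9) (.y (.x c12 c12) (.x c9 (.y c12
  c12))))) (.y c5 (.x (.y (.x (.y c12 c13) (.y c5 (.x c14 (.y c14 c14)))) (.x c13 (.y (.x c13
  (.y c14 c13)) c13))) (.y (.x (.y c5 c15) c5) c15))))

theorem ok221 : okF 5 11 (-5) t221 = true := by decide +kernel

theorem all221 : AllB 221 := allB (D := 221) (thm_of_ok ok221)
  (l :=
    [(-1, 0, -1, -1), (-3, 2, 1, -1)])
  (l' :=
    [(1, 0)])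
  (by decide +kernel)

/-- a cover for the form `(2, 12, -11)` of discriminant `232` -/
def t232 : CT :=
  let c0 : CT := .l 1 0 0
  let c1 : CT := .l 1 1 0
  let c2 : CT := .l 6 3 1
  let c3 : CT := .l 5 2 1
  let c4 : CT := .l 1 2 0
  let c5 : CT := .l 4 2 1
  let c6 : CT := .l 4 3 1
  let c7 : CT := .l 3 3 1
  let c8 : CT := .l 3 0 1
  let c9 : CT := .l 1 1 1
  let c10 : CT := .l 2 0 1
  let c11 : CT := .l 1 (-1) (-1)
  let c12 : CT := .l 2 (-1) 1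
  let c13 : CT := .l 2 1 1
  let c14 : CT := .l 1 2 2
  let c15 : CT := .l 4 4 1
  let c16 : CT := .l 2 0 (-1)
  let c17 : CT := .l 1 (-4) 1
  let c18 : CT := .l 1 3 0
  let c19 : CT := .l 5 3 2
  let c20 : CT := .l 5 4 2
  let c21 : CT := .l 2 2 1
  .y (.x (.y (.x c0 (.y c0 c1)) (.x c0 (.y (.x c0 (.y c1 (.x c0 c2))) (.x c0 (.y (.x c3 c4)
  c4))))) (.y c1 (.x (.y (.x (.y c1 (.x c2 c1)) c1) (.x (.y c4 c5) (.y c4 (.x (.y c5 c6) c6))))
  (.y c1 (.x (.y c4 c6) (.y c1 (.x c7 c1))))))) (.x (.y (.x (.y (.x (.y c0 c8) c0) (.x c8 c0))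
  (.y (.x c0 (.y c5 c9)) (.x c0 (.y c9 (.x c0 c9))))) (.x (.y (.x (.y c8 c10) (.y (.x (.y (.x
  c11 c0) c12) c0) (.x c10 (.y c0 c10)))) c10) (.y (.x c0 c13) (.x (.y c10 c13) c13)))) (.y (.x
  (.y (.x (.y (.x c5 (.y c5 c6)) (.x c5 (.y (.x c5 c14) (.x c5 (.y c14 c15))))) (.y c6 (.x (.y
  (.x (.y c6 c16) c6) (.x c14 (.y c15 c17))) (.y c6 (.x (.y c15 c17) c17))))) (.x (.y (.x (.y
  (.x c9 c5) c17) (.y (.x c5 c17) (.x c5 c12))) c18) (.y (.x (.y (.x c17 (.y c17 c18)) c18) c18)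
  (.x (.y c18 (.x (.y c18 c19) c14)) (.y (.x c18 c20) c7))))) (.y (.x (.y (.x c6 (.y c6 c15))
  (.x c6 c21)) (.y c15 c18)) (.x (.y (.x c18 c21) c7) c7))) (.x (.y (.x (.y (.x c9 c19) c13) (.y
  (.x c19 (.y c19 c20)) (.x c13 (.y c20 c13)))) c13) (.y (.x (.y c20 (.x c20 c21)) c21) (.x (.y
  c13 c21) c21)))))

theorem ok232 : okF 2 12 (-11) t232 = true := by decide +kernel

theorem all232 : AllB 232 := allB (D := 232) (thm_of_ok ok232)
  (l :=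
    [(-1, 0, -3, -1), (3, -1, -2, 1)])
  (l' :=
    [(1, 0), (-1, -1), (2, 3)])
  (by decide +kernel)

/-- a cover for the form `(4, 13, -4)` of discriminant `233` -/
def t233 : CT :=
  let c0 : CT := .l 1 0 0
  let c1 : CT := .l 1 1 4
  let c2 : CT := .l 3 1 0
  let c3 : CT := .l 1 1 0
  let c4 : CT := .l 5 2 0
  let c5 : CT := .l 1 (-3) 1
  let c6 : CT := .l 1 1 2
  let c7 : CT := .l 3 1 1
  let c8 : CT := .l 1 1 3
  let c9 : CT := .l 3 1 2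
  let c10 : CT := .l 4 1 1
  let c11 : CT := .l 1 2 0
  let c12 : CT := .l 2 1 1
  let c13 : CT := .l 3 2 1
  let c14 : CT := .l 1 1 1
  let c15 : CT := .l 3 3 1
  let c16 : CT := .l 5 5 2
  let c17 : CT := .l 1 (-1) 1
  let c18 : CT := .l 1 0 (-3)
  .x (.x (.y c0 (.x (.y c0 (.x (.y c0 (.x (.y c0 (.x c1 c0)) c0)) c0)) (.y c0 (.x c0 c0)))) (.y
  (.x (.y (.x c0 c2) (.x (.y c3 c3) c3)) (.y (.x (.y (.x c2 c4) (.x c2 c3)) (.y (.x (.y (.x c4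
  (.y c4 c5)) c6) (.y (.x c5 (.y c5 c3)) c3)) c3)) (.x c3 c3))) (.x (.y (.x (.y c7 c7) c7) (.x
  (.y (.x c8 c7) (.x (.y c9 c9) (.y (.x c9 c10) c9))) (.y c7 (.x (.y c7 c11) c7)))) (.y (.x (.y
  c7 c7) (.y (.x c12 (.y c7 c12)) c12)) c12)))) (.x (.y (.x (.y (.x (.y (.x (.y (.x (.y c5 c3)
  c3) c3) c3) c3) c3) (.x c3 c3)) (.y c3 c3)) (.x (.y (.x (.y (.x c6 (.y c7 (.x c6 (.y c7
  c13)))) (.x c12 (.y c13 c13))) (.y (.x (.y c7 c13) c13) c13)) c12) (.y (.x c13 c13) (.x (.y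
  c13 c12) (.y c13 (.x c13 (.y c13 c13))))))) (.y c3 (.x (.y (.x c14 c14) (.x c14 c14)) (.y (.x
  (.y c3 c15) c15) (.x (.y (.x c14 (.y c15 c14)) c14) (.y (.x (.y c15 c16) c16) (.x (.y c17 c14)
  (.y (.x c17 c16) (.x (.y c18 c14) c18)))))))))

theorem ok233 : okF 4 13 (-4) t233 = true := by decide +kernel

theorem all233 : AllA 233 := allA (D := 233) (thm_of_ok ok233)
  (l :=
    [(-107, -15, -378, -53), (3261, -802, -923, 227), (-5266, -3435, -18605, -12136),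
     (-4, 3, 1, -1)])
  (by decide +kernel)

/-- a cover for the form `(2, 14, -5)` of discriminant `236` -/
def t236 : CT :=
  let c0 : CT := .l 1 0 0
  let c1 : CT := .l 1 1 0
  let c2 : CT := .l 6 2 1
  let c3 : CT := .l 5 2 1
  let c4 : CT := .l 1 2 0
  let c5 : CT := .l 1 0 (-1)
  let c6 : CT := .l 4 2 1
  let c7 : CT := .l 2 0 1
  let c8 : CT := .l 3 1 1
  let c9 : CT := .l 2 1 1
  let c10 : CT := .l 3 2 1
  let c11 : CT := .l 1 1 1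
  let c12 : CT := .l 4 3 1
  let c13 : CT := .l 3 3 1
  let c14 : CT := .l 2 2 1
  .x (.y (.x c0 (.y (.x c0 c1) (.x (.y (.x c0 (.y c1 c2)) (.x c0 (.y c3 c4))) (.y (.x c5 (.y c1
  c6)) (.x c5 c6))))) (.x (.y c0 (.x (.y c0 c7) c0)) (.y (.x (.y c8 c8) (.y (.x c9 (.y c6 c9))
  c9)) (.x (.y (.x (.y c8 (.x c0 (.y c8 c7))) c8) (.x c7 c9)) c9)))) (.y (.x (.y c1 (.x (.y (.x
  c1 c1) (.x (.y c4 c6) (.y c4 c6))) (.y c1 (.x (.y c4 c10) c11)))) (.y c1 (.x (.y c4 (.x (.y c1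
  c11) c1)) c1))) (.x (.y (.x (.y (.x c6 (.y c10 c10)) (.x (.y c10 c10) c10)) (.y (.x c10 c11)
  c10)) (.x (.y (.x c9 (.y (.x c9 c10) c9)) c9) (.y (.x (.y c10 c9) c10) c9))) (.y (.x (.y (.x
  c11 (.y (.x c12 c1) c10)) (.x c11 (.y (.x c11 c13) c13))) (.y (.x c14 c13) c14)) (.x c11
  c14))))

theorem ok236 : okF 2 14 (-5) t236 = true := by decide +kernel

theorem all236 : AllA 236 := allA (D := 236) (thm_of_ok ok236)
  (l :=
    [(-23, -3, 8, 1), (-1, 0, -3, -1), (1, 1, -1, 0)])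
  (by decide +kernel)

/-- a cover for the form `(1, 15, -3)` of discriminant `237` -/
def t237 : CT :=
  let c0 : CT := .l 1 0 0
  let c1 : CT := .l 1 1 0
  let c2 : CT := .l 1 3 0
  let c3 : CT := .l 4 1 1
  let c4 : CT := .l 5 2 1
  let c5 : CT := .l 1 0 (-2)
  let c6 : CT := .l 2 1 0
  let c7 : CT := .l 4 2 1
  let c8 : CT := .l 3 1 1
  let c9 : CT := .l 5 1 2
  let c10 : CT := .l 2 0 1
  let c11 : CT := .l 2 1 1
  let c12 : CT := .l 1 0 (-1)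
  let c13 : CT := .l 5 3 1
  let c14 : CT := .l 6 4 1
  let c15 : CT := .l 3 2 1
  let c16 : CT := .l 4 3 1
  let c17 : CT := .l 1 1 1
  let c18 : CT := .l 5 4 2
  let c19 : CT := .l 2 2 1
  .x (.y (.x c0 (.y (.x c0 c1) (.x (.y (.x c0 (.y c0 c2)) (.x (.y c0 c3) (.y c4 c3))) (.y (.x
  (.y (.x c4 c5) c4) (.y c6 c2)) (.x c4 c7))))) (.x (.y (.x c0 (.y c0 (.x c0 c8))) (.x c0 (.y
  (.x c0 c9) c10))) (.y (.x (.y c8 c8) (.y (.x (.y c7 c8) c11) (.x c8 c11))) (.x (.y (.x c12 c8)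
  (.x c10 c11)) c11)))) (.y (.x (.y c1 (.x (.y (.x c6 (.y c6 c13)) (.x c6 c13)) (.y (.x (.y c1
  c14) c1) (.x c15 c16)))) (.y c1 (.x (.y c1 (.x (.y c1 c16) c1)) c1))) (.x (.y (.x (.y (.x c7
  (.y (.x c16 c16) c15)) c15) (.y (.x c15 (.y c16 c15)) c15)) (.x (.y (.x c11 (.y (.x c11 c15)
  c11)) c11) (.y (.x c15 c15) c11))) (.y (.x (.y (.x c16 c17) (.x (.y c15 c15) c17)) (.y c1 (.x
  c17 c1))) (.x (.y (.x c18 c17) (.x c11 c17)) c19))))

theorem ok237 : okF 1 15 (-3) t237 = true := by decide +kernel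

theorem all237 : AllA 237 := allA (D := 237) (thm_of_ok ok237)
  (l :=
    [(-1, 0, -7, -1), (2, 1, -1, 0)])
  (by decide +kernel)

/-- a cover for the form `(2, 13, -9)` of discriminant `241` -/
def t241 : CT :=
  let c0 : CT := .l 1 0 0
  let c1 : CT := .l 1 1 0
  let c2 : CT := .l 6 2 1
  let c3 : CT := .l 4 2 1
  let c4 : CT := .l 1 1 1
  let c5 : CT := .l 1 (-1) (-2)
  let c6 : CT := .l 1 2 0
  let c7 : CT := .l 12 8 3
  let c8 : CT := .l 9 7 2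
  let c9 : CT := .l 5 5 1
  let c10 : CT := .l 2 (-2) 1
  let c11 : CT := .l 1 5 7
  let c12 : CT := .l 17 11 2
  let c13 : CT := .l 2 (-2) (-5)
  let c14 : CT := .l 1 0 (-1)
  let c15 : CT := .l 2 2 1
  let c16 : CT := .l 1 (-4) (-6)
  let c17 : CT := .l 1 (-19) 3
  let c18 : CT := .l 8 (-2) 3
  let c19 : CT := .l 2 12 (-1)
  let c20 : CT := .l 14 0 5
  let c21 : CT := .l 8 0 3
  let c22 : CT := .l 1 4 6
  let c23 : CT := .l 9 4 3
  let c24 : CT := .l 1 (-33) 5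
  let c25 : CT := .l 3 8 0
  let c26 : CT := .l 3 5 7
  let c27 : CT := .l 14 6 5
  let c28 : CT := .l 2 (-16) 3
  let c29 : CT := .l 5 2 2
  let c30 : CT := .l 3 2 1
  let c31 : CT := .l 1 3 0
  let c32 : CT := .l 2 0 1
  let c33 : CT := .l 5 0 2
  let c34 : CT := .l 12 10 5
  let c35 : CT := .l 1 68 (-9)
  let c36 : CT := .l 1 (-32) (-51)
  let c37 : CT := .l 4 14 21
  let c38 : CT := .l 1 33 52
  let c39 : CT := .l 7 7 9
  let c40 : CT := .l 3 (-10) 3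
  let c41 : CT := .l 3 (-7) (-12)
  let c42 : CT := .l 8 6 7
  let c43 : CT := .l 2 (-28) 5
  let c44 : CT := .l 18 8 7
  let c45 : CT := .l 5 5 2
  let c46 : CT := .l 6 2 3
  let c47 : CT := .l 1 4 0
  let c48 : CT := .l 4 4 1
  let c49 : CT := .l 13 13 4
  let c50 : CT := .l 4 6 1
  let c51 : CT := .l 1 (-3) (-6)
  let c52 : CT := .l 5 3 3
  let c53 : CT := .l 4 8 1
  let c54 : CT := .l 8 8 3
  let c55 : CT := .l 1 (-2) (-4)
  .y (.x (.y (.x c0 (.y c0 c1)) (.x c0 (.y (.x c0 (.y c1 (.x (.y c1 (.x c2 (.y c1 c3))) c4)))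
  (.x c0 (.y (.x (.y (.x c5 c3) c6) c6) c6))))) (.y c1 (.x (.y (.x (.y c1 (.x (.y c1 c6) c6))
  c1) (.x (.y c6 c3) (.y c6 (.x (.y c3 (.x c3 c7)) (.y (.x c3 c8) (.x (.y (.x c3 c9) c7) (.y c9
  (.x (.y c9 (.x (.y c7 (.x c7 (.y c7 (.x c7 c10)))) (.y (.x c7 c11) (.x (.y (.x c7 c12) c10)
  c13)))) (.y (.x c11 c14) (.x c11 c14)))))))))) (.y c6 (.x (.y (.x (.y c6 c6) c1) (.x c14 c15))
  c1))))) (.x (.y (.x (.y c0 (.x (.y (.x (.y c0 (.x (.y (.x (.y c0 (.x (.y (.x c16 c0) c17)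
  c17)) c0) (.x (.y (.x c16 c18) (.x c16 (.y c19 c20))) c0)) c0)) c0) (.x (.y (.x (.y (.x c20
  c10) c20) c10) c21) c0)) c0)) (.y (.x (.y c0 c0) (.y c3 (.x (.y (.x (.y c3 (.x (.y c3 (.x c0
  (.y c3 c10))) c22)) c3) (.x c10 (.y c10 c23))) (.y c3 (.x c5 c3))))) (.x c0 (.y (.x (.y (.x
  (.y (.x (.y c10 (.x c0 (.y (.x c0 c24) c25))) (.y (.x (.y c10 (.x c26 (.y c10 c24))) c27) (.x
  c25 c27))) (.x (.y (.x c0 (.y c25 (.x c0 c28))) (.x c0 (.y (.x c0 (.y c28 c23)) c29))) (.y (.x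
  (.y (.x (.y c25 (.x c21 c28)) c26) (.x c28 c23)) c23) c23))) c23) (.x (.y (.x c29 c23) c23)
  c23)) (.y (.x c23 (.y (.x c23 c4) c23)) (.x c23 c30))) c31)))) (.x (.y (.x (.y (.x c32 (.y c33
  c31)) c32) c0) c32) (.y (.x c0 (.y c29 (.x c29 c32))) (.x c0 (.y (.x c32 (.y c32 (.x c32 (.y
  c32 (.x (.y c32 (.x c29 (.y (.x c32 (.y c32 c34)) (.x (.y (.x c32 (.y c34 (.x c32 (.y c32 (.x
  (.y c32 c35) c35))))) (.x (.y (.x c32 c36) c35) c35)) (.y (.x (.y (.x c32 c37) (.x c38 c37))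
  c39) c35))))) (.y (.x c32 (.y c32 (.x c40 c22))) (.x (.y (.x (.y c40 (.x (.y c34 (.x c41 c41))
  c26)) (.y (.x c34 c42) (.x c26 c42))) (.x (.y (.x (.y c41 c35) c35) c43) c26)) (.y (.x (.y (.x
  c44 c27) c35) (.y c22 c27)) c45)))))))) (.x (.y (.x c32 (.y c32 c46)) c46) (.y (.x c29 (.y (.x
  (.y c46 c46) c46) c46)) c47))))))) (.y (.x (.y (.x (.y (.x c4 c30) c4) (.y (.x c30 (.y (.x (.y
  (.x c30 (.y (.x c30 (.y c7 c30)) c30)) c30) (.y c10 (.x c30 (.y c10 c30)))) c30)) c30)) (.x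
  (.y c30 c30) c30)) (.y (.x (.y (.x (.y c14 (.x (.y (.x c30 c14) c30) c14)) c15) c30) (.y c48
  (.x c31 (.y c48 (.x c31 c48))))) (.x (.y (.x c30 c15) (.x c30 (.y c15 c15))) (.y (.x c15 (.y
  (.x c45 (.y c49 (.x c50 (.y c50 c51)))) (.x c45 (.y (.x c45 (.y (.x c45 c51) (.x c45 c51)))
  c45)))) c15)))) (.x (.y (.x (.y (.x (.y c30 (.x c5 c4)) c4) c32) (.y c30 (.x c4 c30))) (.x (.y
  (.x (.y (.x c32 c5) (.x (.y (.x c52 (.y (.x c52 (.y c32 c53)) (.x c52 (.y (.x c53 c40) (.x c52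
  c5))))) (.x c52 (.y (.x c52 (.y (.x c52 c45) c52)) c52))) (.y c5 (.x c45 c5)))) c4) (.x (.y
  (.x (.y c46 c47) c47) c47) c4)) c4)) (.y (.x (.y (.x (.y c32 (.x c32 (.y c32 (.x c32 (.y c32
  c54))))) c15) (.x (.y (.x c30 (.y (.x (.y c30 c55) c34) (.x c55 c34))) (.x c30 c45)) c15))
  c15) (.x (.y (.x (.y c47 (.x c47 c15)) c15) c15) c15)))))

theorem ok241 : okF 2 13 (-9) t241 = true := by decide +kernel

theorem all241 : AllA 241 := allA (D := 241) (thm_of_ok ok241)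
  (l :=
    [(21779, 2999, 155307, 21386), (-1, 0, -3, -1), (-67157, 24385, 42379, -15388),
     (12389, -5998, -7818, 3785), (-5, 3, 3, -2), (1070727, 884644, 7635401, 6308435),
     (1513049, -884644, -954800, 558249)])
  (by decide +kernel)

/-- a cover for the form `(2, 12, -13)` of discriminant `248` -/
def t248 : CT :=
  let c0 : CT := .l 1 0 0
  let c1 : CT := .l 1 1 0
  let c2 : CT := .l 6 3 1
  let c3 : CT := .l 1 2 0
  let c4 : CT := .l 4 2 1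
  let c5 : CT := .l 4 3 1
  let c6 : CT := .l 3 3 1
  let c7 : CT := .l 4 0 1
  let c8 : CT := .l 3 0 1
  let c9 : CT := .l 3 1 1
  let c10 : CT := .l 3 2 1
  let c11 : CT := .l 2 0 1
  let c12 : CT := .l 5 1 2
  let c13 : CT := .l 2 1 1
  let c14 : CT := .l 4 4 1
  let c15 : CT := .l 2 2 1
  let c16 : CT := .l 7 5 3
  let c17 : CT := .l 5 4 2
  .y (.x (.y (.x c0 (.y c0 c1)) (.x c0 (.y (.x c0 (.y c1 (.x c0 c2))) (.x c0 (.y (.x c0 c3)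
  c3))))) (.y c1 (.x (.y (.x (.y c1 (.x c2 (.y c1 c3))) (.y c1 c3)) (.x (.y c3 c4) (.y c3 (.x
  (.y c4 c5) c5)))) (.y c1 (.x (.y (.x c3 (.y c3 (.x c3 c1))) c5) (.y c1 (.x c6 c1))))))) (.x
  (.y (.x (.y (.x (.y (.x c7 c3) c8) c0) (.x c8 (.y (.x c8 c0) c9))) (.y (.x c0 (.y c4 c9)) (.x
  c9 (.y c9 (.x c9 c10))))) (.x (.y (.x (.y c8 c11) (.y c12 (.x (.y c12 c11) c12))) c11) (.y (.x
  (.y c0 (.x (.y c0 c11) c0)) c0) (.x (.y c11 c13) c13)))) (.y (.x (.y (.x (.y (.x c4 c10) (.x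
  c9 c10)) (.y c5 c10)) (.x (.y c10 c10) c10)) (.y (.x (.y (.x c5 (.y c5 c14)) (.x c10 c10)) (.y
  c14 c6)) (.x (.y (.x c10 c15) c6) c6))) (.x (.y (.x (.y (.x (.y c10 c13) (.y c10 (.x c6 c11)))
  c13) (.y (.x c10 c10) (.x (.y c11 c13) c16))) c13) (.y (.x (.y c17 (.x c17 c17)) c15) (.x (.y
  c13 c15) c15)))))

theorem ok248 : okF 2 12 (-13) t248 = true := by decide +kernel

theorem all248 : AllA 248 := allA (D := 248) (thm_of_ok ok248)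
  (l :=
    [(8, -1, -7, 1), (-1, 0, -3, -1)])
  (by decide +kernel)

/-- a cover for the form `(2, 15, -3)` of discriminant `249` -/
def t249 : CT :=
  let c0 : CT := .l 1 0 0
  let c1 : CT := .l 1 1 0
  let c2 : CT := .l 6 2 1
  let c3 : CT := .l 1 2 0
  let c4 : CT := .l 3 1 1
  let c5 : CT := .l 1 0 (-2)
  let c6 : CT := .l 4 2 1
  let c7 : CT := .l 7 1 3
  let c8 : CT := .l 2 0 1
  let c9 : CT := .l 3 2 1
  let c10 : CT := .l 1 0 (-1)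
  let c11 : CT := .l 6 2 3
  let c12 : CT := .l 5 2 2
  let c13 : CT := .l 1 (-4) 1
  let c14 : CT := .l 4 2 3
  let c15 : CT := .l 1 4 0
  let c16 : CT := .l 1 (-1) (-7)
  let c17 : CT := .l 3 2 0
  let c18 : CT := .l 5 4 1
  let c19 : CT := .l 1 (-5) 1
  let c20 : CT := .l 2 2 3
  let c21 : CT := .l 8 4 3
  let c22 : CT := .l 5 3 2
  let c23 : CT := .l 3 2 3
  let c24 : CT := .l 1 1 3
  let c25 : CT := .l 1 2 8
  let c26 : CT := .l 5 3 3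
  let c27 : CT := .l 6 4 3
  let c28 : CT := .l 1 12 (-1)
  let c29 : CT := .l 1 (-11) 2
  let c30 : CT := .l 7 5 2
  let c31 : CT := .l 1 1 1
  let c32 : CT := .l 2 0 (-7)
  let c33 : CT := .l 1 4 17
  let c34 : CT := .l 2 16 (-1)
  let c35 : CT := .l 3 5 1
  let c36 : CT := .l 7 7 3
  let c37 : CT := .l 2 2 1
  .x (.y (.x c0 (.y (.x c0 c1) (.x (.y (.x c0 (.y c1 c2)) (.x (.y (.x c0 c3) c3) (.y c3 (.x c3
  c4)))) (.y (.x (.y c1 (.x (.y c2 (.x c2 c3)) c5)) (.y c1 (.x (.y c1 c3) c6))) (.x (.y c3 (.x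
  (.y c3 c6) c6)) c6))))) (.x (.y (.x c0 (.y (.x c0 (.y c0 (.x c0 c4))) (.x c0 c4))) (.x c0 (.y
  (.x c0 (.y (.x c0 (.y c4 (.x (.y c4 (.x c0 c4)) c4))) (.x c0 (.y c7 c8)))) c8))) (.y (.x (.y
  c4 c4) (.y (.x (.y c6 c4) (.y c6 c4)) (.x c4 (.y c4 c9)))) (.x (.y (.x (.y c4 c10) c4) (.x c8
  (.y c8 c11))) (.y (.x c12 (.y c12 (.x (.y c12 c8) (.y c13 c8)))) (.x (.y c8 (.x c11 c12)) (.y
  (.x c8 c5) (.x (.y (.x c14 (.y c15 c11)) (.x c14 (.y c11 (.x c14 c16)))) c5)))))))) (.y (.x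
  (.y c1 (.x (.y (.x (.y c1 c3) c1) (.x (.y c3 c6) (.y c3 c6))) (.y c1 (.x (.y (.x c9 c9) c9)
  (.y c1 (.x c17 (.y c1 (.x c17 (.y c18 (.x c17 (.y c18 c19))))))))))) (.y c1 (.x (.y c3 (.x (.y
  c18 (.x (.y c18 (.x c20 c18)) c18)) c1)) c1))) (.x (.y (.x (.y (.x c6 (.y (.x c6 c9) c9)) (.x
  (.y c9 c9) c9)) (.y (.x c9 (.y (.x c9 (.y (.x c19 (.y c19 c9)) c9)) c9)) c9)) (.x (.y (.x (.y
  (.x c21 c22) c8) c22) (.x (.y (.x c15 (.y c15 (.x c6 (.y c15 (.x c6 c23))))) (.x c24 (.y (.x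
  c6 (.y c11 (.x c6 c23))) (.x (.y c6 (.x c25 c6)) (.y (.x c6 c23) c6))))) (.y (.x (.y c22 (.x
  c26 c22)) c22) (.x (.y (.x c26 c26) c26) (.y c22 c27))))) (.y (.x c9 (.y c9 (.x c9 (.y c9
  c15)))) (.x (.y (.x (.y c15 c27) c9) c27) (.y (.x c9 (.y (.x c9 (.y (.x c9 c17) (.x c9 c17)))
  (.x c9 (.y (.x c9 c17) (.x c9 (.y c17 (.x (.y c28 (.x (.y c28 (.x (.y c28 c27) c17)) c17))
  c17))))))) (.x c27 (.y (.x c27 (.y (.x c27 c29) c27)) c27))))))) (.y (.x (.y (.x (.y (.x (.y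
  (.x c20 (.y c19 (.x c30 c18))) c30) c31) c9) c31) (.x (.y c9 (.x c9 c31)) c31)) (.y c1 (.x c31
  c1))) (.x (.y (.x (.y (.x (.y c13 c8) c31) (.x c15 (.y c31 c31))) c31) (.x (.y (.x (.y (.x c17
  (.y (.x (.y (.x c32 c33) c11) (.y (.x (.y c34 c11) (.y c34 c11)) c11)) c35)) (.x c17 (.y (.x
  (.y c35 c28) c36) c37))) (.y c31 c37)) c37) c37)) c37))))

theorem ok249 : okF 2 15 (-3) t249 = true := by decide +kernel

theorem all249 : AllA 249 := allA (D := 249) (thm_of_ok ok249)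
  (l :=
    [(-495, 59, -3809, 454), (21, -5, -4, 1), (2, 1, -1, 0), (-7, 3, -54, 23),
     (-77, 41, 15, -8), (-1421, 908, 277, -177), (395, 513, -77, -100)])
  (by decide +kernel)

/-- a cover for the form `(3, 11, -11)` of discriminant `253` -/
def t253 : CT :=
  let c0 : CT := .l 1 0 0
  let c1 : CT := .l 2 1 0
  let c2 : CT := .l 1 1 0
  let c3 : CT := .l 1 1 1
  let c4 : CT := .l 4 2 1
  let c5 : CT := .l 4 0 1
  let c6 : CT := .l 3 0 1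
  let c7 : CT := .l 2 0 1
  let c8 : CT := .l 5 1 2
  let c9 : CT := .l 4 1 2
  let c10 : CT := .l 2 1 1
  let c11 : CT := .l 3 2 1
  let c12 : CT := .l 5 3 1
  let c13 : CT := .l 4 3 1
  let c14 : CT := .l 1 2 0
  let c15 : CT := .l 5 3 2
  let c16 : CT := .l 2 2 1
  let c17 : CT := .l 3 3 1
  let c18 : CT := .l 4 3 2
  .x (.y (.x c0 (.y (.x c0 (.y c1 c2)) (.x c0 (.y c2 (.x (.y c2 c3) c4))))) (.x (.y (.x (.y (.x
  c5 c0) c6) (.y c0 (.x c0 c0))) (.x (.y (.x (.y c6 c7) (.y c6 c7)) c7) (.y (.x (.y c8 c8) c8)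
  c7))) (.y (.x c0 (.y (.x c3 (.y c4 c3)) (.x (.y c3 c0) c3))) (.x (.y c0 (.x (.y c7 c9) c0))
  c10)))) (.y (.x (.y c2 (.x (.y c2 (.x (.y (.x (.y c2 c4) c11) c4) (.y c12 c11))) (.y c2 (.x
  (.y c1 (.x c12 c1)) c13)))) (.y c2 (.x (.y c2 (.x (.y c2 c13) (.y c2 c13))) (.y c2 (.x c2
  c2))))) (.x (.y (.x (.y (.x c4 c11) (.x (.y c14 c11) c11)) (.y (.x c11 c14) c11)) (.x (.y (.x
  c3 c15) c10) (.y (.x (.y c15 c10) c11) c10))) (.y (.x (.y (.x c14 (.y c14 c11)) (.x (.y c11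
  (.x c11 c1)) c16)) (.y (.x (.y c14 c17) c17) c17)) (.x (.y (.x (.y (.x c17 c17) c10) c16) (.x
  (.y c10 c18) c16)) c16))))

theorem ok253 : okF 3 11 (-11) t253 = true := by decide +kernel

theorem all253 : AllA 253 := allA (D := 253) (thm_of_ok ok253)
  (l :=
    [(15, 2, 67, 9), (3, -1, -2, 1), (1, -1, 5, -4)])
  (by decide +kernel)

end Pool.Agent.Mukai
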