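import Pool.Agent.Work.MP_1e087a_ag.R4.Table

/-!
# Covers for the discriminants from 265 to 332
-/

namespace Pool.Agent.Mukai

/-- a cover for the form `(5, 15, -2)` of discriminant `265` -/
def t265 : CT :=
  let c0 : CT := .l 1 0 0
  let c1 : CT := .l 1 1 0
  let c2 : CT := .l 1 0 (-1)
  let c3 : CT := .l 4 1 2
  let c4 : CT := .l 12 3 4
  let c5 : CT := .l 2 1 0
  let c6 : CT := .l 3 1 0
  let c7 : CT := .l 1 0 (-2)
  let c8 : CT := .l 7 2 1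
  let c9 : CT := .l 7 2 3
  let c10 : CT := .l 19 5 7
  let c11 : CT := .l 1 (-5) 2
  let c12 : CT := .l 4 (-1) 2
  let c13 : CT := .l 7 3 2
  let c14 : CT := .l 9 3 2
  let c15 : CT := .l 1 17 (-5)
  let c16 : CT := .l 1 (-8) 3
  let c17 : CT := .l 7 2 0
  let c18 : CT := .l 19 8 6
  let c19 : CT := .l 6 1 (-6)
  let c20 : CT := .l 13 5 9
  let c21 : CT := .l 3 0 (-7)
  let c22 : CT := .l 3 2 9
  let c23 : CT := .l 13 3 5
  let c24 : CT := .l 3 (-5) 3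
  let c25 : CT := .l 2 3 0
  let c26 : CT := .l 13 6 4
  let c27 : CT := .l 1 (-7) (-57)
  let c28 : CT := .l 4 (-13) 6
  let c29 : CT := .l 1 4 29
  let c30 : CT := .l 8 (-1) 4
  let c31 : CT := .l 1 15 115
  let c32 : CT := .l 4 1 (-2)
  let c33 : CT := .l 8 3 4
  let c34 : CT := .l 14 5 6
  let c35 : CT := .l 6 3 2
  let c36 : CT := .l 1 1 5
  let c37 : CT := .l 2 1 2
  let c38 : CT := .l 9 4 3
  let c39 : CT := .l 7 3 3
  let c40 : CT := .l 12 5 6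
  let c41 : CT := .l 6 3 4
  let c42 : CT := .l 1 5 (-1)
  let c43 : CT := .l 11 5 5
  let c44 : CT := .l 1 2 0
  let c45 : CT := .l 3 0 (-13)
  let c46 : CT := .l 9 5 0
  let c47 : CT := .l 13 8 4
  let c48 : CT := .l 9 5 3
  let c49 : CT := .l 3 5 0
  let c50 : CT := .l 3 2 3
  let c51 : CT := .l 1 (-14) 5
  let c52 : CT := .l 8 7 2
  let c53 : CT := .l 8 5 4
  let c54 : CT := .l 7 5 9
  let c55 : CT := .l 4 13 (-2)
  let c56 : CT := .l 8 1 4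
  let c57 : CT := .l 9 9 2
  let c58 : CT := .l 3 27 (-7)
  let c59 : CT := .l 14 9 10
  let c60 : CT := .l 13 (-6) 9
  let c61 : CT := .l 6 29 (-6)
  let c62 : CT := .l 3 6 34
  let c63 : CT := .l 1 (-358) 115
  let c64 : CT := .l 1 (-89) 29
  let c65 : CT := .l 1 180 (-57)
  let c66 : CT := .l 7 12 0
  let c67 : CT := .l 3 (-23) 9
  let c68 : CT := .l 1 33 (-10)
  let c69 : CT := .l 1 8 (-2)
  let c70 : CT := .l 13 8 5
  let c71 : CT := .l 1 (-1) 1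
  let c72 : CT := .l 1 1 3
  let c73 : CT := .l 1 0 (-5)
  let c74 : CT := .l 7 5 2
  let c75 : CT := .l 19 12 6
  let c76 : CT := .l 19 12 7
  let c77 : CT := .l 3 2 0
  let c78 : CT := .l 12 9 4
  let c79 : CT := .l 4 3 2
  let c80 : CT := .l 1 1 2
  let c81 : CT := .l 1 1 1
  .x (.x (.y (.x c0 (.y c0 (.x c0 (.y c0 c1)))) (.x c0 (.y (.x c0 (.y c1 (.x (.y (.x c2 (.y (.x
  c2 c3) (.x c2 c3))) (.x c2 (.y (.x c2 c3) (.x c2 c3)))) (.y (.x c3 c4) c3)))) (.x (.y (.x c0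
  c2) (.x c0 c2)) (.y (.x c2 c3) (.x c2 c3)))))) (.y (.x (.y (.x (.y c0 c5) c6) (.x (.y (.x (.y
  c7 (.x (.y c7 c1) c7)) (.y c8 c8)) c1) (.y (.x (.y c6 c1) c6) c1))) (.y c5 c1)) (.x (.y (.x
  (.y (.x c1 c7) (.x (.y (.x c4 c9) (.x (.y c4 c10) c9)) c7)) (.y (.x (.y c1 (.x (.y c1 (.x c7
  (.y c1 (.x (.y c11 c4) c4)))) (.y c1 (.x (.y c11 (.x (.y c4 c12) c13)) (.y c14 c13))))) (.y c1
  (.x (.y c11 (.x c14 c13)) c6))) (.x (.y (.x (.y c13 (.x c7 (.y (.x (.y (.x c7 (.y c13 c7)) c7)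
  (.y c15 c16)) c16))) (.y (.x (.y c13 c13) (.y c13 (.x (.y c13 c15) c14))) (.x (.y (.x (.y c15
  c16) (.y (.x (.y c15 c16) (.y c15 c16)) c16)) (.x c17 (.y c16 (.x (.y c16 (.x c17 (.y c16
  c18))) (.y c16 c18))))) (.y c16 (.x (.y c16 (.x (.y (.x c16 (.y c16 c18)) c18) (.y (.x c19
  c20) c18))) c21))))) (.x (.y (.x c7 (.y (.x c7 (.y (.x (.y (.x c16 c22) c18) c22) (.x c7
  c22))) (.x c7 (.y c23 (.x c7 (.y c22 (.x c7 c22))))))) (.x c7 (.y (.x c7 (.y (.x c7 (.y (.x c7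
  c22) c24)) c25)) c25))) (.y (.x (.y (.x c17 (.y (.x (.y (.x c18 c10) c10) (.y c10 c26)) (.x
  (.y c26 c23) (.y c26 c23)))) (.x (.y c23 (.x c22 c17)) (.y (.x c17 (.y c23 (.x (.y c23 (.x c17
  c27)) (.y c28 (.x c27 c29))))) (.x c17 (.y (.x c27 (.y c29 (.x c27 c29))) c24))))) (.y (.x (.y
  (.x (.y c10 c26) (.y c10 c26)) c23) (.y c26 c23)) (.x (.y (.x c29 (.y (.x c30 c19) (.x (.y (.x
  c29 c31) c29) c19))) (.x c29 (.y (.x c29 c24) c24))) (.y (.x (.y (.x (.y c30 c19) c20) (.x c19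
  c20)) c21) c24)))) (.x (.y (.x (.y c24 c25) (.y (.x c24 (.y c24 c25)) c25)) c25) c25)))) (.y
  (.x (.y (.x c14 (.y c13 c32)) (.x c14 (.y (.x c16 c32) c33))) c6) (.x (.y (.x (.y (.x c34 c14)
  (.x (.y c34 c24) c14)) c33) c25) (.y (.x (.y c6 c25) c6) (.x c25 c6))))))) (.x (.y (.x (.y (.x
  c3 c9) c9) (.y (.x c9 c7) c9)) c3) (.y (.x (.y (.x c7 (.y (.x (.y c25 c35) (.y c25 c35)) (.x
  c9 c9))) (.x c9 (.y c9 (.x c9 c34)))) (.y (.x (.y (.x c35 (.y c35 (.x c35 c33))) (.x c9 c34))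
  (.y (.x (.y c35 c33) c6) c9)) (.x (.y c34 c34) (.y (.x c34 (.y c9 c34)) c34)))) (.x (.y c3 c3)
  (.y c3 (.x c3 c33)))))) (.y (.x (.y (.x (.y c1 c13) c13) (.x (.y (.x c6 (.y c36 (.x (.y c36
  (.x c6 c36)) c36))) (.x c6 (.y c25 c35))) (.y (.x c37 c13) c37))) (.y (.x (.y c13 (.x c13
  c26)) (.y (.x c13 c35) c35)) (.x (.y c38 (.x c38 c35)) c35))) (.x (.y (.x (.y (.x c6 (.y (.x
  c6 c37) (.x c6 c39))) (.x c6 c39)) c39) (.x (.y c3 c33) (.y c39 (.x c40 c39)))) (.y (.x (.y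
  (.x (.y (.x c39 c38) c39) (.y (.x c38 (.y c35 c41)) c39)) c39) (.y (.x (.y (.x (.y c35 (.x c26
  c35)) c35) c39) c35) (.x (.y c39 c3) (.y c39 (.x c3 (.y c3 c42)))))) (.x (.y c43 c44) (.y (.x
  (.y c43 c44) (.y (.x c43 (.y c43 c44)) c44)) c44)))))))) (.x (.y (.x (.y (.x c5 c1) c1) (.y c1
  c1)) (.x (.y (.x (.y c5 (.x c35 c5)) (.y (.x (.y (.x c5 (.y c1 (.x c5 (.y c1 (.x (.y (.x (.y
  (.x c5 (.y c5 (.x c5 (.y c5 c25)))) (.x c5 c25)) (.y (.x (.y c1 (.x (.y c45 c25) c45)) c45)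
  c25)) c25) (.y (.x c46 c25) c25)))))) (.x c5 (.y c25 c35))) (.y (.x (.y c1 (.x (.y c1 c25) (.y
  c1 c25))) (.y c1 (.x c47 c25))) (.x (.y c25 c47) c47))) (.x (.y (.x c5 (.y c48 (.x c48 (.y c48
  (.x c48 (.y c48 c49)))))) (.x c5 (.y (.x c5 (.y (.x c50 (.y c49 c50)) c50)) c50))) (.y (.x (.y
  c48 (.x (.y (.x c48 (.y c48 c51)) (.x (.y (.x c48 c52) c49) c49)) (.y (.x c53 c47) c53))) (.y
  c47 (.x c47 c47))) (.x (.y (.x (.y (.x (.y c49 (.x (.y (.x c54 c55) c54) (.y c56 c57))) (.y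
  (.x (.y c49 c45) c53) (.x (.y c56 c57) c46))) (.x (.y (.x (.y c54 (.x (.y c58 c50) c54)) (.y
  (.x (.y c57 (.x c54 c59)) (.y c57 c58)) (.x (.y (.x c54 c59) (.x c54 c59)) (.y (.x c59 (.y c60
  c61)) c59)))) (.x (.y (.x c50 c54) (.x c50 c54)) (.y (.x (.y (.x c54 c62) c54) c59) (.x c54
  c59)))) (.y (.x (.y (.x (.y c34 (.x c58 c45)) c46) (.x (.y (.x (.y (.x (.y c60 (.x (.y c60
  c61) c61)) (.y c60 c61)) (.x c61 (.y c61 c63))) c45) (.x c64 c64)) c45)) c46) (.x (.y (.x (.y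
  (.x (.y (.x (.y c64 c65) c65) c66) (.y (.x c65 c45) c66)) c66) c45) (.x (.y (.x c67 c68) c68)
  c68)) c46)))) c53) (.x (.y (.x (.y (.x (.y c68 c50) c69) c69) c69) (.x (.y c69 c39) c70))
  c70)) (.y (.x c70 c47) c70)))))) (.x (.y (.x (.y (.x c35 c5) (.x c35 (.y c3 c42))) c5) (.x (.y
  (.x (.y (.x (.y c43 c44) c44) c44) c44) c44) c44)) (.y (.x (.y (.x c5 (.y c50 (.x c5 c50)))
  (.x c5 (.y c42 c44))) (.y (.x (.y c70 (.x c70 c70)) c70) c44)) (.x (.y c44 c71) (.y c44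
  c71))))) (.y (.x (.y (.x (.y (.x (.y c1 c25) c72) (.x (.y c35 c47) c72)) (.y (.x (.y c1 c72)
  (.y c25 (.x c73 c1))) (.x c72 c74))) (.x (.y (.x (.y c75 (.x (.y c75 (.x c47 c75)) (.y c75 (.x
  c75 c75)))) c72) (.x (.y (.x c76 (.y (.x c75 (.y c75 c69)) c76)) c76) (.y c72 (.x (.y c76 c70)
  c72)))) (.y (.x c72 c73) (.x c72 (.y (.x c72 c73) (.x c72 c73)))))) (.y (.x c74 (.y c74 c74))
  (.x (.y (.x (.y c74 (.x (.y (.x c73 c74) (.x c73 c69)) c77)) c77) (.x (.y (.x (.y (.x c73 (.y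
  c77 c73)) c73) c77) (.x c73 (.y c77 c42))) c77)) (.y (.x c74 c78) c79)))) (.x (.y (.x (.y (.x
  (.y c70 c42) (.y (.x (.y c70 c42) c72) c44)) c44) c72) (.x (.y c44 c71) (.y c72 c72))) (.y c44
  (.x (.y c71 c79) c79)))))) (.y c1 (.x (.y (.x (.y (.x c80 c1) (.x (.y (.x c78 c80) (.x (.y c78
  c44) c80)) c80)) (.y c1 (.x (.y (.x (.y c1 c44) c1) c44) c81))) (.x (.y (.x c44 c80) c79) (.y
  (.x (.y c44 c71) c81) (.x (.y c79 c80) c81)))) (.y c1 c81))))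

theorem ok265 : okF 5 15 (-2) t265 = true := by decide +kernel

theorem all265 : AllB 265 := allB (D := 265) (thm_of_ok ok265)
  (l :=
    [(-1822, -477, -5699, -1492), (219, 86, 685, 269), (-1, 0, -1, -1), (47, -39, -6, 5)])
  (l' :=
    [(1, 0), (-5, -3), (-14, -11), (-1, -1)])
  (by decide +kernel)

/-- a cover for the form `(2, 14, -9)` of discriminant `268` -/
def t268 : CT :=
  let c0 : CT := .l 1 0 0
  let c1 : CT := .l 1 1 0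
  let c2 : CT := .l 2 0 (-1)
  let c3 : CT := .l 1 2 0
  let c4 : CT := .l 4 1 1
  let c5 : CT := .l 4 2 1
  let c6 : CT := .l 1 1 1
  let c7 : CT := .l 5 3 1
  let c8 : CT := .l 1 0 (-1)
  let c9 : CT := .l 4 3 1
  let c10 : CT := .l 5 4 1
  let c11 : CT := .l 1 1 2
  let c12 : CT := .l 4 0 1
  let c13 : CT := .l 2 1 1
  let c14 : CT := .l 3 1 1
  let c15 : CT := .l 1 3 0
  let c16 : CT := .l 2 0 1
  let c17 : CT := .l 9 5 3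
  let c18 : CT := .l 8 4 3
  let c19 : CT := .l 10 7 3
  let c20 : CT := .l 1 (-12) 2
  let c21 : CT := .l 1 26 (-3)
  let c22 : CT := .l 2 (-1) 1
  let c23 : CT := .l 1 11 (-1)
  let c24 : CT := .l 20 15 7
  let c25 : CT := .l 17 13 6
  let c26 : CT := .l 10 12 3
  let c27 : CT := .l 4 5 5
  let c28 : CT := .l 2 4 5
  let c29 : CT := .l 2 (-31) 5
  let c30 : CT := .l 4 (-24) 5
  let c31 : CT := .l 1 (-4) 1
  let c32 : CT := .l 2 2 1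
  let c33 : CT := .l 7 6 2
  let c34 : CT := .l 4 4 1
  let c35 : CT := .l 7 7 2
  let c36 : CT := .l 13 10 5
  let c37 : CT := .l 1 2 2
  let c38 : CT := .l 1 (-1) (-3)
  let c39 : CT := .l 5 3 2
  let c40 : CT := .l 8 7 3
  let c41 : CT := .l 3 4 1
  let c42 : CT := .l 1 4 0
  .y (.x (.y (.x c0 (.y c0 c1)) (.x c0 (.y (.x c0 (.y c1 (.x (.y c1 (.x (.y (.x c0 c2) c3) c3))
  (.y c1 c3)))) (.x (.y (.x c0 c3) c4) (.y c3 (.x (.y c4 c5) c5)))))) (.y c1 (.x (.y (.x (.y c1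
  (.x c6 c3)) (.y c1 c3)) (.x (.y c3 c5) (.y (.x c7 c8) (.x (.y c5 c9) c9)))) (.y c1 (.x (.y c10
  c9) c1))))) (.x (.y (.x (.y c0 (.x (.y (.x (.y c0 (.x c11 c0)) c0) (.x (.y (.x c11 c12) c11)
  c0)) c0)) (.y (.x (.y (.x c4 c13) c14) (.y c5 c14)) (.x c14 (.y c14 c13)))) (.x (.y (.x (.y
  (.x c15 (.y c15 (.x c16 c0))) c16) c0) c16) (.y (.x (.y (.x c0 c14) c0) c13) (.x c0 c13))))
  (.y (.x (.y (.x (.y c6 (.x c14 c14)) (.y c9 (.x (.y c14 c15) c15))) (.x (.y (.x c15 c6) (.x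
  (.y (.x (.y c17 c18) c6) c18) c6)) (.y (.x (.y c15 c6) (.y (.x (.y c15 (.x c15 c19)) (.y c15
  (.x c19 (.y c20 (.x (.y c20 c21) c8))))) (.x (.y (.x (.y (.x c20 (.y c20 c22)) c22) (.y c19
  c22)) c22) c22))) (.x c6 (.y (.x (.y c22 (.x c7 c23)) (.y (.x c19 c24) (.x (.y c24 c25) c25)))
  (.x (.y (.x c7 (.y (.x c25 (.y c25 c6)) c6)) c6) (.y (.x (.y (.x (.y c25 (.x (.y c25 c26)
  c27)) c28) (.x (.y (.x (.y c29 (.x c6 (.y (.x (.y (.x c29 c27) c30) c30) (.x c30 c27)))) c27)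
  (.x (.y (.x c6 (.y (.x c6 c27) c31)) c31) c31)) (.y (.x (.y (.x c27 c28) (.x c27 c28)) c28)
  c31))) (.y (.x c19 c25) (.x c19 c31))) c31))))))) (.y (.x (.y (.x c9 c32) (.x c15 (.y c32 (.x
  c33 c33)))) (.y c34 (.x c32 (.y c34 (.x (.y c35 c22) c35))))) (.x (.y (.x (.y c9 (.x (.y c22
  (.x c25 c9)) c9)) (.y (.x (.y (.x c9 c32) c22) c32) (.x (.y (.x c22 c32) (.x c23 c32)) c32)))
  (.x (.y (.x c25 c9) (.x (.y (.x c36 c25) c31) c31)) (.y (.x (.y (.x c9 c32) c9) c32) (.x c9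
  c32)))) (.y (.x c32 (.y (.x c32 (.y c37 (.x c38 c37))) (.x c32 (.y (.x c38 c37) c32))))
  c32)))) (.x (.y (.x (.y (.x c13 c6) c13) (.y (.x c6 (.y c39 c16)) c6)) c13) (.y (.x (.y (.x
  (.y (.x c36 c8) c16) (.y c40 c41)) (.x (.y (.x (.y c41 c13) c42) c42) c32)) c32) (.x (.y c13
  c32) c32)))))

theorem ok268 : okF 2 14 (-9) t268 = true := by decide +kernel

theorem all268 : AllA 268 := allA (D := 268) (thm_of_ok ok268)
  (l :=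
    [(221, 27, -131, -16), (-1, 0, -3, -1), (-12, -5, -91, -38), (-3, 2, -23, 15),
     (-1, -1, -7, -8)])
  (by decide +kernel)

/-- a cover for the form `(5, 13, -5)` of discriminant `269` -/
def t269 : CT :=
  let c0 : CT := .l 1 0 0
  let c1 : CT := .l 2 0 1
  let c2 : CT := .l 2 1 0
  let c3 : CT := .l 7 2 1
  let c4 : CT := .l 1 1 0
  let c5 : CT := .l 6 2 1
  let c6 : CT := .l 3 1 1
  let c7 : CT := .l 4 1 2
  let c8 : CT := .l 2 1 1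
  let c9 : CT := .l 4 2 1
  let c10 : CT := .l 3 2 1
  let c11 : CT := .l 4 3 2
  let c12 : CT := .l 1 1 1
  let c13 : CT := .l 7 6 2
  let c14 : CT := .l 6 5 2
  let c15 : CT := .l 2 2 1
  .x (.x (.y c0 (.x (.y c0 c1) (.y c0 c0))) (.y (.x (.y (.x c0 (.y c0 c2)) (.x (.y (.x c0 c3)
  c4) (.y (.x c5 (.y c5 c5)) c4))) (.y c2 c4)) (.x (.y (.x (.y c4 c6) c6) (.x (.y c1 c7) (.y c6
  (.x (.y c7 c7) c8)))) (.y (.x (.y c8 c8) (.y c9 c8)) c8)))) (.x (.y (.x (.y c2 c4) (.y c4 c4))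
  (.x (.y (.x (.y c9 (.x c8 (.y c9 c9))) (.y c2 c10)) c8) (.y (.x c10 (.y c10 c10)) (.x (.y c8
  c8) (.y c10 c11))))) (.y c4 (.x (.y (.x c12 (.y (.x (.y c10 c10) c13) (.x c12 (.y c14 c14))))
  c12) (.y (.x (.y c4 c15) c4) c15))))

theorem ok269 : okF 5 13 (-5) t269 = true := by decide +kernel

theorem all269 : AllA 269 := allA (D := 269) (thm_of_ok ok269)
  (l :=
    [(8, 1, 23, 3), (-1, 0, -1, -1)])
  (by decide +kernel)

/-- a cover for the form `(7, 7, -8)` of discriminant `273` -/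
def t273 : CT :=
  let c0 : CT := .l 1 0 0
  let c1 : CT := .l 3 1 0
  let c2 : CT := .l 2 1 0
  let c3 : CT := .l 1 (-1) 1
  let c4 : CT := .l 5 2 1
  let c5 : CT := .l 1 1 1
  let c6 : CT := .l 3 0 1
  let c7 : CT := .l 2 1 2
  let c8 : CT := .l 1 (-1) (-1)
  let c9 : CT := .l 1 (-3) (-4)
  let c10 : CT := .l 5 1 2
  let c11 : CT := .l 1 1 0
  let c12 : CT := .l 8 3 2
  let c13 : CT := .l 5 2 2
  let c14 : CT := .l 2 (-1) (-2)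
  let c15 : CT := .l 2 (-1) 2
  let c16 : CT := .l 3 2 1
  let c17 : CT := .l 1 8 (-4)
  let c18 : CT := .l 1 3 (-1)
  let c19 : CT := .l 3 2 0
  let c20 : CT := .l 5 3 3
  let c21 : CT := .l 1 (-2) 2
  let c22 : CT := .l 4 3 2
  let c23 : CT := .l 5 4 2
  let c24 : CT := .l 1 4 5
  let c25 : CT := .l 1 2 2
  let c26 : CT := .l 1 0 (-1)
  let c27 : CT := .l 3 3 1
  let c28 : CT := .l 1 0 1
  .x (.y (.x c0 (.y (.x (.y c1 (.x c0 c2)) c2) (.x (.y (.x c0 (.y c2 (.x (.y (.x c2 (.y c2 (.x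
  c2 c3))) (.x c0 c3)) c3))) (.x c0 (.y c3 (.x c0 c4)))) (.y (.x (.y c5 c4) (.y (.x c5 c2) (.x
  c5 c5))) (.x c4 c5))))) (.x (.y (.x (.y c0 (.x c6 c0)) c0) (.x (.y (.x c6 (.y (.x c6 c0) (.x
  c6 (.y (.x c6 (.y c0 c7)) c7)))) (.x (.y (.x (.y (.x c3 c6) (.x c8 (.y (.x c8 c6) c8))) (.y c6
  (.x c6 c6))) (.x c8 (.y (.x (.y (.x c8 c9) (.x c8 c9)) (.y c6 c10)) (.x c8 (.y c10 (.x c10
  c9)))))) (.y (.x c6 (.y (.x c6 c10) c10)) (.x (.y c6 (.x (.y c6 c11) c11)) c6)))) (.y (.x (.y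
  c0 c10) c10) (.x (.y (.x (.y c10 c11) c11) c11) c11)))) (.y (.x (.y (.x c0 (.y (.x c0 c12) (.x
  c0 (.y (.x c0 c11) c11)))) (.x c0 (.y (.x c0 c11) c11))) (.y (.x (.y (.x c12 c11) c11) c11)
  c11)) (.x c0 (.y (.x c13 (.y (.x c13 c11) (.x (.y (.x c13 (.y c13 (.x c13 c14))) (.x c13 c15))
  (.y (.x (.y (.x c11 c15) c15) c16) c16)))) (.x (.y (.x c0 c13) (.x c0 (.y c16 c0))) (.y (.x
  (.y (.x c13 c16) c16) (.y c16 (.x c16 (.y c16 (.x c16 c16))))) (.x (.y c13 (.x (.y c13 (.x c0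
  c13)) c13)) (.y (.x (.y (.x c16 (.y c16 c17)) (.x c17 (.y c17 c18))) (.y (.x (.y c17 (.x c17
  c18)) c18) c18)) c18))))))))) (.y (.x (.y (.x c2 (.y c19 c11)) (.x (.y (.x (.y c2 (.x (.y c2
  c11) c16)) c11) c11) c11)) c11) (.x (.y (.x (.y c11 (.x c11 c16)) (.y c16 c16)) (.x (.y (.x
  (.y (.x (.y c11 c16) c16) c16) c5) (.x (.y (.x (.y c16 (.x c20 (.y (.x (.y c17 c18) c18)
  c18))) (.y c5 c18)) (.x (.y c18 (.x c18 c20)) (.y (.x c18 c5) (.x c21 (.y c21 (.x c21 c5))))))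
  c5)) (.y (.x (.y c16 c5) c16) (.x c5 c22)))) (.y (.x (.y (.x c11 c11) (.x (.y (.x c18 (.y c18
  c21)) (.x c23 c23)) (.y (.x (.y c21 (.x (.y c21 (.x c23 c24)) (.y (.x (.y c21 c24) c25) (.x
  c24 (.y c25 c23))))) c25) (.x c23 c23)))) (.y (.x c11 c11) (.x (.y c26 c27) c27))) (.x (.y (.x
  c23 (.y (.x c23 (.y c23 c27)) (.x c23 c27))) (.x c22 (.y (.x c23 c28) c28))) (.y (.x (.y c27
  (.x c27 c28)) (.y c27 c28)) (.x c28 (.y (.x c28 c26) (.x (.y c28 (.x (.y c28 (.x c28 c25))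
  c25)) (.y c26 c25)))))))))

theorem ok273 : okF 7 7 (-8) t273 = true := by decide +kernel

theorem all273 : AllB 273 := allB (D := 273) (thm_of_ok ok273)
  (l :=
    [(-13, 3, -22, 5), (2, -1, -1, 1), (1, 0, 0, 1)])
  (l' :=
    [(1, 0), (9, 4), (2, 1)])
  (by decide +kernel)

/-- a cover for the form `(7, 5, -9)` of discriminant `277` -/
def t277 : CT :=
  let c0 : CT := .l 1 0 0
  let c1 : CT := .l 3 1 0
  let c2 : CT := .l 2 1 0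
  let c3 : CT := .l 6 2 1
  let c4 : CT := .l 1 1 1
  let c5 : CT := .l 5 2 1
  let c6 : CT := .l 4 2 1
  let c7 : CT := .l 1 (-1) 1
  let c8 : CT := .l 2 0 1
  let c9 : CT := .l 5 1 2
  let c10 : CT := .l 6 1 3
  let c11 : CT := .l 4 1 2
  let c12 : CT := .l 1 1 0
  let c13 : CT := .l 2 1 1
  let c14 : CT := .l 3 2 0
  let c15 : CT := .l 3 2 1
  let c16 : CT := .l 6 4 3
  let c17 : CT := .l 4 3 2
  let c18 : CT := .l 2 2 1
  let c19 : CT := .l 1 3 (-1)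
  let c20 : CT := .l 1 0 1
  let c21 : CT := .l 5 4 2
  .x (.y (.x c0 (.y (.x (.y c1 (.x c0 c2)) c2) (.x (.y (.x c0 (.y c2 c3)) (.x c0 c4)) (.y (.x
  (.y (.x c2 c2) c5) (.y (.x c2 c2) (.x c5 (.y c1 c1)))) (.x c5 c6))))) (.x (.y (.x (.y c0 (.x
  (.y c7 (.x c7 c8)) (.y c0 (.x c8 c8)))) c0) (.x c8 (.y (.x c8 c9) (.x (.y c8 c10) c11)))) (.y
  (.x (.y c0 c0) (.y (.x c4 c6) c12)) (.x (.y c0 (.x c12 c0)) c13)))) (.y (.x (.y (.x c2 (.y c14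
  c12)) (.x (.y (.x (.y c2 (.x (.y c8 (.x c8 c12)) c12)) c12) c12) c12)) c12) (.x (.y (.x (.y
  c12 (.x c12 c15)) (.y c15 c15)) (.x c13 (.y (.x c13 c15) (.x (.y c13 c16) c17)))) (.y (.x (.y
  (.x c12 c12) (.x (.y c13 (.x c15 c2)) (.y c18 c18))) (.y (.x c12 c12) (.x c18 (.y (.x (.y c19
  c18) (.y (.x c19 c12) c20)) c20)))) (.x (.y (.x c21 (.y (.x c21 c18) c20)) (.x c17 c20))
  c18))))

theorem ok277 : okF 7 5 (-9) t277 = true := by decide +kernel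

theorem all277 : AllA 277 := allA (D := 277) (thm_of_ok ok277)
  (l :=
    [(-53, 6, 44, -5), (297, -101, -247, 84), (1, 0, 0, 1)])
  (by decide +kernel)

/-- a cover for the form `(2, 16, -3)` of discriminant `280` -/
def t280 : CT :=
  let c0 : CT := .l 1 0 0
  let c1 : CT := .l 1 1 0
  let c2 : CT := .l 6 2 1
  let c3 : CT := .l 1 2 0
  let c4 : CT := .l 4 1 1
  let c5 : CT := .l 1 0 (-2)
  let c6 : CT := .l 2 1 1
  let c7 : CT := .l 1 0 (-1)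
  let c8 : CT := .l 3 2 1
  let c9 : CT := .l 2 (-1) 1
  let c10 : CT := .l 2 0 1
  let c11 : CT := .l 4 2 1
  let c12 : CT := .l 1 1 4
  let c13 : CT := .l 2 0 (-3)
  let c14 : CT := .l 1 (-1) (-7)
  let c15 : CT := .l 4 3 1
  let c16 : CT := .l 1 3 0
  let c17 : CT := .l 4 1 (-1)
  let c18 : CT := .l 1 (-5) 1
  let c19 : CT := .l 6 2 3
  let c20 : CT := .l 8 3 3
  let c21 : CT := .l 3 1 0
  let c22 : CT := .l 2 1 3
  let c23 : CT := .l 1 1 2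
  let c24 : CT := .l 7 4 2
  let c25 : CT := .l 1 1 1
  let c26 : CT := .l 1 4 0
  let c27 : CT := .l 1 (-4) 1
  let c28 : CT := .l 2 2 1
  .x (.y (.x (.y c0 c0) (.y (.x (.y c0 c0) c1) (.x (.y (.x (.y c1 (.x c0 c2)) (.y c1 c2)) (.x
  (.y c3 c4) (.y c3 c4))) (.y (.x (.y c1 (.x c5 c6)) (.y c1 c3)) (.x (.y c3 (.x c4 c6)) (.y c3
  c6)))))) (.x (.y (.x c0 (.y (.x c0 (.y c4 (.x c0 c4))) (.x c0 (.y (.x c0 c7) (.x c0 c7)))))
  (.x c0 (.y (.x c0 (.y (.x (.y (.x c0 (.y c0 c8)) (.x c0 (.y c8 c9))) c7) (.x (.y c9 c10) (.y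
  c9 c10)))) c10))) (.y (.x (.y (.x (.y c4 c4) (.y (.x (.y c4 c4) c11) (.x (.y (.x c12 (.y c11
  (.x c13 c14))) (.x c12 (.y c15 c16))) (.y (.x (.y c11 (.x c17 c2)) (.y c11 c15)) (.x (.y c15
  c16) (.y c15 c16)))))) (.x (.y (.x c7 c16) (.x c7 (.y c18 (.x c4 (.y (.x (.y c19 c19) c19)
  c8))))) (.y (.x c16 (.y c16 (.x c16 c20))) (.x (.y (.x c18 c12) c8) (.y c20 c20))))) (.y (.x
  (.y c11 (.x c21 c6)) c6) (.x (.y (.x (.y c21 (.x (.y c16 c20) c21)) c6) (.x (.y (.x c20 c21)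
  c20) c8)) c6))) (.x (.y (.x (.y (.x c7 (.y c8 c9)) (.x c7 (.y (.x c7 c22) c10))) (.y (.x (.y
  c20 c9) (.y c20 c9)) (.x (.y (.x c19 c12) c10) (.y (.x (.y (.x c13 c14) c6) c6) c10)))) (.x
  c10 (.y c10 c19))) (.y c6 c6))))) (.y (.x (.y c1 (.x (.y (.x (.y c1 c3) (.y c1 c3)) (.x (.y
  (.x c11 (.y c3 c11)) c11) (.y (.x (.y c3 c11) (.y c3 (.x (.y c4 c11) c8))) c11))) (.y c3 (.x
  (.y (.x c8 c23) c8) (.y c15 c15))))) (.y c1 (.x (.y c1 (.x (.y c1 c15) c1)) c1))) (.x (.y (.x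
  (.y (.x (.y c11 c11) (.y (.x c24 c15) c16)) (.x (.y (.x c11 c8) c8) c8)) (.y (.x c8 (.y c15
  c8)) c8)) (.x (.y (.x c6 (.y (.x c6 c8) c6)) c6) (.y (.x c8 (.y c8 (.x c23 (.y c10 c6))))
  c6))) (.y (.x (.y (.x (.y c16 c15) c25) (.x (.y c8 (.x c15 (.y c8 (.x c15 c25)))) c25)) (.y c1
  (.x c25 c1))) (.x (.y (.x (.y (.x (.y c15 c10) c26) (.x (.y c10 c6) (.y c27 c6))) c25) (.x c6
  c25)) (.y c28 c28)))))

theorem ok280 : okF 2 16 (-3) t280 = true := by decide +kernel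

theorem all280 : AllB 280 := allB (D := 280) (thm_of_ok ok280)
  (l :=
    [(-1, 0, -4, -1), (3, -1, 25, -8), (6, -5, -1, 1)])
  (l' :=
    [(1, 0), (5, 3), (-1, -1)])
  (by decide +kernel)

/-- a cover for the form `(5, 11, -8)` of discriminant `281` -/
def t281 : CT :=
  let c0 : CT := .l 1 0 0
  let c1 : CT := .l 2 1 0
  let c2 : CT := .l 5 2 1
  let c3 : CT := .l 1 1 0
  let c4 : CT := .l 3 0 1
  let c5 : CT := .l 1 1 2
  let c6 : CT := .l 3 1 1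
  let c7 : CT := .l 1 (-7) 3
  let c8 : CT := .l 3 1 3
  let c9 : CT := .l 1 (-2) (-3)
  let c10 : CT := .l 7 1 3
  let c11 : CT := .l 5 4 1
  let c12 : CT := .l 4 (-1) 0
  let c13 : CT := .l 1 (-17) (-29)
  let c14 : CT := .l 5 1 4
  let c15 : CT := .l 8 1 4
  let c16 : CT := .l 4 1 2
  let c17 : CT := .l 6 3 2
  let c18 : CT := .l 2 3 0
  let c19 : CT := .l 1 (-4) 2
  let c20 : CT := .l 3 2 1
  let c21 : CT := .l 5 3 2
  let c22 : CT := .l 1 (-1) 1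
  let c23 : CT := .l 1 (-12) 5
  let c24 : CT := .l 1 1 1
  let c25 : CT := .l 1 13 (-4)
  let c26 : CT := .l 1 2 0
  let c27 : CT := .l 1 2 3
  let c28 : CT := .l 8 5 4
  let c29 : CT := .l 3 2 2
  let c30 : CT := .l 7 5 3
  let c31 : CT := .l 6 5 2
  let c32 : CT := .l 1 (-1) (-3)
  let c33 : CT := .l 3 3 1
  let c34 : CT := .l 5 4 2
  let c35 : CT := .l 4 3 2
  let c36 : CT := .l 1 0 (-1)
  let c37 : CT := .l 1 5 (-1)
  let c38 : CT := .l 3 2 0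
  let c39 : CT := .l 3 3 2
  let c40 : CT := .l 3 4 1
  let c41 : CT := .l 2 (-1) 2
  let c42 : CT := .l 3 1 2
  let c43 : CT := .l 1 3 4
  let c44 : CT := .l 2 (-1) (-4)
  let c45 : CT := .l 1 (-6) 3
  let c46 : CT := .l 6 3 4
  let c47 : CT := .l 1 (-16) (-29)
  let c48 : CT := .l 5 9 1
  let c49 : CT := .l 3 (-4) 4
  let c50 : CT := .l 1 18 30
  .x (.y (.x c0 (.y (.x (.y c0 (.x c0 (.y c1 c1))) (.y c1 (.x c1 c1))) (.x (.y (.x c0 (.y (.x c0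
  c2) c3)) (.x c0 c3)) (.y c3 c3)))) (.x (.y (.x (.y c0 c3) c0) (.x (.y (.x c4 (.y (.x c4 c0)
  (.x c4 (.y c0 c5)))) (.x (.y (.x (.y c6 (.x (.y c6 (.x c6 (.y c6 (.x c6 (.y c6 c7))))) (.y c6
  c8))) c4) (.x (.y (.x c9 (.y c10 (.x (.y c10 (.x c9 (.y c11 c9))) c12))) (.x (.y c9 (.x (.y c9
  (.x (.y c9 (.x (.y c9 c13) c9)) c9)) c9)) (.y (.x c9 (.y (.x (.y c12 (.x c9 c12)) c12) (.x c9
  c12))) (.x c9 (.y (.x c9 (.y c12 c14)) c14))))) (.y (.x (.y c4 (.x c8 c4)) c4) (.x (.y c8 (.x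
  c12 c8)) (.y c4 (.x (.y (.x c8 c4) c8) c4)))))) (.y (.x c4 c5) (.x c4 c15)))) (.y c0 (.x (.y
  (.x (.y c10 (.x c10 c10)) c0) (.x c5 (.y c0 c16))) c16)))) (.y (.x (.y (.x c6 c6) c6) (.y (.x
  (.y c6 c6) (.y c3 c6)) (.x c6 (.y (.x c6 c17) (.x (.y c17 (.x c17 c17)) c17))))) (.x (.y (.x
  c0 (.y c6 (.x c6 c6))) (.x c0 (.y c0 c0))) (.y (.x (.y c6 c6) (.y (.x (.y (.x c18 (.y c18
  c19)) c20) c20) (.x (.y c20 c16) (.y c20 (.x (.y c20 c21) c21))))) (.x (.y c6 c22) (.y (.x (.y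
  (.x (.y c16 c22) c22) c22) c22) (.x c22 (.y c22 (.x c22 (.y c22 (.x c22 (.y c22
  c23))))))))))))) (.y (.x (.y (.x c1 c3) (.x c3 (.y c3 c3))) (.y c3 (.x c3 c3))) (.x (.y (.x
  (.y (.x (.y (.x c6 c24) (.x (.y c6 c17) c24)) c24) (.x (.y (.x c17 (.y c24 c20)) (.x c17 c20))
  c24)) (.y (.x c20 c20) c20)) (.x (.y (.x (.y c20 (.x (.y c20 c22) c21)) c21) (.x (.y c22 (.x
  (.y c22 (.x (.y c22 (.x (.y c22 (.x c23 (.y c23 c25))) (.y c23 c25))) (.y (.x (.y c22 c23) (.y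
  (.x c22 c23) (.x c23 c25))) (.x (.y c25 c26) c26)))) (.y c27 (.x (.y c27 c26) c27)))) (.y (.x
  (.y c22 (.x c22 (.y c22 (.x (.y c22 c23) c28)))) c24) (.x (.y (.x c29 (.y c30 c29)) c29)
  c28)))) (.y (.x c24 c20) c24))) (.y (.x (.y (.x (.y (.x c20 c20) c20) (.y c20 (.x (.y c20 c31)
  (.y (.x c20 (.y c20 c11)) c31)))) (.x (.y (.x c20 c31) c22) (.y c31 (.x c31 c31)))) (.y (.x
  (.y c3 (.x (.y (.x (.y c3 (.x (.y c31 c31) c32)) c32) c31) c33)) c33) (.x (.y c33 c33) c33)))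
  (.x (.y (.x c34 (.y c34 c26)) (.x (.y c26 c24) (.y (.x c34 c35) (.x c35 c36)))) (.y (.x (.y
  c33 (.x c26 (.y c26 (.x c26 c35)))) (.y c33 (.x (.y c33 c35) (.y c35 (.x c32 c33))))) (.x (.y
  (.x (.y c35 c35) (.y (.x c35 (.y c35 c35)) (.x (.y c35 c37) (.y c38 c37)))) (.x c39 (.y (.x
  (.y c37 c39) c40) (.x c39 (.y c41 c39))))) (.y (.x (.y (.x (.y c35 c42) (.y c42 c37)) (.x c37
  c40)) (.y c37 c40)) (.x (.y (.x c40 (.y c41 (.x c40 c43))) (.x (.y c38 (.x (.y (.x c44 c38)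
  c45) c45)) (.y (.x (.y (.x c38 (.y c11 c45)) c45) c45) (.x c45 (.y c45 (.x c38 c46)))))) (.y
  (.x (.y c40 c43) (.y (.x (.y c40 (.x (.y c40 (.x c40 c47)) c32)) c32) c45)) (.x c43 (.y (.x
  (.y c45 c43) (.y (.x c45 c32) (.x c48 c32))) (.x c43 (.y (.x (.y (.x c43 c49) c49) (.y c49 (.x
  c49 c32))) (.x c43 (.y (.x c50 c47) (.x c43 (.y (.x c50 c47) c50)))))))))))))))))

theorem ok281 : okF 5 11 (-8) t281 = true := by decide +kernel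

theorem all281 : AllA 281 := allA (D := 281) (thm_of_ok ok281)
  (l :=
    [(599, 76, 1663, 211), (-5056, -1283, -14037, -3562), (2, 1, 5, 3), (-1, 0, -1, -1),
     (33, -26, -19, 15), (-268813, -365637, -746307, -1015120)])
  (by decide +kernel)

/-- a cover for the form `(2, 14, -11)` of discriminant `284` -/
def t284 : CT :=
  let c0 : CT := .l 1 0 0
  let c1 : CT := .l 1 1 0
  let c2 : CT := .l 1 1 1
  let c3 : CT := .l 6 3 1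
  let c4 : CT := .l 1 2 0
  let c5 : CT := .l 4 2 1
  let c6 : CT := .l 5 3 1
  let c7 : CT := .l 4 3 1
  let c8 : CT := .l 2 2 1
  let c9 : CT := .l 3 3 1
  let c10 : CT := .l 3 0 1
  let c11 : CT := .l 3 1 1
  let c12 : CT := .l 3 2 1
  let c13 : CT := .l 2 0 1
  let c14 : CT := .l 5 1 2
  let c15 : CT := .l 7 1 3
  let c16 : CT := .l 2 1 1
  let c17 : CT := .l 1 3 0
  let c18 : CT := .l 3 3 2
  let c19 : CT := .l 1 4 0
  .y (.x (.y (.x c0 (.y c0 c1)) (.x c0 (.y (.x c0 (.y c1 (.x c2 c3))) (.x c0 (.y c4 (.x (.y c4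
  c5) c5)))))) (.y c1 (.x (.y (.x (.y c1 c4) (.y c1 c4)) (.x (.y c4 c5) (.y (.x c6 c7) (.x (.y
  c5 c7) c7)))) (.y c1 (.x (.y (.x (.y c8 c8) (.y c1 (.x (.y c5 c8) c1))) c7) (.y c1 (.x (.y c7
  c9) c1))))))) (.x (.y (.x (.y (.x (.y c0 c10) c0) (.x c10 c0)) (.y (.x c0 (.y c5 (.x c11
  c11))) (.x c11 (.y c11 (.x c11 c12))))) (.x (.y (.x (.y (.x c10 c10) c13) (.y c14 (.x c15
  c14))) c13) (.y (.x c0 c16) (.x c0 c16)))) (.y (.x (.y (.x (.y (.x c5 c12) (.x c5 c12)) (.y c7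
  c12)) (.x (.y c12 c12) c12)) (.y (.x (.y (.x c7 c8) (.x c12 c8)) (.y c17 c9)) (.x (.y (.x c12
  c8) c9) c9))) (.x (.y (.x (.y c2 c16) (.y (.x c12 c12) (.x (.y c13 c16) c12))) c16) (.y (.x
  (.y (.x (.y (.x c12 c18) c13) c8) (.x (.y c19 c16) c8)) c8) (.x (.y c16 c8) c8)))))

theorem ok284 : okF 2 14 (-11) t284 = true := by decide +kernel

theorem all284 : AllA 284 := allA (D := 284) (thm_of_ok ok284)
  (l :=
    [(-59, 7, 42, -5), (-1, 0, -3, -1), (2, -1, -1, 1), (-4, 3, -31, 23)])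
  (by decide +kernel)

/-- a cover for the form `(3, 15, -5)` of discriminant `285` -/
def t285 : CT :=
  let c0 : CT := .l 1 0 0
  let c1 : CT := .l 1 1 0
  let c2 : CT := .l 2 1 0
  let c3 : CT := .l 3 1 1
  let c4 : CT := .l 1 0 (-1)
  let c5 : CT := .l 4 1 1
  let c6 : CT := .l 2 1 1
  let c7 : CT := .l 4 2 1
  let c8 : CT := .l 2 0 1
  let c9 : CT := .l 4 1 2
  let c10 : CT := .l 3 2 1
  let c11 : CT := .l 6 4 1
  let c12 : CT := .l 4 3 1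
  let c13 : CT := .l 1 1 1
  let c14 : CT := .l 6 3 2
  let c15 : CT := .l 6 5 2
  let c16 : CT := .l 2 2 1
  let c17 : CT := .l 3 3 1
  .x (.y (.x c0 (.y (.x (.y c0 c1) (.y c2 c1)) (.x (.y c1 (.x (.y (.x c0 c3) c3) (.y (.x (.y c1
  c3) c4) c5))) (.y c1 (.x c6 c7))))) (.x (.y (.x c0 c0) (.x (.y c0 c8) (.y c0 c8))) (.y (.x (.y
  (.x c5 c3) c3) (.y (.x (.y c7 c6) (.y c7 c6)) (.x c6 c6))) (.x (.y (.x (.y c3 c8) c3) (.x (.y
  c8 c9) (.y c8 c9))) c6)))) (.y (.x (.y c1 (.x (.y c1 (.x (.y c2 c7) (.y c2 c7))) (.y c1 (.x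
  (.y (.x c10 c11) c10) c12)))) (.y c1 (.x (.y c1 (.x c13 c1)) c1))) (.x (.y (.x (.y (.x c7 c2)
  (.x (.y c14 c10) c10)) (.y (.x c10 (.y c12 c10)) c10)) (.x (.y (.x c6 (.y (.x c10 c10) c6))
  c6) (.y (.x (.y c10 c6) c10) c6))) (.y (.x (.y (.x c13 (.y (.x c13 c1) c10)) (.x c13 (.y c15
  c13))) (.y (.x (.y c1 c16) c1) c17)) (.x c13 c16))))

theorem ok285 : okF 3 15 (-5) t285 = true := by decide +kernel

theorem all285 : AllB 285 := allB (D := 285) (thm_of_ok ok285)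
  (l :=
    [(-1, 0, -2, -1), (1, 1, -1, 0)])
  (l' :=
    [(1, 0)])
  (by decide +kernel)

/-- a cover for the form `(1, 17, -1)` of discriminant `293` -/
def t293 : CT :=
  let c0 : CT := .l 1 0 0
  let c1 : CT := .l 4 1 1
  let c2 : CT := .l 3 1 1
  let c3 : CT := .l 1 0 (-3)
  let c4 : CT := .l 5 1 2
  let c5 : CT := .l 2 0 1
  let c6 : CT := .l 6 2 1
  let c7 : CT := .l 3 1 0
  let c8 : CT := .l 1 1 0
  let c9 : CT := .l 2 1 4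
  let c10 : CT := .l 1 3 0
  let c11 : CT := .l 5 2 0
  let c12 : CT := .l 6 3 1
  let c13 : CT := .l 2 1 0
  let c14 : CT := .l 1 4 0
  let c15 : CT := .l 3 1 (-2)
  let c16 : CT := .l 3 1 (-3)
  let c17 : CT := .l 2 1 3
  let c18 : CT := .l 4 (-2) 1
  let c19 : CT := .l 4 2 1
  let c20 : CT := .l 2 1 1
  let c21 : CT := .l 4 1 2
  let c22 : CT := .l 7 4 1
  let c23 : CT := .l 5 3 1
  let c24 : CT := .l 3 2 1
  let c25 : CT := .l 3 2 0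
  let c26 : CT := .l 4 3 1
  let c27 : CT := .l 7 4 2
  let c28 : CT := .l 4 3 2
  let c29 : CT := .l 3 3 1
  let c30 : CT := .l 6 5 2
  let c31 : CT := .l 1 1 4
  let c32 : CT := .l 4 3 (-2)
  let c33 : CT := .l 3 5 1
  let c34 : CT := .l 2 (-2) 1
  let c35 : CT := .l 3 6 1
  let c36 : CT := .l 5 5 2
  let c37 : CT := .l 1 (-9) 1
  let c38 : CT := .l 2 (-1) 1
  let c39 : CT := .l 6 5 3
  let c40 : CT := .l 1 1 3
  let c41 : CT := .l 2 2 1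
  let c42 : CT := .l 1 1 1
  .x (.x (.y (.x c0 (.y c0 (.x c0 (.y c0 (.x c0 c1))))) (.x c0 (.y (.x (.y c0 (.x c0 c2)) (.y
  (.x (.y c1 (.x c3 c1)) c1) c2)) (.x (.y (.x c0 c4) c5) (.y c4 c5))))) (.y (.x (.y c0 (.x (.y
  (.x c0 (.y c0 c6)) (.x c1 (.y c2 c2))) (.y c7 (.x c2 (.y c7 c2))))) (.y c8 (.x (.y (.x (.y (.x
  (.y (.x c7 (.y c9 c10)) c10) (.y (.x (.y c11 c10) c11) c10)) (.x c6 (.y c10 c12))) (.y (.x c11
  c13) c12)) (.x (.y (.x (.y (.x (.y c6 (.x (.y c6 c14) c15)) c15) c14) (.y (.x c9 (.y c16 c14))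
  c14)) c1) (.y (.x c11 (.y (.x c17 (.y (.x c17 (.y c13 c18)) c14)) c14)) c19))) (.y c13 c20))))
  (.x (.y (.x (.y (.x c1 c2) c2) c2) (.x (.y (.x (.y c4 c21) c2) c5) c2)) (.y (.x (.y (.x c2 (.y
  c19 c2)) c2) c20) (.x (.y (.x (.y c2 c20) c20) c20) c20))))) (.x (.y (.x (.y c8 (.x c13 (.y
  (.x c22 c23) c23))) (.y c8 (.x (.y (.x c24 c25) c24) (.y c8 (.x (.y (.x c25 c26) c26) c26)))))
  (.x (.y (.x (.y c13 c24) (.y (.x c27 c24) c24)) (.x c20 (.y (.x c20 (.y c24 c20)) c20))) (.y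
  (.x c24 (.y (.x c24 c26) c24)) (.x (.y c24 c20) (.y (.x c24 c28) c20))))) (.y (.x (.y c8 (.x
  (.y c8 (.x c26 c8)) c8)) c8) (.x (.y (.x (.y (.x c26 (.y c26 c24)) (.x c26 (.y c24 c29))) (.y
  (.x c30 c8) c29)) (.x (.y (.x (.y c26 c28) (.y (.x c31 (.y (.x (.y (.x c31 c32) c33) (.y c30
  c33)) (.x (.y c34 c31) (.y c34 c35)))) (.x c31 (.y c36 (.x c31 (.y c37 (.x (.y c38 c32)
  c39))))))) c20) (.y (.x (.y (.x (.y c30 c39) c30) c39) (.y (.x c40 (.y (.x c40 (.y c33 c34))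
  (.x c40 c36))) (.x c40 c41))) c41))) (.y c8 c42))))

theorem ok293 : okF 1 17 (-1) t293 = true := by decide +kernel

theorem all293 : AllA 293 := allA (D := 293) (thm_of_ok ok293)
  (l :=
    [(-1, 0, -8, -1)])
  (by decide +kernel)

/-- a cover for the form `(2, 16, -5)` of discriminant `296` -/
def t296 : CT :=
  let c0 : CT := .l 1 0 0
  let c1 : CT := .l 1 1 0
  let c2 : CT := .l 1 0 (-1)
  let c3 : CT := .l 1 2 0
  let c4 : CT := .l 3 1 1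
  let c5 : CT := .l 4 1 1
  let c6 : CT := .l 2 1 1
  let c7 : CT := .l 4 2 1
  let c8 : CT := .l 2 0 1
  let c9 : CT := .l 5 1 2
  let c10 : CT := .l 5 3 1
  let c11 : CT := .l 6 4 1
  let c12 : CT := .l 3 2 1
  let c13 : CT := .l 4 3 1
  let c14 : CT := .l 1 1 1
  let c15 : CT := .l 5 3 2
  let c16 : CT := .l 1 3 0
  let c17 : CT := .l 2 2 1
  let c18 : CT := .l 3 3 1
  .x (.y (.x c0 (.y (.x c0 c1) (.x (.y (.x c0 c2) (.x (.y c3 c4) (.y c3 c5))) (.y (.x (.y c1 c6)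
  (.y c1 c3)) (.x (.y c6 c6) c7))))) (.x (.y (.x c0 c0) (.x (.y c0 c8) (.y c0 c8))) (.y (.x (.y
  (.x c5 c4) c4) (.y (.x (.y c7 c6) (.y c7 c6)) (.x c6 c6))) (.x (.y (.x (.y c9 (.x (.y c9 c8)
  (.y c5 c8))) c4) (.x c8 c6)) c6)))) (.y (.x (.y c1 (.x (.y (.x (.y c1 c3) (.y c1 c3)) (.x (.y
  (.x c7 c10) c7) (.y c10 c7))) (.y c3 (.x (.y (.x c10 c11) c12) c13)))) (.y c1 (.x (.y c1 (.x
  c14 c1)) c1))) (.x (.y (.x (.y (.x c7 (.y (.x c7 c13) c12)) (.x (.y (.x c7 c12) c12) c12)) (.y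
  (.x c12 (.y c13 c12)) c12)) (.x (.y (.x c6 c15) c6) (.y (.x (.y c15 c8) c12) c6))) (.y (.x (.y
  (.x c14 (.y c16 (.x c14 c12))) c14) (.y (.x (.y c1 c17) c1) c18)) (.x (.y c14 c14) c17))))

theorem ok296 : okF 2 16 (-5) t296 = true := by decide +kernel

theorem all296 : AllB 296 := allB (D := 296) (thm_of_ok ok296)
  (l :=
    [(-1, 0, -4, -1), (4, 3, 33, 25)])
  (l' :=
    [(1, 0), (-1, -1)])
  (by decide +kernel)

/-- a cover for the form `(7, 7, -9)` of discriminant `301` -/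
def t301 : CT :=
  let c0 : CT := .l 1 0 0
  let c1 : CT := .l 3 1 0
  let c2 : CT := .l 2 1 0
  let c3 : CT := .l 1 1 1
  let c4 : CT := .l 1 (-1) 1
  let c5 : CT := .l 4 2 1
  let c6 : CT := .l 1 (-1) (-1)
  let c7 : CT := .l 1 2 3
  let c8 : CT := .l 5 0 2
  let c9 : CT := .l 2 0 1
  let c10 : CT := .l 1 1 0
  let c11 : CT := .l 2 1 1
  let c12 : CT := .l 3 1 1
  let c13 : CT := .l 3 2 0
  let c14 : CT := .l 5 3 2
  let c15 : CT := .l 4 3 2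
  let c16 : CT := .l 1 3 (-1)
  let c17 : CT := .l 4 3 1
  let c18 : CT := .l 2 2 1
  let c19 : CT := .l 6 5 2
  let c20 : CT := .l 4 4 1
  let c21 : CT := .l 2 3 0
  let c22 : CT := .l 1 0 (-1)
  let c23 : CT := .l 8 6 3
  let c24 : CT := .l 1 (-2) 2
  let c25 : CT := .l 1 5 (-2)
  let c26 : CT := .l 1 (-1) (-2)
  let c27 : CT := .l 1 2 2
  let c28 : CT := .l 1 0 1
  .x (.y (.x c0 (.y (.x (.y c1 (.x c0 c2)) (.y c2 c2)) (.x (.y (.x c0 (.y c3 (.x c0 c3))) (.x c0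
  (.y (.x c0 c4) c4))) (.y (.x (.y (.x c3 c1) c3) (.y (.x (.y c2 c4) c4) (.x c4 (.y c4 c5))))
  (.x c3 c5))))) (.x (.y (.x (.y c0 (.x (.y (.x (.y c0 (.x c6 c7)) c0) (.x c6 (.y c8 c8))) (.y
  c0 c4))) c0) (.x (.y c9 c9) (.y (.x c9 c0) (.x c10 c10)))) (.y (.x (.y (.x c0 c11) c0) (.y (.x
  c12 c10) c10)) (.x c0 c11)))) (.y (.x (.y (.x c2 (.y c13 c10)) (.x (.y (.x (.y c2 c10) c10)
  c10) c10)) (.y c10 c10)) (.x (.y (.x (.y c10 (.x c3 (.y (.x c10 c10) (.x c5 c14)))) (.y (.x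
  c10 (.y c10 c2)) (.x (.y (.x (.y c10 (.x c15 (.y c10 c16))) (.y (.x c10 (.y c10 c16)) c16))
  (.x (.y c16 c14) c14)) (.y (.x (.y c16 (.x c16 c14)) c2) c11)))) (.x (.y c11 c11) (.y (.x c11
  (.y c11 (.x c15 (.y c11 c15)))) (.x c3 c15)))) (.y (.x (.y (.x c17 c18) (.x (.y c11 (.x c11
  c19)) (.y c19 (.x c19 c19)))) (.y (.x (.y c10 (.x c18 c20)) (.y c20 c20)) (.x c18 (.y (.x (.y
  c21 c18) c22) c18)))) (.x (.y (.x (.y (.x c23 c2) (.x (.y (.x c24 c23) (.x c21 c25)) (.y c2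
  c26))) (.y (.x (.y c21 c27) c18) (.x c27 c18))) (.x (.y c15 c15) (.y (.x c15 c27) c28)))
  c18))))

theorem ok301 : okF 7 7 (-9) t301 = true := by decide +kernel

theorem all301 : AllA 301 := allA (D := 301) (thm_of_ok ok301)
  (l :=
    [(188, 23, -139, -17), (-11, -4, -19, -7), (2, 1, 3, 2), (1, 0, 0, 1)])
  (by decide +kernel)

/-- a cover for the form `(2, 17, -2)` of discriminant `305` -/
def t305 : CT :=
  let c0 : CT := .l 1 0 0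
  let c1 : CT := .l 4 1 1
  let c2 : CT := .l 3 0 1
  let c3 : CT := .l 3 1 1
  let c4 : CT := .l 1 0 (-1)
  let c5 : CT := .l 1 (-5) 1
  let c6 : CT := .l 4 1 3
  let c7 : CT := .l 2 (-1) 1
  let c8 : CT := .l 1 1 7
  let c9 : CT := .l 7 2 3
  let c10 : CT := .l 1 4 0
  let c11 : CT := .l 3 4 1
  let c12 : CT := .l 6 1 3
  let c13 : CT := .l 3 1 4
  let c14 : CT := .l 9 3 4
  let c15 : CT := .l 1 1 0
  let c16 : CT := .l 3 1 0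
  let c17 : CT := .l 1 2 0
  let c18 : CT := .l 2 1 1
  let c19 : CT := .l 6 3 1
  let c20 : CT := .l 1 (-13) 2
  let c21 : CT := .l 7 4 3
  let c22 : CT := .l 2 1 5
  let c23 : CT := .l 1 (-7) (-62)
  let c24 : CT := .l 1 6 50
  let c25 : CT := .l 4 3 19
  let c26 : CT := .l 12 5 3
  let c27 : CT := .l 3 (-1) 1
  let c28 : CT := .l 1 (-6) 1
  let c29 : CT := .l 3 2 4
  let c30 : CT := .l 9 5 3
  let c31 : CT := .l 1 1 4
  let c32 : CT := .l 7 4 2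
  let c33 : CT := .l 2 1 (-1)
  let c34 : CT := .l 1 0 (-5)
  let c35 : CT := .l 3 2 1
  let c36 : CT := .l 3 2 0
  let c37 : CT := .l 4 3 1
  let c38 : CT := .l 1 63 (-7)
  let c39 : CT := .l 1 (-49) 6
  let c40 : CT := .l 1 7 56
  let c41 : CT := .l 4 (-15) 3
  let c42 : CT := .l 7 4 4
  let c43 : CT := .l 3 (-9) 2
  let c44 : CT := .l 2 (-3) 1
  let c45 : CT := .l 12 9 5
  let c46 : CT := .l 1 1 2
  let c47 : CT := .l 3 3 1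
  let c48 : CT := .l 1 1 1
  .x (.x (.y (.x c0 (.y c0 (.x c0 (.y c0 (.x c0 c1))))) (.x c0 (.y (.x (.y c0 c0) (.y (.x (.y c1
  c2) c1) c3)) (.x (.y (.x c0 c4) (.x c0 c4)) (.y (.x (.y (.x (.y c3 c5) (.y c3 (.x c6 (.y c5
  c6)))) (.x c4 (.y c6 c6))) (.y (.x (.y c3 (.x (.y c5 c7) c8)) (.y c3 (.x (.y c5 c8) c3))) (.x
  (.y c7 c9) (.y c7 c9)))) (.x (.y (.x c4 (.y c10 (.x (.y (.x c4 c6) c11) c6))) c12) (.y (.x (.y
  (.x c9 c9) (.x c6 c13)) (.y c9 (.x c8 (.y c14 (.x c8 (.y c11 c8)))))) (.x (.y (.x c12 (.y c13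
  c12)) c12) (.y (.x (.y c8 c12) c8) c12))))))))) (.y (.x (.y (.x c0 c15) (.x (.y (.x c0 (.y c15
  c3)) (.x c1 c3)) (.y (.x (.y c15 c3) c16) (.x c3 c16)))) (.y c15 (.x (.y (.x (.y c15 c17) (.y
  c15 c17)) (.x (.y c17 c1) (.y (.x c17 c18) (.x c1 c18)))) (.y (.x c18 c19) c18)))) (.x (.y (.x
  (.y (.x c1 c3) c3) c3) (.x (.y (.x (.y c3 c9) c3) (.x (.y (.x (.y c9 (.x (.y c14 (.x (.y c20
  c21) (.y c20 (.x c21 (.y c21 (.x c21 (.y c21 c18))))))) c22)) c9) (.x (.y (.x (.y (.x (.y (.x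
  (.y (.x (.y (.x c8 c23) c23) (.y (.x c24 c24) c24)) c18) (.y (.x (.y (.x c24 c25) c18) c25)
  c18)) c18) c18) c18) c18) c18) c18)) (.y c9 c18))) (.y c3 (.x (.y c14 c18) c18)))) (.y (.x (.y
  (.x c3 (.y (.x (.y c26 c3) c18) c3)) c3) c18) (.x (.y (.x (.y c3 c18) c18) c18) c18))))) (.x
  (.y (.x (.y c15 (.x (.y (.x c19 (.y c15 c17)) (.x (.y c19 (.x c19 (.y (.x c19 (.y c19 c27))
  (.x c19 c28)))) (.y (.x (.y c17 (.x (.y c29 c1) (.y (.x c30 c21) c30))) c31) (.x (.y (.x (.y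
  c1 c27) c30) (.x (.y c28 (.x c28 c29)) c30)) (.y (.x (.y c32 c32) c32) c32))))) (.y (.x (.y
  c15 c17) c17) (.x (.y (.x (.y c17 c1) c33) (.x c32 c33)) (.y (.x (.y c34 (.x c33 c34)) c35)
  (.x (.y (.x c33 c35) (.x c33 c35)) c35)))))) (.y c15 (.x (.y c17 c35) (.y c17 (.x (.y c36 c37)
  c37))))) (.x (.y (.x (.y (.x (.y (.x c19 (.y (.x c19 (.y (.x c19 (.y (.x c18 (.y (.x (.y c38
  c39) (.y c38 c39)) (.x c18 (.y (.x c40 (.y c39 c41)) c41)))) c18)) c18)) c37)) c18) (.y (.x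
  (.y (.x (.y (.x (.y c42 (.x (.y c42 c43) c42)) (.y (.x c42 c29) c32)) c44) c32) c37) c32)
  c32)) (.x c18 c35)) (.y (.x c32 c35) c35)) (.x c18 (.y (.x c18 (.y c35 c21)) c18))) (.y (.x
  c35 (.y (.x c35 c37) c35)) (.x (.y c35 c18) (.y (.x c35 (.y c35 (.x c35 c45))) c18))))) (.y
  (.x (.y c15 (.x (.y c15 (.x c37 c15)) c15)) c15) (.x (.y (.x (.y (.x c37 c46) (.x c37 c46))
  (.y (.x (.y c15 c35) c15) (.x (.y c35 c47) c47))) (.x (.y (.x (.y c37 (.x c45 c37)) (.y c46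
  (.x (.y c46 c18) c46))) c18) (.y (.x c46 c48) (.x c46 c48)))) (.y (.x c48 c47) c48))))

theorem ok305 : okF 2 17 (-2) t305 = true := by decide +kernel

theorem all305 : AllB 305 := allB (D := 305) (thm_of_ok ok305)
  (l :=
    [(-1, 0, -4, -1), (-1, -1, -8, -9), (26, -17, -3, 2)])
  (l' :=
    [(1, 0), (-2, -1), (5, 4)])
  (by decide +kernel)

/-- a cover for the form `(3, 15, -7)` of discriminant `309` -/
def t309 : CT :=
  let c0 : CT := .l 1 0 0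
  let c1 : CT := .l 1 1 0
  let c2 : CT := .l 2 1 0
  let c3 : CT := .l 3 1 1
  let c4 : CT := .l 6 2 1
  let c5 : CT := .l 4 1 1
  let c6 : CT := .l 2 1 1
  let c7 : CT := .l 2 3 0
  let c8 : CT := .l 4 2 1
  let c9 : CT := .l 2 0 1
  let c10 : CT := .l 1 1 1
  let c11 : CT := .l 4 3 1
  let c12 : CT := .l 1 2 0
  let c13 : CT := .l 3 2 1
  let c14 : CT := .l 6 3 2
  let c15 : CT := .l 5 3 2
  let c16 : CT := .l 5 4 1
  let c17 : CT := .l 7 6 2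
  let c18 : CT := .l 6 5 2
  let c19 : CT := .l 3 3 1
  let c20 : CT := .l 2 2 1
  let c21 : CT := .l 1 3 0
  .x (.y (.x c0 (.y (.x (.y c0 c1) (.y c2 c1)) (.x (.y c1 (.x (.y c0 c3) (.y (.x (.y c4 c5) c4)
  c5))) (.y c1 (.x (.y (.x c6 (.y (.x (.y c1 c7) c7) c5)) (.x c6 (.y c5 c6))) c8))))) (.x (.y
  (.x (.y c0 (.x c0 c0)) c0) (.x (.y (.x c9 c0) c9) c0)) (.y (.x (.y (.x c5 c3) c3) (.y (.x c6
  (.y c8 c3)) (.x c6 (.y (.x c6 c6) c6)))) (.x (.y (.x (.y (.x c3 c3) c9) (.y c3 c9)) (.x (.y c9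
  c0) (.y c9 c6))) c6)))) (.y (.x (.y c1 (.x (.y c1 (.x (.y (.x c8 c2) c8) c2)) (.y c1 (.x c10
  c11)))) (.y c1 (.x (.y c1 c12) c1))) (.x (.y (.x (.y (.x c8 (.y c12 c13)) (.x (.y c14 c13)
  c13)) (.y (.x c13 c10) c13)) (.x (.y (.x c6 c15) c6) (.y (.x (.y c15 c6) c13) c6))) (.y (.x
  (.y (.x c11 (.y (.x c16 c17) c13)) (.x (.y c13 (.x c13 c11)) (.y c18 c19))) (.y (.x c20 c19)
  c19)) (.x (.y (.x c10 (.y (.x (.y c19 c21) c21) c6)) (.x c10 (.y c6 c20))) c20))))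

theorem ok309 : okF 3 15 (-7) t309 = true := by decide +kernel

theorem all309 : AllA 309 := allA (D := 309) (thm_of_ok ok309)
  (l :=
    [(-58, -7, 25, 3), (-1, 0, -2, -1), (3, 2, 16, 11), (1, 1, -1, 0)])
  (by decide +kernel)

/-- a cover for the form `(2, 16, -7)` of discriminant `312` -/
def t312 : CT :=
  let c0 : CT := .l 1 0 0
  let c1 : CT := .l 1 1 0
  let c2 : CT := .l 1 2 0
  let c3 : CT := .l 2 1 1
  let c4 : CT := .l 3 1 1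
  let c5 : CT := .l 4 1 1
  let c6 : CT := .l 3 1 0
  let c7 : CT := .l 4 2 1
  let c8 : CT := .l 2 0 1
  let c9 : CT := .l 5 1 2
  let c10 : CT := .l 7 2 3
  let c11 : CT := .l 5 3 1
  let c12 : CT := .l 1 1 1
  let c13 : CT := .l 4 3 1
  let c14 : CT := .l 5 4 1
  let c15 : CT := .l 7 4 2
  let c16 : CT := .l 1 0 (-1)
  let c17 : CT := .l 4 5 1
  let c18 : CT := .l 1 (-5) 1
  let c19 : CT := .l 5 3 2
  let c20 : CT := .l 7 5 4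
  let c21 : CT := .l 4 4 5
  let c22 : CT := .l 1 (-2) (-6)
  let c23 : CT := .l 1 (-7) (-18)
  let c24 : CT := .l 5 2 (-1)
  let c25 : CT := .l 1 3 6
  let c26 : CT := .l 6 5 5
  let c27 : CT := .l 4 6 1
  let c28 : CT := .l 3 3 1
  let c29 : CT := .l 4 4 1
  let c30 : CT := .l 1 2 3
  let c31 : CT := .l 2 2 1
  let c32 : CT := .l 2 1 (-1)
  let c33 : CT := .l 1 4 0
  .x (.y (.x c0 (.y (.x c0 c1) (.x (.y (.x c0 (.y c1 (.x (.y c0 c2) c3))) (.x (.y c2 c4) (.y c2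
  c5))) (.y (.x (.y c1 (.x (.y c6 c3) c2)) (.y c1 c2)) (.x (.y c2 (.x c5 c7)) c7))))) (.x (.y
  (.x (.y c0 (.x c0 c0)) c0) (.x (.y (.x c8 c0) c8) c0)) (.y (.x (.y (.x c5 c4) c4) (.y (.x c3
  (.y c7 c4)) (.x c4 (.y c4 c3)))) (.x (.y (.x (.y c9 c10) (.y c4 (.x c4 c4))) (.x c8 c3))
  c3)))) (.y (.x (.y c1 (.x (.y (.x (.y c1 c2) (.y c1 c2)) (.x (.y (.x c7 c11) c7) (.y c11 c7)))
  (.y c2 (.x c12 c13)))) (.y c1 (.x (.y c1 (.x (.y c14 c13) (.y c14 c13))) c1))) (.x (.y (.x (.y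
  (.x c7 (.y (.x c7 c13) (.x c15 c4))) (.x (.y (.x (.y c7 (.x c7 c7)) c7) (.x c3 c7)) (.y (.x
  (.y c15 c16) (.y (.x c15 (.y c4 (.x (.y (.x c15 c17) c17) c17))) (.x c15 (.y c18 (.x (.y c18
  (.x c15 (.y c18 c19))) (.y c18 (.x c20 c21))))))) (.x c19 (.y (.x c19 (.y (.x c19 (.y (.x c20
  c21) c19)) c19)) c19))))) (.y (.x (.y c13 (.x c4 c12)) c12) (.x (.y (.x (.y (.x (.y (.x c22
  c11) (.x c22 c17)) c12) (.x (.y c18 (.x (.y c18 (.x (.y c23 c24) (.y c22 (.x c23 c22)))) c22))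
  (.y c18 (.x c25 c12)))) c12) (.x (.y (.x (.y (.x (.y (.x c24 c26) c9) c22) (.x c19 (.y c27
  c19))) (.y (.x c9 c25) (.x c22 c25))) (.x c19 c28)) c12)) c12))) (.x (.y (.x c3 c19) c3) (.y
  (.x (.y c19 c8) c12) c3))) (.y (.x (.y (.x c13 (.y (.x c14 c29) (.x (.y (.x c13 c14) (.x (.y
  c17 c18) c14)) (.y (.x (.y c29 c14) c30) (.x c18 c31))))) (.x (.y (.x c12 c13) c28) (.y (.x
  (.y (.x (.y (.x c13 (.y c18 (.x c13 c28))) c28) c32) c28) c28) c28))) (.y (.x c31 c28) c28))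
  (.x (.y (.x c12 (.y (.x (.y c33 c8) (.y (.x c33 c32) c31)) (.x c12 c31))) (.x c12 c31))
  c31))))

theorem ok312 : okF 2 16 (-7) t312 = true := by decide +kernel

theorem all312 : AllB 312 := allB (D := 312) (thm_of_ok ok312)
  (l :=
    [(-1, 0, -4, -1), (3, -2, -1, 1), (1, 1, -1, 0)])
  (l' :=
    [(1, 0), (3, 1)])
  (by decide +kernel)

/-- a cover for the form `(6, 13, -6)` of discriminant `313` -/
def t313 : CT :=
  let c0 : CT := .l 1 0 0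
  let c1 : CT := .l 5 0 2
  let c2 : CT := .l 1 1 3
  let c3 : CT := .l 1 (-26) (-66)
  let c4 : CT := .l 1 3 8
  let c5 : CT := .l 14 1 7
  let c6 : CT := .l 1 3 7
  let c7 : CT := .l 14 5 1
  let c8 : CT := .l 1 0 (-1)
  let c9 : CT := .l 19 7 1
  let c10 : CT := .l 2 1 1
  let c11 : CT := .l 1 (-2) 1
  let c12 : CT := .l 15 5 2
  let c13 : CT := .l 17 5 2
  let c14 : CT := .l 1 1 2
  let c15 : CT := .l 8 3 1
  let c16 : CT := .l 4 1 1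
  let c17 : CT := .l 5 4 7
  let c18 : CT := .l 12 5 5
  let c19 : CT := .l 5 (-4) 3
  let c20 : CT := .l 2 (-1) 1
  let c21 : CT := .l 1 1 0
  let c22 : CT := .l 13 5 1
  let c23 : CT := .l 5 2 0
  let c24 : CT := .l 3 1 (-1)
  let c25 : CT := .l 5 3 0
  let c26 : CT := .l 1 4 9
  let c27 : CT := .l 1 3 (-1)
  let c28 : CT := .l 16 9 3
  let c29 : CT := .l 7 5 4
  let c30 : CT := .l 1 13 32
  let c31 : CT := .l 6 1 (-5)
  let c32 : CT := .l 11 7 4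
  let c33 : CT := .l 10 3 (-5)
  let c34 : CT := .l 1 67 (-26)
  let c35 : CT := .l 1 (-66) 26
  let c36 : CT := .l 14 7 1
  let c37 : CT := .l 1 2 4
  let c38 : CT := .l 10 5 1
  let c39 : CT := .l 3 1 1
  let c40 : CT := .l 7 2 3
  let c41 : CT := .l 1 (-1) 1
  let c42 : CT := .l 3 2 1
  let c43 : CT := .l 7 4 2
  let c44 : CT := .l 4 3 1
  let c45 : CT := .l 1 1 1
  let c46 : CT := .l 10 7 5
  let c47 : CT := .l 17 15 5
  let c48 : CT := .l 8 7 3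
  let c49 : CT := .l 1 (-2) (-7)
  let c50 : CT := .l 1 (-6) 3
  let c51 : CT := .l 2 1 (-1)
  let c52 : CT := .l 5 2 (-4)
  let c53 : CT := .l 20 15 7
  let c54 : CT := .l 1 17 (-6)
  let c55 : CT := .l 15 13 5
  let c56 : CT := .l 1 2 0
  let c57 : CT := .l 1 0 (-2)
  let c58 : CT := .l 14 13 5
  let c59 : CT := .l 19 18 7
  let c60 : CT := .l 1 2 3
  let c61 : CT := .l 11 10 4
  let c62 : CT := .l 1 (-3) 2
  let c63 : CT := .l 10 9 5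
  let c64 : CT := .l 14 13 7
  let c65 : CT := .l 5 5 3
  let c66 : CT := .l 5 5 2
  let c67 : CT := .l 3 4 1
  let c68 : CT := .l 2 7 (-1)
  let c69 : CT := .l 1 (-8) 4
  let c70 : CT := .l 1 27 67
  let c71 : CT := .l 1 (-25) (-66)
  let c72 : CT := .l 16 13 9
  let c73 : CT := .l 7 3 5
  let c74 : CT := .l 6 11 1
  let c75 : CT := .l 11 7 7
  let c76 : CT := .l 5 19 (-3)
  .x (.x (.y (.x c0 (.y c0 c0)) (.x (.y c0 (.x (.y (.x c1 c0) (.x (.y c1 (.x (.y c2 (.x (.y c2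
  (.x (.y c2 (.x (.y c2 (.x (.y c2 (.x c3 c2)) c2)) c2)) c2)) c2)) c2)) (.y (.x c1 (.y c0 (.x
  (.y c1 c1) c0))) (.x c1 (.y (.x c1 c4) (.x c1 c5)))))) (.y c0 (.x (.y c0 (.x (.y c0 c5) c0))
  c0)))) (.y c0 c0))) (.y (.x (.y (.x (.y c0 (.x c0 (.y c0 (.x c0 (.y c0 (.x c0 c6)))))) (.y (.x
  c0 (.y c0 (.x (.y c0 c7) (.y c8 c9)))) (.x (.y c10 (.x (.y c10 (.x (.y c11 (.x c6 c12)) c12))
  c10)) (.y c11 c10)))) (.x (.y (.x c0 (.y (.x c0 (.y (.x c0 (.y (.x c0 c6) (.x c13 c12))) (.x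
  (.y c12 c14) c15))) (.x c14 (.y (.x c14 (.y (.x c14 c13) c14)) c14)))) (.x c16 c16)) (.y (.x
  (.y (.x (.y (.x (.y (.x c6 c12) c12) c12) c15) c10) (.x (.y (.x (.y (.x (.y c15 (.x c13 (.y
  c17 (.x c13 c17)))) (.y c15 (.x (.y (.x c18 (.y c15 c19)) c19) (.y c6 (.x c19 c6))))) (.x (.y
  (.x c13 (.y (.x c13 c20) c20)) c20) c20)) (.y c6 c20)) c20) (.y (.x (.y (.x c6 c10) c20) c10)
  (.x c20 c10)))) c10) c21))) (.y (.x (.y c8 (.x (.y (.x c22 c8) (.x c15 c15)) c8)) (.y (.x (.y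
  (.x c23 (.y c24 (.x (.y c23 c11) c24))) (.x c23 (.y c11 c25))) (.y (.x (.y (.x c24 (.y (.x c24
  c26) c24)) c24) (.y (.x (.y (.x (.y c27 c26) (.y (.x (.y c27 (.x c27 (.y c27 (.x c27 c28))))
  (.y c27 (.x (.y c27 c28) c29))) (.x (.y (.x (.y (.x c26 c30) c26) c30) c11) c11))) c11) (.y
  (.x (.y (.x c31 (.y (.x c32 (.y c27 (.x c32 c33))) (.x c31 c32))) c11) (.y (.x (.y (.x (.y c27
  (.x c33 c34)) (.y (.x c35 c35) c34)) c11) (.y (.x (.y (.x c35 (.y c35 c34)) c11) (.y c34 c11))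
  c11)) c11)) c11)) c11)) (.x (.y c24 c25) (.y c25 (.x c24 c36))))) (.x (.y (.x c8 (.y c37 c8))
  c8) (.y (.x (.y (.x (.y (.x c37 (.y c38 c38)) c37) c38) (.x c37 c38)) c38) c21)))) (.x (.y (.x
  (.y (.x c15 (.y c15 c21)) c21) (.y c8 c21)) c21) c21))) (.x (.y (.x (.y c21 c39) c39) (.x (.y
  (.x (.y c39 c0) (.y c39 c40)) (.x c0 (.y c40 c41))) (.y c39 (.x (.y (.x (.y c16 c41) (.y c39
  c41)) c41) c41)))) (.y (.x (.y c10 c10) (.y (.x c39 (.y c39 (.x c39 c8))) c10)) (.x (.y c10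
  c10) c10))))) (.x (.y (.x (.y (.x (.y (.x (.y (.x (.y (.x (.y (.x (.y (.x (.y (.x (.y (.x c34
  c11) c11) c11) c11) c11) c11) c11) c11) c11) c25) c11) (.x (.y c25 (.x (.y c25 c36) (.y c25
  c36))) (.y c25 (.x (.y c25 c36) (.y c25 c36))))) (.y c25 (.x (.y c25 (.x (.y c25 c36) c21))
  c42))) (.x (.y (.x (.y c36 c38) c21) c21) c21)) (.y (.x (.y c25 c21) c25) c21)) c21) (.y c21
  c21)) (.x (.y (.x (.y (.x c8 (.y c21 c43)) (.x c8 (.y (.x c8 (.y c44 c42)) c42))) (.y (.x c43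
  c42) c42)) (.x c10 c10)) (.y (.x c42 c45) (.x (.y c10 c10) (.y c10 (.x (.y c42 (.x c46 c45))
  c45)))))) (.y (.x c21 c21) (.x (.y (.x (.y (.x c45 c42) c45) (.y (.x (.y c42 (.x c41 (.y c42
  (.x c41 (.y c41 (.x (.y c41 c47) c48)))))) (.y c42 (.x (.y c41 (.x c48 c49)) (.y c41 (.x (.y
  c47 (.x c49 (.y c47 c50))) (.y c47 (.x (.y c47 c50) (.y c47 c50)))))))) (.x (.y (.x (.y c51
  (.x c45 c51)) (.y (.x (.y (.x c51 (.y (.x c51 (.y c47 (.x c51 c52))) c51)) c51) (.y (.x (.y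
  (.x (.y c47 (.x c52 c53)) (.y c48 c53)) c54) c48) c50)) (.x c51 (.y (.x c51 c10) c10)))) c10)
  (.y (.x (.y c48 c48) (.y (.x c55 (.y (.x c55 (.y c50 c55)) c55)) c55)) c10)))) (.x c45 (.y (.x
  c45 (.y (.x c48 c48) c56)) c45))) (.y (.x (.y (.x (.y c41 (.x (.y c47 (.x (.y c47 c50) c47))
  c21)) c21) (.x (.y (.x (.y (.x (.y (.x (.y c50 c55) (.y c50 c55)) c55) (.y c57 c55)) c10) (.y
  c57 c10)) c10) (.y c10 c57))) (.y c21 (.x (.y c21 (.x (.y c58 c59) c60)) c21))) (.x (.y (.x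
  (.y (.x c48 (.y c48 c56)) c56) (.y (.x (.y c61 c56) c57) c56)) (.x (.y c56 c45) (.y (.x c56
  (.y c56 c62)) (.x (.y (.x (.y c62 c63) c64) c63) (.y (.x (.y c62 c64) (.y (.x (.y c62 c63) (.y
  c62 c63)) c63)) c64))))) (.y c56 (.x (.y (.x (.y c57 c65) c57) (.x (.y c65 (.x c64 c65)) (.y
  c57 c65))) (.y (.x (.y c62 (.x c57 (.y c66 c57))) (.y c66 c67)) (.x c57 (.y (.x c67 (.y c67
  (.x c68 c60))) (.x c57 (.y (.x (.y c69 (.x c57 (.y (.x c59 (.y (.x c70 c71) c70)) c57))) (.y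
  c60 (.x (.y (.x (.y c60 c71) c60) (.x (.y c72 c73) c73)) c60))) (.x c57 (.y (.x (.y c74 (.x
  c59 c75)) (.y c74 (.x (.y c75 (.x c76 c71)) c60))) (.x c57 (.y (.x (.y (.x c70 c71) c70) (.y
  c60 c71)) (.x c59 (.y (.x c70 c71) c70))))))))))))))))))

theorem ok313 : okF 6 13 (-6) t313 = true := by decide +kernel

theorem all313 : AllA 313 := allA (D := 313) (thm_of_ok ok313)
  (l :=
    [(32963, -3527, -12888, 1379), (217, 52, 555, 133), (5054255, -1622397, -1976132, 634331),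
     (-13, 5, 5, -2), (-1, 0, -1, -1), (25299, 23920, 64706, 61179), (-3, 2, 1, -1)])
  (by decide +kernel)

/-- a cover for the form `(7, 11, -7)` of discriminant `317` -/
def t317 : CT :=
  let c0 : CT := .l 1 0 0
  let c1 : CT := .l 2 0 1
  let c2 : CT := .l 2 1 0
  let c3 : CT := .l 3 1 0
  let c4 : CT := .l 7 2 1
  let c5 : CT := .l 4 1 1
  let c6 : CT := .l 2 1 1
  let c7 : CT := .l 6 2 1
  let c8 : CT := .l 3 1 1
  let c9 : CT := .l 1 1 0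
  let c10 : CT := .l 4 2 1
  let c11 : CT := .l 6 3 1
  let c12 : CT := .l 4 1 2
  let c13 : CT := .l 6 2 3
  let c14 : CT := .l 6 3 2
  let c15 : CT := .l 1 1 1
  let c16 : CT := .l 3 2 1
  let c17 : CT := .l 4 3 1
  let c18 : CT := .l 6 5 2
  let c19 : CT := .l 7 6 2
  let c20 : CT := .l 3 3 1
  let c21 : CT := .l 2 2 1
  let c22 : CT := .l 4 3 2
  .x (.x (.y (.x c0 c0) (.x (.y (.x c0 c0) (.x c1 c1)) (.y c0 (.x c0 c0)))) (.y (.x (.y (.x (.y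
  c0 (.x c0 c2)) (.y c3 c2)) (.x (.y (.x c0 (.y c4 c4)) (.x c0 c5)) (.y (.x c6 (.y c7 c7)) (.x
  (.y c5 c8) c6)))) (.y (.x c2 c2) (.x (.y (.x (.y c3 (.x (.y c7 c5) c3)) (.y (.x c3 (.y c2 c3))
  c3)) (.x (.y (.x c6 (.y (.x (.y c5 c6) (.y c5 c9)) c9)) c9) (.y (.x (.y c9 c9) c9) c9))) (.y
  (.x (.y (.x c10 c10) c10) c11) c9)))) (.x (.y (.x (.y c8 c9) c8) (.x (.y (.x c0 (.y c9 c0))
  c0) (.y c8 (.x (.y c12 c13) (.y (.x c12 c8) c13))))) (.y (.x (.y c9 c6) (.y c9 (.x c6 c6)))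
  (.x c6 c6))))) (.x (.y (.x (.y (.x c2 c2) (.x (.y c9 c9) c9)) (.y (.x (.y c9 c9) c9) c9)) (.x
  (.y (.x (.y c9 (.x c14 (.y c10 (.x c10 c10)))) (.y (.x c9 c15) c16)) (.x c6 c6)) (.y (.x c16
  (.y c16 c16)) (.x (.y c6 (.x c6 c15)) c15)))) (.y (.x c9 c9) (.x (.y (.x (.y (.x c16 c17) (.x
  (.y c16 c6) (.y c17 c6))) (.y (.x (.y c16 c18) c19) (.x c18 (.y c18 c18)))) (.x (.y (.x c15
  (.y (.x (.y c6 c15) (.y c17 (.x (.y c6 c15) c17))) (.x c15 c15))) c15) (.y (.x (.y (.x c17 (.y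
  c18 c20)) c20) (.y c20 (.x c20 c21))) (.x (.y c22 c15) (.y (.x c22 c21) c21))))) (.y (.x (.y
  (.x c21 c21) c21) c20) (.x c21 c21)))))

theorem ok317 : okF 7 11 (-7) t317 = true := by decide +kernel

theorem all317 : AllA 317 := allA (D := 317) (thm_of_ok ok317)
  (l :=
    [(19, -2, -9, 1), (18, 17, 37, 35)])
  (by decide +kernel)

/-- a cover for the form `(2, 15, -13)` of discriminant `329` -/
def t329 : CT :=
  let c0 : CT := .l 1 0 0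
  let c1 : CT := .l 1 1 0
  let c2 : CT := .l 7 3 1
  let c3 : CT := .l 4 2 1
  let c4 : CT := .l 1 2 0
  let c5 : CT := .l 1 1 1
  let c6 : CT := .l 3 2 1
  let c7 : CT := .l 1 (-6) 1
  let c8 : CT := .l 3 7 0
  let c9 : CT := .l 1 2 2
  let c10 : CT := .l 6 4 1
  let c11 : CT := .l 3 3 2
  let c12 : CT := .l 5 4 1
  let c13 : CT := .l 7 5 2
  let c14 : CT := .l 1 (-1) (-2)
  let c15 : CT := .l 1 11 (-1)
  let c16 : CT := .l 3 0 1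
  let c17 : CT := .l 2 2 1
  let c18 : CT := .l 3 3 1
  let c19 : CT := .l 1 0 (-1)
  let c20 : CT := .l 4 0 1
  let c21 : CT := .l 3 1 1
  let c22 : CT := .l 2 0 1
  let c23 : CT := .l 1 (-5) 1
  let c24 : CT := .l 3 (-6) 2
  let c25 : CT := .l 1 3 4
  let c26 : CT := .l 2 2 3
  let c27 : CT := .l 1 (-13) 2
  let c28 : CT := .l 1 (-8) (-10)
  let c29 : CT := .l 8 4 3
  let c30 : CT := .l 5 2 2
  let c31 : CT := .l 5 3 2
  let c32 : CT := .l 1 (-4) 1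
  let c33 : CT := .l 7 3 3
  let c34 : CT := .l 3 5 1
  let c35 : CT := .l 6 2 3
  let c36 : CT := .l 1 (-12) 2
  let c37 : CT := .l 1 26 33
  let c38 : CT := .l 3 (-11) 3
  let c39 : CT := .l 1 (-25) (-32)
  let c40 : CT := .l 1 3 0
  let c41 : CT := .l 4 4 1
  let c42 : CT := .l 7 6 3
  let c43 : CT := .l 3 (-3) 2
  let c44 : CT := .l 6 4 3
  let c45 : CT := .l 1 (-2) (-3)
  let c46 : CT := .l 3 1 0
  let c47 : CT := .l 1 4 0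
  .y (.x (.y (.x c0 (.y c0 c1)) (.x c0 (.y (.x c0 (.y (.x (.y c1 c2) (.y c2 (.x c2 c1))) (.x (.y
  (.x c0 c3) c4) c4))) (.x c0 (.y (.x c4 c3) (.x c5 c3)))))) (.y c1 (.x (.y (.x (.y (.x c1 c1)
  c4) (.y c1 c4)) (.x (.y (.x (.y c4 (.x c3 c6)) (.y c4 (.x c6 (.y (.x c6 (.y c7 (.x c6 (.y c8
  c9)))) c9)))) c3) (.y (.x (.y (.x (.y c4 c7) c10) (.x (.y (.x (.y c8 (.x (.y (.x c8 c11) c12)
  c12)) (.y c13 c12)) c12) c12)) (.y (.x c10 c12) c12)) (.x (.y c3 (.x c3 (.y c3 (.x c3 c13))))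
  (.y (.x c3 (.y c12 (.x c10 c14))) (.x (.y (.x c3 (.y c10 c15)) c16) (.y (.x c10 c15)
  c16))))))) (.y (.x (.y c4 (.x c12 c1)) c1) (.x (.y c12 (.x (.y c17 (.x (.y c17 c14) c17)) (.y
  c12 (.x c17 c12)))) (.y (.x (.y c1 c18) c1) (.x (.y c18 c18) c19))))))) (.x (.y (.x (.y (.x
  (.y (.x c20 c0) (.x c20 c16)) c0) (.x (.y c16 c16) (.y c0 c21))) (.y (.x c0 (.y c3 (.x c21
  c5))) (.x c21 (.y c21 (.x c21 c6))))) (.x (.y (.x (.y (.x c16 c16) (.x c22 (.y c16 c22))) (.y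
  (.x (.y (.x (.y c21 (.x (.y c23 (.x c23 c6)) (.y c23 c6))) (.y c23 c6)) (.x c6 (.y c6 (.x (.y
  c6 (.x (.y c6 c24) (.y c6 c24))) c25)))) c0) (.x (.y (.x (.y (.x c20 (.y (.x c24 (.y c24 (.x
  c26 (.y c24 c26)))) c26)) c22) (.y (.x (.y (.x (.y c24 c27) (.y (.x c28 c25) c27)) c27) c25)
  (.x (.y (.x c29 (.y c29 c22)) c22) (.y (.x (.y c29 (.x c28 c25)) c25) c22)))) c22) (.y (.x (.y
  c0 (.x (.y (.x c25 c0) c25) c0)) c0) (.x c22 c22))))) c22) (.y (.x c0 (.y (.x c21 c30) (.x c30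
  (.y c31 c22)))) (.x (.y c22 (.x c22 c0)) (.y (.x c22 (.y c22 c32)) (.x c0 (.y (.x c21 (.y (.x
  c33 (.y c5 c34)) c35)) (.x c21 (.y (.x c35 (.y c35 (.x c33 c36))) (.x c33 (.y (.x c36 (.y c36
  (.x c33 (.y c36 (.x c37 c5))))) (.x c33 (.y (.x c33 c38) (.x c33 (.y (.x c33 (.y c37 (.x c33
  c37))) (.x c33 c39)))))))))))))))) (.y (.x (.y (.x (.y (.x c3 c6) (.x c3 c6)) (.y (.x (.y (.x
  c9 (.y c16 c6)) c6) (.y (.x c13 (.y (.x (.y c10 c40) c40) c40)) c40)) c6)) (.x (.y c6 c6) c6))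
  (.y (.x (.y (.x c40 c40) (.x c6 c17)) (.y c41 c18)) (.x (.y (.x c6 c17) (.x c18 c18)) c18)))
  (.x (.y (.x (.y (.x c5 c31) c5) (.y (.x c31 c6) (.x (.y c31 (.x c31 (.y c22 c32))) (.y c22 (.x
  c6 c32))))) (.x (.y c5 (.x (.y c5 (.x (.y c5 (.x (.y c5 (.x (.y c5 (.x (.y c5 (.x (.y c5 c37)
  c5)) c5)) c5)) c5)) c5)) c5)) (.y (.x (.y (.x c31 (.y c32 (.x c31 c42))) (.x c31 (.y (.x c31
  (.y c34 c35)) (.x c31 (.y (.x c31 c43) c44))))) (.y (.x (.y (.x c45 c6) c34) c6) (.x (.y (.x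
  (.y c35 c46) c45) (.x (.y c46 c36) (.y c45 c36))) (.y c6 (.x (.y c36 (.x c45 c45)) c6))))) (.x
  c44 (.y (.x (.y (.x c44 (.y (.x c46 c45) c44)) c44) (.y (.x c45 (.y c6 c17)) c44)) c44)))))
  (.y (.x (.y (.x (.y (.x c6 c47) (.x c6 c22)) c17) (.x (.y (.x c22 (.y c22 c32)) (.x c9 c42))
  c42)) c17) (.x (.y (.x (.y (.x c6 (.y c42 c17)) (.x c6 c17)) c17) c17) c17)))))

theorem ok329 : okF 2 15 (-13) t329 = true := by decide +kernel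

theorem all329 : AllA 329 := allA (D := 329) (thm_of_ok ok329)
  (l :=
    [(-60, -7, -497, -58), (-311, 65, 244, -51), (37, -14, -29, 11), (2, -1, 17, -8),
     (9, -5, -7, 4), (-123, -130, -1019, -1077)])
  (by decide +kernel)

/-- a cover for the form `(1, 18, -2)` of discriminant `332` -/
def t332 : CT :=
  let c0 : CT := .l 1 0 0
  let c1 : CT := .l 4 1 1
  let c2 : CT := .l 3 1 (-1)
  let c3 : CT := .l 2 1 2
  let c4 : CT := .l 2 1 0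
  let c5 : CT := .l 3 1 1
  let c6 : CT := .l 3 1 0
  let c7 : CT := .l 1 3 0
  let c8 : CT := .l 6 3 1
  let c9 : CT := .l 1 4 0
  let c10 : CT := .l 5 3 1
  let c11 : CT := .l 5 4 1
  let c12 : CT := .l 2 1 1
  let c13 : CT := .l 3 (-1) 1
  let c14 : CT := .l 1 0 (-1)
  let c15 : CT := .l 5 1 2
  let c16 : CT := .l 6 1 3
  let c17 : CT := .l 4 1 2
  let c18 : CT := .l 1 0 (-2)
  let c19 : CT := .l 7 3 3
  let c20 : CT := .l 1 1 0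
  let c21 : CT := .l 3 2 1
  let c22 : CT := .l 3 2 0
  let c23 : CT := .l 4 3 1
  let c24 : CT := .l 5 3 2
  let c25 : CT := .l 4 3 2
  let c26 : CT := .l 6 5 2
  let c27 : CT := .l 7 6 2
  let c28 : CT := .l 1 1 2
  let c29 : CT := .l 3 3 1
  let c30 : CT := .l 8 7 3
  let c31 : CT := .l 3 2 (-2)
  let c32 : CT := .l 4 3 0
  let c33 : CT := .l 5 4 3
  let c34 : CT := .l 2 (-1) 1
  let c35 : CT := .l 1 1 1
  let c36 : CT := .l 7 6 3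
  .x (.y (.x (.y c0 (.x c0 (.y c0 (.x c0 (.y c0 c1))))) (.y (.x c0 (.y c0 (.x (.y c0 (.x (.y c0
  (.x c2 c3)) c4)) c4))) (.x (.y (.x (.y c0 (.x c0 c5)) (.y c6 (.x c5 c6))) (.x (.y (.x c1 c5)
  c1) (.y (.x c5 c6) c1))) (.y (.x (.y c7 (.x (.y (.x (.y c7 c8) (.y c7 c8)) (.x (.y c8 (.x c6
  c2)) (.y c8 (.x c2 c3)))) (.y c8 c8))) (.y c7 c8)) (.x (.y (.x (.y c9 c10) (.y c9 c10)) (.x
  (.y (.x c1 (.y c11 c1)) c1) (.y (.x c3 c12) c1))) c12))))) (.x (.y (.x c0 (.y (.x c0 (.y c1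
  (.x (.y c1 c13) c1))) (.x (.y c0 c14) c5))) (.x c0 (.y (.x c14 c15) (.x (.y c14 c16) (.y (.x
  c15 c17) c17))))) (.y (.x (.y (.x (.y c1 c5) c5) c5) (.y (.x (.y (.x (.y (.x c5 c2) c5) (.y
  (.x c3 c12) c3)) c5) c12) (.x c5 c12))) (.x (.y (.x (.y (.x c15 c5) (.x c18 (.y c5 (.x (.y c5
  c19) c5)))) c5) (.x (.y (.x c17 (.y (.x c17 c5) c17)) c17) c12)) (.y (.x (.y (.x c5 c19) c12)
  c12) c12))))) (.y (.x (.y c20 (.x (.y (.x c4 (.y (.x c4 (.y c20 c10)) c10)) (.x c4 c10)) (.y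
  (.x (.y c20 (.x c21 c22)) (.y c20 (.x c22 c20))) (.x c21 (.y c11 c23))))) (.y c20 (.x (.y c20
  (.x (.y c11 c23) c20)) c20))) (.x (.y (.x (.y (.x c4 (.y (.x (.y c23 (.x c4 c21)) c21) c21))
  (.x c21 c21)) (.y (.x c21 (.y c23 c21)) c21)) (.x (.y (.x c12 c24) c12) (.y (.x c21 (.y c21
  (.x c21 c25))) c12))) (.y (.x (.y (.x (.y c23 (.x c23 (.y c23 c21))) (.y (.x c23 c20) (.x c26
  c27))) (.x (.y c21 (.x c23 (.y c26 (.x (.y c21 (.x c23 c28)) c28)))) (.y c26 c29))) (.y c20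
  c29)) (.x (.y (.x (.y (.x c23 (.y (.x (.y c30 c24) c28) (.x (.y c24 (.x c31 c32)) c28))) (.x
  (.y c23 c25) (.y (.x (.y (.x c31 c32) (.x c33 c32)) c28) c34))) (.y (.x c28 (.y c30 c35))
  c36)) (.x (.y (.x c25 (.y (.x c25 c28) c25)) c25) (.y (.x c28 c36) c25))) c35))))

theorem ok332 : okF 1 18 (-2) t332 = true := by decide +kernel

theorem all332 : AllA 332 := allA (D := 332) (thm_of_ok ok332)
  (l :=
    [(-1, 0, -9, -1), (4, 1, -1, 0)])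
  (by decide +kernel)

end Pool.Agent.Mukai
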