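import Pool.Agent.Work.MP_1e087a_ag.R4.Table

/-!
# Covers for the discriminants from 337 to 381
-/

namespace Pool.Agent.Mukai

/-- a cover for the form `(8, 7, -9)` of discriminant `337` -/
def t337 : CT :=
  let c0 : CT := .l 1 0 0
  let c1 : CT := .l 3 1 0
  let c2 : CT := .l 1 1 1
  let c3 : CT := .l 5 1 1
  let c4 : CT := .l 1 2 (-1)
  let c5 : CT := .l 3 2 1
  let c6 : CT := .l 5 3 1
  let c7 : CT := .l 1 4 5
  let c8 : CT := .l 5 4 (-1)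
  let c9 : CT := .l 10 4 (-1)
  let c10 : CT := .l 1 10 (-6)
  let c11 : CT := .l 9 5 1
  let c12 : CT := .l 4 4 3
  let c13 : CT := .l 2 (-4) (-7)
  let c14 : CT := .l 1 (-13) (-19)
  let c15 : CT := .l 16 10 3
  let c16 : CT := .l 7 7 5
  let c17 : CT := .l 11 9 5
  let c18 : CT := .l 10 0 (-7)
  let c19 : CT := .l 5 11 12
  let c20 : CT := .l 1 (-57) (-81)
  let c21 : CT := .l 4 24 31
  let c22 : CT := .l 7 (-10) (-19)
  let c23 : CT := .l 1 (-261) 165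
  let c24 : CT := .l 1 262 (-165)
  let c25 : CT := .l 1 (-9) 6
  let c26 : CT := .l 6 (-2) (-7)
  let c27 : CT := .l 12 8 3
  let c28 : CT := .l 10 (-10) (-21)
  let c29 : CT := .l 1 (-1) 1
  let c30 : CT := .l 1 (-1) (-2)
  let c31 : CT := .l 18 8 1
  let c32 : CT := .l 3 2 0
  let c33 : CT := .l 6 2 1
  let c34 : CT := .l 4 0 (-1)
  let c35 : CT := .l 12 4 3
  let c36 : CT := .l 1 (-4) 3
  let c37 : CT := .l 5 4 3
  let c38 : CT := .l 3 (-1) (-3)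
  let c39 : CT := .l 2 0 (-1)
  let c40 : CT := .l 1 (-6) (-9)
  let c41 : CT := .l 1 16 22
  let c42 : CT := .l 1 (-50) 32
  let c43 : CT := .l 4 2 1
  let c44 : CT := .l 2 0 1
  let c45 : CT := .l 4 0 1
  let c46 : CT := .l 1 1 0
  let c47 : CT := .l 16 6 5
  let c48 : CT := .l 7 3 2
  let c49 : CT := .l 10 4 3
  let c50 : CT := .l 5 2 2
  let c51 : CT := .l 1 3 4
  let c52 : CT := .l 1 (-2) 2
  let c53 : CT := .l 14 6 7
  let c54 : CT := .l 1 6 (-3)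
  let c55 : CT := .l 1 (-2) (-3)
  let c56 : CT := .l 3 (-1) 3
  let c57 : CT := .l 1 (-13) 9
  let c58 : CT := .l 5 0 4
  let c59 : CT := .l 4 (-6) 7
  let c60 : CT := .l 10 8 3
  let c61 : CT := .l 9 2 6
  let c62 : CT := .l 1 (-32) 21
  let c63 : CT := .l 1 52 (-32)
  let c64 : CT := .l 12 (-2) 11
  let c65 : CT := .l 1 (-68) (-96)
  let c66 : CT := .l 1 69 97
  let c67 : CT := .l 7 (-10) 12
  let c68 : CT := .l 16 10 (-1)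
  let c69 : CT := .l 1 (-28) 18
  let c70 : CT := .l 14 8 1
  let c71 : CT := .l 2 6 7
  let c72 : CT := .l 9 4 (-1)
  let c73 : CT := .l 10 6 1
  let c74 : CT := .l 12 4 (-3)
  let c75 : CT := .l 16 8 7
  let c76 : CT := .l 5 3 3
  let c77 : CT := .l 1 8 11
  let c78 : CT := .l 18 10 9
  let c79 : CT := .l 1 3 (-1)
  let c80 : CT := .l 2 2 1
  let c81 : CT := .l 9 7 3
  let c82 : CT := .l 5 10 (-2)
  let c83 : CT := .l 7 8 1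
  let c84 : CT := .l 2 (-2) 3
  let c85 : CT := .l 1 2 2
  let c86 : CT := .l 1 0 (-1)
  let c87 : CT := .l 4 4 1
  let c88 : CT := .l 7 7 2
  let c89 : CT := .l 1 0 1
  let c90 : CT := .l 3 1 2
  let c91 : CT := .l 6 4 3
  let c92 : CT := .l 12 10 5
  let c93 : CT := .l 4 (-2) 5
  .x (.y (.x (.y c0 c0) (.y (.x (.y c1 (.x c0 (.y c1 (.x (.y c2 (.x (.y (.x c0 c2) c3) c2))
  c2)))) (.y (.x (.y c1 (.x c1 c1)) (.y (.x (.y (.x (.y c4 c5) (.y c6 (.x c7 c6))) (.x c5 (.y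
  (.x (.y c8 c5) c7) (.x c5 (.y c7 c5))))) (.y (.x (.y (.x (.y (.x c9 c8) c8) (.y c8 c10)) (.x
  (.y (.x c8 c10) c6) (.y (.x c10 c11) (.x c12 (.y c11 c9))))) (.y (.x (.y c10 (.x (.y c10 (.x
  c11 c13)) (.y (.x c13 (.y c10 (.x c13 (.y c14 c14)))) c13))) (.y (.x (.y c10 (.x (.y c10 (.x
  c10 (.y c10 (.x c10 c15)))) (.y (.x c10 (.y c10 c16)) (.x c15 c16)))) (.y (.x (.y c10 (.x c17
  (.y (.x c10 c18) c19))) (.y (.x (.y c10 (.x c20 (.y (.x c10 c21) c22))) (.y (.x (.y c10 (.x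
  c21 (.y c23 c24))) (.y (.x c23 (.y (.x c23 c24) c24)) (.x (.y c24 c25) c25))) (.x (.y (.x c21
  c25) c25) c25))) (.x (.y (.x c20 c25) c25) c25))) (.x (.y (.x c26 c25) c25) c25))) (.x (.y (.x
  (.y (.x c27 (.y (.x (.y (.x c27 c28) c27) (.y (.x c24 c25) c25)) c25)) c27) c25) c25) c25)))
  (.x (.y (.x c11 c25) c25) (.y (.x c25 c3) c3)))) (.x (.y (.x c6 (.y c25 c3)) c6) (.y (.x (.y
  c11 (.x c9 c11)) (.y (.x c3 (.y c3 c13)) (.x c11 (.y c13 c29)))) (.x (.y (.x c12 (.y c11 c29))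
  c29) c29))))) (.x (.y (.x c30 c5) (.x c31 c30)) (.y (.x (.y (.x c7 c6) c29) c29) c29)))) (.x
  (.y c1 c1) (.y (.x c29 (.y c29 c30)) (.x (.y c29 (.x c1 c32)) c32))))) (.x (.y (.x c0 (.y (.x
  c33 c33) c33)) (.x c0 (.y (.x (.y c33 (.x c0 c33)) c33) (.x (.y (.x c0 (.y (.x c0 (.y c33 (.x
  c34 (.y c33 c34)))) c35)) c35) (.y (.x (.y (.x c33 c33) (.x c35 c35)) c33) (.x c35 (.y (.x (.y
  c35 c35) c33) c36))))))) (.y (.x c2 (.y (.x (.y c32 c1) (.y (.x c32 (.y c32 (.x c32 (.y c32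
  (.x (.y c32 (.x c32 c30)) c30))))) (.x (.y (.x c32 (.y c32 (.x c37 c38))) (.x c39 (.y (.x c39
  c38) c11))) (.y (.x (.y (.x (.y c32 (.x c32 (.y c32 (.x (.y c32 c40) c40)))) c40) (.x (.y (.x
  (.y (.x (.y c32 c41) c41) (.x (.y c42 c38) c41)) c41) c11) c40)) c11) (.x c11 c11))))) (.x c1
  (.y (.x c39 (.y (.x (.y c11 c36) c36) c36)) c43)))) (.x (.y (.x (.y c2 (.x (.y c2 c33) c2))
  c2) (.x (.y (.x c33 c2) c44) c44)) (.y c43 c43)))))) (.x (.y (.x (.y c0 (.x (.y (.x (.y c0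
  c29) c29) c29) (.y c0 (.x c45 c0)))) c0) (.x (.y c44 c44) (.y (.x c44 c0) (.x (.y c44 (.x c44
  c46)) (.y (.x (.y c0 c46) c46) c46))))) (.y (.x (.y (.x c0 (.y (.x c0 c44) (.x c44 (.y c44 (.x
  c44 (.y c47 c47)))))) (.x c0 (.y (.x c0 (.y (.x c0 c48) c46)) c0))) (.y (.x (.y (.x (.y c44
  (.x c44 c48)) c48) (.x c49 c48)) (.y c46 c46)) c46)) (.x c0 (.y (.x c46 (.y c46 (.x (.y c46
  (.x c50 (.y c51 (.x c50 c51)))) (.y (.x c46 (.y c46 c5)) c52)))) (.x (.y (.x c0 (.y c50 (.x c0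
  c52))) (.x c0 c0)) (.y (.x (.y (.x c50 c52) c5) c5) (.x (.y c50 (.x (.y c5 c53) c50)) (.y (.x
  (.y c5 (.x c50 c54)) (.y c51 (.x c54 c51))) (.x (.y c55 c50) (.y (.x (.y (.x c55 (.y c56 c57))
  (.x c57 c58)) (.y c51 (.x (.y c58 (.x c58 c59)) c51))) (.x c55 (.y (.x (.y (.x c55 (.y c60
  c61)) c61) (.y c51 (.x (.y (.x c61 c51) (.x (.y c61 c62) c62)) c51))) (.x c55 (.y (.x (.y (.x
  c55 (.y c63 c63)) (.x c63 (.y (.x c63 c64) c55))) (.y c51 (.x (.y (.x c65 c51) (.x c66 c65))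
  c51))) (.x c55 (.y (.x (.y (.x c55 c67) (.x c55 c66)) (.y c51 (.x (.y c65 (.x c66 c65)) c51)))
  (.x c55 (.y (.x c66 c65) (.x c55 (.y (.x c66 c65) c66))))))))))))))))))))) (.y (.x (.y (.x (.y
  (.x (.y (.x (.y (.x (.y (.x (.y (.x (.y (.x (.y (.x (.y (.x (.y (.x (.y c24 c25) c25) c25)
  c25) c25) c25) c25) c25) c25) c25) c3) (.y c3 c3)) (.x (.y c3 (.x (.y c3 (.x c3 c68)) (.y (.x
  c3 (.y c68 (.x c68 (.y c68 c69)))) (.x (.y c69 (.x c69 c26)) (.y (.x c69 c31) c31))))) (.y (.x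
  (.y c3 (.x c68 (.y c69 (.x c69 (.y c69 c29))))) (.y (.x (.y c68 c69) (.y c69 (.x c69 c29)))
  (.x (.y (.x c69 (.y c69 c31)) c31) c31))) (.x (.y (.x (.y c69 (.x (.y c69 c31) c31)) c29) c31)
  c29)))) (.y (.x (.y (.x c3 (.y c3 c70)) (.x (.y (.x c3 c68) (.x c69 c71)) (.y (.x c71 c70)
  c71))) (.y (.x c72 c73) c72)) (.x (.y (.x (.y (.x (.y c74 c31) c31) c29) c29) c29) c29))) (.x
  (.y (.x (.y (.x (.y (.x c69 (.y c69 c31)) (.x c14 c31)) c29) c29) c29) c29) c29)) c29) (.x c29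
  (.y c32 c32))) c32) (.x (.y (.x (.y (.x c29 c32) c32) c32) (.x (.y c32 c5) c11)) (.y (.x c32
  c32) (.x (.y c11 (.x c73 c73)) c46)))) (.y c32 c46)) (.x (.y (.x (.y (.x (.y c30 (.x (.y c30
  (.x (.y c11 c36) c36)) c30)) (.y c11 c44)) (.x (.y (.x (.y (.x c36 c44) c44) c44) c44) c5))
  (.y (.x (.y c44 c46) c46) c46)) (.x (.y c43 c46) c46)) c46)) (.y c46 c46)) (.x (.y (.x (.y c46
  (.x c46 (.y c46 c5))) (.y (.x c46 c46) c5)) (.x (.y (.x (.y c2 c5) c2) (.x (.y (.x (.y c5 (.x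
  (.y c5 c54) (.y (.x c54 c56) (.x c75 (.y (.x (.y c56 (.x c75 c57)) c57) (.x (.y c57 c58)
  c58)))))) c2) (.x (.y (.x (.y c76 (.x c51 c76)) (.y (.x c76 (.y (.x c75 (.y (.x (.y c58 c59)
  c2) (.x c75 (.y (.x c60 c61) c61)))) (.x c76 (.y (.x c75 (.y c61 c62)) c75)))) (.x c76 (.y (.x
  c76 c76) c76)))) (.x (.y c51 (.x (.y c51 (.x (.y c51 (.x (.y c51 (.x (.y c51 (.x c65 c51))
  c51)) c51)) c51)) c51)) c76)) (.y (.x (.y (.x (.y c2 (.x (.y c2 (.x (.y (.x c63 c2) (.x c75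
  c2)) c2)) c2)) c2) (.x (.y (.x (.y (.x (.y (.x c75 (.y c77 c77)) c77) c2) c77) c2) (.x c77 (.y
  (.x c77 c2) c77))) c2)) c2) (.x (.y (.x (.y (.x c76 c77) c76) c78) (.x c76 c78)) c2)))) c2))
  (.y (.x (.y c5 (.x c2 c5)) c5) (.x c2 (.y (.x (.y c79 c2) c5) (.x c2 (.y (.x c2 c5) c2)))))))
  (.y (.x (.y (.x (.y c46 (.x c46 c60)) c80) (.x (.y (.x c81 (.y c81 c81)) (.x (.y c81 (.x c5
  (.y (.x c81 c81) (.x c5 (.y (.x (.y c71 (.x c5 c71)) (.y c81 c71)) (.x (.y (.x c5 c82) c83)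
  c84)))))) (.y (.x c81 (.y c81 c81)) (.x (.y c81 (.x (.y c81 c84) c81)) c81)))) (.y (.x (.y c80
  c85) c80) (.x (.y c85 c79) c80)))) (.y (.x (.y c46 (.x c80 c86)) (.y c46 c87)) (.x c80 (.y (.x
  c86 (.y (.x (.y c87 c88) c88) (.x c80 c89))) c80)))) (.x (.y (.x (.y (.x (.y (.x c5 (.y (.x c5
  c84) c90)) (.x c90 c79)) (.y (.x c87 c79) (.x c79 (.y c79 (.x c79 (.y c79 (.x c79 c88)))))))
  (.x (.y c79 c5) (.y (.x (.y c79 (.x (.y c79 c91) c91)) (.y (.x (.y (.x c79 c91) c91) c91) (.x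
  c91 (.y c91 c92)))) (.x (.y c91 (.x (.y c91 (.x c91 (.y c91 (.x c12 c93)))) c17)) (.y (.x c17
  c92) c92))))) (.y (.x (.y (.x c79 c85) (.x c92 (.y (.x c92 c85) c92))) c85) (.x (.y c92 (.x
  c92 c92)) c89))) (.x (.y (.x c5 (.y (.x (.y (.x c12 c92) c89) c89) c89)) c89) c89)) (.y c80
  c80)))))

theorem ok337 : okF 8 7 (-9) t337 = true := by decide +kernel

theorem all337 : AllA 337 := allA (D := 337) (thm_of_ok ok337)
  (l :=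
    [(51404, -5311, -36489, 3770), (2168762, 499785, 3437157, 792083),
     (-13503276, -4667687, -21400633, -7397572), (-17, 7, 12, -5), (2, -1, -1, 1),
     (-193095, 99203, 137068, -70419), (142199372, 114693035, 225364317, 181770968),
     (1, 0, 0, 1)])
  (by decide +kernel)

/-- a cover for the form `(5, 11, -11)` of discriminant `341` -/
def t341 : CT :=
  let c0 : CT := .l 1 0 0
  let c1 : CT := .l 1 1 1
  let c2 : CT := .l 2 1 0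
  let c3 : CT := .l 3 1 0
  let c4 : CT := .l 1 1 0
  let c5 : CT := .l 3 0 1
  let c6 : CT := .l 5 0 2
  let c7 : CT := .l 2 0 1
  let c8 : CT := .l 3 1 2
  let c9 : CT := .l 3 1 1
  let c10 : CT := .l 4 1 2
  let c11 : CT := .l 2 1 1
  let c12 : CT := .l 3 2 1
  let c13 : CT := .l 4 3 1
  let c14 : CT := .l 4 2 1
  let c15 : CT := .l 4 3 2
  let c16 : CT := .l 2 2 1
  let c17 : CT := .l 6 5 2
  let c18 : CT := .l 5 4 2
  let c19 : CT := .l 4 4 1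
  let c20 : CT := .l 3 3 1
  let c21 : CT := .l 6 5 3
  .x (.y (.x (.y c0 c0) (.y (.x (.y c0 (.x c0 (.y c0 c1))) (.y c2 (.x (.y c2 (.x c3 c3)) c2)))
  (.x (.y (.x c0 (.y c1 c4)) c4) (.y c4 c4)))) (.x (.y (.x (.y (.x (.y c0 c5) c0) (.x c5 (.y c5
  (.x c5 (.y c5 c6))))) c0) (.x (.y (.x c7 (.y (.x c5 (.y (.x c5 c8) c7)) c7)) c7) (.y (.x (.y
  c9 c7) (.y c0 c7)) (.x c7 (.y c7 c10))))) (.y (.x (.y (.x c9 (.y c4 c9)) c9) (.y (.x (.y (.x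
  c4 c1) c9) c1) (.x c9 (.y c1 (.x c11 c1))))) (.x (.y c0 (.x (.y c0 c10) c0)) (.y c11 c11)))))
  (.y (.x (.y (.x (.y c2 c4) c4) (.x (.y c4 (.x c4 (.y c4 c12))) (.y c4 (.x (.y c4 (.x (.y c9
  c12) c2)) (.y c4 c13))))) (.y c4 (.x (.y c4 (.x (.y c4 c13) (.y c4 (.x c13 c4)))) c4))) (.x
  (.y (.x (.y (.x (.y c9 c14) (.y c12 c12)) (.x c1 c12)) (.y (.x c12 (.y c13 c12)) c12)) (.x (.y
  (.x c11 (.y c12 c11)) c11) (.y (.x (.y c12 c11) c12) (.x c11 (.y c11 c15))))) (.y (.x (.y (.x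
  (.y c13 c13) (.y (.x c16 c12) c16)) (.x (.y (.x c12 c13) (.x c12 (.y c17 c18))) (.y c17 (.x
  (.y c17 c18) c17)))) (.y (.x (.y (.x (.y c12 c19) c19) (.x (.y c19 c16) c20)) c20) (.x c16
  c20))) (.x (.y (.x (.y c18 c18) (.y c20 (.x c18 c16))) (.x (.y (.x c15 (.y (.x c21 c21) c21))
  c15) (.y (.x (.y c18 c16) c16) c21))) (.y c16 c16)))))

theorem ok341 : okF 5 11 (-11) t341 = true := by decide +kernel

theorem all341 : AllA 341 := allA (D := 341) (thm_of_ok ok341)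
  (l :=
    [(9, 1, 26, 3), (-1, 0, -1, -1)])
  (by decide +kernel)

/-- a cover for the form `(2, 16, -11)` of discriminant `344` -/
def t344 : CT :=
  let c0 : CT := .l 1 0 0
  let c1 : CT := .l 1 1 0
  let c2 : CT := .l 6 2 1
  let c3 : CT := .l 7 3 1
  let c4 : CT := .l 1 1 1
  let c5 : CT := .l 1 2 0
  let c6 : CT := .l 4 1 1
  let c7 : CT := .l 5 2 1
  let c8 : CT := .l 4 2 1
  let c9 : CT := .l 1 0 (-1)
  let c10 : CT := .l 3 2 1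
  let c11 : CT := .l 2 (-4) 1
  let c12 : CT := .l 6 4 1
  let c13 : CT := .l 3 (-1) (-4)
  let c14 : CT := .l 4 4 3
  let c15 : CT := .l 4 3 1
  let c16 : CT := .l 6 5 1
  let c17 : CT := .l 2 2 1
  let c18 : CT := .l 1 3 0
  let c19 : CT := .l 3 0 1
  let c20 : CT := .l 2 1 1
  let c21 : CT := .l 3 1 1
  let c22 : CT := .l 2 0 1
  let c23 : CT := .l 1 (-5) 1
  let c24 : CT := .l 4 4 1
  let c25 : CT := .l 3 3 1
  let c26 : CT := .l 5 4 2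
  .y (.x (.y (.x c0 (.y c0 c1)) (.x c0 (.y (.x (.y c0 (.x c0 c2)) (.y (.x (.y c1 c3) c4) c5))
  (.x (.y c5 c6) (.y (.x c7 c4) (.x (.y c7 c8) c8)))))) (.y c1 (.x (.y (.x (.y (.x (.y c1 c5)
  c1) c5) (.y c5 (.x c5 (.y c5 (.x c5 c9))))) (.x (.y (.x (.y (.x c5 c5) (.x c8 (.y (.x c8 c10)
  c8))) (.y (.x c10 (.y c5 (.x c10 (.y c11 c10)))) c10)) c8) (.y (.x (.y (.x (.y c12 (.x (.y c11
  c6) (.y c12 c6))) c12) (.x (.y c6 (.x (.y (.x c10 (.y c6 c10)) c10) (.y (.x (.y (.x c6 (.y c6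
  c8)) c8) (.y (.x c13 c14) c8)) c8))) (.y (.x (.y c12 c15) c15) c15))) c15) (.x (.y c8 c15)
  c15)))) (.y (.x (.y c5 (.x (.y c5 c16) c16)) c1) (.x (.y (.x (.y (.x c9 c17) (.x c15 c17)) (.y
  c1 (.x c17 c16))) c15) (.y c1 (.x (.y c15 c18) c18))))))) (.x (.y (.x (.y (.x (.y c0 (.x c19
  c19)) c0) (.x (.y c19 c19) c0)) (.y (.x (.y (.x c6 c20) c21) (.y c8 (.x c21 (.y c18 c21))))
  (.x c21 (.y c21 (.x c21 c10))))) (.x (.y (.x (.y (.x c19 (.y c19 (.x c19 c10))) (.x c22 (.y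
  (.x c22 (.y c23 c22)) c22))) (.y c0 (.x (.y (.x (.y (.x c23 c0) c22) c0) c22) c0))) c22) (.y
  (.x (.y (.x c0 c21) c0) c20) (.x c0 c20)))) (.y (.x (.y (.x (.y (.x c8 c10) (.x c8 c10)) (.y
  c15 c10)) (.x (.y (.x (.y c21 c10) c10) c10) c10)) (.y (.x (.y (.x c15 c17) (.x c15 (.y c17
  c10))) (.y c24 c25)) (.x (.y (.x c10 (.y c10 c25)) (.x c25 c25)) c25))) (.x (.y (.x (.y (.x
  (.y (.x c20 c25) c20) c4) (.x c20 c4)) (.y (.x c10 c10) (.x c4 c10))) c20) (.y (.x (.y (.x c26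
  c26) (.x (.y c26 (.x c10 c26)) (.y c26 c17))) c17) (.x (.y c20 c17) c17)))))

theorem ok344 : okF 2 16 (-11) t344 = true := by decide +kernel

theorem all344 : AllA 344 := allA (D := 344) (thm_of_ok ok344)
  (l :=
    [(102, 11, -65, -7), (-1, 0, -4, -1), (-5, -3, -43, -26), (-1, -1, -8, -9)])
  (by decide +kernel)

/-- a cover for the form `(2, 17, -7)` of discriminant `345` -/
def t345 : CT :=
  let c0 : CT := .l 1 0 0
  let c1 : CT := .l 1 1 0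
  let c2 : CT := .l 6 2 1
  let c3 : CT := .l 1 2 0
  let c4 : CT := .l 1 1 2
  let c5 : CT := .l 1 3 7
  let c6 : CT := .l 2 (-4) 1
  let c7 : CT := .l 4 2 1
  let c8 : CT := .l 3 1 0
  let c9 : CT := .l 7 3 1
  let c10 : CT := .l 4 0 (-3)
  let c11 : CT := .l 42 16 9
  let c12 : CT := .l 7 3 2
  let c13 : CT := .l 9 3 1
  let c14 : CT := .l 23 10 5
  let c15 : CT := .l 8 2 (-1)
  let c16 : CT := .l 2 0 1
  let c17 : CT := .l 7 2 2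
  let c18 : CT := .l 1 3 0
  let c19 : CT := .l 1 (-3) (-8)
  let c20 : CT := .l 14 4 5
  let c21 : CT := .l 8 2 3
  let c22 : CT := .l 1 (-1) (-3)
  let c23 : CT := .l 3 2 1
  let c24 : CT := .l 41 15 13
  let c25 : CT := .l 4 4 1
  let c26 : CT := .l 3 0 (-2)
  let c27 : CT := .l 3 (-2) (-7)
  let c28 : CT := .l 3 (-8) 2
  let c29 : CT := .l 53 20 17
  let c30 : CT := .l 3 81 (-8)
  let c31 : CT := .l 7 23 0
  let c32 : CT := .l 14 (-34) 9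
  let c33 : CT := .l 1 223 566
  let c34 : CT := .l 1 (-350) (-890)
  let c35 : CT := .l 6 82 (-7)
  let c36 : CT := .l 3 250 (-27)
  let c37 : CT := .l 3 35 87
  let c38 : CT := .l 4 22 (-1)
  let c39 : CT := .l 41 14 9
  let c40 : CT := .l 59 23 20
  let c41 : CT := .l 12 (-6) (-23)
  let c42 : CT := .l 2 (-66) (-169)
  let c43 : CT := .l 1 (-975) 110
  let c44 : CT := .l 1 (-289) (-735)
  let c45 : CT := .l 17 (-33) 10
  let c46 : CT := .l 13 10 17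
  let c47 : CT := .l 13 (-55) 11
  let c48 : CT := .l 7 32 (-1)
  let c49 : CT := .l 3 2 3
  let c50 : CT := .l 14 (-16) 7
  let c51 : CT := .l 1 30 (-3)
  let c52 : CT := .l 3 10 0
  let c53 : CT := .l 13 8 4
  let c54 : CT := .l 1 (-50) 6
  let c55 : CT := .l 2 (-2) 1
  let c56 : CT := .l 14 6 5
  let c57 : CT := .l 1 0 (-1)
  let c58 : CT := .l 1 (-14) 2
  let c59 : CT := .l 6 2 3
  let c60 : CT := .l 1 (-5) 1
  let c61 : CT := .l 13 5 5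
  let c62 : CT := .l 1 4 0
  let c63 : CT := .l 1 13 (-1)
  let c64 : CT := .l 26 10 11
  let c65 : CT := .l 4 (-10) 3
  let c66 : CT := .l 21 10 8
  let c67 : CT := .l 3 4 8
  let c68 : CT := .l 12 6 5
  let c69 : CT := .l 1 (-4) 1
  let c70 : CT := .l 7 4 5
  let c71 : CT := .l 11 7 5
  let c72 : CT := .l 4 4 7
  let c73 : CT := .l 1 29 (-3)
  let c74 : CT := .l 3 7 0
  let c75 : CT := .l 3 5 9
  let c76 : CT := .l 18 10 3
  let c77 : CT := .l 1 1 1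
  let c78 : CT := .l 3 2 0
  let c79 : CT := .l 3 (-1) 1
  let c80 : CT := .l 22 18 5
  let c81 : CT := .l 13 11 3
  let c82 : CT := .l 1 2 4
  let c83 : CT := .l 47 28 19
  let c84 : CT := .l 4 8 1
  let c85 : CT := .l 3 (-5) 2
  let c86 : CT := .l 36 22 15
  let c87 : CT := .l 39 24 16
  let c88 : CT := .l 13 7 6
  let c89 : CT := .l 1 5 0
  let c90 : CT := .l 6 4 3
  let c91 : CT := .l 9 6 4
  let c92 : CT := .l 3 3 2
  let c93 : CT := .l 2 2 1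
  let c94 : CT := .l 3 3 1
  let c95 : CT := .l 13 11 5
  .x (.y (.x c0 (.y (.x (.y c0 c0) c1) (.x (.y (.x c0 (.y (.x c0 (.y c1 c2)) c2)) (.x (.y c3 (.x
  c0 c4)) (.y (.x (.y c3 (.x c3 c2)) c2) (.x (.y (.x c4 (.y (.x c5 c2) (.x (.y c5 (.x c4 c5))
  (.y c2 c5)))) (.x c4 (.y c6 (.x c4 c5)))) (.y c2 (.x (.y c2 (.x (.y (.x c5 c2) c7) c2))
  c2)))))) (.y (.x (.y (.x c8 c9) c3) (.y (.x c9 (.y c9 c3)) c3)) (.x (.y (.x (.y c3 (.x (.y c3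
  (.x (.y c3 (.x c2 c10)) (.y c11 (.x c11 c12)))) c12)) (.y c3 c8)) (.x (.y (.x (.y (.x (.y (.x
  c2 (.y c11 (.x c13 c11))) c13) (.y (.x c11 (.y c12 c14)) (.x (.y c14 c10) (.y (.x c14 c12) (.x
  c15 c12))))) (.x (.y c13 c6) c6)) (.y c12 c12)) (.x (.y (.x (.y (.x c2 c13) c7) c7) c7) c12))
  (.y c8 c7))) c7))))) (.x (.y (.x (.y c0 (.x c0 c0)) c0) (.x (.y (.x c16 c0) c16) c0)) (.y (.x
  (.y (.x (.y (.x c0 (.y (.x c17 c4) c17)) (.x c17 c17)) (.y (.x (.y (.x c4 c7) c17) c7) (.x c4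
  c18))) (.x (.y (.x c0 (.y c17 (.x (.y (.x (.y c17 (.x c19 c17)) c17) (.x c20 c17)) c17))) (.x
  c0 (.y (.x c20 (.y c17 c20)) c21))) (.y (.x (.y c4 (.x (.y (.x c17 c4) c22) c4)) (.y (.x c4
  (.y (.x c4 c5) (.x c4 c5))) (.x c4 (.y (.x c4 (.y (.x c4 c5) c4)) c4)))) (.x (.y (.x c22 c4)
  c23) c4)))) (.y (.x (.y c7 (.x (.y c18 (.x c18 c12)) c12)) (.y c7 (.x c12 c7))) (.x (.y (.x
  (.y (.x (.y (.x (.y (.x (.y c18 c24) (.y c18 c24)) c25) c26) (.x (.y c25 (.x c5 (.y (.x c27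
  (.y c28 (.x c29 (.y c29 (.x c29 (.y c29 (.x c29 (.y c29 c30)))))))) (.x c29 (.y (.x c29 (.y
  c31 (.x c29 (.y (.x c29 (.y c31 (.x c29 (.y (.x c32 (.y c32 c33)) (.x (.y c34 c34) c33)))))
  (.x c29 (.y c35 (.x c29 (.y c35 (.x (.y c36 c37) c37))))))))) (.x c29 (.y (.x c29 (.y (.x c29
  c37) (.x c29 (.y (.x c29 c37) (.x c29 c37))))) (.x c29 (.y (.x c29 (.y (.x c29 c37) c27))
  c27))))))))) (.y (.x c25 c26) (.x (.y (.x (.y c28 (.x (.y c38 (.x (.y c38 (.x (.y (.x (.y c38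
  c30) (.y c38 c30)) c31) (.y (.x (.y c38 c30) c39) c31))) (.y c38 c30))) c40)) c26) (.x (.y (.x
  (.y c31 (.x (.y (.x (.y c32 (.x (.y (.x (.y c32 c41) c41) c41) c41)) (.y c32 (.x (.y (.x (.y
  c42 c42) c42) c42) (.y (.x (.y c43 c43) c43) c35)))) (.x (.y c35 (.x c33 c41)) (.y c35 c42)))
  (.y (.x (.y (.x (.y c32 (.x (.y c32 c44) (.y c32 c44))) c39) (.x (.y c43 c35) c45)) c39) (.x
  (.y (.x c35 (.y c35 c36)) (.x (.y (.x (.y c36 c46) c46) c46) c46)) c39)))) (.y c40 (.x (.y (.x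
  (.y c40 c35) c40) (.x (.y (.x c39 c40) c39) c40)) c40))) (.x (.y (.x (.y (.x (.y (.x (.y (.x
  c34 c33) (.x c34 c33)) c41) (.x (.y (.x c37 (.y c33 c34)) c47) (.y (.x c33 c41) c47))) (.y (.x
  c41 c46) (.x c41 c46))) (.x (.y (.x c37 (.y c33 (.x c34 c33))) (.x c37 (.y (.x c34 c33) (.x
  c37 c33)))) (.y c41 (.x (.y c41 (.x c33 c41)) c41)))) (.y (.x c46 (.y (.x c46 c39) (.x c46
  c39))) (.x c46 (.y (.x c46 (.y c39 (.x c46 c39))) c46)))) (.x (.y (.x (.y (.x c37 (.y (.x c37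
  c34) c37)) c37) (.y (.x c33 c41) (.x (.y (.x c34 c33) (.x c34 c33)) c41))) c48) (.y (.x (.y
  c46 (.x c41 c46)) c46) c48))) (.y (.x (.y (.x c39 c40) (.x c39 c40)) c40) (.x (.y (.x (.y c39
  c48) c39) c48) c40)))) (.y (.x c40 c26) (.x c40 c26)))) c26)))) (.y (.x c2 c25) (.x c2 c49)))
  (.x (.y (.x (.y (.x c5 (.y (.x c5 c27) c5)) c5) (.y (.x (.y (.x (.y (.x (.y (.x (.y (.x (.y
  c48 (.x c27 c37)) (.y c48 c50)) (.x c27 c37)) (.y (.x (.y c48 c50) c46) c51)) c51) (.y (.x (.y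
  (.x c46 c39) c51) (.y c50 c51)) c51)) c51) (.y c40 c51)) c52) (.y c51 c52)) (.x (.y (.x (.y
  c52 c27) (.y c52 c53)) (.x c27 (.y c54 c55))) (.y c53 c40)))) c55) (.y (.x (.y c2 c26) c49)
  c55))) (.y (.x (.y c25 (.x (.y (.x (.y c28 (.x c49 c56)) c56) (.x (.y (.x c49 c56) c51) c56))
  (.y c12 c56))) c12) (.x (.y (.x (.y (.x c49 c56) (.x c49 c56)) c56) c55) (.y (.x (.y c12 c56)
  c12) c55)))) (.x (.y (.x (.y c55 c23) c23) c23) c23)) (.y (.x (.y (.x c12 c8) (.x c12 c55))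
  (.y (.x (.y (.x (.y (.x c12 c7) c8) c7) (.x c8 (.y (.x (.y c52 c53) c23) c23))) c57) c23))
  c23)))) (.x (.y (.x (.y (.x c21 (.y (.x (.y c23 c23) (.y c23 (.x c19 (.y c23 (.x (.y c23 c58)
  (.y c23 c58)))))) (.x (.y c59 c60) (.y (.x c20 (.y c61 c60)) c60)))) (.x c0 (.y c62 (.x (.y
  c62 c16) c59)))) (.y (.x (.y (.x (.y c23 (.x (.y c23 (.x (.y c23 c61) c58)) c22)) c22) (.x (.y
  (.x (.y c61 c60) c17) c60) c22)) c4) (.x (.y c62 (.x (.y (.x c59 (.y c62 c16)) c16) (.y (.x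
  (.y c62 c16) c22) c16))) (.y c62 (.x c22 c4))))) (.x c16 (.y c16 (.x c59 c59)))) (.y (.x (.y
  (.x (.y c61 (.x c4 (.y c61 c62))) (.y (.x (.y c61 c60) (.y c61 c60)) c62)) (.x c4 (.y (.x (.y
  c62 (.x c5 (.y c63 (.x (.y c64 c5) (.y c64 (.x (.y c64 c65) (.y c64 c65))))))) (.y c62 (.x (.y
  c26 (.x (.y c64 (.x (.y (.x c64 c26) c65) c26)) c26)) c49))) (.x (.y (.x c5 (.y (.x c16 c16)
  c16)) c16) c16)))) (.y (.x (.y (.x (.y c23 c60) (.y c23 c60)) c62) (.y (.x c66 c60) c62)) (.x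
  (.y (.x (.y (.x c62 (.y c62 c63)) (.x c49 (.y (.x (.y c67 c68) c56) c68))) (.y (.x (.y c62
  c63) (.y c63 (.x (.y c63 c68) c68))) c68)) c16) (.y (.x (.y c68 c68) c68) c16)))) (.x (.y c16
  (.x c4 (.y (.x c16 (.y c16 c59)) c59))) (.y c16 (.x (.y (.x (.y c16 c59) c49) (.x (.y c59 c69)
  (.y c59 c69))) (.y (.x (.y (.x (.y c16 (.x (.y c16 c67) (.y c16 c59))) (.y c16 (.x c70 (.y (.x
  c10 (.y c16 c59)) c59)))) c59) (.y (.x (.y c71 (.x (.y (.x (.y c71 c59) (.y c71 c59)) c59) (.y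
  (.x (.y c71 c59) (.y c71 c59)) c59))) (.y c71 (.x (.y (.x (.y (.x c71 c71) c59) (.y (.x (.y
  c71 c59) c72) c59)) c59) (.y (.x c72 c59) c59)))) c59)) (.x (.y c59 c69) c69)))))))))) (.y (.x
  (.y c1 (.x (.y (.x (.y (.x (.y c9 c3) c1) c3) c3) (.x (.y (.x c7 (.y (.x (.y c3 c7) (.y c3 (.x
  (.y c3 c7) (.y (.x (.y c3 c73) (.y c3 c73)) (.x c7 (.y c74 c7)))))) c7)) c7) (.y (.x (.y (.x
  (.y c3 (.x (.y (.x (.y c3 c74) c74) (.x (.y c74 (.x c7 c75)) c76)) (.y c74 (.x (.y c74 (.x c76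
  c53)) c23)))) c23) (.x (.y (.x c7 (.y (.x (.y c76 c76) c23) c7)) c7) c23)) c23) c7))) (.y (.x
  c77 (.y c3 (.x c77 c1))) (.x (.y (.x (.y c77 c77) c77) (.x c23 c77)) (.y (.x c77 (.y c78 c77))
  c77))))) (.y c1 (.x (.y c1 (.x (.y (.x (.y (.x c78 c1) (.x c78 (.y (.x c78 (.y c1 c79)) c7)))
  (.y c1 (.x (.y c79 c7) (.y c1 c7)))) (.x (.y (.x c78 (.y c7 c78)) c78) (.y (.x (.y c7 c18) (.y
  (.x c7 c80) c18)) c18))) (.y c1 (.x (.y (.x c80 c81) c18) c18)))) c1))) (.x (.y (.x (.y (.x c7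
  (.y (.x (.y c7 c23) c23) c23)) (.x (.y (.x c57 c23) c23) c23)) (.y (.x c23 c77) c23)) (.x (.y
  (.x (.y (.x (.y (.x (.y c60 c62) c57) (.x c62 c57)) c57) (.x (.y c68 c16) c57)) (.y (.x (.y
  c62 (.x c57 c82)) (.y c62 (.x (.y c23 (.x (.y c23 c83) c23)) c23))) (.x (.y (.x c57 c82) c57)
  (.y (.x (.y (.x (.y (.x c83 (.y c83 c83)) c82) (.y (.x (.y c68 (.x (.y c84 c85) c86)) c86) (.x
  (.y c85 c16) c86))) c16) (.y (.x c87 c71) c16)) c16)))) (.x (.y (.x (.y c16 (.x (.y c16 c88)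
  c88)) (.y c16 c88)) (.x (.y (.x (.y (.x (.y c88 c59) (.y c88 c59)) c59) (.y (.x c8 c88) c59))
  c69) (.y (.x (.y c88 (.x (.y c88 c69) c88)) (.y c57 (.x c88 c69))) (.x c69 (.y c69 c89)))))
  (.y (.x c57 (.y (.x c82 c71) (.x (.y c82 c57) c71))) (.x c57 (.y (.x c57 c82) c89))))) (.y (.x
  (.y c23 (.x (.y (.x c90 c23) c16) c23)) c23) (.x (.y (.x c71 c91) c90) (.y c23 (.x (.y c23
  c90) c77)))))) (.y (.x (.y (.x (.y (.x (.y c78 c77) (.y c18 c25)) c23) (.y (.x (.y c18 c25)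
  c25) (.x (.y (.x c23 (.y (.x (.y c25 c23) c92) c55)) c23) (.y (.x c92 c93) c23)))) (.x (.y c23
  c77) (.y (.x c23 c94) c94))) (.y (.x c93 c94) c94)) (.x (.y (.x c77 (.y (.x (.y (.x c78 c95)
  c77) (.y c95 c16)) (.x c77 c93))) (.x c77 c77)) c93))))

theorem ok345 : okF 2 17 (-7) t345 = true := by decide +kernel

theorem all345 : AllB 345 := allB (D := 345) (thm_of_ok ok345)
  (l :=
    [(-1, 0, -4, -1), (-18, 5, 7, -2), (1, 1, -1, 0), (-3, 2, 1, -1)])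
  (l' :=
    [(1, 0), (2, 1), (-19, -14), (61, 47)])
  (by decide +kernel)

/-- a cover for the form `(2, 18, -3)` of discriminant `348` -/
def t348 : CT :=
  let c0 : CT := .l 1 0 0
  let c1 : CT := .l 4 1 1
  let c2 : CT := .l 1 1 0
  let c3 : CT := .l 7 2 1
  let c4 : CT := .l 6 2 1
  let c5 : CT := .l 3 1 0
  let c6 : CT := .l 3 1 1
  let c7 : CT := .l 5 2 1
  let c8 : CT := .l 7 3 1
  let c9 : CT := .l 4 2 1
  let c10 : CT := .l 1 2 0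
  let c11 : CT := .l 1 0 (-1)
  let c12 : CT := .l 5 1 2
  let c13 : CT := .l 2 0 1
  let c14 : CT := .l 2 1 1
  let c15 : CT := .l 2 (-1) 1
  let c16 : CT := .l 3 1 2
  let c17 : CT := .l 5 3 1
  let c18 : CT := .l 6 4 1
  let c19 : CT := .l 3 2 1
  let c20 : CT := .l 1 1 2
  let c21 : CT := .l 4 3 1
  let c22 : CT := .l 5 4 1
  let c23 : CT := .l 1 3 0
  let c24 : CT := .l 1 (-6) 1
  let c25 : CT := .l 5 3 2
  let c26 : CT := .l 7 5 3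
  let c27 : CT := .l 1 1 1
  let c28 : CT := .l 5 4 2
  let c29 : CT := .l 1 4 0
  let c30 : CT := .l 2 2 1
  .x (.y (.x (.y c0 (.x c0 (.y c0 (.x c0 (.y c0 c1))))) (.y (.x (.y c0 c2) c2) (.x (.y (.x (.y
  c3 (.x (.y c3 c1) c3)) (.y (.x c4 c5) c4)) (.x (.y (.x c1 c6) c1) (.y c7 c1))) (.y (.x (.y (.x
  c7 c8) c7) (.y (.x c8 c9) c10)) (.x c7 (.y (.x c7 c9) c9)))))) (.x (.y (.x c0 (.y (.x c0 (.y
  c1 c11)) (.x c0 c11))) (.x c0 (.y (.x c0 (.y c12 c12)) c13))) (.y (.x (.y (.x (.y c1 c6) c6)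
  c6) (.y (.x (.y c9 c6) c14) (.x c6 c14))) (.x (.y (.x (.y (.x c12 c12) (.x (.y c15 (.x c11
  c1)) c16)) c6) (.x c13 (.y c13 c14))) (.y (.x (.y (.x c6 c14) c14) c14) c14))))) (.y (.x (.y
  c2 (.x (.y (.x (.y c2 c10) (.y c10 c10)) (.x (.y (.x c9 c17) c9) (.y c17 c9))) (.y (.x (.y c10
  c18) c2) (.x (.y (.x c17 c18) c19) (.y (.x c20 c21) c21))))) (.y c2 (.x (.y c2 (.x (.y c22
  c21) c2)) c2))) (.x (.y (.x (.y (.x (.y c9 (.x c9 (.y c9 c6))) (.y (.x c23 c23) (.x (.y (.x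
  (.y c24 c19) c19) c19) c19))) (.x (.y (.x c14 c19) c19) c19)) (.y (.x c19 (.y c21 c19)) c19))
  (.x (.y (.x c14 c25) c14) (.y (.x (.y c25 (.x c19 c19)) (.y c19 c26)) c14))) (.y (.x (.y (.x
  (.y c21 c19) (.y c27 c27)) (.x (.y c19 (.x c21 c28)) (.y (.x c19 c27) (.x (.y c29 c28) c27))))
  (.y c2 (.x c27 c2))) (.x (.y (.x c28 (.y c28 (.x c28 c27))) (.x c14 (.y c14 c30))) (.y (.x c27
  c30) c30)))))

theorem ok348 : okF 2 18 (-3) t348 = true := by decide +kernel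

theorem all348 : AllB 348 := allB (D := 348) (thm_of_ok ok348)
  (l :=
    [(-1, 0, -4, -1), (3, 1, -1, 0)])
  (l' :=
    [(1, 0), (-1, -1)])
  (by decide +kernel)

/-- a cover for the form `(9, 5, -9)` of discriminant `349` -/
def t349 : CT :=
  let c0 : CT := .l 1 0 0
  let c1 : CT := .l 1 (-1) (-1)
  let c2 : CT := .l 2 0 1
  let c3 : CT := .l 4 0 1
  let c4 : CT := .l 3 1 1
  let c5 : CT := .l 2 (-1) 2
  let c6 : CT := .l 3 1 2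
  let c7 : CT := .l 4 1 2
  let c8 : CT := .l 1 (-1) 1
  let c9 : CT := .l 1 3 (-2)
  let c10 : CT := .l 1 (-2) (-3)
  let c11 : CT := .l 2 1 0
  let c12 : CT := .l 6 2 1
  let c13 : CT := .l 1 1 1
  let c14 : CT := .l 4 1 1
  let c15 : CT := .l 1 2 (-1)
  let c16 : CT := .l 4 2 1
  let c17 : CT := .l 2 1 1
  let c18 : CT := .l 2 0 (-1)
  let c19 : CT := .l 3 2 1
  let c20 : CT := .l 1 1 0
  let c21 : CT := .l 4 3 0
  let c22 : CT := .l 1 0 1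
  let c23 : CT := .l 4 3 1
  let c24 : CT := .l 6 5 2
  let c25 : CT := .l 4 3 2
  let c26 : CT := .l 2 2 1
  let c27 : CT := .l 1 2 2
  let c28 : CT := .l 5 5 2
  let c29 : CT := .l 1 3 3
  let c30 : CT := .l 1 0 (-1)
  .x (.x (.y (.x c0 c0) (.x (.y (.x (.y c0 (.x (.y c1 c2) (.y c3 c2))) (.y c0 (.x (.y c0 c2) (.y
  c0 c2)))) (.x c2 c2)) (.y c0 (.x (.y c2 (.x c2 (.y c4 (.x (.y c4 c5) (.y c6 c7))))) (.y (.x
  (.y c0 c7) c4) (.x c7 c7)))))) (.y (.x (.y (.x (.y c0 c0) (.y (.x (.y (.x (.y c0 c8) (.y c8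
  c9)) (.x (.y c9 c10) c11)) c11) c11)) (.x (.y c0 c0) (.y (.x c12 c13) (.x (.y c14 (.x c14 c2))
  (.y c13 c2))))) (.y (.x c11 c11) (.x (.y (.x (.y c11 c13) (.y c11 (.x c13 c2))) c13) (.y (.x
  (.y c11 c15) (.y c11 (.x (.y c15 c16) (.y c15 c16)))) (.x c16 c16))))) (.x (.y (.x c0 c4) (.x
  (.y c0 (.x c7 c7)) c0)) (.y (.x (.y c4 c17) (.y c13 (.x (.y c13 c17) c13))) (.x c17 c17)))))
  (.x (.y (.x (.y (.x c11 c11) (.x (.y (.x (.y c11 (.x (.y c18 c16) (.y c19 c16))) (.y c11 c19))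
  (.x c16 c16)) (.y c11 (.x c19 c20)))) (.y (.x (.y (.x (.y c11 c11) (.y c15 c21)) (.x (.y c11
  c11) c20)) c20) c20)) (.x (.y (.x (.y (.x c16 c20) c20) c20) (.x c17 c17)) (.y (.x c19 (.y c20
  c19)) (.x (.y c17 (.x c17 c22)) (.y c19 c22))))) (.y (.x c20 c20) (.x (.y (.x (.y c20 (.x (.y
  (.x c20 (.y c20 c11)) c11) (.y c23 c22))) (.y c20 (.x c24 c22))) (.x (.y c22 (.x c25 c25)) (.y
  (.x (.y c22 (.x c22 (.y c22 c25))) (.y c26 c26)) (.x (.y c25 (.x c25 c27)) (.y c26 c26)))))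
  (.y (.x (.y c20 c26) (.y c20 (.x (.y (.x c28 (.y c29 c28)) c26) (.y (.x (.y c30 c29) c30)
  c28)))) (.x c26 c26)))))

theorem ok349 : okF 9 5 (-9) t349 = true := by decide +kernel

theorem all349 : AllA 349 := allA (D := 349) (thm_of_ok ok349)
  (l :=
    [(-168, -19, -221, -25), (1055, 358, 1388, 471), (-6073, 2801, 4616, -2129), (1, 0, 0, 1)])
  (by decide +kernel)

/-- a cover for the form `(4, 17, -4)` of discriminant `353` -/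
def t353 : CT :=
  let c0 : CT := .l 1 0 0
  let c1 : CT := .l 4 1 1
  let c2 : CT := .l 1 (-1) (-4)
  let c3 : CT := .l 3 1 1
  let c4 : CT := .l 1 2 0
  let c5 : CT := .l 1 (-1) (-5)
  let c6 : CT := .l 3 2 1
  let c7 : CT := .l 12 3 5
  let c8 : CT := .l 1 1 4
  let c9 : CT := .l 6 1 3
  let c10 : CT := .l 2 (-9) 3
  let c11 : CT := .l 6 1 1
  let c12 : CT := .l 5 0 (-3)
  let c13 : CT := .l 17 3 8
  let c14 : CT := .l 3 (-2) 2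
  let c15 : CT := .l 9 1 (-1)
  let c16 : CT := .l 20 5 9
  let c17 : CT := .l 15 4 7
  let c18 : CT := .l 1 (-2) 1
  let c19 : CT := .l 3 1 0
  let c20 : CT := .l 1 1 0
  let c21 : CT := .l 5 2 1
  let c22 : CT := .l 5 2 0
  let c23 : CT := .l 1 0 (-2)
  let c24 : CT := .l 9 4 0
  let c25 : CT := .l 1 5 (-1)
  let c26 : CT := .l 2 1 1
  let c27 : CT := .l 3 1 2
  let c28 : CT := .l 1 0 (-1)
  let c29 : CT := .l 6 3 1
  let c30 : CT := .l 1 (-3) 1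
  let c31 : CT := .l 3 2 2
  let c32 : CT := .l 1 6 (-1)
  let c33 : CT := .l 3 1 (-2)
  let c34 : CT := .l 17 9 3
  let c35 : CT := .l 1 15 (-3)
  let c36 : CT := .l 6 5 1
  let c37 : CT := .l 20 11 5
  let c38 : CT := .l 5 8 0
  let c39 : CT := .l 4 (-7) 3
  let c40 : CT := .l 12 7 3
  let c41 : CT := .l 1 1 2
  let c42 : CT := .l 4 3 1
  let c43 : CT := .l 15 8 4
  let c44 : CT := .l 3 3 1
  let c45 : CT := .l 1 3 0
  let c46 : CT := .l 1 1 1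
  let c47 : CT := .l 5 4 2
  let c48 : CT := .l 1 0 (-3)
  let c49 : CT := .l 5 5 2
  let c50 : CT := .l 1 2 5
  .x (.x (.y (.x c0 (.y c0 (.x c0 (.y c0 (.x c0 c1))))) (.x (.y c0 (.x (.y c0 (.x (.y c0 (.x (.y
  c0 (.x c2 c0)) c0)) c0)) c0)) (.y (.x c0 (.y (.x c0 c1) (.x (.y c0 c3) c3))) (.x c0 (.y (.x
  (.y (.x c0 c4) (.x c0 (.y c4 (.x c0 c5)))) (.y c4 (.x (.y c4 c6) c7))) (.x (.y (.x c0 (.y (.x
  c0 c5) c8)) c9) (.y (.x (.y (.x (.y (.x c6 (.y c6 (.x c6 c10))) c5) (.y (.x c11 (.y c6 (.x c11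
  c12))) (.x c11 (.y (.x c11 (.y c12 c11)) c11)))) (.x c5 (.y (.x (.y c11 c13) c11) c14))) (.y
  (.x (.y (.x (.y c6 (.x (.y c10 (.x c15 c16)) c16)) (.y c16 c16)) c16) c16) (.x (.y (.x c16
  c16) c14) (.y c16 (.x c14 c17))))) (.x c9 (.y c9 c18))))))))) (.y (.x (.y (.x (.y c0 (.x c0
  (.y c0 c0))) (.y c0 (.x c19 c19))) (.x (.y c20 (.x c1 c3)) (.y c20 (.x (.y c20 c3) (.y c20 (.x
  c3 c21)))))) (.y (.x (.y (.x c19 c22) c20) (.y (.x c23 (.y (.x (.y (.x c24 c25) c20) (.y c25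
  c20)) c20)) c20)) (.x (.y c20 c21) (.y c20 (.x c26 (.y (.x (.y c23 (.x c26 c23)) c23) (.x c26
  c23))))))) (.x (.y (.x (.y (.x c1 c3) c3) c3) (.x (.y (.x (.y c4 (.x c7 c27)) (.y c4 (.x c27
  c3))) (.x (.y (.x (.y (.x c16 c17) (.x c16 c17)) c27) (.x (.y c9 c18) c27)) (.y (.x c27 c28)
  c27))) (.y c3 (.x c28 c3)))) (.y (.x (.y (.x (.y (.x c19 c21) c3) c26) (.x c3 c26)) (.y (.x
  c26 (.y (.x c26 (.y c23 c26)) c26)) c26)) (.x (.y (.x (.y c3 c26) c26) c26) c26))))) (.x (.y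
  (.x (.y (.x (.y (.x (.y (.x (.y (.x c25 c20) c20) c20) c20) c20) c20) c20) (.x (.y c20 (.x (.y
  c29 (.x c23 c29)) (.y (.x (.y c20 c30) (.y c20 (.x c30 c31))) (.x (.y (.x (.y c32 c33) (.y c32
  (.x (.y c34 c35) c36))) (.x (.y c33 (.x c29 c33)) (.y (.x (.y c37 c37) c37) c37))) (.y (.x (.y
  c32 (.x c36 (.y c36 (.x c37 (.y c36 c38))))) (.y (.x (.y c32 (.x c32 c31)) c31) (.x (.y c36
  (.x (.y c36 c38) c31)) c31))) (.x c37 (.y (.x (.y (.x (.y (.x c37 (.y c39 c37)) c37) (.y (.x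
  (.y c39 (.x c37 c31)) c31) c37)) c37) c31) c37))))))) (.y c20 (.x (.y (.x (.y c20 (.x c31
  c40)) c41) (.x c31 (.y c41 c40))) (.y (.x c41 c6) c41))))) (.y c20 (.x (.y c20 (.x c6 (.y c20
  c6))) (.y c20 (.x (.y c20 c42) c42))))) (.x (.y (.x (.y (.x (.y (.x c23 c29) c23) (.y (.x (.y
  (.x c43 c43) c43) (.y (.x c40 c40) c3)) (.x c3 (.y c42 c4)))) (.x c26 (.y c4 c6))) (.y (.x (.y
  (.x (.y c40 c3) (.y c40 c3)) (.x (.y c42 c6) c31)) c41) c6)) (.x c26 (.y (.x c26 (.y c6 c31))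
  c26))) (.y (.x c6 (.y (.x c6 c42) c6)) (.x (.y (.x c41 c6) c26) (.y (.x c6 (.y (.x c18 c44)
  c26)) (.x c26 (.y c26 (.x c26 (.y c26 c45))))))))) (.y (.x (.y c20 (.x (.y c20 (.x c42 c20))
  c20)) c20) (.x (.y (.x (.y (.x c42 c46) (.x (.y c42 (.x c6 c42)) c46)) c46) (.x (.y c47 (.x
  (.y c26 (.x (.y c26 c45) (.y c26 c45))) (.y c26 (.x (.y (.x c48 c46) c45) c46)))) c46)) (.y
  (.x (.y (.x c20 c20) (.x c46 c44)) c44) (.x c46 (.y (.x (.y c44 c49) c49) (.x c46 (.y c45 (.x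
  c46 (.y (.x c50 c49) c50))))))))))

theorem ok353 : okF 4 17 (-4) t353 = true := by decide +kernel

theorem all353 : AllA 353 := allA (D := 353) (thm_of_ok ok353)
  (l :=
    [(-169, -19, -756, -85), (9, 2, 40, 9), (-1, 0, -2, -1), (5, -4, -1, 1)])
  (by decide +kernel)

/-- a cover for the form `(7, 7, -11)` of discriminant `357` -/
def t357 : CT :=
  let c0 : CT := .l 1 0 0
  let c1 : CT := .l 3 1 0
  let c2 : CT := .l 2 1 0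
  let c3 : CT := .l 5 2 1
  let c4 : CT := .l 6 2 1
  let c5 : CT := .l 1 1 1
  let c6 : CT := .l 3 2 0
  let c7 : CT := .l 1 2 2
  let c8 : CT := .l 6 3 1
  let c9 : CT := .l 1 (-1) 1
  let c10 : CT := .l 1 1 0
  let c11 : CT := .l 3 0 1
  let c12 : CT := .l 8 1 3
  let c13 : CT := .l 1 (-1) (-1)
  let c14 : CT := .l 2 0 1
  let c15 : CT := .l 4 1 2
  let c16 : CT := .l 2 1 1
  let c17 : CT := .l 5 3 2
  let c18 : CT := .l 6 3 2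
  let c19 : CT := .l 3 2 1
  let c20 : CT := .l 7 5 3
  let c21 : CT := .l 6 4 3
  let c22 : CT := .l 4 3 2
  let c23 : CT := .l 4 3 1
  let c24 : CT := .l 2 2 1
  let c25 : CT := .l 5 4 1
  let c26 : CT := .l 3 3 1
  let c27 : CT := .l 5 4 2
  let c28 : CT := .l 6 5 3
  .x (.y (.x (.y c0 c0) (.y (.x (.y c1 (.x c0 c2)) (.y c2 (.x c2 c2))) (.x (.y (.x c0 (.y (.x c0
  (.y c2 c3)) c4)) (.x c0 c5)) (.y (.x (.y (.x (.y c4 c6) (.y c6 c7)) c3) (.y (.x c1 c8) (.x c3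
  c8))) (.x (.y c3 (.x c3 c3)) (.y c9 c10)))))) (.x (.y (.x (.y (.x c11 c0) (.x c11 (.y (.x c11
  (.y c11 (.x c11 c0))) (.x c11 (.y c12 c12))))) (.y c0 (.x (.y c0 (.x (.y c13 c12) c9)) c0)))
  (.x (.y (.x c14 c14) c14) (.y (.x c14 c10) (.x (.y c14 c10) (.y c10 c15))))) (.y (.x (.y (.x
  c0 c0) c0) (.y c10 (.x c10 (.y c10 c5)))) (.x (.y c0 (.x (.y (.x c15 c15) c15) c0)) (.y c16
  c16))))) (.y (.x (.y (.x (.y c2 c2) (.y c6 c10)) (.x (.y (.x (.y (.x c8 c10) c10) c10) c10)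
  c10)) (.y c10 (.x c10 c10))) (.x (.y (.x (.y c10 (.x (.y (.x c10 (.y c10 c17)) (.x c18 (.y c17
  c19))) c19)) (.y (.x c19 (.y c19 c19)) c19)) (.x (.y (.x c16 c17) c16) (.y (.x c16 (.y c19
  c20)) (.x (.y c16 c21) (.y c22 c22))))) (.y (.x (.y (.x (.y c19 c23) (.y (.x c24 (.y c10 c25))
  c24)) (.x (.y (.x c19 c16) c16) (.y c24 (.x c24 c24)))) (.y (.x (.y (.x (.y c10 c16) c10) (.x
  c16 c26)) c26) (.x (.y (.x c24 c26) c26) c26))) (.x (.y (.x (.y c27 c27) (.y (.x c27 c24) (.x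
  c27 c26))) (.x (.y (.x c22 c22) c22) (.y (.x c22 c24) c28))) (.y c24 c24)))))

theorem ok357 : okF 7 7 (-11) t357 = true := by decide +kernel

theorem all357 : AllB 357 := allB (D := 357) (thm_of_ok ok357)
  (l :=
    [(4, -1, -3, 1), (1, 0, 0, 1)])
  (l' :=
    [(1, 0)])
  (by decide +kernel)

/-- a cover for the form `(2, 18, -5)` of discriminant `364` -/
def t364 : CT :=
  let c0 : CT := .l 1 0 0
  let c1 : CT := .l 1 1 0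
  let c2 : CT := .l 1 0 (-1)
  let c3 : CT := .l 3 1 0
  let c4 : CT := .l 1 2 0
  let c5 : CT := .l 4 1 1
  let c6 : CT := .l 5 2 1
  let c7 : CT := .l 6 3 1
  let c8 : CT := .l 4 2 1
  let c9 : CT := .l 9 2 3
  let c10 : CT := .l 2 (-2) 1
  let c11 : CT := .l 2 0 1
  let c12 : CT := .l 8 2 3
  let c13 : CT := .l 2 (-1) 1
  let c14 : CT := .l 7 2 3
  let c15 : CT := .l 3 0 1
  let c16 : CT := .l 23 7 7
  let c17 : CT := .l 2 (-21) 3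
  let c18 : CT := .l 8 2 1
  let c19 : CT := .l 1 22 (-2)
  let c20 : CT := .l 5 (-1) 2
  let c21 : CT := .l 9 3 4
  let c22 : CT := .l 1 (-6) 1
  let c23 : CT := .l 10 6 3
  let c24 : CT := .l 2 16 (-1)
  let c25 : CT := .l 6 0 (-5)
  let c26 : CT := .l 8 1 (-3)
  let c27 : CT := .l 14 20 3
  let c28 : CT := .l 23 9 14
  let c29 : CT := .l 8 (-19) 5
  let c30 : CT := .l 1 (-20) (-75)
  let c31 : CT := .l 1 4 14
  let c32 : CT := .l 23 5 (-1)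
  let c33 : CT := .l 1 1570 (-169)
  let c34 : CT := .l 8 35 123
  let c35 : CT := .l 5 6 18
  let c36 : CT := .l 4 (-15) (-59)
  let c37 : CT := .l 1 (-80) 9
  let c38 : CT := .l 5 71 259
  let c39 : CT := .l 1 (-133) (-494)
  let c40 : CT := .l 1 (-44) (-164)
  let c41 : CT := .l 4 23 (-1)
  let c42 : CT := .l 7 (-13) 4
  let c43 : CT := .l 10 7 3
  let c44 : CT := .l 4 5 1
  let c45 : CT := .l 1 (-15) 2
  let c46 : CT := .l 8 3 3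
  let c47 : CT := .l 2 1 1
  let c48 : CT := .l 1 4 0
  let c49 : CT := .l 1 0 (-2)
  let c50 : CT := .l 4 0 1
  let c51 : CT := .l 5 3 2
  let c52 : CT := .l 27 15 5
  let c53 : CT := .l 21 12 4
  let c54 : CT := .l 12 7 3
  let c55 : CT := .l 4 2 (-1)
  let c56 : CT := .l 1 21 (-2)
  let c57 : CT := .l 5 4 1
  let c58 : CT := .l 2 14 (-1)
  let c59 : CT := .l 8 5 1
  let c60 : CT := .l 23 15 4
  let c61 : CT := .l 1 (-1) (-6)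
  let c62 : CT := .l 11 7 1
  let c63 : CT := .l 2 1 (-1)
  let c64 : CT := .l 3 2 0
  let c65 : CT := .l 1 3 9
  let c66 : CT := .l 14 9 3
  let c67 : CT := .l 2 2 3
  let c68 : CT := .l 35 23 7
  let c69 : CT := .l 1 3 0
  let c70 : CT := .l 4 3 1
  let c71 : CT := .l 1 1 1
  let c72 : CT := .l 1 1 2
  let c73 : CT := .l 7 5 4
  let c74 : CT := .l 4 6 1
  let c75 : CT := .l 1 13 (-1)
  let c76 : CT := .l 8 6 5
  let c77 : CT := .l 8 58 (-3)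
  let c78 : CT := .l 1 (-45) (-169)
  let c79 : CT := .l 5 (-46) 7
  let c80 : CT := .l 9 7 3
  let c81 : CT := .l 3 3 1
  let c82 : CT := .l 5 4 2
  let c83 : CT := .l 4 4 1
  let c84 : CT := .l 1 0 (-3)
  let c85 : CT := .l 2 2 1
  .x (.y (.x (.y c0 c0) (.y (.x (.y c0 c1) c1) (.x (.y (.x (.y c0 (.x c0 c2)) (.y (.x c2 c3)
  c4)) (.x (.y (.x c5 (.y c4 c5)) c5) (.y c6 c5))) (.y (.x (.y (.x c6 (.y c1 c4)) c4) (.y (.x
  (.y c1 c4) c7) c7)) (.x c6 (.y c8 c8)))))) (.x (.y (.x c0 (.y (.x c0 (.y c5 (.x c0 c5))) (.x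
  c0 (.y (.x c0 c9) (.x c0 (.y c9 c10)))))) (.x (.y c0 c11) (.y (.x c0 (.y (.x c0 (.y c12 (.x c0
  c12))) (.x c0 (.y c13 c14)))) c11))) (.y (.x (.y (.x (.y c5 c5) (.y c2 (.x (.y c2 c15) c2)))
  (.x (.y (.x c5 (.y (.x c5 (.y c5 c9)) (.x c5 (.y (.x c5 (.y (.x c5 c16) (.x c5 (.y (.x (.y c16
  c17) c16) (.x (.y c17 (.x c5 (.y c16 c18))) c16))))) (.x c5 (.y (.x c18 (.y (.x c18 c16) c19))
  (.x c5 (.y c19 c20)))))))) (.x (.y c5 c12) (.y (.x c5 (.y (.x c5 c21) c10)) c12))) (.y (.x (.y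
  (.x (.y c22 (.x c9 c2)) c2) (.x (.y (.x (.y (.x (.y c9 c23) (.y c24 (.x c23 c23))) (.x (.y (.x
  c16 (.y (.x c25 c26) c17)) (.x c16 (.y (.x c25 c26) (.x c25 (.y (.x c25 c26) c25))))) (.y (.x
  c17 (.y c17 (.x c17 (.y c17 (.x c17 (.y c17 c27)))))) (.x (.y (.x (.y (.x c26 (.y c27 c26))
  c26) (.y (.x (.y c27 (.x c28 c29)) (.y c27 c29)) (.x (.y c29 (.x c28 (.y c30 c30))) (.y c29
  (.x c30 (.y c31 c31)))))) c31) (.y (.x (.y (.x (.y c27 c29) (.y (.x (.y c27 c29) c32) c29))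
  (.x (.y (.x c29 (.y c29 (.x (.y c29 (.x (.y c29 (.x c29 c33)) c34)) c35))) (.x (.y (.x c36 (.y
  (.x (.y c33 c37) c37) c37)) c37) c37)) c35)) (.y (.x (.y (.x c35 (.y c27 c35)) c35) c29) (.x
  c35 (.y (.x (.y (.x (.y c29 c35) (.y c29 (.x c38 c39))) c37) (.y c40 c37)) c37)))) (.x (.y c37
  c41) (.y c37 c41))))))) (.y c2 (.x (.y (.x (.y c17 (.x (.y c17 (.x (.y c17 c27) c2)) c2)) c2)
  (.x (.y (.x (.y (.x c29 c2) (.x (.y (.x c40 (.y c2 c37)) c37) c37)) c2) (.x (.y c37 c41) c2))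
  c2)) c2))) (.x (.y (.x c31 (.y (.x c31 (.y (.x (.y c41 c42) c35) c19)) c19)) (.x c16 (.y (.x
  c31 c43) c20))) (.y (.x (.y (.x (.y (.x (.y (.x (.y c41 c42) (.y c41 c42)) c19) c2) c19) c2)
  c19) c19) (.x (.y c43 c20) c20)))) c2)) c2) (.x (.y (.x (.y (.x (.y c20 c44) (.y (.x (.y c20
  c45) c45) c44)) c10) c2) (.x c12 (.y c12 c46))) c2)))) (.y (.x (.y c8 (.x (.y c15 (.x (.y c15
  c22) c47)) c47)) (.y c8 c47)) (.x (.y (.x (.y (.x c2 c47) (.x c2 c47)) c47) (.x (.y (.x c46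
  c47) c47) c47)) c47))) (.x (.y (.x (.y (.x (.y c12 c14) (.y (.x c5 c46) c48)) c14) (.y (.x (.y
  c46 c48) c2) (.x (.y c14 c21) (.y (.x c13 c47) c47)))) (.x c11 (.y c11 c47))) (.y c47 c47)))))
  (.y (.x (.y c1 (.x (.y (.x (.y (.x (.y c1 c7) c4) c4) (.y c4 (.x c4 (.y c4 (.x c49 (.y c6
  c50)))))) (.x (.y (.x c8 (.y (.x (.y c50 c8) (.y c6 (.x c51 (.y c52 c8)))) c8)) c8) (.y (.x
  (.y (.x (.y c53 (.x (.y c53 (.x (.y c53 c8) c53)) c53)) c49) (.x (.y (.x c8 c54) c8) c49)) (.y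
  (.x c49 (.y (.x (.y (.x c49 c55) (.x c49 c55)) c55) (.x (.y (.x c49 (.y (.x c49 c55) c56)) (.x
  c49 (.y c56 c49))) c55))) (.x c49 (.y c5 c57)))) c8))) (.y (.x (.y c4 (.x (.y c4 (.x (.y c6
  (.x (.y c50 (.x (.y c53 (.x c50 c58)) c59)) c59)) (.y c6 (.x c59 c60)))) (.y c4 (.x (.y c4 (.x
  (.y (.x c60 c61) (.x c60 c62)) c61)) c63)))) (.y c4 (.x c64 c1))) (.x (.y (.x (.y (.x (.y (.x
  (.y (.x c65 c66) (.x c65 c66)) c66) c66) (.y (.x c59 (.y (.x c59 c60) c67)) c67)) c66) (.y (.x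
  (.y (.x (.y (.x c60 c62) (.x c60 (.y c62 c56))) c61) (.x c68 (.y c61 c57))) c63) c57)) (.x c8
  (.y c8 c69))) (.y c70 c70))))) (.y c1 (.x (.y c1 (.x c71 (.y c57 c70))) c1))) (.x (.y (.x (.y
  (.x (.y c69 c8) (.y (.x (.y c69 c70) c70) (.x (.y (.x c51 c23) c23) c23))) (.x (.y (.x c8 c72)
  (.x c47 c72)) (.y (.x c51 (.y (.x c23 c49) (.x c51 (.y c49 (.x c51 c49))))) (.x c51 (.y (.x
  c51 (.y (.x c51 c51) c51)) c51))))) (.y (.x (.y c70 (.x (.y (.x (.y c22 c23) (.y c70 c23)) (.x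
  c49 (.y (.x c23 c43) c43))) (.y (.x (.y c70 c23) c43) c43))) (.y c70 (.x c43 c70))) (.x (.y
  (.x (.y (.x c49 (.y (.x (.y c44 c10) c55) c10)) (.x c49 (.y (.x c49 (.y (.x c73 c55) (.x c73
  (.y c55 (.x c73 c55))))) (.x c49 (.y (.x c73 (.y (.x c73 c55) c74)) c74))))) (.y (.x (.y (.x
  (.y c44 c65) (.y c44 c10)) (.x c65 (.y c10 (.x (.y c10 (.x c65 (.y c10 c75))) (.y c10 c75)))))
  (.y c67 (.x (.y c67 (.x (.y c10 c75) c67)) c67))) (.x (.y (.x (.y c75 (.x c55 c65)) (.y c75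
  (.x c65 (.y c75 (.x (.y (.x (.y c75 c65) (.y c76 (.x (.y c76 (.x (.y c76 c77) c76)) c76))) (.x
  c65 (.y (.x (.y (.x (.y c78 c78) c76) c79) c76) (.x (.y (.x c78 c76) c78) c76)))) c76))))) (.x
  (.y (.x c55 c65) c74) (.y (.x c65 c74) (.x c65 c80)))) (.y (.x (.y c75 (.x (.y (.x (.y c75
  c76) c66) (.x c76 c66)) c67)) c67) (.x (.y c74 c80) c67))))) (.x (.y (.x c49 (.y (.x c80 (.y
  c80 c80)) c49)) c49) (.y (.x (.y (.x (.y c80 c48) (.y c80 c65)) c48) c48) c81))) (.y (.x (.y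
  (.x (.y c43 (.x (.y c43 c75) c43)) c43) (.x (.y (.x (.y (.x c75 c43) c67) c43) c80) c43)) (.y
  (.x c63 c70) (.x c63 c80))) (.x (.y c48 c81) c81))))) (.x (.y (.x c47 c51) c47) (.y (.x (.y
  c51 (.x c51 (.y c82 c47))) (.y (.x (.y c51 (.x c51 c82)) (.y c51 c82)) (.x (.y c82 c47) (.y
  c82 (.x c11 (.y c82 c47)))))) c47))) (.y (.x (.y (.x c71 (.y (.x c71 c83) c71)) (.x (.y c71
  c81) c71)) (.y (.x (.y c83 (.x (.y (.x c84 c85) c81) c85)) c81) c81)) (.x (.y (.x c82 c71) (.x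
  c47 c71)) (.y c85 c85)))))

theorem ok364 : okF 2 18 (-5) t364 = true := by decide +kernel

theorem all364 : AllB 364 := allB (D := 364) (thm_of_ok ok364)
  (l :=
    [(-1, 0, -4, -1), (2, -1, 19, -9), (37, 26, -10, -7), (-15, 11, 4, -3)])
  (l' :=
    [(1, 0), (-37, -13), (-1, -1)])
  (by decide +kernel)

/-- a cover for the form `(5, 15, -7)` of discriminant `365` -/
def t365 : CT :=
  let c0 : CT := .l 1 0 0
  let c1 : CT := .l 3 1 0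
  let c2 : CT := .l 2 1 0
  let c3 : CT := .l 2 1 1
  let c4 : CT := .l 7 2 1
  let c5 : CT := .l 1 1 0
  let c6 : CT := .l 4 2 1
  let c7 : CT := .l 2 0 1
  let c8 : CT := .l 3 1 1
  let c9 : CT := .l 6 2 3
  let c10 : CT := .l 4 1 2
  let c11 : CT := .l 1 1 1
  let c12 : CT := .l 4 3 1
  let c13 : CT := .l 3 2 1
  let c14 : CT := .l 6 3 2
  let c15 : CT := .l 4 3 2
  let c16 : CT := .l 1 2 0
  let c17 : CT := .l 2 2 1
  let c18 : CT := .l 3 3 1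
  .x (.y (.x (.y c0 c0) (.y (.x (.y c1 (.x c0 (.y c1 (.x (.y c2 (.x c3 c3)) c1)))) (.y c2 (.x
  (.y c2 (.x c1 c2)) c2))) (.x (.y (.x (.y c4 c5) c5) c5) (.y c5 (.x (.y c5 c5) (.y c5 c6))))))
  (.x (.y (.x (.y c0 (.x c0 c0)) c0) (.x (.y (.x c7 c0) c7) c0)) (.y (.x (.y (.x c8 c8) c8) (.y
  (.x c3 (.y c6 c8)) (.x c3 (.y (.x c3 c3) c3)))) (.x (.y (.x (.y c8 c7) (.y c8 (.x c8 c8))) (.x
  (.y (.x c0 (.y (.x c7 c9) c10)) c10) (.y (.x (.y (.x c9 c8) c10) c8) c9))) (.y c3 c3))))) (.y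
  (.x (.y (.x (.y c2 c5) c5) (.x (.y c5 (.x (.y c5 c6) c2)) (.y c5 (.x (.y c5 (.x c11 c11)) (.y
  c5 c12))))) (.y c5 (.x (.y c5 (.x (.y c5 c12) c5)) c5))) (.x (.y (.x (.y (.x (.y c6 c6) (.y
  (.x (.y c8 (.x c8 c2)) c2) (.x (.y (.x (.y (.x c8 c13) c13) c13) c13) c13))) (.x (.y (.x c14
  c6) (.x c14 c13)) c13)) (.y (.x c13 c11) c13)) (.x (.y (.x c3 (.y c13 c3)) c3) (.y (.x (.y c13
  c3) c11) (.x c3 (.y c13 c15))))) (.y (.x (.y (.x (.y c12 c13) (.y (.x (.y c7 c13) (.y c5 c13))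
  (.x c13 (.y c13 c16)))) (.x (.y (.x c13 c12) c16) (.y c16 (.x c16 c16)))) (.y (.x c17 c5) (.x
  c17 c18))) (.x (.y (.x c11 (.y c3 (.x c11 (.y c3 (.x (.y c3 c11) c17))))) (.x c11 (.y (.x c11
  c17) c11))) (.y c17 c17)))))

theorem ok365 : okF 5 15 (-7) t365 = true := by decide +kernel

theorem all365 : AllB 365 := allB (D := 365) (thm_of_ok ok365)
  (l :=
    [(-1, 0, -1, -1), (3, -2, -1, 1)])
  (l' :=
    [(1, 0)])
  (by decide +kernel)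

/-- a cover for the form `(9, 7, -9)` of discriminant `373` -/
def t373 : CT :=
  let c0 : CT := .l 1 0 0
  let c1 : CT := .l 1 (-1) 1
  let c2 : CT := .l 2 0 1
  let c3 : CT := .l 5 0 2
  let c4 : CT := .l 4 0 1
  let c5 : CT := .l 3 1 2
  let c6 : CT := .l 2 1 2
  let c7 : CT := .l 4 2 1
  let c8 : CT := .l 2 (-1) (-1)
  let c9 : CT := .l 4 1 2
  let c10 : CT := .l 4 1 0
  let c11 : CT := .l 1 1 1
  let c12 : CT := .l 2 1 0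
  let c13 : CT := .l 6 2 1
  let c14 : CT := .l 4 1 1
  let c15 : CT := .l 2 1 1
  let c16 : CT := .l 5 2 1
  let c17 : CT := .l 1 (-1) (-2)
  let c18 : CT := .l 3 1 1
  let c19 : CT := .l 1 1 0
  let c20 : CT := .l 2 3 (-1)
  let c21 : CT := .l 4 3 2
  let c22 : CT := .l 5 3 0
  let c23 : CT := .l 1 0 (-1)
  let c24 : CT := .l 3 2 1
  let c25 : CT := .l 5 4 2
  let c26 : CT := .l 4 3 1
  let c27 : CT := .l 1 2 2
  let c28 : CT := .l 2 2 1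
  let c29 : CT := .l 6 5 2
  let c30 : CT := .l 1 0 1
  let c31 : CT := .l 4 4 1
  .x (.x (.y (.x c0 c0) (.x (.y (.x (.y c0 (.x (.y c1 c2) (.y c0 c3))) (.y c0 (.x (.y c0 (.x c4
  (.y c3 c4))) c0))) (.x c2 c2)) (.y c0 (.x (.y c2 (.x c2 (.y (.x c2 (.y c2 c5)) (.x (.y c2 c6)
  (.y (.x (.y c7 c8) c5) c9))))) (.y c0 (.x c9 c9)))))) (.y (.x (.y (.x (.y c0 (.x c0 (.y c10
  c1))) (.y (.x c11 c12) c12)) (.x (.y (.x c12 (.y c12 (.x c12 c12))) (.x c0 c0)) (.y (.x c13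
  (.y c13 c13)) (.x (.y c14 c15) (.y c13 c16))))) (.y (.x c12 c12) (.x (.y (.x (.y c11 c16) c11)
  (.x c16 c16)) (.y (.x (.y (.x c11 c17) c16) (.y c12 (.x c11 (.y c2 c17)))) c11)))) (.x (.y (.x
  c0 c18) (.x c0 (.y (.x c0 c18) c0))) (.y (.x (.y c18 c15) (.y (.x c7 c11) c19)) (.x c15
  c15))))) (.x (.y (.x (.y (.x c12 c12) (.x (.y (.x (.y c12 (.x (.y c2 c7) (.y c12 (.x (.y c20
  c18) (.y c21 c18))))) (.y c12 (.x (.y c12 c18) c12))) (.x c7 c7)) (.y c12 c19))) (.y (.x (.y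
  (.x (.y c12 c22) (.y c23 c19)) (.x (.y (.x c12 c22) c19) c19)) c19) c19)) (.x (.y (.x c19 (.y
  c19 (.x c19 c19))) (.x c15 c15)) (.y (.x c24 (.y c24 c24)) (.x (.y c15 c11) (.y c24 (.x c21
  c21)))))) (.y (.x c19 c19) (.x (.y (.x (.y (.x c19 c19) (.x (.y c15 c25) (.y c26 c25))) (.y
  (.x (.y c19 (.x c19 c27)) c28) (.x c29 c28))) (.x (.y (.x (.y c25 c25) c25) c30) (.y (.x c25
  c30) (.x (.y c30 (.x c21 c12)) (.y (.x c30 c28) c28))))) (.y (.x (.y (.x (.y c19 c28) (.y c19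
  c31)) c28) (.y c19 (.x c30 (.y c30 c28)))) (.x c28 c28)))))

theorem ok373 : okF 9 7 (-9) t373 = true := by decide +kernel

theorem all373 : AllA 373 := allA (D := 373) (thm_of_ok ok373)
  (l :=
    [(-193, 19, 132, -13), (-760, -249, -1111, -364), (2, -1, -1, 1), (1, 0, 0, 1)])
  (by decide +kernel)

/-- a cover for the form `(2, 16, -15)` of discriminant `376` -/
def t376 : CT :=
  let c0 : CT := .l 1 0 0
  let c1 : CT := .l 1 1 0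
  let c2 : CT := .l 1 2 2
  let c3 : CT := .l 1 2 0
  let c4 : CT := .l 3 1 0
  let c5 : CT := .l 4 2 1
  let c6 : CT := .l 4 1 1
  let c7 : CT := .l 5 3 1
  let c8 : CT := .l 4 3 1
  let c9 : CT := .l 2 2 1
  let c10 : CT := .l 5 4 1
  let c11 : CT := .l 6 5 1
  let c12 : CT := .l 4 4 1
  let c13 : CT := .l 1 3 0
  let c14 : CT := .l 4 0 1
  let c15 : CT := .l 1 (-1) (-1)
  let c16 : CT := .l 1 (-6) 1
  let c17 : CT := .l 8 0 3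
  let c18 : CT := .l 1 12 (-1)
  let c19 : CT := .l 5 (-2) 2
  let c20 : CT := .l 6 1 3
  let c21 : CT := .l 3 1 2
  let c22 : CT := .l 5 1 2
  let c23 : CT := .l 1 1 1
  let c24 : CT := .l 2 3 3
  let c25 : CT := .l 2 1 1
  let c26 : CT := .l 2 (-2) 1
  let c27 : CT := .l 2 0 1
  let c28 : CT := .l 1 (-23) 3
  let c29 : CT := .l 2 2 3
  let c30 : CT := .l 3 2 1
  let c31 : CT := .l 7 1 3
  let c32 : CT := .l 7 6 2
  let c33 : CT := .l 1 4 0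
  let c34 : CT := .l 1 (-5) 1
  let c35 : CT := .l 1 (-1) (-2)
  let c36 : CT := .l 1 (-12) (-15)
  let c37 : CT := .l 2 4 3
  let c38 : CT := .l 3 2 0
  let c39 : CT := .l 8 8 3
  let c40 : CT := .l 2 (-1) 1
  let c41 : CT := .l 5 3 2
  let c42 : CT := .l 7 5 3
  let c43 : CT := .l 3 (-5) 2
  let c44 : CT := .l 1 3 3
  let c45 : CT := .l 7 6 3
  .y (.x (.y (.x c0 (.y c0 c1)) (.x (.y c0 (.x c0 c0)) (.y (.x c0 (.y (.x (.y c1 (.x c0 (.y c2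
  c3))) (.y c1 (.x c4 c3))) c3)) (.x c0 (.y (.x (.y c3 (.x (.y c3 (.x c0 (.y (.x c0 c5) c6)))
  c5)) (.y (.x c5 c5) c5)) (.x (.y c6 c5) c5)))))) (.y c1 (.x (.y (.x (.y (.x (.y c1 c3) (.y c1
  c3)) c3) (.y c3 (.x (.y c3 c7) (.y c3 (.x c8 c9))))) (.x (.y (.x (.y c7 c7) c7) c5) (.y (.x
  (.y c7 c7) (.y (.x c8 c9) c8)) (.x (.y c5 c8) c8)))) (.y (.x (.y c3 (.x (.y c3 c10) c11)) c1)
  (.x (.y c10 c8) (.y (.x (.y c1 (.x (.y c10 (.x c11 (.y (.x c11 c12) c8))) c12)) c1) c13))))))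
  (.x (.y (.x (.y (.x (.y (.x c14 c0) (.x (.y c14 (.x c14 c14)) (.y c15 (.x c14 c15)))) c0) (.x
  (.y (.x (.y (.x (.y (.x (.y (.x (.y c14 c16) c16) c16) c16) (.x c16 c13)) c14) c13) (.y (.x
  c14 c15) (.x c14 (.y c13 (.x c13 c15))))) (.x (.y (.x (.y c13 (.x c17 (.y c18 c17))) (.y (.x
  (.y c13 c19) (.y c13 c19)) (.x (.y (.x c18 c20) (.x c17 c20)) (.y (.x (.y c18 (.x c20 (.y c21
  c12))) c21) (.x c12 c21))))) c17) (.y (.x (.y c14 (.x c21 c14)) (.y (.x c14 c15) (.x c14 (.y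
  (.x (.y c15 c14) c15) (.x c14 c17))))) (.x (.y c17 (.x c17 c21)) (.y c17 c14))))) (.y (.x (.y
  c13 (.x c15 c0)) c0) (.x (.y (.x c15 c0) (.x c22 c22)) c0)))) (.y (.x c0 (.y c5 (.x c23 (.y
  c13 (.x c23 (.y (.x (.y c13 c18) c5) c12)))))) (.x c0 (.y (.x c23 (.y (.x c23 (.y (.x c23 (.y
  (.x c23 c24) (.x c23 c24))) c23)) c23)) (.x c25 c23))))) (.x (.y (.x (.y (.x (.y c26 (.x c27
  (.y (.x c17 (.y (.x (.y c26 (.x c17 c28)) c29) c30)) c30))) (.y (.x (.y c26 (.x c20 (.y c26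
  (.x (.y c26 (.x c20 c21)) c21)))) (.y c26 c31)) (.x (.y (.x (.y (.x c29 c20) c30) c30) c30)
  c22))) (.x c27 (.y c22 c27))) (.y (.x c22 c22) (.x (.y c22 c31) c22))) c27) (.y (.x (.y c0 (.x
  (.y c0 (.x c0 c0)) c25)) (.y (.x c25 c25) c25)) (.x (.y c27 c25) c25)))) (.y (.x (.y (.x (.y
  (.x c5 c30) (.x (.y c5 (.x c5 c30)) c30)) (.y c8 (.x c30 c30))) (.x (.y (.x (.y c30 c30) c30)
  c30) c30)) (.y (.x (.y (.x c8 (.y c8 c12)) (.x (.y c8 c30) (.y c32 c30))) (.y c12 (.x (.y (.x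
  c32 (.y c32 c30)) c30) (.y (.x (.y c12 c30) c12) c30)))) (.x (.y (.x c30 c9) (.x (.y c30 c33)
  c9)) (.y (.x (.y (.x c30 (.y c30 (.x c30 (.y c30 c34)))) (.x c9 (.y c34 c33))) (.y (.x (.y (.x
  c30 c35) c34) (.y (.x (.y (.x c35 (.y c30 (.x c35 c36))) c35) (.y (.x (.y c30 (.x (.y c30 c34)
  c37)) c37) c34)) c34)) (.x (.y (.x c38 c33) c33) c33))) (.x c9 (.y (.x c33 (.y c33 c39)) (.x
  c9 c39))))))) (.x (.y (.x (.y (.x (.y c40 c23) c41) (.x c25 (.y c41 c27))) (.y (.x c41 c30)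
  (.x (.y (.x c41 (.y c41 c41)) c27) (.y c30 c42)))) c25) (.y (.x (.y (.x (.y (.x c41 (.y c41
  (.x c30 (.y (.x c41 c9) (.x (.y c43 c44) c9))))) (.x c30 (.y (.x c44 (.y (.x c44 c9) c39))
  c27))) c9) (.x (.y c27 (.x c42 (.y c45 c45))) c45)) (.y (.x c9 c9) c9)) (.x (.y c25 c9)
  c9)))))

theorem ok376 : okF 2 16 (-15) t376 = true := by decide +kernel

theorem all376 : AllA 376 := allA (D := 376) (thm_of_ok ok376)
  (l :=
    [(-1464, 151, 1241, -128), (-1, 0, -4, -1), (3, 1, 26, 9), (20, 13, -17, -11),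
     (59, 46, 522, 407), (6, 7, 53, 62)])
  (by decide +kernel)

/-- a cover for the form `(2, 19, -2)` of discriminant `377` -/
def t377 : CT :=
  let c0 : CT := .l 1 0 0
  let c1 : CT := .l 5 1 1
  let c2 : CT := .l 1 0 (-2)
  let c3 : CT := .l 3 0 1
  let c4 : CT := .l 3 1 1
  let c5 : CT := .l 1 3 0
  let c6 : CT := .l 1 0 (-1)
  let c7 : CT := .l 3 2 1
  let c8 : CT := .l 1 4 0
  let c9 : CT := .l 7 1 3
  let c10 : CT := .l 5 1 3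
  let c11 : CT := .l 4 1 3
  let c12 : CT := .l 2 (-1) 1
  let c13 : CT := .l 5 2 2
  let c14 : CT := .l 5 3 2
  let c15 : CT := .l 6 1 1
  let c16 : CT := .l 7 2 3
  let c17 : CT := .l 1 (-5) 1
  let c18 : CT := .l 6 1 3
  let c19 : CT := .l 3 1 5
  let c20 : CT := .l 1 (-2) (-21)
  let c21 : CT := .l 1 3 27
  let c22 : CT := .l 1 1 0
  let c23 : CT := .l 1 2 0
  let c24 : CT := .l 4 1 1
  let c25 : CT := .l 3 1 0
  let c26 : CT := .l 5 2 1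
  let c27 : CT := .l 1 0 (-4)
  let c28 : CT := .l 2 1 1
  let c29 : CT := .l 6 3 1
  let c30 : CT := .l 5 4 1
  let c31 : CT := .l 1 3 24
  let c32 : CT := .l 1 22 (-2)
  let c33 : CT := .l 1 (-26) 3
  let c34 : CT := .l 3 1 (-5)
  let c35 : CT := .l 1 0 (-5)
  let c36 : CT := .l 3 (-2) 1
  let c37 : CT := .l 7 4 2
  let c38 : CT := .l 7 4 1
  let c39 : CT := .l 1 1 4
  let c40 : CT := .l 3 2 2
  let c41 : CT := .l 2 1 (-1)
  let c42 : CT := .l 1 (-7) 1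
  let c43 : CT := .l 3 2 0
  let c44 : CT := .l 1 1 3
  let c45 : CT := .l 4 3 1
  let c46 : CT := .l 5 4 2
  let c47 : CT := .l 1 1 2
  let c48 : CT := .l 6 5 1
  let c49 : CT := .l 3 3 1
  let c50 : CT := .l 1 1 1
  let c51 : CT := .l 6 5 3
  .x (.x (.y (.x c0 (.y c0 (.x c0 (.y c0 (.x c1 c2))))) (.x c0 (.y (.x (.y c0 (.x c0 (.y c3
  c4))) (.y (.x (.y c1 (.x (.y c5 c3) c1)) c2) c4)) (.x (.y (.x c0 (.y (.x c6 (.y c7 c8)) c9))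
  (.x c6 (.y (.x c6 (.y c10 c10)) c6))) (.y (.x (.y (.x (.y c7 c8) (.y c7 c8)) (.x (.y c9 c9)
  (.y (.x (.y (.x c9 c11) c9) c11) c12))) (.y (.x (.y c7 (.x c8 (.y c8 (.x c1 c2)))) c2) (.x (.y
  (.x c1 c13) c12) c2))) (.x (.y (.x (.y (.x c10 (.y c14 (.x c15 (.y c16 c17)))) (.x c17 (.y c17
  c18))) (.y (.x (.y c16 (.x c19 (.y c16 c19))) c11) (.x (.y c19 (.x (.y c17 c18) c19)) c11)))
  (.x c18 c18)) (.y (.x (.y (.x c11 (.y c16 (.x c1 (.y c16 c17)))) (.x c11 (.y c17 c1))) (.y c16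
  (.x (.y c17 (.x (.y (.x c20 c2) (.x c20 c2)) c2)) c2))) (.x (.y (.x c11 c1) c18) (.y (.x (.y
  (.x (.y (.x c20 c21) (.x c20 (.y c21 c20))) c2) c18) c2) c18))))))))) (.y (.x (.y (.x c0 c22)
  (.x (.y (.x (.y c0 c23) (.y (.x (.y c22 (.x c0 c4)) c4) c23)) (.x c24 (.y c4 c24))) (.y (.x
  (.y c25 c23) c25) (.x c4 c25)))) (.y c22 (.x (.y (.x c26 (.y (.x (.y c22 c26) c27) c26)) c26)
  (.y (.x c28 c29) c28)))) (.x (.y (.x (.y (.x c24 c4) c4) c4) (.x (.y (.x (.y c24 c16) (.y c4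
  c16)) (.x (.y (.x c2 c24) (.x c2 c28)) (.y c16 c28))) (.y c4 (.x (.y c4 c28) c28)))) (.y (.x
  (.y (.x (.y (.x c13 c26) c4) (.y (.x c26 c5) c4)) c4) c28) (.x (.y c13 c28) c28))))) (.x (.y
  (.x (.y c22 (.x (.y (.x c29 (.y c23 (.x c29 (.y c29 c26)))) (.x (.y (.x c29 (.y c29 c29)) (.x
  c29 (.y (.x c29 (.y c24 c30)) (.x c29 (.y (.x (.y (.x c29 c31) c5) (.y (.x (.y c32 c33) c34)
  c5)) c5))))) (.y (.x (.y (.x c29 c35) (.x (.y (.x (.y c29 c36) c35) c24) c35)) (.y (.x (.y c26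
  (.x c35 c37)) c37) (.x (.y (.x c36 c37) c24) c37))) (.x (.y (.x (.y c24 c30) c35) (.x (.y (.x
  (.y (.x c34 (.y c32 c33)) c5) (.y (.x (.y c32 c33) c35) c5)) c5) c35)) (.y (.x (.y c30 (.x c35
  c37)) c37) c37))))) (.y (.x c38 (.y c38 (.x c39 (.y c23 c40)))) (.x (.y (.x c41 (.y c38 (.x
  c41 (.y (.x c41 c42) c24)))) (.x c41 (.y (.x c41 (.y c30 c14)) c41))) (.y (.x c39 c40) (.x (.y
  (.x (.y c39 (.x (.y c32 c5) c39)) c39) c5) c7)))))) (.y c22 (.x (.y (.x c7 c43) c7) (.y c22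
  (.x (.y (.x c43 c44) c5) c45))))) (.x (.y (.x (.y (.x (.y (.x c29 (.y c5 c45)) c28) (.y (.x
  (.y c5 c45) c37) c37)) (.x c28 c7)) (.y (.x c37 (.y c45 c7)) c7)) (.x c28 (.y c14 c28))) (.y
  (.x c7 (.y (.x c7 c45) c7)) (.x (.y c7 c28) (.y (.x c7 (.y (.x c44 c46) (.x c44 (.y c46
  c44)))) c28))))) (.y (.x (.y c22 (.x (.y c22 (.x c45 c30)) c22)) c22) (.x (.y (.x (.y (.x c45
  (.y c45 c7)) (.x c45 c46)) (.y (.x c47 (.y c22 (.x (.y (.x c48 c22) c7) c22))) (.x c47 (.y c49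
  c49)))) (.x (.y c46 c28) (.y (.x c47 (.y c46 (.x c47 c50))) (.x c47 (.y c28 c51))))) (.y (.x
  c50 c49) c50))))

theorem ok377 : okF 2 19 (-2) t377 = true := by decide +kernel

theorem all377 : AllB 377 := allB (D := 377) (thm_of_ok ok377)
  (l :=
    [(1, 0, 5, -1), (-1, -1, -9, -10)])
  (l' :=
    [(1, 0), (-2, -1)])
  (by decide +kernel)

/-- a cover for the form `(2, 18, -7)` of discriminant `380` -/
def t380 : CT :=
  let c0 : CT := .l 1 0 0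
  let c1 : CT := .l 1 1 0
  let c2 : CT := .l 1 2 0
  let c3 : CT := .l 6 2 1
  let c4 : CT := .l 2 1 1
  let c5 : CT := .l 3 1 1
  let c6 : CT := .l 4 1 1
  let c7 : CT := .l 1 1 2
  let c8 : CT := .l 3 1 0
  let c9 : CT := .l 1 0 (-1)
  let c10 : CT := .l 6 3 1
  let c11 : CT := .l 4 2 1
  let c12 : CT := .l 2 0 1
  let c13 : CT := .l 1 4 0
  let c14 : CT := .l 2 (-1) 1
  let c15 : CT := .l 6 2 3
  let c16 : CT := .l 6 4 1
  let c17 : CT := .l 4 0 1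
  let c18 : CT := .l 1 (-7) 1
  let c19 : CT := .l 3 (-2) 1
  let c20 : CT := .l 1 (-1) (-4)
  let c21 : CT := .l 3 2 1
  let c22 : CT := .l 3 2 0
  let c23 : CT := .l 1 1 1
  let c24 : CT := .l 4 3 1
  let c25 : CT := .l 1 0 (-2)
  let c26 : CT := .l 2 2 3
  let c27 : CT := .l 6 4 3
  let c28 : CT := .l 4 4 1
  let c29 : CT := .l 7 6 2
  let c30 : CT := .l 3 3 1
  let c31 : CT := .l 2 2 1
  let c32 : CT := .l 3 4 1
  .x (.y (.x (.y c0 c0) (.y (.x (.y c0 c1) c1) (.x (.y (.x (.y c0 (.x c0 c2)) (.y (.x c3 c4)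
  c3)) (.x (.y (.x c0 c5) c6) (.y (.x c7 (.y c3 c3)) c6))) (.y (.x (.y (.x c8 c9) c2) (.y (.x
  (.y c1 c9) c10) c10)) (.x (.y (.x c4 (.y (.x c8 c9) (.x c8 c9))) c4) (.y c11 c11)))))) (.x (.y
  (.x (.y c0 (.x c0 c0)) (.y c0 c0)) (.x (.y (.x c12 c0) c12) (.y c0 c12))) (.y (.x (.y (.x c5
  (.y (.x c5 c11) c5)) c5) (.y (.x (.y c11 c5) (.y c11 (.x c5 c11))) (.x c5 (.y c5 c4)))) (.x
  (.y (.x (.y (.x (.y c5 c13) c5) (.x (.y c14 (.x c0 (.y c14 c12))) (.y c14 (.x (.y c14 c12)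
  c15)))) (.y c5 (.x (.y c14 (.x c6 c5)) c5))) (.x c12 (.y c12 c4))) (.y c4 c4))))) (.y (.x (.y
  c1 (.x (.y (.x (.y (.x (.y c1 c10) c2) c2) (.y c2 (.x (.y c10 c16) c16))) (.x (.y (.x c11 (.y
  (.x c10 (.y c17 (.x (.y c18 c11) (.y c18 c19)))) c11)) c11) (.y (.x (.y (.x (.y c18 c20) c21)
  (.x (.y c20 c11) c21)) c21) c11))) (.y (.x (.y c2 c16) (.y c2 (.x c16 c22))) (.x (.y (.x (.y
  (.x c21 c16) c21) c23) (.x c21 c23)) c23)))) (.y c1 (.x (.y c1 (.x (.y (.x c24 (.y c1 c24))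
  c24) (.y (.x (.y c1 c25) c1) c24))) c1))) (.x (.y (.x (.y (.x (.y c11 c11) (.y (.x (.y c11
  c24) c24) c21)) (.x (.y (.x (.y c11 c21) c21) c21) c21)) (.y (.x c21 c23) c21)) (.x (.y (.x c4
  (.y (.x (.y c21 (.x c4 (.y c26 c4))) (.y c21 (.x (.y c21 c4) c21))) c4)) c4) (.y (.x (.y c21
  (.x (.y (.x c27 c21) c12) c21)) (.y c21 c21)) c4))) (.y (.x (.y (.x (.y c24 c24) (.y (.x (.y
  c24 c28) c28) (.x (.y c29 c21) c29))) (.x c23 (.y (.x c21 c30) c30))) (.y (.x (.y c28 c31)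
  c30) c30)) (.x (.y (.x c23 (.y (.x c23 (.y c32 (.x (.y (.x c23 (.y c32 c31)) c23) c31))) (.x
  c23 (.y (.x c23 c31) c31)))) c23) (.y c31 c31)))))

theorem ok380 : okF 2 18 (-7) t380 = true := by decide +kernel

theorem all380 : AllB 380 := allB (D := 380) (thm_of_ok ok380)
  (l :=
    [(-1, 0, -4, -1), (1, 1, -1, 0)])
  (l' :=
    [(1, 0), (2, 1)])
  (by decide +kernel)

/-- a cover for the form `(3, 15, -13)` of discriminant `381` -/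
def t381 : CT :=
  let c0 : CT := .l 1 0 0
  let c1 : CT := .l 2 1 0
  let c2 : CT := .l 1 1 0
  let c3 : CT := .l 6 2 1
  let c4 : CT := .l 1 1 1
  let c5 : CT := .l 6 3 1
  let c6 : CT := .l 5 2 1
  let c7 : CT := .l 4 1 1
  let c8 : CT := .l 4 2 1
  let c9 : CT := .l 5 3 1
  let c10 : CT := .l 4 3 1
  let c11 : CT := .l 1 2 0
  let c12 : CT := .l 8 7 2
  let c13 : CT := .l 4 4 1
  let c14 : CT := .l 4 0 1
  let c15 : CT := .l 3 0 1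
  let c16 : CT := .l 3 1 1
  let c17 : CT := .l 8 3 2
  let c18 : CT := .l 6 3 2
  let c19 : CT := .l 3 2 1
  let c20 : CT := .l 2 (-1) 1
  let c21 : CT := .l 2 0 1
  let c22 : CT := .l 5 1 2
  let c23 : CT := .l 2 1 1
  let c24 : CT := .l 4 1 2
  let c25 : CT := .l 3 3 1
  let c26 : CT := .l 2 2 1
  let c27 : CT := .l 1 3 0
  let c28 : CT := .l 5 4 2
  let c29 : CT := .l 4 3 2
  .y (.x (.y (.x c0 (.y (.x c0 c1) c2)) (.x c0 (.y (.x (.y c2 (.x c2 c3)) (.y c2 (.x (.y c2 c4)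
  c5))) (.x (.y (.x c0 (.y c6 c6)) (.x c0 c7)) (.y (.x c6 c8) (.x c4 c8)))))) (.y (.x c2 c2) (.x
  (.y (.x (.y c2 (.x (.y c5 c5) (.y c2 c9))) (.y c2 (.x c1 (.y c2 c9)))) (.x (.y (.x (.y (.x c5
  c9) c9) c9) (.x c8 c8)) (.y (.x c1 c10) c11))) (.y (.x c2 c2) (.x (.y c11 (.x c10 c10)) (.y
  c11 (.x (.y c10 (.x c12 c12)) c13))))))) (.x (.y (.x (.y (.x (.y (.x c14 c0) c15) c0) (.x (.y
  c15 c15) (.y c0 c16))) (.y (.x (.y (.x c16 (.y (.x c16 c17) c16)) c16) (.y (.x c8 c11) (.x c16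
  c16))) (.x c16 (.y (.x c16 c4) (.x c16 (.y c18 c19)))))) (.x (.y (.x (.y (.x c15 (.y c16 c20))
  (.x c21 c21)) (.y (.x (.y c20 c22) c22) (.x (.y c22 c21) c22))) (.x c21 c21)) (.y (.x c0 c23)
  (.x (.y c21 (.x c24 c24)) c23)))) (.y (.x (.y (.x (.y (.x c11 c19) (.x c16 c19)) (.y (.x c10
  c10) c19)) (.x (.y (.x c18 c19) c19) c19)) (.y (.x (.y (.x c10 (.y (.x c12 c12) c13)) (.x c19
  c19)) (.y (.x c13 c13) (.x (.y c19 c25) c25))) (.x (.y (.x c19 c26) (.x (.y (.x c19 c25) c25)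
  c25)) c25))) (.x (.y (.x (.y (.x c4 (.y c19 c21)) c4) (.y (.x (.y c21 (.x c25 c19)) c19) (.x
  (.y c27 c23) (.y c19 c23)))) (.x c23 c23)) (.y (.x (.y (.x c28 c28) (.x (.y c28 c23) (.y c28
  c26))) c26) (.x (.y c23 (.x c29 c29)) c26)))))

theorem ok381 : okF 3 15 (-13) t381 = true := by decide +kernel

theorem all381 : AllA 381 := allA (D := 381) (thm_of_ok ok381)
  (l :=
    [(-37, -4, 28, 3), (-1, 0, -2, -1), (2, 1, 11, 6)])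
  (by decide +kernel)

end Pool.Agent.Mukai
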