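import Pool.Agent.Work.MP_1e087a_ag.R4.Table

/-!
# Covers for the discriminants from 385 to 409
-/

namespace Pool.Agent.Mukai

/-- a cover for the form `(2, 19, -3)` of discriminant `385` -/
def t385 : CT :=
  let c0 : CT := .l 1 0 0
  let c1 : CT := .l 1 (-17) 2
  let c2 : CT := .l 1 12 (-1)
  let c3 : CT := .l 4 0 1
  let c4 : CT := .l 17 4 4
  let c5 : CT := .l 1 (-7) 1
  let c6 : CT := .l 1 1 0
  let c7 : CT := .l 7 2 1
  let c8 : CT := .l 1 2 0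
  let c9 : CT := .l 1 0 (-2)
  let c10 : CT := .l 3 1 0
  let c11 : CT := .l 1 1 5
  let c12 : CT := .l 3 1 2
  let c13 : CT := .l 11 3 2
  let c14 : CT := .l 13 4 3
  let c15 : CT := .l 12 2 3
  let c16 : CT := .l 6 2 1
  let c17 : CT := .l 7 2 0
  let c18 : CT := .l 4 2 1
  let c19 : CT := .l 7 3 3
  let c20 : CT := .l 1 1 4
  let c21 : CT := .l 23 9 5
  let c22 : CT := .l 3 1 (-1)
  let c23 : CT := .l 9 4 2
  let c24 : CT := .l 1 0 (-1)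
  let c25 : CT := .l 11 1 3
  let c26 : CT := .l 1 80 (-8)
  let c27 : CT := .l 3 (-11) 2
  let c28 : CT := .l 7 3 10
  let c29 : CT := .l 26 4 7
  let c30 : CT := .l 27 7 9
  let c31 : CT := .l 2 (-4) 1
  let c32 : CT := .l 1 3 0
  let c33 : CT := .l 8 2 3
  let c34 : CT := .l 16 4 5
  let c35 : CT := .l 1 4 0
  let c36 : CT := .l 7 0 3
  let c37 : CT := .l 2 0 1
  let c38 : CT := .l 7 10 2
  let c39 : CT := .l 3 (-55) 7
  let c40 : CT := .l 17 5 9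
  let c41 : CT := .l 19 5 6
  let c42 : CT := .l 34 10 9
  let c43 : CT := .l 6 2 3
  let c44 : CT := .l 7 3 2
  let c45 : CT := .l 1 (-16) 2
  let c46 : CT := .l 1 13 (-1)
  let c47 : CT := .l 39 13 11
  let c48 : CT := .l 1 (-1) (-8)
  let c49 : CT := .l 13 4 5
  let c50 : CT := .l 4 4 1
  let c51 : CT := .l 1 (-6) 1
  let c52 : CT := .l 14 4 5
  let c53 : CT := .l 12 4 5
  let c54 : CT := .l 21 5 7
  let c55 : CT := .l 19 8 6
  let c56 : CT := .l 2 (-22) 3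
  let c57 : CT := .l 6 (-8) 3
  let c58 : CT := .l 1 2 11
  let c59 : CT := .l 23 (-16) 10
  let c60 : CT := .l 13 0 (-23)
  let c61 : CT := .l 1 718 (-74)
  let c62 : CT := .l 6 50 (-3)
  let c63 : CT := .l 17 21 4
  let c64 : CT := .l 1 438 (-45)
  let c65 : CT := .l 2 36 (-3)
  let c66 : CT := .l 34 12 17
  let c67 : CT := .l 3 (-13) (-89)
  let c68 : CT := .l 37 13 18
  let c69 : CT := .l 1 (-44) (-285)
  let c70 : CT := .l 13 5 9
  let c71 : CT := .l 1 59 378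
  let c72 : CT := .l 11 (-29) 7
  let c73 : CT := .l 13 7 22
  let c74 : CT := .l 1 (-402) 42
  let c75 : CT := .l 37 5 13
  let c76 : CT := .l 12 52 (-1)
  let c77 : CT := .l 22 68 1
  let c78 : CT := .l 1 (-682) 71
  let c79 : CT := .l 18 (-4) 7
  let c80 : CT := .l 8 (-20) 5
  let c81 : CT := .l 3 (-28) 4
  let c82 : CT := .l 13 17 3
  let c83 : CT := .l 1 187 (-19)
  let c84 : CT := .l 1 (-93) 10
  let c85 : CT := .l 7 (-4) 3
  let c86 : CT := .l 13 8 4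
  let c87 : CT := .l 3 10 59
  let c88 : CT := .l 19 7 11
  let c89 : CT := .l 16 4 (-3)
  let c90 : CT := .l 6 4 15
  let c91 : CT := .l 9 5 16
  let c92 : CT := .l 22 6 (-1)
  let c93 : CT := .l 1 11 69
  let c94 : CT := .l 1 (-5) (-34)
  let c95 : CT := .l 3 2 1
  let c96 : CT := .l 13 6 4
  let c97 : CT := .l 9 4 3
  let c98 : CT := .l 8 4 3
  let c99 : CT := .l 37 13 15
  let c100 : CT := .l 19 7 8
  let c101 : CT := .l 1 (-15) 2
  let c102 : CT := .l 1 14 (-1)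
  let c103 : CT := .l 11 5 5
  let c104 : CT := .l 4 2 3
  let c105 : CT := .l 1 5 0
  let c106 : CT := .l 4 50 (-3)
  let c107 : CT := .l 21 14 10
  let c108 : CT := .l 8 4 5
  let c109 : CT := .l 1 (-43) 5
  let c110 : CT := .l 1 (-14) 2
  let c111 : CT := .l 4 (-8) 3
  let c112 : CT := .l 17 12 8
  let c113 : CT := .l 9 28 2
  let c114 : CT := .l 33 17 21
  let c115 : CT := .l 14 6 1
  let c116 : CT := .l 23 5 12
  let c117 : CT := .l 18 8 3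
  let c118 : CT := .l 13 7 2
  let c119 : CT := .l 1 1 3
  let c120 : CT := .l 29 17 5
  let c121 : CT := .l 29 17 6
  let c122 : CT := .l 1 6 35
  let c123 : CT := .l 21 14 4
  let c124 : CT := .l 8 68 (-5)
  let c125 : CT := .l 1 (-10) (-68)
  let c126 : CT := .l 9 4 (-7)
  let c127 : CT := .l 7 (-31) 5
  let c128 : CT := .l 12 20 1
  let c129 : CT := .l 2 (-24) 3
  let c130 : CT := .l 37 22 6
  let c131 : CT := .l 4 174 (-17)
  let c132 : CT := .l 2 42 263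
  let c133 : CT := .l 1 (-3) (-23)
  let c134 : CT := .l 3 (-32) (-217)
  let c135 : CT := .l 8 6 9
  let c136 : CT := .l 12 8 7
  let c137 : CT := .l 6 (-14) 3
  let c138 : CT := .l 2 34 (-3)
  let c139 : CT := .l 1 (-403) 42
  let c140 : CT := .l 8 10 35
  let c141 : CT := .l 8 (-86) 11
  let c142 : CT := .l 2 652 (-67)
  let c143 : CT := .l 1 186 (-19)
  let c144 : CT := .l 3 2 0
  let c145 : CT := .l 1 1 2
  let c146 : CT := .l 7 5 0
  let c147 : CT := .l 9 7 2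
  let c148 : CT := .l 2 2 3
  let c149 : CT := .l 12 10 3
  let c150 : CT := .l 13 7 5
  let c151 : CT := .l 1 43 (-4)
  let c152 : CT := .l 3 158 (-15)
  let c153 : CT := .l 23 13 10
  let c154 : CT := .l 21 (-14) 11
  let c155 : CT := .l 3 (-122) 14
  let c156 : CT := .l 3 (-58) (-383)
  let c157 : CT := .l 4 8 1
  let c158 : CT := .l 13 18 74
  let c159 : CT := .l 1 44 280
  let c160 : CT := .l 21 16 8
  let c161 : CT := .l 29 13 12
  let c162 : CT := .l 2 (-78) 9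
  let c163 : CT := .l 17 9 4
  let c164 : CT := .l 11 20 3
  let c165 : CT := .l 23 14 17
  let c166 : CT := .l 21 26 7
  let c167 : CT := .l 21 11 4
  let c168 : CT := .l 3 52 (-4)
  let c169 : CT := .l 3 1 (-3)
  let c170 : CT := .l 1 5 29
  let c171 : CT := .l 2 (-20) 3
  let c172 : CT := .l 6 (-2) 3
  let c173 : CT := .l 34 20 19
  let c174 : CT := .l 3 2 3
  let c175 : CT := .l 38 22 19
  let c176 : CT := .l 7 6 16
  let c177 : CT := .l 1 (-59) (-383)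
  let c178 : CT := .l 12 4 (-13)
  let c179 : CT := .l 7 (-17) 5
  let c180 : CT := .l 16 4 7
  let c181 : CT := .l 1 (-5) 1
  let c182 : CT := .l 13 7 9
  let c183 : CT := .l 9 5 7
  let c184 : CT := .l 6 4 9
  let c185 : CT := .l 18 10 15
  let c186 : CT := .l 14 8 13
  let c187 : CT := .l 1 15 (-1)
  let c188 : CT := .l 7 4 4
  let c189 : CT := .l 19 11 9
  let c190 : CT := .l 23 13 11
  let c191 : CT := .l 6 4 3
  let c192 : CT := .l 32 20 15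
  let c193 : CT := .l 11 8 5
  let c194 : CT := .l 7 6 2
  let c195 : CT := .l 19 15 7
  let c196 : CT := .l 1 2 8
  let c197 : CT := .l 11 10 4
  let c198 : CT := .l 1 1 1
  let c199 : CT := .l 18 14 7
  let c200 : CT := .l 1 (-5) (-37)
  let c201 : CT := .l 17 14 8
  let c202 : CT := .l 17 14 7
  let c203 : CT := .l 7 7 3
  let c204 : CT := .l 7 17 2
  let c205 : CT := .l 3 (-52) 7
  let c206 : CT := .l 9 2 (-29)
  let c207 : CT := .l 13 8 (-9)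
  let c208 : CT := .l 1 45 285
  let c209 : CT := .l 1 739 (-76)
  let c210 : CT := .l 23 23 10
  let c211 : CT := .l 1 (-42) (-275)
  let c212 : CT := .l 2 78 (-7)
  let c213 : CT := .l 1 179 (-18)
  let c214 : CT := .l 2 2 1
  let c215 : CT := .l 3 16 89
  let c216 : CT := .l 7 13 51
  let c217 : CT := .l 1 29 182
  let c218 : CT := .l 4 4 7
  let c219 : CT := .l 8 6 1
  .x (.y (.x (.y c0 (.x c0 (.y c0 (.x c0 (.y (.x c0 (.y c0 (.x c0 (.y c0 (.x c0 (.y (.x c0 c1)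
  c2)))))) (.x c0 (.y c3 (.x (.y c4 (.x c0 c4)) (.y c4 (.x c4 (.y c4 c5))))))))))) (.y (.x (.y
  c0 c6) c6) (.x (.y (.x (.y c7 c8) (.y (.x c9 c10) c8)) (.x (.y (.x (.y c8 (.x (.y (.x c11 c12)
  c11) (.y c13 c3))) (.y c8 (.x (.y c7 c3) c14))) (.x (.y (.x c11 (.y c3 (.x c12 c14))) (.x (.y
  (.x (.y c14 c15) c12) c5) (.y (.x c12 c14) c5))) (.y (.x (.y c3 c14) c14) (.x (.y c14 c5)
  c14)))) (.y (.x (.y c16 (.x (.y c16 c3) c16)) c10) (.x (.y (.x c14 c16) (.x (.y c14 (.x c14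
  (.y c5 (.x c14 c17)))) c9)) (.y (.x c16 c10) (.x c16 c10)))))) (.y (.x (.y (.x (.y c6 c8) (.y
  c6 c8)) c8) (.y (.x (.y c6 c8) c18) c8)) (.x (.y (.x (.y (.x c10 (.y c8 (.x (.y (.x c19 (.y c8
  c1)) c2) c20))) (.x c10 (.y c3 c21))) (.y (.x c22 (.y (.x (.y c8 c23) c23) c23)) (.x c20
  c23))) (.x (.y (.x c10 c23) (.x c10 c18)) (.y c23 c18))) (.y (.x (.y (.x c23 c18) c23) c18)
  c18)))))) (.x (.y (.x c0 (.y (.x c0 (.y (.x c24 (.y (.x c24 (.y (.x c4 (.y c5 (.x c4 (.y c5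
  c25)))) (.x c4 (.y (.x (.y (.x c4 (.y c25 c4)) (.x c4 (.y (.x c4 (.y c26 c27)) c27))) (.y (.x
  (.y c25 (.x (.y c28 c29) c29)) (.y c25 c29)) (.x (.y (.x (.y c29 c27) c30) c27) (.y (.x (.y
  c26 c27) c27) c27)))) (.x (.y (.x c4 (.y c27 c31)) c31) c31))))) (.x c24 c18))) (.x c24 (.y
  c32 (.x c24 (.y (.x c33 c34) c34)))))) (.x c0 (.y (.x c24 (.y (.x c24 c33) (.x c24 c33))) (.x
  c24 (.y (.x c24 c33) c33)))))) (.x c0 (.y (.x (.y (.x c0 (.y (.x c0 c33) c35)) (.x c0 (.y (.x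
  c0 (.y c36 (.x c0 (.y (.x (.y c0 c37) (.y (.x (.y c38 (.x (.y (.x (.y c38 c39) c24) c37) c24))
  c24) (.x c37 c24))) c37)))) c37))) (.y (.x c24 c24) (.x (.y c24 c37) c24))) c37))) (.y (.x (.y
  (.x (.y (.x (.y (.x (.y (.x (.y c5 c25) c12) (.x (.y (.x (.y (.x (.y (.x (.y c25 (.x c25 (.y
  c25 c29))) (.y c25 (.x (.y c25 c29) c40))) c29) (.y c41 (.x (.y c41 c41) c41))) c27) c11) c31)
  c12)) c12) c18) (.y (.x (.y (.x (.y c13 c13) (.y (.x (.y (.x c42 c42) c42) c43) (.x c42 c43)))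
  (.x c13 c42)) (.y (.x c7 c14) c31)) c32)) (.x (.y c32 (.x (.y (.x c34 c41) c34) c12)) (.y c32
  (.x (.y c44 (.x c34 (.y c34 c41))) (.y c44 (.x c43 (.y c34 c41))))))) (.y (.x (.y (.x (.y (.x
  c14 (.y (.x (.y c14 c18) c18) c18)) c18) c18) c32) c18) (.x (.y (.x (.y c32 c44) (.y c32 c44))
  (.x (.y c44 (.x (.y (.x c34 c14) c45) (.y (.x (.y c34 c45) (.y c34 c45)) (.x (.y c45 c46) (.y
  c45 c46))))) (.y c44 (.x (.y (.x (.y (.x c34 c17) c45) c17) c46) (.y (.x (.y (.x c47 c9) c45)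
  c45) c46))))) c9))) (.x (.y (.x (.y (.x (.y c41 (.x c34 c41)) c12) (.x (.y c30 (.x c34 c30))
  (.y c12 (.x (.y c12 (.x c41 c12)) c12)))) (.y (.x (.y (.x c12 c48) (.x c12 c48)) (.y (.x (.y
  c46 (.x c49 c43)) (.y c46 c43)) (.x (.y c50 (.x c49 c43)) c43))) (.x c12 (.y (.x (.y (.x c49
  c43) c49) c43) (.x c49 c43))))) (.x (.y (.x c33 (.y c51 c33)) c33) (.y (.x c12 (.y c51 c52))
  c33))) (.y (.x (.y (.x (.y (.x (.y c46 (.x c7 c50)) (.y c46 c50)) (.x (.y c50 (.x c7 c53)) (.y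
  c50 (.x c14 (.y (.x (.y c54 c55) c55) (.x (.y c30 (.x c14 (.y c56 c57))) (.y c56 (.x (.y c56
  c57) (.y c56 c57))))))))) (.y (.x (.y (.x (.y c46 (.x (.y c46 c50) (.y c46 c50))) c17) c50)
  (.y (.x (.y c46 c50) c9) c50)) (.x (.y (.x (.y c50 (.x (.y c50 c54) (.y c50 c54))) (.y c50 (.x
  (.y c50 c54) c54))) (.x (.y c55 (.x (.y c56 c57) (.y c56 c57))) (.y c55 (.x (.y c56 c57)
  c17)))) (.y (.x (.y c50 (.x c17 (.y c54 c55))) c9) (.x (.y (.x c17 (.y c55 c56)) (.x c17 (.y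
  c57 (.x c17 (.y (.x c17 (.y c57 (.x c17 (.y c57 c58)))) c58))))) c58))))) (.x (.y (.x (.y (.x
  c7 c53) c7) (.y (.x (.y c14 (.x c53 c14)) (.y (.x (.y (.x c14 (.y c57 (.x c14 (.y c57 (.x c14
  (.y (.x c57 (.y c57 c59)) (.x c60 (.y c59 (.x c60 c61))))))))) (.x c14 (.y (.x c14 (.y (.x c14
  (.y (.x c60 (.y c61 c62)) c62)) c63)) (.x c14 (.y (.x c14 (.y c64 (.x c14 c60))) c65))))) (.y
  (.x (.y c57 (.x (.y c57 (.x c66 (.y c59 (.x c66 c67)))) (.y c57 (.x (.y c68 (.x c67 c68)) (.y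
  c69 c69))))) (.y c57 (.x (.y (.x (.y c57 (.x c57 (.y c57 c59))) c70) (.x (.y (.x c71 (.y c59
  (.x c71 c61))) (.x c71 (.y c61 c62))) c70)) c70))) (.x (.y (.x (.y (.x c66 c62) c63) (.y c62
  (.x c72 c68))) (.x (.y (.x (.y c64 (.x (.y (.x (.y c64 (.x c60 (.y c64 c65))) (.y c66 c65))
  c65) c66)) c66) c65) (.y (.x (.y c73 c73) c68) c65))) (.y (.x (.y (.x c62 (.y c70 c63)) (.x
  (.y c72 c64) (.y c72 c64))) c70) (.x (.y (.x (.y (.x c69 c71) c65) (.y (.x (.y (.x (.y c64 (.x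
  c71 c65)) c70) c65) c70) c65)) c65) c70))))) (.x (.y c65 c14) (.y (.x c65 (.y c65 (.x (.y c65
  (.x c68 (.y c65 (.x c69 c71)))) (.y c70 (.x (.y c65 (.x (.y c65 (.x (.y c65 c74) c70)) c70))
  c70))))) (.x (.y (.x (.y (.x (.y c60 c74) (.y (.x (.y c65 (.x (.y c65 c74) c66)) c66) c74))
  (.x (.y (.x c14 c60) c75) (.y (.x (.y c74 c75) c66) c75))) (.y (.x c66 c73) (.x c66 c75))) (.x
  (.y (.x (.y c75 (.x c14 c60)) (.y c75 (.x (.y c76 (.x c60 (.y (.x c60 c77) c77))) (.y c66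
  c78)))) (.x (.y (.x c14 c60) c79) c79)) (.y (.x c66 c73) c79))) (.y (.x (.y (.x c68 (.y c74
  (.x c69 c71))) c75) (.y (.x (.y c74 (.x (.y c74 c75) c70)) c70) c75)) (.x (.y (.x c68 c69)
  c79) (.y (.x (.y (.x (.y c76 (.x c71 c78)) c70) c79) c70) c79)))))))) (.x c53 (.y (.x c14 (.y
  (.x (.y (.x c80 (.y c80 c81)) c81) (.y c82 c81)) (.x (.y (.x (.y c81 (.x c14 (.y c81 (.x c14
  c60)))) (.y c81 (.x (.y c81 (.x c60 (.y (.x (.y c81 c83) c83) c83))) c66))) (.x (.y c83 (.x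
  c14 (.y c83 c84))) (.y c83 c84))) (.y (.x (.y c81 (.x c73 c68)) (.y c81 (.x c69 (.y (.x c71
  c83) c83)))) (.x (.y c83 c84) (.y c83 c84)))))) (.x c14 (.y (.x (.y c84 c85) (.y c84 c85))
  c85)))))) (.x c7 (.y (.x c53 (.y (.x c14 (.y (.x (.y c85 (.x c14 (.y (.x c85 (.y c85 c86))
  c86))) (.y c85 (.x (.y (.x (.y c85 c86) c66) c86) (.y (.x c73 c86) c86)))) c86)) c51)) c51)))
  (.y (.x (.y (.x (.y (.x (.y (.x (.y c57 (.x c70 (.y (.x c70 (.y c59 c87)) (.x c70 c62)))) (.y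
  (.x c57 (.y c57 (.x c88 c89))) c88)) (.x (.y (.x c70 (.y (.x c70 (.y c63 c72)) (.x c70 (.y c90
  c90)))) c65) (.y (.x c90 c88) c90))) (.y (.x (.y (.x (.y c57 (.x c89 (.y c57 c91))) (.y c57
  c92)) (.x c91 (.y (.x c91 c92) c63))) (.y (.x (.y c57 (.x (.y c59 c93) c93)) c93) c93)) (.x
  (.y (.x c89 (.y (.x c91 c92) c65)) c65) (.y c93 c65)))) (.x (.y (.x c70 c90) (.x c70 (.y (.x
  (.y c90 (.x c70 c90)) c90) (.x (.y c79 c80) c90)))) (.y (.x (.y c65 (.x (.y (.x c88 c89) (.x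
  c90 c89)) c91)) (.y c65 (.x (.y (.x c92 c93) (.x c92 c93)) c93))) (.x (.y (.x (.y c75 (.x c90
  c89)) c91) (.x (.y c79 c88) c91)) (.y (.x (.y (.x c92 c93) (.x c92 c79)) c93) (.x (.y c92 c82)
  c93)))))) (.y (.x (.y (.x (.y (.x (.y (.x c93 (.y c57 c59)) (.x c93 (.y c94 c94))) c94) c94)
  c94) c94) c17) (.x (.y c94 (.x (.y (.x c93 c94) (.x c93 c94)) c94)) (.y (.x (.y c17 (.x c94
  c17)) c17) (.x (.y (.x c94 c17) c94) c17))))) (.x (.y (.x (.y (.x c70 c81) (.x c70 (.y (.x c70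
  c90) c84))) (.y (.x (.y c81 (.x c90 c89)) (.y c81 (.x (.y c81 (.x c91 c92)) (.y c93 (.x (.y
  c93 c83) c93))))) (.x (.y (.x c90 c89) c84) (.y (.x (.y c83 c91) (.y c83 c84)) c84)))) (.x (.y
  (.x (.y c84 c85) (.y (.x c70 c90) c85)) c85) (.y (.x (.y (.x c90 (.y c84 c85)) c85) c85)
  c85))) (.y (.x (.y (.x (.y c81 (.x c93 c94)) c94) (.x c93 c94)) (.y (.x c94 c17) (.x c94
  c17))) (.x c85 (.y c85 (.x c94 c17)))))) (.y (.x (.y c17 c17) c58) (.x c17 c58))) (.x (.y (.x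
  (.y (.x (.y (.x (.y c85 c86) c70) c86) (.y (.x c90 (.y (.x c89 (.y (.x c91 c92) c91)) c86))
  c86)) c51) (.y (.x (.y (.x (.y (.x (.y (.x (.y c93 c86) c93) c86) c93) c86) c94) c86) (.y c86
  c51)) c51)) c51) c51)))) c9) (.x (.y (.x (.y c51 (.x c52 c53)) (.y (.x c51 (.y c51 c52)) c95))
  c95) (.y (.x (.y c9 c95) c9) c95))))) (.y (.x (.y c18 (.x (.y c44 (.x c10 c44)) c44)) (.y c18
  (.x (.y c44 (.x c44 c96)) c18))) (.x (.y (.x (.y (.x c10 (.y (.x c10 c55) (.x c10 (.y (.x (.y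
  c55 (.x c10 c55)) c55) c97)))) (.x c10 c97)) (.y (.x (.y c55 c97) c97) c97)) (.x (.y (.x c10
  c95) c95) c95)) (.y (.x c97 (.y (.x (.y c18 c97) c18) c95)) c95)))) (.x (.y (.x (.y (.x (.y
  c35 (.x c33 (.y c35 (.x c33 c12)))) (.y c35 (.x c12 c49))) (.x (.y (.x c33 (.y (.x c33 c12)
  (.x c33 c12))) (.x c33 (.y (.x (.y c53 (.x c33 (.y c53 c37))) c12) c37))) c12)) (.y (.x (.y
  c35 (.x c43 (.y (.x c53 (.y c98 c53)) c53))) (.y (.x c35 c9) (.x (.y (.x (.y c98 (.x (.y (.x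
  c53 c17) c53) c99)) c9) (.x c53 (.y (.x c99 c9) c99))) c9))) (.x (.y c53 (.x c43 c53)) (.y (.x
  c53 c9) (.x (.y (.x c53 c100) c37) c19))))) (.x c37 (.y c37 (.x c43 c43)))) (.y (.x (.y (.x
  (.y (.x (.y c35 c98) c10) (.x c9 c10)) c19) (.x (.y (.x c9 c19) c19) c19)) (.y (.x (.y c98 (.x
  c20 (.y (.x c97 (.y c98 (.x (.y c98 c101) c98))) (.x c97 (.y (.x (.y c101 c19) c102) c19)))))
  (.y c98 (.x (.y c98 (.x (.y c102 (.x c19 (.y c102 c19))) (.y c102 (.x (.y c98 c19) c98))))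
  c98))) (.x c19 (.y (.x c19 (.y (.x (.y c98 c19) c98) c19)) (.x c19 (.y c19 c37)))))) (.x (.y
  c37 (.x (.y c37 c43) (.y (.x c37 c19) c43))) (.y c37 (.x (.y (.x c19 c103) (.x (.y c43 c19)
  c104)) (.y (.x (.y c105 c43) (.y c105 c43)) (.x (.y c43 (.x (.y (.x c97 (.y c43 (.x (.y c43
  (.x (.y c43 (.x c97 (.y (.x c97 (.y c106 c107)) c107))) (.y (.x (.y c43 c106) c108) c107)))
  c108))) (.x c104 (.y (.x (.y (.x (.y c107 c97) (.y c107 c109)) c109) c108) c110))) c108)) (.y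
  (.x c43 (.y c43 (.x (.y c43 (.x c43 (.y c43 c111))) (.y c43 c111)))) (.x (.y (.x (.y (.x c23
  c23) (.x (.y (.x c108 c23) (.x c108 c109)) c23)) (.y (.x (.y c111 (.x (.y c112 (.x c23 (.y
  c113 c106))) c96)) (.y c112 (.x c96 (.y (.x c96 (.y c112 c113)) (.x c96 c107))))) (.x (.y (.x
  c107 c96) c109) (.y (.x c96 (.y c107 c109)) c109)))) (.x (.y (.x (.y c109 c110) c23) c110)
  c110)) (.y (.x (.y (.x (.y c112 (.x (.y (.x (.y c112 c113) c114) c107) (.y (.x (.y c113 c106)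
  c115) c107))) (.y (.x c112 (.y c112 c116)) (.x (.y (.x c115 (.y c106 c107)) c107) (.y (.x c117
  (.y c106 c107)) c107)))) (.x (.y (.x (.y c107 c109) (.y c107 c109)) c109) (.y (.x (.y c107
  c109) c109) c109))) (.y (.x (.y (.x (.y c112 (.x c116 (.y c116 c113))) (.y c112 (.x (.y c116
  c106) (.y c116 c106)))) (.x (.y (.x (.y c106 c107) c107) c107) c107)) (.y (.x (.y c112 (.x (.y
  c116 c106) (.y c113 c107))) (.y c112 (.x (.y c113 c107) (.y c106 c107)))) (.x c107 c107))) (.x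
  c109 (.y c109 c110)))) c110))))))))))))) (.y (.x (.y c6 (.x (.y (.x (.y c8 (.x (.y c8 (.x c18
  (.y c8 c18))) (.y c8 (.x (.y c8 (.x (.y c8 c18) c118)) c119)))) (.y c8 (.x (.y c8 (.x c119 (.y
  c8 (.x (.y c2 (.x (.y c2 c3) (.y c2 c3))) (.y c2 (.x c120 c3)))))) (.y c8 (.x (.y c8 (.x (.y
  c2 c3) (.y c2 c3))) c95))))) (.x (.y (.x c18 (.y (.x (.y (.x c18 c118) c18) (.y c119 (.x c18
  c119))) c18)) c18) (.y (.x (.y (.x c119 (.y (.x (.y c3 (.x (.y c3 c119) c121)) (.y c3 (.x (.y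
  c3 (.x c121 c120)) (.y c3 (.x c120 (.y (.x (.y c3 (.x c120 (.y (.x (.y c3 c122) c122) c122)))
  c122) c122)))))) (.x (.y (.x c119 c121) c121) (.y (.x (.y (.x c121 c121) c121) (.y (.x c120
  c122) c123)) (.x c121 c121))))) (.x c119 (.y c121 c18))) (.y (.x (.y (.x (.y c3 (.x (.y c3 (.x
  (.y (.x (.y (.x (.y c3 (.x c122 (.y c3 c124))) (.y c3 (.x (.y c3 c124) (.y c3 c125)))) c125)
  (.y (.x (.y c3 (.x (.y c3 (.x c125 c126)) c126)) c126) (.x (.y c127 c128) c126))) (.x c125 (.y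
  (.x (.y c128 c129) c126) c129))) c86)) (.y (.x c86 (.y c3 (.x (.y c3 (.x c86 (.y (.x c3 (.y c3
  c130)) c130))) (.y c3 (.x (.y (.x (.y c3 (.x (.y c3 c124) c131)) (.y c3 (.x c132 c133))) (.x
  (.y (.x (.y c124 c134) (.y c124 (.x (.y c124 c127) (.y c124 c127)))) c127) (.y (.x (.y c124
  (.x (.y c124 c127) c132)) (.y c124 c127)) c127))) c133))))) (.x c86 (.y (.x c130 (.y (.x (.y
  (.x (.y c127 c128) (.y c127 c128)) c128) c133) (.x (.y (.x (.y c128 c129) (.y c128 c129))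
  c129) (.y (.x (.y c128 c129) c133) c129)))) c129))))) (.y c3 (.x (.y (.x c133 (.y c3 (.x c133
  c135))) (.x c133 (.y (.x c133 (.y c135 c129)) c133))) (.y (.x (.y (.x c3 c95) (.x c136 c95))
  c95) (.x (.y (.x c136 c129) (.x c129 c95)) c95))))) (.x (.y (.x (.y (.x (.y c129 (.x (.y c21
  c123) (.y c137 c123))) c86) c123) (.y (.x c86 (.y (.x c130 (.y c129 c137)) c123)) (.x c86 (.y
  c123 (.x c130 (.y c123 (.x c130 (.y c123 (.x c130 (.y c138 c139)))))))))) (.x (.y (.x (.y (.x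
  c122 c125) c121) (.y (.x (.y c126 (.x (.y c126 c14) c126)) c86) c14)) c121) (.y (.x c86 (.y
  (.x c130 (.y (.x c130 (.y (.x c130 (.y (.x c140 (.y c139 c141)) c14)) c14)) c14)) c14)) c86)))
  (.y (.x (.y (.x (.y c133 c123) c133) (.x (.y c123 (.x (.y c138 (.x (.y c138 (.x (.y c138 c139)
  (.y c138 c139))) c133)) c133)) c133)) c95) (.x (.y (.x (.y (.x (.y (.x (.y (.x (.y (.x (.y
  c139 c141) (.y c139 c141)) c14) (.y (.x c132 c141) c14)) c14) c133) c14) c133) (.x c14 c133))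
  c133) (.x (.y (.x (.y (.x (.y (.x (.y c14 (.x c140 (.y (.x c140 c142) c143))) (.y c14 (.x (.y
  (.x (.y c142 c143) c134) c143) (.y (.x (.y c142 c143) (.y c142 c143)) c143)))) c143) (.y (.x
  (.y (.x c14 (.y c14 (.x c132 c133))) (.x (.y (.x (.y c142 c143) c143) c143) c143)) c133)
  c143)) c121) c133) c121) c133)) c95)))) c95) (.x (.y (.x (.y c121 c5) (.y c121 c5)) c18)
  c95))) c18))) (.y (.x (.y c8 (.x c95 (.y c8 (.x c95 c144)))) (.y c8 (.x c144 c6))) (.x (.y (.x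
  c95 (.y (.x c95 c144) c95)) c95) (.y (.x c144 (.y (.x c145 (.y c6 c5)) (.x c145 (.y (.x c145
  c146) c145)))) c32))))) (.y c6 (.x (.y c6 (.x (.y (.x (.y c6 c147) c6) (.x c32 (.y c147 (.x
  c147 c148)))) (.y c6 (.x (.y c32 c149) c6)))) c6))) (.x (.y (.x (.y (.x (.y c18 (.x c18 (.y
  c18 (.x c18 c95)))) (.y (.x (.y c32 c119) c95) (.x (.y c119 c95) c95))) (.x (.y (.x c18 c95)
  c95) c95)) (.y (.x c95 (.y (.x c95 c145) c95)) c95)) (.x (.y (.x (.y (.x (.y c98 (.x c98 c18))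
  (.y c150 (.x c150 (.y (.x c150 (.y c150 (.x c150 (.y (.x c150 (.y c150 (.x c150 (.y c151 (.x
  (.y c151 (.x c151 (.y c151 (.x c151 c152)))) (.y c151 (.x (.y c151 c152) (.y c151 c152))))))))
  (.x c153 (.y (.x c153 (.y (.x (.y (.x c153 (.y (.x (.y c152 c154) c154) c155)) (.x c153 (.y
  (.x (.y (.x c155 c156) c157) (.y (.x c158 c157) c157)) c157))) (.y (.x (.y c154 c155) (.y c155
  (.x c155 c159))) c157)) c157)) c157)))))) (.x c150 (.y (.x (.y c157 (.x c150 (.y c157 (.x (.y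
  c100 c160) c153)))) (.y c157 c153)) (.x (.y (.x (.y (.x c150 (.y c161 (.x c150 (.y c161
  c162)))) (.x c150 (.y (.x c163 (.y c164 (.x c163 c165))) (.x c163 (.y c166 c163))))) (.y (.x
  (.y c161 c162) c153) (.x (.y (.x c167 (.y c164 (.x c167 c153))) (.x c167 (.y (.x c167 c153)
  c168))) c153))) (.x (.y (.x (.y (.x c150 c163) (.x c150 c163)) c163) (.x c169 c163)) (.y (.x
  (.y (.x c167 (.y (.x c167 c153) (.x c167 (.y c170 c170)))) c170) c170) c170))) c153))))))) (.x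
  (.y (.x c98 c18) (.x c98 c18)) (.y (.x (.y (.x c18 c150) c19) (.y (.x (.y (.x c150 c169) c19)
  (.y (.x (.y (.x (.y c171 c172) c172) c19) c153) c19)) c19)) c37))) (.y (.x (.y c95 (.x (.y (.x
  (.y c102 (.x (.y (.x (.y c151 (.x (.y c151 (.x (.y c151 (.x (.y c151 c152) c173)) (.y c151 (.x
  c173 (.y c152 c154))))) (.y c151 (.x (.y c151 (.x (.y c152 c155) c174)) c174)))) c174) (.x (.y
  (.x (.y (.x (.y (.x (.y c155 (.x (.y c155 c159) c175)) c175) c157) (.y (.x c173 (.y c155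
  c157)) c157)) c157) (.y (.x (.y (.x (.y c176 c176) c176) c176) c174) c157)) c157) c174))
  c174)) c174) (.x (.y (.x (.y c157 (.x (.y c100 (.x (.y c160 c161) (.y c161 (.x c175 (.y c176
  c162))))) c174)) c174) (.x (.y (.x (.y (.x (.y (.x c153 (.y c162 c164)) (.x c153 (.y (.x c153
  (.y c164 (.x c177 c159))) (.x c153 c166)))) (.y c164 (.x (.y (.x (.y c164 (.x c159 c175))
  c175) c166) (.y (.x c175 c176) (.x c175 c176))))) (.x (.y c168 c153) (.y (.x (.y c168 (.x c168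
  c175)) (.y c168 (.x c175 (.y c168 c178)))) (.x (.y (.x c159 c175) (.x c159 c175)) (.y (.x c175
  c178) c173))))) (.y (.x (.y c174 (.x c176 c174)) c174) (.x (.y (.x c176 c174) (.x c176 c174))
  c174))) (.x (.y (.x c153 (.y (.x (.y c179 c180) (.y c179 c180)) c180)) c171) (.y (.x (.y (.x
  c176 c180) c180) c180) c171))) c174)) c174)) c119)) c95) (.x (.y (.x (.y (.x (.y (.x (.y c172
  c19) c174) c19) c174) (.x (.y c19 c181) c181)) (.y (.x (.y c119 c19) c119) c181)) c37) (.y (.x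
  c119 (.y c95 c181)) c37)))) (.x (.y (.x c37 (.y c37 c105)) (.x (.y (.x (.y (.x c105 (.y c105
  (.x (.y c105 c43) c98))) c43) (.y (.x (.y c105 (.x c98 (.y c105 c43))) c18) c43)) (.x (.y (.x
  (.y c43 (.x (.y c43 (.x (.y c111 c112) (.y c111 c112))) (.y (.x c43 c182) (.x (.y c111 (.x
  c112 (.y c112 c116))) (.y c182 (.x (.y c182 (.x (.y c182 c113) c182)) c182)))))) (.y c43 (.x
  (.y (.x (.y c43 c111) c183) (.x (.y c112 (.x (.y c112 c182) c184)) c183)) c98))) (.x (.y (.x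
  (.y (.x (.y (.x (.y c116 (.x (.y c106 c107) (.y c106 c107))) (.y (.x (.y c116 c113) (.y c116
  c113)) c107)) (.x (.y c107 c109) (.y c107 c109))) (.y (.x (.y (.x (.y c116 c106) c185) c107)
  (.y (.x (.y c116 c106) c186) c107)) (.x (.y c107 c109) (.y c107 c109)))) (.x (.y c109 c110)
  (.y c109 c110))) (.y (.x (.y (.x (.y (.x (.y c113 c107) (.y c106 c107)) c107) (.y (.x (.y c106
  c107) c107) c107)) c109) (.y c107 c109)) (.x (.y c109 c110) c110))) c110) (.y (.x (.y (.x (.y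
  c107 c109) c183) c110) (.y (.x (.y c98 c109) c109) c110)) c110))) (.y (.x c98 (.y (.x (.y c43
  (.x (.y c43 (.x c98 c111)) c18)) c18) (.x (.y (.x (.y c111 c112) c18) (.x (.y c107 c109) c18))
  c18))) (.x c98 (.y (.x (.y (.x (.y c109 c110) c110) c110) c110) c187))))) (.y (.x c18 (.y c188
  c188)) (.x c18 (.y (.x c188 c188) (.x c188 c188)))))) (.y (.x (.y c37 (.x c105 (.y c105 (.x
  c174 (.y c105 c174))))) (.y c37 (.x c119 (.y c105 c119)))) (.x (.y (.x (.y c189 c190) c174)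
  (.x (.y (.x c190 (.y (.x c190 c189) c110)) (.x c188 (.y c187 c191))) c174)) c119)))) (.y (.x
  (.y c95 (.x (.y c95 c37) c95)) (.y (.x c95 (.y c145 (.x c144 c145))) (.x c95 (.y (.x c95 c145)
  c37)))) (.x (.y (.x (.y (.x c37 c191) (.x (.y c105 (.x (.y (.x c192 c191) c192) c191)) c191))
  c95) c191) (.y (.x c95 c193) (.x c95 (.y (.x c193 c145) c191))))))) (.y (.x (.y (.x (.y (.x
  (.y (.x (.y (.x (.y c44 c145) (.y c32 c149)) (.x c145 (.y c149 c45))) (.y c147 (.x (.y c149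
  c50) c147))) c50) (.y (.x c147 (.y c149 c50)) c50)) (.x c95 c95)) (.y (.x (.y (.x c149 c149)
  c50) c50) (.x (.y c194 c95) c194))) (.x (.y c95 (.x (.y c95 (.x c145 (.y c95 c195))) (.y (.x
  c95 (.y c95 (.x c95 (.y c95 (.x c95 c196))))) (.x c195 (.y (.x c195 (.y (.x (.y (.x c195 c196)
  c195) c196) c195)) (.x c195 (.y c195 c197))))))) (.y (.x c95 c198) (.x (.y (.x c148 c198) (.x
  (.y (.x (.y c148 c195) c148) (.x c196 c148)) c198)) c198)))) (.y (.x c198 c6) (.x c198 c6)))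
  (.x (.y (.x (.y (.x (.y (.x c145 (.y c160 c199)) c145) (.y (.x (.y (.x (.y c197 c199) c195)
  c199) (.y (.x (.y c160 (.x c195 c147)) (.y (.x (.y c197 (.x c160 (.y c197 (.x (.y c160 (.x (.y
  c160 (.x (.y c160 c200) c200)) c200)) c201)))) (.y c197 (.x c201 c196))) (.x (.y (.x (.y (.x
  c147 (.y (.x (.y c200 c179) c200) (.x c147 c200))) c171) (.y (.x c200 c201) c171)) c199) (.y
  (.x c201 c196) (.x c201 c199))))) (.x c199 (.y c199 (.x c199 c19))))) (.x (.y (.x c199 (.y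
  c199 c181)) c181) (.y (.x (.y (.x (.y c199 c181) c181) c181) c181) c181)))) (.x c145 (.y c37
  (.x (.y c37 c105) (.y c37 c105))))) (.y (.x (.y (.x (.y (.x c196 c148) (.x c196 c148)) c198)
  (.x (.y c181 c202) c198)) c198) (.x (.y c37 c105) c198))) (.x (.y (.x c145 (.y (.x (.y c105
  c193) (.y c105 c203)) (.x (.y (.x c145 (.y (.x (.y c43 c145) (.y (.x c43 (.y c203 (.x c43 (.y
  c203 c204)))) (.x (.y (.x (.y c204 (.x (.y (.x (.y c204 (.x c145 c205)) (.y c204 c205)) c205)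
  (.y (.x (.y c206 c206) (.y c207 c207)) c205))) (.y (.x c204 (.y c204 (.x c204 (.y c204
  c208)))) (.x (.y (.x (.y (.x (.y c204 c205) (.y c209 c205)) c205) c205) c205) c205))) (.x (.y
  c210 (.x (.y (.x c145 (.y c211 c211)) c212) (.y (.x (.y c213 c213) c213) c212))) (.y (.x (.y
  c210 (.x c210 c214)) (.y c210 c214)) c214))) (.y (.x (.y (.x (.y c204 (.x (.y c204 (.x (.y
  c204 c209) (.y c209 c205))) (.y c204 c215))) (.y c204 (.x (.y c204 c205) (.y c204 c205))))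
  c210) (.y (.x (.y c204 (.x (.y c216 c216) (.y c217 c217))) (.y c204 c214)) c214)) c214)))) (.x
  c145 c214))) (.x c145 c214)) (.y (.x (.y (.x c218 (.y (.x c219 c214) c214)) c214) c214)
  c214)))) (.x c145 c214)) (.y (.x (.y (.x (.y (.x (.y c105 c193) c196) (.x (.y c203 c214)
  c214)) c198) c214) c214) c214))) (.y (.x c198 c214) c214)))))

theorem ok385 : okF 2 19 (-3) t385 = true := by decide +kernel

theorem all385 : AllB 385 := allB (D := 385) (thm_of_ok ok385)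
  (l :=
    [(-14, -3, -135, -29), (3, 1, -1, 0), (-19, -13, 3, 2), (-1, -1, -9, -10), (-58, 45, 9, -7)])
  (l' :=
    [(1, 0), (7, 3), (-45, -29), (3698, 3035), (13, 16)])
  (by decide +kernel)

/-- a cover for the form `(5, 13, -11)` of discriminant `389` -/
def t389 : CT :=
  let c0 : CT := .l 1 0 0
  let c1 : CT := .l 2 1 0
  let c2 : CT := .l 8 3 1
  let c3 : CT := .l 1 1 1
  let c4 : CT := .l 1 1 0
  let c5 : CT := .l 6 2 1
  let c6 : CT := .l 3 0 1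
  let c7 : CT := .l 5 0 2
  let c8 : CT := .l 2 0 1
  let c9 : CT := .l 8 1 3
  let c10 : CT := .l 3 1 1
  let c11 : CT := .l 4 1 2
  let c12 : CT := .l 2 1 1
  let c13 : CT := .l 8 3 2
  let c14 : CT := .l 4 2 1
  let c15 : CT := .l 6 3 2
  let c16 : CT := .l 3 2 1
  let c17 : CT := .l 4 3 1
  let c18 : CT := .l 8 7 2
  let c19 : CT := .l 4 3 2
  let c20 : CT := .l 2 2 1
  let c21 : CT := .l 1 2 0
  let c22 : CT := .l 6 5 2
  let c23 : CT := .l 3 3 1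
  let c24 : CT := .l 1 (-1) 1
  .x (.y (.x (.y c0 c0) (.y (.x (.y c0 (.x c0 (.y c1 (.x c0 (.y c1 c2))))) (.y c1 (.x (.y c1 c3)
  (.y c1 c4)))) (.x (.y (.x c0 (.y (.x c5 c4) c5)) c4) (.y c4 (.x c4 c3))))) (.x (.y (.x (.y (.x
  (.y c0 c4) c4) (.x c6 (.y c6 (.x c6 (.y c0 c7))))) c0) (.x (.y (.x (.y c7 c8) (.y (.x c6 (.y
  c9 c8)) c8)) c8) (.y (.x (.y (.x c10 c10) c8) c0) (.x c8 (.y c8 c11))))) (.y (.x (.y (.x c10
  (.y c12 c10)) c10) (.y (.x (.y (.x (.y c13 c13) c14) c10) (.y c14 c10)) (.x c12 (.y (.x (.y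
  c10 c10) c15) (.x c12 (.y c15 c12)))))) (.x (.y (.x c0 (.y c10 c0)) c0) (.y c12 c12))))) (.y
  (.x (.y (.x (.y c1 c4) c4) (.x (.y c4 (.x (.y c4 c14) (.y c4 c16))) (.y c4 (.x (.y c4 c1) (.y
  c4 c17))))) (.y c4 (.x (.y c4 (.x (.y c4 c17) (.y c4 (.x c17 (.y c17 c18))))) (.y c4 (.x (.y
  c4 (.x (.y c8 c18) c4)) c4))))) (.x (.y (.x (.y (.x c3 (.y (.x c16 c16) c16)) (.x (.y c3 (.x
  c15 c16)) c16)) (.y (.x c16 (.y c17 c16)) c16)) (.x (.y (.x (.y (.x c16 c3) c12) c3) c12) (.y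
  (.x (.y c16 c12) c16) (.x c12 (.y c12 c19))))) (.y (.x (.y (.x (.y c17 c17) (.y c20 (.x c16
  c20))) (.x (.y (.x c16 c17) c21) (.y c22 c21))) (.y (.x (.y (.x c16 c23) (.x c20 c23)) c23)
  (.x c20 c23))) (.x (.y (.x (.y (.x c21 c23) c12) (.y c12 (.x (.y c12 c24) c20))) (.x (.y c24
  c19) (.y (.x (.y c24 c19) c20) c20))) (.y c20 c20)))))

theorem ok389 : okF 5 13 (-11) t389 = true := by decide +kernel

theorem all389 : AllA 389 := allA (D := 389) (thm_of_ok ok389)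
  (l :=
    [(-103, -11, -337, -36), (-1, 0, -1, -1), (2, -1, -1, 1)])
  (by decide +kernel)

/-- a cover for the form `(4, 13, -14)` of discriminant `393` -/
def t393 : CT :=
  let c0 : CT := .l 1 0 0
  let c1 : CT := .l 3 1 0
  let c2 : CT := .l 7 3 0
  let c3 : CT := .l 11 5 0
  let c4 : CT := .l 17 8 0
  let c5 : CT := .l 1 (-20) 5
  let c6 : CT := .l 5 (-18) 5
  let c7 : CT := .l 6 (-3) (-7)
  let c8 : CT := .l 5 3 0
  let c9 : CT := .l 1 15 17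
  let c10 : CT := .l 13 7 0
  let c11 : CT := .l 3 2 0
  let c12 : CT := .l 1 1 0
  let c13 : CT := .l 4 1 1
  let c14 : CT := .l 1 1 1
  let c15 : CT := .l 3 0 1
  let c16 : CT := .l 12 5 3
  let c17 : CT := .l 3 4 0
  let c18 : CT := .l 1 2 2
  let c19 : CT := .l 5 3 1
  let c20 : CT := .l 20 9 5
  let c21 : CT := .l 1 (-4) (-5)
  let c22 : CT := .l 1 (-1) (-1)
  let c23 : CT := .l 5 0 2
  let c24 : CT := .l 5 1 2
  let c25 : CT := .l 7 1 3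
  let c26 : CT := .l 9 0 4
  let c27 : CT := .l 1 2 0
  let c28 : CT := .l 1 (-2) 1
  let c29 : CT := .l 6 1 3
  let c30 : CT := .l 2 (-1) 1
  let c31 : CT := .l 2 3 3
  let c32 : CT := .l 10 5 3
  let c33 : CT := .l 18 9 5
  let c34 : CT := .l 17 8 5
  let c35 : CT := .l 2 1 1
  let c36 : CT := .l 10 3 5
  let c37 : CT := .l 11 6 3
  let c38 : CT := .l 3 2 1
  let c39 : CT := .l 9 6 2
  let c40 : CT := .l 4 3 1
  let c41 : CT := .l 3 3 1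
  let c42 : CT := .l 15 7 5
  let c43 : CT := .l 11 6 4
  let c44 : CT := .l 9 7 3
  let c45 : CT := .l 15 13 5
  let c46 : CT := .l 9 8 3
  let c47 : CT := .l 6 5 3
  let c48 : CT := .l 7 5 3
  let c49 : CT := .l 14 11 7
  let c50 : CT := .l 3 3 2
  let c51 : CT := .l 10 9 5
  let c52 : CT := .l 1 15 (-3)
  let c53 : CT := .l 3 4 3
  let c54 : CT := .l 5 5 3
  let c55 : CT := .l 1 3 3
  let c56 : CT := .l 4 1 (-1)
  let c57 : CT := .l 3 0 2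
  let c58 : CT := .l 17 14 8
  let c59 : CT := .l 5 5 2
  let c60 : CT := .l 5 (-7) 5
  let c61 : CT := .l 10 11 7
  let c62 : CT := .l 6 9 7
  let c63 : CT := .l 9 2 (-3)
  let c64 : CT := .l 4 (-21) (-27)
  let c65 : CT := .l 1 (-72) (-85)
  let c66 : CT := .l 1 (-145) 36
  let c67 : CT := .l 2 7 7
  let c68 : CT := .l 17 24 18
  let c69 : CT := .l 3 22 24
  let c70 : CT := .l 10 23 1
  let c71 : CT := .l 5 0 (-3)
  let c72 : CT := .l 1 (-14) (-17)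
  let c73 : CT := .l 3 (-1) (-3)
  let c74 : CT := .l 10 7 5
  let c75 : CT := .l 2 (-15) 5
  let c76 : CT := .l 3 (-4) 3
  let c77 : CT := .l 4 7 1
  let c78 : CT := .l 1 11 (-2)
  let c79 : CT := .l 9 9 4
  let c80 : CT := .l 1 (-2) (-3)
  let c81 : CT := .l 5 6 2
  let c82 : CT := .l 1 4 4
  let c83 : CT := .l 1 7 (-1)
  let c84 : CT := .l 1 3 0
  .x (.y (.x (.y c0 (.x c0 c0)) (.y (.x (.y c0 c0) (.y (.x c1 (.y (.x c2 (.y (.x c3 (.y (.x (.y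
  c3 c4) (.y (.x (.y c4 (.x c4 (.y c4 c5))) (.y (.x (.y c4 (.x c4 (.y c6 (.x c7 c8)))) (.y (.x
  (.y c4 c9) c9) c9)) (.x (.y (.x (.y c7 c8) c8) c8) c8))) (.x (.y c5 c8) c8))) (.x c10 c10)))
  (.x (.y c8 c8) c8))) c11)) (.x (.y c1 c12) c12))) (.x (.y c12 (.x c0 (.y c12 c0))) (.y c12 (.x
  (.y (.x c12 (.y c12 c13)) (.x (.y (.x c13 (.y c13 c14)) c14) (.y (.x (.y c13 c15) c15) (.x c16
  c16)))) (.y (.x (.y c12 (.x (.y c13 (.x c13 c17)) c18)) (.y c12 (.x c18 (.y c12 c18)))) (.x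
  (.y (.x c15 (.y c15 c19)) (.x (.y c19 c16) (.y c19 c20))) (.y c19 (.x (.y c19 (.x (.y c20 (.x
  c20 c21)) (.y c18 c21))) c18))))))))) (.x (.y (.x (.y (.x (.y (.x c12 c0) c15) (.y c0 c15))
  (.x c15 (.y c15 (.x c15 (.y c15 c15))))) (.y c0 (.x (.y (.x c22 c0) (.x (.y c22 c23) c24))
  c0))) (.x (.y (.x (.y c23 c23) (.y (.x c15 (.y (.x c23 (.y c23 c15)) (.x c15 c25))) (.x c15
  (.y c25 c25)))) (.x (.y (.x (.y c26 c26) c23) (.x c27 (.y c27 c28))) (.y (.x (.y c25 c27) c15)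
  (.x (.y c27 c28) c28)))) (.y (.x (.y (.x (.y c24 c24) c24) (.x c25 c25)) (.y c24 c24)) (.x (.y
  (.x c27 c27) (.x c29 c29)) (.y (.x (.y c27 c28) c28) (.x (.y c29 c29) (.y (.x c29 c29) (.x c29
  (.y c29 (.x c29 (.y c29 (.x c29 c22)))))))))))) (.y (.x (.y c0 c0) (.y (.x (.y (.x c14 (.y (.x
  c16 c16) c14)) c14) (.y (.x (.y (.x (.y c20 (.x c16 c30)) (.y (.x c20 (.y c20 c30)) c30)) (.x
  (.y c30 (.x c30 (.y c30 c14))) (.y c30 (.x c31 (.y (.x c30 c32) (.x c31 c32)))))) (.y (.x (.y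
  (.x (.y (.x (.y (.x c20 c21) c30) c21) c30) c30) c30) c30) (.x c32 (.y c33 c33)))) (.x (.y (.x
  c14 (.y c34 c34)) c14) (.y c32 c32)))) (.x (.y c14 c35) (.y (.x c14 (.y (.x c14 (.y c32 (.x
  c14 c31))) c14)) c14)))) (.x (.y (.x (.y c0 c27) c0) (.x (.y (.x (.y c28 (.x c28 (.y c28 (.x
  c24 c24)))) (.y c28 (.x (.y c28 (.x c29 c29)) c0))) (.x c22 (.y (.x (.y c29 c36) c35) c36)))
  (.y c35 c35))) (.y (.x c35 c35) c35))))) (.y (.x (.y (.x (.y (.x (.y (.x (.y (.x (.y (.x (.y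
  (.x (.y (.x (.y (.x c9 c12) c12) c12) c12) c12) c12) c12) c12) c12) c12) c12) c12) c12) c12)
  c12) (.x (.y c12 (.x (.y (.x (.y c12 c19) c19) (.x (.y c19 (.x c18 (.y (.x c37 c1) c37))) (.y
  c19 (.x c1 c30)))) (.y c19 (.x c38 (.y c19 c38))))) (.y c12 (.x (.y (.x c19 (.y c19 c39)) (.x
  c19 (.y c39 c40))) (.y (.x c40 c40) c40))))) (.y c12 (.x (.y c12 (.x (.y (.x (.y c12 c40) (.y
  c12 c40)) c40) (.y (.x (.y c12 c40) (.y c12 c40)) (.x c40 (.y c40 (.x c40 c27)))))) (.y c12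
  (.x (.y c12 (.x (.y c41 c41) c41)) (.y c12 c27)))))) (.x (.y (.x (.y (.x (.y (.x (.y c18 (.x
  (.y c18 c33) c37)) (.y (.x c37 c38) c37)) (.x (.y (.x c32 c32) c32) c18)) (.y c38 c38)) (.x
  (.y (.x (.y (.x (.y c32 (.x c42 c32)) (.y c32 c32)) (.x (.y (.x c31 (.y c43 c38)) c38) c38))
  c38) c38) c38)) (.y (.x (.y (.x c38 c40) c38) (.y c40 c38)) c38)) (.x (.y (.x (.y (.x c14 (.y
  c38 c35)) c35) (.y (.x (.y c38 (.x (.y c38 c35) (.y c38 c35))) (.y c38 (.x (.y c38 c35) c18)))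
  c35)) c35) (.y (.x (.y (.x c38 c38) c35) (.y c38 c35)) (.x c35 (.y c35 (.x c35 (.y c35 (.x c35
  (.y c35 (.x c35 (.y c35 c18))))))))))) (.y (.x (.y (.x (.y c40 c38) c27) (.x (.y c38 (.x c38
  (.y (.x c38 c44) c41))) (.y (.x (.y c40 c40) (.y (.x (.y c44 (.x c45 c45)) c46) c41)) (.x (.y
  (.x (.y c46 c41) c41) c41) c41)))) (.y (.x (.y c27 (.x (.y c41 c41) c41)) c41) (.x (.y c41
  c41) c41))) (.x (.y (.x (.y (.x c41 (.y c41 (.x c41 c35))) c35) (.y (.x (.y c41 c35) (.y c41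
  c35)) c35)) (.x (.y (.x c38 (.y c35 c47)) (.x (.y (.x c35 c38) (.x (.y (.x c35 c48) (.x c1 (.y
  c48 c47))) c49)) c47)) (.y (.x (.y c35 c50) (.y (.x (.y c35 (.x c35 c51)) (.y (.x c35 (.y c35
  c52)) (.x c53 c54))) (.x (.y (.x (.y (.x (.y (.x c35 (.y c35 c55)) c55) (.y c56 c57)) c57)
  c57) (.x c55 (.y c58 c47))) (.y (.x c57 c53) (.x (.y c51 c51) c51))))) (.x c47 c47)))) (.y (.x
  (.y (.x (.y c41 c35) c35) (.x (.y c35 c59) (.y c59 c59))) (.y c59 (.x c59 c59))) (.x (.y (.x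
  (.y (.x (.y (.x (.y c59 (.x (.y c59 c54) (.y c59 (.x (.y c59 (.x c54 (.y c60 c54))) c61))))
  (.y c59 (.x (.y c59 (.x c62 (.y (.x (.y c59 (.x c62 c63)) (.y (.x c59 (.y c59 c64)) (.x (.y
  c65 c66) (.y (.x c65 c64) c66)))) (.x c62 (.y (.x c63 (.y c65 c57)) c63))))) (.y (.x c59 c67)
  (.x (.y (.x (.y (.x (.y c59 (.x (.y c59 (.x c64 (.y c68 c66))) c68)) c69) (.x c66 (.y c69
  c70))) (.y (.x (.y c59 c69) (.y (.x (.y c59 c66) c71) c66)) (.x c69 (.y c70 c57)))) c57) (.y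
  (.x (.y c71 c57) c71) c57)))))) (.x (.y (.x c54 (.y (.x c54 (.y (.x (.y c72 c72) c72) c72))
  c57)) c57) c57)) (.y (.x (.y c59 (.x c67 (.y c73 c57))) (.y c59 (.x (.y c40 c57) c57))) (.x
  c57 (.y c57 (.x c74 (.y c74 (.x c75 c73))))))) (.x (.y (.x c54 (.y (.x c74 (.y c74 (.x c58
  c72))) c54)) c54) (.y (.x (.y (.x (.y c74 (.x (.y c61 c72) c76)) (.y (.x c75 (.y c75 c76))
  c76)) c77) (.y (.x (.y (.x (.y c75 c77) c76) c77) c77) c78)) (.x (.y c78 c54) (.y c78 c79)))))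
  (.y (.x (.y c40 (.x (.y c57 (.x (.y c74 (.x c73 c40)) c40)) c40)) (.y (.x c57 c80) (.x c40 (.y
  c80 (.x c40 c80))))) (.x (.y (.x (.y c77 c78) (.y c40 c78)) c79) (.y c40 c81)))) (.x (.y (.x
  c47 c47) c51) (.y c47 c51))) (.y (.x (.y (.x (.y (.x c80 (.y (.x (.y c59 (.x c80 (.y c74
  c80))) (.y c74 (.x c75 c82))) (.x c80 c79))) c80) (.y (.x (.y c82 c79) c82) c79)) (.x (.y c79
  (.x c81 c80)) (.y c81 c47))) (.y c79 (.x (.y c82 c47) (.y c79 c83)))) (.x (.y (.x (.y c47 c40)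
  (.y c83 c84)) c84) (.y (.x (.y (.x (.y c83 c84) c84) c84) c84) c84)))))))))

theorem ok393 : okF 4 13 (-14) t393 = true := by decide +kernel

theorem all393 : AllA 393 := allA (D := 393) (thm_of_ok ok393)
  (l :=
    [(1553, 165, 6372, 677), (5, -1, 21, -4), (4, -1, -3, 1), (-20, 7, 17, -6),
     (-19, 10, -78, 41), (-39, -29, -160, -119), (97, -68, 398, -279)])
  (by decide +kernel)

/-- a cover for the form `(3, 19, -3)` of discriminant `397` -/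
def t397 : CT :=
  let c0 : CT := .l 1 0 0
  let c1 : CT := .l 1 0 (-1)
  let c2 : CT := .l 4 1 1
  let c3 : CT := .l 6 1 2
  let c4 : CT := .l 3 1 1
  let c5 : CT := .l 5 1 2
  let c6 : CT := .l 2 0 1
  let c7 : CT := .l 4 1 2
  let c8 : CT := .l 1 1 0
  let c9 : CT := .l 4 1 0
  let c10 : CT := .l 6 2 1
  let c11 : CT := .l 8 3 2
  let c12 : CT := .l 2 1 0
  let c13 : CT := .l 8 3 1
  let c14 : CT := .l 11 4 2
  let c15 : CT := .l 22 9 4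
  let c16 : CT := .l 12 5 2
  let c17 : CT := .l 2 1 1
  let c18 : CT := .l 2 1 2
  let c19 : CT := .l 4 0 1
  let c20 : CT := .l 4 1 (-3)
  let c21 : CT := .l 1 1 4
  let c22 : CT := .l 14 (-9) 5
  let c23 : CT := .l 36 14 7
  let c24 : CT := .l 1 (-167) 26
  let c25 : CT := .l 5 4 14
  let c26 : CT := .l 26 11 9
  let c27 : CT := .l 1 352 (-54)
  let c28 : CT := .l 2 (-103) (-673)
  let c29 : CT := .l 2 (-23) (-154)
  let c30 : CT := .l 3 25 155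
  let c31 : CT := .l 4 117 (-17)
  let c32 : CT := .l 19 (-20) 8
  let c33 : CT := .l 19 (-7) 6
  let c34 : CT := .l 3 31 (-4)
  let c35 : CT := .l 13 9 2
  let c36 : CT := .l 20 14 3
  let c37 : CT := .l 6 7 31
  let c38 : CT := .l 5 (-11) 3
  let c39 : CT := .l 1 (-673) 104
  let c40 : CT := .l 8 59 (-7)
  let c41 : CT := .l 15 19 1
  let c42 : CT := .l 12 (-25) 7
  let c43 : CT := .l 2 (-3) 1
  let c44 : CT := .l 1 2 0
  let c45 : CT := .l 4 2 1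
  let c46 : CT := .l 7 2 3
  let c47 : CT := .l 5 2 2
  let c48 : CT := .l 5 3 1
  let c49 : CT := .l 3 2 1
  let c50 : CT := .l 4 3 1
  let c51 : CT := .l 7 4 2
  let c52 : CT := .l 5 3 2
  let c53 : CT := .l 4 3 2
  let c54 : CT := .l 5 4 1
  let c55 : CT := .l 1 3 0
  let c56 : CT := .l 8 6 3
  let c57 : CT := .l 1 1 1
  let c58 : CT := .l 6 5 2
  let c59 : CT := .l 1 1 2
  let c60 : CT := .l 2 1 (-3)
  let c61 : CT := .l 4 3 0
  let c62 : CT := .l 8 7 3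
  let c63 : CT := .l 4 7 1
  let c64 : CT := .l 5 (-9) 4
  let c65 : CT := .l 1 (-23) (-154)
  let c66 : CT := .l 10 21 2
  let c67 : CT := .l 1 (-103) (-673)
  let c68 : CT := .l 5 2 (-11)
  let c69 : CT := .l 26 17 11
  let c70 : CT := .l 6 (-25) 7
  let c71 : CT := .l 1 (-3) 1
  let c72 : CT := .l 13 11 9
  let c73 : CT := .l 16 12 1
  let c74 : CT := .l 2 (-9) (-68)
  let c75 : CT := .l 19 11 (-20)
  let c76 : CT := .l 4 21 117
  let c77 : CT := .l 2 156 (-23)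
  let c78 : CT := .l 1 55 352
  let c79 : CT := .l 3 (-152) 25
  let c80 : CT := .l 1 (-25) (-167)
  let c81 : CT := .l 36 29 14
  let c82 : CT := .l 20 17 14
  let c83 : CT := .l 22 18 9
  let c84 : CT := .l 2 2 3
  let c85 : CT := .l 2 2 1
  .x (.x (.y (.x c0 (.y c0 (.x c0 (.y c0 (.x c1 c2))))) (.x c0 (.y (.x (.y c0 (.x c0 c3)) (.y
  (.x c1 c2) (.x c1 c4))) (.x (.y (.x c0 c5) c6) (.y (.x c5 c7) c6))))) (.y (.x (.y (.x (.y c0
  c0) (.y c0 c8)) (.x (.y (.x (.y c8 (.x c2 c9)) (.y c8 c4)) (.x c2 c4)) (.y (.x c10 (.y c8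
  c10)) (.x c4 (.y (.x c10 c11) c2))))) (.y (.x (.y c12 c8) c12) (.x (.y (.x (.y c8 (.x c13 (.y
  c10 (.x c14 (.y c14 c15))))) (.y c8 (.x c16 c17))) (.x (.y (.x (.y (.x c14 c13) c18) (.y (.x
  (.y c19 (.x c13 c20)) (.y (.x c19 c21) (.x (.y (.x (.y (.x (.y c19 (.x c20 (.y (.x c20 (.y c22
  (.x c23 c24))) (.x c20 (.y (.x c25 c25) c25))))) (.y (.x c23 (.y c23 c26)) (.x (.y (.x c24
  c26) (.x (.y (.x (.y c27 (.x c25 (.y (.x c25 c28) c29))) c30) (.x c29 (.y c31 c32))) c26))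
  c26))) (.x c25 (.y (.x (.y (.x (.y c33 c34) (.y c33 c34)) c34) c26) c35))) (.y (.x (.y (.x (.y
  c23 c36) c21) (.x (.y (.x (.y c36 (.x c27 c37)) c21) (.x c37 (.y c21 c37))) c21)) c21) (.x (.y
  (.x c34 c21) c35) c21))) (.x (.y (.x c20 (.y (.x (.y c35 c25) (.y c35 (.x (.y c38 (.x (.y c39
  c40) c30)) c26))) (.x c25 (.y (.x (.y c41 (.x c29 (.y c42 c43))) c26) c43)))) c43) (.y (.x (.y
  (.x c26 (.y c38 (.x c37 c21))) (.x c26 (.y (.x (.y c37 c43) c37) c43))) c21) c43))) c21))) (.x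
  (.y c43 c2) (.y c43 c2)))) (.x c18 c44)) (.y (.x c21 c17) c44))) (.y (.x c17 c12) (.x c17
  c45))))) (.x (.y (.x (.y (.x c2 c4) c4) c4) (.x (.y (.x (.y c5 c46) (.y c4 c46)) (.x c7 (.y
  c46 c7))) (.y c4 (.x (.y c6 c17) c4)))) (.y (.x (.y (.x (.y c45 c4) (.y c45 c4)) (.x c4 (.y c4
  c17))) c17) (.x (.y c47 c17) c17))))) (.x (.y (.x (.y c8 (.x c12 (.y (.x (.y c12 c48) (.y c8
  c48)) (.x c44 c48)))) (.y c8 (.x (.y (.x c49 c8) (.x c49 (.y c44 c49))) (.y c8 (.x (.y c44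
  c50) c50))))) (.x (.y (.x (.y (.x c45 c12) (.x c45 c12)) (.y (.x c51 (.y c48 c49)) c49)) (.x
  c17 (.y c52 c17))) (.y (.x c49 (.y (.x c49 c50) c49)) (.x (.y (.x (.y c52 c17) c49) c17) (.y
  (.x c49 c53) c17))))) (.y (.x (.y c8 (.x (.y c8 (.x c50 c54)) c8)) c8) (.x (.y (.x (.y (.x c50
  (.y c50 c49)) (.x c50 (.y c49 (.x (.y c55 c56) (.y c55 c56))))) (.y (.x (.y (.x c54 c57) c49)
  c57) (.x c58 c57))) (.x (.y (.x (.y (.x c56 c50) c59) (.y (.x (.y c6 (.x c50 c60)) (.y (.x c6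
  c61) (.x (.y (.x (.y c62 c63) (.y c62 c63)) (.x (.y (.x c60 (.y (.x (.y c63 (.x c60 (.y c64
  (.x (.y (.x c60 c65) c66) c65)))) (.y c63 (.x (.y c64 (.x (.y (.x c65 (.y c67 c66)) c66) (.y
  (.x c68 c68) c66))) c68))) (.x (.y (.x c60 (.y c69 (.x c60 c70))) c71) (.y (.x (.y c69 (.x c65
  (.y c70 c71))) c68) c71)))) c71) (.y (.x (.y (.x c72 (.y c64 (.x c73 (.y (.x c73 (.y (.x c74
  c74) c74)) c74)))) (.x c72 (.y (.x c73 (.y (.x c73 c74) c73)) c71))) (.y (.x (.y c64 (.x (.y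
  (.x (.y (.x c75 c76) c69) (.y (.x (.y (.x c77 (.y c77 (.x c77 c78))) c79) c78) c69)) c69) (.y
  (.x (.y (.x c80 c80) c69) c80) c69))) (.y c61 (.x (.y c81 c69) c81))) (.x (.y (.x (.y (.x c70
  (.y c70 c71)) c71) (.y (.x (.y c70 c71) c80) c71)) c71) (.y (.x c82 c61) c71)))) c71))) (.y
  c61 (.x (.y c61 c71) c61))))) (.x (.y c71 c17) (.y c71 c17)))) (.x c59 (.y c17 c53))) (.y (.x
  (.y (.x (.y c62 (.x c83 c84)) c58) (.x (.y c71 c17) c57)) c57) (.x (.y c17 c53) c57)))) (.y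
  (.x c57 c8) (.x c57 c85)))))

theorem ok397 : okF 3 19 (-3) t397 = true := by decide +kernel

theorem all397 : AllA 397 := allA (D := 397) (thm_of_ok ok397)
  (l :=
    [(19, 2, 123, 13), (-1, 0, -3, -1), (7, -6, -1, 1)])
  (by decide +kernel)

/-- a cover for the form `(3, 17, -10)` of discriminant `409` -/
def t409 : CT :=
  let c0 : CT := .l 1 0 0
  let c1 : CT := .l 1 1 0
  let c2 : CT := .l 2 1 0
  let c3 : CT := .l 7 2 1
  let c4 : CT := .l 8 3 2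
  let c5 : CT := .l 4 1 0
  let c6 : CT := .l 2 3 0
  let c7 : CT := .l 5 2 1
  let c8 : CT := .l 3 1 1
  let c9 : CT := .l 10 3 2
  let c10 : CT := .l 9 3 2
  let c11 : CT := .l 1 8 (-1)
  let c12 : CT := .l 1 2 0
  let c13 : CT := .l 1 2 3
  let c14 : CT := .l 3 0 1
  let c15 : CT := .l 10 1 4
  let c16 : CT := .l 7 1 3
  let c17 : CT := .l 7 0 3
  let c18 : CT := .l 1 3 0
  let c19 : CT := .l 1 18 34
  let c20 : CT := .l 1 54 101
  let c21 : CT := .l 11 (-4) (-2)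
  let c22 : CT := .l 7 (-4) (-4)
  let c23 : CT := .l 5 (-11) (-18)
  let c24 : CT := .l 4 (-29) (-52)
  let c25 : CT := .l 1 (-3) 1
  let c26 : CT := .l 1 126 235
  let c27 : CT := .l 19 (-5) 0
  let c28 : CT := .l 19 2 13
  let c29 : CT := .l 8 (-1) 2
  let c30 : CT := .l 2 7 14
  let c31 : CT := .l 3 3 7
  let c32 : CT := .l 4 (-1) 0
  let c33 : CT := .l 5 2 6
  let c34 : CT := .l 1 (-4) (-7)
  let c35 : CT := .l 19 3 9
  let c36 : CT := .l 1 3 6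
  let c37 : CT := .l 1 152 (-24)
  let c38 : CT := .l 17 (-3) 9
  let c39 : CT := .l 9 1 4
  let c40 : CT := .l 8 1 4
  let c41 : CT := .l 6 3 2
  let c42 : CT := .l 14 7 4
  let c43 : CT := .l 7 4 4
  let c44 : CT := .l 4 11 0
  let c45 : CT := .l 17 6 3
  let c46 : CT := .l 8 1 (-2)
  let c47 : CT := .l 1 9 (-1)
  let c48 : CT := .l 10 7 8
  let c49 : CT := .l 1 18 33
  let c50 : CT := .l 6 7 10
  let c51 : CT := .l 1 71 (-11)
  let c52 : CT := .l 4 (-51) 10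
  let c53 : CT := .l 7 (-4) (-11)
  let c54 : CT := .l 9 3 4
  let c55 : CT := .l 4 1 2
  let c56 : CT := .l 7 3 3
  let c57 : CT := .l 4 (-1) 2
  let c58 : CT := .l 14 3 6
  let c59 : CT := .l 16 9 6
  let c60 : CT := .l 1 4 7
  let c61 : CT := .l 3 3 4
  let c62 : CT := .l 8 3 4
  let c63 : CT := .l 5 4 2
  let c64 : CT := .l 3 4 1
  let c65 : CT := .l 4 3 4
  let c66 : CT := .l 1 (-3) (-6)
  let c67 : CT := .l 7 0 4
  let c68 : CT := .l 2 7 0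
  let c69 : CT := .l 19 11 9
  let c70 : CT := .l 19 5 10
  let c71 : CT := .l 1 109 (-17)
  let c72 : CT := .l 1 16 (-2)
  let c73 : CT := .l 5 (-7) 4
  let c74 : CT := .l 6 9 2
  let c75 : CT := .l 1 1 1
  let c76 : CT := .l 1 0 (-1)
  let c77 : CT := .l 17 11 3
  let c78 : CT := .l 1 (-4) 1
  let c79 : CT := .l 9 8 2
  let c80 : CT := .l 1 (-1) (-3)
  let c81 : CT := .l 2 17 (-2)
  let c82 : CT := .l 14 11 4
  let c83 : CT := .l 5 4 1
  let c84 : CT := .l 3 3 2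
  let c85 : CT := .l 6 5 2
  let c86 : CT := .l 8 7 2
  let c87 : CT := .l 5 3 2
  let c88 : CT := .l 2 5 0
  let c89 : CT := .l 12 9 4
  let c90 : CT := .l 3 2 2
  let c91 : CT := .l 7 4 3
  let c92 : CT := .l 18 9 8
  let c93 : CT := .l 2 7 12
  let c94 : CT := .l 1 (-71) 12
  let c95 : CT := .l 1 (-15) 3
  let c96 : CT := .l 8 5 4
  let c97 : CT := .l 13 10 4
  let c98 : CT := .l 7 6 2
  let c99 : CT := .l 3 3 1
  let c100 : CT := .l 4 3 2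
  let c101 : CT := .l 7 7 3
  let c102 : CT := .l 10 11 8
  let c103 : CT := .l 20 21 8
  let c104 : CT := .l 1 (-9) (-18)
  let c105 : CT := .l 1 78 (-12)
  let c106 : CT := .l 4 7 8
  let c107 : CT := .l 6 3 (-2)
  let c108 : CT := .l 14 17 14
  let c109 : CT := .l 16 13 4
  let c110 : CT := .l 10 11 4
  let c111 : CT := .l 1 (-2) (-5)
  let c112 : CT := .l 1 5 8
  let c113 : CT := .l 4 5 4
  let c114 : CT := .l 18 17 8
  let c115 : CT := .l 17 14 8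
  let c116 : CT := .l 8 7 4
  let c117 : CT := .l 1 4 0
  let c118 : CT := .l 1 (-17) (-33)
  .x (.y (.x (.y c0 c0) (.y (.x (.y c0 c1) (.y c2 c1)) (.x (.y (.x c0 (.y c1 (.x (.y c1 (.x (.y
  c3 c3) (.y (.x c4 c5) c6))) c7))) (.x (.y c0 c8) (.y (.x (.y c9 c7) c7) (.x (.y c10 (.x c8
  c10)) (.y c7 c4))))) (.y (.x (.y c1 (.x c7 (.y c1 c7))) (.y c1 (.x (.y (.x c1 (.y c1 c6)) c7)
  (.y c6 c7)))) (.x (.y c7 (.x (.y c7 c4) c7)) (.y (.x c7 (.y c7 (.x (.y c7 (.x c7 (.y c11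
  c12))) (.y c13 (.x (.y c11 c12) c13))))) (.x (.y (.x c7 c12) c12) c12))))))) (.x (.y (.x (.y
  (.x c0 c0) (.x c14 (.y c14 (.x c14 c0)))) c0) (.x (.y (.x (.y c14 (.x c14 c14)) (.y (.x c14
  c0) (.x c14 (.y c15 c16)))) (.x (.y (.x c17 c14) (.x (.y c18 (.x (.y c18 (.x (.y c18 (.x (.y
  c18 (.x (.y c18 (.x (.y c18 c19) (.y c18 (.x c19 (.y (.x c19 c20) c19))))) (.y c18 (.x (.y c18
  (.x c20 c21)) (.y (.x (.y c18 (.x (.y c18 (.x c18 c22)) c22)) c22) (.x (.y (.x (.y (.x c23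
  c24) c23) c22) c25) c25)))))) (.y c18 (.x (.y c18 (.x (.y (.x c22 (.y (.x c22 (.y c18 c26))
  (.x c22 (.y c26 c25)))) c25) (.y (.x (.y (.x c27 (.y c18 (.x c27 c28))) c25) c28) c25))) (.y
  c29 (.x (.y c30 c30) c30)))))) (.y c18 (.x (.y c18 (.x c29 (.y (.x c29 (.y (.x c29 c31) c25))
  c29))) (.y c31 (.x (.y c31 c25) c31)))))) (.y c18 (.x (.y c18 (.x c32 (.y (.x c32 c33) c32)))
  c34)))) (.y c18 (.x (.y c18 c17) (.y (.x (.y c18 (.x (.y c18 (.x c18 c35)) c14)) c14) (.x (.y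
  (.x (.y (.x c17 (.y (.x (.y (.x c17 (.y (.x c36 c37) c37)) c36) c38) c25)) c25) c25) c25)
  c25)))))) (.y (.x c14 (.y c39 c18)) (.x c14 (.y c40 c40))))) (.y c0 (.x (.y (.x (.y c16 c18)
  c0) (.x (.y (.x c39 (.y c35 c40)) c40) (.y c0 c40))) c0)))) (.y (.x (.y (.x c8 (.y c12 c8))
  c8) (.y (.x (.y c12 c8) (.y (.x (.y c12 (.x c7 c41)) (.y c12 (.x c41 c42))) c8)) (.x c8 (.y
  (.x c8 c41) (.x (.y c41 (.x (.y c8 c8) (.y (.x (.y c41 c8) (.y c41 (.x (.y c41 c43) (.y c41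
  (.x (.y c41 (.x c43 c41)) c41))))) (.x (.y (.x (.y c8 c8) (.y (.x c8 c43) (.x (.y c44 (.x (.y
  c44 c45) c46)) c43))) (.x c5 (.y (.x (.y (.x (.y c45 c47) c47) c47) c47) c47))) (.y (.x c43
  (.y (.x c44 (.y c44 (.x c44 c48))) (.x c43 (.y (.x (.y c49 c49) c49) c47)))) c47))))) (.y c41
  (.x (.y c41 (.x (.y (.x (.y (.x (.y c44 (.x c50 (.y c44 (.x c50 (.y c51 c52))))) (.y c44 (.x
  (.y c51 (.x c53 (.y c51 (.x c53 c41)))) c41))) (.x (.y (.x (.y c50 c48) (.y (.x c50 c47) c50))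
  c47) c47)) (.y c41 c47)) c47) (.y c41 c47))) (.y c41 c47)))))))) (.x (.y (.x c0 (.y c8 (.x (.y
  c8 c18) c8))) (.x c0 (.y (.x (.y c54 c25) (.y c54 c25)) c55))) (.y (.x (.y (.x c8 (.y c8 c8))
  (.x c8 c56)) (.y (.x (.y (.x (.y c47 (.x (.y c8 c57) (.y (.x c4 (.y c5 c57)) c57))) (.y (.x
  (.y c47 c5) (.y c47 (.x (.y c47 (.x (.y c47 c57) c57)) c43))) (.x c5 (.y c57 (.x c5 (.y (.x
  c57 (.y c57 (.x c58 c46))) (.x (.y (.x c5 c59) c59) c59))))))) (.x (.y (.x (.y (.x c8 (.y (.x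
  c57 c60) (.x (.y (.x c8 (.y (.x (.y c58 c59) c60) c59)) c59) (.y c60 c59)))) c18) (.y c60
  c18)) c56) (.y (.x (.y (.x (.y c5 c60) c18) c18) c18) c18))) (.y (.x (.y (.x (.y c47 (.x c43
  (.y (.x (.y c47 c57) (.y (.x c50 c57) c57)) c57))) (.y (.x c47 (.y c47 (.x (.y c47 (.x (.y c47
  c57) c57)) c61))) c57)) (.x (.y c57 (.x (.y c43 c59) c43)) (.y (.x (.y c57 (.x c57 (.y c57 (.x
  c58 (.y c58 c59))))) (.y c57 (.x (.y c58 (.x (.y c58 c59) c59)) (.y c58 c59)))) (.x (.y c59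
  c18) c18)))) (.y (.x (.y (.x c61 c7) c61) c7) (.x (.y (.x (.y c57 (.x (.y (.x c58 c61) c59)
  c61)) c61) c18) c7))) c18)) (.x c56 (.y c18 (.x c56 (.y c56 c25)))))) (.x (.y (.x c8 (.y c56
  c8)) (.x (.y c55 c62) c8)) (.y (.x (.y c56 (.x c56 c56)) (.y (.x (.y c25 (.x c25 c60)) (.y c25
  c63)) c55)) (.x (.y (.x (.y c56 (.x c55 c56)) c56) (.x (.y c62 (.x c62 (.y c62 c8))) c56)) (.y
  (.x (.y (.x c55 c64) (.x (.y (.x c56 (.y (.x c65 c62) c62)) c65) c66)) (.y (.x (.y c64 (.x (.y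
  c64 (.x c66 (.y c64 c62))) c60)) (.y c64 c60)) c62)) (.x (.y (.x (.y c62 c56) (.y c62 (.x c65
  (.y c66 (.x (.y c66 c65) c66))))) (.x c56 (.y (.x c65 (.y c67 (.x c65 (.y c67 c65)))) c65)))
  (.y (.x (.y c68 c66) (.y (.x c68 c60) (.x (.y (.x (.y (.x c66 (.y c69 c70)) c66) (.y (.x (.y
  c69 c70) c60) (.x (.y (.x (.y c70 c71) c71) c67) c60))) c67) c60))) (.x (.y c66 (.x (.y c66
  c72) c66)) (.y (.x (.y (.x c66 (.y c67 c66)) c66) (.y (.x (.y c67 (.x (.y (.x (.y c67 c73) (.y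
  c60 c73)) c73) c60)) c60) (.x c74 c60))) (.x c66 c72)))))))))))))) (.y (.x (.y c1 (.x (.y (.x
  (.y c1 (.x (.y c75 c7) c75)) c2) (.x (.y (.x (.y (.x (.y c7 (.x c13 (.y c7 (.x c13 c75))))
  c75) (.x (.y c11 c13) (.y c75 c12))) c75) c12) (.y c2 c75))) (.y (.x (.y c1 (.x c76 (.y c1 (.x
  (.y c77 c76) (.y (.x (.y c77 c11) c1) c12))))) (.y c1 (.x (.y c1 (.x (.y c1 c12) c12)) (.y c1
  c12)))) (.x (.y c12 (.x c12 c76)) (.y c12 (.x (.y c12 (.x c78 (.y c78 (.x c78 c63)))) (.y c12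
  (.x (.y c78 (.x c63 (.y c78 c79))) c80)))))))) (.y c1 (.x (.y c1 (.x (.y c12 (.x (.y c12 (.x
  (.y c78 (.x (.y c79 c80) (.y c79 (.x (.y (.x (.y c79 c80) c81) (.x c80 c82)) c82)))) (.y c83
  c84))) (.y c83 (.x (.y c83 c85) c83)))) (.y c12 (.x c83 (.y c79 c86))))) (.y c1 (.x (.y c1 (.x
  (.y c79 c86) c1)) c1))))) (.x (.y (.x (.y (.x (.y (.x (.y c12 (.x c78 (.y c78 (.x c78 c13))))
  (.y (.x c12 c75) (.x c13 c75))) (.x c8 c8)) (.y c75 c75)) (.x (.y c41 (.x c41 (.y (.x c41 c87)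
  (.x c41 c87)))) (.y (.x (.y c41 (.x c87 c75)) c75) (.x c87 c75)))) (.y (.x (.y (.x c75 c76)
  (.x c75 c2)) (.y (.x (.y (.x c76 (.y (.x c76 c63) (.x c76 (.y (.x c76 c63) c8)))) c8) (.y (.x
  (.y (.x c63 (.y (.x c63 (.y (.x c63 c80) (.x c63 (.y c81 c63)))) c63)) c63) (.y (.x (.y c80
  (.x (.y c80 c8) c80)) c80) c8)) (.x c8 (.y c8 (.x c63 (.y c8 c63)))))) (.x c76 (.y (.x (.y c88
  (.x c76 c63)) c63) (.x c76 c63))))) (.x c75 (.y (.x c76 (.y (.x c76 c89) c89)) (.x c75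
  c76))))) (.x (.y (.x (.y (.x (.y (.x c90 c41) c18) (.y c87 c87)) (.x (.y c87 c25) c91)) c87)
  (.x (.y (.x (.y (.x (.y c91 c92) c91) (.x c55 (.y c55 c64))) (.y c91 (.x (.y c90 (.x (.y c64
  c61) c90)) c90))) (.x (.y (.x (.y (.x c5 (.y (.x (.y c64 (.x c64 c92)) c92) (.x (.y (.x c5
  c43) c62) c62))) (.x c62 (.y c62 c68))) (.y (.x c43 (.y (.x (.y (.x c43 (.y c64 (.x c43 (.y
  (.x (.y c64 c43) c93) c94)))) c43) (.y (.x c93 (.y (.x c93 c61) c94)) c62)) c62)) (.x c43 (.y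
  c68 c43)))) (.x (.y (.x (.y (.x c60 (.y c69 c60)) c60) (.y c5 (.x (.y c67 (.x c60 c5)) c5)))
  (.x (.y c60 c72) (.y (.x (.y (.x c74 c5) c72) c5) (.x c60 (.y c72 c95))))) (.y (.x (.y c43 (.x
  (.y (.x c5 c43) c5) c43)) c43) (.x (.y (.x c5 c72) c95) c43)))) (.y (.x (.y (.x (.y c61 c62)
  c90) (.x (.y c68 (.x (.y c69 (.x c43 c43)) (.y c69 (.x c93 (.y c61 c67))))) (.y c90 c61)))
  c90) (.x (.y (.x (.y (.x c43 (.y c67 (.x c43 c93))) c43) (.y (.x (.y c61 (.x (.y c61 c74)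
  c90)) c90) (.x (.y (.x (.y c74 c93) c61) c72) c90))) (.x c43 (.y c95 (.x c43 (.y (.x c93 c90)
  (.x c93 (.y c90 c43))))))) c90)))) (.y (.x (.y c91 (.x (.y c91 c90) c91)) (.y c87 (.x c91
  c87))) (.x (.y (.x c90 (.y c91 c90)) c90) (.y c96 c96))))) (.y (.x c75 (.y (.x c75 (.y c76
  c75)) c75)) (.x (.y (.x c75 c75) (.x (.y c87 c96) c75)) c75)))) (.y (.x (.y (.x (.y (.x (.y
  (.x (.y (.x c80 (.y (.x (.y (.x c80 (.y (.x c80 c82) c80)) c80) c82) c8)) c8) (.y (.x c82 c84)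
  c8)) (.x c80 (.y c8 c88))) (.y c8 (.x c84 c85))) (.x (.y (.x (.y c97 c97) c82) c97) (.y (.x
  c82 c85) (.x c97 c85)))) (.y (.x (.y c86 c98) (.y c86 c98)) (.x (.y c98 c85) c98))) (.x (.y
  (.x (.y (.x c63 c97) c63) c85) (.x c63 c99)) (.y c85 c99))) (.y (.x (.y (.x (.y c86 c98) c99)
  (.x (.y c98 (.x c98 c99)) c99)) c99) c99)) (.x (.y (.x (.y c63 (.x c76 c63)) (.y c63 (.x c63
  (.y (.x c63 c84) (.x c63 c84))))) (.x (.y (.x c75 (.y (.x c76 c63) c76)) c100) (.y (.x c63 (.y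
  (.x c80 (.y c84 c101)) (.x c63 (.y (.x c80 c84) c100)))) c100))) (.y (.x (.y (.x (.y c99 (.x
  c63 (.y c63 c64))) (.y c99 c64)) (.x (.y (.x (.y c64 c85) (.y c64 (.x (.y (.x (.y c64 c68) (.y
  (.x c64 (.y c64 c68)) c68)) c68) (.y (.x (.y (.x (.y c64 c68) c62) c68) c68) c68)))) (.x c84
  (.y (.x (.y (.x c85 (.y c68 (.x c85 (.y (.x (.y (.x c68 c102) c103) c103) (.x (.y c103 (.x c85
  (.y (.x c85 c104) (.x c85 (.y (.x c85 c104) c85))))) c104))))) (.x c85 (.y (.x c85 (.y (.x c85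
  c67) c67)) (.x c85 (.y (.x c85 (.y c105 c85)) c85))))) (.y (.x (.y (.x c104 (.y c68 (.x (.y
  c68 c104) c106))) (.x c104 (.y (.x c104 (.y c103 (.x c104 c106))) (.x c104 (.y (.x c104 (.y
  c106 c67)) c104))))) (.y (.x (.y c68 c106) (.y (.x c68 c107) c103)) (.x c106 (.y (.x (.y (.x
  c106 (.y c103 c108)) c106) (.y c107 (.x (.y c109 c67) c109))) c67)))) (.x (.y c104 (.x (.y (.x
  (.y c105 c74) c104) c74) c104)) (.y (.x (.y c67 (.x (.y c105 c104) c106)) (.y (.x c106 (.y c67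
  c106)) c106)) c74)))) (.x c85 (.y (.x (.y c74 c72) c110) (.x (.y c72 c101) c101)))))) (.y (.x
  (.y (.x c83 (.y c64 c83)) (.x c111 c83)) (.y (.x c98 (.y c64 c68)) (.x c112 (.y (.x c98 c113)
  (.x c98 (.y c113 c114)))))) (.x (.y (.x (.y c111 (.x (.y (.x (.y (.x (.y c109 c105) c111) c74)
  c111) c74) c111)) c111) (.x (.y c72 c101) c111)) (.y (.x (.y (.x c83 c112) c83) c114)
  c101))))) (.y (.x (.y c99 (.x c64 c99)) c99) (.x (.y (.x (.y (.x (.y (.x c64 (.y c64 c68))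
  c68) (.y (.x (.y c64 c68) (.y c64 c68)) c68)) (.x (.y (.x (.y c68 c113) (.y c68 (.x (.y (.x
  c68 (.y c68 c103)) c103) c101))) (.x c113 c101)) (.y (.x (.y c101 c101) c101) c101))) (.y c101
  c101)) c101) c101))) (.x (.y (.x (.y (.x c84 (.y c101 c101)) c84) (.y (.x (.y c101 (.x c101
  (.y c114 c114))) (.y c101 c114)) (.x (.y (.x (.y (.x c84 (.y c96 c115)) c100) (.y (.x (.y c96
  c115) (.y (.x c106 (.y c96 c115)) (.x (.y c115 c100) c106))) c100)) c100) (.y (.x (.y (.x (.y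
  c115 (.x (.y c115 c100) c111)) c111) c100) c111) c100)))) (.x (.y c100 c116) (.y c100 c116)))
  (.y (.x (.y (.x c114 c101) (.x (.y (.x (.y c114 c100) c114) c100) (.y c100 c100))) (.y c101
  c100)) (.x (.y (.x (.y c100 (.x c100 c117)) (.y c100 c117)) c117) (.y (.x (.y (.x c100 (.y
  c100 c117)) c117) (.y (.x (.y c100 c117) c117) c117)) (.x c117 (.y c117 (.x c117 (.y c117 (.x
  c117 (.y c117 (.x c117 (.y c117 (.x c117 (.y c117 c118)))))))))))))))))))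

theorem ok409 : okF 3 17 (-10) t409 = true := by decide +kernel

theorem all409 : AllA 409 := allA (D := 409) (thm_of_ok ok409)
  (l :=
    [(-106365, -11066, -659884, -68653), (-3486741678, 657139655, 1873396327, -353075487),
     (-7934687179, -2476526536, -49226466552, -15364266787),
     (19660180204, -6772439953, -10563245799, 3638773762), (-4733, 2038, 2543, -1095),
     (15580, -8809, -8371, 4733), (-19022557, -14994381, -118015146, -93024511),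
     (-217025, -228091, -1346414, -1415067), (-9026303, 5968078, 4849755, -3206597),
     (-15364266787, -17840793323, -95319266913, -110683533700)])
  (by decide +kernel)

end Pool.Agent.Mukai
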