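import Pool.Agent.Work.MP_1e087a_ag.R4.Table

/-!
# Covers for the discriminants from 412 to 428
-/

namespace Pool.Agent.Mukai

/-- a cover for the form `(9, 14, -6)` of discriminant `412` -/
def t412 : CT :=
  let c0 : CT := .l 1 0 0
  let c1 : CT := .l 4 1 1
  let c2 : CT := .l 5 0 2
  let c3 : CT := .l 1 (-1) 1
  let c4 : CT := .l 1 1 0
  let c5 : CT := .l 4 1 0
  let c6 : CT := .l 7 2 0
  let c7 : CT := .l 2 1 0
  let c8 : CT := .l 1 0 (-1)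
  let c9 : CT := .l 3 1 1
  let c10 : CT := .l 5 1 (-1)
  let c11 : CT := .l 1 (-7) 4
  let c12 : CT := .l 1 1 2
  let c13 : CT := .l 10 3 2
  let c14 : CT := .l 20 7 3
  let c15 : CT := .l 2 3 7
  let c16 : CT := .l 2 1 1
  let c17 : CT := .l 1 (-1) (-4)
  let c18 : CT := .l 9 5 1
  let c19 : CT := .l 1 (-3) 2
  let c20 : CT := .l 5 2 0
  let c21 : CT := .l 2 1 2
  let c22 : CT := .l 4 1 2
  let c23 : CT := .l 14 5 7
  let c24 : CT := .l 1 1 1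
  let c25 : CT := .l 3 2 2
  let c26 : CT := .l 5 3 2
  let c27 : CT := .l 3 2 1
  let c28 : CT := .l 4 3 2
  let c29 : CT := .l 6 5 2
  let c30 : CT := .l 7 6 2
  let c31 : CT := .l 8 7 3
  let c32 : CT := .l 2 3 0
  let c33 : CT := .l 6 5 1
  let c34 : CT := .l 12 11 4
  let c35 : CT := .l 15 14 5
  let c36 : CT := .l 5 5 3
  let c37 : CT := .l 14 13 5
  let c38 : CT := .l 1 (-46) 25
  let c39 : CT := .l 2 9 (-3)
  let c40 : CT := .l 5 5 2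
  let c41 : CT := .l 1 15 (-7)
  let c42 : CT := .l 9 8 4
  let c43 : CT := .l 3 2 (-1)
  let c44 : CT := .l 4 (-1) 4
  let c45 : CT := .l 5 (-5) 7
  let c46 : CT := .l 2 3 4
  let c47 : CT := .l 1 (-2) 2
  let c48 : CT := .l 8 7 4
  let c49 : CT := .l 1 0 1
  let c50 : CT := .l 11 10 3
  .x (.x (.y (.x c0 (.y c0 (.x c0 (.y (.x c0 (.y c0 c1)) (.x c0 c1))))) (.x (.y c0 (.x (.y (.x
  c2 c0) (.x c3 (.y c3 c4))) (.y c0 (.x (.y c3 c4) c4)))) (.y (.x c0 (.y (.x c1 c1) (.x c0 (.y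
  (.x c0 (.y c1 c3)) c3)))) (.x c0 (.y c4 c0))))) (.y (.x (.y (.x (.y (.x c0 (.y c5 (.x c5 c6)))
  (.x (.y c5 c7) c7)) (.y (.x (.y c8 c7) c8) c7)) (.x (.y (.x (.y c7 (.x (.y c7 c1) c9)) (.y (.x
  c7 c7) (.x c9 (.y c5 c9)))) (.x c1 c9)) (.y (.x (.y (.x (.y c7 (.x (.y c7 c7) (.y c7 (.x c10
  (.y c7 c10))))) (.y c7 (.x (.y c7 c11) c12))) (.x (.y (.x c5 (.y (.x (.y c11 c5) c10) (.x c5
  (.y c10 (.x c5 c10))))) (.x c5 (.y c13 c13))) (.y (.x (.y (.x c14 c14) (.x c10 c15)) c12) (.x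
  c13 c13)))) (.y (.x c12 c16) c12)) (.x (.y c1 c9) (.y (.x c1 c12) (.x (.y (.x c9 (.y (.x c15
  c12) c9)) c9) (.y c12 c9))))))) (.y (.x c7 c7) (.x (.y (.x c8 (.y (.x c8 (.y c7 c8)) c8)) (.x
  c16 c8)) (.y (.x (.y (.x c7 c7) (.x (.y (.x c8 (.y c17 (.x c18 c17))) (.x c8 (.y (.x c8 (.y
  c17 c19)) c19))) (.y (.x c17 (.y c7 c20)) (.x (.y c20 c19) c20)))) (.y c7 (.x (.y c7 (.x c19
  (.y c19 c4))) (.y c7 c4)))) (.x (.y (.x c8 (.y (.x (.y c19 c4) c17) c4)) c4) c4))))) (.x (.y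
  (.x (.y (.x c1 c9) c9) c9) (.x (.y (.x c4 (.y c9 (.x (.y c9 (.x c4 c21)) c21))) (.x c22 c22))
  (.y c9 (.x (.y c22 (.x c22 (.y c22 c21))) (.y c9 (.x (.y (.x c23 c9) c23) c16)))))) (.y (.x
  (.y c4 c4) (.y c4 c16)) (.x (.y (.x c9 c16) c16) c16))))) (.x (.y (.x (.y (.x c7 (.y c7 (.x c7
  (.y (.x c7 (.y c7 c4)) c4)))) (.x (.y c7 c4) c4)) (.y (.x (.y c24 c4) c4) c4)) (.x (.y (.x (.y
  c4 (.x (.y c4 c16) (.y (.x (.y c4 (.x (.y c4 c16) c25)) (.y c4 c25)) (.x c16 c16)))) (.y (.x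
  c4 c7) (.x (.y (.x c26 c26) c26) c27))) (.x c16 c16)) (.y (.x c27 (.y c27 (.x c27 c24))) (.x
  (.y c16 (.x c16 (.y c16 c7))) (.y (.x c27 (.y c24 c28)) (.x (.y c27 c28) c28)))))) (.y (.x c4
  c4) (.x (.y (.x (.y (.x c27 (.y c27 c24)) c24) (.y (.x (.y c4 c29) c30) (.x c29 (.y c29 (.x
  c29 c31))))) (.x c24 (.y (.x c24 (.y (.x c31 c31) c24)) c24))) (.y (.x (.y (.x c4 c4) (.x (.y
  (.x (.y c29 (.x c30 (.y c30 c30))) (.y c32 (.x (.y (.x c32 c32) c33) c34))) (.x c31 c31)) (.y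
  (.x c34 (.y c34 c35)) (.x (.y c31 (.x c31 c36)) c37)))) (.y c4 (.x (.y c4 (.x (.y (.x c37 (.y
  c37 (.x c37 (.y c37 (.x (.y c37 (.x c37 (.y c37 (.x c37 (.y c4 c38))))) c4))))) (.x (.y c37
  c37) (.y (.x c35 (.y (.x (.y (.x (.y c38 c39) (.y c38 c39)) c39) c39) (.x (.y c39 (.x c35
  c40)) c40))) (.x c35 (.y (.x (.y (.x c35 c40) c40) c40) c40))))) (.y c40 c40))) (.y c4 c40))))
  (.x (.y (.x (.y (.x c31 (.y c31 (.x c31 (.y (.x c31 (.y c31 (.x c31 c41))) (.x c31 (.y (.x c31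
  (.y (.x c41 (.y c41 c28)) c28)) c28)))))) (.x c42 (.y c28 c42))) (.y (.x (.y (.x (.y (.x c33
  c43) c33) c43) (.x (.y (.x (.y (.x c44 c33) (.x c41 (.y c41 (.x c41 c33)))) c33) (.x (.y (.x
  (.y (.x (.y c41 c28) (.y c45 c28)) c28) c28) c28) c28)) (.y (.x (.y c43 c33) c43) c28))) (.y
  (.x c36 c46) (.x (.y c36 c43) c28))) (.x (.y c28 c42) (.y (.x c28 c40) c40)))) (.x (.y c42
  c24) (.y (.x (.y c40 (.x c42 (.y c40 c47))) (.y c40 c47)) (.x (.y c48 c24) c49)))) (.y (.x (.y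
  (.x (.y (.x (.y (.x c37 (.y c41 c37)) (.x c46 c37)) (.y (.x (.y c35 c50) c40) c40)) c28) c40)
  c40) c40) (.x (.y (.x (.y c40 (.x c47 c49)) (.y c47 c49)) c49) (.y (.x (.y c40 c49) c49)
  c49))))))))

theorem ok412 : okF 9 14 (-6) t412 = true := by decide +kernel

theorem all412 : AllA 412 := allA (D := 412) (thm_of_ok ok412)
  (l :=
    [(-203, 20, 71, -7), (5, 1, 9, 2), (-275, 74, -524, 141), (1, 1, -1, 0), (10, 11, 19, 21)])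
  (by decide +kernel)

/-- a cover for the form `(1, 19, -13)` of discriminant `413` -/
def t413 : CT :=
  let c0 : CT := .l 1 0 0
  let c1 : CT := .l 1 1 0
  let c2 : CT := .l 1 1 1
  let c3 : CT := .l 1 2 0
  let c4 : CT := .l 6 3 1
  let c5 : CT := .l 1 3 0
  let c6 : CT := .l 6 2 1
  let c7 : CT := .l 1 4 0
  let c8 : CT := .l 5 2 1
  let c9 : CT := .l 9 3 2
  let c10 : CT := .l 4 1 1
  let c11 : CT := .l 4 2 1
  let c12 : CT := .l 2 1 0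
  let c13 : CT := .l 4 3 1
  let c14 : CT := .l 6 4 1
  let c15 : CT := .l 1 0 (-1)
  let c16 : CT := .l 9 5 2
  let c17 : CT := .l 3 2 1
  let c18 : CT := .l 5 4 1
  let c19 : CT := .l 6 5 1
  let c20 : CT := .l 8 7 2
  let c21 : CT := .l 1 5 0
  let c22 : CT := .l 3 3 1
  let c23 : CT := .l 9 8 2
  let c24 : CT := .l 4 4 1
  let c25 : CT := .l 4 0 1
  let c26 : CT := .l 3 0 1
  let c27 : CT := .l 2 1 1
  let c28 : CT := .l 3 1 1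
  let c29 : CT := .l 7 3 2
  let c30 : CT := .l 8 4 3
  let c31 : CT := .l 10 1 4
  let c32 : CT := .l 2 0 1
  let c33 : CT := .l 13 2 5
  let c34 : CT := .l 2 (-3) 1
  let c35 : CT := .l 12 2 5
  let c36 : CT := .l 2 1 2
  let c37 : CT := .l 3 6 1
  let c38 : CT := .l 7 2 3
  let c39 : CT := .l 4 1 2
  let c40 : CT := .l 2 2 1
  let c41 : CT := .l 5 4 2
  let c42 : CT := .l 5 3 2
  let c43 : CT := .l 4 3 2
  .y (.x (.y (.x c0 (.y c0 (.x c0 (.y c1 (.x c2 (.y (.x c3 c1) (.x (.y (.x c2 c4) c2) c5)))))))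
  (.x c0 (.y (.x (.y c0 (.x c0 c6)) (.y (.x (.y c5 (.x (.y c5 c6) c2)) (.y c5 c4)) (.x (.y c6
  c7) c2))) (.x (.y (.x c0 c8) (.x c0 (.y c9 c10))) (.y (.x c8 c2) (.x (.y c8 c10) c11)))))) (.y
  (.x (.y c1 (.x c12 c1)) c1) (.x (.y (.x (.y (.x (.y c5 (.x c4 c12)) c12) (.x (.y c4 c7) c12))
  (.y (.x (.y (.x c12 c13) c14) (.y c1 (.x (.y (.x c14 (.y c1 c14)) c14) (.y c15 c14)))) (.x c14
  (.y c14 (.x c14 (.y c14 c8)))))) (.x (.y (.x (.y c8 (.x c11 c16)) (.y (.x c17 c12) (.x c17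
  c12))) (.x c11 c17)) (.y (.x (.y (.x c12 c14) c12) c13) (.x c12 c13)))) (.y (.x (.y (.x c1 c1)
  (.x c18 c19)) c1) (.x (.y c18 (.x c13 (.y (.x c18 c20) c13))) (.y (.x (.y c18 (.x c21 c22))
  c1) (.x (.y (.x c23 c22) c13) c24))))))) (.x (.y (.x (.y (.x (.y (.x c25 c0) (.x c25 c0)) c0)
  (.x (.y c26 c26) c0)) (.y (.x (.y (.x c10 c27) c28) (.y (.x (.y c11 c29) c11) (.x (.y c29 c28)
  (.y c29 c28)))) (.x c28 (.y c28 (.x c28 (.y c28 (.x c28 c30))))))) (.x (.y (.x (.y (.x c26 (.y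
  c26 c31)) (.x c32 (.y (.x c26 c31) (.x c32 c32)))) (.y (.x (.y (.x (.y c0 c33) c0) (.x (.y c31
  c31) c0)) c0) (.x (.y (.x (.y (.x (.y c31 c34) c35) c35) c35) (.x (.y (.x (.y c35 c36) (.y c35
  c37)) c32) (.y c35 c38))) c0))) (.x c32 (.y (.x c32 c39) c32))) (.y (.x (.y (.x c0 c28) c0)
  c27) (.x c0 c27)))) (.y (.x (.y (.x (.y (.x c11 c17) (.x c11 c17)) (.y (.x (.y c13 c17) c13)
  (.x c17 (.y (.x c17 c13) c17)))) (.x (.y c17 (.x (.y c17 (.x c30 c2)) c17)) c17)) (.y (.x (.y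
  (.x c13 c40) (.x c13 (.y c40 (.x c17 c40)))) (.y (.x (.y c24 (.x c20 c24)) c24) c22)) (.x (.y
  c17 (.x (.y c22 c41) (.y c22 (.x c13 c40)))) (.y c22 (.x c40 c22))))) (.x (.y (.x (.y (.x (.y
  (.x c30 c2) c42) c42) (.x c27 c2)) (.y (.x (.y c17 c42) c17) (.x c2 c17))) (.x c27 (.y (.x c27
  c43) c27))) (.y (.x (.y (.x c41 (.y (.x c41 c41) c41)) (.x (.y c41 (.x c17 c41)) (.y c41
  c40))) c40) (.x (.y (.x (.y (.x c17 c12) c32) c40) c40) c40)))))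

theorem ok413 : okF 1 19 (-13) t413 = true := by decide +kernel

theorem all413 : AllA 413 := allA (D := 413) (thm_of_ok ok413)
  (l :=
    [(-1, 0, -9, -1), (-2, 1, 1, -1)])
  (by decide +kernel)

/-- a cover for the form `(2, 19, -7)` of discriminant `417` -/
def t417 : CT :=
  let c0 : CT := .l 1 0 0
  let c1 : CT := .l 1 1 0
  let c2 : CT := .l 1 2 0
  let c3 : CT := .l 1 1 2
  let c4 : CT := .l 3 1 0
  let c5 : CT := .l 3 1 1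
  let c6 : CT := .l 5 2 1
  let c7 : CT := .l 11 4 3
  let c8 : CT := .l 1 0 (-1)
  let c9 : CT := .l 4 2 1
  let c10 : CT := .l 3 0 1
  let c11 : CT := .l 2 0 1
  let c12 : CT := .l 11 5 4
  let c13 : CT := .l 3 0 (-1)
  let c14 : CT := .l 5 1 1
  let c15 : CT := .l 5 2 2
  let c16 : CT := .l 19 5 8
  let c17 : CT := .l 5 3 2
  let c18 : CT := .l 1 (-2) (-6)
  let c19 : CT := .l 6 2 3
  let c20 : CT := .l 9 3 4
  let c21 : CT := .l 19 9 8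
  let c22 : CT := .l 9 17 3
  let c23 : CT := .l 5 7 2
  let c24 : CT := .l 2 60 (-5)
  let c25 : CT := .l 5 17 1
  let c26 : CT := .l 11 0 6
  let c27 : CT := .l 3 26 (-1)
  let c28 : CT := .l 4 (-8) 3
  let c29 : CT := .l 1 (-103) 11
  let c30 : CT := .l 1 (-34) 4
  let c31 : CT := .l 6 4 1
  let c32 : CT := .l 4 0 1
  let c33 : CT := .l 1 (-2) (-7)
  let c34 : CT := .l 6 4 3
  let c35 : CT := .l 10 6 3
  let c36 : CT := .l 5 (-17) 3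
  let c37 : CT := .l 3 (-22) 3
  let c38 : CT := .l 14 6 3
  let c39 : CT := .l 1 (-27) 3
  let c40 : CT := .l 3 4 7
  let c41 : CT := .l 11 7 4
  let c42 : CT := .l 15 9 4
  let c43 : CT := .l 16 8 (-1)
  let c44 : CT := .l 3 3 4
  let c45 : CT := .l 1 3 7
  let c46 : CT := .l 1 42 (-4)
  let c47 : CT := .l 3 (-2) 1
  let c48 : CT := .l 6 6 1
  let c49 : CT := .l 2 0 (-3)
  let c50 : CT := .l 13 8 3
  let c51 : CT := .l 5 2 (-2)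
  let c52 : CT := .l 1 (-3) (-10)
  let c53 : CT := .l 3 8 0
  let c54 : CT := .l 5 4 1
  let c55 : CT := .l 1 1 1
  let c56 : CT := .l 4 4 5
  let c57 : CT := .l 7 5 3
  let c58 : CT := .l 10 6 1
  let c59 : CT := .l 3 1 (-2)
  let c60 : CT := .l 1 3 0
  let c61 : CT := .l 9 8 3
  let c62 : CT := .l 17 15 4
  let c63 : CT := .l 2 2 1
  let c64 : CT := .l 5 7 1
  let c65 : CT := .l 4 4 1
  let c66 : CT := .l 1 4 0
  let c67 : CT := .l 5 3 3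
  let c68 : CT := .l 1 (-6) 1
  let c69 : CT := .l 19 12 5
  let c70 : CT := .l 1 2 4
  let c71 : CT := .l 16 10 5
  let c72 : CT := .l 2 (-22) 3
  let c73 : CT := .l 10 8 3
  let c74 : CT := .l 3 3 1
  let c75 : CT := .l 7 4 3
  let c76 : CT := .l 3 2 2
  let c77 : CT := .l 5 4 2
  let c78 : CT := .l 20 14 9
  let c79 : CT := .l 7 6 2
  let c80 : CT := .l 7 6 3
  .x (.y (.x (.y c0 c0) (.y (.x (.y c0 c1) c1) (.x (.y (.x (.y c0 c2) (.y (.x (.y (.x c0 c3) (.x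
  (.y c0 c2) c3)) (.y (.x c3 c4) c2)) c2)) (.x (.y (.x c0 c5) (.x c5 c5)) (.y c6 (.x (.y (.x c5
  (.y c6 c5)) c5) (.y c6 (.x (.y c7 c7) c3)))))) (.y (.x (.y c8 c2) (.y (.x (.y c9 c2) c2) (.x
  (.y c2 c9) (.y c2 c9)))) (.x (.y c6 (.x (.y c6 (.x c3 c9)) c8)) (.y c9 c9)))))) (.x (.y (.x
  (.y c0 (.x c0 c0)) (.y c0 (.x c0 c5))) (.x (.y (.x c10 c0) c11) (.y (.x c0 c0) c11))) (.y (.x
  (.y (.x c5 (.y (.x c5 c9) c5)) c5) (.y (.x (.y c9 c5) (.y c9 (.x c8 (.y c9 c5)))) (.x c5 (.y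
  c5 (.x (.y c5 c12) c8))))) (.x (.y (.x (.y (.x (.y c5 (.x (.y (.x c0 (.y c5 c13)) (.x c0 c13))
  (.y c5 (.x c14 c15)))) c5) (.x (.y c15 (.x (.y c16 c11) (.y (.x c16 c14) c17))) (.y c15 (.x
  (.y (.x (.y c15 c18) (.y c15 c17)) (.x c18 (.y c17 c11))) c19)))) (.y c5 (.x (.y c15 c20)
  c5))) (.x c11 (.y c11 (.x c19 (.y c11 c19))))) (.y (.x c15 (.y (.x c15 c15) (.x (.y c17 c3)
  (.y c17 (.x (.y c21 c11) c8))))) (.x (.y c11 (.x c5 (.y (.x c15 c15) c19))) (.y c11 (.x c3 (.y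
  (.x c3 (.y (.x (.y c11 (.x c3 (.y c11 (.x c3 (.y (.x (.y c11 c22) c21) c19))))) c8) c19)) (.x
  c3 (.y (.x c19 (.y c19 (.x (.y c19 c3) (.y c19 c23)))) (.x c3 (.y (.x c3 (.y (.x (.y c23 (.x
  c3 (.y c23 (.x c3 (.y c24 c25))))) c21) (.x (.y c25 c3) (.y c26 (.x c27 c21))))) (.x c3 (.y
  (.x c3 (.y c28 (.x (.y c28 c3) (.y (.x c28 c21) c29)))) (.x c3 (.y (.x c3 c30)
  c30))))))))))))))))) (.y (.x (.y c1 (.x (.y (.x (.y c2 (.x (.y c2 (.x (.y c2 c9) (.y c2 c6)))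
  (.y c2 (.x c31 c31)))) (.y c2 (.x (.y c2 c31) c31))) (.x (.y (.x (.y (.x c9 (.y c6 c9)) c9)
  (.y (.x (.y c6 (.x c9 (.y c32 c9))) (.y c6 (.x (.y c32 (.x c9 (.y c33 c9))) (.y (.x c33 c34)
  c33)))) (.x c9 (.y (.x c9 c33) c9)))) c9) (.y (.x (.y (.x (.y (.x (.y c6 c32) c32) (.x (.y (.x
  c35 (.y c32 (.x (.y (.x c35 (.y c36 c35)) c35) (.y (.x (.y (.x c36 (.y c36 c37)) c37) (.y (.x
  (.y c36 c37) (.y c36 c37)) c37)) (.x (.y c37 c38) c38))))) (.x c35 (.y c38 c39))) (.y (.x (.y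
  (.x c32 c40) (.x (.y (.x (.y (.x (.y c36 c37) (.y c36 c37)) c37) c37) c38) (.y c37 c38))) (.y
  (.x c40 c41) c42)) (.x (.y c38 c39) c42)))) (.y (.x c32 (.y c32 (.x c32 (.y c32 (.x (.y c32
  (.x (.y c32 c36) c43)) c44))))) (.x (.y c45 (.x (.y (.x c41 c45) (.x c41 c45)) c45)) (.y (.x
  c45 (.y (.x (.y (.x (.y (.x c45 c37) c37) c37) (.x c45 (.y c38 c38))) c44) (.x c38 (.y c38 (.x
  (.y c38 c39) c44))))) (.x c45 (.y c39 (.x c45 (.y c46 c47)))))))) (.x (.y (.x (.y c35 c47) (.y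
  (.x (.y (.x (.y c46 c47) (.y c46 c47)) c47) c47) c47)) c9) (.y (.x (.y c47 c48) (.y c47 c48))
  (.x c9 c45)))) (.y (.x (.y (.x (.y c32 (.x c44 c49)) (.y c32 (.x c49 (.y (.x c49 (.y c32 c50))
  c50)))) (.x (.y (.x c44 c50) (.x (.y c44 c47) c50)) c50)) (.y (.x (.y c32 (.x c51 (.y c31 (.x
  (.y c31 c38) (.y c31 c38))))) (.y c32 (.x (.y c31 (.x (.y c31 c38) c31)) c31))) (.x (.y (.x
  (.y c51 c39) (.y (.x (.y c38 (.x c51 c39)) (.y c38 c39)) c39)) (.x c50 c47)) (.y (.x (.y (.x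
  (.y (.x c38 (.y c38 c52)) c52) c52) (.x c39 c52)) c52) c47)))) (.x (.y (.x (.y c47 (.x (.y c48
  c53) c50)) c50) (.x (.y (.x (.y (.x c45 c50) c9) c50) c50) c50)) (.y (.x (.y c48 c50) (.y c48
  (.x (.y c53 c50) c54))) c54)))) c9))) (.y (.x (.y c2 c31) (.y c2 c55)) (.x (.y (.x (.y (.x (.y
  c31 (.x (.y (.x (.y c39 c56) c57) c47) (.y c31 c47))) c31) (.x (.y (.x (.y c48 c54) (.y (.x
  c57 c58) c54)) c54) (.y (.x c59 c54) c54))) (.y c31 c54)) (.x c9 c60)) c55)))) (.y c1 (.x (.y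
  (.x (.y c2 c54) c1) (.x (.y c54 (.x c55 c54)) (.y c54 (.x c54 (.y c60 (.x (.y (.x c54 c61)
  c10) (.y c62 c10))))))) (.y c1 (.x (.y c1 c63) c1))))) (.x (.y (.x (.y (.x (.y c9 c9) (.y (.x
  (.y c9 (.x c9 c35)) (.y (.x c9 (.y c60 c42)) (.x c42 (.y c42 (.x c45 (.y c10 (.x c64 (.y c64
  (.x c64 c44))))))))) (.x (.y (.x (.y c9 c35) c35) c35) (.y (.x c35 (.y (.x c45 c65) c35))
  c35)))) (.x (.y (.x (.y c9 (.x c9 c9)) (.y c9 (.x c9 c9))) (.x (.y c66 (.x c8 (.y c9 (.x c67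
  c9)))) (.y c66 c9))) (.y (.x (.y c5 c17) (.y (.x c35 c35) (.x (.y c68 c66) (.y (.x c68 c41)
  c66)))) (.x c17 (.y (.x c17 (.y c66 c41)) c17))))) (.y (.x (.y (.x (.y (.x (.y c60 c69) (.y
  c60 c69)) (.x (.y c69 (.x (.y c49 (.x c44 c50)) c69)) (.y c10 (.x (.y (.x c69 (.y c52 c64))
  (.x c69 (.y (.x (.y c64 c65) c65) c65))) (.y (.x c52 c64) c65))))) (.y (.x (.y (.x c60 c70)
  (.x (.y c69 c10) c70)) (.y c55 c10)) (.x (.y (.x c10 c70) (.x c57 (.y c59 c65))) (.y (.x c70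
  c55) c70)))) (.x (.y (.x (.y c65 c35) (.y c65 c35)) c5) (.y (.x (.y c65 c35) c70) c5))) (.y
  c55 c55)) (.x (.y (.x (.y (.x (.y c71 c71) (.y (.x c49 (.y c5 (.x (.y (.x c71 c69) c68) (.y
  (.x (.y c51 c72) c51) c68)))) c68)) c66) (.y (.x (.y (.x (.y c5 (.x (.y (.x (.y c72 c68) (.y
  c72 c68)) c68) (.y c52 c68))) (.y c73 (.x c52 c68))) c68) (.y (.x c57 (.y c70 c68)) c68))
  c66)) (.x (.y (.x c41 (.y c66 c41)) c41) (.y (.x (.y c66 c41) (.y (.x c66 c57) c41)) c74)))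
  (.y (.x (.y (.x c70 c55) c66) c55) (.x (.y (.x (.y (.x c57 c70) c74) c55) c74) c74))))) (.x
  (.y (.x (.y (.x (.y c74 c17) (.y c17 c17)) (.x c8 c75)) c17) (.x (.y (.x c11 (.y c11 (.x c8
  (.y c11 c67)))) (.x (.y c8 (.x (.y c8 (.x (.y c8 (.x (.y c12 c30) c8)) c8)) c8)) (.y (.x c8
  c67) (.x c8 c67)))) (.y (.x c75 (.y c17 (.x c76 c17))) (.x (.y (.x (.y (.x (.y (.x c67 c75)
  c67) c75) (.x c67 c9)) c76) (.x (.y (.x c67 (.y (.x c67 c76) (.x c67 c76))) c67) c76)) (.y (.x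
  c76 c17) c76))))) (.y (.x (.y c17 (.x c17 (.y c77 c57))) (.y (.x (.y c17 c57) c55) c57)) (.x
  (.y (.x (.y (.x c17 c34) c34) (.y (.x (.y c57 c34) (.y c57 (.x (.y c57 c45) c57))) (.x c34 (.y
  (.x c45 (.y c78 (.x c45 (.y c44 c34)))) c34)))) c34) (.y (.x (.y c57 (.x (.y (.x (.y c78 (.x
  c44 c78)) c78) (.x c44 (.y c19 c49))) c57)) (.y c57 (.x c57 c70))) (.x (.y (.x c34 (.y (.x (.y
  c78 c34) c57) c34)) c34) (.y (.x c57 c55) c63))))))) (.y (.x (.y (.x (.y (.x c55 (.y (.x c55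
  c54) c65)) c55) (.y (.x (.y c54 c65) c65) (.x (.y c79 (.x c73 c79)) c79))) (.x c55 (.y (.x (.y
  c66 c74) c74) c74))) (.y (.x (.y c65 (.x c63 c74)) c74) c74)) (.x (.y (.x c55 (.y c77 (.x c77
  c80))) c55) (.y c63 c63)))))

theorem ok417 : okF 2 19 (-7) t417 = true := by decide +kernel

theorem all417 : AllA 417 := allA (D := 417) (thm_of_ok ok417)
  (l :=
    [(-1039, -107, 369, 38), (-34, -7, -335, -69), (3, 1, 29, 10), (-573, 214, -5647, 2109),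
     (45, 31, -16, -11), (1, 1, -1, 0), (8757, -6541, -3110, 2323)])
  (by decide +kernel)

/-- a cover for the form `(7, 13, -9)` of discriminant `421` -/
def t421 : CT :=
  let c0 : CT := .l 1 0 0
  let c1 : CT := .l 3 1 0
  let c2 : CT := .l 2 1 0
  let c3 : CT := .l 2 1 1
  let c4 : CT := .l 3 2 0
  let c5 : CT := .l 5 1 1
  let c6 : CT := .l 2 2 3
  let c7 : CT := .l 2 0 (-1)
  let c8 : CT := .l 2 (-1) 1
  let c9 : CT := .l 3 (-5) 3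
  let c10 : CT := .l 4 (-1) (-4)
  let c11 : CT := .l 3 7 (-2)
  let c12 : CT := .l 1 (-4) (-8)
  let c13 : CT := .l 4 3 0
  let c14 : CT := .l 1 (-4) 2
  let c15 : CT := .l 4 1 1
  let c16 : CT := .l 1 1 0
  let c17 : CT := .l 3 2 2
  let c18 : CT := .l 2 4 (-1)
  let c19 : CT := .l 4 2 1
  let c20 : CT := .l 1 8 (-3)
  let c21 : CT := .l 5 0 2
  let c22 : CT := .l 4 0 1
  let c23 : CT := .l 2 0 1
  let c24 : CT := .l 6 1 3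
  let c25 : CT := .l 3 1 1
  let c26 : CT := .l 1 (-1) 1
  let c27 : CT := .l 4 1 2
  let c28 : CT := .l 6 2 3
  let c29 : CT := .l 1 1 1
  let c30 : CT := .l 4 3 1
  let c31 : CT := .l 1 2 3
  let c32 : CT := .l 1 0 (-1)
  let c33 : CT := .l 2 3 0
  let c34 : CT := .l 7 6 2
  let c35 : CT := .l 2 2 1
  let c36 : CT := .l 5 5 4
  let c37 : CT := .l 2 (-1) (-4)
  let c38 : CT := .l 1 (-8) 4
  let c39 : CT := .l 6 4 1
  let c40 : CT := .l 1 4 (-1)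
  let c41 : CT := .l 6 5 2
  let c42 : CT := .l 4 4 1
  let c43 : CT := .l 8 8 3
  let c44 : CT := .l 7 7 2
  let c45 : CT := .l 1 (-3) 2
  let c46 : CT := .l 6 5 3
  let c47 : CT := .l 1 9 (-3)
  let c48 : CT := .l 7 6 3
  let c49 : CT := .l 8 7 3
  let c50 : CT := .l 4 3 2
  .x (.y (.x (.y c0 c0) (.y (.x (.y c1 (.x c2 (.y c2 (.x c2 c2)))) (.y c2 (.x (.y c2 c2) c2)))
  (.x (.y (.x (.y (.x c0 (.y c3 (.x (.y c3 c4) c4))) (.x c0 (.y (.x c5 c3) (.x (.y c5 (.x c5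
  c6)) c3)))) (.y (.x (.y (.x c3 c7) (.x c5 c8)) (.y (.x c4 (.y c5 c8)) (.x c7 (.y c8 (.x (.y
  (.x c8 (.y c8 c7)) c7) (.y (.x (.y c9 (.x c10 (.y c9 c11))) (.y c12 c11)) c13)))))) (.x c3 (.y
  (.x c7 (.y c13 (.x c7 (.y (.x c7 c14) c14)))) (.x c3 c7))))) (.x (.y (.x c0 (.y c15 c15)) c15)
  (.y (.x c3 c15) c16))) (.y (.x (.y (.x (.y c1 (.x (.y c1 (.x (.y (.x c12 c13) c13) c13)) c1))
  (.y c1 c1)) (.x (.y (.x (.y (.x (.y c13 (.x (.y c13 c14) c14)) (.y c1 c14)) c14) (.y c14 c17))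
  (.x (.y c18 c16) c16)) c1)) (.y (.x (.y (.x c19 c2) c19) c16) c16)) c16)))) (.x (.y (.x (.y c0
  (.x (.y (.x (.y c0 (.x (.y (.x c14 c0) (.x c20 (.y c20 c15))) c0)) c0) (.x (.y (.x c15 (.y c15
  c21)) c21) (.y c22 c21))) c0)) c0) (.x (.y (.x c16 (.y c16 c23)) c23) (.y c0 (.x (.y c23 (.x
  c23 c24)) c0)))) (.y (.x (.y c16 c25) (.y (.x c16 (.y c19 (.x c25 c23))) (.x c3 (.y (.x c3 (.y
  (.x (.y c23 (.x c3 c17)) (.y c19 (.x c17 (.y c19 (.x c19 c19))))) (.x c3 c17))) c3)))) (.x (.y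
  (.x c0 (.y c25 (.x (.y c25 c26) c26))) (.x c0 (.y (.x c26 c27) c28))) (.y c3 c3))))) (.y (.x
  (.y (.x (.y c2 c2) (.y (.x c4 c16) c16)) (.x c16 (.y c16 (.x c16 c16)))) (.y c16 (.x (.y c16
  c16) c16))) (.x (.y (.x (.y (.x (.y c19 c19) (.y c29 (.x (.y c29 (.x c29 c29)) c29))) (.x (.y
  (.x (.y c19 (.x (.y c1 (.x (.y c1 c17) c1)) c19)) c19) c26) (.y (.x (.y c30 c26) c29) (.x (.y
  c26 (.x c19 c31)) c29)))) (.y (.x (.y (.x c29 c32) (.x c30 c26)) (.y c30 (.x c32 c30))) (.x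
  c29 (.y (.x c32 (.y c33 (.x c32 (.y (.x c32 c34) c32)))) (.x c29 c32))))) (.x (.y (.x c3 (.y
  c3 c3)) c3) (.y (.x c29 c3) (.x (.y c3 (.x c3 c29)) c29)))) (.y (.x (.y (.x (.y c30 c30) (.y
  (.x (.y (.x c30 c34) (.x c4 c34)) c35) (.x (.y c34 c34) c35))) (.x (.y (.x (.y c30 (.x (.y (.x
  c34 c30) (.x (.y (.x c36 c37) c38) (.y (.x c39 c38) c39))) c30)) c30) (.x (.y c40 c3) c3)) (.y
  c41 c3))) (.y (.x (.y (.x c35 c16) c35) (.y c16 (.x (.y c42 c42) c42))) (.x c35 (.y (.x c35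
  (.y (.x (.y c3 c43) (.y c42 (.x (.y c44 c45) c44))) (.x c43 (.y c45 c43)))) c35)))) (.x (.y
  (.x (.y c3 (.x c32 (.y (.x c46 (.y c45 (.x c45 (.y c45 c47)))) (.x c32 (.y (.x c46 (.y (.x c47
  c48) c46)) c46))))) (.y (.x (.y c3 (.x c49 c48)) (.y c49 (.x c48 c49))) (.x (.y (.x (.y (.x
  c45 c48) (.x c47 c48)) c48) c48) c48))) (.x (.y (.x c29 (.y c50 c50)) c50) (.y (.x (.y c48
  c50) c50) c46))) (.y c35 c35)))))

theorem ok421 : okF 7 13 (-9) t421 = true := by decide +kernel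

theorem all421 : AllA 421 := allA (D := 421) (thm_of_ok ok421)
  (l :=
    [(581, -54, -312, 29), (36561, 11239, 87533, 26908), (-28, 13, 15, -7),
     (-91963, 59832, 49386, -32131), (70278, 81517, 168257, 195165)])
  (by decide +kernel)

/-- a cover for the form `(3, 16, -14)` of discriminant `424` -/
def t424 : CT :=
  let c0 : CT := .l 1 0 0
  let c1 : CT := .l 2 1 0
  let c2 : CT := .l 1 1 0
  let c3 : CT := .l 1 1 1
  let c4 : CT := .l 12 5 2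
  let c5 : CT := .l 6 3 1
  let c6 : CT := .l 4 1 1
  let c7 : CT := .l 1 (-2) (-3)
  let c8 : CT := .l 10 5 2
  let c9 : CT := .l 5 3 1
  let c10 : CT := .l 1 2 0
  let c11 : CT := .l 4 3 1
  let c12 : CT := .l 3 3 1
  let c13 : CT := .l 3 0 1
  let c14 : CT := .l 3 1 1
  let c15 : CT := .l 2 1 1
  let c16 : CT := .l 5 0 2
  let c17 : CT := .l 2 (-1) 1
  let c18 : CT := .l 5 1 2
  let c19 : CT := .l 1 (-1) (-1)
  let c20 : CT := .l 4 (-1) 2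
  let c21 : CT := .l 9 0 4
  let c22 : CT := .l 1 9 (-1)
  let c23 : CT := .l 1 3 0
  let c24 : CT := .l 1 (-3) 1
  let c25 : CT := .l 13 2 6
  let c26 : CT := .l 18 3 8
  let c27 : CT := .l 4 1 2
  let c28 : CT := .l 7 4 2
  let c29 : CT := .l 13 8 4
  let c30 : CT := .l 6 3 2
  let c31 : CT := .l 2 5 0
  let c32 : CT := .l 1 2 2
  let c33 : CT := .l 4 3 2
  let c34 : CT := .l 12 7 4
  let c35 : CT := .l 3 (-4) 2
  let c36 : CT := .l 3 4 4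
  let c37 : CT := .l 4 5 1
  let c38 : CT := .l 5 4 3
  let c39 : CT := .l 13 8 5
  let c40 : CT := .l 6 5 2
  let c41 : CT := .l 7 6 2
  let c42 : CT := .l 1 5 6
  let c43 : CT := .l 5 (-5) 3
  let c44 : CT := .l 6 1 (-2)
  let c45 : CT := .l 9 3 (-1)
  let c46 : CT := .l 1 (-8) (-11)
  let c47 : CT := .l 7 3 0
  let c48 : CT := .l 10 5 1
  let c49 : CT := .l 18 13 7
  let c50 : CT := .l 12 9 5
  let c51 : CT := .l 5 5 4
  let c52 : CT := .l 10 7 4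
  let c53 : CT := .l 1 18 23
  let c54 : CT := .l 1 (-40) 7
  let c55 : CT := .l 9 5 2
  let c56 : CT := .l 1 21 (-3)
  let c57 : CT := .l 1 15 (-2)
  let c58 : CT := .l 2 11 (-1)
  let c59 : CT := .l 11 9 3
  let c60 : CT := .l 20 15 8
  let c61 : CT := .l 1 (-1) (-2)
  let c62 : CT := .l 11 9 4
  let c63 : CT := .l 3 4 1
  let c64 : CT := .l 5 5 2
  let c65 : CT := .l 13 12 6
  let c66 : CT := .l 9 9 4
  let c67 : CT := .l 1 4 0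
  let c68 : CT := .l 5 5 3
  let c69 : CT := .l 1 10 (-1)
  .y (.x (.y (.x c0 (.y (.x c0 c1) c2)) (.x c0 (.y (.x (.y c2 (.x c0 (.y c2 (.x c0 c3)))) (.y c2
  (.x (.y (.x c3 c4) (.x c3 c5)) c5))) (.x (.y (.x c0 (.y (.x c0 c3) (.x c0 c3))) (.x c0 c6))
  (.y (.x c3 (.y (.x (.y (.x c7 c5) (.x c7 (.y c8 c8))) c8) (.x (.y c8 c6) c6))) (.x c3 (.y (.x
  (.y c6 c3) (.y c9 c10)) c10))))))) (.y (.x c2 c2) (.x (.y (.x (.y c2 (.x (.y c5 (.x c5 c9))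
  (.y c1 c9))) (.y c2 (.x (.y c1 c9) (.y c2 (.x c9 c10))))) (.x (.y (.x (.y (.x c8 c9) c9) c9)
  c10) (.y (.x c1 c10) (.x c10 c11)))) (.y (.x (.y c2 (.x (.y c2 c10) c10)) c2) (.x (.y c10 (.x
  c11 c11)) (.y (.x (.y c10 c12) c2) (.x (.y c11 (.x (.y c11 (.x c11 c12)) c12)) (.y c2 (.x c12
  c2))))))))) (.x (.y (.x (.y (.x (.y (.x (.y c0 (.x c13 c0)) c0) (.x c13 c13)) c0) (.x (.y c13
  (.x c13 (.y c13 c13))) (.y c0 (.x c14 c14)))) (.y (.x (.y (.x c14 c10) c14) (.y (.x c10 (.y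
  c10 c3)) (.x c14 c3))) (.x c14 (.y (.x c14 c3) (.x c14 (.y c3 (.x c15 c3))))))) (.x (.y (.x
  (.y (.x c13 (.y c16 c17)) (.x c16 (.y (.x c17 c18) (.x c13 (.y c18 c19))))) (.y (.x (.y c18
  c18) c18) (.x (.y c18 (.x (.y c18 (.x (.y c18 c20) c20)) (.y c18 (.x c20 c18)))) c18))) (.x
  (.y (.x (.y (.x c21 c16) (.x c21 c16)) (.y (.x c13 c19) (.x c13 c19))) (.x (.y (.x (.y (.x (.y
  c21 c22) c21) c23) (.y (.x (.y c22 c23) c23) c23)) (.x c23 (.y c23 c24))) (.y c23 c24))) (.y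
  (.x (.y (.x (.y (.x (.y c20 (.x c19 c25)) (.y (.x c20 c26) (.x c25 c26))) (.x (.y (.x c19 c26)
  c19) c25)) (.y (.x c26 c26) (.x c26 c27))) (.x (.y c25 c25) c23)) c27) (.x (.y (.x c19 c27)
  (.x c19 c27)) c27)))) (.y (.x c0 c15) (.x (.y (.x (.y c23 c24) c15) (.x c27 c27)) c15)))) (.y
  (.x (.y (.x (.y (.x (.y c10 (.x (.y (.x c10 (.y c10 c28)) (.x c7 c28)) c28)) (.y (.x (.y c10
  (.x c28 c28)) (.y c10 c11)) c28)) (.x (.y c14 c14) (.y c28 (.x c28 c29)))) (.y (.x c11 c11)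
  (.x (.y (.x c14 (.y c14 c9)) (.x (.y (.x c29 c29) c30) (.y (.x c31 c9) c17))) (.y c1 (.x c32
  c1))))) (.x (.y (.x c30 (.y (.x c30 (.y c30 (.x c30 c33))) (.x c34 (.y (.x c34 c33) (.x c34
  c28))))) (.x c3 (.y (.x (.y (.x (.y c34 (.x c7 (.y c34 c3))) c34) (.x c7 (.y (.x (.y c35 (.x
  (.y c35 c3) c36)) c34) (.x (.y (.x c7 c36) c37) c37)))) (.y (.x c34 c28) (.x c34 (.y c37 (.x
  c38 c28))))) (.x (.y (.x c7 (.y (.x c37 c20) (.x c7 (.y c20 (.x c3 c36))))) c3) (.y (.x (.y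
  (.x c20 c34) c39) (.y (.x (.y c38 (.x c34 c38)) (.y c28 c38)) (.x (.y (.x c39 c38) c39) c38)))
  (.x c39 (.y c40 c39))))))) (.y (.x (.y (.x (.y c17 (.x (.y c34 c34) (.y c34 c18))) (.y (.x (.y
  c17 c41) (.y c41 (.x c34 c9))) (.x (.y (.x c34 c18) (.x c42 (.y c18 (.x (.y c18 (.x c42 (.y
  c43 c42))) (.y (.x c43 (.y c43 (.x c43 c44))) (.x (.y c45 (.x c46 c46)) c46)))))) (.y (.x c18
  c9) (.x (.y (.x (.y c18 c43) c47) (.x (.y (.x c48 c49) (.x c44 c49)) (.y (.x (.y c47 (.x c49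
  c47)) c47) (.x (.y (.x c49 c47) c49) c47)))) (.y (.x (.y (.x c43 c9) c50) c9) (.x c50
  c9))))))) (.x (.y (.x (.y c29 (.x c33 c29)) (.y (.x (.y c18 (.x c51 c52)) (.y (.x c18 (.y c43
  (.x (.y c43 (.x c53 c53)) c42))) (.x c52 (.y (.x c53 c42) (.x c53 c42))))) (.x (.y (.x c51
  c52) (.x c29 c52)) (.y (.x c52 (.y (.x c52 c53) c54)) c52)))) (.x c33 (.y (.x (.y (.x c29 c51)
  c55) c52) (.x (.y (.x c33 c55) c35) (.y c52 (.x c51 c52)))))) (.y (.x (.y (.x c42 (.y (.x c42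
  c46) (.x c42 c46))) (.x (.y c42 c56) (.y (.x c42 c56) c42))) (.y (.x (.y (.x (.y (.x c44 c48)
  (.x (.y (.x c46 c44) (.x c46 c54)) (.y c48 c54))) (.y (.x c49 c47) c54)) (.x (.y c54 c56) (.y
  c49 c56))) (.y (.x (.y c50 c54) (.y c54 c56)) c56)) (.x (.y c56 (.x c46 (.y (.x (.y c56 (.x
  c46 c44)) c48) c35))) (.y (.x (.y c56 (.x c56 c47)) c50) c35)))) (.x (.y (.x (.y (.x (.y c56
  (.x c56 (.y c56 c53))) c42) c35) c42) (.x (.y c35 (.x c52 c37)) c42)) (.y (.x (.y c35 (.x c42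
  c46)) (.y c35 (.x (.y (.x c44 c49) c37) c37))) c37))))) (.y (.x (.y c32 (.x c9 c32)) c1) (.x
  (.y (.x (.y c9 (.x (.y (.x (.y c9 c35) c35) c35) c9)) c32) (.x (.y (.x (.y (.x c50 c9) c37)
  c37) c37) (.y c37 c9))) (.y (.x c32 c1) c32)))) (.x (.y (.x (.y (.x c33 (.y (.x c33 c37) c37))
  c33) (.y (.x (.y c37 (.x c52 c20)) (.y (.x c42 (.y c37 c20)) (.x c42 (.y c57 c40)))) (.x (.y
  c52 c40) c40))) (.x (.y (.x (.y c33 c40) c40) (.x (.y c40 c23) c33)) (.y (.x c40 (.y c40 c23))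
  c23))) (.y (.x (.y (.x (.y c57 c40) c9) c40) c32) c23))))) (.y (.x (.y (.x c11 (.y (.x c41 (.y
  c11 c41)) c41)) (.x c11 (.y c41 (.x c40 c41)))) (.y (.x (.y (.x (.y (.x (.y (.x c11 c12) (.x
  (.y (.x c11 c16) c58) c12)) c12) (.x (.y c59 c59) c31)) c12) (.x c41 c41)) c12) (.x (.y (.x
  c41 c12) c12) c12))) (.x (.y (.x (.y (.x (.y (.x c1 c11) c1) c40) (.x c1 c40)) c40) (.x (.y
  (.x c1 c40) c23) c12)) c12))) (.x (.y (.x (.y (.x c3 (.y (.x c3 c39) c23)) c3) (.y (.x (.y c23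
  (.x (.y c23 c24) c33)) (.y c12 (.x c52 (.y c52 (.x c52 c50))))) (.x (.y (.x (.y (.x c52 c52)
  c15) (.y c52 c33)) c15) (.y (.x (.y c52 c33) (.y (.x c52 c50) c50)) c15)))) (.x c15 c15)) (.y
  (.x (.y (.x (.y (.x c32 c1) (.x (.y c32 (.x c60 c32)) c1)) (.y (.x (.y c12 (.x c61 c62)) (.y
  c40 (.x c11 c40))) (.x (.y (.x c1 c61) (.x c1 c61)) (.y c11 (.x (.y c27 (.x c62 c11)) c11)))))
  (.x (.y (.x c50 (.y (.x c50 c1) c32)) c15) (.y (.x (.y (.x c1 c61) c15) (.y c63 c15)) c15)))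
  (.y (.x (.y (.x (.y c12 (.x c40 c12)) c12) (.x (.y (.x c40 (.y c27 c63)) c63) (.y c63 c63)))
  c64) (.x (.y c64 c15) c15))) (.x (.y c15 (.x c33 c33)) (.y (.x (.y c15 (.x (.y c15 c33) c65))
  (.y (.x (.y c15 c66) c66) (.x (.y (.x c66 c66) c33) c33))) (.x (.y c33 (.x (.y c33 (.x c33 (.y
  c61 c67))) (.y (.x c68 (.y c11 (.x c68 c67))) c67))) (.y (.x (.y c33 (.x (.y c33 (.x c65 c40))
  (.y (.x c33 (.y c33 c69)) c69))) (.y (.x (.y c33 (.x c33 (.y c33 c69))) (.y (.x c33 (.y c33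
  (.x (.y c33 c69) c41))) (.x (.y (.x (.y c33 c69) c69) c69) c69))) (.x (.y c69 (.x c69 c67))
  (.y c69 c67)))) (.x (.y (.x (.y c69 c67) c67) c67) c67)))))))))

theorem ok424 : okF 3 16 (-14) t424 = true := by decide +kernel

theorem all424 : AllB 424 := allB (D := 424) (thm_of_ok ok424)
  (l :=
    [(592, -115, -453, 88), (31, 10, 189, 61), (-132, -71, -805, -433)])
  (l' :=
    [(1, 0), (-159, -115), (4, 3), (7, 10)])
  (by decide +kernel)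

/-- a cover for the form `(2, 18, -13)` of discriminant `428` -/
def t428 : CT :=
  let c0 : CT := .l 1 0 0
  let c1 : CT := .l 1 1 0
  let c2 : CT := .l 5 2 1
  let c3 : CT := .l 1 2 0
  let c4 : CT := .l 1 1 1
  let c5 : CT := .l 6 3 1
  let c6 : CT := .l 4 1 1
  let c7 : CT := .l 5 3 1
  let c8 : CT := .l 6 4 1
  let c9 : CT := .l 6 5 1
  let c10 : CT := .l 4 2 1
  let c11 : CT := .l 5 4 1
  let c12 : CT := .l 4 3 1
  let c13 : CT := .l 1 3 0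
  let c14 : CT := .l 3 3 1
  let c15 : CT := .l 4 4 1
  let c16 : CT := .l 4 0 1
  let c17 : CT := .l 3 0 1
  let c18 : CT := .l 2 1 1
  let c19 : CT := .l 3 1 1
  let c20 : CT := .l 3 2 1
  let c21 : CT := .l 2 (-2) 1
  let c22 : CT := .l 1 4 0
  let c23 : CT := .l 2 0 1
  let c24 : CT := .l 5 1 2
  let c25 : CT := .l 2 (-1) 1
  let c26 : CT := .l 2 2 1
  let c27 : CT := .l 5 3 2
  let c28 : CT := .l 5 4 2
  let c29 : CT := .l 1 5 0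
  .y (.x (.y (.x c0 (.y (.x c0 c1) (.x c1 c1))) (.x c0 (.y (.x (.y (.x c0 (.y c0 (.x c0 c2)))
  c3) (.y (.x (.y c4 c3) (.y (.x (.y c1 c4) c5) c3)) (.x c3 c5))) (.x (.y (.x c0 c2) (.x c0 c6))
  (.y (.x c2 c4) (.x (.y c2 (.x c6 c2)) c4)))))) (.y (.x c1 c1) (.x (.y (.x (.y c3 (.x (.y c5
  c5) (.y c3 c7))) (.y c3 (.x c8 (.y c8 (.x c8 (.y c9 c9)))))) (.x (.y (.x (.y (.x c5 c7) c7)
  c7) (.x c10 c10)) (.y (.x (.y c7 (.x c7 c11)) c12) (.x (.y (.x c10 c12) c13) c13)))) (.y (.x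
  (.y c1 (.x c11 c9)) c1) (.x (.y c11 (.x c12 c12)) (.y (.x (.y c1 c13) c1) (.x (.y c13 (.x c12
  c14)) c15))))))) (.x (.y (.x (.y (.x (.y (.x c16 c0) (.x c16 c0)) c0) (.x (.y c17 c17) c0))
  (.y (.x (.y (.x c6 c18) c19) (.y (.x c10 c10) (.x (.y (.x c19 c17) c19) (.y (.x (.y c17 c19)
  c10) c19)))) (.x c19 (.y c19 (.x c19 (.y c20 c20)))))) (.x (.y (.x (.y (.x c17 (.y (.x c17 (.y
  (.x c17 c21) c21)) (.x c17 (.y c20 c22)))) (.x c23 (.y c24 c23))) (.y (.x (.y c24 c24) c24)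
  (.x (.y c24 c25) c24))) (.x c23 c23)) (.y (.x (.y (.x c0 c19) c0) c18) (.x c0 c18)))) (.y (.x
  (.y (.x (.y (.x c10 c20) (.x c10 c20)) (.y (.x c12 c12) (.x c20 c20))) (.x (.y (.x c4 c20)
  c20) c20)) (.y (.x (.y (.x c12 c26) (.x c12 (.y c26 c20))) (.y (.x c15 c15) (.x (.y (.x c26
  c14) c20) c14))) (.x (.y (.x c20 (.y c20 c14)) (.x (.y c20 c14) c14)) c14))) (.x (.y (.x (.y
  (.x (.y (.x c14 c4) c27) c27) (.x c18 c4)) (.y (.x c27 c20) (.x (.y (.x c27 c28) c23) c20)))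
  (.x c18 c18)) (.y (.x (.y (.x c28 c28) (.x (.y c28 (.x (.y c28 c20) c28)) (.y c28 c29))) c26)
  (.x (.y (.x c18 c26) (.x c18 c26)) c26)))))

theorem ok428 : okF 2 18 (-13) t428 = true := by decide +kernel

theorem all428 : AllA 428 := allA (D := 428) (thm_of_ok ok428)
  (l :=
    [(-31, -3, 21, 2), (-1, 0, -4, -1), (2, -1, -1, 1)])
  (by decide +kernel)

end Pool.Agent.Mukai
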