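import Pool.Agent.Work.MP_1e087a_ag.R4.Table

/-!
# Covers for the discriminants from 433 to 444
-/

namespace Pool.Agent.Mukai

/-- a cover for the form `(6, 17, -6)` of discriminant `433` -/
def t433 : CT :=
  let c0 : CT := .l 1 0 0
  let c1 : CT := .l 1 1 0
  let c2 : CT := .l 5 0 2
  let c3 : CT := .l 8 1 7
  let c4 : CT := .l 4 3 1
  let c5 : CT := .l 1 11 (-3)
  let c6 : CT := .l 8 3 3
  let c7 : CT := .l 3 11 (-2)
  let c8 : CT := .l 15 (-2) 1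
  let c9 : CT := .l 1 10 32
  let c10 : CT := .l 2 73 231
  let c11 : CT := .l 5 10 34
  let c12 : CT := .l 2 (-397) 127
  let c13 : CT := .l 22 (-19) 17
  let c14 : CT := .l 1 345 (-109)
  let c15 : CT := .l 26 (-19) 19
  let c16 : CT := .l 7 868 (-272)
  let c17 : CT := .l 13 74 (-17)
  let c18 : CT := .l 5 178 (-54)
  let c19 : CT := .l 4 (-167) 55
  let c20 : CT := .l 25 (-30) 22
  let c21 : CT := .l 1 (-972) 309
  let c22 : CT := .l 1 115 (-36)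
  let c23 : CT := .l 1 1202 (-381)
  let c24 : CT := .l 1 (-1202) 382
  let c25 : CT := .l 6 73 233
  let c26 : CT := .l 1 (-115) 37
  let c27 : CT := .l 4 1 5
  let c28 : CT := .l 2 7 23
  let c29 : CT := .l 5 42 134
  let c30 : CT := .l 1 972 (-308)
  let c31 : CT := .l 25 30 3
  let c32 : CT := .l 4 167 (-51)
  let c33 : CT := .l 5 (-178) 59
  let c34 : CT := .l 2 115 363
  let c35 : CT := .l 13 (-74) 30
  let c36 : CT := .l 14 (-31) (-93)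
  let c37 : CT := .l 26 19 7
  let c38 : CT := .l 1 (-345) 110
  let c39 : CT := .l 22 19 5
  let c40 : CT := .l 1 (-533) (-1679)
  let c41 : CT := .l 3 (-11) 5
  let c42 : CT := .l 1 230 725
  let c43 : CT := .l 1 (-115) (-362)
  let c44 : CT := .l 8 41 (-9)
  let c45 : CT := .l 2 397 (-125)
  let c46 : CT := .l 7 (-2) (-4)
  let c47 : CT := .l 8 (-3) 5
  let c48 : CT := .l 1 (-11) 4
  let c49 : CT := .l 9 2 4
  let c50 : CT := .l 4 (-3) 3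
  let c51 : CT := .l 14 1 7
  let c52 : CT := .l 4 1 1
  let c53 : CT := .l 3 1 1
  let c54 : CT := .l 5 1 2
  let c55 : CT := .l 13 3 6
  let c56 : CT := .l 1 2 6
  let c57 : CT := .l 10 3 1
  let c58 : CT := .l 1 0 (-1)
  let c59 : CT := .l 5 2 0
  let c60 : CT := .l 2 1 1
  let c61 : CT := .l 1 7 (-2)
  let c62 : CT := .l 23 7 3
  let c63 : CT := .l 1 (-15) 5
  let c64 : CT := .l 2 11 (-3)
  let c65 : CT := .l 1 (-1) (-4)
  let c66 : CT := .l 1 1 2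
  let c67 : CT := .l 12 5 1
  let c68 : CT := .l 7 3 1
  let c69 : CT := .l 3 1 (-1)
  let c70 : CT := .l 5 2 (-1)
  let c71 : CT := .l 3 2 2
  let c72 : CT := .l 6 7 (-1)
  let c73 : CT := .l 5 3 0
  let c74 : CT := .l 14 7 1
  let c75 : CT := .l 10 5 1
  let c76 : CT := .l 19 3 2
  let c77 : CT := .l 6 25 (-7)
  let c78 : CT := .l 56 37 (-3)
  let c79 : CT := .l 1 (-10) (-33)
  let c80 : CT := .l 36 17 (-1)
  let c81 : CT := .l 5 4 5
  let c82 : CT := .l 8 1 1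
  let c83 : CT := .l 4 (-1) 1
  let c84 : CT := .l 9 5 2
  let c85 : CT := .l 4 1 (-3)
  let c86 : CT := .l 5 5 8
  let c87 : CT := .l 8 3 (-3)
  let c88 : CT := .l 11 8 8
  let c89 : CT := .l 18 31 (-7)
  let c90 : CT := .l 1 32 (-10)
  let c91 : CT := .l 3 (-2) (-11)
  let c92 : CT := .l 2 231 (-73)
  let c93 : CT := .l 5 34 (-10)
  let c94 : CT := .l 1 (-109) (-345)
  let c95 : CT := .l 2 127 397
  let c96 : CT := .l 19 (-1) (-33)
  let c97 : CT := .l 1 659 (-209)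
  let c98 : CT := .l 26 19 19
  let c99 : CT := .l 6 233 (-73)
  let c100 : CT := .l 13 (-17) (-74)
  let c101 : CT := .l 21 (-53) (-200)
  let c102 : CT := .l 10 235 (-73)
  let c103 : CT := .l 18 (-13) 7
  let c104 : CT := .l 14 (-15) 7
  let c105 : CT := .l 4 55 167
  let c106 : CT := .l 5 (-54) (-178)
  let c107 : CT := .l 25 22 30
  let c108 : CT := .l 1 (-36) (-115)
  let c109 : CT := .l 1 309 972
  let c110 : CT := .l 9 433 (-136)
  let c111 : CT := .l 10 (-225) 73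
  let c112 : CT := .l 6 (-227) 73
  let c113 : CT := .l 1 1746 (-554)
  let c114 : CT := .l 1 (-658) 209
  let c115 : CT := .l 5 201 (-63)
  let c116 : CT := .l 5 (-29) 10
  let c117 : CT := .l 1 (-381) (-1202)
  let c118 : CT := .l 1 (-31) 10
  let c119 : CT := .l 15 14 (-2)
  let c120 : CT := .l 2 (-21) 7
  let c121 : CT := .l 1 10 (-3)
  let c122 : CT := .l 44 19 3
  let c123 : CT := .l 3 (-1) 1
  let c124 : CT := .l 1 2 5
  let c125 : CT := .l 3 1 2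
  let c126 : CT := .l 1 3 9
  let c127 : CT := .l 5 2 4
  let c128 : CT := .l 37 11 16
  let c129 : CT := .l 18 5 7
  let c130 : CT := .l 1 8 (-2)
  let c131 : CT := .l 10 1 5
  let c132 : CT := .l 3 2 1
  let c133 : CT := .l 3 (-1) 2
  let c134 : CT := .l 10 3 5
  let c135 : CT := .l 15 5 7
  let c136 : CT := .l 15 7 4
  let c137 : CT := .l 23 11 6
  let c138 : CT := .l 10 5 3
  let c139 : CT := .l 1 382 1202
  let c140 : CT := .l 1 37 115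
  let c141 : CT := .l 1 (-308) (-972)
  let c142 : CT := .l 25 3 (-30)
  let c143 : CT := .l 4 (-51) (-167)
  let c144 : CT := .l 5 59 178
  let c145 : CT := .l 13 30 74
  let c146 : CT := .l 26 7 (-19)
  let c147 : CT := .l 7 279 868
  let c148 : CT := .l 1 110 345
  let c149 : CT := .l 3 5 11
  let c150 : CT := .l 19 20 33
  let c151 : CT := .l 2 (-125) (-397)
  let c152 : CT := .l 10 21 (-5)
  let c153 : CT := .l 8 5 3
  let c154 : CT := .l 5 0 (-8)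
  let c155 : CT := .l 4 3 3
  let c156 : CT := .l 9 4 (-2)
  let c157 : CT := .l 13 7 2
  let c158 : CT := .l 5 (-129) 42
  let c159 : CT := .l 8 17 41
  let c160 : CT := .l 14 107 (-31)
  let c161 : CT := .l 2 (-361) 115
  let c162 : CT := .l 1 363 (-115)
  let c163 : CT := .l 1 (-5) 2
  let c164 : CT := .l 45 23 11
  let c165 : CT := .l 25 13 6
  let c166 : CT := .l 13 7 3
  let c167 : CT := .l 5 3 1
  let c168 : CT := .l 15 8 5
  let c169 : CT := .l 37 21 11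
  let c170 : CT := .l 18 11 5
  let c171 : CT := .l 1 2 0
  let c172 : CT := .l 15 11 7
  let c173 : CT := .l 5 5 2
  let c174 : CT := .l 10 7 5
  let c175 : CT := .l 1 (-4) 2
  let c176 : CT := .l 1 1 1
  let c177 : CT := .l 3 1 (-4)
  let c178 : CT := .l 1 5 (-1)
  let c179 : CT := .l 36 31 11
  let c180 : CT := .l 6 5 1
  let c181 : CT := .l 23 20 7
  let c182 : CT := .l 10 9 3
  let c183 : CT := .l 1 (-1) 1
  let c184 : CT := .l 7 6 3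
  let c185 : CT := .l 12 11 5
  let c186 : CT := .l 3 2 (-1)
  let c187 : CT := .l 1 3 7
  let c188 : CT := .l 44 41 19
  let c189 : CT := .l 3 4 1
  let c190 : CT := .l 10 9 5
  let c191 : CT := .l 6 7 7
  let c192 : CT := .l 5 5 3
  let c193 : CT := .l 5 6 2
  let c194 : CT := .l 14 13 7
  let c195 : CT := .l 4 3 (-1)
  let c196 : CT := .l 1 34 (-10)
  let c197 : CT := .l 8 7 1
  let c198 : CT := .l 36 37 17
  let c199 : CT := .l 5 0 4
  let c200 : CT := .l 8 9 7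
  let c201 : CT := .l 9 7 5
  let c202 : CT := .l 4 7 1
  let c203 : CT := .l 1 12 (-3)
  let c204 : CT := .l 8 11 3
  let c205 : CT := .l 3 14 (-2)
  let c206 : CT := .l 15 17 14
  let c207 : CT := .l 1 (-9) (-31)
  let c208 : CT := .l 22 3 17
  let c209 : CT := .l 2 (-395) 127
  let c210 : CT := .l 1 346 (-109)
  let c211 : CT := .l 26 7 19
  let c212 : CT := .l 7 875 (-272)
  let c213 : CT := .l 5 (-5) (-29)
  let c214 : CT := .l 2 1779 (-563)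
  let c215 : CT := .l 5 183 (-54)
  let c216 : CT := .l 2 765 2405
  let c217 : CT := .l 13 87 (-17)
  let c218 : CT := .l 21 221 (-53)
  let c219 : CT := .l 9 (-127) (-424)
  let c220 : CT := .l 3 (-551) (-1744)
  let c221 : CT := .l 5 (-58) (-196)
  let c222 : CT := .l 5 15 34
  let c223 : CT := .l 10 83 235
  let c224 : CT := .l 6 79 233
  let c225 : CT := .l 1 (-553) (-1745)
  let c226 : CT := .l 4 (-163) 55
  let c227 : CT := .l 25 (-5) 22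
  let c228 : CT := .l 1 (-971) 309
  let c229 : CT := .l 1 116 (-36)
  let c230 : CT := .l 1 (-208) (-658)
  let c231 : CT := .l 6 (-67) (-227)
  let c232 : CT := .l 4 349 1089
  let c233 : CT := .l 10 (-63) (-225)
  let c234 : CT := .l 1 1203 (-381)
  .x (.x (.y (.x c0 (.y c0 (.x c0 (.y c0 (.x c0 c1))))) (.x (.y c0 (.x (.y (.x c2 c0) (.x (.y c2
  (.x (.y (.x (.y c2 (.x (.y c2 (.x (.y (.x c3 c2) c3) c2)) c2)) c2) (.x (.y (.x (.y c4 c5) (.y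
  c4 c5)) (.x (.y (.x (.y c5 (.x (.y c5 (.x (.y c6 (.x (.y c6 c7) c7)) (.y c6 c7))) (.y c6 (.x
  (.y (.x c6 (.y c6 c7)) c7) (.y (.x (.y c6 c7) c7) c7))))) (.y c6 (.x (.y (.x c6 (.y c6 c8))
  c7) c3))) (.x (.y (.x c7 (.y c7 (.x c7 (.y c7 (.x (.y c7 (.x (.y c7 (.x c7 (.y c7 (.x c7
  c9)))) c9)) c9))))) (.x (.y (.x (.y (.x (.y c7 (.x (.y c7 (.x (.y c7 (.x c10 c11)) c11)) (.y
  c7 c11))) (.y c9 (.x (.y c7 (.x (.y (.x c12 c12) c13) c13)) c9))) (.x c11 (.y (.x (.y (.x (.y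
  c13 c11) (.y c13 (.x c14 c14))) (.x c14 c15)) (.y c14 (.x c15 c9))) (.x c11 (.y (.x (.y (.x
  (.y (.x (.y c15 (.x c15 (.y c15 c11))) (.y c15 (.x (.y c15 c16) c9))) c17) c9) (.x c18 c18))
  c9) (.x (.y (.x c11 c19) c11) (.y c19 (.x c20 c20)))))))) c9) (.x (.y (.x c11 (.y (.x c11 (.y
  (.x c11 (.y (.x c21 c22) c22)) c22)) c22)) (.x (.y c22 (.x (.y c22 (.x (.y c22 (.x (.y c22
  c23) c23)) (.y c22 (.x (.y c23 c24) (.y c23 c24))))) (.y c22 (.x (.y c22 (.x c25 c24)) c11))))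
  c11)) (.y c22 (.x (.y c22 (.x c11 (.y (.x c11 (.y (.x (.y c23 c24) (.y c23 c24)) (.x c11
  c26))) c26))) (.y c9 (.x (.y c9 c26) c26)))))) c9)) (.y (.x (.y c7 (.x c9 (.y c7 c9))) (.y c7
  (.x (.y (.x (.y c8 (.x c7 c8)) c8) (.x (.y (.x (.y (.x c9 c13) c14) c8) (.x c9 (.y c8 (.x c9
  c8)))) c8)) c3))) (.x c9 (.y (.x (.y (.x c9 (.y c8 c22)) (.x c9 (.y c22 c9))) c8) (.x c9 (.y
  c26 (.x (.y (.x c9 (.y c26 c9)) c9) (.y c8 (.x (.y (.x c9 c8) (.x c9 c8)) c8)))))))))) (.y (.x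
  (.y c6 c3) (.y (.x (.y c6 (.x (.y c6 (.x (.y c6 c7) (.y c6 c7))) c27)) c27) (.x c7 c27))) (.x
  (.y c3 (.x (.y c3 (.x (.y c3 c8) c3)) c3)) (.y (.x (.y (.x c3 (.y (.x c3 (.y c7 (.x c3 (.y (.x
  c3 (.y c12 c13)) c3)))) c3)) c3) (.y (.x (.y (.x (.y c27 (.x (.y c13 c14) c27)) c27) (.x (.y
  (.x (.y c15 (.x c3 (.y (.x c28 c28) c28))) c28) c28) c28)) c28) (.x (.y c22 (.x c3 c28))
  c28))) (.x c3 (.y (.x c3 (.y c28 (.x (.y c28 c3) c28))) (.x c3 (.y (.x c3 c28) c3))))))))) (.y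
  c2 (.x (.y c27 (.x (.y c27 (.x c28 c27)) c27)) c2)))) c2)) (.y (.x (.y c2 (.x c2 c0)) c0) (.x
  (.y (.x c2 (.y (.x c2 (.y c2 c4)) c2)) (.x c2 c2)) (.y (.x (.y c0 (.x (.y c0 (.x (.y c0 (.x
  (.y (.x c7 c0) c2) c0)) c0)) c0)) c0) (.x (.y (.x (.y (.x (.y (.x c2 (.y (.x (.y (.x (.y c22
  (.x c2 (.y (.x c22 (.y c22 (.x c22 c0))) (.x c2 (.y (.x c24 (.y c24 c26)) c26))))) (.y c22 (.x
  (.y c0 c26) c0))) c26) (.y c0 (.x c26 c0))) (.x (.y (.x c2 (.y (.x (.y c26 (.x (.y c26 (.x c2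
  c29)) (.y (.x c26 c30) (.x c31 c31)))) (.y c26 (.x (.y c30 c31) (.y (.x (.y c30 c31) c31) (.x
  c31 c32))))) (.x (.y (.x (.y c29 c32) (.y c32 c29)) (.x (.y (.x c2 c29) c2) c29)) (.y (.x (.y
  c32 (.x c33 c33)) (.y c32 (.x c33 c34))) (.x (.y (.x (.y c35 c29) (.y c35 c36)) c37) c34)))))
  (.x c2 (.y (.x (.y c37 (.x c2 (.y (.x c38 c38) c38))) (.y c38 c39)) (.x (.y (.x c39 (.y c39
  (.x c39 c40))) (.x c2 c41)) (.y (.x (.y c39 (.x c42 c42)) c29) c41))))) (.y (.x (.y (.x (.y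
  (.x c26 (.y c26 c30)) (.x (.y c31 c32) (.y c31 c32))) (.y (.x (.y c26 (.x c30 c31)) c0) (.x
  (.y (.x c31 c32) c32) (.y c32 (.x c32 c0))))) (.x (.y (.x (.y (.x (.y c32 c33) c33) (.x c35
  c43)) c43) (.x (.y (.x (.y (.x c34 c37) c37) c37) c38) c37)) c43)) (.y c0 (.x (.y (.x (.y c0
  c37) c0) c38) c0))) (.x (.y (.x (.y c38 c39) (.y c43 (.x c39 c43))) (.x (.y (.x (.y (.x c39
  c34) c41) c34) c41) (.y (.x (.y (.x c44 c44) c44) c44) c44))) (.y (.x (.y c39 c43) (.y c39 (.x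
  (.y c39 c44) (.y (.x c45 c0) c44)))) c41)))))) (.x c2 c41)) (.y (.x (.y c0 (.x (.y c0 (.x (.y
  c0 c41) c0)) c0)) c0) (.x c41 c46))) (.x (.y (.x c2 (.y (.x c2 (.y c41 (.x (.y (.x c2 (.y c41
  c47)) c47) (.y (.x (.y (.x c41 (.y c41 c47)) c47) c47) c47)))) c47)) c47) (.y (.x (.y (.x (.y
  (.x c41 (.y c41 (.x (.y c41 c47) (.y c41 c47)))) c47) (.y (.x (.y c41 (.x (.y c43 c47) c47))
  (.y c41 c47)) c47)) c47) (.y (.x (.y (.x (.y c46 c47) c46) c47) c47) c47)) c48))) (.y c0 c48))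
  (.x (.y c48 (.x c2 c49)) (.y c50 c49))) (.y c0 c51))))))) c0)) (.y (.x c0 (.y (.x c0 c52) (.x
  c0 (.y (.x c0 c53) c53)))) (.x c0 (.y (.x c0 (.y c53 (.x c0 (.y c54 c54)))) (.x c0 (.y (.x c54
  (.y c49 c55)) (.x c54 (.y (.x c55 c56) (.x c54 (.y (.x c55 c56) (.x c55 c56)))))))))))) (.y
  (.x (.y (.x (.y c0 (.x c0 (.y (.x c0 (.y c0 c57)) (.x (.y c57 (.x c57 c57)) c57)))) (.y (.x
  c58 (.y c59 c60)) (.x (.y c58 (.x (.y c58 (.x c57 c58)) c58)) c58))) (.x (.y (.x (.y (.x c0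
  c53) (.x (.y (.x c0 c53) c52) c53)) (.y (.x (.y (.x c53 (.y c61 c53)) c53) (.y (.x c62 c57)
  (.x (.y (.x c53 (.y c63 c6)) c53) (.y (.x c62 c62) (.x (.y (.x (.y c64 c6) c65) c1) c65)))))
  (.x c53 c1))) c1) (.y (.x (.y (.x (.y (.x c65 c58) (.x c65 (.y (.x c65 c58) c65))) c58) c1)
  c58) c1))) (.y (.x (.y (.x (.y c59 (.x c66 c59)) c59) (.x (.y c66 (.x c60 c66)) (.y (.x c67
  c59) (.x c68 (.y c59 c68))))) (.y (.x (.y (.x c69 (.y (.x c59 c70) (.x (.y (.x c69 c71) c69)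
  (.y (.x c71 c70) c71)))) (.x (.y (.x c59 c69) (.x c59 (.y c69 (.x (.y c69 (.x (.y c69 c72)
  c69)) c69)))) (.y (.x c69 c73) (.x c69 (.y c73 c69))))) (.y (.x (.y (.x (.y (.x c70 (.y (.x
  c59 (.y c59 (.x c59 c74))) (.x (.y (.x c70 (.y c59 c75)) c75) (.y (.x (.y (.x c59 (.y c59 (.x
  c76 c74))) (.x (.y (.x c75 (.y c77 (.x c77 (.y c77 (.x c77 (.y c77 c75)))))) c75) (.y (.x (.y
  c77 (.x (.y c77 (.x (.y c77 c78) c78)) (.y c77 (.x (.y c78 (.x c78 c79)) c79)))) c79) c79)))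
  c74) (.x (.y c79 c75) c79))))) (.x c75 (.y (.x c75 (.y (.x c75 c79) c75)) c75))) (.y (.x c74
  (.y (.x (.y (.x c80 c81) (.x c74 c80)) c81) (.x (.y (.x c74 (.y (.x c80 c80) c74)) c74) (.y
  (.x (.y c81 c80) c81) (.x (.y c80 (.x c74 c80)) c81))))) (.x (.y (.x (.y c74 (.x c79 c74))
  c74) (.x (.y c82 (.x c75 c79)) c74)) (.y (.x c74 (.y (.x c74 c80) c82)) c74)))) (.x c70 (.y
  (.x (.y c83 c75) c74) c73))) (.y (.x (.y (.x (.y (.x c84 c85) (.x (.y c84 c81) c84)) (.y (.x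
  c85 (.y (.x c85 (.y (.x c85 c86) c85)) c85)) c85)) (.x (.y (.x (.y c81 c82) c84) (.x (.y (.x
  (.y c82 c74) c81) c83) (.y (.x c81 c84) c83))) (.y c85 c83))) (.y (.x (.y (.x (.y (.x c86 c87)
  (.x (.y c86 (.x c85 c86)) (.y c87 c86))) (.y (.x c87 (.y (.x c87 (.y (.x c87 (.y (.x c87 (.y
  c88 (.x c87 c88))) c87)) c87)) c87)) c87)) (.x (.y (.x c85 c86) (.x c85 (.y c86 c85))) (.y c87
  c82))) (.y (.x (.y (.x (.y (.x (.y c88 (.x (.y (.x (.y c88 (.x c87 c88)) c88) (.x c87 c88))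
  c88)) (.y (.x c88 (.y (.x c88 (.y (.x (.y c89 c88) (.y c89 (.x c90 c90))) (.x c88 (.y (.x c91
  c91) c91)))) c91)) c91)) (.x (.y (.x (.y c91 c87) c91) (.x c87 c91)) c91)) c91) (.x (.y (.x
  c87 c91) (.x c87 (.y (.x c87 c91) c87))) c91)) (.y (.x (.y (.x c91 (.y (.x (.y (.x (.y (.x (.y
  (.x c92 c92) c92) (.y c92 (.x c92 c93))) c93) (.y c93 (.x c93 (.y c93 (.x c93 c94))))) (.x (.y
  (.x c91 (.y (.x c95 c95) (.x c91 c95))) c91) (.y (.x (.y (.x c96 c96) (.x c95 c96)) (.y c94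
  c96)) (.x c95 c96)))) (.y (.x (.y c93 c94) (.y c93 (.x (.y (.x c93 c97) (.x c94 c98)) (.y (.x
  (.y c97 (.x c98 c99)) c100) (.x (.y c99 c98) (.y (.x (.y c100 (.x c101 c100)) c100) (.x (.y
  c101 c102) c102))))))) (.x c94 (.y (.x c98 (.y (.x c98 (.y (.x (.y (.x c98 (.y c102 c98)) c98)
  (.y (.x c101 c100) c101)) (.x c98 (.y (.x c98 c101) (.x c98 c101))))) c98)) c98)))) (.x (.y
  (.x c91 (.y (.x (.y (.x c91 c95) c91) (.y (.x c95 c96) c95)) (.x c91 (.y c95 (.x c91 c95)))))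
  (.x c91 (.y (.x c91 (.y (.x c91 c95) c91)) c91))) (.y (.x (.y (.x c96 c94) (.x c96 c94)) c94)
  (.x (.y (.x c95 c96) (.x (.y c95 (.x c91 c95)) (.y c96 (.x c95 c96)))) (.y c94 (.x c96
  c94))))))) (.x c91 (.y (.x c91 (.y (.x (.y (.x c91 c95) (.x c91 (.y (.x c91 c95) c91))) (.y
  (.x c96 c94) (.x (.y (.x c95 c96) c95) c96))) (.x c91 (.y c103 (.x c91 c95))))) (.x c91 (.y
  (.x c91 c104) c91))))) (.y (.x (.y (.x (.y (.x (.y (.x c93 c97) (.x (.y (.x c100 c105) (.x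
  c100 c106)) c105)) (.y (.x (.y c97 (.x c107 c107)) (.y c97 (.x c108 c108))) (.x (.y c107 (.x
  c105 c107)) (.y (.x c107 c108) (.x c107 c109))))) (.x (.y (.x (.y c100 (.x (.y (.x (.y (.x
  c101 c100) (.x c98 c101)) c100) (.x (.y (.x c98 c101) c98) (.y c100 (.x c101 c100)))) c100))
  (.y (.x c106 c105) c106)) (.x (.y (.x (.y (.x c98 (.y (.x c110 c101) c111)) c98) (.y c100 (.x
  (.y (.x c101 c100) c112) c100))) (.x c98 (.y c112 c113))) (.y c106 c100))) (.y (.x c105 c107)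
  (.x (.y c105 (.x c106 c105)) (.y c107 c105))))) (.y c108 (.x (.y (.x (.y c108 c109) c108) (.x
  (.y (.x c107 c109) c107) c108)) c108))) (.x (.y (.x (.y (.x (.y (.x c98 c114) c98) (.y c114
  (.x c115 c116))) c116) c116) c116) (.y c116 (.x (.y c116 (.x (.y c116 c106) c105)) (.y c116
  (.x c107 (.y c116 c109))))))) (.y (.x c108 (.y (.x c108 (.y (.x c108 (.y (.x c108 c117) c108))
  c108)) c116)) c108)) (.x (.y (.x (.y (.x c94 (.y (.x c98 (.y (.x c98 (.y (.x (.y c116 (.x (.y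
  c116 c98) c101)) c100) c118)) c118)) c118)) c118) (.y (.x (.y (.x (.y c100 c118) c118) c118)
  c118) c118)) c118) c118))) (.x c118 (.y c118 (.x c118 (.y c118 (.x (.y c118 (.x c118 (.y c118
  (.x c118 (.y c118 c91))))) (.y c118 (.x (.y c118 (.x (.y c118 c95) c96)) c94))))))))) (.x (.y
  (.x c87 (.y (.x (.y c118 (.x c87 c91)) c91) (.x (.y c119 c87) c91))) c82) (.y (.x c91 (.y (.x
  c91 (.y c119 c82)) c91)) c82)))) (.x (.y (.x c85 (.y (.x c86 (.y c87 c86)) (.x (.y c120 c85)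
  c86))) c83) (.y (.x c87 (.y (.x (.y (.x (.y c82 c120) c91) c120) c91) c83)) c83)))) (.x (.y
  (.x c121 (.y c121 c73)) c73) (.y c73 c73)))) (.x (.y c73 (.x c71 c70)) (.y c73 (.x c75
  c74))))) (.x (.y (.x (.y (.x c59 (.y (.x (.y (.x (.y c122 c67) c69) c67) c69) c67)) (.x c59
  (.y (.x c61 (.y c61 c123)) c1))) (.y c69 (.x (.y c123 c1) c69))) c1) (.y (.x (.y (.x (.y c71
  (.x c69 c71)) (.y (.x c71 c75) c123)) c1) c75) c1)))) (.x c1 (.y c1 (.x c1 (.y c1 (.x c1 (.y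
  c1 (.x c1 (.y c84 c124)))))))))) (.x (.y (.x (.y (.x c52 c53) c53) c53) (.x (.y (.x (.y c53
  (.x c125 (.y (.x (.y c53 c125) (.y c53 (.x c126 c127))) (.x c125 (.y c49 c125))))) (.y c53 (.x
  (.y c53 (.x (.y c49 (.x c127 (.y (.x c127 (.y c49 (.x c127 c128))) c128))) (.y (.x c49 c128)
  (.x (.y c129 c128) c128)))) c52))) (.x (.y c125 (.x (.y c125 (.x c56 c125)) c125)) (.y (.x (.y
  (.x (.y (.x c126 c127) c130) (.y (.x (.y (.x c131 (.y c131 c55)) c130) (.y c55 c130)) c132))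
  (.x c125 (.y c132 c133))) (.y c132 (.x (.y c132 c133) (.y c52 c133)))) (.x c125 (.y (.x c134
  (.y c135 c134)) c134))))) (.y (.x c53 c53) (.x (.y (.x (.y c132 c52) (.y c53 c135)) (.x (.y
  c52 c134) (.y c135 c60))) (.y c53 c60))))) (.y (.x (.y (.x (.y c58 c53) c60) (.x c53 c60)) (.y
  (.x c66 (.y (.x (.y (.x c136 c137) c53) (.y (.x c138 c124) c138)) c53)) c60)) (.x (.y (.x c53
  c60) c60) c60))))) (.x (.y (.x (.y (.x (.y (.x (.y (.x (.y (.x (.y (.x (.y (.x (.y (.x (.y (.x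
  (.y (.x (.y (.x (.y (.x (.y (.x c139 c140) (.x c117 c139)) c140) (.x (.y (.x c117 (.y c139
  c117)) c116) (.y c140 c116))) c140) c116) c140) (.x (.y (.x c108 (.y c116 (.x c108 (.y c116
  (.x c117 c139))))) (.x c108 c118)) (.y c140 c118))) (.y (.x c140 (.y c116 (.x c140 (.y c116
  (.x c140 (.y c116 (.x c140 c141))))))) c140)) c118) (.y (.x (.y (.x (.y c116 (.x (.y c116 (.x
  (.y c116 (.x c142 c142)) (.y (.x c143 c143) c143))) (.y c116 (.x (.y (.x c144 c144) c118) (.y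
  (.x c145 (.y (.x (.y (.x c116 c146) (.x c147 c146)) c146) c118)) c118))))) (.y c116 (.x (.y
  (.x c146 (.y c116 c146)) (.x (.y c146 c118) c146)) (.y (.x (.y c116 (.x c148 c148)) c148)
  c148)))) c118) (.y (.x (.y (.x c116 (.y c116 (.x (.y c116 (.x c116 c149)) c149))) (.x (.y (.x
  (.y (.x c150 c150) c150) (.y (.x c151 c151) c151)) c118) (.y c149 c118))) c149) c118)) c118))
  (.x (.y c118 (.x (.y c118 (.x (.y c118 (.x (.y (.x c118 (.y c118 c119)) c119) (.y (.x (.y c118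
  c119) c119) c119))) (.y (.x c118 c108) c119))) (.y c118 c108))) (.y c118 (.x (.y (.x c118
  c140) c119) (.y (.x c140 (.y c118 c119)) c119))))) (.y (.x (.y c149 c118) c149) (.x (.y (.x
  c118 c149) (.x (.y (.x (.y (.x (.y c118 (.x c144 (.y c118 c119))) (.y c118 c119)) c119) (.y
  (.x c148 (.y (.x c150 c151) c119)) c119)) c119) (.y (.x (.y (.x (.y c149 c119) c149) c119)
  c149) c82))) c149))) (.x (.y (.x (.y (.x (.y c119 c82) c82) c82) c82) (.x (.y c82 (.x c91 (.y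
  c82 (.x c91 (.y c82 c120))))) (.y c82 (.x (.y c82 (.x (.y c82 c120) c120)) (.y c82 c120)))))
  (.y c82 (.x (.y c82 (.x (.y (.x (.y c82 c120) c152) c120) (.y c140 c120))) (.y (.x c82 (.y c82
  (.x (.y c82 c152) c149))) c120))))) (.y (.x (.y c118 (.x c149 (.y (.x (.y c153 c119) c153)
  c82))) c153) (.x (.y c82 (.x (.y c149 c120) c149)) (.y c153 (.x (.y c120 c83) c153))))) (.x
  (.y (.x (.y (.x c91 c83) c83) c83) c121) (.y c83 c121))) (.y (.x (.y (.x (.y (.x c154 c155)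
  c82) c155) (.x (.y (.x c153 c154) c153) (.y (.x (.y c155 c120) c155) c83))) c155) c73)) c73)
  (.y (.x (.y (.x (.y (.x c156 (.y (.x c82 c73) c73)) c83) c73) c73) c73) c73)) (.x (.y (.x c73
  c73) (.x (.y (.x (.y (.x c84 c85) c84) (.y (.x c85 (.y c73 c157)) c85)) c74) (.y (.x (.y (.x
  (.y c87 (.x c86 c87)) (.y (.x (.y c73 c87) (.y c73 (.x (.y c73 (.x c87 (.y (.x c87 c91) (.x
  c87 (.y (.x c87 c91) c87))))) c91))) (.x c87 (.y (.x c87 (.y (.x (.y c91 (.x c87 c91)) c91)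
  (.x (.y (.x c87 (.y c91 c87)) c87) c91))) (.x c87 (.y (.x c87 c67) c87)))))) (.x (.y (.x c86
  c67) c74) c87)) (.y (.x (.y (.x c91 (.y c73 c91)) (.x (.y c91 c67) c91)) (.y (.x (.y c73 (.x
  (.y (.x (.y c73 (.x (.y (.x c91 (.y c73 c91)) c91) (.y (.x c95 c96) (.x (.y (.x c91 c95) (.x
  c91 c158)) (.y (.x c95 c96) c158))))) (.y c73 (.x (.y c94 (.x c158 c94)) (.y c98 c94)))) (.x
  (.y (.x c91 (.y (.x c91 (.y c95 (.x c91 c95))) (.x c91 (.y (.x c91 c159) c159)))) c91) (.y (.x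
  (.y (.x (.y c96 (.x c95 c96)) (.y c94 c96)) (.x c95 c96)) c94) (.x (.y (.x (.y (.x c159 c95)
  (.x c159 c95)) (.y (.x c95 c96) c95)) (.x c159 (.y c95 (.x c159 c95)))) (.y (.x c96 c94) (.x
  (.y c96 c1) (.y c94 c96))))))) (.y (.x (.y c73 (.x (.y (.x (.y c73 c158) (.y c100 c158)) (.x
  c98 (.y (.x (.y c158 c160) c100) (.x c98 c161)))) (.y (.x (.y c105 c158) (.y c158 c105)) (.x
  (.y c106 c161) c105)))) (.y c73 (.x (.y (.x c107 (.y c158 (.x c109 c108))) (.x (.y c161 (.x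
  c105 c107)) (.y c161 (.x c107 c109)))) c108))) (.x (.y (.x (.y (.x c98 (.y (.x c98 (.y (.x c98
  (.y c161 c98)) c98)) c98)) c98) (.y (.x (.y (.x (.y c100 c162) c106) c162) (.y (.x c106 c162)
  c162)) c162)) (.x c94 (.y (.x c98 c1) c1))) (.y (.x (.y c162 (.x (.y c162 (.x c106 c105)) (.y
  c162 c105))) (.y c162 (.x (.y c162 c107) c108))) c1))))) (.y c73 (.x (.y c108 (.x (.y c108 c1)
  c108)) (.y (.x (.y (.x (.y c73 (.x c108 (.y c161 (.x c108 c117)))) (.y c140 (.x (.y c161 (.x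
  c139 c140)) c140))) (.x c108 c1)) c140) c1)))) (.x (.y (.x (.y (.x c91 c1) c91) c1) c67) c1)))
  c67)) c74))) (.y (.x (.y c73 c73) (.y c73 (.x c155 c73))) (.x (.y (.x (.y (.x (.y (.x (.y c73
  c1) (.y (.x c73 c149) c1)) c67) c1) c61) c1) c61) c1)))) (.y c73 (.x (.y (.x (.y c73 c1) c73)
  c1) c1))) c1) (.y (.x (.y c73 c1) c73) c1)) (.x (.y c1 (.x (.y c1 (.x (.y c1 (.x (.y c84 (.x
  (.y c84 c163) (.y c84 c163))) (.y c84 (.x c164 c163)))) (.y c1 (.x c165 c71)))) (.y c1 (.x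
  c166 c84)))) (.y c1 (.x (.y c1 (.x c84 c167)) c167)))) (.y c1 (.x (.y c1 (.x c132 (.y c1 (.x
  c132 (.y c53 c132))))) (.y c1 (.x (.y c1 c4) c4))))) (.x (.y (.x (.y (.x (.y (.x (.y (.x (.y
  c163 c53) c53) c53) c53) (.x c138 (.y c138 (.x c138 (.y c138 c168))))) (.y c53 (.x (.y (.x
  c138 c71) (.x c69 (.y c71 c4))) (.y (.x c71 (.y (.x c166 c54) (.x c71 (.y (.x c166 c75)
  c166)))) c71)))) (.x (.y (.x (.y c138 c60) (.y c4 c168)) c60) (.y (.x (.y c4 c168) (.y c71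
  c132)) c132))) (.y (.x (.y (.x (.y c84 (.x (.y c84 c138) c84)) (.y c53 (.x (.y c53 (.x c84
  c132)) c132))) (.x (.y (.x (.y (.x (.y c138 c169) (.y c84 (.x (.y c54 (.x c169 (.y c84 c169)))
  c84))) (.x c169 (.y c170 c169))) (.y c84 (.x (.y c170 c169) c132))) c4) (.y c132 c132))) c132)
  (.x (.y c132 c132) c132))) (.x c60 (.y (.x c60 (.y c132 c60)) c60))) (.y (.x c132 (.y (.x c132
  c4) c132)) (.x (.y (.x (.y c132 c60) c132) c60) (.y (.x c132 (.y c171 c60)) (.x c132 (.y c60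
  (.x c132 (.y (.x c132 (.y c172 c173)) (.x c132 (.y c174 c175))))))))))) (.y (.x (.y c1 (.x (.y
  c1 (.x c4 (.y c1 c4))) c1)) c1) (.x (.y (.x c176 (.y (.x (.y (.x (.y c4 c176) (.y (.x (.y c4
  c132) c132) c132)) (.x c176 (.y c132 c176))) (.y (.x c132 c132) (.x (.y c132 (.x (.y c132 (.x
  c176 (.y (.x c176 (.y (.x c153 c177) c178)) c178))) (.y (.x (.y c132 c153) c179) (.x (.y c179
  c178) c178)))) (.y (.x c132 c180) (.x (.y c181 c181) c181))))) (.x c176 (.y (.x (.y (.x c178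
  (.y c178 (.x c176 (.y c178 c171)))) c176) (.y (.x (.y c178 c171) (.y c178 c171)) c171))
  c171)))) (.x (.y c176 (.x (.y c176 (.x (.y c176 (.x c175 c176)) c176)) c176)) c176)) (.y (.x
  (.y (.x (.y c1 (.x (.y (.x (.y c132 c182) c182) c182) c182)) (.y c1 (.x c182 c1))) (.x (.y (.x
  (.y (.x (.y c182 c171) c171) c171) c171) c171) c171)) (.y c1 (.x (.y c171 c60) (.y c171
  c173)))) (.x (.y (.x (.y (.x c60 c183) (.x c176 (.y c184 c173))) (.y c183 (.x c185 c173))) (.x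
  c176 (.y (.x (.y (.x (.y c175 c176) (.y c185 (.x c186 c187))) (.x c176 (.y c186 c176))) (.y
  (.x c185 (.y c173 (.x c185 (.y (.x c185 (.y c188 c189)) c189)))) c189)) (.x c176 (.y (.x (.y
  (.x c186 c187) c186) (.y c125 (.x c187 c185))) c190))))) (.y (.x (.y (.x (.y c183 c173) c173)
  c173) c173) (.x (.y (.x (.y (.x (.y c173 (.x (.y (.x c191 c189) c189) c189)) c192) (.x c189
  c192)) (.y (.x (.y c173 c192) c189) (.x c192 (.y c189 c192)))) (.x (.y (.x (.y c125 c193) (.y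
  c125 c193)) (.x c194 (.y c194 c194))) c192)) (.y (.x (.y c189 (.x (.y c189 c125) (.y (.x (.y
  c189 c125) c125) (.x c125 c193)))) (.y c189 (.x (.y c173 c193) c173))) (.x (.y (.x (.y c193
  c192) (.y c193 (.x (.y c190 c194) c195))) (.x c192 (.y (.x c192 (.y c195 (.x c192 c195)))
  c192))) (.y (.x (.y (.x c190 (.y c193 (.x c190 (.y c193 (.x (.y c190 (.x c190 (.y c190 (.x (.y
  c190 (.x (.y c190 c194) (.y c190 c194))) (.y c190 (.x (.y c190 c194) c194)))))) (.y c190 (.x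
  (.y c190 (.x (.y (.x c190 (.y c190 (.x c190 (.y c190 c194)))) c194) (.y (.x (.y c190 (.x (.y
  c190 c194) c194)) (.y c190 c194)) c194))) (.y (.x c190 (.y c190 (.x c190 (.y c190 (.x (.y c190
  (.x c190 c196)) c196))))) c196)))))))) (.x (.y (.x (.y (.x c190 c197) c194) c197) c194) (.y
  (.x (.y (.x c196 (.y c196 c194)) c194) (.y c194 c194)) (.x c194 (.y c194 (.x (.y c194 c198)
  (.y c194 c198))))))) (.y (.x (.y c193 (.x (.y c190 (.x (.y c190 c196) c196)) (.y (.x c190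
  c173) (.x c196 (.y c196 c194))))) (.y c193 (.x (.y c173 (.x (.y c196 c194) c173)) c173))) (.x
  (.y c194 (.x (.y c194 (.x (.y (.x c194 c198) c199) (.y c198 c199))) (.y (.x c194 (.y c194 (.x
  c194 c198))) (.x (.y c198 c199) c199)))) (.y c194 (.x (.y (.x (.y c194 c198) (.y c194 c198))
  c199) (.y (.x c198 c200) c199)))))) (.x (.y (.x (.y (.x c195 (.y (.x (.y c194 c199) (.y c198
  c199)) (.x c199 c201))) c195) (.y (.x c197 (.y c199 c201)) c202)) (.x c195 (.y c203 (.x c195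
  (.y c203 (.x c195 (.y (.x (.y c204 c205) (.y c197 c205)) c205))))))) (.y (.x (.y (.x (.y c199
  c201) c201) c202) (.y (.x c201 (.y c201 c202)) c203)) (.x (.y c203 (.x c197 (.y (.x (.y c204
  (.x c197 (.y c206 c205))) (.y c204 (.x (.y (.x (.y c204 c206) (.y c204 c205)) c205) c205)))
  (.x c205 (.y c205 (.x c197 (.y c205 c206))))))) (.y (.x c203 (.y c203 (.x c204 (.y c204 (.x
  c204 (.y c204 (.x c204 (.y c204 c205)))))))) (.x (.y (.x (.y (.x c204 (.y c204 (.x (.y c204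
  c205) (.y c204 c205)))) c205) (.y (.x (.y c204 c205) (.y c204 c205)) c205)) (.x (.y c205 (.x
  (.y c205 (.x (.y (.x (.y c205 (.x c206 (.y c205 (.x c206 c207)))) c207) (.x (.y c208 c206)
  c207)) c207)) c207)) c207)) (.y (.x (.y (.x (.y (.x (.y c204 c205) (.y c204 c205)) c205) (.y
  (.x (.y c204 c205) c205) c205)) c205) c205) (.x (.y (.x c207 (.y c205 (.x (.y c205 c207) (.y
  c205 (.x (.y (.x c207 (.y c205 (.x c205 (.y c205 c208)))) c208) (.y (.x (.y c205 (.x c209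
  c209)) (.y c205 c209)) c208)))))) (.x c207 (.y (.x c207 (.y (.x c207 (.y (.x (.y (.x c210
  c210) c210) c210) (.x c207 (.y c211 (.x (.y c211 c207) (.y c211 (.x (.y (.x (.y c211 c212)
  c213) c214) c213))))))) (.x c207 (.y (.x c207 (.y (.x c207 c215) c207)) c207)))) c207))) (.y
  (.x (.y c205 (.x c213 (.y (.x (.y c205 c213) (.y c205 (.x (.y c205 c209) (.y (.x (.y c205
  c209) c209) c208)))) (.x c213 (.y (.x c213 (.y c208 c210)) c210))))) (.y c205 (.x (.y (.x (.y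
  c205 (.x (.y c209 c208) c208)) (.y (.x (.y c205 (.x (.y c205 c209) c209)) (.y c205 c209))
  c208)) (.x (.y c210 c211) (.y c210 (.x c211 (.y c211 (.x (.y c211 (.x (.y c211 (.x c211 c216))
  (.y c211 (.x (.y c211 c212) (.y c211 c217))))) (.y c211 (.x (.y c211 c218) (.y (.x c211 c219)
  (.x c220 c219)))))))))) (.y (.x (.y (.x (.y c205 c209) (.y (.x c221 c222) c222)) (.x c208
  c222)) c222) (.x (.y c210 (.x (.y c211 (.x (.y c211 (.x c223 (.y c218 c223))) (.y c224 (.x (.y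
  (.x (.y c218 c217) c224) c217) c224)))) (.y c211 (.x (.y (.x c224 c225) c224) c222))))
  c222))))) (.x (.y (.x (.y c213 (.x (.y (.x (.y c215 (.x c226 c226)) c213) (.x (.y (.x c227
  c227) (.x c207 c228)) c213)) c213)) c213) (.x (.y (.x (.y (.x (.y (.x c207 c229) c229) c229)
  c229) c229) c229) c229)) (.y (.x (.y (.x (.y (.x (.y (.x c230 c231) c217) (.y (.x (.y c211 (.x
  c231 (.y (.x c218 c232) c217))) (.y (.x c233 (.y c211 (.x c233 c218))) c217)) c215)) (.x c230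
  (.y c226 c227))) (.y (.x (.y (.x (.y (.x (.y c211 (.x c218 (.y c218 c217))) (.y (.x (.y c211
  c218) (.y c211 c218)) c217)) c217) (.y (.x (.y (.x (.y c211 c218) c218) c217) (.y (.x c218 (.y
  c218 c217)) c217)) c217)) c215) (.y c217 (.x (.y c215 c226) c226))) (.x (.y c226 c227) (.y
  c226 c227)))) (.x (.y (.x c213 (.y (.x c230 c228) c230)) c229) (.y (.x (.y c228 c229) c229)
  c229))) (.y (.x (.y (.x (.y (.x c217 c215) c226) (.y c215 c226)) (.x (.y (.x (.y c226 c227)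
  c227) (.x (.y c227 c228) c228)) (.y c227 c228))) (.y (.x (.y c222 c226) c222) (.x (.y c227
  c229) c222))) c229)) (.x c229 (.y c229 (.x c229 (.y c229 (.x c229 (.y c229 (.x c229 (.y c229
  c234))))))))))))))))))))))))))))

theorem ok433 : okF 6 17 (-6) t433 = true := by decide +kernel

theorem all433 : AllA 433 := allA (D := 433) (thm_of_ok ok433)
  (l :=
    [(-273993, 25127, 86962, -7975), (13107, -2404, -4160, 763),
     (2284370961, -628476521, -725031178, 199470699), (-627, 230, 199, -73),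
     (109277427, -60128848, -34683308, 19084155), (-1, 0, -1, -1),
     (398941398, -229535123, -126619081, 72851618), (1825857, 1659145, 5752766, 5227503)])
  (by decide +kernel)

/-- a cover for the form `(1, 19, -19)` of discriminant `437` -/
def t437 : CT :=
  let c0 : CT := .l 1 0 0
  let c1 : CT := .l 1 1 0
  let c2 : CT := .l 9 4 1
  let c3 : CT := .l 1 3 0
  let c4 : CT := .l 2 1 0
  let c5 : CT := .l 14 7 2
  let c6 : CT := .l 6 3 1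
  let c7 : CT := .l 2 7 0
  let c8 : CT := .l 6 2 1
  let c9 : CT := .l 1 4 0
  let c10 : CT := .l 4 0 1
  let c11 : CT := .l 5 1 1
  let c12 : CT := .l 4 2 1
  let c13 : CT := .l 10 5 2
  let c14 : CT := .l 7 6 2
  let c15 : CT := .l 5 3 0
  let c16 : CT := .l 14 11 2
  let c17 : CT := .l 12 9 2
  let c18 : CT := .l 11 6 2
  let c19 : CT := .l 6 4 1
  let c20 : CT := .l 12 7 2
  let c21 : CT := .l 6 6 1
  let c22 : CT := .l 16 12 3
  let c23 : CT := .l 6 5 1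
  let c24 : CT := .l 3 6 5
  let c25 : CT := .l 2 (-3) (-4)
  let c26 : CT := .l 5 22 0
  let c27 : CT := .l 26 16 5
  let c28 : CT := .l 5 2 0
  let c29 : CT := .l 8 6 3
  let c30 : CT := .l 3 (-6) 1
  let c31 : CT := .l 3 (-86) 5
  let c32 : CT := .l 2 89 (-4)
  let c33 : CT := .l 5 23 0
  let c34 : CT := .l 10 7 2
  let c35 : CT := .l 4 (-1) 1
  let c36 : CT := .l 14 8 3
  let c37 : CT := .l 24 15 5
  let c38 : CT := .l 1 5 0
  let c39 : CT := .l 9 6 2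
  let c40 : CT := .l 4 3 1
  let c41 : CT := .l 31 25 6
  let c42 : CT := .l 8 7 2
  let c43 : CT := .l 5 5 1
  let c44 : CT := .l 18 15 4
  let c45 : CT := .l 3 3 1
  let c46 : CT := .l 4 4 1
  let c47 : CT := .l 7 0 2
  let c48 : CT := .l 1 6 0
  let c49 : CT := .l 3 0 1
  let c50 : CT := .l 7 4 2
  let c51 : CT := .l 6 3 2
  let c52 : CT := .l 3 1 1
  let c53 : CT := .l 3 2 1
  let c54 : CT := .l 8 1 3
  let c55 : CT := .l 8 4 3
  let c56 : CT := .l 7 5 2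
  let c57 : CT := .l 2 2 1
  let c58 : CT := .l 5 0 2
  let c59 : CT := .l 6 1 2
  let c60 : CT := .l 13 3 5
  let c61 : CT := .l 7 1 3
  let c62 : CT := .l 18 3 7
  let c63 : CT := .l 4 1 2
  let c64 : CT := .l 1 (-4) (-4)
  let c65 : CT := .l 10 (-18) 5
  let c66 : CT := .l 4 5 6
  let c67 : CT := .l 1 88 (-4)
  let c68 : CT := .l 5 2 2
  let c69 : CT := .l 10 3 5
  let c70 : CT := .l 6 9 2
  let c71 : CT := .l 25 6 10
  let c72 : CT := .l 12 3 5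
  let c73 : CT := .l 2 (-2) 1
  let c74 : CT := .l 2 1 1
  let c75 : CT := .l 2 0 1
  let c76 : CT := .l 18 5 8
  let c77 : CT := .l 11 6 4
  let c78 : CT := .l 3 6 1
  let c79 : CT := .l 2 (-3) 1
  let c80 : CT := .l 10 7 5
  let c81 : CT := .l 1 5 5
  let c82 : CT := .l 15 10 6
  let c83 : CT := .l 12 7 5
  let c84 : CT := .l 12 6 5
  let c85 : CT := .l 12 5 5
  let c86 : CT := .l 28 17 12
  let c87 : CT := .l 9 6 4
  let c88 : CT := .l 4 3 2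
  let c89 : CT := .l 7 5 3
  let c90 : CT := .l 5 5 2
  let c91 : CT := .l 12 10 5
  let c92 : CT := .l 2 (-1) 1
  .y (.y (.x (.y c0 (.x c0 (.y c0 (.x c0 (.y (.x c0 (.y c1 c2)) (.x c0 (.y c2 c3))))))) (.y c1
  (.x (.y c1 (.x (.y c4 c3) (.y c1 c3))) c1))) (.x (.y (.x c0 (.y (.x c0 (.y c3 (.x (.y (.x c0
  (.y c3 (.x c0 c5))) (.x c0 (.y (.x c0 c6) c7))) c6))) (.x c0 (.y (.x c8 c6) c9)))) (.x (.y c0
  (.x (.y (.x c10 c0) c10) c0)) (.y (.x c0 (.y (.x (.y c11 (.x c0 c12)) (.y (.x c12 c13) c13))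
  (.x (.y (.x c0 c12) (.x c0 c12)) c12))) (.x c0 (.y (.x (.y (.x c0 c12) c12) c12) c12))))) (.y
  (.x (.y (.x (.y (.x c3 c4) (.x (.y (.x c5 (.y (.x c5 (.y c5 (.x c5 c4))) (.x c6 c7))) c6) (.y
  c4 (.x (.y (.x c6 c4) c8) c4)))) (.y (.x c4 (.y c3 (.x (.y (.x c4 (.y c3 (.x c4 c14))) c7) (.y
  (.x c15 c1) c7)))) (.x c4 (.y (.x (.y (.x c4 (.y c7 (.x c4 (.y c7 c16)))) (.x c4 c16)) (.y (.x
  c17 c16) c16)) (.x c4 (.y c17 c17)))))) (.x (.y (.x c6 (.y c6 c9)) (.x c6 (.y c9 (.x c18 (.y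
  c19 (.x c20 c19)))))) (.y c19 (.x c19 (.y c19 (.x c19 (.y c21 c22))))))) (.y (.x (.y c1 (.x
  (.y c16 c9) c1)) c1) (.x (.y c23 (.x (.y c23 (.x (.y c23 c22) c23)) c23)) (.y c1 (.x (.y c21
  (.x c23 c1)) c1))))) (.x (.y (.x (.y (.x (.y c6 c13) (.y (.x (.y (.x c18 (.y c21 (.x c18 (.y
  (.x c21 (.y c21 (.x (.y c21 (.x c18 c24)) c24))) (.x c25 (.y (.x (.y (.x c25 c26) c26) c26)
  c13)))))) c13) (.y (.x c20 c27) c27)) (.x (.y c13 (.x c18 (.y (.x c13 c28) (.x (.y (.x c18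
  c29) c30) c28)))) (.y (.x (.y c13 (.x c13 (.y c13 (.x c13 c20)))) (.y c27 (.x c20 c27))) (.x
  (.y (.x (.y (.x c28 (.y c13 (.x c28 (.y (.x c31 c24) (.x (.y (.x c25 c24) c32) c32))))) (.x
  c28 (.y c33 c34))) (.y (.x c24 c20) c34)) c34) c34))))) (.x (.y (.x c13 c6) (.x c13 c6)) (.y
  (.x (.y (.x c18 c34) c35) (.y c34 (.x c36 c37))) (.x c36 c38)))) (.y (.x (.y c4 (.x (.y c39
  c39) c34)) (.y (.x c34 (.y c22 c34)) c34)) (.x (.y (.x c39 c34) c39) c40))) (.x (.y (.x c12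
  (.y c38 c12)) c12) (.y (.x (.y c39 c40) c40) c40))) (.y (.x (.y (.x (.y (.x (.y c22 c34) (.y
  (.x (.y c22 (.x c15 (.y (.x (.y c22 (.x c22 (.y c23 c41))) c41) (.x (.y (.x c15 c41) c34)
  c41)))) c23) c34)) (.x (.y c34 (.x c34 (.y c35 c38))) (.y (.x c34 c35) (.x (.y (.x c34 c15)
  c38) (.y (.x (.y (.x (.y c35 c38) c38) c38) c38) c38))))) (.y (.x c23 c23) (.x (.y (.x (.y c35
  c42) c23) c38) c23))) (.x c38 (.y c38 (.x c38 c43)))) (.y (.x (.y (.x (.y (.x c23 c43) c43)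
  c43) c43) c43) (.x c43 c43))) (.x (.y (.x c40 (.y (.x c44 (.y c44 c42)) c40)) c40) (.y (.x (.y
  (.x c45 c45) c45) c46) c46))))))) (.y (.x (.y (.x (.y (.x (.y c10 (.x c10 (.y c12 c47))) c0)
  (.x (.y (.x c47 (.y (.x c47 (.y c47 (.x c47 c0))) (.x c10 c48))) c49) (.y c0 (.x (.y (.x c49
  c0) c49) c0)))) (.y (.x c0 (.y c12 (.x (.y c40 c48) c12))) (.x c0 (.y (.x (.y (.x c0 (.y c48
  (.x c0 (.y c48 c50)))) (.x c0 c50)) (.y (.x c51 c50) c50)) (.x c0 (.y c51 c51)))))) (.x (.y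
  (.x c49 (.y c49 c52)) (.x c49 (.y c52 (.x (.y c53 c54) (.y c52 (.x c54 c52)))))) (.y c52 (.x
  c52 (.y c53 (.x c52 (.y c45 c55))))))) (.y (.x (.y (.x (.y c12 (.x c12 c53)) (.y c40 (.x (.y
  c48 c53) c40))) (.x (.y c50 (.x (.y c12 c53) c53)) (.y (.x c53 c56) c53))) (.y (.x (.y c40 (.x
  c40 c14)) (.y c46 c45)) (.x (.y (.x c40 c14) (.x c53 (.y (.x c40 c45) c53))) c45))) (.x (.y
  c53 (.x (.y c53 (.x (.y c53 c55) c53)) c53)) (.y (.x c53 c45) (.x (.y c45 (.x c53 c57)) (.y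
  c45 (.x c57 c45))))))) (.x (.y (.x (.y (.x (.y c49 c49) (.y (.x (.y c54 c58) (.y (.x c59 c60)
  c60)) (.x (.y c58 (.x (.y c58 c61) (.y (.x c58 (.y c58 c62)) c63))) (.y (.x (.y c58 (.x c58
  (.y c58 (.x c58 c59)))) (.y c60 (.x c59 c60))) (.x (.y (.x (.y (.x c58 (.y c58 (.x c64 (.y (.x
  (.y c58 c65) c66) (.x (.y (.x c64 c66) c67) c67))))) (.x c64 (.y (.x c64 c68) c68))) (.y (.x
  (.y (.x c69 (.y c70 (.x (.y (.x c69 (.y c70 c71)) c71) c71))) (.x c69 c71)) c59) c71)) c68)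
  c68))))) (.x (.y (.x c58 c49) (.x c58 c61)) (.y (.x (.y (.x c61 c68) c61) (.y c68 (.x c61
  c72))) (.x c61 (.y c61 (.x c63 c73)))))) (.y (.x (.y c0 (.x (.y (.x (.y (.x (.y c60 (.x c60
  c68)) c0) c68) c68) c68) c68)) (.y (.x c68 (.y c55 c68)) c68)) (.x (.y (.x (.y c68 (.x c72 (.y
  c72 c61))) c68) (.x (.y (.x c72 (.y c61 (.x (.y (.x c61 c74) c74) c74))) c73) c74)) c74))) (.x
  (.y (.x c75 (.y (.x (.y c73 c75) (.y c73 c63)) c75)) c75) (.y (.x (.y (.x (.y (.x (.y c73 c76)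
  c74) (.x (.y c76 c75) c74)) c74) c75) c74) c74))) (.y (.x (.y (.x (.y (.x (.y c55 c68) (.y (.x
  (.y c55 (.x c77 (.y (.x (.y c70 c29) c53) c29))) c53) c68)) (.x (.y c68 (.x c68 (.y c68 (.x
  c68 (.y c68 c78))))) (.y (.x c68 c79) (.x (.y (.x c68 (.y c79 (.x c77 (.y (.x c77 c78) c78))))
  c78) (.y (.x (.y (.x (.y c79 (.x c79 (.y c79 c78))) (.y c79 (.x c80 c78))) c78) (.y (.x (.y
  c79 c78) c81) c78)) (.x c78 (.y c78 c61))))))) (.y (.x c53 c53) (.x (.y (.x (.y c79 c12) c53)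
  (.x (.y c78 c82) c82)) c53))) (.x (.y (.x (.y (.x c74 (.y (.x c74 c83) c84)) c74) (.y (.x c83
  (.y (.x c83 (.y (.x c85 c81) c83)) c83)) c83)) (.x c74 (.y (.x c74 (.y c73 c86)) c74))) (.y
  (.x (.y (.x (.y (.x c87 c12) c83) c88) c73) (.y c53 c89)) (.x (.y c89 c89) c89)))) (.y (.x (.y
  (.x (.y c29 (.x c79 (.y c79 (.x c53 c57)))) c57) (.x (.y (.x c53 (.y c78 (.x c53 c57))) (.x
  c53 (.y (.x c53 c57) c90))) c57)) (.y (.x c57 c90) c90)) (.x (.y (.x (.y c90 (.x c89 c91))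
  c57) (.x (.y c89 c92) c57)) c57))) (.x (.y (.x c74 (.y (.x c87 (.y c92 c88)) c75)) c74) (.y
  (.x (.y (.x (.y c53 c53) c57) c75) c57) c57)))))

theorem ok437 : okF 1 19 (-19) t437 = true := by decide +kernel

theorem all437 : AllA 437 := allA (D := 437) (thm_of_ok ok437)
  (l :=
    [(-1, 0, -9, -1)])
  (by decide +kernel)

/-- a cover for the form `(2, 20, -5)` of discriminant `440` -/
def t440 : CT :=
  let c0 : CT := .l 1 0 0
  let c1 : CT := .l 4 1 1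
  let c2 : CT := .l 1 1 0
  let c3 : CT := .l 1 0 (-1)
  let c4 : CT := .l 6 2 1
  let c5 : CT := .l 3 1 0
  let c6 : CT := .l 4 0 1
  let c7 : CT := .l 8 3 1
  let c8 : CT := .l 1 2 0
  let c9 : CT := .l 2 1 1
  let c10 : CT := .l 6 3 1
  let c11 : CT := .l 4 2 1
  let c12 : CT := .l 3 1 1
  let c13 : CT := .l 2 0 1
  let c14 : CT := .l 2 (-2) 1
  let c15 : CT := .l 1 (-6) 1
  let c16 : CT := .l 2 0 (-1)
  let c17 : CT := .l 2 1 3
  let c18 : CT := .l 4 7 1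
  let c19 : CT := .l 3 13 0
  let c20 : CT := .l 2 2 7
  let c21 : CT := .l 1 (-4) (-17)
  let c22 : CT := .l 3 1 2
  let c23 : CT := .l 3 3 1
  let c24 : CT := .l 2 (-1) 1
  let c25 : CT := .l 7 2 3
  let c26 : CT := .l 1 1 2
  let c27 : CT := .l 6 4 1
  let c28 : CT := .l 1 0 (-2)
  let c29 : CT := .l 6 5 1
  let c30 : CT := .l 2 (-5) 1
  let c31 : CT := .l 1 2 6
  let c32 : CT := .l 6 4 3
  let c33 : CT := .l 6 3 (-1)
  let c34 : CT := .l 3 2 1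
  let c35 : CT := .l 6 6 1
  let c36 : CT := .l 3 (-2) 1
  let c37 : CT := .l 4 3 1
  let c38 : CT := .l 1 1 1
  let c39 : CT := .l 8 5 3
  let c40 : CT := .l 1 5 0
  let c41 : CT := .l 4 4 1
  let c42 : CT := .l 4 5 1
  let c43 : CT := .l 3 2 0
  let c44 : CT := .l 3 4 1
  let c45 : CT := .l 1 7 26
  let c46 : CT := .l 2 2 1
  .x (.y (.x (.y c0 (.x c0 (.y c0 (.x c0 (.y c0 c1))))) (.y (.x (.y c0 c2) (.y c2 c2)) (.x (.y
  (.x c3 (.y (.x c4 c5) c4)) (.x (.y (.x c1 c3) c1) (.y (.x (.y c4 (.x c3 c4)) (.y (.x c4 c5)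
  (.x c4 (.y (.x c4 c5) c6)))) c1))) (.y (.x (.y (.x (.y c7 c8) c9) (.x (.y c8 (.x c5 c9)) c9))
  (.y c8 c10)) (.x (.y (.x (.y (.x c5 c9) c5) c9) (.x c5 c9)) (.y (.x (.y (.x c9 c11) c11) c11)
  c11)))))) (.x (.y (.x c0 (.y (.x c0 (.y c1 (.x c0 c1))) (.x c0 c12))) (.x (.y c0 c13) (.y (.x
  c0 (.y (.x (.y c14 (.x c0 (.y c15 (.x c0 c16)))) (.y (.x c17 c12) (.x (.y c15 (.x c16 c17))
  (.y (.x (.y c15 (.x c17 (.y c15 c18))) (.y c15 (.x (.y c15 c18) (.y c15 (.x c18 (.y c18 (.x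
  c18 c19))))))) (.x (.y (.x c17 (.y (.x c17 c19) c17)) c17) (.y (.x c20 (.y (.x c21 (.y c19 (.x
  (.y c19 c21) c22))) c23)) c23)))))) (.x (.y (.x c0 (.y c23 (.x c0 c24))) c24) (.y (.x (.y c23
  c24) (.y (.x c23 (.y c23 c25)) c25)) c25)))) c13))) (.y (.x (.y (.x (.y c1 c12) c12) c12) (.y
  (.x (.y c11 c12) (.y c11 c9)) (.x c12 c9))) (.x (.y (.x (.y (.x (.y c12 (.x (.y c22 c25) c25))
  c12) c25) c12) (.x (.y c13 c13) (.y c13 c9))) (.y (.x (.y (.x c12 c9) c9) c9) c9))))) (.y (.x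
  (.y c2 (.x (.y (.x (.y c8 (.x c10 (.y c10 (.x c10 c26)))) (.y c8 (.x (.y (.x c10 (.y c10 c10))
  (.x c26 c27)) c27))) (.x (.y (.x c11 (.y (.x c28 c26) (.x c28 c26))) c11) (.y (.x (.y (.x c26
  (.y (.x c29 c29) (.x c26 (.y c30 (.x c31 c32))))) (.x c26 (.y (.x c26 (.y (.x c31 c33) c31))
  c1))) (.y (.x (.y c6 (.x (.y c30 (.x c32 c34)) c34)) c34) (.x (.y (.x (.y c35 c36) c34) c1)
  c34))) c11))) (.y (.x (.y c8 c27) (.y c8 (.x c27 c37))) (.x (.y (.x c34 c27) (.x c34 (.y c11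
  c37))) (.y (.x (.y (.x c27 c37) c37) c37) c37))))) (.y c2 (.x (.y (.x c2 c2) (.x (.y (.x c37
  c38) c37) (.y c2 c37))) c2))) (.x (.y (.x (.y (.x (.y c11 (.x c11 (.y c11 c12))) (.y (.x c26
  c34) (.x c26 c34))) (.x (.y (.x c11 c34) c34) c34)) (.y (.x c34 (.y c37 c34)) c34)) (.x (.y
  (.x c9 (.y (.x (.y c39 c9) c26) (.x c9 c26))) c9) (.y (.x (.y c34 (.x (.y c34 c13) c34)) (.y
  (.x c34 (.y c34 c34)) (.x c34 (.y (.x c34 c40) c13)))) c9))) (.y (.x (.y (.x (.y c37 (.x c37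
  c38)) c38) (.x (.y c34 (.x c23 c38)) c38)) (.y (.x (.y c41 (.x (.y (.x c38 (.y c42 c34)) c34)
  c23)) c23) c23)) (.x (.y (.x (.y (.x (.y (.x c43 c37) (.x (.y (.x c44 c43) (.x (.y (.x (.y c34
  (.x c34 c43)) c43) (.x (.y (.x c34 c45) c40) c43)) c43)) (.y (.x c43 c37) (.x c43 c37)))) c38)
  (.x (.y c40 c13) c38)) c38) (.x (.y c9 c9) c38)) (.y (.x (.y (.x c38 c46) c46) c46) c46)))))

theorem ok440 : okF 2 20 (-5) t440 = true := by decide +kernel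

theorem all440 : AllB 440 := allB (D := 440) (thm_of_ok ok440)
  (l :=
    [(-1, 0, -5, -1), (2, 1, -1, 0)])
  (l' :=
    [(1, 0), (-1, -1)])
  (by decide +kernel)

/-- a cover for the form `(2, 18, -15)` of discriminant `444` -/
def t444 : CT :=
  let c0 : CT := .l 1 0 0
  let c1 : CT := .l 1 1 0
  let c2 : CT := .l 1 2 0
  let c3 : CT := .l 7 3 1
  let c4 : CT := .l 4 2 1
  let c5 : CT := .l 5 2 1
  let c6 : CT := .l 4 1 1
  let c7 : CT := .l 1 1 1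
  let c8 : CT := .l 3 2 1
  let c9 : CT := .l 6 4 1
  let c10 : CT := .l 2 2 1
  let c11 : CT := .l 5 4 1
  let c12 : CT := .l 9 5 2
  let c13 : CT := .l 4 0 1
  let c14 : CT := .l 1 2 2
  let c15 : CT := .l 5 4 2
  let c16 : CT := .l 9 4 2
  let c17 : CT := .l 1 3 0
  let c18 : CT := .l 6 5 1
  let c19 : CT := .l 4 3 1
  let c20 : CT := .l 4 4 1
  let c21 : CT := .l 1 (-1) (-1)
  let c22 : CT := .l 2 (-3) 1
  let c23 : CT := .l 10 1 3
  let c24 : CT := .l 8 1 3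
  let c25 : CT := .l 2 2 3
  let c26 : CT := .l 3 1 1
  let c27 : CT := .l 8 0 3
  let c28 : CT := .l 2 0 1
  let c29 : CT := .l 1 4 0
  let c30 : CT := .l 17 2 7
  let c31 : CT := .l 2 (-2) 1
  let c32 : CT := .l 15 2 6
  let c33 : CT := .l 17 3 7
  let c34 : CT := .l 2 (-1) (-1)
  let c35 : CT := .l 3 1 2
  let c36 : CT := .l 2 (-1) 1
  let c37 : CT := .l 2 1 1
  let c38 : CT := .l 4 5 1
  let c39 : CT := .l 1 3 3
  let c40 : CT := .l 8 8 3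
  let c41 : CT := .l 2 (-21) 3
  let c42 : CT := .l 1 53 (-5)
  let c43 : CT := .l 4 7 1
  let c44 : CT := .l 1 0 (-1)
  let c45 : CT := .l 1 14 (-1)
  let c46 : CT := .l 1 (-20) (-27)
  let c47 : CT := .l 8 5 3
  let c48 : CT := .l 1 (-25) 3
  let c49 : CT := .l 5 3 2
  .y (.x (.y (.x c0 (.y (.x c0 c1) (.x c1 c1))) (.x (.y c0 (.x c0 c0)) (.y (.x (.y c0 c2) (.y
  (.x (.y c3 c3) (.y (.x c3 c3) c2)) (.x c2 (.y c2 (.x c4 (.y c2 c5)))))) (.x (.y (.x c0 c5) (.x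
  c0 (.y c6 c6))) (.y (.x c5 (.y c5 c4)) (.x c7 c4)))))) (.y (.x (.y c1 c1) c1) (.x (.y (.x (.y
  c2 (.x (.y c2 (.x (.y c2 c5) c8)) (.y c2 (.x (.y c9 c9) c9)))) (.y c2 (.x c9 (.y c9 (.x c9 (.y
  c10 c11)))))) (.x (.y (.x (.y (.x (.y c5 (.x c5 (.y c5 c12))) c8) (.x c4 c12)) (.y (.x (.y (.x
  c8 (.y c13 c8)) c8) (.y c14 (.x (.y c14 (.x c8 c14)) c14))) (.x c8 (.y (.x (.y (.x c8 c14) c8)
  c14) c12)))) (.x c4 (.y c4 c8))) (.y (.x (.y (.x (.y (.x (.y c9 (.x c14 c9)) c9) (.x c14 (.y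
  (.x c15 c9) (.x c15 c16)))) c9) (.x (.y (.x c14 c6) c11) c11)) (.y (.x c9 c11) c11)) (.x (.y
  (.x c14 c4) c17) c17)))) (.y (.x (.y c1 (.x (.y (.x c11 c11) c11) c18)) c1) (.x (.y c11 (.x
  c19 (.y c19 c19))) (.y (.x (.y (.x c11 c1) c17) c1) (.x (.y (.x c19 c19) (.x c19 c20))
  c20))))))) (.x (.y (.x (.y (.x (.y (.x c13 c0) (.x (.y c13 c17) (.y c0 (.x c17 c0)))) c0) (.x
  (.y (.x (.y (.x c21 c13) (.x c21 (.y c13 c22))) (.y (.x (.y (.x c13 (.y c23 c19)) (.x c13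
  c24)) (.y c23 (.x (.y (.x c25 c23) (.x c25 c0)) c23))) (.x (.y c13 c22) (.y (.x (.y c25 c24)
  c22) c26)))) (.x (.y (.x (.y (.x c22 c21) c26) c21) c26) (.y c26 c26))) (.y c0 (.x (.y c26
  c26) c26)))) (.y (.x (.y (.x c26 (.y (.x c6 c4) c17)) c26) (.y (.x (.y c7 c4) c4) (.x (.y (.x
  c26 c7) c26) c7))) (.x c26 (.y c26 (.x c26 (.y c8 c8)))))) (.x (.y (.x (.y (.x (.y (.x c27 (.y
  c21 (.x c27 c24))) (.x c28 (.y c8 c29))) (.y (.x (.y c24 c24) c24) (.x c21 c29))) (.x c28 (.y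
  (.x c21 (.y (.x c21 c13) (.x c21 c30))) c28))) (.y (.x (.y (.x c24 (.y c31 c29)) (.x (.y c29
  c32) (.y c29 (.x (.y c29 c33) (.y c29 c33))))) (.y c0 (.x (.y c29 (.x (.y (.x c34 c0) c34)
  c0)) c0))) (.x (.y (.x (.y (.x c30 c24) c35) (.y c33 (.x (.y c33 c24) c33))) c36) (.y (.x (.y
  (.x c33 c0) c36) c0) c36)))) (.x c28 (.y c28 c28))) (.y (.x c0 (.y (.x c26 c37) c37)) (.x (.y
  (.x c28 c37) (.x c28 c37)) c37)))) (.y (.x (.y (.x (.y (.x c4 c8) (.x (.y c4 c26) c8)) (.y (.x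
  (.y c19 c19) c19) (.x c8 c8))) (.x (.y (.x (.y c26 c8) c8) (.x c8 c8)) c8)) (.y (.x (.y (.x
  c19 (.y (.x c19 c20) (.x c20 c20))) (.x (.y c19 c8) c10)) (.y (.x (.y c20 c20) c20) (.x (.y
  (.x (.y c38 (.x c10 c8)) (.y c38 c8)) c8) (.y (.x (.y c20 c8) c20) c8)))) (.x (.y (.x c8 (.y
  c29 c10)) (.x (.y c8 c15) (.y (.x c19 c10) (.x (.y c36 c15) c10)))) (.y (.x (.y c29 c10) (.y
  (.x (.y c29 (.x c39 c40)) (.y c29 (.x (.y c29 (.x (.y (.x c40 (.y (.x c40 (.y c29 c41)) c40))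
  c40) (.y (.x (.y c41 c42) (.y c41 c43)) c43))) c44))) (.x (.y (.x c39 (.y c43 c40)) (.x (.y
  (.x c10 c39) c10) c39)) (.y (.x (.y c43 c40) (.y (.x (.y c43 c45) c45) (.x (.y c45 (.x (.y c45
  c40) (.y c45 (.x (.y c45 (.x c40 c46)) c44)))) c44))) (.x c40 (.y (.x (.y (.x c40 c47) c40)
  (.y c47 c48)) (.x c40 c36))))))) (.x c10 (.y (.x (.y (.x c10 c39) c10) (.y c36 c40)) (.x c10
  c40))))))) (.x (.y (.x (.y (.x c7 c49) (.x c37 (.y c49 c37))) (.y (.x (.y c49 c49) c8) (.x (.y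
  (.x c49 c15) c28) (.y c15 c28)))) (.x c37 (.y c37 c37))) (.y (.x (.y (.x c15 c15) (.x (.y c15
  (.x c8 c15)) (.y c28 c10))) (.y (.x c10 c10) c10)) (.x (.y (.x c37 c37) (.x c37 c10)) c10)))))

theorem ok444 : okF 2 18 (-15) t444 = true := by decide +kernel

theorem all444 : AllB 444 := allB (D := 444) (thm_of_ok ok444)
  (l :=
    [(-1, 0, -4, -1), (2, 1, 19, 10), (-5, -4, 4, 3)])
  (l' :=
    [(1, 0), (7, 2), (-1, -1)])
  (by decide +kernel)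

end Pool.Agent.Mukai
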