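import Pool.Agent.Work.MP_1e087a_ag.R4.Table

/-!
# Covers for the discriminants from 449 to 461
-/

namespace Pool.Agent.Mukai

/-- a cover for the form `(10, 7, -10)` of discriminant `449` -/
def t449 : CT :=
  let c0 : CT := .l 1 0 0
  let c1 : CT := .l 3 0 1
  let c2 : CT := .l 11 1 4
  let c3 : CT := .l 3 1 2
  let c4 : CT := .l 7 0 3
  let c5 : CT := .l 3 (-1) 0
  let c6 : CT := .l 1 (-12) 9
  let c7 : CT := .l 3 (-6) (-7)
  let c8 : CT := .l 4 5 9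
  let c9 : CT := .l 9 2 3
  let c10 : CT := .l 3 (-12) 10
  let c11 : CT := .l 3 19 (-12)
  let c12 : CT := .l 1 11 16
  let c13 : CT := .l 1 (-94) (-132)
  let c14 : CT := .l 6 27 41
  let c15 : CT := .l 2 31 (-21)
  let c16 : CT := .l 5 (-12) 11
  let c17 : CT := .l 1 (-74) 53
  let c18 : CT := .l 1 (-116) (-163)
  let c19 : CT := .l 6 31 (-19)
  let c20 : CT := .l 1 138 195
  let c21 : CT := .l 14 (-7) (-3)
  let c22 : CT := .l 6 (-31) 25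
  let c23 : CT := .l 1 74 (-52)
  let c24 : CT := .l 5 12 (-6)
  let c25 : CT := .l 2 (-31) 23
  let c26 : CT := .l 3 12 (-7)
  let c27 : CT := .l 9 (-2) 6
  let c28 : CT := .l 1 (-6) (-8)
  let c29 : CT := .l 1 (-1) (-1)
  let c30 : CT := .l 3 5 (-2)
  let c31 : CT := .l 6 1 3
  let c32 : CT := .l 3 2 0
  let c33 : CT := .l 12 1 5
  let c34 : CT := .l 1 (-3) (-4)
  let c35 : CT := .l 5 1 2
  let c36 : CT := .l 3 1 1
  let c37 : CT := .l 9 2 4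
  let c38 : CT := .l 7 2 3
  let c39 : CT := .l 17 4 8
  let c40 : CT := .l 1 1 0
  let c41 : CT := .l 3 1 0
  let c42 : CT := .l 10 3 1
  let c43 : CT := .l 1 1 1
  let c44 : CT := .l 3 2 2
  let c45 : CT := .l 14 5 3
  let c46 : CT := .l 9 4 3
  let c47 : CT := .l 9 (-4) 6
  let c48 : CT := .l 1 16 (-11)
  let c49 : CT := .l 1 (-53) (-75)
  let c50 : CT := .l 8 1 (-1)
  let c51 : CT := .l 1 (-15) 11
  let c52 : CT := .l 4 (-5) 5
  let c53 : CT := .l 3 10 (-6)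
  let c54 : CT := .l 3 3 (-1)
  let c55 : CT := .l 9 2 2
  let c56 : CT := .l 1 9 (-6)
  let c57 : CT := .l 2 1 1
  let c58 : CT := .l 4 1 1
  let c59 : CT := .l 4 3 3
  let c60 : CT := .l 3 (-21) 16
  let c61 : CT := .l 7 (-2) 4
  let c62 : CT := .l 3 0 (-1)
  let c63 : CT := .l 5 2 1
  let c64 : CT := .l 7 3 2
  let c65 : CT := .l 9 9 10
  let c66 : CT := .l 1 (-22) 16
  let c67 : CT := .l 1 2 (-1)
  let c68 : CT := .l 7 3 0
  let c69 : CT := .l 1 (-1) (-2)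
  let c70 : CT := .l 16 7 1
  let c71 : CT := .l 12 5 1
  let c72 : CT := .l 3 0 (-2)
  let c73 : CT := .l 5 3 1
  let c74 : CT := .l 6 5 3
  let c75 : CT := .l 5 1 (-2)
  let c76 : CT := .l 1 4 5
  let c77 : CT := .l 4 9 (-5)
  let c78 : CT := .l 1 9 12
  let c79 : CT := .l 9 3 (-2)
  let c80 : CT := .l 3 (-12) (-19)
  let c81 : CT := .l 8 (-1) (-7)
  let c82 : CT := .l 2 (-21) (-31)
  let c83 : CT := .l 3 10 12
  let c84 : CT := .l 1 164 (-116)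
  let c85 : CT := .l 1 53 74
  let c86 : CT := .l 5 11 12
  let c87 : CT := .l 1 (-163) 116
  let c88 : CT := .l 1 (-194) 138
  let c89 : CT := .l 18 11 3
  let c90 : CT := .l 1 133 (-94)
  let c91 : CT := .l 14 17 (-7)
  let c92 : CT := .l 3 2 1
  let c93 : CT := .l 6 3 1
  let c94 : CT := .l 1 (-52) (-74)
  let c95 : CT := .l 6 25 31
  let c96 : CT := .l 6 (-19) (-31)
  let c97 : CT := .l 3 54 74
  let c98 : CT := .l 6 (-35) 27
  let c99 : CT := .l 3 (-7) (-12)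
  let c100 : CT := .l 2 23 31
  let c101 : CT := .l 5 (-6) (-12)
  let c102 : CT := .l 3 15 19
  let c103 : CT := .l 9 6 2
  let c104 : CT := .l 5 4 2
  let c105 : CT := .l 7 4 0
  let c106 : CT := .l 11 7 1
  let c107 : CT := .l 12 7 1
  let c108 : CT := .l 1 5 (-3)
  let c109 : CT := .l 3 3 2
  let c110 : CT := .l 17 9 4
  let c111 : CT := .l 9 5 2
  let c112 : CT := .l 7 5 3
  let c113 : CT := .l 1 0 1
  let c114 : CT := .l 4 3 1
  let c115 : CT := .l 1 7 9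
  let c116 : CT := .l 9 7 2
  let c117 : CT := .l 3 4 3
  let c118 : CT := .l 14 11 5
  let c119 : CT := .l 9 6 4
  let c120 : CT := .l 4 (-1) (-5)
  let c121 : CT := .l 1 76 (-53)
  let c122 : CT := .l 1 (-10) (-15)
  let c123 : CT := .l 8 9 1
  let c124 : CT := .l 1 12 16
  let c125 : CT := .l 10 9 3
  let c126 : CT := .l 1 2 2
  let c127 : CT := .l 1 (-15) (-22)
  let c128 : CT := .l 4 1 3
  let c129 : CT := .l 7 3 (-2)
  let c130 : CT := .l 3 (-13) (-21)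
  let c131 : CT := .l 3 9 10
  let c132 : CT := .l 3 4 0
  let c133 : CT := .l 3 3 1
  let c134 : CT := .l 12 11 5
  let c135 : CT := .l 1 3 (-1)
  let c136 : CT := .l 16 15 7
  let c137 : CT := .l 7 7 3
  let c138 : CT := .l 1 (-4) 4
  let c139 : CT := .l 5 4 3
  let c140 : CT := .l 3 5 0
  let c141 : CT := .l 5 7 1
  let c142 : CT := .l 6 3 5
  let c143 : CT := .l 1 (-11) 9
  let c144 : CT := .l 9 11 3
  let c145 : CT := .l 3 22 (-12)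
  let c146 : CT := .l 6 (-21) (-35)
  let c147 : CT := .l 14 21 17
  let c148 : CT := .l 1 95 133
  let c149 : CT := .l 3 (-9) 10
  let c150 : CT := .l 1 (-137) (-194)
  let c151 : CT := .l 18 15 11
  let c152 : CT := .l 1 117 164
  let c153 : CT := .l 2 33 (-21)
  let c154 : CT := .l 5 (-7) 11
  let c155 : CT := .l 1 (-73) 53
  let c156 : CT := .l 1 (-115) (-163)
  .x (.x (.y (.x c0 (.y c0 c0)) (.x (.y (.x (.y c0 c1) (.y c0 (.x (.y c1 c1) (.y c0 (.x (.y c0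
  c2) (.y c0 c3)))))) (.x (.y (.x (.y c1 c4) c1) (.x (.y (.x c4 c4) (.x (.y (.x c5 (.y c4 (.x c5
  (.y c5 c5)))) (.x (.y (.x (.y (.x c6 (.y c6 (.x (.y c6 c7) c5))) (.x (.y (.x c8 c9) c9) (.y c9
  (.x c8 c7)))) (.y c5 (.x (.y c5 (.x c7 (.y c5 c10))) c5))) (.x (.y (.x (.y (.x (.y (.x c9 (.y
  c9 c11)) (.x c12 c12)) (.y (.x c11 (.y c11 (.x (.y c11 (.x (.y c11 c13) c14)) (.y c8 c10))))
  (.x (.y (.x c12 (.y c13 c10)) c12) c10))) (.x c12 (.y c10 c12))) (.y (.x (.y c8 c10) c8) (.x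
  (.y (.x (.y c10 (.x c12 (.y c10 c12))) (.y c10 c15)) (.x c12 (.y c15 c12))) (.y (.x c15 c8)
  (.x (.y c16 (.x (.y (.x c16 c13) c17) c17)) (.y (.x (.y c16 c17) c8) c17)))))) (.x (.y c12 (.x
  (.y c12 (.x (.y c12 (.x (.y c12 c18) c12)) c12)) c12)) (.y (.x c12 (.y (.x (.y c17 c12) (.y
  (.x (.y c17 c19) (.y (.x c17 c19) c13)) (.x c12 (.y c13 c20)))) c12)) c12))) (.y (.x (.y (.x
  (.y c10 c8) c7) (.x (.y c8 (.x (.y c17 (.x c17 c8)) c8)) c8)) (.y (.x (.y c5 c7) c5) c7)) (.x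
  (.y (.x (.y (.x (.y (.x (.y c21 (.x (.y c14 c13) c21)) (.y c8 c21)) (.x c13 (.y (.x (.y c21
  (.x c13 c21)) c21) (.x c13 (.y c21 c13))))) (.y c8 (.x c21 (.y c8 (.x c21 c8))))) (.x (.y (.x
  (.y (.x c20 c13) c12) c13) (.x c12 (.y c20 c12))) (.y (.x (.y (.x (.y (.x c13 c21) c13) c14)
  c13) (.y c21 (.x (.y c21 c13) c21))) (.x (.y c13 (.x c20 c13)) (.y c22 c13))))) (.y c8 (.x (.y
  (.x (.y c8 c22) c8) c23) c8))) (.x (.y (.x c12 (.y c23 c12)) c12) (.y (.x (.y (.x c23 (.y c23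
  c13)) c24) (.y (.x (.y c21 c24) c24) c24)) (.x c12 (.y c25 c26))))) (.y (.x c8 (.y c7 c8)) (.x
  (.y (.x c24 c8) (.x (.y (.x (.y c25 c26) c26) c26) c26)) c8)))))) (.y c5 (.x (.y (.x (.y c5
  (.x (.y c5 (.x c7 c5)) c5)) c5) (.x (.y (.x c7 (.y c5 c26)) (.x (.y c26 c8) c7)) (.y c5 (.x
  (.y (.x c7 c5) c7) (.y c5 c27))))) c5)))) (.y (.x (.y c4 (.x (.y c4 c28) c4)) c4) (.x (.y (.x
  c5 c28) c5) (.y (.x (.y (.x c4 c4) c28) c29) (.x (.y c28 c5) (.y (.x c28 c30) c28))))))) (.y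
  (.x c29 (.y c1 c29)) (.x (.y c29 (.x (.y c29 (.x (.y c29 (.x c28 c29)) c29)) c29)) c29)))) (.y
  (.x (.y c1 c1) (.y (.x (.y c2 (.x c31 (.y (.x (.y c2 c32) c32) c33))) (.y (.x (.y c2 c2) (.y
  c3 c32)) (.x (.y c33 (.x c33 c2)) c34))) (.x (.y (.x c33 c31) c1) (.y (.x (.y (.x c31 (.y c9
  c31)) c31) (.y (.x (.y c9 (.x (.y c2 c31) c2)) c34) (.x c31 (.y (.x (.y c2 c31) c2) c31))))
  c31)))) (.x (.y c1 (.x (.y (.x c29 c1) c29) (.y c1 (.x (.y c1 c29) c1)))) (.y (.x c1 (.y (.x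
  (.y c31 c1) c31) c35)) c1))))) (.y (.x c0 c0) (.x (.y (.x (.y (.x (.y c3 (.x (.y c3 (.x c34
  (.y c9 c34))) c3)) (.y c0 c35)) (.x (.y (.x (.y c34 (.x (.y c34 (.x (.y c2 c31) c34)) c34))
  (.y (.x c34 c35) c35)) (.x (.y (.x c31 c35) c35) c35)) c35)) (.y c35 c35)) (.x (.y (.x c31 (.y
  c35 c31)) c31) (.y (.x c36 c3) c31))) (.y (.x c35 c0) (.x (.y (.x (.y c36 c31) c37) (.x c31
  c3)) (.y c35 (.x (.y (.x c38 c39) c3) (.y c37 c40))))))))) (.y (.x (.y (.x (.y c41 (.x c0 (.y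
  c41 (.x c0 c42)))) (.y c41 (.x (.y c41 (.x (.y (.x c42 c1) (.x c42 (.y c42 c42))) c43)) c43)))
  (.x (.y (.x c0 (.y (.x c0 (.y (.x (.y c1 (.x (.y c1 (.x c0 (.y (.x c0 (.y c1 c44)) c44))) (.y
  (.x (.y c1 c45) c46) (.x (.y c45 (.x c44 c45)) c45)))) (.y c42 (.x (.y (.x (.y (.x (.y c1 c46)
  (.y c42 (.x c47 c48))) c48) (.y c48 (.x (.y c48 (.x c48 (.y c48 (.x c46 (.y c49 c46))))) (.y
  c48 (.x (.y c50 c49) c50))))) (.x (.y c46 c45) (.y (.x c46 (.y (.x c51 c51) c51)) c51))) (.y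
  (.x c50 c42) (.x (.y c51 (.x c51 (.y c51 (.x c51 (.y c51 (.x c51 c49)))))) (.y c51 (.x (.y c51
  (.x (.y c51 c49) c50)) c50))))))) (.x (.y (.x c44 (.y (.x c44 c51) c44)) c44) (.y (.x (.y (.x
  c45 (.y c46 c45)) (.x (.y (.x c44 c45) c44) (.y c45 (.x c44 c45)))) (.y (.x c46 (.y (.x (.y
  (.x (.y (.x (.y c49 c46) c49) c46) c52) c52) c52) (.x c46 c53))) (.x c45 c46))) (.x c44 (.y
  (.x (.y c45 c44) c45) c54)))))) (.x c0 (.y (.x (.y (.x c0 c54) (.x c0 (.y c55 c56))) (.y c44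
  (.x (.y c56 (.x c56 c44)) c44))) (.x c57 c58))))) (.x c58 c58)) (.y (.x (.y (.x (.y (.x (.y
  c42 (.x (.y c42 (.x (.y c59 c50) c59)) c42)) c42) (.x (.y (.x (.y (.x (.y c50 (.x (.y c53 (.x
  c53 (.y c53 (.x c46 c49)))) (.y c53 (.x (.y c50 c60) c60)))) (.y c59 c50)) (.x (.y (.x c46 (.y
  (.x (.y c49 c61) c61) c61)) c46) (.y (.x c61 c50) c54))) (.y c59 c54)) c54) (.y (.x (.y c42
  c59) c54) (.x (.y c55 (.x c55 c56)) (.y c55 c59))))) (.y (.x c62 c63) (.x (.y c42 (.x (.y c56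
  (.x c59 c64)) c64)) (.y c63 (.x c42 c63))))) (.x (.y (.x (.y (.x (.y c55 c56) (.y c56 (.x c56
  c45))) c44) (.y (.x (.y c56 (.x c45 c46)) (.y (.x (.y c56 (.x (.y c56 (.x c56 c65)) c50)) (.y
  c59 c50)) (.x (.y (.x (.y (.x c46 c66) c66) c66) c46) c67))) c67)) c67) (.y (.x (.y (.x (.y
  c59 c67) c67) c67) c67) c67))) (.y (.x c63 c63) (.x c67 c63))) (.x (.y (.x c58 (.y c67 c58))
  c57) (.y c63 c63))))) (.y (.x (.y (.x c41 (.y c68 (.x c41 (.y (.x c41 c69) (.x c41 c70)))))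
  (.x c41 (.y (.x c41 (.y c71 c71)) c41))) (.y (.x (.y (.x c68 (.y c68 c68)) (.x (.y c69 (.x c70
  c70)) (.y c68 c69))) (.y (.x (.y (.x (.y (.x c1 c72) (.x c73 (.y (.x (.y c72 c73) c72) c73)))
  (.y (.x c72 (.y (.x (.y c1 c74) c75) (.x c72 (.y (.x c74 c75) c74)))) c72)) (.x (.y c73 c76)
  (.y (.x (.y (.x c73 c51) c73) (.y c72 (.x c73 c72))) c73))) (.y (.x (.y (.x (.y c75 (.x (.y
  c75 c48) c75)) (.y (.x (.y (.x (.y (.x c77 c78) c78) (.y c79 c78)) c78) (.y c79 c48)) c78))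
  (.x (.y (.x c74 (.y c75 c51)) c72) (.y c75 (.x (.y (.x c74 c75) c74) (.y c75 c52))))) (.y (.x
  (.y (.x c48 (.y c48 (.x (.y c48 c79) (.y (.x c48 (.y c48 (.x c48 (.y c48 c80)))) (.x c79
  c80))))) (.x (.y (.x (.y c79 c78) c79) c78) c79)) (.y (.x (.y (.x c48 (.y c48 (.x (.y c48 c81)
  (.y c82 (.x (.y c82 c81) c82))))) (.x (.y (.x (.y c83 (.x (.y c83 c84) c83)) c83) c51) c83))
  (.y (.x (.y (.x c48 c85) (.x c86 (.y (.x (.y c84 c86) c51) c86))) (.y (.x (.y (.x c48 (.y c48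
  c87)) (.x c85 (.y c84 c85))) (.y (.x (.y c87 c84) (.y (.x (.y c87 c84) c84) c51)) c51)) c51))
  c51)) (.x (.y c51 (.x c79 (.y c51 c79))) (.y c51 (.x (.y (.x c51 (.y c51 (.x c51 (.y c83
  c88)))) (.x c89 c80)) (.y c83 (.x (.y (.x (.y c90 (.x c80 c91)) (.y c83 c91)) (.x c80 c52))
  (.y c83 c52)))))))) (.x (.y (.x c78 (.y (.x c78 (.y c79 c78)) c78)) c75) (.y (.x (.y c79 (.x
  c78 c79)) (.y (.x c79 c52) c79)) (.x c78 (.y (.x (.y c79 c78) c79) c54)))))) (.x (.y (.x c72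
  (.y (.x c72 c74) c72)) c54) (.y (.x (.y (.x (.y c75 c54) c75) c54) c54) c54)))) (.x (.y (.x
  (.y (.x c68 c76) c54) (.y c73 c76)) (.x c68 (.y (.x c92 c67) c92))) (.y (.x (.y (.x c73 (.y
  c54 c73)) c73) (.y (.x (.y c72 (.x c73 c72)) c72) c67)) c67)))) (.x (.y (.x (.y (.x c70 (.y
  c70 c70)) c67) (.y c69 c67)) (.x c67 (.y c67 c93))) (.y c67 (.x (.y (.x c67 c69) c93) (.y c69
  c32)))))) (.x (.y (.x c43 (.y (.x c43 c41) c63)) (.x c63 c63)) (.y (.x (.y (.x c41 (.y c93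
  c93)) (.x c63 c41)) c93) (.x c43 (.y (.x c41 (.y c93 c41)) c43)))))) (.x (.y (.x (.y c36 c36)
  c36) (.x (.y c0 (.x (.y c0 c40) c0)) (.y (.x c0 c36) c40))) (.y (.x (.y c36 (.x c57 c57)) (.y
  (.x (.y c43 (.x c64 c43)) c43) c40)) (.x (.y c57 c57) c57))))) (.x (.y (.x (.y (.x (.y (.x (.y
  (.x (.y (.x (.y (.x (.y (.x (.y (.x (.y (.x (.y (.x (.y c84 c51) c51) c51) c51) c51) c51) c51)
  (.y c51 (.x c51 (.y c51 (.x (.y c51 (.x (.y c51 c88) (.y c51 c90))) (.y c94 (.x (.y c95 c90)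
  (.y c94 (.x c95 c94))))))))) (.x (.y (.x (.y c51 (.x (.y c51 c83) c82)) (.y (.x c51 (.y c51
  c85)) (.x c86 (.y (.x c90 c85) (.x c86 (.y c91 c86)))))) (.x (.y (.x c83 (.y (.x c83 c82)
  c83)) c83) (.y (.x (.y c86 c52) c86) c52))) (.y (.x (.y (.x (.y (.x c51 (.y c51 c88)) (.x (.y
  (.x c88 c96) c90) (.y c90 c96))) (.y (.x (.y c51 c90) (.y (.x c88 c90) c90)) (.x (.y c90 (.x
  (.y c90 c96) c91)) (.y (.x (.y c90 c97) (.y (.x c90 c98) c98)) c91)))) (.x c85 (.y (.x (.y c96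
  c52) c52) c52))) (.y (.x (.y (.x (.y c90 (.x c90 (.y c90 c98))) (.y c90 (.x (.y (.x c90 c98)
  c98) c98))) (.x (.y c91 (.x c91 c52)) (.y c91 c52))) (.y (.x (.y (.x (.y c90 c98) c98) c91)
  (.y c91 c52)) c52)) c52)) (.x c52 (.y c52 c53))))) (.y (.x (.y (.x c51 (.y c51 (.x c51 c99)))
  (.x (.y (.x c51 c100) (.x (.y (.x c94 (.y (.x c94 c90) c94)) c94) (.y c101 (.x c94 (.y c101
  c52))))) (.y (.x (.y (.x c100 c99) c100) c99) (.x c101 c100)))) (.y (.x (.y c51 (.x c99 (.y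
  (.x c99 (.y c51 c90)) c99))) (.y (.x c102 c103) (.x (.y c102 (.x (.y (.x (.y c90 c99) (.y c102
  c98)) c99) (.y c102 c52))) c102))) (.x (.y c99 c52) c52))) (.x (.y (.x (.y (.x (.y (.x (.y c94
  c95) c94) c52) c52) c52) c52) c53) (.y (.x (.y c52 c53) c53) (.x (.y c53 c54) c54))))) (.x (.y
  (.x (.y (.x (.y c52 c53) c53) (.x (.y c53 c79) (.y (.x c53 c54) c54))) (.y (.x c53 (.y c53
  c54)) c54)) c54) (.y (.x (.y (.x (.y (.x c53 c54) c54) c54) c54) c54) c54))) (.y (.x (.y (.x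
  (.y c103 (.x (.y c52 c53) (.y c103 c53))) (.y (.x c103 (.y c52 c103)) c103)) (.x (.y (.x (.y
  c53 c99) (.y c53 c54)) c54) c54)) (.y (.x (.y (.x (.y c52 c53) c53) (.x c103 c54)) (.y c104
  c54)) c54)) c54)) (.x (.y c54 (.x (.y c75 c56) (.y c56 (.x c75 c78)))) (.y (.x c54 (.y c54
  c56)) (.x (.y c56 c67) (.y (.x (.y c56 c67) c67) c67))))) (.y (.x (.y c54 (.x c54 c54)) (.y
  c54 c105)) (.x (.y (.x (.y c56 c105) c105) c105) c105))) (.x (.y (.x (.y (.x (.y (.x c72 c67)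
  c72) c67) c105) c105) c67) c67)) (.y (.x (.y c105 c105) c105) (.x c67 (.y c67 c32)))) (.x (.y
  (.x (.y c73 (.x (.y c67 c92) c32)) (.y (.x c67 c32) c32)) c32) (.y c32 (.x (.y c32 c73) (.y
  c32 (.x c73 c93)))))) (.y (.x (.y c105 c32) c32) (.x (.y c32 (.x (.y c32 c93) (.y (.x (.y c32
  c93) c93) (.x (.y c93 (.x c93 (.y c93 (.x (.y c93 c106) c106)))) (.y (.x c93 (.y c93 c103))
  (.x (.y (.x (.y c93 c106) c106) c106) c106)))))) (.y c32 (.x (.y (.x c107 (.y c93 (.x c107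
  c106))) (.x (.y (.x c104 c107) c108) (.y c107 c108))) (.y c106 (.x (.y c108 c109) (.y c106
  c36)))))))) (.x (.y (.x (.y c93 c93) (.y (.x c93 c73) (.x c69 c92))) (.x (.y (.x c36 c93) (.x
  (.y c36 c43) (.y (.x (.y c93 c110) c110) c111))) (.y (.x (.y c111 c111) c73) c73))) (.y (.x
  (.y (.x (.y (.x c73 (.y (.x c93 (.y c93 c106)) c108)) c73) (.y (.x (.y (.x (.y (.x (.y c93
  c108) c106) c108) c108) c108) (.y c108 (.x c73 c36))) c73)) c73) (.y (.x (.y (.x (.y (.x c108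
  c103) c36) c36) c73) (.y c36 c40)) c73)) (.x c73 c73)))) (.y (.x (.y c32 (.x (.y c32 (.x (.y
  c106 c36) c40)) (.y c40 c40))) (.y c40 c40)) (.x (.y c40 c40) c40))) (.x (.y (.x (.y (.x c43
  c40) c43) (.y c40 (.x c40 c92))) (.x c57 c57)) (.y (.x c92 (.y c92 c92)) (.x (.y (.x c57 (.y
  c92 c57)) c43) (.y c92 (.x (.y (.x (.y c112 c112) c112) c43) c113)))))) (.y (.x c40 c40) (.x
  (.y (.x (.y (.x c40 (.y c40 c57)) (.x (.y c57 c104) (.y (.x c114 c114) c104))) (.y (.x (.y c57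
  (.x (.y c57 (.x c114 (.y c57 c114))) (.y c40 (.x (.y (.x (.y c57 c115) c116) (.x (.y (.x (.y
  c115 c3) c115) c3) c115)) (.y (.x c117 (.y c40 c117)) c3))))) (.y c40 (.x (.y c40 (.x (.y c3
  (.x (.y c3 c117) (.y c3 (.x c117 c118)))) (.y (.x c3 (.y c3 (.x c3 (.y c3 (.x (.y c3 c118)
  c118))))) (.x (.y (.x (.y c3 (.x (.y c3 c118) c118)) (.y (.x c3 (.y c3 c118)) c118)) (.x c118
  (.y c118 c119))) (.y (.x c118 (.y c118 c119)) (.x (.y c119 (.x c119 (.y c119 (.x c119 c120))))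
  (.y c119 (.x c120 (.y (.x c120 (.y (.x (.y c119 c120) c121) c120)) c120))))))))) (.y c40 (.x
  (.y (.x (.y (.x c3 (.y c40 (.x c3 c32))) (.x (.y (.x c3 (.y c3 c118)) c118) c118)) (.y c32 (.x
  (.y c118 c119) c119))) (.x (.y (.x (.y c118 c119) (.y c119 (.x c119 (.y c119 (.x c122
  c122))))) (.x (.y (.x (.y c122 (.x (.y c122 (.x c119 c122)) c122)) c122) (.x (.y (.x (.y c121
  c123) c123) c123) c123)) c122)) (.y (.x (.y (.x c119 (.y c119 (.x c119 c124))) (.x (.y (.x (.y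
  c124 (.x c119 (.y c124 c121))) c124) (.x (.y c121 c123) c123)) c124)) c124) (.x (.y c123 c122)
  c125)))) (.y c32 c125)))))) (.x (.y (.x c126 (.y (.x (.y c3 c126) (.y (.x (.y c115 (.x (.y
  c115 c118) c118)) (.y c116 c115)) (.x (.y (.x c118 c119) (.x c126 (.y (.x c126 (.y (.x c126
  c127) c127)) c126))) (.y c115 (.x (.y (.x (.y (.x c127 c115) c127) c123) c127) (.y c123
  c128)))))) (.x c126 (.y (.x c126 (.y c128 c126)) c126)))) (.x c104 c126)) (.y (.x (.y (.x (.y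
  c117 (.x (.y (.x c115 c116) c128) c116)) (.y (.x (.y (.x (.y c119 c117) (.y (.x c129 (.y c119
  (.x c129 (.y c121 c129)))) (.x c117 c129))) c117) (.y (.x (.y (.x (.y (.x (.y c119 (.x c130
  c121)) c131) (.x c130 c123)) c131) c123) (.y c123 c128)) c128)) (.x c117 c125))) (.x (.y (.x
  (.y (.x c128 c115) c125) c125) (.x c126 c104)) (.y c125 c104))) (.y (.x (.y (.x (.y (.x (.y
  c123 c128) c128) c125) c125) c125) c125) (.x (.y c132 c104) (.y c132 c113)))) (.x c104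
  c113))))) (.x (.y (.x (.y c104 c104) c104) (.x c113 (.y c113 (.x c133 c74)))) (.y (.x c113 (.y
  c126 (.x c113 c133))) (.x (.y (.x c113 c133) c74) (.y (.x c109 (.y c133 c74)) c74))))) (.y (.x
  (.y (.x (.y c40 (.x (.y c125 c125) c125)) (.y c133 c133)) (.x (.y (.x (.y (.x c125 c125) c113)
  (.y (.x c125 c125) c113)) c113) c113)) c133) (.x (.y (.x (.y c133 c133) (.y c133 (.x c133 (.y
  c133 c134)))) (.x (.y (.x (.y c126 c74) c126) (.x (.y c74 c109) (.y (.x (.y c126 c135) c135)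
  c135))) (.y (.x c126 (.y (.x c136 c136) c135)) c126))) (.y (.x (.y c133 (.x (.y c133 (.x c136
  c136)) (.y c133 (.x (.y c133 c135) c137)))) (.y c133 c137)) (.x (.y (.x (.y (.x c136 c135)
  c135) (.y c137 c137)) (.x (.y (.x c44 (.y c137 (.x c126 (.y c44 c126)))) c126) (.y (.x (.y
  c117 c138) (.y (.x c117 c138) c117)) (.x (.y c139 c126) (.y (.x c139 c117) (.x (.y (.x c139
  c115) c140) c140)))))) (.y (.x (.y c137 c137) c137) (.x (.y (.x (.y c138 c139) (.y c139 (.x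
  (.y c139 (.x (.y c139 c140) (.y c139 c140))) (.y (.x c139 (.y c139 c140)) c140)))) (.x c117
  (.y (.x c140 (.y c140 (.x c140 (.y c140 c131)))) (.x c117 (.y (.x c117 c141) c117))))) (.y (.x
  (.y (.x c139 (.y c139 (.x (.y c139 c140) c140))) c140) (.y (.x (.y c32 c140) c140) (.x (.y
  c140 (.x c140 (.y c140 (.x c142 (.y c142 c141))))) (.y c140 (.x (.y c142 c141) c141))))) (.x
  (.y (.x (.y c140 (.x (.y c142 c120) (.y (.x c142 c141) c141))) (.y (.x (.y c142 c122) (.y c142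
  c141)) c141)) (.x (.y c141 (.x c117 (.y c143 (.x c117 c144)))) (.y (.x c143 (.y c143 (.x c143
  c122))) (.x (.y (.x (.y c143 c144) c120) c144) (.y c144 (.x c120 (.y c144 c120))))))) (.y (.x
  (.y (.x c124 c141) c143) (.y c141 (.x (.y c143 c124) (.y (.x c143 (.y c143 c144)) c144)))) (.x
  (.y (.x c122 (.y (.x (.y c143 c144) c144) c144)) (.x (.y (.x c144 c122) (.x (.y (.x (.y c144
  c145) c145) (.x (.y (.x c145 (.y c145 c120)) c120) (.y (.x (.y (.x c145 (.y c145 c146)) c147)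
  (.y c148 c149)) c149))) (.y (.x (.y c145 (.x (.y c145 c150) c122)) c122) c149))) c122)) (.y
  (.x (.y c144 (.x (.y c144 (.x c151 c145)) (.y c151 (.x (.y c145 (.x c145 c124)) c124)))) c124)
  (.x (.y (.x c122 (.y (.x (.y (.x (.y c152 c149) c149) c149) c149) c149)) c122) (.y (.x (.y
  c149 (.x (.y c149 (.x (.y c152 c122) c153)) (.y c124 c153))) c124) (.x (.y (.x c122 (.y c154
  (.x c122 (.y c152 c122)))) c122) (.y (.x (.y c124 c155) c124) (.x (.y (.x c155 (.y c155 c152))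
  c122) (.y (.x (.y c124 c156) c124) (.x (.y c152 c122) (.y c156 (.x c152
  c156)))))))))))))))))))))))

theorem ok449 : okF 10 7 (-10) t449 = true := by decide +kernel

theorem all449 : AllA 449 := allA (D := 449) (thm_of_ok ok449)
  (l :=
    [(38266, -3449, -27149, 2447), (260542, 51619, 367229, 72756), (86, -31, -61, 22),
     (-17, 7, 12, -5), (2, -1, -1, 1), (-28984712, -22969991, -40853401, -32375766),
     (518637, 570256, 731009, 803765), (1, 0, 0, 1)])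
  (by decide +kernel)

/-- a cover for the form `(1, 21, -3)` of discriminant `453` -/
def t453 : CT :=
  let c0 : CT := .l 1 0 0
  let c1 : CT := .l 5 1 1
  let c2 : CT := .l 4 1 1
  let c3 : CT := .l 3 1 0
  let c4 : CT := .l 1 1 0
  let c5 : CT := .l 3 1 (-1)
  let c6 : CT := .l 1 3 0
  let c7 : CT := .l 7 3 1
  let c8 : CT := .l 2 1 0
  let c9 : CT := .l 7 2 1
  let c10 : CT := .l 6 1 1
  let c11 : CT := .l 1 4 0
  let c12 : CT := .l 3 1 1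
  let c13 : CT := .l 6 2 1
  let c14 : CT := .l 2 1 1
  let c15 : CT := .l 2 1 2
  let c16 : CT := .l 5 3 1
  let c17 : CT := .l 1 5 0
  let c18 : CT := .l 4 1 (-4)
  let c19 : CT := .l 4 2 1
  let c20 : CT := .l 7 2 2
  let c21 : CT := .l 1 0 (-1)
  let c22 : CT := .l 6 1 2
  let c23 : CT := .l 5 1 2
  let c24 : CT := .l 2 0 1
  let c25 : CT := .l 4 1 2
  let c26 : CT := .l 3 1 2
  let c27 : CT := .l 6 2 3
  let c28 : CT := .l 5 2 2
  let c29 : CT := .l 7 4 1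
  let c30 : CT := .l 3 2 1
  let c31 : CT := .l 3 2 0
  let c32 : CT := .l 6 4 1
  let c33 : CT := .l 7 5 1
  let c34 : CT := .l 1 1 2
  let c35 : CT := .l 4 3 1
  let c36 : CT := .l 4 3 2
  let c37 : CT := .l 6 5 2
  let c38 : CT := .l 1 1 1
  let c39 : CT := .l 3 4 1
  let c40 : CT := .l 4 3 0
  let c41 : CT := .l 3 5 1
  let c42 : CT := .l 8 7 3
  let c43 : CT := .l 1 9 0
  let c44 : CT := .l 2 (-3) 1
  let c45 : CT := .l 2 (-2) 1
  let c46 : CT := .l 2 (-1) 1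
  let c47 : CT := .l 6 5 3
  let c48 : CT := .l 5 6 2
  let c49 : CT := .l 2 2 1
  .x (.y (.x (.y c0 (.x c0 (.y c0 (.x c0 (.y c1 c2))))) (.y (.x (.y c0 (.x c0 c3)) (.y c0 (.x
  (.y c4 (.x (.y (.x c3 (.y c4 c5)) c6) c7)) c8))) (.x (.y (.x (.y c9 (.x (.y c10 c11) c12)) (.y
  (.x c13 c3) c13)) (.x (.y (.x c2 c12) c2) (.y (.x c12 c3) (.x c12 (.y (.x c13 c3) c2))))) (.y
  (.x (.y (.x (.y c6 c7) c7) (.x (.y c13 (.x c13 (.y c13 (.x (.y c13 c1) c5)))) (.y c13 (.x (.y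
  c11 (.x c5 c7)) c7)))) (.y (.x c7 c8) (.x c14 c8))) (.x (.y (.x (.y (.x c15 (.y c1 (.x c15 (.y
  c1 (.x (.y (.x c15 c5) c16) c5))))) (.x c15 (.y c16 c17))) (.y (.x (.y c1 (.x c5 (.y (.x c5
  c18) c16))) c14) (.x (.y c16 c17) c14))) (.x (.y (.x (.y c17 c2) (.y c17 c2)) c2) (.y (.x (.y
  c17 c5) c14) c2))) (.y (.x c14 c19) c19)))))) (.x (.y (.x c0 (.y (.x c0 (.y c2 (.x (.y c20
  c21) c2))) (.x (.y c22 (.x c0 c22)) (.y c12 (.x c21 c12))))) (.x c0 (.y (.x (.y (.x c0 c23)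
  (.x c0 c23)) (.y c23 c23)) (.x c24 (.y (.x c23 c25) c25))))) (.y (.x (.y (.x (.y c2 c12) c12)
  c12) (.y (.x (.y (.x (.y c19 (.x c12 c15)) c19) (.x c12 (.y (.x c12 c14) c12))) c14) (.x c12
  c14))) (.x (.y (.x (.y (.x c23 c12) (.x (.y (.x c25 c2) (.x c25 c2)) c26)) c12) (.x (.y (.x
  c25 (.y c26 c26)) c25) (.y (.x c27 c14) c24))) (.y (.x c28 c14) c14))))) (.y (.x (.y (.x (.y
  c8 (.x c8 (.y c8 (.x c8 c4)))) c4) (.x (.y (.x c8 (.y c29 c16)) (.x c8 (.y c16 (.x c19 c16))))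
  (.y (.x (.y (.x c30 c31) c32) (.y c33 (.x c32 c34))) (.x (.y (.x c30 c32) c30) (.y (.x (.y c31
  c31) c35) c35))))) (.y c4 (.x (.y (.x (.y c4 (.x (.y c32 (.x c35 c4)) c4)) c4) (.x (.y (.x c35
  (.y (.x (.y c16 c35) c4) (.x c35 (.y c4 c35)))) c35) (.y c4 (.x c35 c4)))) c4))) (.x (.y (.x
  (.y (.x (.y c19 (.x c19 c8)) (.y (.x (.y c35 (.x c19 (.y c35 c30))) c16) (.x (.y (.x c8 c30)
  c30) c30))) (.x (.y c30 (.x c19 c30)) c30)) (.y (.x c30 (.y c35 c30)) c30)) (.x (.y (.x c14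
  (.y (.x (.y (.x c14 c30) c14) (.y c30 (.x (.y c30 (.x c14 (.y c30 c14))) c30))) (.x c14 (.y
  (.x c14 (.y (.x c14 c30) c14)) c14)))) c14) (.y (.x (.y c30 (.x (.y c30 (.x c14 c30)) c30))
  (.y (.x c30 c36) (.x c30 c36))) (.x c14 (.y (.x c30 c36) c36))))) (.y (.x (.y (.x (.y c35 (.x
  c35 (.y c35 c30))) (.y (.x (.y c35 (.x c35 (.y c35 c37))) c38) (.x c37 c38))) (.x (.y c30 (.x
  c35 (.y c30 (.x (.y c30 c34) (.y c39 (.x c40 (.y c37 c41))))))) (.y c37 (.x c37 c38)))) (.y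
  (.x c38 c4) (.x c38 c4))) (.x (.y (.x (.y (.x c34 (.y (.x c34 (.y c42 c43)) (.x c34 (.y (.x
  (.y c44 (.x c34 c40)) c40) (.x (.y (.x c34 c40) (.x c34 c40)) c40))))) (.x c34 (.y (.x c34 (.y
  (.x (.y (.x c34 (.y c40 (.x c34 c40))) c45) c40) (.x (.y c45 c34) c40))) (.x c34 (.y (.x c34
  c40) c46))))) (.y (.x (.y (.x (.y c42 c43) c42) (.x c47 c37)) c38) (.x (.y (.x c47 (.y (.x (.y
  c37 c45) c37) c48)) (.x c47 (.y (.x c47 c37) c46))) c38))) (.x (.y (.x c36 (.y (.x c34 (.y c46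
  (.x c34 c47))) c24)) c36) (.y (.x c47 c38) c14))) (.y (.x c38 c49) c49)))))

theorem ok453 : okF 1 21 (-3) t453 = true := by decide +kernel

theorem all453 : AllA 453 := allA (D := 453) (thm_of_ok ok453)
  (l :=
    [(-1, 0, -10, -1), (3, 1, -1, 0)])
  (by decide +kernel)

/-- a cover for the form `(2, 21, -2)` of discriminant `457` -/
def t457 : CT :=
  let c0 : CT := .l 1 0 0
  let c1 : CT := .l 4 1 1
  let c2 : CT := .l 5 1 1
  let c3 : CT := .l 7 1 2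
  let c4 : CT := .l 3 0 1
  let c5 : CT := .l 1 0 (-1)
  let c6 : CT := .l 5 1 2
  let c7 : CT := .l 20 3 7
  let c8 : CT := .l 1 4 0
  let c9 : CT := .l 1 0 (-2)
  let c10 : CT := .l 6 1 3
  let c11 : CT := .l 2 (-1) 1
  let c12 : CT := .l 1 5 0
  let c13 : CT := .l 1 1 0
  let c14 : CT := .l 7 2 1
  let c15 : CT := .l 1 2 0
  let c16 : CT := .l 1 0 (-3)
  let c17 : CT := .l 3 1 0
  let c18 : CT := .l 9 3 2
  let c19 : CT := .l 8 3 1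
  let c20 : CT := .l 6 3 1
  let c21 : CT := .l 5 2 2
  let c22 : CT := .l 1 0 (-4)
  let c23 : CT := .l 12 5 3
  let c24 : CT := .l 36 15 7
  let c25 : CT := .l 11 5 2
  let c26 : CT := .l 1 (-8) 1
  let c27 : CT := .l 5 3 1
  let c28 : CT := .l 3 (-3) 1
  let c29 : CT := .l 2 1 1
  let c30 : CT := .l 37 16 8
  let c31 : CT := .l 10 3 3
  let c32 : CT := .l 2 (-3) 1
  let c33 : CT := .l 37 11 15
  let c34 : CT := .l 2 1 5
  let c35 : CT := .l 8 1 3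
  let c36 : CT := .l 23 0 9
  let c37 : CT := .l 33 10 18
  let c38 : CT := .l 5 (-11) 3
  let c39 : CT := .l 33 9 7
  let c40 : CT := .l 3 0 (-8)
  let c41 : CT := .l 9 2 (-3)
  let c42 : CT := .l 4 3 21
  let c43 : CT := .l 1 (-17) 2
  let c44 : CT := .l 1 1 8
  let c45 : CT := .l 19 6 7
  let c46 : CT := .l 5 1 (-3)
  let c47 : CT := .l 7 8 2
  let c48 : CT := .l 13 4 5
  let c49 : CT := .l 5 6 1
  let c50 : CT := .l 4 (-17) 3
  let c51 : CT := .l 9 2 3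
  let c52 : CT := .l 7 2 (-1)
  let c53 : CT := .l 13 5 11
  let c54 : CT := .l 1 131 (-12)
  let c55 : CT := .l 1 2 18
  let c56 : CT := .l 19 7 13
  let c57 : CT := .l 10 9 63
  let c58 : CT := .l 1 29 304
  let c59 : CT := .l 9 7 45
  let c60 : CT := .l 1 (-8) (-88)
  let c61 : CT := .l 20 7 9
  let c62 : CT := .l 6 (-7) 3
  let c63 : CT := .l 31 11 11
  let c64 : CT := .l 25 9 9
  let c65 : CT := .l 14 7 5
  let c66 : CT := .l 13 3 6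
  let c67 : CT := .l 19 4 9
  let c68 : CT := .l 3 (-16) 3
  let c69 : CT := .l 5 (-16) 4
  let c70 : CT := .l 1 (-3) (-34)
  let c71 : CT := .l 5 37 (-1)
  let c72 : CT := .l 9 (-16) 6
  let c73 : CT := .l 1 2 19
  let c74 : CT := .l 7 1 (-5)
  let c75 : CT := .l 21 5 6
  let c76 : CT := .l 1 (-8) (-87)
  let c77 : CT := .l 1 143 (-13)
  let c78 : CT := .l 6 1 (-3)
  let c79 : CT := .l 3 1 3
  let c80 : CT := .l 1 (-16) 2
  let c81 : CT := .l 16 5 7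
  let c82 : CT := .l 23 7 11
  let c83 : CT := .l 21 7 9
  let c84 : CT := .l 17 7 5
  let c85 : CT := .l 4 3 1
  let c86 : CT := .l 16 7 5
  let c87 : CT := .l 21 9 7
  let c88 : CT := .l 1 3 0
  let c89 : CT := .l 1 1 5
  let c90 : CT := .l 2 1 (-1)
  let c91 : CT := .l 1 1 4
  let c92 : CT := .l 20 13 3
  let c93 : CT := .l 3 2 0
  let c94 : CT := .l 8 5 1
  let c95 : CT := .l 9 6 2
  let c96 : CT := .l 7 5 1
  let c97 : CT := .l 1 (-18) 2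
  let c98 : CT := .l 2 17 (-1)
  let c99 : CT := .l 1 35 (-3)
  let c100 : CT := .l 7 12 1
  let c101 : CT := .l 21 15 5
  let c102 : CT := .l 1 88 (-8)
  let c103 : CT := .l 3 (-75) 8
  let c104 : CT := .l 6 9 1
  let c105 : CT := .l 3 0 (-16)
  let c106 : CT := .l 13 7 3
  let c107 : CT := .l 19 10 4
  let c108 : CT := .l 1 (-7) 1
  let c109 : CT := .l 3 11 0
  let c110 : CT := .l 5 2 (-6)
  let c111 : CT := .l 9 12 2
  let c112 : CT := .l 12 7 9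
  let c113 : CT := .l 5 8 1
  let c114 : CT := .l 15 8 3
  let c115 : CT := .l 23 12 7
  let c116 : CT := .l 16 9 5
  let c117 : CT := .l 5 3 2
  let c118 : CT := .l 13 8 4
  let c119 : CT := .l 21 12 7
  let c120 : CT := .l 19 12 6
  let c121 : CT := .l 7 5 8
  let c122 : CT := .l 8 19 1
  let c123 : CT := .l 23 14 0
  let c124 : CT := .l 12 13 3
  let c125 : CT := .l 26 23 7
  let c126 : CT := .l 3 43 (-3)
  let c127 : CT := .l 2 1 (-3)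
  let c128 : CT := .l 10 7 3
  let c129 : CT := .l 1 36 (-3)
  let c130 : CT := .l 14 9 7
  let c131 : CT := .l 20 11 7
  let c132 : CT := .l 25 16 9
  let c133 : CT := .l 6 3 (-7)
  let c134 : CT := .l 31 20 11
  let c135 : CT := .l 9 7 3
  let c136 : CT := .l 3 3 1
  let c137 : CT := .l 1 13 131
  let c138 : CT := .l 13 2 5
  let c139 : CT := .l 1 89 (-8)
  let c140 : CT := .l 1 (-17) (-187)
  let c141 : CT := .l 4 1 (-17)
  let c142 : CT := .l 5 4 6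
  let c143 : CT := .l 40 27 17
  let c144 : CT := .l 16 11 7
  let c145 : CT := .l 4 3 3
  let c146 : CT := .l 17 12 7
  let c147 : CT := .l 1 1 3
  let c148 : CT := .l 29 21 12
  let c149 : CT := .l 12 9 5
  let c150 : CT := .l 5 4 1
  let c151 : CT := .l 1 1 2
  let c152 : CT := .l 7 6 2
  let c153 : CT := .l 8 7 3
  let c154 : CT := .l 5 4 3
  let c155 : CT := .l 1 0 (-8)
  let c156 : CT := .l 3 2 (-3)
  let c157 : CT := .l 36 29 15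
  let c158 : CT := .l 11 9 5
  let c159 : CT := .l 6 5 3
  let c160 : CT := .l 1 1 1
  .x (.x (.y (.x c0 (.y c0 (.x c0 (.y (.x c0 c1) (.x c2 c1))))) (.x c0 (.y (.x (.y (.x c0 (.y c1
  (.x c0 (.y c3 c4)))) (.x c5 (.y (.x c4 c6) (.x (.y (.x (.y c7 c8) c6) c6) c6)))) (.y (.x (.y
  c2 (.x c6 c2)) c1) (.x (.y (.x c6 c2) c6) (.y (.x c9 c1) (.x c9 (.y c8 (.x c9 c1))))))) (.x
  (.y (.x c5 c6) (.x c5 (.y (.x c10 (.y c6 c10)) c10))) (.y (.x c6 (.y c6 (.x c9 (.y c6 c11))))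
  (.x (.y c6 (.x c10 c6)) (.y (.x c9 (.y (.x c9 (.y (.x c9 (.y c11 c12)) c12)) c9)) c9)))))))
  (.y (.x (.y (.x (.y c0 c0) c13) (.x (.y (.x (.y c14 c15) (.y c14 (.x c15 c16))) (.x c1 (.y (.x
  c14 c16) c1))) (.y (.x (.y (.x c14 c17) (.x (.y c15 (.x (.y c15 c2) c18)) c17)) c17) (.x (.y
  (.x (.y (.x c2 c18) c18) c18) c1) (.y c17 c17))))) (.y (.x c13 c13) (.x (.y (.x (.y c15 (.x
  c19 (.y c15 c20))) (.y c15 (.x (.y c15 c20) (.y c15 c20)))) (.x (.y (.x (.y (.x c19 c19) c21)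
  c22) (.x c1 c22)) (.y (.x (.y (.x (.y c23 c23) (.y (.x c24 c25) (.x c24 (.y c24 (.x c24 (.y
  c24 c26)))))) (.x c23 (.y (.x c26 (.y c26 c27)) c27))) (.y (.x (.y c25 (.x (.y (.x (.y c24
  c28) c28) (.x (.y c28 c26) (.y c28 c26))) (.y c28 c26))) (.y c25 (.x (.y c28 c26) c29))) (.x
  (.y (.x (.y c26 c27) (.y c26 c27)) c27) (.y (.x c30 c29) c30)))) (.x c23 (.y c1 c23))))) (.y
  (.x c29 (.y c20 c29)) (.x c29 c29))))) (.x (.y (.x (.y (.x c1 (.y c1 c31)) (.x c1 (.y (.x (.y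
  (.x c1 c31) (.x (.y c1 c1) (.y c32 (.x (.y (.x (.y (.x c1 (.y c32 (.x (.y c32 (.x c1 (.y (.x
  c1 c33) c8))) c33))) c8) c34) c8) c34)))) c31) (.x (.y c8 (.x (.y (.x c1 (.y c35 (.x (.y (.x
  (.y c35 (.x c1 (.y (.x (.y c36 (.x c1 c37)) c37) c38))) (.y (.x c35 (.y c35 (.x (.y c35 c36)
  c39))) (.x (.y (.x (.y c36 (.x c40 c40)) c40) c40) c40))) c40) (.y (.x (.y (.x c40 c41) (.x
  c40 c41)) (.y (.x c41 (.y c35 c36)) (.x c41 (.y (.x c41 (.y (.x c42 c42) c42)) c42)))) (.x (.y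
  (.x c40 c41) c43) (.y (.x c41 c42) c43)))))) (.x c44 c45)) (.y (.x (.y c35 (.x (.y (.x (.y (.x
  (.y c35 c36) c46) (.x (.y (.x c42 c46) c38) c46)) c46) c47) (.y (.x c46 (.y (.x c46 (.y (.x
  c46 c33) (.x c46 c33))) c38)) c46))) (.y c34 (.x (.y (.x c33 c34) c45) c34))) c45))) (.y c8
  c48))))) (.y (.x (.y (.x (.y c1 c1) (.y c18 (.x (.y c18 (.x (.y c18 (.x (.y c1 (.x c1 c18))
  c18)) c18)) c18))) (.x (.y (.x c31 (.y (.x c31 (.y (.x c31 (.y c49 c31)) c31)) c31)) c31) (.y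
  (.x (.y (.x (.y (.x (.y c49 c31) c18) c31) c18) c31) c18) c4))) (.y c17 (.x (.y (.x (.y c17
  c31) c17) c4) c17))) (.x (.y (.x (.y (.x c16 (.y (.x c16 (.y c4 (.x c16 (.y (.x c4 (.y c4
  c50)) c51)))) c51)) c16) (.y (.x (.y (.x (.y c4 (.x c52 (.y (.x c52 (.y c4 (.x (.y c50 c51)
  (.y c50 c51)))) c51))) (.y c4 (.x (.y (.x (.y c4 (.x (.y c50 c51) (.y c50 c51))) (.y c4 (.x
  (.y c50 c51) (.y c50 c51)))) c51) (.y (.x (.y (.x (.y c4 c50) c53) (.x (.y c50 c51) c53)) (.y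
  (.x (.y c4 c50) (.y c4 c50)) (.x (.y (.x c53 (.y c50 c51)) c51) (.y (.x (.y c50 c51) (.y c50
  c51)) c51)))) c51)))) (.x c51 (.y c51 c32))) (.y (.x (.y c4 (.x (.y (.x (.y (.x (.y c4 c50)
  c18) (.x (.y (.x (.y c50 c51) (.y c50 c51)) c51) c18)) c18) c51) c18)) c18) (.x (.y c51 c32)
  c32))) (.x (.y (.x (.y c32 (.x (.y (.x (.y c32 (.x c16 (.y c32 (.x (.y c32 (.x c54 c54))
  c52)))) c52) c8) c52)) (.y c32 (.x (.y (.x (.y c32 (.x c52 (.y (.x (.y c32 (.x c52 c55)) c55)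
  c55))) c55) c55) (.y (.x c55 (.y c32 (.x (.y c56 c8) (.y (.x (.y (.x c56 c54) c54) c54) c8))))
  c8)))) c8) (.y (.x (.y c32 (.x (.y (.x (.y (.x c53 (.y c32 (.x c53 (.y c32 (.x (.y c32 (.x (.y
  c32 c54) c57)) (.y c32 (.x (.y c32 c54) c54))))))) (.x c53 (.y c54 c8))) (.y (.x (.y c32 (.x
  (.y c32 (.x c58 (.y c32 c54))) (.y c32 (.x c59 c60)))) c60) c8)) c8) (.y (.x (.y (.x (.y c32
  (.x c60 c61)) c61) c8) c61) c8))) c18) c8)))) (.x c16 (.y (.x (.y c8 (.x (.y c8 (.x c16 (.y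
  c35 (.x (.y c35 c62) (.y c35 c62))))) (.y c55 (.x c52 c55)))) (.y c8 (.x (.y c8 (.x (.y c35
  (.x c55 (.y c62 (.x c55 c56)))) (.y c35 (.x (.y c62 (.x (.y c63 c64) c53)) (.y c63 c64)))))
  (.y c35 c63)))) (.x (.y (.x c45 (.y (.x c52 c55) c45)) (.x c45 (.y c45 (.x (.y c45 c48)
  c55)))) (.y (.x (.y c64 c45) (.y c64 c45)) (.x (.y c45 (.x c55 (.y c65 (.x c48 (.y (.x c56 (.y
  c65 c48)) c48))))) (.y (.x (.y c45 (.x c45 (.y c45 (.x c60 c61)))) (.y c45 c61)) (.x (.y c65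
  c21) c61)))))))) (.y (.x (.y (.x (.y (.x c18 c17) c32) c17) (.x (.y (.x c18 (.y (.x (.y c32
  (.x c18 (.y c32 (.x (.y c32 (.x c18 (.y c32 c54))) c17)))) c17) c8)) c8) c17)) c17) (.x (.y
  (.x (.y c8 (.x c18 c63)) (.y c8 c64)) (.x (.y (.x c18 (.y c64 c45)) (.x (.y c18 c21) c21)) (.y
  c64 c21))) c17))))) (.x (.y (.x (.y c6 (.x (.y c21 c11) c1)) (.y (.x c6 c48) (.x (.y c21 c11)
  (.y c21 c11)))) (.x (.y (.x (.y (.x (.y (.x (.y c11 c12) c1) c12) c1) (.x c66 c1)) c1) (.x (.y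
  (.x (.y (.x (.y (.x c66 (.y c66 (.x c66 (.y c66 (.x c67 (.y c67 c68)))))) (.x c9 (.y (.x (.y
  c68 c69) (.y (.x (.y c68 (.x (.y c68 (.x c68 c70)) c70)) c70) c70)) (.x (.y (.x c9 (.y (.x (.y
  c71 c72) (.y c71 c72)) (.x (.y (.x c73 c73) c73) c73))) c73) c73)))) (.y (.x (.y c67 (.x c70
  (.y c67 c68))) (.y c67 (.x (.y c67 c68) (.y c67 c68)))) (.x (.y (.x c70 (.y (.x c74 c75) (.x
  c74 c75))) (.x c70 c74)) (.y (.x (.y (.x (.y c68 c75) (.y c68 (.x (.y (.x c76 c76) c76) c76)))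
  (.x c75 c76)) (.y (.x (.y c68 (.x c76 (.y (.x c77 c77) c77))) c78) (.x (.y c69 c29) (.y c78
  c29)))) c29)))) c29) (.y (.x (.y (.x (.y c67 (.x c78 c1)) c1) (.x c78 c1)) c1) c29)) c29) c1))
  (.y (.x (.y c12 (.x c79 (.y (.x c44 (.y c66 (.x (.y c66 (.x c44 c40)) (.y c66 (.x c40 c80)))))
  (.x c44 (.y (.x (.y c80 c29) c29) c29))))) (.y (.x c12 c81) (.x (.y (.x (.y c66 (.x (.y c66
  c80) c46)) c82) c29) c34))) c29))) (.y (.x (.y (.x c16 (.y c6 c21)) (.x c16 (.y c21 c83))) (.y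
  c21 (.x (.y c21 (.x (.y c83 c61) c21)) c21))) (.x (.y (.x (.y c16 (.x c81 c29)) (.y (.x c16
  (.y c12 c61)) c29)) c29) (.y c29 c29))))) (.y (.x (.y (.x (.y (.x (.y c21 c21) (.y (.x (.y c23
  c21) c23) (.x c21 c22))) (.x c21 (.y (.x c21 c22) c21))) (.y (.x (.y c23 (.x c84 c23)) (.y (.x
  c23 (.y c23 (.x c23 c29))) (.x (.y c23 c85) c29))) (.x (.y c84 (.x c84 (.y c84 (.x c84 c23))))
  (.y (.x (.y c85 c84) c29) (.x (.y c4 c86) c86))))) (.x c21 (.y (.x (.y (.x c22 (.y c86 (.x c84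
  (.y c32 c87)))) c8) (.y c29 c87)) (.x c21 c29)))) c29) (.x (.y c21 c29) c29))))) (.x (.y (.x
  (.y c13 (.x (.y (.x (.y c15 c20) (.y c15 (.x c20 (.y c20 c27)))) (.x (.y (.x c20 c27) c88) (.y
  c27 (.x c88 (.y c88 (.x c89 (.y c88 (.x c89 c90)))))))) (.y (.x (.y c15 c27) (.y c15 c27)) (.x
  (.y c27 (.x c90 c27)) c27)))) (.y c13 (.x (.y (.x (.y c15 (.x c27 (.y (.x c91 c92) c27))) (.y
  c15 (.x (.y c93 c27) c93))) (.x (.y c27 (.x (.y c88 (.x c27 c94)) (.y c88 c91))) (.y (.x c27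
  c93) (.x c95 c93)))) (.y (.x (.y c15 (.x c93 c96)) c85) (.x (.y (.x c93 c85) c85) c85))))) (.x
  (.y (.x (.y (.x (.y (.x c29 (.y (.x c29 (.y (.x (.y (.x c97 (.y c97 c98)) (.x (.y (.x c29 (.y
  c99 c29)) c29) (.y (.x (.y c99 (.x (.y c100 c101) (.y c100 c101))) (.y c99 (.x (.y c100 c101)
  (.y c100 c101)))) (.x (.y (.x (.y c101 c29) (.y c101 c102)) (.x c29 (.y (.x (.y c102 c29) (.y
  c102 c103)) c104))) (.y (.x (.y c101 c102) (.y (.x (.y c101 c102) (.y c101 c102)) c102)) (.x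
  (.y (.x (.y c102 c103) (.y c102 c103)) c104) (.y (.x (.y (.x c105 c105) c105) c105)
  c105))))))) (.y (.x (.y c97 (.x c98 c106)) c106) (.x (.y (.x (.y c99 c105) c107) (.x c105
  c107)) c107))) (.x (.y (.x c29 (.y c104 c85)) c85) (.y (.x (.y (.x c105 c107) c85) c107)
  c85)))) c85)) c29) (.y (.x (.y (.x (.y c106 c85) c106) c85) (.y (.x c89 (.y (.x c89 c90) c85))
  c89)) (.x (.y (.x (.y c4 (.x c29 (.y c108 (.x c29 (.y (.x c29 (.y c108 c109)) c29))))) (.y c4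
  (.x (.y c108 (.x (.y (.x (.y c108 c109) c110) (.x (.y c109 (.x c29 (.y c109 (.x c29 (.y c109
  c111))))) c112)) c106)) c106))) (.x c29 (.y (.x (.y (.x (.y (.x (.y (.x c111 (.y c111 c50))
  c29) c112) c113) c114) c115) c106) c32))) (.y c89 (.x (.y c89 c116) c116))))) (.x c29 (.y (.x
  (.y (.x c29 (.y c116 c29)) c29) (.y c8 (.x (.y c8 c29) c89))) c29))) (.y (.x (.y (.x c90 c85)
  (.x c90 c117)) (.y c27 (.x (.y c27 c118) c27))) (.x (.y (.x (.y c8 c119) c117) (.x (.y (.x c89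
  c117) c117) c117)) (.y (.x c117 (.y c118 c27)) c117)))) (.x c29 (.y c117 c29))) (.y (.x (.y
  (.x (.y c85 (.x (.y (.x (.y (.x c27 (.y c108 c120)) c120) (.y (.x (.y c108 (.x (.y c109 (.x
  c121 (.y (.x c121 (.y c109 c111)) (.x c121 (.y c111 c121))))) (.y c109 (.x (.y (.x (.y c109
  c111) (.y c109 c111)) (.x (.y c111 c50) (.y c111 c50))) (.y (.x (.y c109 c111) c94) (.x (.y
  c111 c50) c94)))))) c94) (.x (.y (.x (.y c121 c113) (.y (.x (.y (.x (.y c122 c113) (.y c122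
  c113)) c113) (.y (.x (.y c123 c113) c113) c113)) (.x (.y c113 c124) (.y c113 (.x (.y c124 (.x
  c125 (.y c125 c126))) (.y c124 (.x c123 c126))))))) (.x c120 (.y (.x c118 c51) c118))) (.y c94
  c32)))) c118) c91)) (.y c85 (.x (.y (.x (.y c85 (.x c91 (.y (.x c91 (.y (.x (.y c124 (.x (.y
  (.x c91 c126) c115) c92)) c127) c32)) c32))) c127) c128) (.y (.x c95 c128) c128)))) (.x (.y
  (.x (.y c120 (.x (.y (.x (.y c120 (.x c118 c120)) c120) (.x (.y (.x (.y c118 c129) (.y c43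
  c129)) (.x c117 c130)) (.y c120 (.x (.y (.x (.y c120 (.x (.y c120 c131) c120)) c120) c131)
  c120)))) (.y (.x c120 (.y c120 (.x c120 (.y c47 c43)))) (.x c120 c132)))) (.y c8 (.x (.y (.x
  (.y (.x (.y c8 (.x c133 c94)) c94) (.x (.y c47 c43) c94)) c91) (.x (.y (.x (.y (.x (.y c43
  c129) c133) (.x (.y (.x c132 c134) c132) c134)) c134) c134) c91)) c91))) (.x (.y (.x (.y (.x
  c117 (.y c135 c117)) c117) (.y (.x c120 c132) c132)) c117) (.y (.x (.y (.x c134 c134) c134)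
  c91) c136))) (.y (.x (.y c8 (.x c91 (.y (.x (.y (.x c91 (.y (.x (.y (.x (.y c8 (.x (.y (.x c91
  c137) c137) c127)) c127) c47) c127) c47)) (.x c91 (.y c43 c129))) c127) (.x (.y (.x c91 (.y
  (.x (.y (.x c91 c137) c91) (.y (.x (.y c127 (.x (.y c138 (.x (.y (.x c137 c127) (.x c137
  c127)) c127)) c127)) c127) (.x (.y (.x (.y (.x c137 c127) (.x c137 c127)) c127) c139) c127)))
  (.x c91 (.y (.x (.y (.x (.y c139 c137) c127) c131) c127) c135)))) c135) c127)))) (.y (.x c95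
  (.y c128 (.x (.y c8 (.x c95 (.y c93 (.x (.y c93 (.x (.y (.x c95 c93) c47) c93)) c93)))) c93)))
  (.x (.y (.x c127 c95) (.x c127 c95)) (.y (.x (.y (.x c95 (.y c47 c43)) (.x c95 (.y (.x (.y c43
  c129) c93) (.x (.y (.x c129 (.y c129 c138)) (.x c95 (.y (.x c95 (.y c138 (.x c140 c140))) (.x
  c95 c140)))) (.y (.x (.y c129 c138) c93) (.x (.y (.x (.y c138 (.x c140 c141)) c141) c141)
  c93)))))) c93) (.x (.y (.x c95 (.y (.x (.y (.x c95 (.y c139 c135)) c135) (.y (.x c141 c93)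
  c141)) c135)) c135) (.y c93 c135)))))) (.x (.y (.x c91 (.y (.x (.y c135 c91) (.y c135 (.x (.y
  (.x (.y c135 (.x (.y (.x c137 c127) c136) c127)) c127) c136) c127))) c136)) c136) (.y (.x c127
  (.y (.x (.y c135 c136) (.y c135 c136)) c136)) c136))))) (.y (.x (.y c85 c128) c85) (.x (.y (.x
  c93 (.y (.x c128 (.y c128 (.x c128 (.y c128 (.x c128 c142))))) (.x c128 (.y (.x c128 (.y (.x
  c128 c142) c135)) c135)))) (.x (.y c93 c136) (.y (.x c128 c136) c136))) (.y (.x (.y c85 (.x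
  (.y (.x (.y (.x (.y (.x c142 c85) c135) c85) c135) c135) c135) c135)) c85) c136)))) (.x (.y
  (.x (.y c117 (.x c117 (.y c117 c29))) (.y c117 (.x c91 (.y (.x (.y c117 (.x c143 c127)) c144)
  c29)))) c29) (.y (.x (.y (.x c117 (.y c117 (.x c117 c145))) (.x (.y (.x (.y c12 (.x c144
  c146)) c146) (.x c144 (.y c93 c144))) (.y c146 (.x c146 (.y c145 c144))))) (.y (.x (.y c117
  (.x (.y c117 c12) (.y c117 c12))) (.y c117 (.x (.y c117 c12) c147))) (.x (.y (.x c148 c149)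
  (.x c145 (.y c149 c29))) (.y c149 (.x (.y c149 (.x c29 c149)) c149))))) c29))))) (.y (.x (.y
  c13 (.x (.y c13 (.x c85 c150)) (.y c13 (.x c151 c13)))) c13) (.x (.y (.x (.y (.x c85 (.y c85
  (.x c85 c150))) (.x c85 (.y (.x c135 (.y (.x c135 c150) c136)) c136))) (.y (.x (.y c151 (.x
  (.y c151 c8) c151)) c152) (.x (.y (.x (.y (.x c150 c151) c136) c151) c136) (.y (.x c151 c152)
  c136)))) (.x (.y (.x (.y (.x c147 c85) (.x c147 c85)) (.y (.x (.y c117 c12) (.y (.x c153 c153)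
  c12)) (.x (.y (.x c135 (.y c149 (.x (.y c149 c154) c155))) (.x c154 (.y (.x c154 c155) (.x
  c154 c155)))) (.y (.x (.y c149 (.x (.y c149 (.x c155 c156)) c157)) (.y c149 (.x c157 c158)))
  (.x (.y (.x (.y (.x c155 c156) c155) (.y (.x c156 c157) c156)) (.x c155 c156)) c158))))) (.x
  c29 c29)) (.y (.x (.y (.x (.y c153 c159) c151) (.x c159 c151)) c151) (.x c159 c151)))) (.y (.x
  c160 c13) (.x c160 c160)))))

theorem ok457 : okF 2 21 (-2) t457 = true := by decide +kernel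

theorem all457 : AllA 457 := allA (D := 457) (thm_of_ok ok457)
  (l :=
    [(-828227, 74023, 78176, -6987), (-1, 0, -5, -1), (-17, -5, -180, -53),
     (3030, 1319, 32101, 13974), (-13442919, -7916308, -142419521, -83868451),
     (17401073, -7916308, -1642480, 747217), (3136914, 2389697, 33233689, 25317381),
     (-32, 21, 3, -2), (-1, -1, -10, -11)])
  (by decide +kernel)

/-- a cover for the form `(3, 20, -5)` of discriminant `460` -/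
def t460 : CT :=
  let c0 : CT := .l 1 0 0
  let c1 : CT := .l 4 0 1
  let c2 : CT := .l 17 4 4
  let c3 : CT := .l 18 5 4
  let c4 : CT := .l 1 2 0
  let c5 : CT := .l 1 1 0
  let c6 : CT := .l 2 1 0
  let c7 : CT := .l 1 0 (-1)
  let c8 : CT := .l 6 2 1
  let c9 : CT := .l 1 (-1) (-5)
  let c10 : CT := .l 9 3 2
  let c11 : CT := .l 11 4 2
  let c12 : CT := .l 8 3 2
  let c13 : CT := .l 7 3 2
  let c14 : CT := .l 9 4 2
  let c15 : CT := .l 4 1 (-2)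
  let c16 : CT := .l 1 (-10) (-43)
  let c17 : CT := .l 1 (-3) (-14)
  let c18 : CT := .l 2 3 0
  let c19 : CT := .l 3 0 (-5)
  let c20 : CT := .l 3 1 (-1)
  let c21 : CT := .l 2 17 (-2)
  let c22 : CT := .l 4 2 1
  let c23 : CT := .l 12 5 4
  let c24 : CT := .l 4 14 (-1)
  let c25 : CT := .l 3 2 4
  let c26 : CT := .l 6 3 4
  let c27 : CT := .l 1 (-12) 2
  let c28 : CT := .l 3 1 2
  let c29 : CT := .l 3 0 1
  let c30 : CT := .l 6 1 2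
  let c31 : CT := .l 8 2 3
  let c32 : CT := .l 4 1 2
  let c33 : CT := .l 2 0 1
  let c34 : CT := .l 1 3 0
  let c35 : CT := .l 1 1 3
  let c36 : CT := .l 11 4 3
  let c37 : CT := .l 2 5 0
  let c38 : CT := .l 19 5 6
  let c39 : CT := .l 14 4 5
  let c40 : CT := .l 2 1 2
  let c41 : CT := .l 13 6 4
  let c42 : CT := .l 7 4 2
  let c43 : CT := .l 1 2 7
  let c44 : CT := .l 1 (-25) 4
  let c45 : CT := .l 9 3 1
  let c46 : CT := .l 1 51 (-7)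
  let c47 : CT := .l 6 3 2
  let c48 : CT := .l 3 2 1
  let c49 : CT := .l 8 3 6
  let c50 : CT := .l 3 3 10
  let c51 : CT := .l 7 4 11
  let c52 : CT := .l 16 2 7
  let c53 : CT := .l 1 17 (-2)
  let c54 : CT := .l 4 (-1) 2
  let c55 : CT := .l 12 4 5
  let c56 : CT := .l 1 10 (-1)
  let c57 : CT := .l 4 0 (-5)
  let c58 : CT := .l 7 3 3
  let c59 : CT := .l 11 5 4
  let c60 : CT := .l 6 12 1
  let c61 : CT := .l 4 (-15) 4
  let c62 : CT := .l 1 4 15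
  let c63 : CT := .l 1 11 44
  let c64 : CT := .l 2 2 5
  let c65 : CT := .l 4 6 1
  let c66 : CT := .l 3 3 1
  let c67 : CT := .l 1 (-10) 2
  let c68 : CT := .l 1 (-3) 1
  let c69 : CT := .l 9 4 5
  let c70 : CT := .l 11 5 5
  let c71 : CT := .l 9 5 4
  let c72 : CT := .l 2 0 (-3)
  let c73 : CT := .l 12 7 2
  let c74 : CT := .l 2 2 3
  let c75 : CT := .l 8 5 2
  let c76 : CT := .l 2 (-2) 1
  let c77 : CT := .l 19 14 5
  let c78 : CT := .l 14 10 3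
  let c79 : CT := .l 3 3 4
  let c80 : CT := .l 1 (-1) (-7)
  let c81 : CT := .l 1 1 1
  let c82 : CT := .l 4 4 5
  let c83 : CT := .l 17 13 5
  let c84 : CT := .l 8 7 2
  let c85 : CT := .l 1 0 (-2)
  let c86 : CT := .l 1 1 2
  let c87 : CT := .l 13 7 6
  let c88 : CT := .l 4 3 6
  let c89 : CT := .l 11 6 7
  let c90 : CT := .l 1 4 0
  let c91 : CT := .l 17 10 8
  let c92 : CT := .l 4 3 2
  let c93 : CT := .l 4 4 1
  let c94 : CT := .l 8 6 3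
  let c95 : CT := .l 18 14 7
  let c96 : CT := .l 7 5 3
  let c97 : CT := .l 6 5 4
  let c98 : CT := .l 2 2 1
  .x (.y (.x (.y c0 (.x c0 (.y c0 (.x c0 (.y (.x c0 (.y c0 (.x c0 (.y (.x c0 (.y c1 c1)) c1))))
  (.x c0 (.y (.x c0 (.y (.x c1 (.y c1 (.x c2 c3))) c2)) c4))))))) (.y (.x (.y c0 c5) (.y c6 c5))
  (.x (.y (.x (.y c5 c7) (.y c5 c8)) (.x (.y (.x (.y (.x (.y c7 (.x c9 c7)) c7) (.x c1 c7)) c7)
  (.x (.y (.x (.y (.x (.y c1 c3) c9) (.x c2 c9)) c7) c4) c7)) (.y (.x (.y c8 c10) (.y (.x c8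
  c11) (.x c10 c12))) c4))) (.y (.x (.y c5 (.x (.y c8 (.x c11 (.y c11 (.x c11 c13)))) (.y (.x
  (.y c8 (.x (.y c8 c11) (.y c8 c11))) (.y c8 (.x c14 c14))) (.x (.y c11 (.x (.y (.x c13 (.y c11
  (.x c13 c15))) (.x c13 c1)) (.y (.x c15 (.y (.x (.y c11 (.x (.y c16 c16) (.y c17 c17))) c17)
  (.x (.y (.x c16 c17) c1) c17))) c1))) (.y (.x (.y c14 c14) c14) (.x c14 c14)))))) (.y c5 (.x
  (.y (.x (.y (.x (.y c8 (.x c18 (.y c18 (.x c19 c20)))) c20) (.x (.y (.x (.y (.x c14 c19) c21)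
  (.y (.x c19 (.y c20 c21)) c11)) c11) c20)) c22) (.x (.y (.x (.y (.x c14 (.y c19 (.x c14 c19)))
  c14) (.y (.x (.y c11 (.x (.y (.x c19 c22) (.x c19 c22)) c22)) c22) (.x (.y (.x c19 c22) c22)
  c22))) (.x c14 c22)) c22)) c22))) (.x (.y (.x (.y (.x (.y (.x c11 c1) (.x c11 (.y c1 (.x (.y
  c1 c23) (.y (.x c1 (.y c1 (.x c24 c25))) (.x c26 (.y (.x c26 c25) c26))))))) (.y c1 (.x (.y c1
  (.x c25 (.y (.x c25 (.y (.x c25 c13) (.x c25 c13))) (.x c25 (.y (.x c25 c13) c27))))) c13)))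
  (.x (.y (.x c11 (.y (.x (.y (.x (.y (.x c11 c23) c27) c23) c27) c27) c10)) c10) (.y (.x (.y
  c27 c10) c4) c10))) (.y (.x (.y c1 (.x c13 (.y (.x (.y c15 c13) c15) c27))) c14) c4)) c4) (.y
  (.x (.y (.x c14 c22) c22) c22) c22)))))) (.x (.y (.x c0 (.y (.x c0 (.y (.x c4 (.y c4 (.x c4
  (.y c4 c28)))) (.x (.y c29 c29) c29))) (.x c0 (.y (.x c30 (.y c30 (.x (.y c30 c30) c31))) (.x
  (.y (.x c30 c32) (.x c30 c32)) (.y (.x (.y (.x c32 c31) c31) c31) c31)))))) (.x (.y c0 c33)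
  (.y (.x c0 (.y (.x (.y c31 c34) (.y c31 c34)) (.x (.y (.x c0 c32) c33) c32))) c33))) (.y (.x
  (.y (.x (.y (.x (.y c4 (.x (.y c4 (.x (.y c4 c29) c22)) (.y c4 c22))) c7) (.x (.y c29 (.x c29
  (.y c29 c13))) c7)) (.y (.x (.y c12 c22) (.y c12 c22)) (.x c7 (.y (.x c35 c36) (.x c35 (.y c36
  c37)))))) (.x (.y (.x (.y (.x c30 (.y c30 c30)) (.x c28 (.y (.x (.y c38 c38) c39) (.x (.y (.x
  c38 c38) c38) c39)))) (.y (.x (.y c30 (.x c9 c7)) c7) (.x (.y (.x c9 c7) (.x c39 (.y c7 c39)))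
  c7))) (.x (.y (.x c31 (.y (.x (.y (.x c28 c39) c39) c39) c39)) c31) (.y (.x c39 c7) c31))) (.y
  (.x c7 (.y (.x c35 (.y (.x c35 c36) (.x c35 c8))) (.x c35 (.y (.x c35 c8) (.x c35 c23))))) (.x
  c7 (.y (.x c40 c35) (.x c40 c35)))))) (.y (.x (.y c22 (.x (.y c13 (.x (.y c13 (.x (.y c37 (.x
  c37 c12)) c12)) c13)) c13)) (.y c22 (.x (.y c22 (.x c13 c41)) c22))) (.x (.y (.x (.y (.x (.y
  (.x (.y c42 (.x c36 c41)) c12) (.x (.y (.x c36 c36) c36) (.y c43 (.x (.y c44 (.x (.y c45 (.x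
  c46 c45)) c45)) c43)))) (.y (.x c12 c23) (.x c12 c23))) (.x (.y (.x c36 (.y c23 c23)) c23)
  c23)) (.y (.x c23 c13) c23)) (.x (.y (.x c47 (.y c47 c47)) c48) (.y (.x (.y c47 c48) c47)
  c48))) (.y (.x (.y (.x c13 c47) c47) c47) (.x (.y c48 c48) c48))))) (.x (.y (.x (.y (.x (.y
  c31 c34) (.y (.x (.y c31 c48) c48) c34)) (.x (.y (.x c31 c28) c33) (.y (.x (.y (.x c28 (.y (.x
  (.y c34 (.x c28 c49)) (.y c34 (.x c50 c39))) (.x (.y (.x c28 (.y (.x c51 c49) (.x c51 c49)))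
  (.x c28 (.y (.x c28 c49) c52))) (.y (.x c49 c39) (.x c49 c50))))) (.x c28 (.y (.x c28 (.y (.x
  c49 c50) c53)) c54))) (.y (.x (.y c9 (.x c39 c9)) c9) c55)) c33))) (.y (.x c7 (.y c48 (.x c40
  c35))) (.x (.y c55 c33) (.y c40 c33)))) (.x (.y c33 c32) (.y c33 c32))) (.y (.x (.y (.x (.y
  c34 (.x (.y (.x c35 (.y c34 (.x c35 c8))) (.x c35 (.y (.x c35 c8) c35))) (.y (.x (.y c56 (.x
  (.y c36 (.x c8 c36)) (.y (.x (.y (.x c36 c57) (.x c36 c57)) c57) c58))) c58) (.x (.y (.x c8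
  c58) (.x c53 c58)) c58)))) (.y (.x c58 (.y c48 c58)) c58)) (.x (.y (.x c35 c58) c58) c58)) (.y
  (.x (.y (.x (.y c48 (.x (.y c56 (.x c58 (.y (.x c25 (.y c56 (.x (.y c48 c58) c13))) (.x c58
  (.y (.x c58 (.y c13 c58)) c58))))) c13)) c59) (.x (.y (.x c58 (.y (.x (.y (.x c58 c59) c58)
  c59) (.x c58 c13))) c58) (.y c59 (.x c13 c59)))) (.y (.x (.y c48 (.x (.y c48 (.x c59 (.y (.x
  c59 (.y c60 (.x (.y c60 c61) c61))) (.x c17 (.y (.x (.y c62 c62) c62) c62))))) (.y c48 (.x (.y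
  (.x (.y c60 (.x c62 (.y c61 c63))) c41) (.x (.y (.x c62 c63) c53) c41)) (.y (.x c41 c14)
  c53))))) (.y c48 (.x (.y c48 (.x (.y (.x c14 c64) c53) c64)) c47))) (.x (.y (.x (.y c53 c54)
  (.y (.x (.y c53 c54) c54) (.x (.y c55 c65) c41))) (.x (.y (.x c59 c17) c66) (.y (.x (.y c65
  c66) (.y (.x (.y c65 c66) c66) c66)) c66))) (.y (.x (.y c54 c65) (.y c54 (.x c64 c47)))
  c66)))) (.x c58 (.y (.x c58 (.y c66 c58)) c33)))) (.x (.y (.x c33 (.y c58 (.x (.y c58 c32)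
  c58))) (.x (.y c35 (.x c40 c35)) (.y c32 (.x (.y c32 (.x (.y c67 c35) c68)) (.y (.x c69 c58)
  c68))))) (.y (.x c70 (.y (.x c33 (.y c33 c70)) (.x (.y c70 c32) (.y c71 c32)))) (.x (.y (.x
  c58 c70) (.x c58 (.y (.x c70 c70) c68))) (.y (.x (.y c32 (.x (.y (.x c70 c13) c67) (.y (.x c72
  c59) c67))) (.y (.x c32 (.y c32 (.x (.y c32 (.x c32 c62)) (.y c32 (.x c62 (.y c32 (.x (.y c63
  c67) c63))))))) (.x (.y (.x c15 (.y (.x (.y (.x c32 c16) c67) c17) c67)) c67) (.y (.x (.y (.x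
  c17 c67) c67) c67) c67)))) (.x (.y (.x (.y (.x c70 c68) c68) c72) c68) c68)))))))))) (.y (.x
  (.y c5 (.x (.y (.x c6 (.y c5 (.x c6 (.y (.x c73 c48) c4)))) (.x (.y c6 c22) (.y c4 c22))) (.y
  (.x (.y c5 (.x (.y (.x c48 c5) c48) (.y c5 c4))) (.y c5 c4)) (.x (.y c4 (.x c48 (.y c22 c48)))
  (.y (.x c4 (.y c4 (.x c4 (.y c4 c22)))) (.x (.y (.x c22 (.y c22 c29)) (.x (.y c74 c48) (.y c75
  (.x (.y c75 c48) (.y c13 c76))))) (.y (.x (.y c22 (.x c29 (.y c29 c75))) (.y (.x c22 (.y c22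
  c29)) (.x (.y c29 c75) (.y c29 c75)))) (.x (.y (.x c75 (.y c75 (.x c77 c77))) (.x c78 (.y c77
  c77))) (.y (.x (.y c75 (.x c79 c13)) c80) (.x (.y (.x c79 c76) c79) c76)))))))))) (.y c5 (.x
  (.y c5 (.x (.y (.x (.y c4 (.x c22 c22)) c81) (.x (.y (.x (.y c29 (.x c75 c81)) c81) (.x (.y
  (.x (.y (.x (.y c75 c13) c82) (.x c83 (.y c82 c76))) c81) c76) c81)) c81)) (.y c5 (.x c81 (.y
  c5 c81))))) c5))) (.x (.y (.x (.y (.x (.y c22 (.x c22 (.y c42 (.x c22 c42)))) (.y (.x c6 c48)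
  (.x c42 c48))) (.x (.y c47 c48) c48)) (.y (.x c48 (.y (.x (.y (.x c48 (.y c76 c48)) c48) (.y
  (.x (.y (.x (.y c78 c37) c77) (.x c48 c77)) (.y c37 c77)) (.x c48 (.y (.x c77 c84) c48))))
  c48)) c48)) (.x (.y (.x (.y (.x (.y c47 (.x c47 c47)) (.y (.x c22 c48) c66)) (.x c33 c33)) (.y
  (.x (.y c48 c85) c86) (.x (.y c33 (.x c71 c85)) c86))) (.x (.y (.x (.y (.x (.y c33 c71) c71)
  (.x c32 c32)) (.y c71 c87)) (.x (.y (.x (.y (.x (.y c87 (.x (.y c32 (.x (.y c88 c67) c88)) (.y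
  (.x c14 c64) (.x c14 c89)))) c64) (.x (.y c67 c68) (.y c67 c68))) (.y (.x (.y c87 (.x (.y c87
  c67) c87)) c87) (.x (.y c67 c68) (.y c20 c68)))) c68) (.y (.x (.y c87 c68) c22) (.x (.y c68
  c90) (.y c68 c90))))) (.y (.x (.y c71 (.x c71 c85)) c6) (.x (.y (.x (.y c71 c71) (.y c91 c68))
  c90) (.y c68 c90))))) (.y (.x (.y c48 (.x (.y c48 (.x c86 c48)) c48)) (.y (.x c48 (.y c48
  c33)) (.x c48 c92))) (.x (.y (.x (.y (.x c86 (.y c32 (.x c86 (.y c48 (.x c86 c48))))) c86) (.y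
  c48 (.x (.y c48 c68) c48))) (.x c86 (.y (.x (.y c68 c90) c90) c92))) (.y (.x c48 c92) c92)))))
  (.y (.x (.y (.x (.y (.x (.y (.x (.y (.x c37 (.y c37 c42)) (.x c77 (.y c77 c84))) c81) (.x (.y
  (.x c80 (.y c84 (.x c83 c82))) c48) c81)) c81) c48) c81) (.x (.y c48 (.x (.y c48 c66) c81))
  c81)) (.y (.x (.y c93 (.x (.y c48 c48) c48)) c66) c66)) (.x (.y (.x (.y (.x (.y c94 (.x c94
  (.y c94 (.x c94 c95)))) c81) (.x (.y (.x c94 c96) (.x c96 (.y c96 (.x c94 c97)))) (.y (.x (.y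
  c81 c96) c81) (.x (.y (.x c96 c81) (.x (.y (.x c79 c81) (.x c79 c81)) c81)) c81)))) c81) (.x
  (.y (.x c92 (.y (.x (.y (.x c79 c81) c92) c81) c92)) c92) c81)) (.y (.x (.y (.x c81 c98) c98)
  c98) c98)))))

theorem ok460 : okF 3 20 (-5) t460 = true := by decide +kernel

theorem all460 : AllB 460 := allB (D := 460) (thm_of_ok ok460)
  (l :=
    [(5, 1, 34, 7), (-1, 0, -3, -1), (2, 1, -1, 0)])
  (l' :=
    [(1, 0), (-47, -29), (3, 4)])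
  (by decide +kernel)

/-- a cover for the form `(5, 19, -5)` of discriminant `461` -/
def t461 : CT :=
  let c0 : CT := .l 1 0 0
  let c1 : CT := .l 1 1 0
  let c2 : CT := .l 4 1 1
  let c3 : CT := .l 2 0 1
  let c4 : CT := .l 7 2 2
  let c5 : CT := .l 6 1 2
  let c6 : CT := .l 3 1 1
  let c7 : CT := .l 4 1 2
  let c8 : CT := .l 8 2 3
  let c9 : CT := .l 2 1 0
  let c10 : CT := .l 1 0 (-1)
  let c11 : CT := .l 6 2 1
  let c12 : CT := .l 3 1 0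
  let c13 : CT := .l 3 0 1
  let c14 : CT := .l 2 1 1
  let c15 : CT := .l 4 2 1
  let c16 : CT := .l 3 1 2
  let c17 : CT := .l 6 2 3
  let c18 : CT := .l 5 2 2
  let c19 : CT := .l 3 2 1
  let c20 : CT := .l 6 4 1
  let c21 : CT := .l 7 5 2
  let c22 : CT := .l 3 2 0
  let c23 : CT := .l 4 3 1
  let c24 : CT := .l 5 3 2
  let c25 : CT := .l 3 3 1
  let c26 : CT := .l 4 3 2
  let c27 : CT := .l 1 1 1
  let c28 : CT := .l 1 2 0
  let c29 : CT := .l 2 2 1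
  .x (.x (.y (.x c0 (.y c0 (.x c0 (.y (.x c0 (.y c0 c1)) (.x c1 c2))))) (.x (.y c0 (.x c3 c0))
  (.y (.x c0 (.y (.x (.y c2 (.x c0 (.y c2 c4))) c2) (.x (.y c5 c6) (.y (.x (.y c6 c6) c6) c6))))
  (.x c0 (.y (.x (.y (.x c0 c7) c3) (.y (.x c7 c8) c7)) (.x c3 c7)))))) (.y (.x (.y (.x (.y c0
  (.x c0 (.y c9 (.x c10 (.y (.x c10 c11) c10))))) (.y c9 (.x (.y c9 (.x c11 c12)) c12))) (.x (.y
  c1 (.x c2 c10)) (.y c1 (.x (.y c1 c6) (.y c1 (.x c11 (.y c2 c13))))))) (.y (.x (.y c9 (.x (.y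
  c9 c1) (.y c9 c1))) c9) (.x (.y c1 (.x (.y c1 c12) c14)) (.y c1 (.x (.y (.x c14 c15) c15)
  c15))))) (.x (.y (.x (.y (.x c2 c6) c6) c6) (.x (.y (.x (.y c6 c3) (.y c6 c3)) (.x c7 (.y (.x
  c16 (.y c3 c7)) c7))) (.y c6 (.x (.y (.x c17 c6) c17) c10)))) (.y (.x (.y (.x (.y (.x c6 c15)
  c6) c14) (.x c6 c14)) (.y (.x c14 c15) c14)) (.x (.y c18 c14) c14))))) (.x (.y (.x (.y (.x c9
  c1) (.x (.y c9 (.x c15 c9)) (.y c1 (.x c9 (.y (.x (.y c1 c15) c19) (.x c15 c19)))))) (.y c1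
  (.x (.y c1 (.x c19 (.y c20 (.x c19 c20)))) (.y c1 (.x (.y (.x (.y c20 c21) c22) c23) c23)))))
  (.x (.y (.x (.y (.x c15 (.y c15 (.x c15 c9))) (.x (.y c15 c19) (.y (.x c15 (.y c9 c19)) c19)))
  (.y (.x c9 (.y c19 c19)) c19)) (.x c14 (.y c24 c14))) (.y (.x c19 (.y (.x c19 c23) c19)) (.x
  (.y (.x (.y c24 c14) c19) c14) (.y (.x c19 (.y (.x c19 (.y c19 c25)) c14)) (.x c19 c26))))))
  (.y (.x (.y c1 (.x (.y c1 (.x c23 c27)) (.y c1 (.x c27 c1)))) c1) (.x (.y (.x (.y (.x c23 c27)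
  (.x (.y c23 (.x (.y c23 c22) c23)) c27)) c27) (.x (.y (.x (.y c25 c14) (.y c27 c14)) (.x c26
  (.y (.x (.y c14 c26) c27) c26))) c27)) (.y (.x (.y (.x (.y c1 (.x c28 (.y c28 (.x c28 c29))))
  c29) (.x (.y (.x c27 c25) c27) c29)) (.y c25 c29)) (.x (.y (.x c27 c29) c29) c29)))))

theorem ok461 : okF 5 19 (-5) t461 = true := by decide +kernel

theorem all461 : AllA 461 := allA (D := 461) (thm_of_ok ok461)
  (l :=
    [(45, -4, -11, 1), (43, 21, 174, 85)])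
  (by decide +kernel)

end Pool.Agent.Mukai
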