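import Pool.Agent.Work.MP_1e087a_ag.R4.Table

/-!
# Covers for the discriminants from 465 to 488
-/

namespace Pool.Agent.Mukai

/-- a cover for the form `(3, 21, -2)` of discriminant `465` -/
def t465 : CT :=
  let c0 : CT := .l 1 0 0
  let c1 : CT := .l 22 5 4
  let c2 : CT := .l 12 3 2
  let c3 : CT := .l 21 5 4
  let c4 : CT := .l 1 0 (-2)
  let c5 : CT := .l 1 2 0
  let c6 : CT := .l 3 (-2) 1
  let c7 : CT := .l 3 1 4
  let c8 : CT := .l 3 (-9) 2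
  let c9 : CT := .l 4 7 0
  let c10 : CT := .l 14 3 0
  let c11 : CT := .l 37 9 8
  let c12 : CT := .l 2 1 6
  let c13 : CT := .l 1 16 (-2)
  let c14 : CT := .l 4 1 2
  let c15 : CT := .l 11 2 3
  let c16 : CT := .l 3 0 1
  let c17 : CT := .l 1 0 (-1)
  let c18 : CT := .l 6 1 2
  let c19 : CT := .l 1 (-12) 2
  let c20 : CT := .l 8 3 2
  let c21 : CT := .l 6 (-1) 2
  let c22 : CT := .l 7 1 (-6)
  let c23 : CT := .l 3 1 1
  let c24 : CT := .l 7 1 3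
  let c25 : CT := .l 17 2 8
  let c26 : CT := .l 2 1 8
  let c27 : CT := .l 3 0 (-4)
  let c28 : CT := .l 1 3 0
  let c29 : CT := .l 9 1 4
  let c30 : CT := .l 7 2 3
  let c31 : CT := .l 3 3 1
  let c32 : CT := .l 4 1 4
  let c33 : CT := .l 3 (-4) 2
  let c34 : CT := .l 8 (-1) 4
  let c35 : CT := .l 1 46 (-6)
  let c36 : CT := .l 1 1 0
  let c37 : CT := .l 4 1 0
  let c38 : CT := .l 3 1 2
  let c39 : CT := .l 19 5 5
  let c40 : CT := .l 2 3 0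
  let c41 : CT := .l 1 1 7
  let c42 : CT := .l 11 4 2
  let c43 : CT := .l 2 1 0
  let c44 : CT := .l 3 1 (-1)
  let c45 : CT := .l 1 0 (-4)
  let c46 : CT := .l 12 5 2
  let c47 : CT := .l 22 9 4
  let c48 : CT := .l 9 4 2
  let c49 : CT := .l 21 9 4
  let c50 : CT := .l 2 1 2
  let c51 : CT := .l 1 1 6
  let c52 : CT := .l 17 8 4
  let c53 : CT := .l 23 6 9
  let c54 : CT := .l 39 10 13
  let c55 : CT := .l 1 (-19) 3
  let c56 : CT := .l 29 14 8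
  let c57 : CT := .l 6 3 2
  let c58 : CT := .l 3 2 1
  let c59 : CT := .l 23 9 10
  let c60 : CT := .l 13 6 5
  let c61 : CT := .l 1 287 (-40)
  let c62 : CT := .l 9 15 2
  let c63 : CT := .l 4 13 0
  let c64 : CT := .l 1 (-18) 3
  let c65 : CT := .l 4 (-1) 2
  let c66 : CT := .l 9 4 4
  let c67 : CT := .l 8 3 4
  let c68 : CT := .l 3 2 7
  let c69 : CT := .l 31 15 13
  let c70 : CT := .l 38 19 16
  let c71 : CT := .l 2 7 0
  let c72 : CT := .l 13 6 6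
  let c73 : CT := .l 3 4 1
  let c74 : CT := .l 1 4 0
  let c75 : CT := .l 1 11 (-1)
  let c76 : CT := .l 12 7 2
  let c77 : CT := .l 2 1 (-2)
  let c78 : CT := .l 3 2 2
  let c79 : CT := .l 34 19 8
  let c80 : CT := .l 9 6 2
  let c81 : CT := .l 4 (-5) 2
  let c82 : CT := .l 3 1 (-7)
  let c83 : CT := .l 21 12 4
  let c84 : CT := .l 19 11 4
  let c85 : CT := .l 1 0 (-6)
  let c86 : CT := .l 7 4 0
  let c87 : CT := .l 3 14 (-1)
  let c88 : CT := .l 8 5 4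
  let c89 : CT := .l 3 1 (-8)
  let c90 : CT := .l 3 2 (-1)
  let c91 : CT := .l 13 9 3
  let c92 : CT := .l 2 1 (-4)
  let c93 : CT := .l 4 3 2
  let c94 : CT := .l 1 1 3
  let c95 : CT := .l 3 2 4
  let c96 : CT := .l 26 15 8
  let c97 : CT := .l 7 17 0
  let c98 : CT := .l 1 45 (-6)
  let c99 : CT := .l 1 (-182) 26
  let c100 : CT := .l 12 9 26
  let c101 : CT := .l 8 (-23) 6
  let c102 : CT := .l 3 57 (-7)
  let c103 : CT := .l 8 7 28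
  let c104 : CT := .l 37 22 19
  let c105 : CT := .l 26 7 8
  let c106 : CT := .l 3 (-21) 4
  let c107 : CT := .l 29 17 11
  let c108 : CT := .l 24 13 (-2)
  let c109 : CT := .l 1 6 58
  let c110 : CT := .l 3 4 25
  let c111 : CT := .l 1 (-33) 5
  let c112 : CT := .l 2 5 0
  let c113 : CT := .l 29 17 8
  let c114 : CT := .l 8 5 6
  let c115 : CT := .l 39 23 14
  let c116 : CT := .l 3 1 (-4)
  let c117 : CT := .l 1 1 5
  let c118 : CT := .l 19 11 7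
  let c119 : CT := .l 22 13 10
  let c120 : CT := .l 31 18 13
  let c121 : CT := .l 23 13 10
  let c122 : CT := .l 6 7 2
  let c123 : CT := .l 34 21 14
  let c124 : CT := .l 1 32 (-4)
  let c125 : CT := .l 17 10 8
  let c126 : CT := .l 21 12 10
  let c127 : CT := .l 1 (-3) 1
  let c128 : CT := .l 7 5 3
  let c129 : CT := .l 12 9 2
  let c130 : CT := .l 4 3 0
  let c131 : CT := .l 9 7 2
  let c132 : CT := .l 16 13 4
  let c133 : CT := .l 1 1 2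
  let c134 : CT := .l 9 7 4
  let c135 : CT := .l 8 7 2
  let c136 : CT := .l 7 6 6
  let c137 : CT := .l 3 3 7
  let c138 : CT := .l 6 5 2
  let c139 : CT := .l 13 11 5
  let c140 : CT := .l 36 29 14
  let c141 : CT := .l 1 (-3) (-40)
  let c142 : CT := .l 34 27 12
  let c143 : CT := .l 13 10 1
  let c144 : CT := .l 29 23 9
  let c145 : CT := .l 3 18 (-1)
  let c146 : CT := .l 6 5 4
  let c147 : CT := .l 24 19 10
  let c148 : CT := .l 7 6 3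
  let c149 : CT := .l 11 9 4
  let c150 : CT := .l 1 1 1
  .x (.x (.y (.x c0 (.y c0 (.x c0 (.y (.x c0 (.y c0 (.x (.y c0 c1) (.y c2 (.x (.y c2 c3) c2)))))
  (.x (.y (.x c0 c4) (.x (.y (.x c0 c4) c5) c4)) (.y (.x (.y (.x c4 (.y c3 (.x c1 c3))) (.x c4
  (.y c6 (.x c7 (.y (.x c7 (.y (.x (.y c6 (.x c1 (.y c8 c9))) c10) c9)) (.x c7 c11)))))) (.y (.x
  c3 (.y c3 (.x c3 c2))) (.x (.y (.x c6 c3) (.x (.y c12 c11) c11)) (.y (.x (.y c6 c11) (.y c6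
  (.x (.y c6 (.x c11 c2)) c2))) (.x c11 c11))))) (.x (.y (.x c4 (.y (.x c7 (.y (.x c7 (.y c11
  c13)) c14)) c14)) c14) (.y (.x (.y (.x (.y (.x (.y c11 c13) c12) c5) c12) c5) (.y (.x c11 (.y
  c13 c5)) c5)) c5)))))))) (.x c0 (.y (.x (.y (.x c0 (.y (.x c5 c15) (.x c16 c16))) (.x c17
  c18)) (.y (.x (.y (.x (.y c5 c15) c4) (.x c16 c16)) (.y (.x c14 (.y c5 (.x (.y c5 (.x c14 (.y
  c19 c14))) (.y (.x c12 (.y c5 (.x c20 (.y c20 c19)))) (.x c12 (.y c21 (.x c12 (.y (.x (.y (.x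
  (.y c21 c16) c11) c16) c22) c16)))))))) (.x c16 c16))) (.x (.y c18 c23) c23))) (.x (.y (.x c17
  (.y c18 c24)) (.x c17 (.y (.x (.y c24 (.x c24 (.y c24 (.x c24 (.y c25 (.x c26 c18)))))) (.y
  (.x c18 c18) (.x c18 c18))) (.x (.y (.x c24 (.y (.x c17 c27) (.x c17 c26))) c14) (.y (.x (.y
  c18 c14) c18) c14))))) (.y (.x (.y (.x (.y (.x (.y c23 c28) (.y c23 c28)) c28) (.y (.x (.y c23
  c28) c23) c28)) (.x (.y c24 (.x c24 (.y c24 c29))) (.y (.x c24 c24) (.x (.y c24 c30) c14))))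
  c14) (.x (.y (.x (.y (.x (.y c30 (.x c31 c31)) (.y c30 (.x c32 c14))) (.x (.y (.x (.y (.x (.y
  c33 c34) (.y c33 c34)) (.x (.y (.x c18 (.y c35 c14)) c25) c14)) (.y (.x c34 c34) c14)) c14)
  c32)) c14) c14) c14)))))) (.y (.x (.y (.x (.y c0 c36) (.y c0 c36)) (.x (.y (.x (.y c36 (.x (.y
  c2 (.x c2 c37)) (.y c37 c37))) (.y c36 (.x (.y (.x c38 c23) c38) c23))) (.x (.y (.x (.y (.x c2
  c37) (.x c2 c37)) c37) (.x (.y (.x (.y (.x (.y c2 c5) c2) c5) (.y (.x c39 c37) c5)) c5) c37))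
  (.y (.x c38 c23) c23))) (.y (.x (.y c36 c23) (.y c36 (.x (.y (.x c40 c41) c42) c42))) (.x c23
  (.y (.x (.y (.x c23 c42) c23) c42) c5))))) (.y (.x (.y c43 c36) c43) (.x (.y (.x (.y c36 (.x
  (.y (.x c44 c45) c44) (.y (.x c45 c46) (.x c45 (.y c46 c47))))) (.y c36 (.x c46 (.y c46 (.x
  c46 c48))))) (.x (.y (.x (.y c44 c5) (.y (.x c45 (.y (.x c45 (.y c47 c49)) (.x c45 (.y (.x c45
  (.y c49 c13)) c5)))) c5)) c5) (.y (.x (.y (.x (.y c47 (.x (.y c47 c5) c47)) c46) c5) c50) (.x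
  c5 c50)))) (.y (.x (.y c43 (.x (.y (.x c48 c43) (.x c48 (.y c51 c48))) c43)) c43) (.x (.y (.x
  c48 (.y (.x c51 c43) c48)) (.x c48 (.y c48 (.x c51 c52)))) (.y c43 (.x (.y c5 (.x c52 c43))
  c43))))))) (.x (.y (.x (.y (.x (.y (.x (.y c5 (.x (.y c39 (.x (.y (.x c21 (.y c21 (.x (.y c21
  c23) c23))) (.x (.y (.x (.y (.x c53 (.y (.x c53 c54) c53)) c53) c23) c23) c23)) (.y (.x (.y
  c39 c23) c39) c23))) c39)) (.y c37 c23)) c23) c23) c23) c23) (.x (.y (.x (.y (.x (.y c28 c14)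
  c30) (.x c14 c30)) (.y c23 c30)) (.x c14 (.y (.x c30 c38) c14))) (.y c23 (.x (.y c23 c14)
  c23)))) (.y (.x (.y (.x (.y (.x c23 (.y c45 c23)) c23) (.y (.x (.y (.x (.y c20 (.x c45 (.y c20
  c55))) (.y c20 (.x (.y (.x c20 c50) (.x (.y c55 c23) c50)) c50))) c16) c50) c23)) (.x c23 (.y
  c23 (.x c23 (.y c23 c28))))) (.y (.x (.y (.x (.y c48 (.x c50 c48)) (.y (.x c51 (.y (.x c51 (.y
  c52 c55)) c16)) (.x (.y c16 (.x c48 c51)) c51))) c23) (.y (.x (.y (.x c52 (.y (.x (.y (.x c52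
  c43) (.x c52 c43)) c43) c16)) (.x (.y c16 (.x (.y c16 c56) c56)) c57)) c57) c23)) (.x (.y c23
  c58) (.y c57 c58)))) (.x (.y (.x (.y (.x c23 (.y c23 (.x c23 c44))) (.x (.y c23 (.x c23 (.y
  c23 c59))) (.y (.x (.y c30 c31) c44) (.x (.y (.x c59 (.y c31 c59)) c59) (.y c44 c59))))) (.y
  (.x (.y (.x c45 (.y c58 c45)) c45) (.y (.x (.y c58 (.x (.y c58 c24) c50)) c50) (.x (.y (.x (.y
  c60 (.x (.y c60 (.x c45 (.y (.x c45 (.y c60 (.x c45 (.y (.x c45 c61) c62)))) (.x c45 c63))))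
  (.y c60 (.x (.y (.x (.y c60 c62) c50) c63) c50)))) c50) (.x (.y (.x c45 (.y (.x (.y (.x (.y
  c63 c29) (.y c63 c29)) c29) c50) c64)) c65) c50)) c50))) (.x (.y c45 (.x (.y c45 (.x c44 c45))
  c45)) (.y (.x c31 c50) c66)))) (.x (.y (.x (.y (.x c23 (.y (.x c41 c59) c66)) (.x c67 c41))
  (.y (.x (.y c59 c66) (.y (.x (.y c59 c66) c66) c66)) (.x (.y c66 c14) (.y c66 c14)))) (.x c67
  (.y c14 c67))) (.y (.x (.y c66 (.x (.y c66 c44) c45)) c66) (.x (.y c14 c67) (.y c14 c67)))))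
  (.y (.x (.y (.x c50 c60) (.x c66 (.y (.x c50 c60) c66))) (.y (.x (.y c60 (.x c51 (.y (.x c51
  (.y (.x c60 c68) c65)) c31))) (.y c57 (.x (.y (.x (.y c57 c65) c57) c31) c57))) (.x (.y (.x
  c51 (.y c31 c69)) (.x (.y c51 c66) (.y (.x c51 c69) c66))) (.y (.x (.y c31 c69) (.y c57 (.x
  (.y c69 c70) c70))) (.x (.y (.x c69 (.y c71 (.x (.y c71 c68) (.y c71 c66)))) c66) (.y (.x (.y
  c71 (.x (.y (.x (.y c71 c66) (.y c71 c66)) c66) (.y (.x (.y c71 c66) c57) c66))) c57)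
  c66)))))) (.x (.y (.x c66 c72) c50) (.y (.x (.y c66 c72) (.y (.x (.y c66 (.x (.y c66 c72) (.y
  c66 c72))) (.y c66 (.x (.y (.x (.y c66 c73) (.y c66 c73)) c73) c73))) (.x (.y c72 c14) (.y c72
  c14)))) (.x (.y (.x (.y c72 (.x c72 (.y c14 c67))) c51) (.x (.y c67 c74) c74)) (.y (.x (.y c14
  (.x c51 (.y (.x (.y (.x c51 (.y c14 c75)) c75) c68) c75))) (.y (.x c14 (.y c14 (.x c14 (.y c14
  (.x c14 (.y c14 (.x (.y c14 c75) (.y c14 c75)))))))) (.x (.y (.x c68 c75) c75) c75)))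
  c74)))))))))) (.x (.y (.x (.y c36 (.x c43 (.y (.x (.y c36 (.x (.y c43 c5) c76)) (.y c36 (.x
  (.y c76 c5) (.y (.x c77 c78) c5)))) (.x (.y c5 (.x (.y (.x (.y c43 (.x c43 (.y c43 c79))) (.y
  c5 (.x (.y c19 c80) (.y c19 c80)))) (.x (.y (.x c43 (.y c80 (.x c43 (.y c80 c55)))) (.x c43
  (.y (.x c43 (.y c81 (.x (.y c81 c16) c16))) c16))) (.y (.x (.y c80 (.x (.y c80 c55) (.y c80
  c55))) (.y c80 (.x c82 c55))) (.x (.y (.x (.y c81 c16) (.y c81 c16)) c16) (.y (.x c82 c83)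
  c16))))) (.y (.x c84 (.y c5 c80)) (.x (.y (.x c84 c85) (.x (.y (.x (.y (.x (.y c84 c16) c84)
  c16) c85) c16) c85)) (.y (.x c85 c76) c85))))) (.y c5 (.x (.y (.x (.y c5 c80) (.y c5 c80)) (.x
  (.y (.x (.y c80 c86) (.y c80 (.x (.y c81 (.x (.y c87 c16) c88)) c88))) c16) (.y (.x (.y c80
  (.x (.y c81 c16) (.y c87 c16))) (.y c80 (.x c89 c77))) c16))) (.y (.x c77 c80) c77))))))) (.y
  c36 (.x (.y (.x (.y c58 c58) (.y c36 c5)) c58) (.y (.x (.y c36 c5) c36) (.x (.y (.x (.y c5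
  c80) (.y c5 (.x (.y c5 c80) c90))) (.x c58 (.y c91 (.x c58 (.y (.x c92 c90) c58))))) (.y (.x
  (.y c5 (.x c93 c94)) c94) (.x (.y (.x c93 c94) c93) c94))))))) (.x (.y (.x (.y (.x c43 c43)
  (.x (.y c57 c58) (.y c57 c58))) (.y (.x (.y (.x (.y (.x (.y c16 c95) (.y c16 (.x (.y (.x (.y
  c16 (.x c16 c96)) (.y c16 (.x c96 (.y c16 (.x c96 (.y c16 c97)))))) (.x (.y (.x (.y (.x (.y
  c97 c95) (.y c97 c98)) c98) c96) (.x (.y (.x c95 (.y (.x (.y c98 (.x c95 c99)) (.y c98 (.x c99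
  c100))) (.x (.y c101 c102) (.y c101 c102)))) (.x c95 (.y (.x c95 (.y (.x c103 c100) (.x c103
  c100))) (.x c95 (.y (.x c103 c100) (.x c103 c104)))))) (.y (.x (.y c96 (.x (.y c96 c102)
  c102)) c96) (.x (.y (.x (.y (.x c100 c96) c105) c96) (.x (.y (.x c100 c96) c106) c96)) c96))))
  (.y (.x c96 (.y c98 c96)) c96))) (.y (.x (.y c16 (.x (.y c16 (.x (.y c16 c97) c107)) (.y c82
  (.x (.y c82 (.x c107 c82)) c82)))) c82) (.x (.y (.x (.y c98 (.x (.y c98 (.x c108 (.y c98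
  c99))) (.y c98 (.x (.y c99 (.x c109 c110)) c110)))) (.y c98 (.x c107 c82))) (.x (.y (.x c109
  c110) (.x c109 c110)) (.y (.x c107 c82) (.x c110 c82)))) c82))))) (.x (.y c95 (.x c43 c95))
  (.y (.x (.y (.x (.y (.x (.y c106 c111) (.y (.x c106 c96) c111)) c112) c96) c112) c112) (.x (.y
  c112 c113) c113)))) (.y (.x (.y c16 (.x (.y (.x c114 (.y c16 (.x (.y (.x (.y c16 c97) (.y c16
  c97)) c98) c85))) (.x c114 (.y (.x (.y (.x c114 (.y c98 (.x c115 (.y c98 c99)))) (.x c114 (.y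
  (.x c115 (.y c101 c102)) c115))) (.y (.x (.y c98 c113) c113) c113)) (.x (.y (.x c114 c115)
  c112) c113)))) c113)) c85) (.x (.y c112 c113) c85))) c23) (.y (.x (.y (.x (.y (.x c86 (.y c16
  (.x (.y c16 (.x c86 (.y c16 (.x c86 c58)))) c88))) (.x c86 (.y (.x (.y (.x c86 c58) c58) c88)
  c58))) (.y (.x (.y c16 c58) c58) c58)) c58) c58) c58)) c58)) (.x (.y (.x (.y (.x c57 c43) (.x
  c57 c43)) c43) (.x (.y (.x (.y (.x (.y c57 c73) c57) (.x (.y c72 c14) c57)) (.y (.x (.y c43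
  c73) c43) c14)) (.x (.y (.x (.y (.x (.y c14 (.x (.y c14 (.x (.y c14 (.x (.y c14 c75) (.y c14
  c75))) c116)) c116)) (.y c57 (.x c116 c57))) (.x (.y c75 c74) c67)) c57) c74) (.y (.x (.y (.x
  c57 (.y (.x c57 c43) (.x c57 c43))) (.x c67 (.y c75 c74))) c43) c74))) c43)) (.y (.x (.y (.x
  (.y c58 (.x c117 (.y c31 (.x c117 c95)))) (.y c58 (.x (.y c58 (.x c95 (.y c58 (.x c95 (.y (.x
  c118 c119) (.x c118 c119)))))) (.y c58 (.x (.y c58 (.x (.y c58 c119) c107)) c58))))) (.x c117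
  (.y (.x (.y (.x c95 (.y (.x c118 (.y (.x c118 c119) c71)) c71)) c120) (.y (.x (.y (.x c119
  c107) c71) (.y c71 (.x c82 c114))) (.x c120 (.y c120 (.x c120 c82))))) (.x c95 (.y (.x c119
  (.y c66 (.x (.y (.x c119 (.y c66 c119)) c119) c82))) (.x c119 (.y c121 c73))))))) (.y c58 (.x
  (.y (.x (.y (.x (.y c71 (.x (.y c71 c122) c85)) c85) (.x (.y (.x (.y c122 c120) (.y c123
  c120)) (.x c114 (.y (.x c120 c85) c66))) c85)) (.y c58 c85)) (.x (.y (.x (.y c66 (.x c114 (.y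
  c124 c121))) c85) (.x (.y (.x c114 (.y c121 c73)) c73) (.y c85 c73))) c85)) (.y (.x (.y c88
  c88) c58) (.x c88 c88))))) (.x (.y (.x (.y (.x c121 c117) (.x (.y c14 (.x c43 c121)) c117))
  (.y (.x (.y c95 c14) c119) (.x (.y c119 c125) c125))) (.x (.y c126 (.x (.y c74 c127) c127))
  (.y c125 c127))) (.y (.x (.y (.x (.y (.x (.y c114 c128) c128) c119) c85) (.x (.y c119 c125)
  c85)) c88) (.x (.y c74 c127) c88)))))) (.y (.x c58 (.y (.x c58 (.y (.x c93 c94) c58)) c58))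
  (.x (.y (.x c58 c58) (.x (.y (.x c78 c78) c78) c58)) (.y (.x c58 c93) (.x (.y (.x c58 c128)
  c93) c93)))))) (.y (.x (.y c36 (.x (.y c36 (.x (.y (.x (.y c36 (.x c129 c130)) c130) (.x (.y
  c131 (.x (.y c131 c112) c131)) c131)) (.y c36 (.x c131 (.y c36 (.x (.y c112 c132) c132))))))
  (.y c36 (.x c133 c36)))) c36) (.x (.y (.x (.y (.x (.y (.x (.y (.x c94 (.y (.x c134 (.y c131
  c132)) (.x c129 (.y (.x (.y c132 c135) c130) c135)))) c23) (.y c130 c23)) c58) (.y (.x (.y (.x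
  c131 (.y c132 c135)) (.x c131 (.y c23 (.x (.y c131 c58) (.y c23 c58))))) (.y (.x (.y c132
  c135) c135) (.x (.y c23 (.x (.y c23 c58) (.y c23 (.x c58 (.y (.x c58 (.y (.x c136 (.y c23
  c58)) c58)) c58))))) (.y c23 (.x c137 c138))))) c58)) (.x (.y c58 (.x c94 (.y c138 c31))) (.y
  c58 c31))) (.y (.x (.y c133 c138) (.y (.x c133 c135) (.x c133 c58))) (.x c138 (.y c138 c31))))
  (.x (.y (.x (.y (.x c94 (.y (.x c134 (.y c31 c134)) c134)) (.x c128 c134)) (.y (.x (.y (.x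
  c130 (.y c31 (.x c130 (.y c122 (.x c131 c139))))) (.x c130 (.y (.x c130 c131) (.x c130
  c131)))) (.y (.x (.y c31 (.x (.y c122 c139) c140)) (.y c31 (.x c140 c139))) (.x (.y (.x (.y
  c139 (.x (.y c139 (.x (.y (.x c131 (.y c139 (.x (.y (.x c141 c124) c124) c124))) c124) c142))
  (.y c139 (.x c143 (.y (.x (.y c139 c124) (.y c139 c124)) c124))))) (.y c140 (.x (.y c139 (.x
  c144 c124)) c140))) (.x (.y (.x (.y (.x (.y c124 c73) c142) c73) (.y (.x c143 (.y c124 c73))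
  c73)) c73) (.y (.x (.y (.x (.y (.x (.y c124 c73) c144) c73) (.y (.x (.y c124 c73) c145) c73))
  c73) c73) c73))) (.y (.x c140 (.y c139 c146)) c146)))) (.x (.y (.x c134 c147) c134) (.y (.x
  (.y c128 c128) c128) c148)))) (.x c93 (.y (.x c134 (.y c134 c127)) c93))) (.y (.x (.y (.x (.y
  c149 (.x (.y c149 c73) c149)) c138) (.x (.y (.x c128 c149) c148) c148)) c133) (.x (.y (.x (.y
  c148 c127) c133) c93) c133)))) (.y (.x (.y c36 c31) c36) (.x c150 c150)))))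

theorem ok465 : okF 3 21 (-2) t465 = true := by decide +kernel

theorem all465 : AllB 465 := allB (D := 465) (thm_of_ok ok465)
  (l :=
    [(5, 1, -1, 0), (-1, 0, -3, -1), (53, 32, -5, -3), (10, 11, -1, -1)])
  (l' :=
    [(1, 0), (-18, -7), (-642, -415), (188, 227)])
  (by decide +kernel)

/-- a cover for the form `(2, 20, -9)` of discriminant `472` -/
def t472 : CT :=
  let c0 : CT := .l 1 0 0
  let c1 : CT := .l 1 1 0
  let c2 : CT := .l 1 2 0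
  let c3 : CT := .l 1 (-1) (-3)
  let c4 : CT := .l 3 1 0
  let c5 : CT := .l 5 2 1
  let c6 : CT := .l 4 2 1
  let c7 : CT := .l 2 0 (-1)
  let c8 : CT := .l 4 1 1
  let c9 : CT := .l 1 3 0
  let c10 : CT := .l 1 0 (-1)
  let c11 : CT := .l 18 10 3
  let c12 : CT := .l 11 6 2
  let c13 : CT := .l 5 3 1
  let c14 : CT := .l 7 5 1
  let c15 : CT := .l 1 1 1
  let c16 : CT := .l 6 4 1
  let c17 : CT := .l 4 3 1
  let c18 : CT := .l 3 2 0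
  let c19 : CT := .l 8 6 1
  let c20 : CT := .l 26 20 5
  let c21 : CT := .l 1 2 3
  let c22 : CT := .l 2 1 (-1)
  let c23 : CT := .l 4 4 1
  let c24 : CT := .l 1 (-1) (-2)
  let c25 : CT := .l 4 0 1
  let c26 : CT := .l 3 1 1
  let c27 : CT := .l 2 1 1
  let c28 : CT := .l 5 0 2
  let c29 : CT := .l 2 0 1
  let c30 : CT := .l 5 1 2
  let c31 : CT := .l 1 1 2
  let c32 : CT := .l 2 (-1) 1
  let c33 : CT := .l 10 6 3
  let c34 : CT := .l 1 4 0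
  let c35 : CT := .l 20 10 7
  let c36 : CT := .l 2 (-2) 1
  let c37 : CT := .l 8 4 3
  let c38 : CT := .l 1 (-27) 3
  let c39 : CT := .l 11 6 4
  let c40 : CT := .l 1 (-6) 1
  let c41 : CT := .l 13 8 5
  let c42 : CT := .l 16 10 5
  let c43 : CT := .l 1 25 (-2)
  let c44 : CT := .l 2 19 (-1)
  let c45 : CT := .l 24 14 9
  let c46 : CT := .l 8 6 5
  let c47 : CT := .l 2 (-64) 7
  let c48 : CT := .l 5 33 (-1)
  let c49 : CT := .l 34 18 13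
  let c50 : CT := .l 8 (-16) 5
  let c51 : CT := .l 13 7 5
  let c52 : CT := .l 34 22 13
  let c53 : CT := .l 5 2 (-1)
  let c54 : CT := .l 30 20 11
  let c55 : CT := .l 24 16 9
  let c56 : CT := .l 4 5 1
  let c57 : CT := .l 2 2 1
  let c58 : CT := .l 10 10 3
  let c59 : CT := .l 5 4 2
  let c60 : CT := .l 22 18 7
  let c61 : CT := .l 16 14 5
  let c62 : CT := .l 1 (-1) (-4)
  let c63 : CT := .l 13 11 5
  let c64 : CT := .l 5 3 (-1)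
  let c65 : CT := .l 13 4 5
  let c66 : CT := .l 4 4 3
  let c67 : CT := .l 4 7 1
  let c68 : CT := .l 11 9 4
  let c69 : CT := .l 8 8 3
  let c70 : CT := .l 1 0 (-2)
  let c71 : CT := .l 3 4 1
  let c72 : CT := .l 7 6 3
  .y (.x (.y (.x c0 (.y (.x c0 c1) (.x (.y c1 c1) c1))) (.x c0 (.y (.x (.y (.x c0 (.y (.x (.y c0
  (.x c0 c2)) (.y (.x c3 c4) c2)) c2)) (.x c2 (.y c2 (.x (.y c2 (.x c2 c5)) c5)))) (.y (.x (.y
  (.x c4 c2) c2) c2) (.x (.y c2 c5) (.y c2 c6)))) (.x (.y (.x (.y (.x c0 (.y (.x c0 c7) c5)) c5)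
  (.y c5 c5)) (.x c8 (.y c8 c8))) (.y (.x c5 c6) (.x (.y c5 c9) c6)))))) (.y (.x (.y c1 c1) c1)
  (.x (.y (.x (.y c2 (.x (.y (.x c10 (.y c2 c11)) (.x c10 c12)) (.y (.x c13 c13) c13))) (.y (.x
  c2 c14) (.x c15 (.y c16 c17)))) (.x (.y (.x (.y (.x c10 c13) c13) c13) (.x c6 (.y c13 c6)))
  (.y (.x c15 c17) (.x c15 c17)))) (.y (.x (.y c1 (.x (.y (.x (.y c16 (.x c18 c1)) c1) (.x (.y
  (.x c18 c19) c13) (.y c1 c13))) c1)) c1) (.x (.y (.x (.y (.x (.y (.x c18 c20) c17) (.y (.x c21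
  c22) c9)) c9) (.y (.x (.y (.x (.y c1 c9) c9) c9) c9) c9)) (.x c17 (.y c17 c17))) (.y c1 (.x
  (.y (.x c17 c1) (.x c17 c23)) c23))))))) (.x (.y (.x (.y c0 (.x (.y (.x (.y c0 (.x (.y (.x c24
  c0) (.x c24 c0)) c0)) c0) (.x (.y (.x (.y (.x c24 c25) c24) c25) c26) c0)) c0)) (.y (.x (.y
  (.x c26 (.y c9 c26)) c26) (.y (.x c27 c6) (.x c27 (.y (.x (.y c6 c26) c6) c26)))) (.x c26 (.y
  c26 c27)))) (.x (.y (.x (.y (.x c28 c0) (.x c29 (.y c30 c29))) c0) (.x c29 c0)) (.y (.x (.y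
  (.x (.y (.x c30 c30) (.x c30 (.y c30 c30))) c26) (.x (.y (.x c0 (.y (.x (.y c30 (.x c30 c31))
  c31) c32)) (.x c32 (.y c32 (.x c32 c31)))) (.y c26 (.x c31 c27)))) c27) (.x (.y (.x c29 (.y
  c29 c29)) (.x c29 c27)) c27)))) (.y (.x (.y (.x (.y (.x c6 (.y (.x c6 c17) (.x (.y c17 c17)
  c17))) (.x c6 (.y (.x (.y (.x c10 c33) (.x c23 c33)) (.y (.x c33 c23) c33)) c26))) (.y (.x (.y
  c17 c17) c17) (.x (.y (.x (.y c23 c33) c15) c26) c15))) (.x (.y (.x (.y c26 (.x c34 c6)) (.y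
  (.x c26 (.y c33 c34)) (.x c10 (.y c34 (.x c10 c33))))) (.x (.y (.x (.y (.x c35 c6) c36) c6)
  (.x c37 c6)) (.y (.x c10 (.y (.x c36 (.y c36 (.x c36 c33))) (.x c10 (.y (.x (.y (.x c10 c38)
  c10) c33) c39)))) (.x c10 (.y (.x c37 c37) (.x c10 (.y c40 c41))))))) (.y (.x (.y c34 (.x (.y
  (.x (.y c34 (.x c34 c42)) (.y c34 (.x (.y c34 c43) c15))) (.x (.y (.x (.y (.x c43 c42) c36)
  c42) c36) c36)) c15)) c15) (.x (.y (.x (.y (.x (.y c36 (.x (.y c36 (.x c33 (.y c44 c38))) (.y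
  c36 c38))) (.y c36 (.x (.y (.x c42 c44) (.x c42 (.y c38 c39))) (.y (.x (.y c44 c38) c38) (.x
  (.y c38 c39) c15))))) (.x (.y (.x c39 c39) c30) (.y c39 c30))) c15) (.x (.y c40 (.x (.y (.x
  c33 (.y c40 (.x c45 (.y c45 (.x c45 c46))))) (.x c41 (.y (.x c33 (.y (.x (.y (.x (.y c47 (.x
  c47 c48)) (.y c47 c48)) (.x (.y c48 c49) (.y (.x c48 c49) c49))) c46) (.x (.y (.x (.y c49 c41)
  (.y c50 (.x (.y (.x c41 (.y (.x c50 (.y c50 c41)) c41)) c41) (.y (.x (.y c46 c51) c46) c51))))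
  c51) c46))) c51))) (.y (.x (.y c40 (.x (.y c45 c52) c53)) (.y c54 (.x c42 c54))) (.x (.y (.x
  c52 c53) c51) (.y (.x c42 c55) c55))))) (.y c15 (.x c55 c15)))) c15)))) (.y (.x (.y (.x c17
  (.y (.x c17 c23) (.x (.y c23 c23) c23))) (.x c17 (.y (.x (.y c26 (.x c56 c21)) (.y c26 c34))
  c34))) (.y (.x c57 c23) (.x c57 (.y c34 (.x c57 c58))))) (.x (.y (.x (.y c17 (.x c59 c17)) (.y
  (.x (.y (.x c60 c21) c36) (.y (.x c22 c61) (.x c22 (.y c36 c62)))) (.x (.y (.x (.y (.x c18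
  c60) (.x c18 c63)) (.y (.x (.y c36 (.x c44 c21)) c21) (.x (.y (.x c64 (.y c38 (.x (.y (.x c64
  c21) (.x c64 c21)) c21))) (.x c64 (.y (.x (.y c65 c64) c21) c39))) c21))) (.x (.y (.x c18 c66)
  c18) (.y c67 c40))) (.y (.x c21 (.y c62 (.x c22 c67))) (.x c21 c40))))) (.x (.y (.x c59 c17)
  c59) (.y (.x (.y (.x c40 (.y c40 (.x c63 (.y c40 c68)))) c68) (.y (.x c21 c22) (.x c68 c22)))
  (.x c68 (.y (.x c68 c21) c32))))) (.y (.x c57 (.y (.x c57 (.y (.x c69 c58) (.x c69 (.y c67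
  c40)))) (.x c57 (.y (.x c69 (.y c40 (.x c69 c70))) c69)))) c57)))) (.x (.y (.x (.y (.x (.y (.x
  c37 c51) c27) (.y (.x (.y (.x c51 c45) (.x c6 c41)) c41) (.x (.y c32 (.x c32 c10)) c10))) (.x
  c27 (.y (.x c27 c10) c27))) (.y (.x (.y (.x (.y (.x c41 c41) c32) (.y (.x (.y c55 c41) c15)
  c32)) (.x (.y c32 (.x c71 (.y c71 (.x c71 c59)))) (.y (.x (.y c32 c71) c71) (.x (.y c71 c59)
  c59)))) c15) (.x (.y (.x (.y c59 c59) c59) (.x (.y (.x c27 c29) c29) c29)) c15))) (.x c27 (.y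
  c27 c27))) (.y (.x (.y (.x c59 c59) (.x c15 (.y (.x c59 c29) c72))) c57) (.x (.y (.x c27 (.y
  c27 c57)) (.x c27 c57)) c57)))))

theorem ok472 : okF 2 20 (-9) t472 = true := by decide +kernel

theorem all472 : AllA 472 := allA (D := 472) (thm_of_ok ok472)
  (l :=
    [(554, 51, -239, -22), (-1, 0, -5, -1), (-23, -7, 10, 3), (3, 2, 31, 21), (1, 1, -1, 0)])
  (by decide +kernel)

/-- a cover for the form `(8, 15, -8)` of discriminant `481` -/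
def t481 : CT :=
  let c0 : CT := .l 1 0 0
  let c1 : CT := .l 3 0 1
  let c2 : CT := .l 1 1 0
  let c3 : CT := .l 3 2 6
  let c4 : CT := .l 7 (-1) 1
  let c5 : CT := .l 5 1 2
  let c6 : CT := .l 8 (-7) 7
  let c7 : CT := .l 7 8 0
  let c8 : CT := .l 8 (-3) (-3)
  let c9 : CT := .l 1 15 (-6)
  let c10 : CT := .l 1 (-15) 7
  let c11 : CT := .l 11 (-1) 3
  let c12 : CT := .l 14 1 9
  let c13 : CT := .l 10 1 7
  let c14 : CT := .l 28 1 13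
  let c15 : CT := .l 29 1 15
  let c16 : CT := .l 28 1 15
  let c17 : CT := .l 5 (-1) 3
  let c18 : CT := .l 8 7 1
  let c19 : CT := .l 7 (-8) 7
  let c20 : CT := .l 12 (-1) 3
  let c21 : CT := .l 25 1 13
  let c22 : CT := .l 19 0 8
  let c23 : CT := .l 9 1 6
  let c24 : CT := .l 5 3 9
  let c25 : CT := .l 24 3 13
  let c26 : CT := .l 38 5 17
  let c27 : CT := .l 3 1 3
  let c28 : CT := .l 5 (-8) 6
  let c29 : CT := .l 4 7 (-1)
  let c30 : CT := .l 31 3 15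
  let c31 : CT := .l 14 1 7
  let c32 : CT := .l 1 (-1) 1
  let c33 : CT := .l 3 1 0
  let c34 : CT := .l 10 3 1
  let c35 : CT := .l 2 1 1
  let c36 : CT := .l 12 3 1
  let c37 : CT := .l 9 3 1
  let c38 : CT := .l 3 (-26) 12
  let c39 : CT := .l 11 3 1
  let c40 : CT := .l 23 6 2
  let c41 : CT := .l 34 9 5
  let c42 : CT := .l 1 (-4) 2
  let c43 : CT := .l 2 (-1) 1
  let c44 : CT := .l 1 3 (-1)
  let c45 : CT := .l 3 2 0
  let c46 : CT := .l 16 5 3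
  let c47 : CT := .l 4 1 1
  let c48 : CT := .l 5 2 1
  let c49 : CT := .l 1 0 (-1)
  let c50 : CT := .l 29 12 2
  let c51 : CT := .l 4 (-5) 3
  let c52 : CT := .l 18 9 1
  let c53 : CT := .l 5 2 (-1)
  let c54 : CT := .l 4 9 (-3)
  let c55 : CT := .l 8 7 7
  let c56 : CT := .l 7 0 (-8)
  let c57 : CT := .l 1 (-6) (-15)
  let c58 : CT := .l 11 8 (-1)
  let c59 : CT := .l 7 6 (-1)
  let c60 : CT := .l 1 (-11) 5
  let c61 : CT := .l 29 14 1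
  let c62 : CT := .l 25 12 1
  let c63 : CT := .l 2 13 (-5)
  let c64 : CT := .l 24 11 3
  let c65 : CT := .l 11 5 2
  let c66 : CT := .l 3 5 9
  let c67 : CT := .l 7 19 (-6)
  let c68 : CT := .l 9 3 (-1)
  let c69 : CT := .l 20 9 3
  let c70 : CT := .l 6 3 1
  let c71 : CT := .l 1 (-2) (-5)
  let c72 : CT := .l 17 6 7
  let c73 : CT := .l 11 2 0
  let c74 : CT := .l 6 5 9
  let c75 : CT := .l 1 (-45) 20
  let c76 : CT := .l 1 76 175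
  let c77 : CT := .l 9 6 10
  let c78 : CT := .l 7 13 27
  let c79 : CT := .l 8 3 3
  let c80 : CT := .l 23 8 9
  let c81 : CT := .l 7 2 3
  let c82 : CT := .l 1 1 2
  let c83 : CT := .l 17 5 8
  let c84 : CT := .l 1 6 (-2)
  let c85 : CT := .l 11 6 5
  let c86 : CT := .l 6 (-9) 7
  let c87 : CT := .l 4 1 (-1)
  let c88 : CT := .l 8 5 5
  let c89 : CT := .l 2 (-23) 11
  let c90 : CT := .l 7 13 (-2)
  let c91 : CT := .l 32 13 11
  let c92 : CT := .l 17 9 5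
  let c93 : CT := .l 36 17 9
  let c94 : CT := .l 7 4 2
  let c95 : CT := .l 1 7 15
  let c96 : CT := .l 8 1 (-7)
  let c97 : CT := .l 5 3 1
  let c98 : CT := .l 7 7 8
  let c99 : CT := .l 14 5 1
  let c100 : CT := .l 3 (-3) 2
  let c101 : CT := .l 1 19 (-8)
  let c102 : CT := .l 5 12 (-4)
  let c103 : CT := .l 12 9 (-1)
  let c104 : CT := .l 2 (-15) 7
  let c105 : CT := .l 19 11 0
  let c106 : CT := .l 1 1 1
  let c107 : CT := .l 28 15 1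
  let c108 : CT := .l 5 (-4) 3
  let c109 : CT := .l 14 7 1
  let c110 : CT := .l 31 16 3
  let c111 : CT := .l 36 19 3
  let c112 : CT := .l 38 21 5
  let c113 : CT := .l 1 3 6
  let c114 : CT := .l 8 5 3
  let c115 : CT := .l 12 7 3
  let c116 : CT := .l 4 3 1
  let c117 : CT := .l 17 10 6
  let c118 : CT := .l 23 14 8
  let c119 : CT := .l 4 5 7
  let c120 : CT := .l 2 19 (-7)
  let c121 : CT := .l 11 11 2
  let c122 : CT := .l 6 (-3) 5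
  let c123 : CT := .l 1 (-174) 76
  let c124 : CT := .l 1 (-19) (-45)
  let c125 : CT := .l 38 27 19
  let c126 : CT := .l 9 (-1) 6
  let c127 : CT := .l 2 95 217
  let c128 : CT := .l 7 (-20) 13
  let c129 : CT := .l 7 5 4
  let c130 : CT := .l 2 (-9) (-23)
  let c131 : CT := .l 2 (-31) 15
  let c132 : CT := .l 11 6 6
  let c133 : CT := .l 1 (-71) (-165)
  let c134 : CT := .l 17 12 9
  let c135 : CT := .l 32 21 13
  let c136 : CT := .l 7 15 (-1)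
  let c137 : CT := .l 8 3 5
  let c138 : CT := .l 4 5 1
  let c139 : CT := .l 1 18 (-7)
  let c140 : CT := .l 1 (-12) 6
  let c141 : CT := .l 2 1 (-1)
  let c142 : CT := .l 1 2 3
  let c143 : CT := .l 16 13 5
  let c144 : CT := .l 3 3 2
  let c145 : CT := .l 1 (-1) (-4)
  let c146 : CT := .l 9 8 3
  let c147 : CT := .l 12 11 3
  let c148 : CT := .l 8 19 (-3)
  let c149 : CT := .l 10 9 3
  let c150 : CT := .l 11 10 3
  let c151 : CT := .l 5 4 2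
  let c152 : CT := .l 3 3 1
  let c153 : CT := .l 11 9 5
  let c154 : CT := .l 20 17 9
  let c155 : CT := .l 1 2 0
  let c156 : CT := .l 24 21 11
  let c157 : CT := .l 29 27 12
  let c158 : CT := .l 17 14 8
  let c159 : CT := .l 18 17 9
  let c160 : CT := .l 25 24 12
  let c161 : CT := .l 5 6 2
  let c162 : CT := .l 29 28 14
  let c163 : CT := .l 28 27 13
  let c164 : CT := .l 3 1 (-3)
  let c165 : CT := .l 14 13 5
  let c166 : CT := .l 14 15 9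
  let c167 : CT := .l 4 7 9
  let c168 : CT := .l 7 8 6
  let c169 : CT := .l 7 15 0
  let c170 : CT := .l 11 12 8
  let c171 : CT := .l 1 16 (-6)
  let c172 : CT := .l 8 1 7
  .x (.x (.y (.x c0 (.y c0 (.x c0 (.y c0 c0)))) (.x (.y (.x (.y c0 c1) c0) (.x (.y c1 (.x (.y
  (.x c2 (.y c2 (.x c2 c1))) (.x (.y (.x (.y (.x (.y c2 c2) (.y c2 c3)) (.x (.y (.x (.y c4 c5)
  c5) c5) c5)) (.y (.x (.y c2 (.x (.y (.x c2 (.y c2 c5)) c5) (.y c5 c5))) (.y (.x c2 (.y c2 (.x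
  (.y c2 c5) c5))) c5)) c5)) (.x (.y c5 (.x (.y (.x (.y c5 (.x (.y c5 c6) (.y (.x c7 c8) c9)))
  (.y (.x c5 (.y c5 c7)) (.x (.y (.x (.y c7 c9) c6) c9) (.y (.x c6 c9) c9)))) (.x c9 (.y c9
  c10))) (.y (.x (.y c11 c9) (.y (.x c12 c4) c9)) (.x (.y c9 c10) c10)))) (.y (.x (.y c5 (.x c13
  (.y c5 (.x c13 c3)))) (.y c5 (.x c3 (.y (.x c3 (.y c5 c9)) c9)))) (.x (.y c9 (.x c10 c4)) (.y
  (.x (.y c9 c10) c3) (.x c13 c3)))))) (.y (.x (.y (.x (.y (.x (.y c2 c5) (.y c14 c14)) c5) c5)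
  c5) (.y c5 (.x c5 (.y c5 (.x c5 c1))))) (.x (.y (.x (.y (.x c5 (.y c5 (.x c5 (.y c7 (.x c6
  c9))))) (.x (.y (.x (.y (.x c5 c6) c9) c9) c9) c9)) (.y (.x (.y c5 (.x (.y c5 c9) c15)) (.y c5
  c9)) (.x c9 (.y c15 c10)))) (.x (.y c10 (.x c3 (.y (.x (.y c16 c3) c16) c17))) (.y (.x (.y c10
  (.x (.y c10 (.x c18 (.y c18 c19))) (.y c10 (.x (.y c18 c19) c19)))) (.y c10 (.x (.y c18 (.x
  c19 (.y c19 (.x (.y c19 c17) c20)))) c20))) (.x (.y (.x (.y (.x c16 (.y c19 c17)) c17) (.y (.x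
  (.y (.x c19 (.y c19 c17)) c17) (.y (.x (.y c19 c17) c17) c17)) c17)) c17) c17)))) (.y (.x (.y
  (.x (.y c21 c9) (.y (.x c21 c9) c21)) (.x (.y c9 c10) c10)) (.y (.x c9 (.y c9 c10)) (.x (.y
  c10 c21) (.y c10 c22)))) (.x (.y (.x c15 (.y (.x (.y (.x c10 c21) c19) c21) (.x c15 c17)))
  c17) (.y (.x c21 (.y (.x c21 c22) c21)) c17))))))) (.y c1 (.x (.y c1 (.x (.y (.x (.y c23 (.x
  (.y (.x c10 c23) (.x (.y (.x c22 c24) (.x c22 (.y c19 c22))) c24)) c23)) c1) c17) (.y c1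
  c17))) c1)))) (.y (.x c2 c0) (.x (.y (.x c1 (.y (.x c1 c5) (.x c1 (.y c5 (.x c1 (.y (.x (.y
  c10 (.x c10 c25)) (.y c10 (.x (.y c10 c26) c27))) (.x c1 (.y (.x (.y (.x c25 (.y c27 c25))
  c25) (.y c27 c28)) c29)))))))) (.x c1 (.y (.x c1 (.y (.x c1 c17) c1)) c1))) (.y (.x (.y c5 (.x
  (.y c27 (.x c27 c27)) c0)) c0) (.x (.y (.x (.y (.x c17 c27) c30) c27) (.x (.y c31 c32) c32))
  (.y c0 c32))))))) (.y (.x c0 (.y c0 c2)) (.x c0 c0)))) (.y (.x (.y (.x (.y c33 (.x (.y c0 (.x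
  c0 (.y c0 (.x c0 (.y c34 c34))))) (.y (.x (.y c33 c34) (.y c33 c34)) (.x (.y c34 (.x c34 c34))
  c34)))) (.y c33 (.x (.y c33 c35) c33))) (.x (.y (.x (.y (.x c0 (.y (.x (.y c36 c37) (.y (.x
  (.y (.x (.y (.x c36 (.y (.x c36 (.y c34 (.x c36 (.y c34 c36)))) c36)) c36) (.y (.x (.y (.x (.y
  c34 (.x (.y c34 (.x c38 c38)) c38)) c39) c37) c40) c37)) c37) c37) c37)) (.x (.y (.x c41 c42)
  c42) (.y c42 (.x c42 c36))))) (.x (.y (.x c0 (.y (.x c42 c43) c43)) (.x c0 c44)) (.y c43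
  c44))) (.y (.x (.y (.x c37 (.y c37 c42)) (.x (.y c42 c43) (.y c42 c43))) (.y (.x (.y c37 c42)
  c42) (.x c43 c43))) (.x (.y c45 c44) (.y c44 (.x (.y c44 c46) c46))))) (.x c47 (.y (.x c47
  c47) c47))) (.y (.x (.y (.x (.y (.x c34 c37) c45) c35) (.x (.y c44 (.x c46 (.y (.x c46 c46)
  c46))) (.y c35 (.x (.y c35 c1) c35)))) (.y (.x c35 c48) c35)) (.x (.y (.x (.y c47 c47) c47)
  (.x c48 (.y c48 c48))) (.y c48 c2))))) (.y (.x (.y (.x c33 (.y c49 (.x (.y c33 (.x c33 (.y c49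
  (.x c33 c49)))) c49))) (.x c33 (.y (.x (.y (.x c33 (.y c50 c37)) (.x c33 c42)) (.y (.x (.y c49
  (.x (.y c37 c42) c49)) c49) (.x (.y c42 c45) (.y c49 c45)))) (.x c45 (.y c45 c44))))) (.y (.x
  c49 (.y (.x (.y (.x c49 (.y (.x (.y (.x (.y (.x c49 c51) c49) (.y c39 (.x (.y c39 c52) c53)))
  (.x c52 (.y (.x c52 (.y (.x c52 c53) c52)) c52))) (.y c53 (.x (.y c53 (.x (.y (.x c52 c53)
  c52) c53)) c53))) (.x c49 (.y (.x (.y (.x c52 (.y (.x c52 c53) c52)) c52) (.y c53 (.x (.y (.x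
  c52 c53) c52) c53))) (.x c52 (.y (.x c52 (.y (.x c52 c53) c52)) c52)))))) (.x c49 (.y (.x c49
  (.y (.x c49 c52) c49)) c49))) (.y (.x (.y c53 (.x (.y c53 (.x (.y c53 c54) c53)) c53)) (.y (.x
  (.y (.x c53 (.y (.x c53 (.y (.x c53 c55) (.x c53 c56))) c53)) c53) (.y (.x (.y (.x (.y (.x c55
  (.y (.x (.y (.x c55 c57) c57) c57) c57)) c55) c57) (.x (.y (.x c56 c55) c56) (.y c57 (.x c55
  c57)))) c57) (.x (.y (.x c53 (.y (.x c56 c57) c56)) (.x c53 (.y (.x c53 c56) c53))) (.y c57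
  (.x (.y (.x (.y c55 c56) c57) c58) c57))))) (.x c53 (.y (.x c53 (.y c54 (.x c53 c59))) c53))))
  (.x (.y (.x (.y (.x (.y (.x c52 c52) c59) (.y c59 c34)) c52) (.y c53 c60)) (.x (.y c52 c49)
  (.y (.x c52 (.y c53 (.x c52 c53))) c52))) (.y c53 (.x (.y c53 c61) c53))))) (.x c49 (.y (.x
  (.y (.x c61 c52) c49) (.y (.x (.y c62 c52) c53) c52)) (.x c49 c52))))) (.x (.y c49 (.x (.y c45
  (.x (.y c45 (.x c44 (.y c44 (.x c44 (.y c44 (.x c63 (.y c63 (.x c63 c64)))))))) (.y c49 (.x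
  (.y c49 (.x (.y c44 c64) c64)) c64)))) c49)) c49))) (.x (.y (.x (.y c33 c48) (.y (.x (.y c33
  c33) (.y (.x (.y (.x c44 (.y c44 (.x (.y c44 (.x c63 c65)) c65))) (.x (.y (.x c33 (.y c66
  c33)) c33) (.y (.x (.y (.x (.y (.x c66 (.y c65 (.x (.y c65 c66) c65))) (.x c66 (.y c67 c66)))
  c65) (.x c66 (.y (.x (.y c65 c66) c65) (.x c66 c65)))) c65) (.x c64 c1)))) (.y (.x c65 (.y (.x
  c65 c68) c65)) c65)) (.x c1 (.y c1 c48)))) c48)) (.x c48 c48)) (.y (.x (.y (.x (.y (.x (.y (.x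
  (.y c69 c69) (.y (.x c69 (.y (.x (.y (.x c69 c64) c69) c64) c69)) c69)) c1) (.y c64 c1)) (.x
  c65 c69)) (.y (.x (.y c64 c1) c49) (.x (.y c69 c69) c70))) c48) (.y c70 c70)) c2)))) (.x (.y
  (.x (.y (.x c47 c2) (.x (.y c2 (.x c2 (.y c2 c5))) (.y c2 (.x c47 c47)))) (.y c2 (.x (.y c2
  (.x (.y (.x c5 (.y c5 (.x c5 (.y c5 c9)))) (.x c47 c71)) (.y (.x (.y c5 (.x (.y c5 (.x c72 (.y
  c9 c72))) (.y c9 (.x c10 (.y c10 (.x c10 (.y c10 c18))))))) (.y (.x c5 (.y c5 (.x c5 c9))) (.x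
  (.y (.x (.y c9 c10) (.y c9 c10)) (.x (.y c10 (.x c18 (.y c18 c73))) (.y (.x c10 (.y c10 c18))
  (.x (.y c18 (.x (.y c19 (.x c73 c74)) c74)) (.y (.x c74 (.y c19 (.x c74 (.y c19 (.x c74 (.y
  c75 c76)))))) c74))))) (.y c10 (.x (.y (.x (.y c10 c75) (.y c18 c75)) (.x (.y c77 (.x (.y (.x
  (.y (.x (.y (.x c76 c77) c76) c77) (.x c76 c28)) c77) c28) c77)) (.y (.x (.y (.x (.y c75 (.x
  c77 c78)) (.y c75 c78)) (.x c77 c79)) c79) c28))) c79))))) (.x (.y (.x (.y (.x c71 c72) c71)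
  (.y (.x (.y (.x c72 c80) c72) c80) (.x c72 (.y c80 c72)))) (.x c71 (.y c72 (.x c71 c72)))) (.y
  (.x (.y (.x (.y (.x (.y (.x c80 (.y (.x c80 (.y c73 (.x c80 c73))) c80)) c80) (.y c73 c29))
  c29) (.y (.x (.y (.x c73 c28) c73) c29) (.x c29 (.y c29 (.x c73 (.y c29 c79)))))) (.x c80 (.y
  (.x c80 c17) c80))) (.y (.x (.y c29 c79) c79) c79)) (.x (.y c80 c79) c79)))))) (.y (.x c2 (.y
  c2 (.x c79 (.y c2 c79)))) (.x (.y (.x (.y c79 c79) c79) c79) c79))))) (.x (.y (.x (.y (.x c0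
  c81) (.x c0 c81)) (.y (.x (.y c82 c82) c82) c81)) (.x c0 (.y c81 (.x (.y (.x c0 c83) c0) (.y
  c81 (.x (.y c83 (.x (.y (.x c0 c83) c0) (.y c83 (.x (.y c83 (.x c0 c83)) c83)))) c81)))))) (.y
  (.x (.y (.x (.y (.x c82 (.y (.x c82 c71) (.x c82 c79))) c82) (.y (.x c71 c79) (.x c79 c71)))
  c32) (.y (.x (.y c79 c32) c79) c32)) (.x (.y c82 (.x (.y (.x c81 c82) (.x c81 c82)) c82)) (.y
  (.x (.y (.x c82 (.y c71 (.x c82 c71))) c82) (.y (.x (.y c84 c71) c35) c35)) (.x c82 c35))))))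
  (.y (.x (.y c2 (.x (.y c35 c35) c35)) (.y (.x (.y c2 (.x c35 c33)) (.y c2 (.x (.y c2 (.x c33
  (.y c2 (.x c35 (.y (.x c85 (.y c2 (.x c85 (.y (.x c85 (.y c86 (.x c86 (.y c86 c35)))) c85))))
  c35))))) (.y c2 (.x (.y (.x c2 (.y c2 c87)) (.x (.y (.x (.y (.x (.y c17 (.x c2 c88)) c88) (.x
  (.y (.x (.y c86 (.x (.y c86 (.x c89 c89)) c89)) (.y c86 c89)) (.x c89 (.y c89 (.x c89 c90))))
  (.y c89 (.x (.y c89 c90) c88)))) c88) (.x (.y (.x c35 (.y (.x (.y (.x c90 (.y c90 c91)) c91)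
  (.y (.x (.y c90 c91) c88) c91)) c35)) c35) (.y (.x (.y c88 c92) c92) c92))) (.y c87 c92))) (.y
  (.x (.y c2 (.x (.y c2 c87) (.y c2 (.x (.y c2 (.x c87 (.y c89 c90))) (.y c89 (.x c90 c93))))))
  (.y c2 (.x (.y c2 (.x (.y (.x (.y c89 (.x c89 c90)) (.y c89 c90)) c92) (.y c66 c92))) (.y (.x
  c66 (.y c89 c92)) c92)))) (.x (.y (.x c87 (.y (.x c87 c92) c92)) c92) (.y c92 c94)))))))) (.x
  c35 (.y (.x c35 (.y (.x (.y c94 c94) c94) c35)) c35)))) (.x (.y (.x (.y c35 c35) c35) c35)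
  c35))))) (.x (.y (.x (.y (.x (.y (.x (.y (.x (.y (.x (.y (.x (.y (.x (.y (.x c57 (.y (.x c57
  (.y (.x (.y (.x c95 c95) c95) c95) c95)) c95)) c57) c95) (.x c57 c95)) (.y (.x (.y (.x (.y c96
  c95) (.y c97 (.x (.y c98 c96) c98))) (.x c95 (.y (.x c96 c98) (.x c95 c96)))) (.y c97 (.x (.y
  c97 c98) c97))) (.x c95 (.y c58 (.x c95 (.y c99 c96)))))) (.x (.y (.x (.y c57 c59) c57) (.x
  (.y c34 c100) (.y c57 c100))) (.y c95 (.x c57 c100)))) (.y c97 (.x (.y (.x (.y c59 c101) c97)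
  c60) c97))) (.x (.y (.x (.y c60 (.x c53 (.y (.x c53 (.y (.x (.y c60 c53) c56) (.x c53 (.y (.x
  c53 c56) c102)))) c53))) (.y c57 (.x (.y (.x (.y (.x (.y c55 c56) c57) c102) c57) (.x (.y (.x
  (.y c102 (.x c53 c56)) c56) c103) (.y c55 c103))) c57))) (.x c53 (.y (.x (.y c61 (.x c61 (.y
  c61 c53))) (.y c61 (.x (.y c61 c62) (.y (.x c55 c57) c62)))) (.x c62 (.y c62 (.x c53 (.y c62
  c104))))))) (.y (.x (.y (.x c95 (.y (.x c95 (.y c60 c95)) c95)) (.x c57 c95)) (.y (.x (.y c97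
  (.x (.y c102 (.x c95 c103)) c97)) c97) (.x (.y (.x c95 c97) c95) c97))) (.x (.y (.x c57 (.y
  c95 c62)) (.x (.y c62 c105) c57)) (.y (.x c95 (.y c62 (.x c95 (.y c97 c105)))) (.x (.y c105
  c57) c95)))))) (.y (.x (.y (.x c97 (.y (.x c97 c59) c97)) c97) (.y (.x (.y c106 c100) c106)
  (.x (.y (.x c97 (.y c60 c97)) c97) (.y c106 (.x (.y c106 (.x c97 c106)) c106))))) (.x (.y c97
  (.x (.y c97 (.x (.y c97 c45) c97)) c97)) (.y (.x c97 (.y (.x c97 (.y c106 c107)) c107))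
  c97)))) (.x (.y (.x (.y c53 c53) (.y (.x (.y (.x (.y (.x (.y (.x c105 c56) c108) (.y (.x c56
  c55) c108)) c37) (.y (.x c108 c57) c45)) c45) (.y c37 c45)) c45)) c45) c45)) (.y (.x (.y c106
  (.x (.y c106 c45) c106)) c106) c45)) (.x (.y (.x c45 (.y c45 (.x c45 (.y c45 (.x c53 (.y c45
  c53)))))) (.x (.y (.x c49 (.y c109 c49)) c49) (.y (.x (.y c110 c1) (.y (.x (.y c53 c1) c53)
  c1)) c2))) (.y (.x (.y c45 (.x (.y c45 (.x (.y c45 (.x c111 (.y c45 (.x c111 (.y (.x c111 c56)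
  c1))))) (.y c45 (.x (.y (.x c45 c57) (.x (.y c112 c1) c57)) c57)))) c97)) (.y c45 (.x c97
  c97))) (.x (.y (.x (.y (.x c1 c1) c2) c2) c2) c2)))) (.y c45 (.x (.y c106 c2) c106))) (.x (.y
  c2 c2) c2)) (.y (.x (.y c45 c2) c2) (.x c2 (.y c2 c2)))) (.x (.y (.x (.y (.x (.y c2 (.x (.y c2
  (.x (.y (.x (.y c2 (.x (.y (.x (.y c2 c92) c92) c94) c92)) (.y (.x c65 (.y c92 c94)) c94))
  c94) (.y c92 c94))) (.y (.x (.y c92 c92) c92) c94))) (.y c49 c94)) (.x (.y (.x (.y (.x (.y c94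
  c32) (.y c94 c32)) c32) (.y (.x (.y c94 c32) c32) c32)) (.x c35 (.y c32 c35))) (.y c32 (.x (.y
  c32 c35) (.y (.x (.y c32 (.x (.y c32 c84) c113)) (.y c49 c84)) (.x c35 (.y c113 c35))))))) (.y
  (.x (.y (.x c94 c94) c94) (.y (.x (.y c2 c94) (.y c97 c94)) (.x c32 c32))) (.x c49 (.y (.x (.y
  c32 (.x c94 c114)) (.y (.x (.y c32 (.x c114 c115)) (.y c32 (.x (.y c32 c84) (.y c32 c84))))
  (.x c114 (.y c84 c114)))) (.x c49 c114))))) (.x c35 (.y (.x c35 c49) c35))) (.y (.x (.y (.x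
  (.y (.x c97 c106) (.x c32 c106)) c106) (.x (.y (.x (.y (.x (.y c32 c84) (.y c116 c84)) (.x (.y
  (.x (.y c84 (.x c84 (.y c84 c117))) (.y c84 c117)) (.x c114 (.y c118 c114))) (.y (.x (.y c84
  (.x c117 (.y c117 c118))) (.y (.x (.y c84 c117) c117) (.x (.y c117 c118) (.y (.x (.y c117
  c118) c118) c118)))) (.x (.y (.x c118 (.y c118 (.x c53 (.y c118 c53)))) c114) (.y (.x (.y c119
  (.x (.y c119 c120) c119)) (.y (.x (.y c118 c119) (.y (.x c118 (.y c118 (.x (.y c118 (.x c118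
  c121)) (.y c118 c121)))) c121)) (.x c120 (.y c120 c119)))) (.x c114 (.y c119 c114))))))) (.y
  (.x (.y c97 (.x c84 c106)) c106) (.x (.y (.x (.y (.x c117 c95) (.x (.y c118 (.x c118 c57))
  c57)) (.y c97 c95)) (.x (.y (.x (.y (.x (.y c55 c121) c55) (.x (.y c120 c122) (.y c122 (.x (.y
  c122 (.x (.y c122 (.x c123 c124)) c124)) c124)))) (.y c57 (.x c55 c57))) (.x (.y (.x (.y (.x
  (.y (.x c119 (.y c123 c119)) c119) (.y (.x (.y (.x c125 (.y c123 c125)) c126) (.y (.x (.y c123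
  c126) (.y (.x (.y c123 c126) c127) c126)) c126)) c126)) (.x c119 (.y c126 c119))) (.y c126 (.x
  (.y (.x (.y c126 c125) (.y c126 c114)) c114) (.y (.x (.y (.x (.y c126 c128) c124) c128) c124)
  c114)))) c114) (.y (.x c124 (.y c57 c55)) c114))) (.y (.x c57 c95) c57))) (.y c106 (.x (.y
  c106 (.x c95 c106)) c106))))) (.x c114 (.y (.x c114 c114) c114))) (.y c106 (.x (.y c106 (.x
  c114 c106)) c106)))) (.y (.x c106 c116) c106)) (.x (.y (.x (.y c35 c35) c35) (.x c35 (.y c35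
  (.x c35 (.y c35 (.x (.y c35 c129) c129)))))) (.y c106 (.x (.y (.x c35 c106) (.x (.y (.x (.y
  c35 (.x c35 (.y c35 (.x (.y c35 (.x c35 (.y c35 (.x (.y c35 (.x c35 (.y c35 (.x c130 c131))))
  (.y c132 (.x (.y (.x c133 c133) c133) (.y c106 c131))))))) c106)))) c106) (.x (.y (.x (.y (.x
  c134 (.y (.x c35 (.y c35 (.x c135 (.y c131 c136)))) (.x c134 c137))) c134) (.y (.x (.y (.x (.y
  (.x (.y c130 c131) c130) (.x c136 (.y c136 c137))) (.y (.x c131 (.y c131 c136)) c137)) c137)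
  (.y (.x (.y (.x (.y c131 c137) c106) c137) c106) c137)) c138)) (.x c129 (.y (.x c138 (.y c138
  (.x c134 (.y c138 c134)))) c134))) (.y (.x (.y c106 c138) c106) (.x (.y (.x (.y c138 (.x (.y
  (.x c138 c130) c139) c139)) c106) (.x (.y c139 c134) c140)) c106)))) c106)) c106)))))) (.y (.x
  (.y c2 (.x c2 c2)) c2) (.x (.y (.x (.y (.x c116 (.y c116 (.x c116 (.y c116 c116)))) (.x (.y
  (.x c106 c116) c106) (.y (.x c116 (.y c116 c116)) c35))) (.y (.x (.y (.x (.y (.x c116 c141)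
  c142) (.y (.x c141 (.y c2 (.x c141 c2))) c141)) (.x (.y c142 (.x c143 c142)) (.y c144 c142)))
  (.y (.x (.y c2 (.x (.y c145 (.x c141 c145)) (.y (.x c145 c146) c145))) (.y c2 (.x c146 (.y
  c147 (.x c146 (.y (.x (.y c147 c146) (.y (.x c147 (.y c147 (.x (.y c147 c148) c2))) (.x c146
  (.y (.x (.y (.x (.y c148 c146) c149) c150) c150) c150)))) c146)))))) (.x (.y (.x c141 c145)
  (.x c144 (.y c141 c141))) (.y (.x (.y c146 c150) c146) (.x c145 c146))))) (.x (.y (.x (.y (.x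
  c143 (.y c143 (.x c143 (.y c143 c143)))) (.x c45 c35)) (.y c142 c35)) c35) (.y (.x (.y c144
  c142) (.y (.x (.y c149 c146) c146) c146)) (.x c35 c144))))) (.x (.y (.x c106 c151) c106) (.y
  (.x (.y c151 c151) (.y c152 (.x (.y c152 (.x (.y c151 c151) c45)) (.y c152 (.x (.y (.x (.y
  c152 c140) (.y (.x c152 (.y c152 c140)) (.x c140 (.y c140 c153)))) c153) (.y (.x (.y c142 (.x
  (.y c140 c153) c153)) c142) (.x c153 (.y c153 (.x c153 c142))))))))) (.x (.y c151 c106) (.y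
  (.x (.y (.x c154 (.y c153 c154)) (.x c106 (.y c154 c155))) (.y (.x c45 (.y (.x c154 (.y c154
  (.x (.y c154 c154) (.y c154 (.x c156 (.y (.x c156 (.y c154 c156)) c156)))))) c156)) (.x c45
  c155))) c155))))) (.y (.x (.y (.x (.y (.x (.y c2 (.x (.y c2 c149) c149)) c2) (.x (.y (.x (.y
  c150 c149) c149) c149) c149)) (.y c2 (.x (.y c150 c149) c152))) (.x (.y c146 c152) (.y c152
  c152))) (.y c152 c152)) (.x (.y (.x (.y c152 (.x c142 c144)) (.y c152 (.x (.y (.x c145 (.y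
  c152 c145)) (.x c144 c145)) (.y (.x (.y c152 c146) (.y c152 c157)) (.x (.y (.x c145 c146)
  c155) c155))))) (.x (.y (.x (.y (.x (.y (.x (.y c154 (.x (.y c142 (.x (.y (.x (.y c142 (.x
  c156 c142)) c142) (.x c156 c142)) c142)) c142)) c142) (.x (.y (.x c156 c158) c156) c155))
  c142) c155) c142) c155) c155)) (.y (.x (.y c152 (.x (.y (.x (.y c152 (.x (.y c152 c155) (.y
  c152 c155))) (.y c152 c155)) c155) (.y c152 c155))) (.y c152 c155)) (.x (.y c155 (.x (.y c155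
  (.x c144 (.y c155 c145))) (.y c155 (.x (.y c155 c159) (.y (.x c160 c160) (.x (.y c159 c161)
  (.y c160 c161))))))) (.y c155 (.x (.y (.x c155 (.y c155 (.x c155 (.y c155 (.x c155 c159)))))
  (.x (.y (.x c162 (.y c159 (.x (.y c159 (.x c162 c161)) c163))) (.x (.y c162 c161) c161)) (.y
  (.x (.y c159 c164) (.y (.x (.y c159 c149) (.y (.x c159 c165) c161)) c161)) c161))) (.y (.x (.y
  c155 (.x (.y c155 (.x c159 (.y c159 (.x c159 (.y c159 (.x c159 c161)))))) (.y c155 (.x (.y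
  c159 (.x (.y c159 c161) (.y (.x c159 c161) c161))) (.y (.x c159 (.y c159 (.x c159 c161)))
  c161))))) (.y c155 (.x (.y (.x c159 (.y c159 (.x c159 (.y c159 (.x c159 c161))))) (.x (.y (.x
  (.y c159 c161) (.y (.x c159 c161) c161)) c161) c161)) (.y (.x (.y c159 (.x (.y c159 c161) (.y
  c150 c161))) (.y (.x c159 c166) c161)) c161)))) (.x (.y (.x (.y (.x (.y c167 c161) c161) c161)
  c161) (.x c161 (.y c161 (.x (.y c165 (.x c168 c165)) (.y c161 c167))))) (.y c161 (.x (.y c161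
  (.x (.y (.x c161 (.y c161 (.x c161 c169))) (.x c170 (.y (.x (.y c169 c171) c172) c171))) (.y
  (.x (.y c161 c169) (.y c161 (.x (.y c169 c172) c172))) c171))) (.y (.x c161 (.y c161 (.x (.y
  c161 (.x c161 c169)) (.y c161 (.x c169 (.y c169 c172)))))) (.x (.y (.x (.y c169 (.x c172
  c171)) (.y (.x (.y c169 c172) (.y c169 c172)) c171)) c171) (.y (.x (.y c172 c171) c171)
  c171))))))))))))))))

theorem ok481 : okF 8 15 (-8) t481 = true := by decide +kernel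

theorem all481 : AllB 481 := allB (D := 481) (thm_of_ok ok481)
  (l :=
    [(28292, -4935, -12257, 2138), (48032, 22947, 110869, 52967), (644, -337, -279, 146),
     (-486573, 216803, 210799, -93926), (-398651, -304725, -920179, -703376)])
  (l' :=
    [(1, 0), (7, 2), (2797, 1069), (-73, -88), (-1, -1), (161, 249)])
  (by decide +kernel)

/-- a cover for the form `(7, 17, -7)` of discriminant `485` -/
def t485 : CT :=
  let c0 : CT := .l 1 0 0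
  let c1 : CT := .l 4 1 1
  let c2 : CT := .l 2 0 1
  let c3 : CT := .l 1 1 0
  let c4 : CT := .l 3 1 1
  let c5 : CT := .l 3 1 0
  let c6 : CT := .l 2 1 0
  let c7 : CT := .l 4 1 0
  let c8 : CT := .l 6 2 1
  let c9 : CT := .l 1 1 2
  let c10 : CT := .l 7 2 1
  let c11 : CT := .l 1 0 (-1)
  let c12 : CT := .l 2 1 2
  let c13 : CT := .l 6 2 3
  let c14 : CT := .l 4 1 2
  let c15 : CT := .l 2 1 1
  let c16 : CT := .l 4 2 1
  let c17 : CT := .l 3 2 1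
  let c18 : CT := .l 1 1 1
  let c19 : CT := .l 6 3 2
  let c20 : CT := .l 4 3 2
  let c21 : CT := .l 4 3 1
  let c22 : CT := .l 1 0 (-2)
  let c23 : CT := .l 7 6 2
  let c24 : CT := .l 6 5 2
  let c25 : CT := .l 3 3 1
  let c26 : CT := .l 1 2 0
  let c27 : CT := .l 2 2 1
  let c28 : CT := .l 1 (-1) 1
  .x (.x (.y (.x c0 (.y c0 (.x c0 (.y (.x c0 (.y c0 c0)) (.x c0 c1))))) (.x (.y (.x c0 c0) (.x
  c2 (.y c0 c2))) (.y (.x c0 (.y c3 (.x c0 (.y (.x c0 c4) c4)))) (.x c0 (.y (.x c0 (.y c4 c2))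
  (.x c0 c0)))))) (.y (.x (.y (.x (.y c5 (.x (.y c0 (.x c4 c6)) (.y c6 (.x c7 (.y c6 c8))))) (.y
  c5 (.x (.y c6 (.x c9 (.y c6 c9))) c5))) (.x (.y (.x (.y c4 (.x (.y c4 c4) c4)) (.y c10 (.x c10
  c10))) (.x c1 c4)) (.y (.x c8 (.y (.x c8 c5) c8)) c3))) (.y (.x (.y c6 (.x c11 (.y c6 (.x c11
  c6)))) c6) (.x (.y (.x (.y c5 c5) c11) c3) c3))) (.x (.y (.x (.y (.x c3 c4) c4) c4) (.x (.y
  (.x c2 (.y c4 (.x c12 (.y c4 c13)))) (.x c14 (.y (.x (.y (.x c14 c14) c14) c12) c14))) (.y (.x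
  (.y c4 (.x c4 c4)) c4) (.x (.y (.x c13 (.y (.x c4 c4) c14)) c13) (.y c4 c13))))) (.y (.x (.y
  (.x (.y c3 c9) c15) (.x c4 c15)) (.y (.x c11 c16) (.x c15 c15))) (.x (.y (.x c4 c15) c15)
  c15))))) (.x (.y (.x (.y (.x c6 (.y c6 c3)) (.x (.y c3 (.x c16 c3)) (.y c3 (.x c6 (.y c3
  c17))))) (.y (.x (.y c3 c3) c3) (.x (.y c3 (.x (.y c3 c17) (.y c3 (.x c17 (.y c3 c17))))) (.y
  c3 c18)))) (.x (.y (.x (.y (.x c16 (.y c16 (.x c16 (.y (.x c16 c2) c2)))) (.x (.y c19 c19) (.y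
  (.x c19 (.y c19 (.x c16 c17))) c17))) (.y (.x (.y c6 (.x (.y c2 c19) c6)) c17) (.x (.y (.x (.y
  c17 c17) c17) c17) c17))) (.x c15 (.y (.x (.y c17 c15) (.y c17 c15)) c15))) (.y (.x c17 (.y
  (.x c17 c18) c17)) (.x (.y (.x (.y c17 c15) c17) (.x c15 (.y c15 c15))) (.y (.x c17 (.y c18
  c15)) (.x (.y c17 c20) c20)))))) (.y (.x (.y c3 (.x (.y c3 (.x c21 (.y c3 c21))) (.y c3 (.x c3
  c3)))) c3) (.x (.y (.x (.y (.x c21 (.y c21 c17)) c18) (.y (.x (.y (.x (.y c17 c17) c17) (.x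
  c22 c23)) (.y c17 c23)) (.x c24 (.y c24 (.x c24 c15))))) (.x c18 (.y (.x c18 (.y c25 c26))
  c18))) (.y (.x (.y (.x (.y (.x c27 c27) (.x (.y c23 c24) c27)) c27) (.x (.y (.x c28 c27) c25)
  c27)) (.y c25 c25)) (.x (.y (.x (.y c26 (.x c26 c27)) c27) c27) c27)))))

theorem ok485 : okF 7 17 (-7) t485 = true := by decide +kernel

theorem all485 : AllB 485 := allB (D := 485) (thm_of_ok ok485)
  (l :=
    [(2, 1, 5, 3), (-1, 0, -1, -1)])
  (l' :=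
    [(1, 0), (-1, -1)])
  (by decide +kernel)

/-- a cover for the form `(2, 20, -11)` of discriminant `488` -/
def t488 : CT :=
  let c0 : CT := .l 1 0 0
  let c1 : CT := .l 1 1 0
  let c2 : CT := .l 7 2 0
  let c3 : CT := .l 1 5 9
  let c4 : CT := .l 3 1 0
  let c5 : CT := .l 1 2 0
  let c6 : CT := .l 6 2 1
  let c7 : CT := .l 6 3 1
  let c8 : CT := .l 5 1 1
  let c9 : CT := .l 1 13 (-1)
  let c10 : CT := .l 1 (-8) 1
  let c11 : CT := .l 4 1 1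
  let c12 : CT := .l 2 1 1
  let c13 : CT := .l 6 4 1
  let c14 : CT := .l 4 (-1) 1
  let c15 : CT := .l 2 (-1) (-3)
  let c16 : CT := .l 4 0 1
  let c17 : CT := .l 1 (-29) 3
  let c18 : CT := .l 4 2 1
  let c19 : CT := .l 1 3 0
  let c20 : CT := .l 1 1 1
  let c21 : CT := .l 7 5 1
  let c22 : CT := .l 1 0 (-1)
  let c23 : CT := .l 5 4 1
  let c24 : CT := .l 4 3 1
  let c25 : CT := .l 6 5 1
  let c26 : CT := .l 5 5 1
  let c27 : CT := .l 3 3 1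
  let c28 : CT := .l 3 0 1
  let c29 : CT := .l 3 1 1
  let c30 : CT := .l 3 2 1
  let c31 : CT := .l 5 0 2
  let c32 : CT := .l 2 0 1
  let c33 : CT := .l 1 (-9) (-17)
  let c34 : CT := .l 6 (-5) 3
  let c35 : CT := .l 7 0 3
  let c36 : CT := .l 5 2 2
  let c37 : CT := .l 7 2 3
  let c38 : CT := .l 2 2 1
  let c39 : CT := .l 1 4 0
  let c40 : CT := .l 4 4 1
  let c41 : CT := .l 5 3 2
  let c42 : CT := .l 2 (-1) 1
  let c43 : CT := .l 3 4 1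
  let c44 : CT := .l 1 (-1) (-3)
  let c45 : CT := .l 1 5 0
  let c46 : CT := .l 3 3 2
  let c47 : CT := .l 7 5 3
  let c48 : CT := .l 6 5 3
  let c49 : CT := .l 4 6 7
  let c50 : CT := .l 6 3 (-1)
  let c51 : CT := .l 1 (-13) (-26)
  let c52 : CT := .l 4 5 5
  let c53 : CT := .l 5 5 2
  let c54 : CT := .l 5 5 4
  let c55 : CT := .l 3 7 10
  let c56 : CT := .l 1 10 18
  .y (.x (.y (.x c0 (.y (.x c0 c1) (.x (.y c1 (.x c1 c1)) (.y c1 c1)))) (.x c0 (.y (.x (.y (.x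
  c0 (.y (.x c0 (.y (.x (.y (.x c0 (.y c1 (.x c0 (.y c1 c2)))) (.x c0 c2)) (.y (.x (.y c1 c3)
  c4) c5)) c5)) c5)) (.x c0 c6)) (.y (.x (.y (.x c4 c5) c5) c5) (.x (.y c5 (.x (.y c7 c8) c4))
  (.y c7 c7)))) (.x (.y (.x (.y c8 (.x c0 (.y (.x c8 (.y (.x c8 c9) c10)) c11))) (.y (.x c12 c6)
  (.x (.y c12 (.x (.y c12 c11) c12)) c12))) (.x c11 (.y c11 c11))) (.y (.x (.y (.x (.y (.x (.y
  c8 c13) (.y c14 c13)) (.x (.y (.x c6 c15) c10) (.y c9 c10))) (.y (.x (.y c13 (.x c13 c4)) c4)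
  (.x (.y (.x c9 c10) c10) c10))) (.x (.y (.x (.y c10 c16) (.y (.x c10 (.y c10 (.x c17 c16)))
  c16)) (.x c16 (.y c16 (.x c16 (.y c16 (.x c16 (.y c16 (.x c15 (.y c16 c11))))))))) (.y (.x (.y
  (.x (.y c10 c16) (.y (.x c10 c17) c16)) c16) c4) (.x (.y c16 (.x (.y c16 c3) c18)) c18))))
  c18) (.x (.y (.x (.y c11 c11) (.y (.x c11 c18) c18)) c19) c18)))))) (.y (.x (.y c1 c1) c1) (.x
  (.y (.x (.y c5 (.x (.y c7 (.x c7 c20)) (.y (.x c20 c13) (.x c20 c13)))) (.y (.x c5 c21) (.x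
  c13 (.y c13 (.x c13 c21))))) (.x (.y (.x (.y (.x c7 c20) (.x c18 (.y c20 c18))) c20) (.x c18
  c20)) (.y (.x (.y (.x c22 c13) (.x c22 c23)) c24) (.x (.y c19 (.x c22 c24)) c24)))) (.y (.x
  (.y c1 (.x (.y c23 c23) c25)) c1) (.x (.y (.x c23 c19) (.x c24 (.y c24 c24))) (.y (.x (.y c19
  c26) c26) (.x (.y (.x (.y c24 c24) c27) (.x c24 c27)) c1))))))) (.x (.y (.x (.y (.x (.y c0 (.x
  c16 c0)) c0) (.x (.y c28 (.x c28 (.y c28 (.x c28 c0)))) c0)) (.y (.x (.y (.x c11 (.y c19 c29))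
  c29) (.y (.x (.y c18 c18) c18) (.x c12 (.y (.x c28 c18) c29)))) (.x c29 (.y c29 (.x c29 (.y
  c30 c12)))))) (.x (.y (.x (.y (.x c28 (.y (.x c28 c0) (.x c28 (.y c0 (.x c31 c0))))) (.x c32
  (.y (.x c28 (.y (.x (.y (.x (.y c31 (.x c31 (.y c31 c33))) c0) (.x (.y (.x c32 (.y (.x c32
  c33) c32)) c32) (.y (.x c34 c0) c35))) c0) c35)) c32))) c0) (.x c32 (.y c32 c32))) (.y (.x (.y
  (.x (.y (.x c0 c29) c0) c29) (.x c0 (.y c36 (.x c37 c29)))) c12) (.x (.y (.x c0 (.y (.x c32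
  c32) c32)) (.x c32 c12)) c12)))) (.y (.x (.y (.x (.y (.x c18 (.y c20 (.x c20 c30))) (.x c18
  c30)) (.y (.x (.y c24 c30) c24) (.x c30 c30))) (.x (.y (.x (.y c29 c30) c30) (.x c30 c30))
  c30)) (.y (.x (.y (.x c24 (.y (.x c24 c38) (.x (.y c24 (.x c24 c23)) c38))) (.x c24 (.y (.x
  (.y c29 c39) c38) c30))) (.y (.x (.y c40 c40) c40) (.x c38 c27))) (.x (.y (.x c30 (.y c30
  c27)) (.x (.y c27 (.x c30 c27)) (.y c27 c27))) (.y c27 c27)))) (.x (.y (.x (.y (.x (.y (.x c12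
  c41) c41) c41) (.x c12 (.y c41 c12))) (.y (.x c20 c30) (.x (.y c20 (.x c41 c32)) c30))) (.x
  c12 (.y c12 c12))) (.y (.x (.y (.x (.y (.x (.y c42 c41) (.y c42 c43)) (.x (.y (.x c30 c44)
  c45) c45)) (.y (.x (.y c43 (.x c43 (.y c43 c45))) (.y c43 (.x c46 c45))) (.x (.y c45 (.x c45
  c24)) (.y c45 (.x (.y c46 c38) c46))))) (.x (.y (.x (.y (.x c30 (.y c45 c47)) c47) (.y (.x c48
  (.y (.x (.y c45 (.x (.y c45 (.x c48 c49)) (.y c45 (.x c50 c51)))) (.y c45 (.x (.y (.x c45 (.y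
  c45 (.x c45 c52))) c53) c52))) (.x (.y (.x c54 c53) c53) c53))) c53)) (.x c32 (.y c32 (.x c32
  c48)))) (.y (.x (.y (.x (.y (.x (.y (.x c45 c24) c53) c24) c53) c53) c53) c53) (.x (.y c32 (.x
  (.y c32 (.x (.y c32 (.x c48 (.y (.x c51 c55) c48))) (.y (.x (.y c32 (.x c32 c52)) c38) (.x (.y
  (.x (.y (.x c56 c52) c38) c52) c38) c38)))) c38)) c38)))) c38) (.x (.y (.x (.y c12 c12) (.y
  (.x c12 c38) c38)) (.x c12 c38)) c38)))))

theorem ok488 : okF 2 20 (-11) t488 = true := by decide +kernel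

theorem all488 : AllB 488 := allB (D := 488) (thm_of_ok ok488)
  (l :=
    [(-1, 0, -5, -1), (-1, -1, -10, -11)])
  (l' :=
    [(1, 0)])
  (by decide +kernel)

end Pool.Agent.Mukai
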