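import Pool.Agent.Work.MP_1e087a_ag.R4.Table

/-!
# Covers for the discriminants from 489 to 497
-/

namespace Pool.Agent.Mukai

/-- a cover for the form `(4, 19, -8)` of discriminant `489` -/
def t489 : CT :=
  let c0 : CT := .l 1 0 0
  let c1 : CT := .l 1 1 0
  let c2 : CT := .l 3 1 0
  let c3 : CT := .l 1 0 (-1)
  let c4 : CT := .l 5 2 0
  let c5 : CT := .l 9 4 0
  let c6 : CT := .l 17 8 0
  let c7 : CT := .l 33 16 0
  let c8 : CT := .l 35 17 0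
  let c9 : CT := .l 1 4 9
  let c10 : CT := .l 4 1 1
  let c11 : CT := .l 1 1 2
  let c12 : CT := .l 9 3 2
  let c13 : CT := .l 5 2 1
  let c14 : CT := .l 2 1 1
  let c15 : CT := .l 6 3 1
  let c16 : CT := .l 3 0 1
  let c17 : CT := .l 1 1 3
  let c18 : CT := .l 1 23 (-4)
  let c19 : CT := .l 10 (-1) 5
  let c20 : CT := .l 9 7 3
  let c21 : CT := .l 5 1 5
  let c22 : CT := .l 20 (-1) 7
  let c23 : CT := .l 87 1 42
  let c24 : CT := .l 6 (-21) 7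
  let c25 : CT := .l 10 (-11) 7
  let c26 : CT := .l 130 1 63
  let c27 : CT := .l 134 1 65
  let c28 : CT := .l 41 5 19
  let c29 : CT := .l 101 (-4) 50
  let c30 : CT := .l 82 5 39
  let c31 : CT := .l 23 (-4) 12
  let c32 : CT := .l 2 41 (-7)
  let c33 : CT := .l 3 (-13) 4
  let c34 : CT := .l 9 (-3) 5
  let c35 : CT := .l 4 5 1
  let c36 : CT := .l 1 (-18) 4
  let c37 : CT := .l 1 1791 (-348)
  let c38 : CT := .l 1 18 (-3)
  let c39 : CT := .l 13 1 6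
  let c40 : CT := .l 10 1 5
  let c41 : CT := .l 3 0 (-2)
  let c42 : CT := .l 17 5 5
  let c43 : CT := .l 1 7 (-1)
  let c44 : CT := .l 1 2 0
  let c45 : CT := .l 46 17 13
  let c46 : CT := .l 7 3 2
  let c47 : CT := .l 1 (-3) 1
  let c48 : CT := .l 19 6 7
  let c49 : CT := .l 8 3 3
  let c50 : CT := .l 20 9 5
  let c51 : CT := .l 1 (-3) (-8)
  let c52 : CT := .l 24 7 9
  let c53 : CT := .l 86 23 33
  let c54 : CT := .l 31 8 11
  let c55 : CT := .l 25 7 10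
  let c56 : CT := .l 3 0 (-1)
  let c57 : CT := .l 1 (-8) 2
  let c58 : CT := .l 3 2 1
  let c59 : CT := .l 17 5 7
  let c60 : CT := .l 12 3 5
  let c61 : CT := .l 10 3 5
  let c62 : CT := .l 23 6 10
  let c63 : CT := .l 4 15 (-1)
  let c64 : CT := .l 115 33 49
  let c65 : CT := .l 23 7 11
  let c66 : CT := .l 35 11 15
  let c67 : CT := .l 61 18 27
  let c68 : CT := .l 9 3 4
  let c69 : CT := .l 1 (-1) (-3)
  let c70 : CT := .l 41 14 17
  let c71 : CT := .l 12 5 7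
  let c72 : CT := .l 140 49 57
  let c73 : CT := .l 5 38 (-5)
  let c74 : CT := .l 20 3 9
  let c75 : CT := .l 31 10 13
  let c76 : CT := .l 137 48 57
  let c77 : CT := .l 51 18 22
  let c78 : CT := .l 14 3 1
  let c79 : CT := .l 1 (-29) (-75)
  let c80 : CT := .l 126 43 53
  let c81 : CT := .l 98 35 41
  let c82 : CT := .l 2 (-31) 7
  let c83 : CT := .l 15 7 6
  let c84 : CT := .l 34 9 15
  let c85 : CT := .l 45 12 20
  let c86 : CT := .l 56 15 25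
  let c87 : CT := .l 67 18 30
  let c88 : CT := .l 43 12 20
  let c89 : CT := .l 52 15 23
  let c90 : CT := .l 43 12 19
  let c91 : CT := .l 3 3 1
  let c92 : CT := .l 3 1 2
  let c93 : CT := .l 6 1 3
  let c94 : CT := .l 11 6 2
  let c95 : CT := .l 3 1 (-1)
  let c96 : CT := .l 4 3 3
  let c97 : CT := .l 3 5 0
  let c98 : CT := .l 43 24 10
  let c99 : CT := .l 1 2 4
  let c100 : CT := .l 11 7 2
  let c101 : CT := .l 5 8 0
  let c102 : CT := .l 4 (-9) 3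
  let c103 : CT := .l 3 (-26) 6
  let c104 : CT := .l 20 11 3
  let c105 : CT := .l 75 43 15
  let c106 : CT := .l 7 4 1
  let c107 : CT := .l 3 10 (-1)
  let c108 : CT := .l 40 23 9
  let c109 : CT := .l 41 0 13
  let c110 : CT := .l 83 48 19
  let c111 : CT := .l 31 (-6) 11
  let c112 : CT := .l 17 38 (-2)
  let c113 : CT := .l 97 81 15
  let c114 : CT := .l 1 1677 (-326)
  let c115 : CT := .l 12 35 (-3)
  let c116 : CT := .l 13 11 2
  let c117 : CT := .l 10 1 3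
  let c118 : CT := .l 6 5 1
  let c119 : CT := .l 3 3 4
  let c120 : CT := .l 51 29 12
  let c121 : CT := .l 3 (-5) 2
  let c122 : CT := .l 8 9 1
  let c123 : CT := .l 19 8 5
  let c124 : CT := .l 132 77 31
  let c125 : CT := .l 2 19 (-3)
  let c126 : CT := .l 7 3 (-1)
  let c127 : CT := .l 8 5 3
  let c128 : CT := .l 5 9 0
  let c129 : CT := .l 46 27 11
  let c130 : CT := .l 1 1 1
  let c131 : CT := .l 4 3 1
  let c132 : CT := .l 2 1 (-1)
  let c133 : CT := .l 18 15 5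
  let c134 : CT := .l 3 3 2
  let c135 : CT := .l 7 5 2
  let c136 : CT := .l 9 8 3
  let c137 : CT := .l 13 11 3
  let c138 : CT := .l 17 14 6
  let c139 : CT := .l 15 13 5
  let c140 : CT := .l 1 0 (-2)
  let c141 : CT := .l 28 25 7
  let c142 : CT := .l 5 4 0
  let c143 : CT := .l 5 4 2
  let c144 : CT := .l 7 6 3
  let c145 : CT := .l 1 3 0
  let c146 : CT := .l 1 (-2) 1
  let c147 : CT := .l 2 (-9) 3
  let c148 : CT := .l 53 52 23
  let c149 : CT := .l 81 76 36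
  let c150 : CT := .l 26 17 13
  let c151 : CT := .l 57 56 25
  let c152 : CT := .l 24 21 11
  let c153 : CT := .l 1 (-43) 9
  let c154 : CT := .l 1 (-7) 2
  let c155 : CT := .l 27 25 12
  let c156 : CT := .l 10 9 5
  let c157 : CT := .l 17 15 8
  let c158 : CT := .l 27 26 12
  let c159 : CT := .l 135 127 60
  let c160 : CT := .l 5 6 5
  let c161 : CT := .l 8 11 3
  let c162 : CT := .l 16 17 7
  let c163 : CT := .l 1 2 3
  let c164 : CT := .l 31 30 14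
  let c165 : CT := .l 3 10 0
  let c166 : CT := .l 28 27 13
  let c167 : CT := .l 19 22 8
  let c168 : CT := .l 3 5 1
  let c169 : CT := .l 51 51 23
  let c170 : CT := .l 94 93 43
  let c171 : CT := .l 6 5 3
  let c172 : CT := .l 13 14 6
  let c173 : CT := .l 3 0 2
  let c174 : CT := .l 10 (-1) 7
  let c175 : CT := .l 99 95 49
  let c176 : CT := .l 23 19 12
  let c177 : CT := .l 2 43 (-7)
  let c178 : CT := .l 3 (-10) 4
  let c179 : CT := .l 13 30 3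
  let c180 : CT := .l 6 (-15) 7
  let c181 : CT := .l 23 29 10
  let c182 : CT := .l 134 135 65
  let c183 : CT := .l 17 3 11
  let c184 : CT := .l 13 (-11) 11
  let c185 : CT := .l 41 46 19
  let c186 : CT := .l 20 (-7) 15
  let c187 : CT := .l 101 97 50
  let c188 : CT := .l 82 87 39
  let c189 : CT := .l 98 123 43
  let c190 : CT := .l 25 21 13
  let c191 : CT := .l 9 6 5
  let c192 : CT := .l 2 3219 (-625)
  let c193 : CT := .l 1 116 296
  let c194 : CT := .l 4 385 981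
  let c195 : CT := .l 6 (-1) (-15)
  let c196 : CT := .l 1 (-3060) (-7865)
  let c197 : CT := .l 2 (-5) (-17)
  let c198 : CT := .l 4 9 1
  let c199 : CT := .l 1 (-17) 4
  let c200 : CT := .l 1 1792 (-348)
  .x (.y (.x (.y c0 (.x c0 (.y c0 c0))) (.y (.x (.y c0 (.x (.y c0 c1) (.y (.x c2 c2) c1))) (.y
  (.x (.y c2 c3) (.y (.x (.y c4 (.x c4 c5)) (.y (.x (.y c5 (.x c5 c6)) (.y (.x (.y c6 (.x c6
  c7)) (.y (.x (.y c7 (.x c8 c9)) c9) c1)) c1)) c1)) c1)) c1)) (.x (.y (.x c1 c1) (.x (.y (.x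
  (.y (.x c0 (.y c1 c10)) c10) (.y c11 c10)) c10) (.y (.x (.y (.x c12 c13) c13) c13) (.x c10 (.y
  c13 (.x c12 (.y c10 c14))))))) (.y (.x (.y c1 (.x c13 (.y c1 c13))) (.y c1 (.x c3 c15))) (.x
  (.y c13 (.x c14 c13)) (.y (.x c3 (.y (.x c13 c15) c3)) (.x (.y (.x c13 c3) (.x (.y c13 c16)
  c3)) c3))))))) (.x (.y (.x (.y c0 (.x c16 c0)) (.y (.x c0 c0) (.x c0 (.y c0 c0)))) (.x (.y (.x
  c16 (.y c0 (.x c0 c0))) (.x (.y (.x (.y (.x c17 c16) (.x c17 c16)) c16) (.x (.y (.x (.y (.x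
  (.y c17 (.x (.y c17 c18) c17)) c17) (.x (.y c19 (.x (.y c19 (.x c19 (.y c19 (.x c19 c20))))
  c17)) c17)) c17) (.x (.y (.x (.y (.x (.y (.x c21 (.y (.x c22 (.y c23 (.x (.y c24 c25) c26)))
  (.x c21 (.y c26 c27)))) (.x c21 (.y (.x c21 (.y (.x c22 (.y c28 c22)) c22)) c21))) (.y c17 (.x
  (.y (.x (.y (.x (.y c17 (.x (.y (.x (.y c29 c30) c17) c31) c17)) c17) c31) c17) (.x (.y (.x
  (.y (.x c31 (.y c31 (.x c22 c17))) (.x c22 (.y (.x c22 (.y (.x c22 c17) c32)) c32))) c17) c32)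
  c17)) c17))) (.x c21 (.y (.x (.y c33 c34) c34) c35))) c17) (.x (.y (.x (.y c35 (.x (.y c21
  c36) c21)) (.y (.x c35 (.y c35 (.x c35 c17))) (.x c21 c36))) (.x (.y c36 (.x (.y c36 (.x (.y
  c36 (.x (.y c36 (.x (.y c36 (.x (.y c36 (.x (.y c36 (.x (.y c36 (.x (.y c36 (.x (.y c36 c37)
  c37)) c37)) c37)) (.y c36 (.x (.y c37 (.x (.y c37 c38) (.y c37 c38))) (.y c37 c38))))) (.y c36
  (.x (.y c37 (.x (.y (.x c37 (.y c37 c38)) c38) (.y (.x (.y c37 c38) c38) c38))) (.y (.x c37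
  (.y c37 (.x (.y c37 c38) (.y c37 c38)))) c38))))) (.y c36 (.x (.y (.x c36 (.y c36 c37)) (.x
  (.y (.x (.y c37 c38) (.y (.x c37 (.y c37 c38)) c38)) c38) (.y (.x (.y (.x (.y c37 c38) c38)
  c38) c38) c38))) (.y (.x (.y c36 (.x (.y c37 (.x (.y c37 c38) (.y c37 c38))) (.y c37 c38)))
  (.y (.x c36 c37) (.x (.y (.x c37 (.y c37 c38)) c38) (.y (.x (.y c37 c38) c38) c38)))) c38)))))
  (.y c36 (.x (.y (.x c36 (.y c36 (.x (.y c36 c37) (.y c36 (.x (.y c37 (.x c37 (.y c37 c38)))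
  (.y c37 (.x (.y c37 c38) c38))))))) (.x (.y (.x (.y (.x c37 (.y c37 (.x c37 (.y c37 c38))))
  c38) (.y (.x (.y c37 c38) (.y c37 c38)) c38)) c38) (.y (.x (.y (.x (.y (.x (.y c37 c38) (.y
  c37 c38)) c38) c38) c38) c38) c38))) (.y (.x (.y c36 (.x (.y (.x c36 c37) (.x (.y c37 c38) (.y
  (.x (.y c37 c38) (.y c37 c38)) c38))) (.y (.x c37 (.y c37 (.x c37 (.y c37 c38)))) c38))) (.y
  (.x c36 (.y c36 c37)) (.x (.y (.x (.y c37 (.x (.y c37 c38) c38)) (.y c37 c38)) c38) (.y (.x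
  (.y (.x (.y c37 c38) (.y c37 c38)) c38) c38) c38)))) c38))))) (.y c36 (.x (.y (.x c36 (.y c36
  (.x (.y c36 (.x (.y c36 c37) (.y c36 (.x c37 (.y c37 (.x (.y c37 c38) (.y c37 c38))))))) (.y
  c36 (.x (.y c36 (.x (.y c37 c38) (.y (.x c37 (.y c37 c38)) c38))) (.y c37 (.x (.y (.x (.y c37
  c38) c38) c38) c38))))))) (.x (.y (.x (.y (.x (.y c36 (.x (.y c37 (.x c37 (.y c37 c38))) (.y
  c37 (.x (.y c37 c38) c38)))) (.y (.x c36 c37) (.x (.y c37 c38) (.y (.x c37 (.y c37 c38))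
  c38)))) c38) (.y (.x (.y c37 c38) (.y (.x (.y c37 (.x (.y c37 c38) (.y c37 c38))) (.y c37
  c38)) c38)) c38)) c38) (.y (.x (.y (.x (.y (.x (.y (.x c37 (.y c37 c38)) c38) (.y (.x (.y c37
  c38) c38) c38)) c38) c38) c38) c38) c38))) (.y (.x (.y c36 (.x (.y (.x c36 (.y c36 (.x c36
  c37))) (.x (.y (.x (.y c37 (.x (.y c37 c38) (.y c37 c38))) (.y c37 c38)) c38) (.y (.x (.y (.x
  c37 (.y c37 c38)) c38) (.y (.x (.y c37 c38) c38) c38)) c38))) (.y (.x (.y c36 (.x c37 (.y c37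
  (.x c37 (.y c37 c38))))) (.y c36 (.x (.y c37 c38) (.y c37 c38)))) c38))) (.y c21 (.x (.y c21
  c38) c21))) c38))))) c21)) (.y c36 c21))) (.y c17 (.x (.y (.x c36 c17) (.x (.y (.x (.y (.x c22
  (.y (.x c36 c17) (.x (.y (.x c22 c17) c38) c17))) c38) c17) c38) c17)) c17)))) c17)) (.y c16
  (.x (.y c16 (.x c17 c16)) c16)))) (.y (.x (.y (.x c16 c0) c39) c0) (.x (.y (.x c16 c40) (.x
  c16 c40)) (.y c0 c40))))) (.y c0 c0))) (.y (.x (.y (.x (.y c10 (.x c10 (.y c10 c10))) (.y (.x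
  c11 (.y (.x (.y c12 c16) c16) (.x (.y c16 (.x c11 c12)) (.y c16 (.x (.y (.x c12 c41) (.x c12
  (.y c41 c42))) c14))))) (.x (.y c11 (.x (.y c43 c44) c11)) (.y (.x (.y (.x c11 c12) c43) (.y
  (.x (.y (.x c12 c45) c46) c46) c46)) c44)))) (.x (.y (.x (.y c10 c44) c44) (.x (.y c44 c47)
  (.y c10 c10))) (.y (.x c44 (.y c44 c11)) (.x (.y c47 (.x (.y c48 c48) (.y (.x (.y c48 c48) (.y
  c11 c48)) c49))) c11)))) (.y (.x (.y c14 c14) (.y (.x (.y (.x (.y c50 c46) (.y (.x c50 c3) (.x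
  c50 c3))) c46) c3) c44)) (.x (.y (.x (.y c44 c14) c14) (.x c14 c14)) (.y (.x c14 (.y c47 c14))
  c14)))) (.x (.y (.x (.y (.x (.y (.x (.y (.x c0 (.y (.x c47 (.y c47 c48)) c51)) (.x c0 (.y (.x
  (.y c51 (.x c0 c51)) c51) (.x (.y (.x c0 c51) c0) c51)))) (.y (.x (.y (.x (.y c47 c48) c48)
  (.x (.y c52 (.x c53 c54)) (.y c52 c55))) c56) (.x (.y (.x (.y c53 (.x c51 c53)) (.y (.x (.y
  c55 (.x c54 c55)) c55) (.x (.y (.x c54 c55) c54) c55))) c57) (.y c56 c57)))) (.x (.y (.x c57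
  (.y c57 c49)) (.x c0 (.y c49 c58))) (.y c49 (.x (.y c55 c58) c58)))) (.y (.x (.y c10 (.x (.y
  (.x c56 c57) c57) c57)) c10) (.x (.y (.x c49 c49) c58) c10))) (.x (.y (.x c58 (.y c58 (.x c58
  c59))) (.x c0 (.y (.x c60 (.y (.x (.y c60 (.x c60 c51)) c51) (.x (.y (.x c61 c51) c61) c51)))
  (.x c62 (.y c62 (.x c61 (.y (.x c62 c51) c61))))))) (.y (.x c59 (.y c59 (.x c59 c10))) (.x (.y
  (.x (.y (.x (.y (.x c59 c59) (.x c51 (.y c63 c19))) (.y c59 (.x c64 c59))) (.x (.y (.x c51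
  c65) c62) (.y (.x c64 (.y c64 c64)) c62))) (.y c59 (.x (.y (.x c55 c59) c62) c59))) (.x (.y
  (.x c62 (.y c62 (.x c65 (.y (.x c62 (.y c62 (.x c54 c66))) c66)))) (.x c51 (.y (.x c51 (.y c66
  c65)) c35))) (.y (.x (.y (.x c62 c55) (.x (.y (.x (.y c62 c66) (.y c67 c67)) c66) c66)) c56)
  (.x (.y (.x (.y c66 c35) (.y c34 c67)) c35) c35)))) (.y (.x c59 c10) (.x (.y c59 c56)
  c68)))))) (.y (.x (.y (.x (.y (.x c48 c49) c49) c49) c58) (.y c49 (.x c58 c58))) (.x (.y (.x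
  c68 (.y (.x c69 (.y c58 c70)) (.x c69 (.y c70 c68)))) c68) (.y (.x (.y (.x (.y c58 (.x c70 (.y
  (.x (.y (.x c70 c70) c70) (.y (.x c71 (.y (.x c71 c72) c70)) c70)) c70))) (.y (.x (.y c58 (.x
  (.y c58 (.x c58 (.y c58 (.x (.y c58 (.x (.y c58 c73) (.y c58 c73))) c11)))) c11)) c11) (.x (.y
  (.x (.y (.x (.y (.x (.y (.x c72 c73) c70) c74) c74) (.y c74 c70)) c70) (.y c63 c70)) (.x c70
  c75)) c11))) (.x (.y (.x c70 (.y (.x c70 (.y c75 c76)) (.x (.y c76 c62) (.y c76 c62)))) (.x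
  c68 (.y (.x (.y (.x c77 (.y c62 (.x c77 c78))) c68) (.y (.x (.y (.x (.y c62 (.x c78 (.y c62
  (.x (.y c62 c78) (.y (.x (.y c62 (.x c62 (.y c62 (.x c62 (.y c62 (.x c62 (.y c62 c79)))))))
  c79) c79))))) c79) (.x (.y (.x c78 (.y (.x c78 c79) (.x c78 c79))) c80) c79)) (.y c76 (.x (.y
  c76 c80) c76))) (.x (.y (.x c78 (.y (.x c68 c79) c68)) c68) c81))) c68))) (.y (.x (.y (.x (.y
  (.x c75 (.y c75 (.x (.y c75 c76) c82))) c76) (.y (.x (.y c75 c82) (.y (.x (.y c81 c82) c81)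
  c82)) c20)) (.x (.y c20 c71) (.y c62 (.x (.y c62 (.x c71 c81)) c81)))) (.y c11 (.x c81 c11)))
  (.x (.y (.x c71 c81) (.x (.y c71 c68) (.y (.x c71 c66) c33))) (.y c81 c83))))) c11) (.x (.y
  (.x c68 (.y c35 c68)) c68) c14))))) (.x (.y (.x (.y (.x c0 (.y (.x (.y c84 c85) c61) (.x (.y
  (.x c85 (.y c86 c87)) c68) c61))) (.x c0 (.y c68 (.x c0 (.y c88 c88))))) (.y (.x (.y (.x (.y
  (.x c51 c89) (.x c90 c89)) (.y (.x (.y (.x c35 (.y c35 c90)) c89) c68) c68)) c68) c68) (.x (.y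
  c68 (.x c61 c61)) (.y c68 (.x (.y c68 c65) (.y c68 c91)))))) (.x c92 (.y (.x c61 (.y c93 c65))
  c61))) (.y (.x (.y c68 (.x (.y c68 c91) c68)) (.y (.x c68 c14) c14)) c14))) (.y (.x (.y c14
  c14) c14) c14))))) (.y (.x (.y (.x (.y (.x (.y (.x (.y (.x (.y (.x (.y (.x (.y (.x c9 c1) c1)
  c1) c1) c1) c1) c1) c1) c1) c1) c1) c1) c1) (.x (.y (.x (.y c1 (.x c15 (.y c15 c94))) (.y c1
  (.x (.y c1 (.x (.y c94 c94) c58)) c58))) (.x (.y (.x c15 (.y (.x (.y c94 (.x c15 c94)) c94)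
  (.x (.y (.x c15 c95) (.x c15 (.y c95 c96))) (.y c94 (.x (.y c94 c95) c94))))) (.x (.y (.x (.y
  (.x c3 c15) c16) c15) (.x c3 (.y c15 (.x (.y c15 (.x c3 c15)) c15)))) (.y (.x (.y (.x c15 (.y
  (.x c97 c96) c16)) c16) (.y c16 (.x c95 (.y c16 c98)))) (.x (.y (.x c15 (.y (.x c15 (.y c98
  c99)) c99)) c99) (.y (.x (.y c96 c96) c95) (.x (.y (.x (.y (.x c99 c96) (.x c99 c96)) c96) (.x
  c99 c96)) c95)))))) (.y (.x (.y (.x (.y (.x c94 (.y c10 c100)) (.x (.y c100 (.x c94 (.y (.x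
  c94 c101) (.x c94 (.y c102 (.x (.y c94 c103) c104)))))) (.y c9 (.x (.y c101 (.x (.y c105 c104)
  c105)) c9)))) (.y c100 (.x (.y c106 (.x (.y c106 c107) c106)) c106))) (.x (.y (.x (.y (.x c94
  (.y (.x c94 c107) (.x c94 (.y c107 (.x (.y (.x c108 (.y c107 (.x c108 (.y (.x c108 (.y (.x (.y
  c109 (.x c108 (.y c109 c108))) c110) c111)) (.x c108 (.y (.x c108 (.y c111 c112)) c112))))))
  c108) (.y (.x (.y (.x c110 (.y c107 (.x c110 (.y c109 (.x c110 (.y (.x (.y (.x (.y c109 c110)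
  (.y c109 c113)) c113) (.y c113 c111)) c111)))))) (.x c110 (.y (.x c110 (.y c111 c112)) c110)))
  (.y (.x (.y (.x c107 c104) (.x (.y (.x (.y c109 (.x (.y c109 (.x c109 (.y c109 c113))) (.y
  c109 (.x (.y c109 c113) c113)))) c104) c111) c104)) c104) (.x (.y (.x (.y (.x (.y c111 (.x (.y
  c111 c112) c112)) (.y c111 c112)) c112) c104) (.x (.y c112 (.x (.y (.x c112 (.y c112 (.x c110
  (.y c112 c110)))) c110) (.y (.x (.y c112 (.x (.y c112 (.x (.y c114 c114) c114)) c114)) (.y (.x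
  c112 (.y c112 c114)) c114)) c115))) (.y (.x c112 c104) (.x (.y c114 c115) c104)))) c104))) (.x
  (.y (.x (.y (.x (.y (.x (.y c112 (.x c112 c110)) c110) (.x c108 c110)) c110) c115) c110) c116)
  (.y (.x (.y c115 c116) (.y c115 c116)) c116)))))))) (.x c94 (.y (.x c94 (.y c116 c117)) (.x
  c94 c108)))) (.y (.x (.y c107 (.x c104 (.y (.x c104 c9) (.x c104 c116)))) c9) (.x (.y (.x (.y
  c116 c117) (.y (.x c104 c117) c104)) c97) (.y c9 c97)))) (.x (.y c97 c118) (.y c97 c118))) (.y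
  (.x (.y (.x (.y (.x c9 c58) c9) c106) (.x c9 c97)) c106) (.x (.y c97 c118) c58)))) c58) (.x
  (.y (.x (.y c16 (.x (.y c94 c94) (.y (.x (.y c108 c119) c108) (.x c119 (.y c108 c120))))) (.y
  (.x c16 c58) (.x (.y (.x (.y c108 c121) c58) (.x (.y (.x c110 (.y c122 c123)) (.x c120 (.y
  c120 (.x c110 (.y c120 c124))))) c58)) c58))) (.x (.y (.x (.y c94 (.x (.y c94 (.x c95 c94))
  c94)) (.y (.x c119 (.y (.x c120 (.y c120 c125)) (.x c119 c126))) (.x c127 c119))) (.x (.y (.x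
  (.y (.x c95 c94) c95) c94) c43) (.y c127 c43))) (.y (.x (.y (.x (.y (.x c108 (.y (.x c110
  c125) c125)) c128) c58) (.x (.y c129 c129) c129)) c58) (.x (.y (.x (.y (.x c126 c43) c43) c58)
  c44) c58)))) c58)))) (.y (.x (.y c1 (.x (.y c1 c100) c130)) (.y c1 (.x c130 c1))) (.x (.y (.x
  (.y (.x c100 c130) (.x c58 c130)) c130) (.x c58 c130)) (.y (.x c130 c131) c131))))) (.y c1 (.x
  (.y c1 (.x (.y (.x (.y (.x c131 c132) c131) (.y c1 c131)) c131) (.y (.x (.y c118 c44) c44)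
  c44))) (.y c1 (.x (.y c44 (.x c44 c1)) c1))))) (.x (.y (.x (.y (.x (.y (.x (.y (.x c3 (.y (.x
  (.y (.x c3 c15) c3) c15) c43)) c44) (.y (.x (.y (.x c15 c99) c46) (.y c43 c46)) c44)) (.x c44
  (.y c131 (.x c44 (.y c44 c47))))) (.y c44 (.x (.y c44 c58) c58))) (.x (.y (.x c3 (.y (.x (.y
  c47 c58) c58) c58)) c58) c58)) (.y (.x c58 c130) c58)) (.x (.y (.x (.y (.x c14 c3) c14) (.y
  (.x (.y c58 (.x c14 (.y (.x c14 c99) c14))) (.y c127 (.x (.y c127 c99) c58))) c14)) c14) (.y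
  (.x (.y c58 (.x (.y (.x c14 c58) c14) c58)) (.y c58 (.x c58 c130))) (.x c14 (.y c14 (.x c14
  c58)))))) (.y (.x (.y (.x (.y c131 c58) (.y (.x (.y c131 (.x (.y c131 (.x c131 c58)) (.y (.x
  c133 c134) c133))) (.y (.x (.y c47 (.x c134 (.y c135 (.x (.y c135 c134) c136)))) c118) (.x (.y
  (.x c134 (.y (.x c134 c137) c133)) c134) (.y (.x c136 c118) c58)))) c58)) (.x (.y (.x c130 (.y
  c58 c20)) c130) (.y (.x (.y c58 (.x (.y c132 (.x c138 c132)) (.y (.x c35 (.y c35 (.x c127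
  c136))) c136))) (.y (.x (.y c58 (.x (.y c58 c35) c139)) c134) (.x (.y c139 c139) c139)))
  c91))) (.y (.x (.y (.x (.y (.x c140 (.y (.x c141 c1) (.x c140 c142))) (.x c140 (.y (.x c140
  (.y c142 c58)) c58))) (.y (.x (.y c1 (.x (.y c1 (.x (.y c1 c57) c57)) c91)) c91) (.x (.y (.x
  (.y c57 c58) c91) c58) c91))) (.x (.y c140 (.x c136 c140)) c91)) c91) (.x (.y (.x c136 c91)
  c91) c91))) (.x (.y (.x c130 (.y c143 (.x c143 c14))) (.x c130 (.y (.x c130 (.y c14 (.x c130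
  c144))) c130))) (.y (.x (.y (.x (.y c143 (.x (.y c143 c14) c134)) (.y c91 c145)) c14) (.y (.x
  (.y c91 c145) c145) (.x (.y c14 c146) (.y c14 (.x (.y c146 (.x (.y c146 (.x c142 (.y c146 (.x
  (.y c147 (.x c142 (.y c148 (.x c142 (.y c148 (.x (.y c148 c149) c149)))))) (.y c148 (.x (.y
  c148 (.x (.y c148 (.x c149 (.y c149 c150))) (.y c148 (.x (.y c149 c150) c150)))) c148))))))
  (.y c146 (.x c148 c148)))) (.y c146 (.x (.y c91 (.x (.y (.x c148 c91) c151) c91)) c91)))))))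
  (.x (.y (.x (.y (.x c146 (.y c146 (.x (.y c146 (.x c144 c134)) c134))) (.x c144 (.y (.x (.y
  c152 (.x c144 (.y (.x (.y c152 c153) c134) c154))) c134) (.x c154 c134)))) (.y (.x c134 (.y
  (.x c146 (.y c146 c155)) (.x c155 (.y (.x c155 (.y c155 c136)) c134)))) c134)) (.x (.y (.x (.y
  c144 c144) (.y (.x c156 (.y c157 c156)) c156)) c156) (.y c134 (.x c156 c156)))) (.y (.x (.y
  (.x c140 (.y (.x c140 c158) c140)) (.x (.y (.x (.y c154 (.x c136 c140)) c140) (.x (.y (.x c136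
  c140) c134) c140)) c140)) (.y (.x (.y (.x (.y (.x c158 (.y (.x (.y (.x c158 (.y (.x c158 (.y
  c150 c158)) c158)) c158) (.y (.x (.y (.x (.y (.x c150 (.y c150 c158)) c158) (.y (.x (.y c150
  c158) (.y (.x c150 (.y c150 (.x (.y c150 (.x (.y c150 (.x c150 (.y c150 c158))) (.y c150 (.x
  (.y c150 c158) (.y c150 c159))))) (.y c150 (.x (.y c150 c159) (.y (.x (.y c150 c159) (.y c150
  c159)) c159)))))) c158)) c158)) c158) (.y (.x (.y (.x (.y (.x (.y c150 (.x (.y (.x c150 (.y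
  c150 (.x c150 (.y c150 (.x c150 c159))))) (.x (.y (.x (.y c150 c159) c159) c159) c159)) (.y
  (.x (.y c150 (.x (.y c150 c159) (.y c150 c159))) (.y c150 c159)) c159))) (.y (.x c150 c148)
  c151)) (.x (.y c159 c158) c151)) c151) c158) c151) c158)) c158)) c158)) c158) (.y (.x (.y c151
  c158) c151) (.x (.y c158 c154) (.y c160 c154)))) (.x c154 (.y c154 (.x (.y c154 c161) (.y c154
  (.x c161 c162)))))) (.y (.x (.y (.x (.y c151 c158) c163) c154) c163) (.x (.y c154 (.x c160 (.y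
  c161 c162))) c163))) (.x (.y (.x (.y (.x c140 (.y c162 c164)) (.x c164 (.y (.x c164 c165)
  c166))) (.y (.x (.y c162 c142) (.y (.x c162 (.y c162 (.x c162 (.y c162 c167)))) (.x (.y (.x
  c167 (.y c167 c165)) c165) (.y (.x (.y c167 c165) (.y (.x c167 c165) c165)) c165)))) (.x c142
  (.y c165 c166)))) (.x (.y c166 c140) c168)) (.y (.x (.y (.x (.y (.x (.y c162 c167) c160) c165)
  (.y (.x c160 (.y c169 c165)) c165)) (.x (.y (.x (.y c165 c166) c160) c168) (.y c170 c168)))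
  (.y (.x (.y c163 (.x c165 c163)) c163) (.x (.y c166 c168) c168))) c168)))) (.x (.y (.x (.y
  c168 c171) c140) (.x c134 (.y c156 (.x c134 c140)))) (.y (.x (.y c171 (.x c140 (.y (.x c140
  (.y c171 c172)) c156))) (.y (.x c171 c173) (.x (.y (.x c142 c172) c156) (.y (.x (.y c172 c172)
  (.y c172 c160)) c156)))) (.x c140 (.y (.x (.y (.x (.y c156 (.x c156 c142)) c142) (.x (.y (.x
  c140 (.y (.x (.y c174 (.x (.y (.x c140 (.y c174 (.x c140 c142))) (.x c140 (.y (.x c140 c142)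
  c140))) c142)) c142) (.x (.y (.x c140 (.y c142 (.x c175 c142))) (.x c140 (.y (.x c140 c142)
  c176))) c142))) (.x c140 (.y (.x (.y c176 c140) (.y c142 (.x (.y (.x (.y c176 (.x c140 c142))
  c142) c177) c142))) (.x c140 (.y c177 c178))))) c142)) (.y (.x (.y (.x c156 (.y c156 (.x c156
  (.y c156 (.x (.y c156 (.x c179 (.y c179 c180))) (.y c156 c181)))))) (.x (.y (.x (.y c156 c180)
  (.y (.x (.y c156 c181) (.y c156 c181)) (.x (.y c181 c174) c174))) (.x c142 (.y (.x (.y c174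
  (.x c142 (.y (.x (.y c174 (.x (.y c174 c142) (.y (.x (.y c174 c182) (.y c174 c182)) c182)))
  (.y (.x c174 (.y c174 (.x c174 (.y c174 c182)))) c182)) c182))) (.y (.x c174 (.y c174 (.x (.y
  c174 (.x (.y c174 (.x c174 (.y c174 c182))) (.y c174 c182))) (.y c174 (.x (.y c174 c182) (.y
  (.x (.y c174 c182) c182) c182)))))) (.x (.y (.x (.y (.x (.y c174 c182) (.y c174 c182)) c182)
  (.y (.x (.y (.x (.y c174 c182) c182) c182) c182) c182)) c182) c182))) (.x (.y (.x c142 (.y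
  c182 c183)) (.x c183 (.y c183 c142))) (.y (.x (.y (.x c182 (.y c182 c183)) c183) (.y (.x (.y
  c182 c183) c183) c183)) (.x (.y c183 (.x (.y c184 c175) c185)) (.y c184 c185))))))) (.y (.x
  (.y (.x (.y (.x (.y c179 c181) c181) c181) c180) c174) (.y (.x c180 (.y c181 c174)) (.x (.y
  c174 (.x (.y c174 (.x (.y c174 (.x c174 (.y c174 c182))) (.y c174 (.x (.y c174 c182) c182))))
  (.y c174 (.x (.y c174 c182) (.y (.x (.y c174 c182) c182) c182))))) (.y c174 (.x (.y (.x c174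
  (.y c174 (.x c174 (.y c174 c182)))) c182) (.y (.x (.y c174 c182) (.y c174 c182)) c182))))))
  (.x (.y (.x (.y (.x (.y c174 (.x (.y (.x c174 (.y c174 (.x c174 (.y c174 c182)))) c182) (.y
  (.x (.y c174 c182) (.y c174 c182)) c182))) (.y (.x c174 (.y c174 (.x c174 (.y c174 c182))))
  c182)) (.x c182 (.y c182 (.x (.y c182 c183) (.y c182 c183))))) (.y (.x (.y (.x (.y c174 (.x
  (.y c174 c182) c182)) (.y c174 c182)) c182) (.y (.x (.y (.x (.y c174 c182) (.y c174 c182))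
  c182) c182) c182)) (.x (.y c182 c183) (.y c182 c183)))) (.x (.y c183 (.x (.y c184 c185) c185))
  (.y (.x (.y c183 c184) (.y c184 (.x c184 c185))) c185))) (.y (.x (.y c182 (.x (.y (.x (.y c182
  c183) c183) c183) c183)) (.y (.x (.y c182 (.x c182 c182)) (.y c182 (.x (.y c182 c183) c183)))
  (.x c183 (.y c183 c184)))) (.x (.y (.x (.y c184 c185) (.y c184 c185)) (.x (.y c185 (.x c185
  c186)) (.y c185 c187))) (.y c185 (.x (.y c185 (.x c187 (.y c187 c188))) (.y c187 (.x (.y c187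
  c188) c188)))))))))) (.y (.x (.y c156 (.x (.y c156 (.x (.y c179 c181) c160)) c160)) c160) (.x
  (.y (.x (.y c174 (.x (.y (.x c174 (.y c174 (.x (.y c174 (.x c174 c182)) (.y c174 c182)))) (.x
  (.y (.x (.y (.x (.y c174 c182) c182) c182) c182) c182) c182)) (.y (.x (.y c174 (.x (.y c174
  c182) c182)) (.y c174 c182)) c182))) c160) (.x (.y (.x (.y (.x (.y c182 c183) (.y (.x c182 (.y
  c182 c183)) c183)) (.x (.y c184 (.x c184 c185)) (.y c184 c185))) (.y c183 (.x (.y c184 c185)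
  c185))) (.x (.y (.x c185 (.y c185 (.x c185 c187))) (.x (.y c187 c188) (.y (.x (.y c187 c188)
  (.y c187 c188)) c176))) (.y (.x (.y c185 c187) (.y c185 (.x c187 (.y c187 c188)))) (.x (.y
  c188 c176) c176)))) (.y (.x (.y c160 c185) c160) (.x (.y (.x (.y (.x c187 c187) (.x (.y c187
  c188) (.y c187 c188))) c160) c176) c160)))) c160))) (.x (.y (.x (.y (.x c142 (.y (.x c142 (.y
  (.x c185 (.y c185 c187)) (.x (.y c187 c176) (.y (.x (.y c187 c188) (.y c187 c188)) c176))))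
  c176)) (.x c142 (.y (.x c142 (.y c176 c142)) c142))) (.y (.x (.y (.x (.y (.x (.y c185 c187)
  (.y (.x c185 (.y c185 c187)) (.x c187 (.y c187 c188)))) (.x (.y c188 c176) c176)) (.y (.x (.y
  c187 (.x (.y c187 c188) c188)) (.y c187 c188)) c176)) c176) (.y (.x (.y (.x (.y (.x (.y c187
  c188) (.y c187 c188)) c176) (.y c188 c176)) c176) c176) (.x c176 (.y c176 (.x (.y c176 (.x (.y
  c176 (.x (.y c176 (.x (.y c176 (.x (.y c176 (.x (.y c176 c189) c189)) (.y c176 c189))) (.y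
  c176 (.x (.y (.x c176 (.y c176 c189)) c189) c189)))) (.y c176 (.x (.y (.x c176 (.y c176 (.x
  (.y c176 c189) c189))) c189) (.y (.x (.y c176 c189) (.y (.x c176 (.y c176 c189)) c189))
  c189))))) (.y c176 (.x (.y (.x c176 (.y c176 (.x (.y c176 (.x (.y c176 c189) (.y c176 c189)))
  (.y c176 c189)))) (.x (.y (.x (.y (.x (.y c176 c189) c189) c189) c189) c189) (.y c189 c190)))
  (.y (.x (.y c176 (.x (.y (.x c176 (.y c176 c189)) c189) (.y (.x (.y c176 c189) c189) c190)))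
  (.y (.x c176 (.y c176 (.x (.y c176 c189) (.y c176 c189)))) c189)) c190))))) (.y c176 (.x (.y
  (.x c176 (.y c176 (.x (.y c176 (.x (.y c176 (.x (.y c176 c189) (.y c176 c189))) (.y c176
  c189))) (.y c176 (.x (.y (.x c176 (.y c176 c189)) c189) (.y (.x (.y c176 c189) c189)
  c189)))))) (.x (.y (.x (.y (.x (.y c176 c189) (.y (.x c176 (.y c176 c189)) c189)) c190) (.y
  (.x (.y (.x (.y c176 c189) c189) c189) c189) c190)) c190) (.y (.x (.y c189 c190) c190) c190)))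
  (.y (.x (.y c176 (.x (.y (.x c176 (.y c176 (.x (.y c176 c189) (.y c176 c189)))) c189) (.y (.x
  (.y c176 (.x (.y c176 c189) c189)) (.y c176 c189)) c190))) (.y (.x c176 (.y c176 (.x (.y c176
  (.x c176 (.y c176 c189))) (.y c176 (.x (.y c176 c189) c189))))) (.x (.y (.x (.y (.x (.y c176
  c189) (.y c176 c189)) c189) c189) c190) (.y c189 c190)))) c190)))))))) (.x (.y (.x (.y (.x (.y
  c176 (.x c176 (.y c176 (.x c176 (.y c176 (.x c176 (.y c176 (.x c176 (.y c176 c190))))))))) (.y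
  c176 (.x (.y c176 (.x (.y c176 (.x (.y c176 (.x (.y c176 c190) c189)) (.y c176 c190))) (.y
  c176 (.x (.y (.x (.y c176 c189) (.y c176 c190)) c190) (.y c189 c190))))) (.y c176 (.x (.y (.x
  (.y c176 (.x c176 (.y c176 c189))) (.y c176 (.x (.y c176 c190) (.y (.x c176 c189) c190))))
  c190) (.y (.x (.y c176 c190) (.y (.x (.y c176 c189) (.y c176 c190)) c190)) c190)))))) (.x (.y
  (.x (.y (.x (.y c176 (.x c142 c190)) (.y (.x (.y c176 (.x c176 (.y c176 c190))) (.y c176 (.x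
  (.y c176 c190) c189))) c190)) c190) (.y (.x (.y (.x (.y c176 c190) (.y (.x (.y c176 c190) (.y
  c176 c190)) c190)) c190) (.y (.x (.y c189 c190) c190) c190)) c190)) c190) c190)) (.y (.x (.y
  c176 (.x (.y (.x (.y c176 (.x c176 (.y c176 (.x c176 (.y c176 c189))))) (.y c176 (.x (.y c176
  (.x (.y c176 c190) (.y (.x c176 c189) c190))) (.y c176 c189)))) (.x (.y (.x (.y (.x (.y (.x
  c176 c189) c190) c189) c190) c190) c190) c190)) (.y (.x (.y c176 (.x (.y (.x (.y c176 c189)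
  (.y c176 c190)) c190) (.y (.x (.y c176 c190) c189) c190))) (.y (.x (.y c176 (.x c176 (.y c176
  c189))) (.y c176 (.x (.y c176 c189) (.y c176 c190)))) c190)) c190))) (.y (.x (.y c176 (.x c176
  (.y c176 (.x c176 (.y c176 (.x c176 (.y c176 (.x c176 c189)))))))) (.y c176 (.x (.y c176 (.x
  (.y c176 (.x (.y c176 c189) (.y c176 c190))) (.y c176 c189))) (.y c176 (.x (.y (.x (.y c176
  (.x c176 c189)) (.y c176 c189)) c190) (.y (.x (.y c176 c190) c189) c190)))))) (.x (.y (.x (.y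
  (.x (.y c176 c189) (.y (.x (.y c176 (.x c176 c189)) (.y c176 c189)) c190)) c190) (.y (.x (.y
  (.x (.y c176 c190) c189) c190) (.y c189 c190)) c190)) c190) c190))) c190)) c190) (.y (.x (.y
  (.x (.y (.x (.y c176 (.x (.y (.x (.y c176 (.x c176 (.y c176 (.x c176 (.y c176 c189))))) (.y
  c176 (.x (.y c176 c189) (.y c176 c189)))) (.x (.y c189 c190) c190)) (.y (.x (.y c176 (.x (.y
  (.x (.y c176 c189) c189) c190) c189)) (.y (.x (.y c176 (.x c176 (.y c176 c189))) (.y c176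
  c189)) c190)) c190))) (.y (.x (.y c176 (.x c176 (.y c176 (.x c176 (.y c176 (.x c176 (.y c176
  c189))))))) (.y c176 (.x (.y c176 (.x (.y c176 c189) (.y c176 c189))) (.y c176 (.x (.y (.x (.y
  c176 c189) c189) c190) c189))))) (.x (.y (.x (.y (.x (.y c176 c189) (.y (.x (.y c176 c189)
  c189) c190)) c190) (.y c189 c190)) c190) c190))) c190) (.y (.x (.y (.x (.y c176 (.x (.y (.x
  (.y c176 (.x c176 (.y c176 c189))) (.y c176 c189)) c189) (.y (.x (.y c176 c189) (.y (.x c176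
  (.y c176 c189)) c190)) c190))) (.y (.x c176 (.y c176 (.x (.y c176 (.x (.y c176 c189) c189))
  (.y c176 c189)))) (.x (.y c189 c190) c190))) c190) (.y (.x (.y (.x (.y c176 (.x (.y (.x c176
  (.y c176 c189)) c190) c189)) (.y (.x c176 (.y c176 (.x (.y c176 c189) c189))) c189)) c190) (.y
  (.x (.y (.x (.y c176 c189) (.y (.x c176 (.y c176 c189)) c189)) c190) (.y c189 c190)) c190))
  c190)) c190)) c190) (.y c190 c190)) c177)))) (.x c142 c191)) (.y (.x (.y (.x (.y c176 (.x (.y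
  c176 (.x (.y (.x c176 (.y c176 (.x (.y c176 (.x (.y c176 (.x (.y c176 (.x c176 (.y c176
  c189))) (.y c176 (.x (.y c176 c189) c189)))) (.y c176 (.x (.y c176 c189) (.y (.x (.y c176
  c189) (.y c176 c189)) c189))))) (.y c176 (.x (.y (.x c176 (.y c176 (.x c176 (.y c176 c189))))
  (.x (.y (.x (.y c192 c192) c192) c189) c189)) (.y (.x (.y c176 (.x (.y c176 c192) (.y c176
  c192))) (.y c176 c192)) c189)))))) (.x (.y (.x (.y (.x (.y c176 (.x (.y c176 c192) (.y (.x (.y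
  c176 c192) (.y c176 c192)) c189))) (.y (.x c176 (.y c176 (.x c176 (.y c176 c192)))) c189))
  c190) (.y (.x (.y (.x (.y c176 (.x (.y c176 c192) c192)) (.y c176 c192)) c189) (.y (.x (.y (.x
  (.y c176 c192) (.y c176 c192)) c189) c189) c190)) c190)) c190) (.y (.x (.y (.x (.y c189 c190)
  c190) c190) c190) c190))) (.y (.x (.y c176 (.x (.y (.x c176 (.y c176 (.x (.y c176 (.x c176 (.y
  c176 c192))) (.y c176 (.x (.y c176 c192) (.y c176 c192)))))) (.x (.y (.x (.y (.x (.y c176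
  c192) (.y c176 c192)) c189) (.y (.x (.y c176 c192) c192) c189)) c190) (.y c189 c190))) (.y (.x
  (.y c176 (.x (.y c176 c192) (.y (.x (.y c176 c192) (.y c176 c192)) c189))) (.y (.x c176 (.y
  c176 (.x c176 (.y c176 c193)))) (.x (.y (.x (.y c176 c192) c192) c189) c189))) c190))) (.y
  c193 (.x (.y c193 c190) c193))) c190))) (.y (.x c176 (.y c176 (.x (.y c176 (.x (.y c176 (.x
  (.y c176 (.x c176 (.y c176 (.x (.y c176 c194) (.y c176 c192))))) (.y c176 (.x (.y c176 (.x (.y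
  c195 c195) c195)) c195)))) c195)) (.y c176 (.x (.y (.x c176 (.y c176 (.x c176 (.y c176 (.x (.y
  c176 c196) (.y c176 c197)))))) (.x (.y (.x c195 (.y (.x (.y c176 c195) c197) c189)) c189) (.y
  c197 c190))) c197))))) (.x c195 (.y (.x c195 c190) c190))))) (.y c197 (.x (.y c197 c190)
  c197))) (.x (.y c190 c178) (.y c177 c191))) (.y c160 (.x c197 c191))) c191)))) (.x (.y (.x (.y
  c191 c140) (.y (.x c191 c142) c198)) (.x c140 (.y (.x (.y c198 (.x c140 c199)) c142) c199)))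
  (.y (.x (.y (.x c142 c198) c198) (.y c198 (.x (.y c198 (.x (.y c198 (.x c198 (.y c198 c199)))
  (.y c198 c199))) (.y c198 (.x (.y c198 c199) (.y (.x (.y c198 c199) c199) c199)))))) (.x c142
  (.y c199 (.x c199 (.y c199 (.x c199 (.y c199 (.x c199 (.y c199 (.x c199 (.y c199 (.x c199 (.y
  c199 (.x c199 (.y c199 (.x c199 (.y c199 (.x c199 (.y c199 (.x c199 (.y c199
  c200)))))))))))))))))))))))))))))))))

theorem ok489 : okF 4 19 (-8) t489 = true := by decide +kernel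

theorem all489 : AllA 489 := allA (D := 489) (thm_of_ok ok489)
  (l :=
    [(20698, -1791, -8055, 697), (95, 18, -37, -7), (4, -1, 21, -5), (-1, 0, -2, -1),
     (-388, -203, 151, 79), (309, 194, 1588, 997), (1, 1, -1, 0), (997, -794, -388, 309),
     (-3, 2, 1, -1)])
  (by decide +kernel)

/-- a cover for the form `(3, 17, -17)` of discriminant `493` -/
def t493 : CT :=
  let c0 : CT := .l 1 0 0
  let c1 : CT := .l 2 1 0
  let c2 : CT := .l 1 1 0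
  let c3 : CT := .l 4 0 1
  let c4 : CT := .l 6 2 1
  let c5 : CT := .l 4 2 1
  let c6 : CT := .l 5 2 1
  let c7 : CT := .l 6 3 1
  let c8 : CT := .l 1 1 1
  let c9 : CT := .l 1 2 0
  let c10 : CT := .l 7 4 1
  let c11 : CT := .l 5 3 1
  let c12 : CT := .l 2 2 1
  let c13 : CT := .l 4 3 1
  let c14 : CT := .l 5 4 1
  let c15 : CT := .l 3 3 1
  let c16 : CT := .l 4 3 0
  let c17 : CT := .l 4 4 1
  let c18 : CT := .l 4 1 1
  let c19 : CT := .l 3 0 1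
  let c20 : CT := .l 6 1 2
  let c21 : CT := .l 1 (-4) 1
  let c22 : CT := .l 4 1 2
  let c23 : CT := .l 5 1 2
  let c24 : CT := .l 6 3 2
  let c25 : CT := .l 2 1 1
  let c26 : CT := .l 7 1 3
  let c27 : CT := .l 2 0 1
  let c28 : CT := .l 2 (-1) 1
  let c29 : CT := .l 1 3 0
  let c30 : CT := .l 3 2 1
  let c31 : CT := .l 7 6 2
  let c32 : CT := .l 5 3 2
  let c33 : CT := .l 4 3 2
  let c34 : CT := .l 5 4 2
  .y (.x (.y (.x c0 (.y (.x c0 c1) c2)) (.x (.y c0 (.x (.y c0 (.x c3 c3)) c0)) (.y (.x (.y c2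
  (.x c0 c4)) (.y (.x c2 (.y c2 (.x c2 c2))) (.x (.y (.x c4 c5) c6) (.y c7 c7)))) (.x (.y (.x c0
  (.y (.x c0 c6) c6)) (.x c0 c8)) (.y (.x c6 (.y c6 c5)) (.x (.y c6 c9) c9)))))) (.y (.x c2 c2)
  (.x (.y (.x (.y (.x (.y c2 c10) c1) (.x (.y c7 (.x c7 c11)) (.y (.x c11 c1) c11))) (.y (.x c2
  c2) (.x c1 (.y (.x c12 (.y (.x c12 c2) c9)) c9)))) (.x (.y (.x (.y (.x c7 c11) c11) c11) (.x
  c9 c5)) (.y c9 (.x (.y c5 (.x c11 c13)) c13)))) (.y (.x (.y c2 c9) c2) (.x (.y (.x c14 (.y c14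
  c14)) (.x c13 c13)) (.y (.x (.y c9 (.x c15 (.y (.x c15 c16) c13))) (.y c2 c17)) (.x (.y c15
  (.x (.y c15 c15) c17)) c17))))))) (.x (.y (.x (.y (.x (.y (.x c3 (.y c0 c18)) (.x c19 (.y c9
  c19))) c0) (.x (.y c19 (.x c19 (.y c19 c19))) (.y (.x c20 c0) (.x (.y (.x c20 c20) (.x (.y c21
  (.x c21 c22)) c23)) (.y c0 (.x c20 c0)))))) (.y (.x (.y c0 c0) (.y (.x c5 c5) (.x c8 (.y (.x
  (.y c5 c13) c5) (.x (.y (.x c8 c24) (.x c8 c24)) c24))))) (.x c0 (.y (.x c8 (.y (.x c8 c24)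
  c24)) (.x c25 c8))))) (.x (.y (.x (.y (.x c19 (.y (.x c19 (.y c19 (.x c19 c3))) (.x c19 (.y
  c26 c26)))) (.x c27 (.y c28 c27))) (.y (.x (.y (.x (.y c23 c23) c23) c28) c23) (.x (.y c23
  c26) c23))) (.x c27 c27)) (.y (.x (.y c0 (.x (.y c29 (.x (.y c29 c27) c27)) c0)) (.y (.x c25
  c8) c25)) (.x (.y c27 (.x c22 c25)) c25)))) (.y (.x (.y (.x (.y (.x c5 c30) (.x (.y c5 (.x (.y
  c5 c24) c5)) c30)) (.y (.x c13 c13) (.x c30 c30))) (.x (.y (.x (.y c24 c30) c30) c30) c30))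
  (.y (.x (.y (.x c13 (.y (.x c13 (.y c21 c17)) c17)) (.x (.y c13 c30) (.y c31 c30))) (.y (.x
  c17 c17) (.x (.y (.x c31 c30) c15) c15))) (.x (.y (.x c30 c12) (.x (.y (.x c30 c15) c15) c15))
  (.y c15 c15)))) (.x (.y (.x (.y (.x (.y c29 (.x c8 c32)) c32) (.x c25 (.y c32 c25))) (.y (.x
  (.y c32 c32) c30) (.x (.y (.x c32 c33) (.x c32 c25)) (.y c30 (.x c33 c30))))) (.x c25 c25))
  (.y (.x (.y (.x c34 c34) (.x (.y c34 (.x c30 c34)) (.y c34 c25))) (.y (.x c12 (.y c15 c12))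
  c12)) (.x (.y c25 (.x c33 c33)) c12)))))

theorem ok493 : okF 3 17 (-17) t493 = true := by decide +kernel

theorem all493 : AllB 493 := allB (D := 493) (thm_of_ok ok493)
  (l :=
    [(4, -1, -3, 1), (-1, -1, -6, -7)])
  (l' :=
    [(1, 0), (-1, -1)])
  (by decide +kernel)

/-- a cover for the form `(2, 21, -7)` of discriminant `497` -/
def t497 : CT :=
  let c0 : CT := .l 1 0 0
  let c1 : CT := .l 2 0 (-1)
  let c2 : CT := .l 1 1 0
  let c3 : CT := .l 7 2 1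
  let c4 : CT := .l 6 2 1
  let c5 : CT := .l 1 0 (-1)
  let c6 : CT := .l 5 1 1
  let c7 : CT := .l 3 1 1
  let c8 : CT := .l 4 0 1
  let c9 : CT := .l 1 (-8) 1
  let c10 : CT := .l 1 3 0
  let c11 : CT := .l 5 3 1
  let c12 : CT := .l 1 (-1) (-4)
  let c13 : CT := .l 1 2 0
  let c14 : CT := .l 1 1 2
  let c15 : CT := .l 6 4 1
  let c16 : CT := .l 4 2 1
  let c17 : CT := .l 1 2 5
  let c18 : CT := .l 7 2 2
  let c19 : CT := .l 3 0 1
  let c20 : CT := .l 2 0 1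
  let c21 : CT := .l 5 1 2
  let c22 : CT := .l 3 2 1
  let c23 : CT := .l 7 2 3
  let c24 : CT := .l 6 2 3
  let c25 : CT := .l 5 2 2
  let c26 : CT := .l 1 (-5) 1
  let c27 : CT := .l 3 2 2
  let c28 : CT := .l 5 2 (-1)
  let c29 : CT := .l 5 3 2
  let c30 : CT := .l 1 1 1
  let c31 : CT := .l 5 4 1
  let c32 : CT := .l 3 3 2
  let c33 : CT := .l 5 6 1
  let c34 : CT := .l 3 2 (-1)
  let c35 : CT := .l 4 4 1
  let c36 : CT := .l 1 5 13
  let c37 : CT := .l 2 2 1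
  let c38 : CT := .l 7 5 2
  let c39 : CT := .l 1 16 (-1)
  let c40 : CT := .l 6 4 5
  let c41 : CT := .l 5 3 3
  let c42 : CT := .l 3 6 1
  let c43 : CT := .l 1 (-16) 2
  let c44 : CT := .l 1 6 0
  let c45 : CT := .l 6 4 3
  let c46 : CT := .l 7 5 3
  let c47 : CT := .l 3 (-4) 2
  let c48 : CT := .l 1 4 0
  let c49 : CT := .l 3 3 1
  let c50 : CT := .l 1 5 0
  .x (.y (.x (.y c0 (.x c0 (.y c0 (.x c0 (.y c0 (.x c0 (.y c0 (.x c0 c1)))))))) (.y (.x (.y c0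
  (.x c0 (.y c0 c2))) (.y c2 (.x c2 c2))) (.x (.y (.x (.y c3 (.x (.y c0 c4) c4)) (.y (.x c4 c5)
  c4)) (.x (.y (.x (.y c6 (.x c6 c7)) c7) (.x (.y (.x c8 c7) (.x (.y (.x c9 c7) c10) c7)) c7))
  (.y (.x (.y c4 (.x c7 c4)) (.y c4 (.x c4 c5))) (.x (.y (.x c7 (.y c11 c9)) c10) (.y (.x c4 (.y
  c11 c12)) c10))))) (.y (.x (.y c13 (.x c5 (.y c13 (.x c14 (.y c6 (.x c14 (.y c6 c15))))))) (.y
  c13 (.x (.y (.x (.y c13 (.x c13 c16)) c16) (.x (.y c6 (.x c17 c16)) c16)) (.y (.x c16 c16)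
  c16)))) (.x (.y (.x c5 c14) (.x c5 (.y c14 c16))) (.y (.x (.y (.x (.y (.x c17 c16) c16) c16)
  c16) c16) c16)))))) (.x (.y (.x (.y c0 (.x c0 c0)) (.y (.x c0 (.y (.x c0 (.y c10 (.x c6 c16)))
  (.x c0 (.y c18 c7)))) (.x c0 (.y c7 c7)))) (.x (.y (.x c19 c0) c20) (.y (.x c0 (.y c21 c21))
  (.x c20 c20)))) (.y (.x (.y (.x (.y (.x (.y c10 c18) c7) c7) (.y (.x c7 (.y c16 c7)) c7)) c7)
  (.y (.x (.y (.x c16 c16) (.x c7 c5)) (.y c16 (.x c14 (.y c19 c7)))) (.x (.y c7 c7) (.y c7 (.x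
  (.y c7 c5) (.y c22 c22)))))) (.x (.y (.x (.y (.x c21 (.y c21 (.x c21 c7))) c23) (.y c7 (.x (.y
  c7 c23) c7))) (.x (.y (.x c20 c23) c20) (.y (.x (.y c20 c20) c7) (.x c20 (.y c20 c24))))) (.y
  (.x c25 (.y (.x c25 c14) (.x c5 c14))) (.x (.y (.x c20 c25) (.x c7 (.y c25 c24))) (.y c20 (.x
  (.y (.x (.y c20 (.x c25 c12)) c5) (.x (.y c24 c26) (.y c24 c26))) c5)))))))) (.y (.x (.y (.x
  c2 c2) (.x (.y (.x (.y c13 (.x (.y (.x (.y c13 (.x c27 (.y (.x c27 (.y c13 c6)) c6))) (.y c13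
  (.x (.y (.x c28 c29) c28) c29))) (.x (.y c27 c16) (.y (.x (.y (.x c6 c28) c15) c29) c15))) (.y
  (.x (.y c13 (.x (.y c6 c6) c6)) (.y (.x c13 c11) c11)) (.x (.y c15 c11) c11)))) (.y c13 c11))
  (.x (.y (.x (.y (.x c16 c11) c16) c11) c16) (.y c11 (.x c16 c22)))) (.y (.x (.y (.x c13 (.y
  c13 c15)) c15) c30) (.x (.y (.x c11 (.y c15 c10)) (.x c22 (.y (.x c22 c15) (.x c22 (.y c16
  c22))))) (.y (.x (.y c30 c10) c30) (.x (.y (.x c16 c30) (.x c15 c30)) c30)))))) (.y c2 (.x (.y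
  (.x (.y c2 (.x (.y c2 c30) c31)) c2) (.x (.y c31 (.x c30 c31)) (.y (.x c31 (.y c31 c31)) (.x
  c31 (.y (.x (.y c31 (.x c31 c32)) (.y c2 c33)) (.x (.y (.x c31 c32) (.x (.y (.x c31 c34) c35)
  c34)) (.y (.x c32 (.y (.x c32 c36) (.x c32 c36))) c35))))))) (.y c2 (.x (.y c2 (.x (.y c2 (.x
  (.y c37 c35) c37)) c37)) c2))))) (.x (.y (.x (.y (.x (.y c16 (.x c16 (.y c16 c7))) (.y (.x (.y
  c16 (.x c16 c22)) c22) (.x (.y (.x (.y (.x c29 c22) c29) c22) c22) c22))) (.x (.y (.x (.y c16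
  c22) c22) c22) c22)) (.y (.x c22 (.y (.x c38 c30) c22)) c22)) (.x (.y (.x (.y (.x (.y (.x c25
  (.y c25 c25)) c29) (.y (.x c16 c29) c29)) (.x (.y c29 (.x c14 (.y (.x c17 (.y c29 (.x c17 (.y
  c29 c17)))) c17))) (.y c29 (.x (.y c29 (.x (.y (.x (.y c39 c20) c40) c20) c41)) c16)))) (.y
  c29 (.x c29 c29))) (.x (.y (.x c20 (.y c20 (.x c20 c41))) (.x c14 (.y (.x (.y (.x c17 (.y (.x
  c17 (.y c42 c43)) (.x c17 (.y (.x c17 (.y c43 (.x c17 c41))) (.x c17 (.y (.x c17 c41)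
  c24)))))) c24) (.y c41 (.x c24 c41))) (.x (.y c26 (.x c14 c17)) (.y c26 (.x (.y (.x c17 c41)
  c44) c41)))))) (.y (.x (.y c20 (.x c16 (.y c27 c27))) (.y c29 (.x c27 c29))) (.x (.y (.x (.y
  c16 (.x c41 c16)) (.y (.x (.y (.x c16 c27) c24) c27) (.x (.y c24 c26) c27))) (.x c41 (.y (.x
  c16 c27) (.x c16 c44)))) c27)))) (.y (.x (.y c22 (.x (.y c29 (.x c29 c45)) c22)) (.y c22 (.x
  c22 c46))) (.x (.y (.x (.y c20 (.x c29 c45)) (.y (.x c20 c22) (.x c45 (.y c22 c45)))) c45) (.y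
  (.x c22 (.y c46 (.x c46 (.y c46 (.x c46 (.y (.x c46 c30) c26)))))) (.x (.y c22 c45) (.y (.x
  c46 (.y (.x c46 (.y c26 c47)) (.x c46 (.y (.x c46 (.y (.x c46 c37) c45)) c45)))) c45)))))))
  (.y (.x (.y (.x c30 (.y (.x (.y c31 c31) (.y c35 (.x c35 c35))) (.x (.y c48 c22) (.y c48
  c22)))) (.x c30 (.y (.x c22 (.y c22 c49)) (.x c30 c49)))) (.y (.x (.y (.x c35 c37) (.x (.y c48
  c22) c49)) c49) c49)) (.x (.y (.x c30 (.y (.x c30 (.y c50 c30)) c30)) (.x (.y c30 (.x (.y c30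
  c45) c37)) c30)) (.y (.x (.y (.x (.y (.x (.y c50 c37) c37) c37) c37) c37) c37) c37)))))

theorem ok497 : okF 2 21 (-7) t497 = true := by decide +kernel

theorem all497 : AllA 497 := allA (D := 497) (thm_of_ok ok497)
  (l :=
    [(181, 17, 1959, 184), (-1, 0, -5, -1), (-99, 34, 32, -11), (1, 1, -1, 0),
     (-368, 201, 119, -65)])
  (by decide +kernel)

end Pool.Agent.Mukai
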