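import Pool.Agent.Work.MP_1e087a_ag.R4.Cert1
import Pool.Agent.Work.MP_1e087a_ag.R4.Cert2
import Pool.Agent.Work.MP_1e087a_ag.R4.Cert3
import Pool.Agent.Work.MP_1e087a_ag.R4.Cert4
import Pool.Agent.Work.MP_1e087a_ag.R4.Cert5
import Pool.Agent.Work.MP_1e087a_ag.R4.Cert6
import Pool.Agent.Work.MP_1e087a_ag.R4.Cert7
import Pool.Agent.Work.MP_1e087a_ag.R4.Cert8
import Pool.Agent.Work.MP_1e087a_ag.R4.Cert9

/-!
# The discriminants
-/

namespace Pool.Agent.Mukai

theorem all_A : ∀ D ∈ (
    [5, 8, 12, 13, 17, 21, 24, 28, 29, 33, 37, 41, 44, 53, 56, 57, 61, 69, 73, 76, 77, 88, 89,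
     92, 93, 97, 101, 109, 113, 124, 129, 133, 137, 141, 149, 152, 157, 161, 172, 173, 177, 181,
     184, 188, 193, 197, 201, 209, 213, 217, 233, 236, 237, 241, 248, 249, 253, 268, 269, 277,
     281, 284, 293, 301, 309, 313, 317, 329, 332, 337, 341, 344, 349, 353, 373, 376, 381, 389,
     393, 397, 409, 412, 413, 417, 421, 428, 433, 437, 449, 453, 457, 461, 472, 489, 497] : List ℤ), AllA D := by
  intro D hD
  simp only [List.mem_cons, List.not_mem_nil, or_false] at hD
  rcases hD with rfl | rfl | rfl | rfl | rfl | rfl | rfl | rfl | rfl | rfl | rfl | rfl | rfl | rfl | rfl | rfl |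
    rfl | rfl | rfl | rfl | rfl | rfl | rfl | rfl | rfl | rfl | rfl | rfl | rfl | rfl | rfl | rfl |
    rfl | rfl | rfl | rfl | rfl | rfl | rfl | rfl | rfl | rfl | rfl | rfl | rfl | rfl | rfl | rfl |
    rfl | rfl | rfl | rfl | rfl | rfl | rfl | rfl | rfl | rfl | rfl | rfl | rfl | rfl | rfl | rfl |
    rfl | rfl | rfl | rfl | rfl | rfl | rfl | rfl | rfl | rfl | rfl | rfl | rfl | rfl | rfl | rfl |
    rfl | rfl | rfl | rfl | rfl | rfl | rfl | rfl | rfl | rfl | rfl | rfl | rfl | rfl | rfl
  · exact all5
  · exact all8
  · exact all12
  · exact all13
  · exact all17
  · exact all21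
  · exact all24
  · exact all28
  · exact all29
  · exact all33
  · exact all37
  · exact all41
  · exact all44
  · exact all53
  · exact all56
  · exact all57
  · exact all61
  · exact all69
  · exact all73
  · exact all76
  · exact all77
  · exact all88
  · exact all89
  · exact all92
  · exact all93
  · exact all97
  · exact all101
  · exact all109
  · exact all113
  · exact all124
  · exact all129
  · exact all133
  · exact all137
  · exact all141
  · exact all149
  · exact all152
  · exact all157
  · exact all161
  · exact all172
  · exact all173
  · exact all177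
  · exact all181
  · exact all184
  · exact all188
  · exact all193
  · exact all197
  · exact all201
  · exact all209
  · exact all213
  · exact all217
  · exact all233
  · exact all236
  · exact all237
  · exact all241
  · exact all248
  · exact all249
  · exact all253
  · exact all268
  · exact all269
  · exact all277
  · exact all281
  · exact all284
  · exact all293
  · exact all301
  · exact all309
  · exact all313
  · exact all317
  · exact all329
  · exact all332
  · exact all337
  · exact all341
  · exact all344
  · exact all349
  · exact all353
  · exact all373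
  · exact all376
  · exact all381
  · exact all389
  · exact all393
  · exact all397
  · exact all409
  · exact all412
  · exact all413
  · exact all417
  · exact all421
  · exact all428
  · exact all433
  · exact all437
  · exact all449
  · exact all453
  · exact all457
  · exact all461
  · exact all472
  · exact all489
  · exact all497

theorem all_B : ∀ D ∈ (
    [40, 60, 65, 85, 104, 105, 120, 140, 156, 165, 168, 185, 205, 220, 221, 232, 265, 273, 280,
     285, 296, 305, 312, 345, 348, 357, 364, 365, 377, 380, 385, 424, 440, 444, 460, 465, 481,
     485, 488, 493] : List ℤ), AllB D := by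
  intro D hD
  simp only [List.mem_cons, List.not_mem_nil, or_false] at hD
  rcases hD with rfl | rfl | rfl | rfl | rfl | rfl | rfl | rfl | rfl | rfl | rfl | rfl | rfl | rfl | rfl | rfl |
    rfl | rfl | rfl | rfl | rfl | rfl | rfl | rfl | rfl | rfl | rfl | rfl | rfl | rfl | rfl | rfl |
    rfl | rfl | rfl | rfl | rfl | rfl | rfl | rfl
  · exact all40
  · exact all60
  · exact all65
  · exact all85
  · exact all104
  · exact all105
  · exact all120
  · exact all140
  · exact all156
  · exact all165
  · exact all168
  · exact all185
  · exact all205
  · exact all220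
  · exact all221
  · exact all232
  · exact all265
  · exact all273
  · exact all280
  · exact all285
  · exact all296
  · exact all305
  · exact all312
  · exact all345
  · exact all348
  · exact all357
  · exact all364
  · exact all365
  · exact all377
  · exact all380
  · exact all385
  · exact all424
  · exact all440
  · exact all444
  · exact all460
  · exact all465
  · exact all481
  · exact all485
  · exact all488
  · exact all493

end Pool.Agent.Mukai
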