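import Pool.Agent.Work.MP_1e087a_ag.R4.Basic

/-!
# Covers of the torus by subdivided rectangles
-/

namespace Pool.Agent.Mukai

/-- a subdivision of a rectangle: a leaf carries the vector `(ρ, σ, (b, c))`, the other nodes
bisect the rectangle in the first or in the second direction -/
inductive CT : Type
  | l (ρ b c : ℤ) : CT
  | x (s t : CT) : CT
  | y (s t : CT) : CT

/-- the test at a leaf: the rectangle has the centre `(X / P, Y / Q)` and the half widths `1 / P`,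
`1 / Q` -/
def chkL (n B C ρ b c X Y P Q : ℤ) : Bool :=
  decide (0 ≤ ρ) &&
  ((n * b ^ 2 + B * (b * c) + C * c ^ 2 - 1) % ρ == 0 ||
    (n * b ^ 2 + B * (b * c) + C * c ^ 2 + 1) % ρ == 0) &&
  (let U := (ρ * X - P * b) * Q
   let V := (ρ * Y - Q * c) * P
   decide (|n * U ^ 2 + B * (U * V) + C * V ^ 2| +
    ρ * (|2 * n * U + B * V| * Q + |B * U + 2 * C * V| * P) +
    ρ ^ 2 * (|n| * Q ^ 2 + |B| * (P * Q) + |C| * P ^ 2) < P ^ 2 * Q ^ 2))

/-- the test of a subdivision -/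
def chkT (n B C : ℤ) : CT → ℤ → ℤ → ℤ → ℤ → Bool
  | .l ρ b c, X, Y, P, Q => chkL n B C ρ b c X Y P Q
  | .x s t, X, Y, P, Q => chkT n B C s (2 * X - 1) Y (2 * P) Q &&
      chkT n B C t (2 * X + 1) Y (2 * P) Q
  | .y s t, X, Y, P, Q => chkT n B C s X (2 * Y - 1) P (2 * Q) &&
      chkT n B C t X (2 * Y + 1) P (2 * Q)

variable {n B C : ℤ}

theorem chkL_sound {ρ b c X Y P Q : ℤ} (hP : 0 < P) (hQ : 0 < Q)
    (h : chkL n B C ρ b c X Y P Q = true) {r x y : ℤ} (hr : 0 < r)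
    (hx : |P * x - r * X| ≤ r) (hy : |Q * y - r * Y| ≤ r) :
    ∃ ρ σ b c κ : ℤ, (κ = 1 ∨ κ = -1) ∧ ρ * σ = qf n B C (b, c) - κ ∧
      |qf n B C (ρ * x - r * b, ρ * y - r * c)| < r ^ 2 := by
  unfold chkL at h
  simp only [Bool.and_eq_true, decide_eq_true_eq, Bool.or_eq_true, beq_iff_eq] at h
  obtain ⟨⟨hρ, hadm⟩, hb⟩ := h
  obtain ⟨κ, σ, hκ, hσ⟩ : ∃ κ σ : ℤ, (κ = 1 ∨ κ = -1) ∧ ρ * σ = qf n B C (b, c) - κ := by
    rcases hadm with h1 | h1
    · obtain ⟨σ, hσ⟩ := Int.dvd_of_emod_eq_zero h1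
      exact ⟨1, σ, Or.inl rfl, by rw [← hσ]; rfl⟩
    · obtain ⟨σ, hσ⟩ := Int.dvd_of_emod_eq_zero h1
      exact ⟨-1, σ, Or.inr rfl, by rw [← hσ, sub_neg_eq_add]; rfl⟩
  refine ⟨ρ, σ, b, c, κ, hκ, hσ, ?_⟩
  set U := (ρ * X - P * b) * Q with hU
  set V := (ρ * Y - Q * c) * P with hV
  set dx := P * x - r * X with hdx
  set dy := Q * y - r * Y with hdy
  have e1 : P * Q * (ρ * x - r * b) = r * U + ρ * Q * dx := by
    rw [hU, hdx]; ring
  have e2 : P * Q * (ρ * y - r * c) = r * V + ρ * P * dy := by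
    rw [hV, hdy]; ring
  have e3 : P ^ 2 * Q ^ 2 * qf n B C (ρ * x - r * b, ρ * y - r * c) =
      r ^ 2 * (n * U ^ 2 + B * (U * V) + C * V ^ 2) +
      (r * ρ * Q) * ((2 * n * U + B * V) * dx) + (r * ρ * P) * ((B * U + 2 * C * V) * dy) +
      ρ ^ 2 * (n * Q ^ 2 * dx ^ 2 + B * (P * Q) * (dx * dy) + C * P ^ 2 * dy ^ 2) := by
    have : P ^ 2 * Q ^ 2 * qf n B C (ρ * x - r * b, ρ * y - r * c) =
        n * (P * Q * (ρ * x - r * b)) ^ 2 +
        B * ((P * Q * (ρ * x - r * b)) * (P * Q * (ρ * y - r * c))) +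
        C * (P * Q * (ρ * y - r * c)) ^ 2 := by
      simp only [qf]
      ring
    rw [this, e1, e2]
    ring
  have hdx2 : |dx| * |dx| ≤ r * r := mul_le_mul hx hx (abs_nonneg _) hr.le
  have hdy2 : |dy| * |dy| ≤ r * r := mul_le_mul hy hy (abs_nonneg _) hr.le
  have hdxy : |dx| * |dy| ≤ r * r := mul_le_mul hx hy (abs_nonneg _) hr.le
  have b1 : |r ^ 2 * (n * U ^ 2 + B * (U * V) + C * V ^ 2)| =
      r ^ 2 * |n * U ^ 2 + B * (U * V) + C * V ^ 2| := by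
    rw [abs_mul, abs_of_nonneg (by positivity : (0:ℤ) ≤ r ^ 2)]
  have b2 : |(r * ρ * Q) * ((2 * n * U + B * V) * dx)| ≤
      r ^ 2 * (ρ * (|2 * n * U + B * V| * Q)) := by
    rw [abs_mul, abs_mul (2 * n * U + B * V), abs_of_nonneg (by positivity : 0 ≤ r * ρ * Q)]
    have h1 : |2 * n * U + B * V| * |dx| ≤ |2 * n * U + B * V| * r :=
      mul_le_mul_of_nonneg_left hx (abs_nonneg _)
    calc r * ρ * Q * (|2 * n * U + B * V| * |dx|) ≤ r * ρ * Q * (|2 * n * U + B * V| * r) :=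
          mul_le_mul_of_nonneg_left h1 (by positivity)
      _ = r ^ 2 * (ρ * (|2 * n * U + B * V| * Q)) := by ring
  have b3 : |(r * ρ * P) * ((B * U + 2 * C * V) * dy)| ≤
      r ^ 2 * (ρ * (|B * U + 2 * C * V| * P)) := by
    rw [abs_mul, abs_mul (B * U + 2 * C * V), abs_of_nonneg (by positivity : 0 ≤ r * ρ * P)]
    have h1 : |B * U + 2 * C * V| * |dy| ≤ |B * U + 2 * C * V| * r :=
      mul_le_mul_of_nonneg_left hy (abs_nonneg _)
    calc r * ρ * P * (|B * U + 2 * C * V| * |dy|) ≤ r * ρ * P * (|B * U + 2 * C * V| * r) :=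
          mul_le_mul_of_nonneg_left h1 (by positivity)
      _ = r ^ 2 * (ρ * (|B * U + 2 * C * V| * P)) := by ring
  have b4 : |ρ ^ 2 * (n * Q ^ 2 * dx ^ 2 + B * (P * Q) * (dx * dy) + C * P ^ 2 * dy ^ 2)| ≤
      r ^ 2 * (ρ ^ 2 * (|n| * Q ^ 2 + |B| * (P * Q) + |C| * P ^ 2)) := by
    rw [abs_mul, abs_of_nonneg (by positivity : (0:ℤ) ≤ ρ ^ 2)]
    have h1 : |n * Q ^ 2 * dx ^ 2| ≤ r ^ 2 * (|n| * Q ^ 2) := by
      rw [abs_mul, abs_mul, abs_of_nonneg (by positivity : (0:ℤ) ≤ Q ^ 2), sq dx, abs_mul]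
      calc |n| * Q ^ 2 * (|dx| * |dx|) ≤ |n| * Q ^ 2 * (r * r) :=
            mul_le_mul_of_nonneg_left hdx2 (by positivity)
        _ = r ^ 2 * (|n| * Q ^ 2) := by ring
    have h2 : |B * (P * Q) * (dx * dy)| ≤ r ^ 2 * (|B| * (P * Q)) := by
      rw [abs_mul, abs_mul B, abs_of_nonneg (by positivity : 0 ≤ P * Q), abs_mul]
      calc |B| * (P * Q) * (|dx| * |dy|) ≤ |B| * (P * Q) * (r * r) :=
            mul_le_mul_of_nonneg_left hdxy (by positivity)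
        _ = r ^ 2 * (|B| * (P * Q)) := by ring
    have h3 : |C * P ^ 2 * dy ^ 2| ≤ r ^ 2 * (|C| * P ^ 2) := by
      rw [abs_mul, abs_mul, abs_of_nonneg (by positivity : (0:ℤ) ≤ P ^ 2), sq dy, abs_mul]
      calc |C| * P ^ 2 * (|dy| * |dy|) ≤ |C| * P ^ 2 * (r * r) :=
            mul_le_mul_of_nonneg_left hdy2 (by positivity)
        _ = r ^ 2 * (|C| * P ^ 2) := by ring
    have h4 : |n * Q ^ 2 * dx ^ 2 + B * (P * Q) * (dx * dy) + C * P ^ 2 * dy ^ 2| ≤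
        r ^ 2 * (|n| * Q ^ 2 + |B| * (P * Q) + |C| * P ^ 2) := by
      have := abs_add_three (n * Q ^ 2 * dx ^ 2) (B * (P * Q) * (dx * dy)) (C * P ^ 2 * dy ^ 2)
      linarith
    calc ρ ^ 2 * |n * Q ^ 2 * dx ^ 2 + B * (P * Q) * (dx * dy) + C * P ^ 2 * dy ^ 2| ≤
        ρ ^ 2 * (r ^ 2 * (|n| * Q ^ 2 + |B| * (P * Q) + |C| * P ^ 2)) :=
          mul_le_mul_of_nonneg_left h4 (by positivity)
      _ = r ^ 2 * (ρ ^ 2 * (|n| * Q ^ 2 + |B| * (P * Q) + |C| * P ^ 2)) := by ring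
  have hsum : P ^ 2 * Q ^ 2 * |qf n B C (ρ * x - r * b, ρ * y - r * c)| <
      P ^ 2 * Q ^ 2 * r ^ 2 := by
    have h1 : P ^ 2 * Q ^ 2 * |qf n B C (ρ * x - r * b, ρ * y - r * c)| =
        |P ^ 2 * Q ^ 2 * qf n B C (ρ * x - r * b, ρ * y - r * c)| := by
      rw [abs_mul, abs_of_nonneg (by positivity : (0:ℤ) ≤ P ^ 2 * Q ^ 2)]
    rw [h1, e3]
    have h2 := abs_add_le (r ^ 2 * (n * U ^ 2 + B * (U * V) + C * V ^ 2) +
      (r * ρ * Q) * ((2 * n * U + B * V) * dx) + (r * ρ * P) * ((B * U + 2 * C * V) * dy))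
      (ρ ^ 2 * (n * Q ^ 2 * dx ^ 2 + B * (P * Q) * (dx * dy) + C * P ^ 2 * dy ^ 2))
    have h3 := abs_add_three (r ^ 2 * (n * U ^ 2 + B * (U * V) + C * V ^ 2))
      ((r * ρ * Q) * ((2 * n * U + B * V) * dx)) ((r * ρ * P) * ((B * U + 2 * C * V) * dy))
    have h4 : r ^ 2 * (|n * U ^ 2 + B * (U * V) + C * V ^ 2| +
        ρ * (|2 * n * U + B * V| * Q + |B * U + 2 * C * V| * P) +
        ρ ^ 2 * (|n| * Q ^ 2 + |B| * (P * Q) + |C| * P ^ 2)) < r ^ 2 * (P ^ 2 * Q ^ 2) :=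
      mul_lt_mul_of_pos_left hb (by positivity)
    have h5 : r ^ 2 * (|n * U ^ 2 + B * (U * V) + C * V ^ 2| +
        ρ * (|2 * n * U + B * V| * Q + |B * U + 2 * C * V| * P) +
        ρ ^ 2 * (|n| * Q ^ 2 + |B| * (P * Q) + |C| * P ^ 2)) =
        r ^ 2 * |n * U ^ 2 + B * (U * V) + C * V ^ 2| +
        r ^ 2 * (ρ * (|2 * n * U + B * V| * Q)) + r ^ 2 * (ρ * (|B * U + 2 * C * V| * P)) +
        r ^ 2 * (ρ ^ 2 * (|n| * Q ^ 2 + |B| * (P * Q) + |C| * P ^ 2)) := by ring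
    rw [h5] at h4
    have h6 : P ^ 2 * Q ^ 2 * r ^ 2 = r ^ 2 * (P ^ 2 * Q ^ 2) := by ring
    rw [h6]
    linarith
  exact lt_of_mul_lt_mul_left hsum (by positivity)

theorem chkT_sound (t : CT) : ∀ {X Y P Q : ℤ}, 0 < P → 0 < Q → chkT n B C t X Y P Q = true →
    ∀ {r x y : ℤ}, 0 < r → |P * x - r * X| ≤ r → |Q * y - r * Y| ≤ r →
    ∃ ρ σ b c κ : ℤ, (κ = 1 ∨ κ = -1) ∧ ρ * σ = qf n B C (b, c) - κ ∧
      |qf n B C (ρ * x - r * b, ρ * y - r * c)| < r ^ 2 := by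
  induction t with
  | l ρ b c =>
    intro X Y P Q hP hQ h r x y hr hx hy
    exact chkL_sound hP hQ h hr hx hy
  | x s t hs ht =>
    intro X Y P Q hP hQ h r x y hr hx hy
    rw [chkT, Bool.and_eq_true] at h
    rw [abs_le] at hx
    by_cases h0 : P * x - r * X ≤ 0
    · refine hs (by linarith) hQ h.1 hr ?_ hy
      rw [abs_le]
      constructor <;> nlinarith
    · refine ht (by linarith) hQ h.2 hr ?_ hy
      rw [abs_le]
      constructor <;> nlinarith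
  | y s t hs ht =>
    intro X Y P Q hP hQ h r x y hr hx hy
    rw [chkT, Bool.and_eq_true] at h
    rw [abs_le] at hy
    by_cases h0 : Q * y - r * Y ≤ 0
    · refine hs hP (by linarith) h.1 hr hx ?_
      rw [abs_le]
      constructor <;> nlinarith
    · refine ht hP (by linarith) h.2 hr hx ?_
      rw [abs_le]
      constructor <;> nlinarith

/-- the covering property from a checked subdivision of `[0, 1] × [0, 1/2]` -/
theorem cov_of_chk {t : CT} (h : chkT n B C t 1 1 2 4 = true) : Cov n B C := by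
  -- the points of the rectangle
  have base : ∀ r x y : ℤ, 0 < r → 0 ≤ x → x < r → 0 ≤ y → 2 * y ≤ r →
      ∃ ρ σ b c κ : ℤ, (κ = 1 ∨ κ = -1) ∧ ρ * σ = qf n B C (b, c) - κ ∧
        |qf n B C (ρ * x - r * b, ρ * y - r * c)| < r ^ 2 := by
    intro r x y hr hx1 hx2 hy1 hy2
    refine chkT_sound t (by norm_num) (by norm_num) h hr ?_ ?_
    · rw [abs_le]; constructor <;> linarith
    · rw [abs_le]; constructor <;> linarith
  -- all points
  intro r x y hr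
  have shift : ∀ x y k l : ℤ, (∃ ρ σ b c κ : ℤ, (κ = 1 ∨ κ = -1) ∧
      ρ * σ = qf n B C (b, c) - κ ∧
        |qf n B C (ρ * x - r * b, ρ * y - r * c)| < r ^ 2) →
      ∃ ρ σ b c κ : ℤ, (κ = 1 ∨ κ = -1) ∧ ρ * σ = qf n B C (b, c) - κ ∧
        |qf n B C (ρ * (x + r * k) - r * b, ρ * (y + r * l) - r * c)| < r ^ 2 := by
    rintro x y k l ⟨ρ, σ, b, c, κ, h1, h2, h3⟩
    refine ⟨ρ, σ + pf n B C (b, c) (k, l) + ρ * qf n B C (k, l), b + ρ * k, c + ρ * l, κ, h1,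
      ?_, ?_⟩
    · simp only [qf, pf] at h2 ⊢
      linear_combination h2
    · have e : qf n B C (ρ * (x + r * k) - r * (b + ρ * k), ρ * (y + r * l) - r * (c + ρ * l)) =
          qf n B C (ρ * x - r * b, ρ * y - r * c) := by
        simp only [qf]
        ring
      rw [e]
      exact h3
  have hx0 := Int.emod_nonneg x hr.ne'
  have hx1 := Int.emod_lt_of_pos x hr
  have hx2 := Int.emod_add_mul_ediv x r
  have hy0 := Int.emod_nonneg y hr.ne'
  have hy1 := Int.emod_lt_of_pos y hr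
  have hy2 := Int.emod_add_mul_ediv y r
  by_cases hy3 : 2 * (y % r) ≤ r
  · have h1 := shift _ _ (x / r) (y / r) (base r (x % r) (y % r) hr hx0 hx1 hy0 hy3)
    rw [hx2, hy2] at h1
    exact h1
  · push Not at hy3
    have hx0' := Int.emod_nonneg (-x) hr.ne'
    have hx1' := Int.emod_lt_of_pos (-x) hr
    have hx2' := Int.emod_add_mul_ediv (-x) r
    have h1 := shift _ _ ((-x) / r) (-(y / r) - 1) (base r ((-x) % r) (r - y % r) hr hx0' hx1'
      (by linarith) (by linarith))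
    rw [hx2'] at h1
    have h2 : r - y % r + r * (-(y / r) - 1) = -y := by
      linear_combination -hy2
    rw [h2] at h1
    obtain ⟨ρ, σ, b, c, κ, k1, k2, k3⟩ := h1
    refine ⟨ρ, σ, -b, -c, κ, k1, ?_, ?_⟩
    · rw [k2]
      simp only [qf]
      ring
    · have e : qf n B C (ρ * x - r * -b, ρ * y - r * -c) =
          qf n B C (ρ * -x - r * b, ρ * -y - r * c) := by
        simp only [qf]
        ring
      rw [e]
      exact k3

end Pool.Agent.Mukai
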