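import Pool.Agent.Work.MP_1e087a_ag.R4.Core
import Pool.Agent.Work.MP_1e087a_ag.R4.Tree

/-!
# Change of the form
-/

namespace Pool.Agent.Mukai

variable {n B C : ℤ}

/-- the statement of the theorem for a form -/
def Thm (n B C : ℤ) : Prop := ∀ ν : ℤ, ν = 1 ∨ ν = -1 → ∀ g : Mu →+ Mu,
  (∀ x, Qf n B C (g x) = Qf n B C x) → DiscActN n B C ν g →
  ((B ^ 2 - 4 * n * C) % 8 ≠ 1 ∨ ∃ v : Mu, Odd (Qf n B C v) ∧ (g v = v ∨ g v = -v)) →
  IsProd n B C (fun x => ν • g x)

/-- the conditions on the form checked by the kernel -/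
def okF (n B C : ℤ) (t : CT) : Bool :=
  decide (0 < B ^ 2 - 4 * n * C) && decide (n.natAbs ∈ goodList) &&
  decide (Nat.sqrt (B ^ 2 - 4 * n * C).toNat * Nat.sqrt (B ^ 2 - 4 * n * C).toNat ≠
    (B ^ 2 - 4 * n * C).toNat) &&
  (decide ((B ^ 2 - 4 * n * C) % 8 = 1) || (decide (B % 2 = 1) && decide (n % 2 = 1) &&
    decide (C % 2 = 1)) || (decide (B % 2 = 0) && (decide (n % 2 = 1) || decide (C % 2 = 1)))) &&
  chkT n B C t 1 1 2 4

theorem thm_of_ok {t : CT} (h : okF n B C t = true) : Thm n B C := by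
  unfold okF at h
  simp only [Bool.and_eq_true, decide_eq_true_eq, Bool.or_eq_true] at h
  obtain ⟨⟨⟨⟨h1, h2⟩, h3⟩, h4⟩, h5⟩ := h
  have hs : ¬ IsSquare (B ^ 2 - 4 * n * C) := by
    rintro ⟨m, hm⟩
    apply h3
    have e : (B ^ 2 - 4 * n * C).toNat = m.natAbs * m.natAbs := by
      rw [hm]
      have : (m * m).toNat = (m * m).natAbs := by
        have h0 : 0 ≤ m * m := mul_self_nonneg m
        omega
      rw [this, Int.natAbs_mul]
    rw [e, Nat.sqrt_eq]
  intro ν hν g hg hd hp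
  refine core (cov_of_chk h5) h1 hs ⟨(1, 0), ⟨1, 0, by norm_num⟩, by simpa [qf] using h2⟩
    hν hg hd ?_
  have hodd : ∀ a : ℤ, a % 2 = 1 → Odd a := fun a ha => Int.odd_iff.2 ha
  have heven : ∀ a : ℤ, a % 2 = 0 → Even a := fun a ha => Int.even_iff.2 ha
  by_cases h8 : (B ^ 2 - 4 * n * C) % 8 = 1
  · rcases hp with hp | hp
    · exact absurd h8 hp
    · right
      have hB : Odd B := by
        by_contra hB
        rw [Int.not_odd_iff_even] at hB
        obtain ⟨k, rfl⟩ := hB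
        have : (k + k) ^ 2 - 4 * n * C = 2 * (2 * (k ^ 2 - n * C)) := by ring
        rw [this] at h8
        omega
      have hnC : Even (n * C) := by
        by_contra hnC
        rw [Int.not_even_iff_odd] at hnC
        obtain ⟨k, hk⟩ := hB
        obtain ⟨l, hl⟩ := hnC
        obtain ⟨j, hj⟩ := Int.even_mul_succ_self k
        have : B ^ 2 - 4 * n * C = 8 * (j - l) - 3 := by
          have e1 : B ^ 2 = 4 * (k * (k + 1)) + 1 := by rw [hk]; ring
          rw [e1, hj, mul_assoc, hl]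
          ring
        omega
      exact ⟨hB, hnC, hp⟩
  · left
    rcases h4 with (h4 | h4) | h4
    · exact absurd h4 h8
    · exact Or.inl ⟨hodd _ h4.1.1, hodd _ h4.1.2, hodd _ h4.2⟩
    · refine Or.inr ⟨heven _ h4.1, ?_⟩
      rcases h4.2 with h6 | h6
      · exact Or.inl (hodd _ h6)
      · exact Or.inr (hodd _ h6)

/-! ### Transport -/

/-- the inverse of `cb a b`, for the determinant `δ = ±1` -/
def cbi (δ : ℤ) (a b x : ℤ × ℤ) : ℤ × ℤ := δ • cb (b.2, -a.2) (-b.1, a.1) x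

theorem cbi_left {δ : ℤ} {a b : ℤ × ℤ} (hδ : δ * δ = 1) (h : a.1 * b.2 - a.2 * b.1 = δ)
    (x : ℤ × ℤ) : cbi δ a b (cb a b x) = x := by
  obtain ⟨x1, x2⟩ := x
  simp only [cbi, cb]
  ext
  · simp
    linear_combination (δ * x1) * h + x1 * hδ
  · simp
    linear_combination (δ * x2) * h + x2 * hδ

theorem cbi_right {δ : ℤ} {a b : ℤ × ℤ} (hδ : δ * δ = 1) (h : a.1 * b.2 - a.2 * b.1 = δ)
    (x : ℤ × ℤ) : cb a b (cbi δ a b x) = x := by
  obtain ⟨x1, x2⟩ := x
  simp only [cbi, cb]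
  ext
  · simp
    linear_combination (δ * x1) * h + x1 * hδ
  · simp
    linear_combination (δ * x2) * h + x2 * hδ

/-- the map of the Mukai lattices -/
def JE (δ κ : ℤ) (a b : ℤ × ℤ) (hδ : δ * δ = 1) (hκ : κ * κ = 1)
    (h : a.1 * b.2 - a.2 * b.1 = δ) : Mu ≃+ Mu where
  toFun x := (x.1, κ * x.2.1, cb a b x.2.2)
  invFun x := (x.1, κ * x.2.1, cbi δ a b x.2.2)
  left_inv x := by
    obtain ⟨x1, x2, x3⟩ := x
    simp only [cbi_left hδ h]
    rw [← mul_assoc, hκ, one_mul]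
  right_inv x := by
    obtain ⟨x1, x2, x3⟩ := x
    simp only [cbi_right hδ h]
    rw [← mul_assoc, hκ, one_mul]
  map_add' x y := by
    simp only [cb]
    ext <;> simp <;> ring

theorem Thm.trans {n' B' C' κ δ : ℤ} {a b : ℤ × ℤ} (hT : Thm n' B' C') (hδ : δ = 1 ∨ δ = -1)
    (hκ : κ = 1 ∨ κ = -1) (h : a.1 * b.2 - a.2 * b.1 = δ) (hn : n' = κ * qf n B C a)
    (hB : B' = κ * pf n B C a b) (hC : C' = κ * qf n B C b) : Thm n B C := by
  have hδ' : δ * δ = 1 := by rcases hδ with rfl | rfl <;> norm_num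
  have hκ' : κ * κ = 1 := by rcases hκ with rfl | rfl <;> norm_num
  set J : Mu ≃+ Mu := JE δ κ a b hδ' hκ' h with hJ
  have hJx : ∀ x, J x = (x.1, κ * x.2.1, cb a b x.2.2) := fun x => rfl
  have hQ : ∀ v, Qf n B C (J v) = κ * Qf n' B' C' v := by
    intro v
    rw [hJx]
    simp only [Qf, qf_cb, hn, hB, hC]
    simp only [qf]
    linear_combination (-(n * a.1 ^ 2 + B * (a.1 * a.2) + C * a.2 ^ 2) * v.2.2.1 ^ 2 -
      pf n B C a b * (v.2.2.1 * v.2.2.2) -
      (n * b.1 ^ 2 + B * (b.1 * b.2) + C * b.2 ^ 2) * v.2.2.2 ^ 2) * hκ'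
  have hP : ∀ v w, Pf n B C (J v) (J w) = κ * Pf n' B' C' v w := by
    intro v w
    have e1 : Pf n' B' C' v w = Qf n' B' C' (v + w) - Qf n' B' C' v - Qf n' B' C' w := Pf_eq v w
    rw [Pf_eq, ← map_add, hQ, hQ, hQ, e1]
    ring
  have hR : ∀ v x, J (refl n' B' C' v x) = refl n B C (J v) (J x) := by
    intro v x
    have e : Qf n B C (J v) * Pf n B C (J x) (J v) = Qf n' B' C' v * Pf n' B' C' x v := by
      rw [hQ, hP]
      linear_combination (Qf n' B' C' v * Pf n' B' C' x v) * hκ'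
    rw [refl, refl, e, map_sub, map_zsmul]
  have hdisc : B' ^ 2 - 4 * n' * C' = B ^ 2 - 4 * n * C := by
    rw [hn, hB, hC]
    simp only [qf, pf]
    linear_combination (δ ^ 2 * (B ^ 2 - 4 * n * C)) * hκ' +
      κ ^ 2 * (B ^ 2 - 4 * n * C) * (a.1 * b.2 - a.2 * b.1 + δ) * h +
      (B ^ 2 - 4 * n * C) * hδ'
  intro ν hν g hg hd hp
  set g' : Mu →+ Mu := (J.symm.toAddMonoidHom.comp g).comp J.toAddMonoidHom with hg'
  have hg'x : ∀ x, J (g' x) = g (J x) := fun x => J.apply_symm_apply _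
  have h1 : ∀ x, Qf n' B' C' (g' x) = Qf n' B' C' x := by
    intro x
    have e1 := hQ (g' x)
    rw [hg'x, hg, hQ] at e1
    have hκ0 : κ ≠ 0 := by rcases hκ with rfl | rfl <;> norm_num
    exact (mul_left_cancel₀ hκ0 e1).symm
  have h2 : DiscActN n' B' C' ν g' := by
    intro φ
    obtain ⟨c, hc⟩ := hd (φ.comp J.symm.toAddMonoidHom)
    refine ⟨κ • J.symm c, fun x => ?_⟩
    have e1 := hc (J x)
    have e2 : (φ.comp J.symm.toAddMonoidHom) (J x) = φ x := by
      show φ (J.symm (J x)) = φ x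
      rw [J.symm_apply_apply]
    have e3 : (φ.comp J.symm.toAddMonoidHom) (g (J x)) = φ (g' x) := rfl
    rw [e2, e3] at e1
    have e4 : Pf n B C c (J x) = κ * Pf n' B' C' (J.symm c) x := by
      rw [← hP, J.apply_symm_apply]
    rw [e1, e4]
    simp only [Pf, pf, Prod.smul_fst, Prod.smul_snd, smul_eq_mul]
    ring
  have h3 : (B' ^ 2 - 4 * n' * C') % 8 ≠ 1 ∨
      ∃ v : Mu, Odd (Qf n' B' C' v) ∧ (g' v = v ∨ g' v = -v) := by
    rw [hdisc]
    rcases hp with hp | ⟨v, hv, hgv⟩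
    · exact Or.inl hp
    · right
      refine ⟨J.symm v, ?_, ?_⟩
      · have e1 := hQ (J.symm v)
        rw [J.apply_symm_apply] at e1
        rw [e1] at hv
        exact (Int.odd_mul.1 hv).2
      · have e1 : J (g' (J.symm v)) = g v := by rw [hg'x, J.apply_symm_apply]
        rcases hgv with h4 | h4
        · left
          rw [← J.symm_apply_apply (g' (J.symm v)), e1, h4]
        · right
          rw [← J.symm_apply_apply (g' (J.symm v)), e1, h4, map_neg]
  obtain ⟨l, l1, l2⟩ := hT ν hν g' h1 h2 h3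
  refine ⟨l.map J, ?_, fun x => ?_⟩
  · intro v hv
    obtain ⟨w, hw, rfl⟩ := List.mem_map.1 hv
    rw [hQ]
    rcases hκ with rfl | rfl <;> rcases l1 w hw with h4 | h4 <;> rw [h4] <;> norm_num
  · obtain ⟨y, rfl⟩ : ∃ y, J y = x := ⟨J.symm x, J.apply_symm_apply x⟩
    have e1 : ν • g (J y) = J (ν • g' y) := by
      rw [map_zsmul, hg'x]
    have e2 : J (ν • g' y) = J (l.foldr (fun v y => refl n' B' C' v y) y) := by
      have := l2 y
      simp only at this
      rw [this]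
    show ν • g (J y) = _
    rw [e1, e2]
    clear l1 l2 e1 e2
    induction l with
    | nil => rfl
    | cons v l ih =>
      simp only [List.foldr_cons, List.map_cons]
      rw [hR, ih]

end Pool.Agent.Mukai
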