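import Pool.Agent.Work.MP_1e087a_ag.Red
import Pool.Agent.Work.MP_1e087a_ag.R4.Trans

/-!
# From one form to all forms of the discriminant
-/

namespace Pool.Agent.Mukai

variable {n B C : ℤ}

/-- the theorem for all forms of the discriminant `D` -/
def AllA (D : ℤ) : Prop := ∀ n B C : ℤ, B ^ 2 - 4 * n * C = D → Thm n B C

/-- the theorem for all forms of the discriminant `D` which do not take the values `± 1` -/
def AllB (D : ℤ) : Prop := ∀ n B C : ℤ, B ^ 2 - 4 * n * C = D →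
  (∀ a : ℤ × ℤ, qf n B C a ≠ 1 ∧ qf n B C a ≠ -1) → Thm n B C

/-- the matrix `m` takes `(N, P, M)` to `± (n', B', C')` -/
def mat (n' B' C' N P M : ℤ) (m : ℤ × ℤ × ℤ × ℤ) : Bool :=
  let d := m.1 * m.2.2.2 - m.2.1 * m.2.2.1
  let x := N * m.1 ^ 2 + P * (m.1 * m.2.1) + M * m.2.1 ^ 2
  let y := 2 * N * (m.1 * m.2.2.1) + P * (m.1 * m.2.2.2 + m.2.1 * m.2.2.1) +
    2 * M * (m.2.1 * m.2.2.2)
  let z := N * m.2.2.1 ^ 2 + P * (m.2.2.1 * m.2.2.2) + M * m.2.2.2 ^ 2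
  (decide (d = 1) || decide (d = -1)) &&
    ((decide (n' = x) && decide (B' = y) && decide (C' = z)) ||
      (decide (n' = -x) && decide (B' = -y) && decide (C' = -z)))

theorem mat_spec {n' B' C' N P M : ℤ} {m : ℤ × ℤ × ℤ × ℤ} (h : mat n' B' C' N P M m = true)
    (hT : Thm n' B' C') : Thm N P M := by
  simp only [mat, Bool.and_eq_true, Bool.or_eq_true, decide_eq_true_eq] at h
  obtain ⟨hd, h⟩ := h
  rcases h with ⟨⟨h1, h2⟩, h3⟩ | ⟨⟨h1, h2⟩, h3⟩
  · refine hT.trans (κ := 1) (a := (m.1, m.2.1)) (b := (m.2.2.1, m.2.2.2)) hd (Or.inl rfl)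
      rfl ?_ ?_ ?_
    · rw [one_mul]; exact h1
    · rw [one_mul]; exact h2
    · rw [one_mul]; exact h3
  · refine hT.trans (κ := -1) (a := (m.1, m.2.1)) (b := (m.2.2.1, m.2.2.2)) hd (Or.inr rfl)
      rfl ?_ ?_ ?_
    · rw [neg_one_mul]; exact h1
    · rw [neg_one_mul]; exact h2
    · rw [neg_one_mul]; exact h3

/-- the vector `v` has the value `± 1` -/
def wit (N P M : ℤ) (v : ℤ × ℤ) : Bool :=
  let x := N * v.1 ^ 2 + P * (v.1 * v.2) + M * v.2 ^ 2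
  decide (x = 1) || decide (x = -1)

/-- every reduced form of the discriminant `D` is equivalent to the form `(n', B', C')` up to
the sign, by a matrix in the list, or takes the value `± 1` at a vector in the list -/
def chkD (D : ℕ) (n' B' C' : ℤ) (l : List (ℤ × ℤ × ℤ × ℤ)) (l' : List (ℤ × ℤ)) : Bool :=
  decide (D < 1024) && decide (Nat.sqrt D * Nat.sqrt D ≠ D) &&
  (List.range 16).all fun N => (List.range (N + 1)).all fun P =>
    decide (4 * N * ((D - P ^ 2) / (4 * N)) + P ^ 2 ≠ D) ||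
      decide ((D - P ^ 2) / (4 * N) < N) ||
      l.any (mat n' B' C' N P (-(((D - P ^ 2) / (4 * N) : ℕ) : ℤ))) ||
      l'.any (wit N P (-(((D - P ^ 2) / (4 * N) : ℕ) : ℤ)))

theorem chkD_spec {D : ℕ} {n' B' C' : ℤ} {l : List (ℤ × ℤ × ℤ × ℤ)} {l' : List (ℤ × ℤ)}
    (h : chkD D n' B' C' l l' = true) (hT : Thm n' B' C') {N P M : ℕ} (h0 : 0 < N)
    (h1 : P ≤ N) (h2 : N ≤ M) (hD : 4 * N * M + P ^ 2 = D) :
    Thm N P (-(M : ℤ)) ∨ ∃ v ∈ l', wit N P (-(M : ℤ)) v = true := by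
  simp only [chkD, Bool.and_eq_true, decide_eq_true_eq, List.all_eq_true, List.mem_range,
    Bool.or_eq_true, List.any_eq_true] at h
  obtain ⟨⟨h3, -⟩, h4⟩ := h
  have hN : N < 16 := by nlinarith
  have hM : (D - P ^ 2) / (4 * N) = M := by
    rw [← hD, Nat.add_sub_cancel]
    exact Nat.mul_div_cancel_left _ (by omega)
  have h5 := h4 N hN P (by omega)
  rw [hM] at h5
  rcases h5 with ((h5 | h5) | ⟨m, -, hm⟩) | h5
  · exact absurd hD h5
  · exact absurd h5 (by omega)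
  · exact Or.inl (mat_spec hm hT)
  · exact Or.inr h5

theorem chkD_sq {D : ℕ} {n' B' C' : ℤ} {l : List (ℤ × ℤ × ℤ × ℤ)} {l' : List (ℤ × ℤ)}
    (h : chkD D n' B' C' l l' = true) : ¬ IsSquare (D : ℤ) := by
  simp only [chkD, Bool.and_eq_true, decide_eq_true_eq] at h
  obtain ⟨⟨-, h3⟩, -⟩ := h
  rintro ⟨m, hm⟩
  apply h3
  have e : D = m.natAbs * m.natAbs := by
    have := congrArg Int.natAbs hm
    rw [Int.natAbs_mul] at this
    simpa using this
  rw [e, Nat.sqrt_eq]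

/-- a form with a reduced basis -/
theorem reduce {D : ℕ} (hD : B ^ 2 - 4 * n * C = D) (hs : ¬ IsSquare (D : ℤ)) :
    ∃ N P M : ℕ, 0 < N ∧ P ≤ N ∧ N ≤ M ∧ 4 * N * M + P ^ 2 = D ∧
      (Thm N P (-(M : ℤ)) → Thm n B C) ∧
      ∀ v : ℤ × ℤ, ∃ a κ : ℤ × ℤ, (κ.1 = 1 ∨ κ.1 = -1) ∧
        qf N P (-(M : ℤ)) v = κ.1 * qf n B C a := by
  have hD0 : 0 < B ^ 2 - 4 * n * C := by
    rw [hD]
    rcases Nat.eq_zero_or_pos D with h | h
    · exact absurd ⟨0, by rw [h]; simp⟩ hs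
    · exact_mod_cast h
  rw [← hD] at hs
  obtain ⟨a, b, hab, h1, h2, h3⟩ := exists_reduced hD0 hs
  have hdisc := disc_cb (n := n) (B := B) (C := C) hab
  set N₀ := qf n B C a with hN₀
  set P₀ := pf n B C a b with hP₀
  set M₀ := qf n B C b with hM₀
  have hN0 : N₀ ≠ 0 := fun h => by rw [h, zero_mul] at h3; exact lt_irrefl _ h3
  -- the signs
  obtain ⟨κ, hκ, k1, k2⟩ : ∃ κ : ℤ, (κ = 1 ∨ κ = -1) ∧ (N₀.natAbs : ℤ) = κ * N₀ ∧
      -(M₀.natAbs : ℤ) = κ * M₀ := by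
    rcases lt_trichotomy N₀ 0 with h | h | h
    · have hM : 0 < M₀ := by
        by_contra hM
        push Not at hM
        nlinarith
      exact ⟨-1, Or.inr rfl, by omega, by omega⟩
    · exact absurd h hN0
    · have hM : M₀ < 0 := by
        by_contra hM
        push Not at hM
        nlinarith
      exact ⟨1, Or.inl rfl, by omega, by omega⟩
  obtain ⟨s, hs', k3⟩ : ∃ s : ℤ, (s = 1 ∨ s = -1) ∧ (P₀.natAbs : ℤ) = κ * (s * P₀) := by
    rcases le_total 0 P₀ with h | h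
    · rcases hκ with rfl | rfl
      · exact ⟨1, Or.inl rfl, by omega⟩
      · exact ⟨-1, Or.inr rfl, by omega⟩
    · rcases hκ with rfl | rfl
      · exact ⟨-1, Or.inr rfl, by omega⟩
      · exact ⟨1, Or.inl rfl, by omega⟩
  have hss : s * s = 1 := by rcases hs' with rfl | rfl <;> norm_num
  have hκκ : κ * κ = 1 := by rcases hκ with rfl | rfl <;> norm_num
  -- the basis `a, s b`
  have hqb : qf n B C (s * b.1, s * b.2) = M₀ := by
    rw [hM₀]
    simp only [qf]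
    linear_combination (n * b.1 ^ 2 + B * (b.1 * b.2) + C * b.2 ^ 2) * hss
  have hpb : pf n B C a (s * b.1, s * b.2) = s * P₀ := by
    rw [hP₀]
    simp only [pf]
    ring
  refine ⟨N₀.natAbs, P₀.natAbs, M₀.natAbs, Int.natAbs_pos.2 hN0, ?_, ?_, ?_, ?_, ?_⟩
  · rw [Int.abs_eq_natAbs, Int.abs_eq_natAbs] at h1
    exact_mod_cast h1
  · rw [Int.abs_eq_natAbs, Int.abs_eq_natAbs] at h2
    exact_mod_cast h2
  · have e : (4 * N₀.natAbs * M₀.natAbs + P₀.natAbs ^ 2 : ℤ) = D := by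
      have e1 : (M₀.natAbs : ℤ) = -(κ * M₀) := by linarith
      rw [e1, k1, k3, ← hD, ← hdisc]
      linear_combination (-4 * N₀ * M₀ + s ^ 2 * P₀ ^ 2) * hκκ + P₀ ^ 2 * hss
    exact_mod_cast e
  · intro hT
    refine hT.trans (κ := κ) (δ := s) (a := a) (b := (s * b.1, s * b.2)) hs' hκ ?_ ?_ ?_ ?_
    · linear_combination s * hab
    · rw [k1]
    · rw [hpb, k3]
    · rw [hqb, k2]
  · intro v
    refine ⟨cb a (s * b.1, s * b.2) v, (κ, 0), hκ, ?_⟩
    rw [qf_cb, hqb, hpb, ← hN₀, k1, k2, k3]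
    simp only [qf]
    ring

theorem allA {D : ℕ} {n' B' C' : ℤ} {l : List (ℤ × ℤ × ℤ × ℤ)}
    (hT : Thm n' B' C') (h : chkD D n' B' C' l [] = true) : AllA D := by
  intro n B C hD
  obtain ⟨N, P, M, h1, h2, h3, h4, h5, -⟩ := reduce hD (chkD_sq h)
  rcases chkD_spec h hT h1 h2 h3 h4 with h6 | ⟨v, hv, -⟩
  · exact h5 h6
  · simp at hv

theorem allB {D : ℕ} {n' B' C' : ℤ} {l : List (ℤ × ℤ × ℤ × ℤ)} {l' : List (ℤ × ℤ)}
    (hT : Thm n' B' C') (h : chkD D n' B' C' l l' = true) : AllB D := by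
  intro n B C hD hne
  obtain ⟨N, P, M, h1, h2, h3, h4, h5, h6⟩ := reduce hD (chkD_sq h)
  rcases chkD_spec h hT h1 h2 h3 h4 with h7 | ⟨v, -, hv⟩
  · exact h5 h7
  · exfalso
    obtain ⟨a, κ, hκ, ha⟩ := h6 v
    simp only [wit, Bool.or_eq_true, decide_eq_true_eq] at hv
    obtain ⟨g1, g2⟩ := hne a
    have e : qf N P (-(M : ℤ)) v = N * v.1 ^ 2 + P * (v.1 * v.2) + -(M : ℤ) * v.2 ^ 2 := rfl
    rw [← e, ha] at hv
    rcases hκ with hκ | hκ <;> rw [hκ] at hv <;> rcases hv with hv | hv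
    · exact g1 (by linarith)
    · exact g2 (by linarith)
    · exact g2 (by linarith)
    · exact g1 (by linarith)

end Pool.Agent.Mukai
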